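import Mathlib
import Pool.Agent.H56.SMC.Basic
import Pool.Agent.H56.SMC.CfgDefs
import Pool.Agent.H56.SMC.UDefs
import Pool.Agent.H56.SL.A1

/-! Strong monodromy, simplicial critical facets, part R1: this file joins the modules LDefs, LB, CFG5, KDL, TFL, RKL, RAL, COREL, DEGL. -/

set_option autoImplicit false

section S_LDefs

/-!
# Mixed supports

A family `ℓ_k`, `k : Fin s`, of functionals (the operators used are `D_k = Dop p a c (ℓ k)`), a set
`P` of indices (the directions without logarithmic poles).  Components: index sets `K`;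
`LL ℓ P K = {u : ℓ_i(u) ≥ -1 for i ∈ P, and ℓ_i(u) ≥ 0 for i ∈ P, i ∉ K}`.
-/

set_option autoImplicit false

namespace Pool.Agent.H37.T5

open Finset AddMonoidAlgebra
open Pool.Agent.H56.SMC

/-- The lattice points allowed in the components with index set `K`. -/
def LL {d s : ℕ} (ℓ : Fin s → Lat d) (P K : Finset (Fin s)) : Set (Lat d) :=
  {u | ∀ i ∈ P, -1 ≤ dt (ℓ i) u ∧ (i ∉ K → 0 ≤ dt (ℓ i) u)}

section
variable {R : Type} [CommRing R] {d s : ℕ} {ι : Type} [Fintype ι]

/-- `x = ∑_k D_k z_k` with `z_k` supported in `S` and allowed for the component `k`. -/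
def ExL (p : Fin d → R) (a : ι → Lat d) (c : ι → R) (ℓ : Fin s → Lat d) (P : Finset (Fin s))
    (S : Set (Lat d)) (x : LP R d) : Prop :=
  ∃ z : Fin s → LP R d, (∀ k, Supp (S ∩ LL ℓ P {k}) (z k)) ∧
    x = ∑ k, Dop p a c (ℓ k) (z k)

/-- Exactness at `H_1` of the mixed complex of the symbols. -/
def KExactL (a : ι → Lat d) (c : ι → R) (ℓ : Fin s → Lat d) (P : Finset (Fin s))
    (S : Set (Lat d)) : Prop :=
  ∀ r : Fin s → LP R d, (∀ k, Supp (S ∩ LL ℓ P {k}) (r k)) → ∑ k, gs a c (ℓ k) * r k = 0 →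
    ∃ y : Fin s → Fin s → LP R d, (∀ k l, Supp (S ∩ LL ℓ P {k, l}) (y k l)) ∧
      (∀ k l, y k l = -y l k) ∧ ∀ k, r k = ∑ l, gs a c (ℓ l) * y k l

end

end Pool.Agent.H37.T5

end S_LDefs

section S_LB

/-!
# LB: basic lemmas on mixed supports
-/

set_option autoImplicit false

namespace Pool.Agent.H56.T5

open Finset AddMonoidAlgebra
open Pool.Agent.H56.SMC Pool.Agent.H37.T5

theorem LL_mono {d s : ℕ} (ℓ : Fin s → Lat d) {P P' K K' : Finset (Fin s)} (hP : P ⊆ P')
    (hK : K ⊆ K') : LL ℓ P' K ⊆ LL ℓ P K' := by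
  intro u hu i hi
  exact ⟨(hu i (hP hi)).1, fun h => (hu i (hP hi)).2 fun h' => h (hK h')⟩

theorem LL_empty {d s : ℕ} (ℓ : Fin s → Lat d) (P K : Finset (Fin s)) :
    LL ℓ P ∅ ⊆ LL ℓ P K := LL_mono ℓ (Subset.refl P) (Finset.empty_subset K)

theorem LL_add {d s : ℕ} (ℓ : Fin s → Lat d) (P K : Finset (Fin s)) (b : Lat d)
    (hb : ∀ i ∈ P, 0 ≤ dt (ℓ i) b) (u : Lat d) (hu : u ∈ LL ℓ P K) : u + b ∈ LL ℓ P K := by
  intro i hi
  have h1 := hb i hi
  rw [dt_add]
  refine ⟨by have := (hu i hi).1; omega, fun h => ?_⟩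
  have := (hu i hi).2 h
  omega

section
variable {R : Type} [CommRing R] {d s : ℕ} {ι : Type} [Fintype ι]

/-- The symbol of the component `k` raises the level of `ℓ_k`. -/
theorem LL_gs (a : ι → Lat d) (c : ι → R) (ℓ : Fin s → Lat d) (P K : Finset (Fin s))
    (hPa : ∀ k ∈ P, ∀ i, 0 ≤ dt (ℓ k) (a i)) (S : Set (Lat d))
    (hS : ∀ u ∈ S, ∀ i, c i ≠ 0 → u + a i ∈ S) (k : Fin s) (z : LP R d)
    (hz : Supp (S ∩ LL ℓ P (insert k K)) z) : Supp (S ∩ LL ℓ P K) (gs a c (ℓ k) * z) := by
  intro u hu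
  rw [gs_mul_coeff] at hu
  obtain ⟨i, -, hi⟩ := exists_ne_zero_of_sum_ne_zero hu
  have h1 : z.coeff (u - a i) ≠ 0 := fun h0 => hi (by rw [h0, mul_zero])
  have h2 : c i ≠ 0 := fun h0 => hi (by rw [h0, zero_mul, zero_mul])
  have h3 : dt (ℓ k) (a i) ≠ 0 := fun h0 => hi (by rw [h0, Int.cast_zero, mul_zero, zero_mul])
  obtain ⟨h4, h5⟩ := hz _ h1
  refine ⟨by have := hS _ h4 i h2; rwa [sub_add_cancel] at this, ?_⟩
  intro j hj
  have h6 := h5 j hj
  have h7 := hPa j hj i
  rw [dt_sub] at h6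
  refine ⟨by have := h6.1; omega, fun hjK => ?_⟩
  by_cases hjk : j = k
  · subst hjk
    have := h6.1
    omega
  · have := h6.2 (by simp [hjk, hjK])
    omega

/-- The operator of the component `k` maps to the supports without `k`. -/
theorem LL_Dop (p : Fin d → R) (a : ι → Lat d) (c : ι → R) (ℓ : Fin s → Lat d)
    (P K : Finset (Fin s)) (hP1 : ∀ k ∈ P, pv p (ℓ k) = 1)
    (hPa : ∀ k ∈ P, ∀ i, 0 ≤ dt (ℓ k) (a i)) (S : Set (Lat d))
    (hS : ∀ u ∈ S, ∀ i, c i ≠ 0 → u + a i ∈ S) (k : Fin s) (z : LP R d)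
    (hz : Supp (S ∩ LL ℓ P (insert k K)) z) : Supp (S ∩ LL ℓ P K) (Dop p a c (ℓ k) z) := by
  unfold Dop
  refine Supp.sub ?_ (LL_gs a c ℓ P K hPa S hS k z hz)
  intro u hu
  rw [dg_coeff] at hu
  have h1 : z.coeff u ≠ 0 := fun h0 => hu (by rw [h0, mul_zero])
  obtain ⟨h4, h5⟩ := hz _ h1
  refine ⟨h4, fun j hj => ⟨(h5 j hj).1, fun hjK => ?_⟩⟩
  by_cases hjk : j = k
  · subst hjk
    have h6 := (h5 j hj).1
    rcases h6.lt_or_eq with h7 | h7
    · omega
    · exfalso
      apply hu
      rw [hP1 j hj, ← h7]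
      push_cast
      ring
  · exact (h5 j hj).2 (by simp [hjk, hjK])

/-- All operators preserve the supports. -/
theorem LL_Dop_any (p : Fin d → R) (a : ι → Lat d) (c : ι → R) (ℓ : Fin s → Lat d)
    (P K : Finset (Fin s)) (hPa : ∀ k ∈ P, ∀ i, 0 ≤ dt (ℓ k) (a i)) (S : Set (Lat d))
    (hS : ∀ u ∈ S, ∀ i, c i ≠ 0 → u + a i ∈ S) (g : Lat d) (z : LP R d)
    (hz : Supp (S ∩ LL ℓ P K) z) : Supp (S ∩ LL ℓ P K) (Dop p a c g z) :=
  hz.Dop p a c g (fun (u : Lat d) (hu : u ∈ S ∩ LL ℓ P K) i hi =>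
    (⟨hS u hu.1 i hi, LL_add ℓ P K (a i) (fun k hk => hPa k hk i) u hu.2⟩ :
      u + a i ∈ S ∩ LL ℓ P K))

theorem pv_fam (p : Fin d → R) (ℓ : Fin s → Lat d) (θ : Fin s → ℤ) :
    pv p (∑ k, θ k • ℓ k) = ∑ k, (θ k : R) * pv p (ℓ k) := by
  unfold pv
  simp only [Finset.sum_apply, Pi.smul_apply, smul_eq_mul, Int.cast_sum, Int.cast_mul,
    Finset.sum_mul, Finset.mul_sum]
  rw [Finset.sum_comm]
  exact sum_congr rfl fun k _ => sum_congr rfl fun j _ => by ring

theorem dt_fam (ℓ : Fin s → Lat d) (θ : Fin s → ℤ) (u : Lat d) :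
    dt (∑ k, θ k • ℓ k) u = ∑ k, θ k * dt (ℓ k) u := by
  rw [dt_comm, dt_sum]
  exact sum_congr rfl fun k _ => by rw [dt_zsmul, dt_comm]

/-- `D_g = ∑ θ_k D_{ℓ_k}` for `g = ∑ θ_k ℓ_k`. -/
theorem Dop_fam (p : Fin d → R) (a : ι → Lat d) (c : ι → R) (ℓ : Fin s → Lat d)
    (θ : Fin s → ℤ) (x : LP R d) :
    Dop p a c (∑ k, θ k • ℓ k) x = ∑ k, (θ k : R) • Dop p a c (ℓ k) x := by
  apply lp_ext; intro u
  rw [coeff_finsum]
  simp only [Dop_coeff, coeff_smul', mul_sub, mul_sum, sum_sub_distrib, pv_fam, dt_fam]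
  congr 1
  · push_cast
    rw [← sum_add_distrib, sum_mul]
    exact sum_congr rfl fun k _ => by ring
  · rw [sum_comm]
    refine sum_congr rfl fun i _ => ?_
    push_cast
    rw [mul_sum, sum_mul]
    exact sum_congr rfl fun k _ => by ring

/-- Koszul boundaries are cycles. -/
theorem Dop_antisymmL (p : Fin d → R) (a : ι → Lat d) (c : ι → R) (ℓ : Fin s → Lat d)
    (h2 : ∀ x : LP R d, x = -x → x = 0) (y : Fin s → Fin s → LP R d)
    (hy : ∀ j k, y j k = -y k j) :
    ∑ j, Dop p a c (ℓ j) (∑ k, Dop p a c (ℓ k) (y j k)) = 0 := by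
  apply h2
  simp only [Dop_sum]
  rw [← sum_neg_distrib]
  conv_lhs => rw [sum_comm]
  refine sum_congr rfl fun j _ => ?_
  rw [← sum_neg_distrib]
  refine sum_congr rfl fun k _ => ?_
  rw [hy k j, Dop_neg, Dop_neg, Dop_comm]

variable {p : Fin d → R} {a : ι → Lat d} {c : ι → R} {ℓ : Fin s → Lat d} {P : Finset (Fin s)}

theorem ExL.add {S : Set (Lat d)} {x y : LP R d} (hx : ExL p a c ℓ P S x)
    (hy : ExL p a c ℓ P S y) : ExL p a c ℓ P S (x + y) := by
  obtain ⟨z, hz, rfl⟩ := hx
  obtain ⟨w, hw, rfl⟩ := hy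
  exact ⟨fun j => z j + w j, fun j => (hz j).add (hw j), by
    simp only [Dop_add, sum_add_distrib]⟩

theorem ExL.smul {S : Set (Lat d)} {x : LP R d} (r : R) (hx : ExL p a c ℓ P S x) :
    ExL p a c ℓ P S (r • x) := by
  obtain ⟨z, hz, rfl⟩ := hx
  exact ⟨fun j => r • z j, fun j => (hz j).smul r, by
    simp only [Dop_smul, smul_sum]⟩

theorem ExL.neg {S : Set (Lat d)} {x : LP R d} (hx : ExL p a c ℓ P S x) :
    ExL p a c ℓ P S (-x) := by
  have := ExL.smul (-1) hx
  rwa [neg_one_smul] at this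

theorem ExL.sub {S : Set (Lat d)} {x y : LP R d} (hx : ExL p a c ℓ P S x)
    (hy : ExL p a c ℓ P S y) : ExL p a c ℓ P S (x - y) := by
  rw [sub_eq_add_neg]; exact ExL.add hx (ExL.neg hy)

theorem ExL.zero {S : Set (Lat d)} : ExL p a c ℓ P S 0 :=
  ⟨fun _ => 0, fun _ => Supp.zero _, by simp [Dop_zero]⟩

theorem ExL.mono {S T : Set (Lat d)} {P' : Finset (Fin s)} (hST : S ⊆ T) (hP : P' ⊆ P)
    {x : LP R d} (hx : ExL p a c ℓ P S x) : ExL p a c ℓ P' T x := by
  obtain ⟨z, hz, rfl⟩ := hx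
  exact ⟨z, fun k => (hz k).mono (fun u (hu : u ∈ S ∩ LL ℓ P {k}) =>
    (⟨hST hu.1, LL_mono ℓ hP (Subset.refl _) hu.2⟩ : u ∈ T ∩ LL ℓ P' {k})), rfl⟩

/-- `D_g z` is exact for every combination `g` of the `ℓ_k` if `z` has no logarithmic poles. -/
theorem ExL.of_Dop {S : Set (Lat d)} (g : Lat d) (θ : Fin s → ℤ) (hg : g = ∑ k, θ k • ℓ k)
    {z : LP R d} (hz : Supp (S ∩ LL ℓ P ∅) z) : ExL p a c ℓ P S (Dop p a c g z) := by
  refine ⟨fun k => (θ k : R) • z, fun k => (hz.mono (fun u (hu : u ∈ S ∩ LL ℓ P ∅) =>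
    (⟨hu.1, LL_empty ℓ P {k} hu.2⟩ : u ∈ S ∩ LL ℓ P {k}))).smul _, ?_⟩
  rw [hg, Dop_fam]
  simp only [Dop_smul]

/-- one term -/
theorem ExL.single_comp {S : Set (Lat d)} (k : Fin s) {z : LP R d}
    (hz : Supp (S ∩ LL ℓ P {k}) z) : ExL p a c ℓ P S (Dop p a c (ℓ k) z) := by
  classical
  refine ⟨fun j => if j = k then z else 0, fun j => ?_, ?_⟩
  · by_cases h : j = k
    · subst h; simpa using hz
    · simp only [h, if_false]; exact Supp.zero _
  · rw [Finset.sum_eq_single k]
    · simp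
    · intro j _ hj
      simp [hj, Dop_zero]
    · intro h
      exact absurd (Finset.mem_univ _) h

/-- The exact elements as a submodule. -/
def exLS (p : Fin d → R) (a : ι → Lat d) (c : ι → R) (ℓ : Fin s → Lat d) (P : Finset (Fin s))
    (S : Set (Lat d)) : Submodule R (LP R d) where
  carrier := {x | ExL p a c ℓ P S x}
  add_mem' := fun hx hy => ExL.add hx hy
  zero_mem' := ExL.zero
  smul_mem' := fun r _ hx => ExL.smul r hx

theorem mem_exLS (p : Fin d → R) (a : ι → Lat d) (c : ι → R) (ℓ : Fin s → Lat d)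
    (P : Finset (Fin s)) (S : Set (Lat d)) (x : LP R d) :
    x ∈ exLS p a c ℓ P S ↔ ExL p a c ℓ P S x := Iff.rfl

end

theorem ExL.lmap {R R' : Type} [CommRing R] [CommRing R'] {d s : ℕ} {ι : Type} [Fintype ι]
    {S : Set (Lat d)} (f : R →+* R') {p : Fin d → R} {a : ι → Lat d} {c : ι → R}
    {ℓ : Fin s → Lat d} {P : Finset (Fin s)} {x : LP R d} (hx : ExL p a c ℓ P S x) :
    ExL (fun j => f (p j)) a (fun i => f (c i)) ℓ P S (SMC.lmap f x) := by
  obtain ⟨z, hz, rfl⟩ := hx
  refine ⟨fun j => SMC.lmap f (z j), fun j => (hz j).lmap f, ?_⟩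
  rw [lmap_sum]
  exact sum_congr rfl fun j _ => lmap_Dop f p a c _ _

/-- The shift of the indices of the coordinates `q_j`. -/
def sh {n : ℕ} (D : Finset (Fin n)) : Finset (Fin (n + 2)) :=
  D.map ⟨fun j => j.succ.succ, fun i j h => by
    simpa using h⟩

theorem mem_sh {n : ℕ} {D : Finset (Fin n)} {k : Fin (n + 2)} :
    k ∈ sh D ↔ ∃ j ∈ D, j.succ.succ = k := by
  unfold sh
  rw [Finset.mem_map]
  rfl

theorem sh_mono {n : ℕ} {D D' : Finset (Fin n)} (h : D ⊆ D') : sh D ⊆ sh D' :=
  Finset.map_subset_map.2 h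

/-- Polynomial supports. -/
def Pos (n : ℕ) : Set (Lat n) := {u | ∀ j, 0 ≤ u j}

/-- `vec l l2 q` without logarithmic poles. -/
theorem vec_mem_LL {n : ℕ} (D : Finset (Fin n)) (K : Finset (Fin (n + 2))) (l l2 : ℤ)
    (q : Lat n) (hq : ∀ j ∈ D, 0 ≤ q j) : vec l l2 q ∈ LL ev (sh D) K := by
  intro k hk
  obtain ⟨j, hj, rfl⟩ := mem_sh.1 hk
  have h1 : dt (ev j.succ.succ) (vec l l2 q) = q j := by
    rw [dt_ev]; simp [vec]
  rw [h1]
  have := hq j hj
  exact ⟨by omega, fun _ => this⟩

end Pool.Agent.H56.T5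

end S_LB

section S_CFG5

/-!
# CFG5: the configuration for T5 (no walls)
-/

set_option autoImplicit false

namespace Pool.Agent.H56.T5

open Finset AddMonoidAlgebra
open Pool.Agent.H56.SMC Pool.Agent.H37.T5

/-- No walls. -/
def noW (n : ℕ) : Fin 0 → Fin n → ℤ := fun k => k.elim0

/-- The exponents `(1,0;a_i)`, `(0,1;0)`, `(0,1;M e_j)`. -/
def A5 {n r : ℕ} (a : Fin r → (Fin n →₀ ℕ)) (M : ℤ) :
    Fin r ⊕ (Option (Fin n) ⊕ Fin 0) → Lat (n + 2) := cA a (bbM (noW n) M)

/-- The functional `(-N(w),0;w)`. -/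
noncomputable def h5 {n r : ℕ} (a : Fin r → (Fin n →₀ ℕ)) (w : Fin n → ℕ) : Lat (n + 2) :=
  vec (-(H22.wmin a w : ℤ)) 0 (fun j => (w j : ℤ))

/-- The region `{u : m0 u + y0 ∈ cone}`. -/
def RG {d : ℕ} {ι : Type} (a : ι → Lat d) (m0 : ℤ) (y0 : Lat d) : Set (Lat d) :=
  {u | InC a (m0 • u + y0)}

theorem A5_inl {n r : ℕ} (a : Fin r → (Fin n →₀ ℕ)) (M : ℤ) (i : Fin r) :
    A5 a M (Sum.inl i) = vec 1 0 (fun j => (a i j : ℤ)) := rfl

theorem A5_none {n r : ℕ} (a : Fin r → (Fin n →₀ ℕ)) (M : ℤ) :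
    A5 a M (Sum.inr (Sum.inl none)) = vec 0 1 0 := rfl

theorem A5_some {n r : ℕ} (a : Fin r → (Fin n →₀ ℕ)) (M : ℤ) (j : Fin n) :
    A5 a M (Sum.inr (Sum.inl (some j))) = vec 0 1 (M • ev j) := rfl

end Pool.Agent.H56.T5

end S_CFG5

section S_KDL

/-!
# KDL: Koszul exactness of the operators from Koszul exactness of the symbols, mixed supports

ADAPT the proof of `kd` (`Pool/Agent/H56/SMC/KD.lean`): there `ℓ = ev`, `P = ∅`.

Proof.  Induction on `n`: the claim for `z` with `dt δ u < C + n` on the supports (`dt δ u ≥ C` on `S`; for `n = 0` `z = 0`).  Let `t_k` be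
the part of `z_k` with `dt δ u = N = C + n`.  `D_k = dg(..) - g_k`, `dg` preserves the degree `dt δ`, `g_k` raises it by `1` (`hδ`).  The
part of `∑ D_k z_k = 0` of degree `N+1` is `-∑ g_k t_k = 0`.  `hK` gives `t_k = ∑_l g_l y_kl`, `y_kl` supported in `S ∩ LL ℓ P {k, l}`;
replace `y_kl` by its part of degree `N-1` (still antisymmetric, same supports, same equation).  Then `z'_k = z_k + ∑_l D_l y_kl` is
supported in `S ∩ LL ℓ P {k}` (`LL_Dop` of `LB` with `K = {k}`, after rewriting `{k, l} = insert l {k}`), in degrees `< N`, and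
`∑_k D_k z'_k = 0` (`Dop_antisymmL`, `lp_eq_neg_self`), so `z'_k = ∑_l D_l y'_kl` and `z_k = ∑_l D_l (y'_kl - y_kl)`.
-/

set_option autoImplicit false

namespace Pool.Agent.H56.T5

open Finset AddMonoidAlgebra
open Pool.Agent.H56.SMC Pool.Agent.H37.T5

/-- KDL -/
theorem kdL {d s : ℕ} {ι : Type} [Fintype ι] (a : ι → Lat d) (c : ι → ℂ) (p : Fin d → ℂ)
    (ℓ : Fin s → Lat d) (P : Finset (Fin s)) (hP1 : ∀ k ∈ P, pv p (ℓ k) = 1)
    (hPa : ∀ k ∈ P, ∀ i, 0 ≤ dt (ℓ k) (a i))
    (S : Set (Lat d)) (δ : Lat d) (hδ : ∀ i, dt δ (a i) = 1) (C : ℤ) (hSδ : ∀ u ∈ S, C ≤ dt δ u)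
    (hS : ∀ u ∈ S, ∀ i, c i ≠ 0 → u + a i ∈ S) (hK : KExactL a c ℓ P S)
    (z : Fin s → LP ℂ d) (hz : ∀ k, Supp (S ∩ LL ℓ P {k}) (z k))
    (h0 : ∑ k, Dop p a c (ℓ k) (z k) = 0) :
    ∃ y : Fin s → Fin s → LP ℂ d, (∀ k l, Supp (S ∩ LL ℓ P {k, l}) (y k l)) ∧
      (∀ k l, y k l = -y l k) ∧ ∀ k, z k = ∑ l, Dop p a c (ℓ l) (y k l) := by
  classical
  have hDy : ∀ (y : Fin s → Fin s → LP ℂ d), (∀ k l, Supp (S ∩ LL ℓ P {k, l}) (y k l)) →
      ∀ k, Supp (S ∩ LL ℓ P {k}) (∑ l, Dop p a c (ℓ l) (y k l)) := by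
    intro y hy k
    refine Supp.sum _ fun l _ => ?_
    apply LL_Dop p a c ℓ P {k} hP1 hPa S hS l
    have := hy k l
    rwa [Finset.pair_comm] at this
  have key : ∀ (n : ℕ) (z : Fin s → LP ℂ d), (∀ k, Supp (S ∩ LL ℓ P {k}) (z k)) →
      (∀ k, Supp {u | dt δ u < C + n} (z k)) →
      ∑ k, Dop p a c (ℓ k) (z k) = 0 →
      ∃ y : Fin s → Fin s → LP ℂ d, (∀ k l, Supp (S ∩ LL ℓ P {k, l}) (y k l)) ∧
        (∀ k l, y k l = -y l k) ∧ ∀ k, z k = ∑ l, Dop p a c (ℓ l) (y k l) := by
    intro n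
    induction n with
    | zero =>
      intro z hzS hz _
      have hz0 : ∀ j, z j = 0 := by
        intro j
        apply lp_ext
        intro u
        by_contra hu
        have h1 := (hzS j u hu).1
        have h2 := hz j u hu
        have h3 := hSδ u h1
        simp only [Set.mem_setOf_eq] at h2
        push_cast at h2
        omega
      refine ⟨fun _ _ => 0, fun _ _ => Supp.zero _, fun _ _ => neg_zero.symm, fun j => ?_⟩
      rw [hz0 j]
      simp [Dop_zero]
    | succ n ih =>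
      intro z hzS hz h0
      set N : ℤ := C + n with hN
      let t : Fin s → LP ℂ d := fun j => dg (fun u => if dt δ u = N then (1 : ℂ) else 0) (z j)
      have ht : ∀ j u, (t j).coeff u = (if dt δ u = N then (1 : ℂ) else 0) * (z j).coeff u :=
        fun j u => dg_coeff _ _ _
      have htS : ∀ j, Supp (S ∩ LL ℓ P {j}) (t j) := fun j => (hzS j).dg _
      have htop : ∀ j u, dt δ u = N + 1 → (z j).coeff u = 0 := by
        intro j u hu
        by_contra h1
        have h2 := hz j u h1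
        simp only [Set.mem_setOf_eq] at h2
        rw [hN] at hu
        push_cast at h2
        omega
      have hgt : ∑ j, gs a c (ℓ j) * t j = 0 := by
        apply lp_ext
        intro u
        rw [coeff_finsum, coeff_zero']
        by_cases hu : dt δ u = N + 1
        · have h1 : (∑ j, Dop p a c (ℓ j) (z j)).coeff u = 0 := by rw [h0]; rfl
          rw [coeff_finsum] at h1
          have h2 : ∀ j, (Dop p a c (ℓ j) (z j)).coeff u = -(gs a c (ℓ j) * t j).coeff u := by
            intro j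
            rw [Dop_coeff, htop j u hu, mul_zero, zero_sub, gs_mul_coeff]
            congr 1
            refine Finset.sum_congr rfl fun i _ => ?_
            have h3 : dt δ (u - a i) = N := by rw [dt_sub, hδ, hu]; ring
            rw [ht, if_pos h3, one_mul]
          simp only [h2, Finset.sum_neg_distrib, neg_eq_zero] at h1
          exact h1
        · refine Finset.sum_eq_zero fun j _ => ?_
          rw [gs_mul_coeff]
          refine Finset.sum_eq_zero fun i _ => ?_
          have h3 : dt δ (u - a i) ≠ N := by rw [dt_sub, hδ]; omega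
          rw [ht, if_neg h3, zero_mul, mul_zero]
      obtain ⟨y0, hy0S, hy0a, hy0⟩ := hK t htS hgt
      let y : Fin s → Fin s → LP ℂ d :=
        fun j k => dg (fun u => if dt δ u = N - 1 then (1 : ℂ) else 0) (y0 j k)
      have hy : ∀ j k u, (y j k).coeff u =
          (if dt δ u = N - 1 then (1 : ℂ) else 0) * (y0 j k).coeff u := fun j k u => dg_coeff _ _ _
      have hyS : ∀ j k, Supp (S ∩ LL ℓ P {j, k}) (y j k) := fun j k => (hy0S j k).dg _
      have hya : ∀ j k, y j k = -y k j := by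
        intro j k
        apply lp_ext
        intro u
        rw [coeff_neg', hy, hy, hy0a j k, coeff_neg', mul_neg]
      have hyt : ∀ j, t j = ∑ k, gs a c (ℓ k) * y j k := by
        intro j
        apply lp_ext
        intro u
        rw [coeff_finsum]
        by_cases hu : dt δ u = N
        · have h1 : (t j).coeff u = (∑ k, gs a c (ℓ k) * y0 j k).coeff u := by rw [← hy0 j]
          rw [h1, coeff_finsum]
          refine Finset.sum_congr rfl fun k _ => ?_
          rw [gs_mul_coeff, gs_mul_coeff]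
          refine Finset.sum_congr rfl fun i _ => ?_
          have h3 : dt δ (u - a i) = N - 1 := by rw [dt_sub, hδ, hu]
          rw [hy, if_pos h3, one_mul]
        · rw [ht, if_neg hu, zero_mul]
          symm
          refine Finset.sum_eq_zero fun k _ => ?_
          rw [gs_mul_coeff]
          refine Finset.sum_eq_zero fun i _ => ?_
          have h3 : dt δ (u - a i) ≠ N - 1 := by rw [dt_sub, hδ]; omega
          rw [hy, if_neg h3, zero_mul, mul_zero]
      obtain ⟨y', hy'S, hy'a, hy'⟩ := ih (fun j => z j + ∑ k, Dop p a c (ℓ k) (y j k))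
        (fun j => (hzS j).add (hDy y hyS j)) (by
        intro j
        have e1 : z j + ∑ k, Dop p a c (ℓ k) (y j k) = (z j - t j) +
            ∑ k, dg (fun u => pv p (ℓ k) + (dt (ℓ k) u : ℂ)) (y j k) := by
          have e2 : ∀ k, Dop p a c (ℓ k) (y j k) =
              dg (fun u => pv p (ℓ k) + (dt (ℓ k) u : ℂ)) (y j k) - gs a c (ℓ k) * y j k :=
            fun k => rfl
          simp only [e2, Finset.sum_sub_distrib]
          rw [← hyt j]
          abel
        rw [e1]
        refine Supp.add ?_ (Supp.sum _ fun k _ => Supp.dg _ ?_)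
        · intro u hu
          rw [coeff_sub', ht] at hu
          have h1 : (z j).coeff u ≠ 0 := by
            intro h; apply hu; rw [h, mul_zero, sub_zero]
          have h3 := hz j u h1
          simp only [Set.mem_setOf_eq] at h3
          show dt δ u < C + n
          by_contra h4
          have h5 : dt δ u = N := by
            rw [hN]
            push_cast at h3
            omega
          apply hu
          rw [if_pos h5, one_mul, sub_self]
        · intro u hu
          rw [hy] at hu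
          have h1 : dt δ u = N - 1 := by
            by_contra h
            apply hu
            rw [if_neg h, zero_mul]
          show dt δ u < C + n
          omega) (by
        simp only [Dop_add, Finset.sum_add_distrib]
        rw [h0, zero_add]
        exact Dop_antisymmL p a c ℓ lp_eq_neg_self y hya)
      refine ⟨fun j k => y' j k - y j k, fun j k => (hy'S j k).sub (hyS j k), fun j k => ?_,
        fun j => ?_⟩
      · change y' j k - y j k = -(y' k j - y k j)
        rw [hy'a j k, hya j k]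
        abel
      · simp only [Dop_sub, Finset.sum_sub_distrib]
        rw [← hy' j]
        abel
  refine key (∑ j, ∑ u ∈ (z j).coeff.support, (dt δ u - C + 1).toNat) z hz (fun j u hu => ?_) h0
  show dt δ u < C + _
  have h1 : (dt δ u - C + 1).toNat ≤
      ∑ j, ∑ u ∈ (z j).coeff.support, (dt δ u - C + 1).toNat := by
    refine le_trans ?_ (Finset.single_le_sum (f := fun j => ∑ u ∈ (z j).coeff.support,
      (dt δ u - C + 1).toNat) (fun _ _ => Nat.zero_le _) (Finset.mem_univ j))
    exact Finset.single_le_sum (f := fun u => (dt δ u - C + 1).toNat)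
      (fun _ _ => Nat.zero_le _) (Finsupp.mem_support_iff.2 hu)
  omega

end Pool.Agent.H56.T5

end S_KDL

section S_TFL

/-!
# TFL: `H_0` has no `ε`-torsion (`ε = PowerSeries.X`), mixed supports

ADAPT the proof of `tf` (`Pool/Agent/H56/SMC/TF.lean`).

Proof.  `X • x = ∑ D_k z_k`.  Reduce modulo `X` (`lmap PowerSeries.constantCoeff`, `lmap_Dop`): `∑ D̄_k z̄_k = 0` (the operators over `ℂ` have
the parameter `constantCoeff (p j)`; `pv` of it at `ℓ k` is `constantCoeff (pv p (ℓ k)) = 1` for `k ∈ P`), so by `kdL`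
`z̄_k = ∑_l D̄_l ȳ_kl`.  Lift `y_kl = lmap PowerSeries.C ȳ_kl` (antisymmetric, same supports).  All coefficients of
`w_k = z_k - ∑_l D_l y_kl` (supported in `S ∩ LL ℓ P {k}` by `LL_Dop`) have constant coefficient `0`, so `w_k = X • z'_k` with `z'_k` with the
same supports (`tfq`, `tf_X_mul_tfq` of `TF`).  `X • x = ∑ D_k w_k` (by `Dop_antisymmL`) `= X • ∑ D_k z'_k`, and `X` is a
non-zero-divisor, so `x = ∑ D_k z'_k`.
-/

set_option autoImplicit false

namespace Pool.Agent.H56.T5

open Finset AddMonoidAlgebra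
open Pool.Agent.H56.SMC Pool.Agent.H37.T5

/-- TFL -/
theorem tfL {d s : ℕ} {ι : Type} [Fintype ι] (a : ι → Lat d) (c : ι → ℂ) (p : Fin d → PA)
    (ℓ : Fin s → Lat d) (P : Finset (Fin s)) (hP1 : ∀ k ∈ P, pv p (ℓ k) = 1)
    (hPa : ∀ k ∈ P, ∀ i, 0 ≤ dt (ℓ k) (a i))
    (S : Set (Lat d)) (δ : Lat d) (hδ : ∀ i, dt δ (a i) = 1) (C : ℤ) (hSδ : ∀ u ∈ S, C ≤ dt δ u)
    (hS : ∀ u ∈ S, ∀ i, u + a i ∈ S) (hK : KExactL a c ℓ P S) (x : LP PA d)
    (h : ExL p a (fun i => PowerSeries.C (c i)) ℓ P S ((PowerSeries.X : PA) • x)) :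
    ExL p a (fun i => PowerSeries.C (c i)) ℓ P S x := by
  classical
  obtain ⟨z, hz, hx⟩ := h
  obtain ⟨cc, hcc⟩ : ∃ cc : ι → PA, cc = fun i => PowerSeries.C (c i) := ⟨_, rfl⟩
  rw [← hcc] at hx ⊢
  obtain ⟨f, hf⟩ : ∃ f : PA →+* ℂ, f = PowerSeries.constantCoeff := ⟨_, rfl⟩
  have hfc : (fun i => f (cc i)) = c := by
    funext i
    rw [hf, hcc]
    exact PowerSeries.constantCoeff_C _
  have h0 : ∑ j, Dop (fun j => f (p j)) a c (ℓ j) (lmap f (z j)) = 0 := by
    have h1 := congrArg (lmap f) hx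
    rw [lmap_smul, lmap_sum] at h1
    simp only [lmap_Dop, hfc] at h1
    rw [← h1, hf, PowerSeries.constantCoeff_X, zero_smul]
  have hP1' : ∀ k ∈ P, pv (fun j => f (p j)) (ℓ k) = 1 := by
    intro k hk
    have h1 : pv (fun j => f (p j)) (ℓ k) = f (pv p (ℓ k)) := by
      simp only [pv, map_sum, map_mul, map_intCast]
    rw [h1, hP1 k hk, map_one]
  obtain ⟨yb, hybS, hyba, hyb⟩ := kdL a c (fun j => f (p j)) ℓ P hP1' hPa S δ hδ C hSδ
    (fun u hu i _ => hS u hu i) hK (fun j => lmap f (z j)) (fun j => (hz j).lmap f) h0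
  let y : Fin s → Fin s → LP PA d := fun j k => lmap PowerSeries.C (yb j k)
  have hyS : ∀ j k, Supp (S ∩ LL ℓ P {j, k}) (y j k) := fun j k => (hybS j k).lmap _
  have hya : ∀ j k, y j k = -y k j := by
    intro j k
    change lmap PowerSeries.C (yb j k) = -lmap PowerSeries.C (yb k j)
    rw [hyba j k, tf_lmap_neg]
  have hfy : ∀ j k, lmap f (y j k) = yb j k := by
    intro j k
    apply lp_ext
    intro u
    rw [lmap_coeff]
    change f (PowerSeries.C ((yb j k).coeff u)) = _
    rw [hf]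
    exact PowerSeries.constantCoeff_C _
  let w : Fin s → LP PA d := fun j => z j - ∑ k, Dop p a cc (ℓ k) (y j k)
  have hwS : ∀ j, Supp (S ∩ LL ℓ P {j}) (w j) := fun j =>
    (hz j).sub (Supp.sum _ fun k _ => LL_Dop p a cc ℓ P {j} hP1 hPa S (fun u hu i _ => hS u hu i) k
      _ (by
        have := hyS j k
        rwa [Finset.pair_comm] at this))
  have hw0 : ∀ j u, PowerSeries.constantCoeff ((w j).coeff u) = 0 := by
    intro j u
    have h1 : lmap f (w j) = 0 := by
      change lmap f (z j - ∑ k, Dop p a cc (ℓ k) (y j k)) = 0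
      rw [lmap_sub, lmap_sum]
      simp only [lmap_Dop, hfc, hfy]
      rw [← hyb j, sub_self]
    have h2 : (lmap f (w j)).coeff u = 0 := by rw [h1]; rfl
    rw [lmap_coeff, hf] at h2
    exact h2
  let z' : Fin s → LP PA d := fun j => ofCoeff ((w j).coeff.mapRange tfq tfq_zero)
  have hz'c : ∀ j u, (z' j).coeff u = tfq ((w j).coeff u) := fun j u => rfl
  have hz'S : ∀ j, Supp (S ∩ LL ℓ P {j}) (z' j) := by
    intro j u hu
    apply hwS j u
    intro h1
    apply hu
    rw [hz'c, h1, tfq_zero]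
  have hwz : ∀ j, w j = (PowerSeries.X : PA) • z' j := by
    intro j
    apply lp_ext
    intro u
    rw [coeff_smul', hz'c, tf_X_mul_tfq (hw0 j u)]
  refine ⟨z', hz'S, ?_⟩
  have h1 : (PowerSeries.X : PA) • x = (PowerSeries.X : PA) • ∑ j, Dop p a cc (ℓ j) (z' j) := by
    rw [hx, Finset.smul_sum]
    have h2 : ∑ j, Dop p a cc (ℓ j) (z j) = ∑ j, Dop p a cc (ℓ j) (w j) := by
      have h3 : ∀ j, Dop p a cc (ℓ j) (z j) =
          Dop p a cc (ℓ j) (w j) + Dop p a cc (ℓ j) (∑ k, Dop p a cc (ℓ k) (y j k)) := by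
        intro j
        rw [← Dop_add]
        congr 1
        change z j = z j - ∑ k, Dop p a cc (ℓ k) (y j k) + ∑ k, Dop p a cc (ℓ k) (y j k)
        rw [sub_add_cancel]
      rw [Finset.sum_congr rfl fun j _ => h3 j, Finset.sum_add_distrib,
        Dop_antisymmL p a cc ℓ lp_eq_neg_self y hya, add_zero]
    rw [h2]
    refine Finset.sum_congr rfl fun j _ => ?_
    rw [hwz j, Dop_smul]
  apply lp_ext
  intro u
  have h2 : ((PowerSeries.X : PA) • x).coeff u =
      ((PowerSeries.X : PA) • ∑ j, Dop p a cc (ℓ j) (z' j)).coeff u := by rw [h1]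
  rw [coeff_smul', coeff_smul'] at h2
  exact mul_left_cancel₀ PowerSeries.X_ne_zero h2

end Pool.Agent.H56.T5

end S_TFL

section S_RKL

/-!
# RKL: raising of the levels over a field without resonance, mixed supports

ADAPT the proof of `rk` (`Pool/Agent/H56/SMC/RK.lean`; there `ℓ = ev`, `P = ∅`, `S0 = univ`).

Proof.  `x = ∑ D_k z_k` (`D_k = Dop (ℓ k)`).  One functional `g v` after the other (induction on a finset `V` of functionals: all `z_k` supported in
`S0 ∩ LL ℓ P {k} ∩ {l v ≤ dt (g v) u for v ∈ V}`), and for the new `v` downward induction on the lowest level: let `dt (g v) u ≥ m` on all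
supports with `m < l v`, let `t_k` be the part of `z_k` at level `m` exactly, `ρ = (pv p (g v) + m)⁻¹` (`hnr`), `Y = ∑_k D_k t_k`, and
  `z'_k = z_k - ρ • (Dop (g v) t_k - θ v k • Y)`.
(i) `∑_k D_k z'_k = ∑_k D_k z_k`: by `Dop_comm` and `Dop_fam` both `∑_k D_k Dop (g v) t_k` and `∑_k θ v k • D_k Y` equal `Dop (g v) Y`.
(ii) levels of `z'_k` with respect to `v` are `≥ m+1`: the operators do not lower levels (`hh`), `Dop (g v)` acts on level `m` as the scalar
`pv p (g v) + m` plus terms of higher level, and the part of `Y` of level `m` is the part of `x = ∑_k D_k z_k` of level `m`, which vanishes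
(`hx`).  (iii) the levels of the other functionals of `V` stay `≥ l`.  (iv) mixed supports: `t_k` is supported in `S0 ∩ LL ℓ P {k}`, so is
`Dop (g v) t_k` (`LL_Dop_any`); `D_k t_k` and hence `Y` is supported in `S0 ∩ LL ℓ P ∅ ⊆ S0 ∩ LL ℓ P {k}` (`LL_Dop` with `K = ∅`,
`insert k ∅ = {k}`; `LL_empty`).
-/

set_option autoImplicit false

namespace Pool.Agent.H56.T5

open Finset AddMonoidAlgebra
open Pool.Agent.H56.SMC Pool.Agent.H37.T5

/-- RKL -/
theorem rkL {K : Type} [Field K] {d s : ℕ} {ι κ : Type} [Fintype ι] [Fintype κ] (a : ι → Lat d)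
    (c : ι → K) (p : Fin d → K) (ℓ : Fin s → Lat d) (P : Finset (Fin s))
    (hP1 : ∀ k ∈ P, pv p (ℓ k) = 1) (hPa : ∀ k ∈ P, ∀ i, 0 ≤ dt (ℓ k) (a i))
    (g : κ → Lat d) (θ : κ → Fin s → ℤ) (hθ : ∀ v, g v = ∑ k, θ v k • ℓ k)
    (hh : ∀ v i, c i ≠ 0 → 0 ≤ dt (g v) (a i)) (l : κ → ℤ)
    (hnr : ∀ v, ∀ m : ℤ, m < l v → pv p (g v) + (m : K) ≠ 0)
    (S0 : Set (Lat d)) (hS0 : ∀ u ∈ S0, ∀ i, c i ≠ 0 → u + a i ∈ S0)
    (x : LP K d) (hx : Supp (Sc g l) x)
    (hex : ExL p a c ℓ P S0 x) : ExL p a c ℓ P (S0 ∩ Sc g l) x := by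
  classical
  have step : ∀ (V : Finset κ) (w : κ) (n : ℕ) (z : Fin s → LP K d),
      (∀ k, Supp ((S0 ∩ {u | (∀ v ∈ V, l v ≤ dt (g v) u) ∧ l w - n ≤ dt (g w) u}) ∩ LL ℓ P {k})
        (z k)) →
      x = ∑ k, Dop p a c (ℓ k) (z k) →
      ∃ z' : Fin s → LP K d,
        (∀ k, Supp ((S0 ∩ {u | (∀ v ∈ V, l v ≤ dt (g v) u) ∧ l w ≤ dt (g w) u}) ∩ LL ℓ P {k})
          (z' k)) ∧
        x = ∑ k, Dop p a c (ℓ k) (z' k) := by
    intro V w n
    induction n with
    | zero =>
      intro z hz hxz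
      refine ⟨z, fun k => (hz k).mono ?_, hxz⟩
      rintro u ⟨⟨h0, h1, h2⟩, h3⟩
      exact ⟨⟨h0, h1, by simpa using h2⟩, h3⟩
    | succ n ih =>
      intro z hz hxz
      set m : ℤ := l w - (n + 1 : ℕ) with hm
      have hml : m < l w := by rw [hm]; push_cast; omega
      have hρ := hnr w m hml
      set S : Set (Lat d) := S0 ∩ {u | (∀ v ∈ V, l v ≤ dt (g v) u) ∧ m ≤ dt (g w) u} with hS
      set S' : Set (Lat d) := S0 ∩ {u | (∀ v ∈ V, l v ≤ dt (g v) u) ∧ m + 1 ≤ dt (g w) u} with hS'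
      have hcl : ∀ u ∈ S, ∀ i, c i ≠ 0 → u + a i ∈ S := by
        rintro u ⟨h0, h1, h2⟩ i hi
        refine ⟨hS0 u h0 i hi, fun v hv => ?_, ?_⟩
        · rw [dt_add]; have := h1 v hv; have := hh v i hi; omega
        · rw [dt_add]; have := hh w i hi; omega
      have hcl' : ∀ u ∈ S', ∀ i, c i ≠ 0 → u + a i ∈ S' := by
        rintro u ⟨h0, h1, h2⟩ i hi
        refine ⟨hS0 u h0 i hi, fun v hv => ?_, ?_⟩
        · rw [dt_add]; have := h1 v hv; have := hh v i hi; omega
        · rw [dt_add]; have := hh w i hi; omega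
      -- the part of level exactly `m`
      let t : Fin s → LP K d := fun k => dg (fun u => if dt (g w) u = m then (1 : K) else 0) (z k)
      have ht : ∀ k u, (t k).coeff u = (if dt (g w) u = m then (1 : K) else 0) * (z k).coeff u :=
        fun k u => dg_coeff _ _ _
      have htS : ∀ k, Supp (S ∩ LL ℓ P {k}) (t k) := fun k => (hz k).dg _
      have hzt : ∀ k, Supp (S' ∩ LL ℓ P {k}) (z k - t k) := by
        intro k u hu
        rw [coeff_sub', ht] at hu
        have h1 : (z k).coeff u ≠ 0 := by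
          intro h0; apply hu; rw [h0, mul_zero, sub_zero]
        obtain ⟨⟨h0, h2, h3⟩, h4⟩ := hz k u h1
        refine ⟨⟨h0, h2, ?_⟩, h4⟩
        by_contra h5
        have h6 : dt (g w) u = m := by omega
        apply hu
        rw [if_pos h6, one_mul, sub_self]
      let Y : LP K d := ∑ k, Dop p a c (ℓ k) (t k)
      have hYS : Supp (S ∩ LL ℓ P ∅) Y := by
        refine Supp.sum _ fun k _ => ?_
        refine LL_Dop p a c ℓ P ∅ hP1 hPa S hcl k (t k) ?_
        rw [insert_empty_eq]
        exact htS k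
      have hY0 : ∀ u, dt (g w) u = m → Y.coeff u = 0 := by
        intro u hu
        have h1 : Supp S' (x - Y) := by
          have : x - Y = ∑ k, Dop p a c (ℓ k) (z k - t k) := by
            rw [hxz]
            simp only [Dop_sub, sum_sub_distrib, Y]
          rw [this]
          refine Supp.sum _ fun k _ => ?_
          exact (LL_Dop_any p a c ℓ P {k} hPa S' hcl' (ℓ k) _ (hzt k)).mono fun u hu => hu.1
        have h2 : (x - Y).coeff u = 0 := by
          by_contra h3
          have := (h1 u h3).2.2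
          omega
        have h3 : x.coeff u = 0 := by
          by_contra h4
          have := hx u h4 w
          omega
        rw [coeff_sub', h3, zero_sub, neg_eq_zero] at h2
        exact h2
      have hYk : ∀ k, Supp (S ∩ LL ℓ P {k}) Y := fun k =>
        hYS.mono (fun (u : Lat d) (hu : u ∈ S ∩ LL ℓ P ∅) =>
          (⟨hu.1, LL_empty ℓ P {k} hu.2⟩ : u ∈ S ∩ LL ℓ P {k}))
      refine ih (fun k => z k - (pv p (g w) + (m : K))⁻¹ •
        (Dop p a c (g w) (t k) - ((θ w k : ℤ) : K) • Y)) ?_ ?_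
      · intro k
        have hsup : Supp (S ∩ LL ℓ P {k}) (z k - (pv p (g w) + (m : K))⁻¹ •
            (Dop p a c (g w) (t k) - ((θ w k : ℤ) : K) • Y)) :=
          (hz k).sub (((LL_Dop_any p a c ℓ P {k} hPa S hcl (g w) _ (htS k)).sub
            ((hYk k).smul _)).smul _)
        intro u hu
        obtain ⟨⟨h0, h1, h2⟩, h8⟩ := hsup u hu
        refine ⟨⟨h0, h1, ?_⟩, h8⟩
        by_contra h3
        have h4 : dt (g w) u = m := by
          rw [hm] at h2 ⊢
          push_cast at h2 ⊢
          omega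
        apply hu
        have h5 : ∑ i, c i * (dt (g w) (a i) : K) * (t k).coeff (u - a i) = 0 := by
          refine Finset.sum_eq_zero fun i _ => ?_
          by_cases h9 : c i = 0
          · rw [h9, zero_mul, zero_mul]
          by_cases h6 : dt (g w) (a i) = 0
          · rw [h6, Int.cast_zero, mul_zero, zero_mul]
          · have h7 : dt (g w) (u - a i) ≠ m := by
              rw [dt_sub]
              omega
            rw [ht, if_neg h7, zero_mul, mul_zero]
        rw [coeff_sub', coeff_smul', coeff_sub', coeff_smul', Dop_coeff, h5, hY0 u h4, ht,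
          if_pos h4, h4, one_mul, mul_zero, sub_zero, sub_zero, ← mul_assoc, inv_mul_cancel₀ hρ,
          one_mul, sub_self]
      · have e1 : ∑ k, Dop p a c (ℓ k) (Dop p a c (g w) (t k)) = Dop p a c (g w) Y := by
          simp only [Y, Dop_sum]
          exact Finset.sum_congr rfl fun k _ => Dop_comm p a c _ _ _
        have e2 : ∑ k, ((θ w k : ℤ) : K) • Dop p a c (ℓ k) Y = Dop p a c (g w) Y := by
          rw [hθ w]
          exact (Dop_fam p a c ℓ (θ w) Y).symm
        simp only [Dop_sub, Dop_smul, sum_sub_distrib, ← smul_sum]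
        rw [e1, e2, sub_self, smul_zero, sub_zero, ← hxz]
  have main : ∀ V : Finset κ, ∃ z : Fin s → LP K d,
      (∀ k, Supp ((S0 ∩ {u | ∀ v ∈ V, l v ≤ dt (g v) u}) ∩ LL ℓ P {k}) (z k)) ∧
      x = ∑ k, Dop p a c (ℓ k) (z k) := by
    intro V
    induction V using Finset.induction_on with
    | empty =>
      obtain ⟨z, hz0, hz⟩ := hex
      exact ⟨z, fun k u hu => ⟨⟨(hz0 k u hu).1, fun v hv => absurd hv (Finset.notMem_empty v)⟩,
        (hz0 k u hu).2⟩, hz⟩
    | insert w V hw ih =>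
      obtain ⟨z, hz, hxz⟩ := ih
      have hz2 : ∀ k, Supp ((S0 ∩ {u | (∀ v ∈ V, l v ≤ dt (g v) u) ∧
          l w - ((∑ k, ∑ u ∈ (z k).coeff.support, (l w - dt (g w) u).toNat : ℕ) : ℤ) ≤
            dt (g w) u}) ∩ LL ℓ P {k}) (z k) := by
        intro k u hu
        obtain ⟨⟨h0, h1⟩, h2⟩ := hz k u hu
        refine ⟨⟨h0, h1, ?_⟩, h2⟩
        have h3 : (l w - dt (g w) u).toNat ≤
            ∑ k, ∑ u ∈ (z k).coeff.support, (l w - dt (g w) u).toNat := by
          refine le_trans ?_ (Finset.single_le_sum (f := fun k => ∑ u ∈ (z k).coeff.support,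
            (l w - dt (g w) u).toNat) (fun _ _ => Nat.zero_le _) (Finset.mem_univ k))
          exact Finset.single_le_sum (f := fun u => (l w - dt (g w) u).toNat)
            (fun _ _ => Nat.zero_le _) (Finsupp.mem_support_iff.2 hu)
        omega
      obtain ⟨z', hz', hxz'⟩ := step V w _ z hz2 hxz
      refine ⟨z', fun k u hu => ?_, hxz'⟩
      obtain ⟨⟨h0, h1, h2⟩, h3⟩ := hz' k u hu
      refine ⟨⟨h0, fun v hv => ?_⟩, h3⟩
      rcases Finset.mem_insert.1 hv with rfl | hv
      · exact h2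
      · exact h1 v hv
  obtain ⟨z, hz, hxz⟩ := main Finset.univ
  exact ⟨z, fun k u hu => ⟨⟨(hz k u hu).1.1, fun v => (hz k u hu).1.2 v (Finset.mem_univ v)⟩,
    (hz k u hu).2⟩, hxz⟩

end Pool.Agent.H56.T5

end S_RKL

section S_RAL

/-!
# RAL: raising of the levels with unit eigenvalues, mixed supports

ADAPT the proof of `ra` (`Pool/Agent/H56/SMC/RA.lean`).

Proof.  One bad functional `v` after the other; for one `v` induction on the lowest level `m < l v`: let `t` be the part of `x` with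
`dt (h v) u = m` exactly (lowest level), `ρ` the inverse of the unit `pv p (h v) + m`; replace `x` by
`x - ρ • Dop (h v) t`.  `Dop (h v) t` is exact with mixed supports by `ExL.of_Dop` (`LB`): `h v = ∑ j, h v j • ev j` and `t` is supported
in `univ ∩ LL ev P ∅`; its part of level `m` is `(pv p (h v) + m) • t` (terms of `gs a c (h v)` with `dt (h v) (a i) = 0` have
coefficient `0`), the rest has higher level; the other conditions on the support (`l v' ≤ dt (h v') u` for the `v'` already treated and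
the good ones, `0 < dt h0 u`, `u ∈ LL ev P ∅`) are preserved since all `a i` have nonnegative levels (`LL_Dop_any`).
-/

set_option autoImplicit false

namespace Pool.Agent.H56.T5

open Finset AddMonoidAlgebra
open Pool.Agent.H56.SMC Pool.Agent.H37.T5

theorem RAL_fam {d : ℕ} (h : Lat d) : h = ∑ k, h k • (ev k : Lat d) := by
  funext j
  simp [ev, Finset.sum_apply, Pi.single_apply]

/-- RAL -/
theorem raL {R : Type} [CommRing R] {d : ℕ} {ι κ : Type} [Fintype ι] [Fintype κ] (a : ι → Lat d)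
    (c : ι → R) (p : Fin d → R) (P : Finset (Fin d)) (hPa : ∀ k ∈ P, ∀ i, 0 ≤ dt (ev k) (a i))
    (h : κ → Lat d) (good : κ → Prop)
    (hh : ∀ v i, 0 ≤ dt (h v) (a i)) (l : κ → ℤ)
    (hu : ∀ v, ¬ good v → ∀ m : ℤ, m < l v → IsUnit (pv p (h v) + (m : R)))
    (h0 : Lat d) (hh0 : ∀ i, 0 ≤ dt h0 (a i)) (x : LP R d) (hxP : Supp (LL ev P ∅) x)
    (hx : Supp {u | (∀ v, good v → l v ≤ dt (h v) u) ∧ 0 < dt h0 u} x) :
    ∃ x' : LP R d, Supp (LL ev P ∅) x' ∧ Supp {u | u ∈ Sc h l ∧ 0 < dt h0 u} x' ∧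
      ExL p a c ev P Set.univ (x - x') := by
  classical
  let B : Finset κ → Set (Lat d) := fun V =>
    {u | (∀ v, good v → l v ≤ dt (h v) u) ∧ (∀ v ∈ V, l v ≤ dt (h v) u) ∧ 0 < dt h0 u ∧
      u ∈ LL ev P ∅}
  have step : ∀ (V : Finset κ) (w : κ), ¬ good w → ∀ (n : ℕ) (x : LP R d),
      Supp {u | u ∈ B V ∧ l w - n ≤ dt (h w) u} x →
      ∃ x' : LP R d, Supp {u | u ∈ B V ∧ l w ≤ dt (h w) u} x' ∧
        ExL p a c ev P Set.univ (x - x') := by
    intro V w hw n
    induction n with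
    | zero =>
      intro x hx
      refine ⟨x, hx.mono ?_, ?_⟩
      · rintro u ⟨h1, h2⟩
        exact ⟨h1, by simpa using h2⟩
      · rw [sub_self]
        exact ExL.zero
    | succ n ih =>
      intro x hx
      set m : ℤ := l w - (n + 1 : ℕ) with hm
      have hml : m < l w := by rw [hm]; push_cast; omega
      obtain ⟨ρ, hρ⟩ := (hu w hw m hml).exists_left_inv
      set S : Set (Lat d) := {u | u ∈ B V ∧ m ≤ dt (h w) u} with hS
      have hcl : ∀ u ∈ S, ∀ i, c i ≠ 0 → u + a i ∈ S := by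
        rintro u ⟨⟨h1, h2, h3, h3'⟩, h4⟩ i -
        refine ⟨⟨fun v hv => ?_, fun v hv => ?_, ?_, ?_⟩, ?_⟩
        · rw [dt_add]; have := h1 v hv; have := hh v i; omega
        · rw [dt_add]; have := h2 v hv; have := hh v i; omega
        · rw [dt_add]; have := hh0 i; omega
        · exact LL_add ev P ∅ (a i) (fun k hk => hPa k hk i) u h3'
        · rw [dt_add]; have := hh w i; omega
      -- the part of level exactly `m`
      let t : LP R d := dg (fun u => if dt (h w) u = m then (1 : R) else 0) x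
      have ht : ∀ u, t.coeff u = (if dt (h w) u = m then (1 : R) else 0) * x.coeff u :=
        fun u => dg_coeff _ _ _
      have htS : Supp S t := hx.dg _
      have hsup : Supp S (x - ρ • Dop p a c (h w) t) :=
        hx.sub ((htS.Dop p a c (h w) hcl).smul _)
      obtain ⟨x', hx', hex'⟩ := ih (x - ρ • Dop p a c (h w) t) (by
        intro u hu
        obtain ⟨h1, h2⟩ := hsup u hu
        refine ⟨h1, ?_⟩
        by_contra h3
        have h4 : dt (h w) u = m := by
          rw [hm] at h2 ⊢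
          push_cast at h2 ⊢
          omega
        apply hu
        have h5 : ∑ i, c i * (dt (h w) (a i) : R) * t.coeff (u - a i) = 0 := by
          refine Finset.sum_eq_zero fun i _ => ?_
          by_cases h6 : dt (h w) (a i) = 0
          · rw [h6, Int.cast_zero, mul_zero, zero_mul]
          · have h7 : dt (h w) (u - a i) ≠ m := by
              rw [dt_sub]
              omega
            rw [ht, if_neg h7, zero_mul, mul_zero]
        rw [coeff_sub', coeff_smul', Dop_coeff, h5, ht, if_pos h4, h4, one_mul, sub_zero,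
          ← mul_assoc, hρ, one_mul, sub_self])
      refine ⟨x', hx', ?_⟩
      have e1 : x - x' = (x - ρ • Dop p a c (h w) t - x') + ρ • Dop p a c (h w) t := by abel
      rw [e1]
      exact ExL.add hex' (ExL.smul ρ (ExL.of_Dop (h w) (fun k => h w k) (RAL_fam (h w))
        (htS.mono fun u hu => (⟨Set.mem_univ _, hu.1.2.2.2⟩ : u ∈ Set.univ ∩ LL ev P ∅))))
  have main : ∀ V : Finset κ, ∃ x' : LP R d, Supp (B V) x' ∧
      ExL p a c ev P Set.univ (x - x') := by
    intro V
    induction V using Finset.induction_on with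
    | empty =>
      refine ⟨x, fun u hu' => ?_, ?_⟩
      · obtain ⟨h1, h2⟩ := hx u hu'
        exact ⟨h1, fun v hv => absurd hv (Finset.notMem_empty v), h2, hxP u hu'⟩
      · rw [sub_self]
        exact ExL.zero
    | insert w V hw ih =>
      obtain ⟨x1, hx1, hex1⟩ := ih
      by_cases hgw : good w
      · refine ⟨x1, fun u hu' => ?_, hex1⟩
        obtain ⟨h1, h2, h3⟩ := hx1 u hu'
        refine ⟨h1, fun v hv => ?_, h3⟩
        rcases Finset.mem_insert.1 hv with rfl | hv
        · exact h1 v hgw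
        · exact h2 v hv
      · obtain ⟨x2, hx2, hex2⟩ := step V w hgw
          (∑ u ∈ x1.coeff.support, (l w - dt (h w) u).toNat) x1 (by
          intro u hu'
          refine ⟨hx1 u hu', ?_⟩
          have h1 : (l w - dt (h w) u).toNat ≤
              ∑ u ∈ x1.coeff.support, (l w - dt (h w) u).toNat :=
            Finset.single_le_sum (f := fun u => (l w - dt (h w) u).toNat)
              (fun _ _ => Nat.zero_le _) (Finsupp.mem_support_iff.2 hu')
          omega)
        refine ⟨x2, fun u hu' => ?_, ?_⟩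
        · obtain ⟨⟨h1, h2, h3⟩, h4⟩ := hx2 u hu'
          refine ⟨h1, fun v hv => ?_, h3⟩
          rcases Finset.mem_insert.1 hv with rfl | hv
          · exact h4
          · exact h2 v hv
        · have e1 : x - x2 = (x - x1) + (x1 - x2) := by abel
          rw [e1]
          exact ExL.add hex1 hex2
  obtain ⟨x', hx', hex'⟩ := main Finset.univ
  exact ⟨x', fun u hu' => (hx' u hu').2.2.2,
    fun u hu' => ⟨fun v => (hx' u hu').2.1 v (Finset.mem_univ v), (hx' u hu').2.2.1⟩, hex'⟩

end Pool.Agent.H56.T5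

end S_RAL

section S_COREL

/-!
# COREL: the main algebraic argument, mixed supports

ADAPT the proofs of `core`, `core_clear`, `core_tf` (`Pool/Agent/H56/SMC/CORE.lean`) and of the first step of `sl`
(`Pool/Agent/H56/SMC/SL.lean`, restriction to the slice).

Proof.  `raL` over `PA`: `x'` supported in `Sc h l ∩ {0 < dt h0 u} ∩ LL ev P ∅` with `ExL univ (x - x')`; hence over `KA`:
`ExL univ (lmap jK (single 0 b - x'))` (`ExL.lmap`, `ExL.add`), and this element is supported in `Sc h l` (`0 ∈ Sc h l` by `hl0`).  `rkL` over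
`KA` (`ℓ = ev`, `g = h`, `θ v = h v`, `S0 = univ`; `core_pv`, `core_jK_inj`; `pv` at `ev k` is `p k`): exact with supports in
`Sc h l ∩ LL ev P {j}`.  Clear denominators (as `core_clear`): `ExL (Sc h l) (X^N • (single 0 b - x'))` over `PA` for some `N`.  `tfL`
`N` times (as `core_tf`): `ExL (Sc h l) (single 0 b - x')` over `PA`.  Reduce modulo `X` (`ExL.lmap PowerSeries.constantCoeff`):
`single 0 b̄ - x̄' = ∑_j D_j z_j` over `ℂ`, `z_j` supported in `Sc h l ∩ LL ev P {j}`, and `x̄'` in `{0 < dt h0 u}`.  Slice: let `z̄_j` be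
the part of `z_j` with `dt h0 u = 0`.  Since `dt h0 u ≥ 0` on `Sc h l` (`hS0`) and `dt h0 (a i) ≥ 0`, the part of the equation with
`dt h0 u = 0` is `single 0 b̄ = ∑ D^F_j z̄_j` with `D^F_j = Dop p̄ a (cF a c h0) (ev j)` (exactly as in `sl`).
-/

set_option autoImplicit false

namespace Pool.Agent.H56.T5

open Finset AddMonoidAlgebra
open Pool.Agent.H56.SMC Pool.Agent.H37.T5

theorem COREL_fam {d : ℕ} (h : Lat d) : h = ∑ k, h k • (ev k : Lat d) := by
  funext j
  simp [ev, Finset.sum_apply, Pi.single_apply]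

theorem COREL_pv_ev {R : Type} [CommRing R] {d : ℕ} (p : Fin d → R) (k : Fin d) :
    pv p (ev k) = p k := by
  simp [pv, ev, Pi.single_apply]

/-- Clearing denominators. -/
theorem COREL_clear {d s : ℕ} {ι : Type} [Fintype ι] (a : ι → Lat d) (c : ι → PA)
    (p : Fin d → PA) (ℓ : Fin s → Lat d) (P : Finset (Fin s))
    (S : Set (Lat d)) (y : LP PA d)
    (h : ExL (fun j => jK (p j)) a (fun i => jK (c i)) ℓ P S (lmap jK y)) :
    ∃ N : ℕ, ExL p a c ℓ P S ((PowerSeries.X : PA) ^ N • y) := by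
  classical
  obtain ⟨z, hz, hzy⟩ := h
  obtain ⟨b, hb⟩ := IsLocalization.exist_integer_multiples (nonZeroDivisors PA)
    (univ.sigma (fun j : Fin s => (z j).coeff.support)) (fun q => (z q.1).coeff q.2)
  have hb' : ∀ j u, ∃ t : PA, jK t = jK (b : PA) * (z j).coeff u := by
    intro j u
    by_cases hu : (z j).coeff u = 0
    · exact ⟨0, by rw [hu, mul_zero, map_zero]⟩
    · obtain ⟨t, ht⟩ := hb ⟨j, u⟩ (by simp [hu])
      refine ⟨t, ?_⟩
      change algebraMap PA KA t = _
      rw [ht, Algebra.smul_def]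
      rfl
  choose t ht using hb'
  have ht0 : ∀ j u, (z j).coeff u = 0 → t j u = 0 := by
    intro j u hu
    apply core_jK_inj
    rw [ht, hu, mul_zero, map_zero]
  let z' : Fin s → LP PA d := fun j => ofCoeff (Finsupp.onFinset (z j).coeff.support (t j)
    (fun u hu => by
      rw [Finsupp.mem_support_iff]
      intro h0
      exact hu (ht0 j u h0)))
  have hz' : ∀ j, lmap jK (z' j) = jK (b : PA) • z j := by
    intro j
    apply lp_ext; intro u
    rw [lmap_coeff, coeff_smul']
    exact ht j u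
  have hEx : ExL p a c ℓ P S ((b : PA) • y) := by
    refine ⟨z', fun j u hu => hz j u (fun h0 => hu (ht0 j u h0)), ?_⟩
    apply core_lmap_inj
    rw [lmap_smul, hzy, lmap_sum, smul_sum]
    refine sum_congr rfl fun j _ => ?_
    rw [lmap_Dop, hz', Dop_smul]
  have hb0 : (b : PA) ≠ 0 := nonZeroDivisors.coe_ne_zero b
  refine ⟨(b : PA).order.toNat, ?_⟩
  obtain ⟨v, hv⟩ : ∃ v : PA, v * (b : PA) = (PowerSeries.X : PA) ^ (b : PA).order.toNat := by
    refine ⟨PowerSeries.Inv_divided_by_X_pow_order hb0, ?_⟩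
    have h1 := PowerSeries.X_pow_order_mul_divXPowOrder (f := (b : PA))
    have h2 := PowerSeries.Inv_divided_by_X_pow_order_leftInv hb0
    calc PowerSeries.Inv_divided_by_X_pow_order hb0 * (b : PA)
        = PowerSeries.Inv_divided_by_X_pow_order hb0 * ((PowerSeries.X : PA) ^
          (b : PA).order.toNat * PowerSeries.divXPowOrder (b : PA)) := by rw [h1]
      _ = (PowerSeries.X : PA) ^ (b : PA).order.toNat *
          (PowerSeries.Inv_divided_by_X_pow_order hb0 * PowerSeries.divXPowOrder (b : PA)) := by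
            ring
      _ = (PowerSeries.X : PA) ^ (b : PA).order.toNat := by rw [h2, mul_one]
  have := ExL.smul v hEx
  rwa [smul_smul, hv] at this

theorem COREL_tf {d s : ℕ} {ι : Type} [Fintype ι] (a : ι → Lat d) (c : ι → ℂ) (p : Fin d → PA)
    (ℓ : Fin s → Lat d) (P : Finset (Fin s)) (hP1 : ∀ k ∈ P, pv p (ℓ k) = 1)
    (hPa : ∀ k ∈ P, ∀ i, 0 ≤ dt (ℓ k) (a i))
    (S : Set (Lat d)) (δ : Lat d) (hδ : ∀ i, dt δ (a i) = 1) (C : ℤ) (hSδ : ∀ u ∈ S, C ≤ dt δ u)
    (hS : ∀ u ∈ S, ∀ i, u + a i ∈ S) (hK : KExactL a c ℓ P S) (x : LP PA d) (N : ℕ)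
    (h : ExL p a (fun i => PowerSeries.C (c i)) ℓ P S ((PowerSeries.X : PA) ^ N • x)) :
    ExL p a (fun i => PowerSeries.C (c i)) ℓ P S x := by
  induction N with
  | zero => rwa [pow_zero, one_smul] at h
  | succ N ih =>
    apply ih
    apply tfL a c p ℓ P hP1 hPa S δ hδ C hSδ hS hK
    rwa [smul_smul, ← pow_succ']

/-- Restriction to the slice. -/
theorem COREL_slice {d : ℕ} {ι : Type} [Fintype ι] (a : ι → Lat d) (c : ι → ℂ) (p : Fin d → ℂ)
    (P : Finset (Fin d)) (S : Set (Lat d)) (h0 : Lat d)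
    (hh0 : ∀ i, 0 ≤ dt h0 (a i)) (hS0 : ∀ u ∈ S, 0 ≤ dt h0 u) (b : ℂ) (x : LP ℂ d)
    (hx : Supp {u | 0 < dt h0 u} x) (hex : ExL p a c ev P S (single 0 b + x)) :
    ExL p a (cF a c h0) ev P (S ∩ {u | dt h0 u = 0}) (single 0 b) := by
  classical
  set c' : ι → ℂ := cF a c h0 with hc'
  have hc1 : ∀ i, dt h0 (a i) = 0 → c' i = c i := fun i hi => by
    rw [hc']; unfold cF; rw [if_pos hi]
  have hc2 : ∀ i, dt h0 (a i) ≠ 0 → c' i = 0 := fun i hi => by
    rw [hc']; unfold cF; rw [if_neg hi]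
  obtain ⟨z, hz, hxz⟩ := hex
  let z0 : Fin d → LP ℂ d := fun j => dg (fun u => if dt h0 u = 0 then (1 : ℂ) else 0) (z j)
  have hz0 : ∀ j u, (z0 j).coeff u = (if dt h0 u = 0 then (1 : ℂ) else 0) * (z j).coeff u :=
    fun j u => dg_coeff _ _ _
  refine ⟨z0, ?_, ?_⟩
  · intro j u hu
    rw [hz0] at hu
    have h1 := hz j u (fun h => hu (by rw [h, mul_zero]))
    refine ⟨⟨h1.1, ?_⟩, h1.2⟩
    show dt h0 u = 0
    by_contra h
    exact hu (by rw [if_neg h, zero_mul])
  apply lp_ext
  intro u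
  rw [coeff_finsum]
  by_cases hu : dt h0 u = 0
  · have h1 : (single 0 b + x : LP ℂ d).coeff u = (single 0 b : LP ℂ d).coeff u := by
      rw [coeff_add']
      have : x.coeff u = 0 := by
        by_contra h
        have h2 : 0 < dt h0 u := hx u h
        omega
      rw [this, add_zero]
    rw [← h1, hxz, coeff_finsum]
    refine Finset.sum_congr rfl fun j _ => ?_
    rw [Dop_coeff, Dop_coeff, hz0, if_pos hu, one_mul]
    congr 1
    refine Finset.sum_congr rfl fun i _ => ?_
    by_cases hi : dt h0 (a i) = 0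
    · have h3 : dt h0 (u - a i) = 0 := by rw [dt_sub, hu, hi, sub_zero]
      rw [hc1 i hi, hz0, if_pos h3, one_mul]
    · have h3 : (z j).coeff (u - a i) = 0 := by
        by_contra h
        have h4 := hS0 _ (hz j _ h).1
        have h5 := hh0 i
        rw [dt_sub] at h4
        omega
      rw [h3, hc2 i hi, mul_zero, zero_mul, zero_mul]
  · have h1 : (single 0 b : LP ℂ d).coeff u = 0 := by
      rw [coeff_single', if_neg]
      rintro rfl
      exact hu (dt_zero h0)
    rw [h1]
    symm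
    refine Finset.sum_eq_zero fun j _ => ?_
    rw [Dop_coeff, hz0, if_neg hu, zero_mul, mul_zero, zero_sub, neg_eq_zero]
    refine Finset.sum_eq_zero fun i _ => ?_
    by_cases hi : dt h0 (a i) = 0
    · have h3 : dt h0 (u - a i) ≠ 0 := by rw [dt_sub, hi, sub_zero]; exact hu
      rw [hz0, if_neg h3, zero_mul, mul_zero]
    · rw [hc2 i hi, zero_mul, zero_mul]

/-- COREL -/
theorem coreL {d : ℕ} {ι κ : Type} [Fintype ι] [Fintype κ] (a : ι → Lat d) (c : ι → ℂ)
    (p : Fin d → PA) (P : Finset (Fin d)) (hP1 : ∀ k ∈ P, p k = 1)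
    (hPa : ∀ k ∈ P, ∀ i, 0 ≤ dt (ev k) (a i))
    (h : κ → Lat d) (l : κ → ℤ) (hl0 : ∀ v, l v ≤ 0) (good : κ → Prop)
    (δ h0 : Lat d)
    (hδ : ∀ i, dt δ (a i) = 1) (C : ℤ) (hSδ : ∀ u ∈ Sc h l, C ≤ dt δ u)
    (hh : ∀ v i, 0 ≤ dt (h v) (a i)) (hh0 : ∀ i, 0 ≤ dt h0 (a i))
    (hS0 : ∀ u ∈ Sc h l, 0 ≤ dt h0 u)
    (hnr : ∀ v, ∀ m : ℤ, m < l v → pv p (h v) + (m : PA) ≠ 0)
    (hbad : ∀ v, ¬ good v → ∀ m : ℤ, m < l v → IsUnit (pv p (h v) + (m : PA)))
    (hK : KExactL a c ev P (Sc h l)) (b : PA) (x : LP PA d)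
    (hx : Supp {u | (∀ v, good v → l v ≤ dt (h v) u) ∧ 0 < dt h0 u} x)
    (hxP : Supp (LL ev P ∅) x)
    (hex : ExL (fun j => jK (p j)) a (fun i => jK (PowerSeries.C (c i))) ev P Set.univ
      (lmap jK (single 0 b - x))) :
    ExL (fun j => PowerSeries.constantCoeff (p j)) a (cF a c h0) ev P
      (Sc h l ∩ {u | dt h0 u = 0}) (single 0 (PowerSeries.constantCoeff b)) := by
  have hS : ∀ u ∈ Sc h l, ∀ i, u + a i ∈ Sc h l := by
    intro u hu i v
    have h1 := hu v
    have h2 := hh v i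
    rw [dt_add]
    linarith
  have hPp : ∀ k ∈ P, pv p (ev k) = 1 := fun k hk => by rw [COREL_pv_ev, hP1 k hk]
  obtain ⟨x', hx'P, hx', hex'⟩ := raL a (fun i => PowerSeries.C (c i)) p P hPa h good hh l hbad h0
    hh0 x hxP hx
  have hsum : ExL (fun j => jK (p j)) a (fun i => jK (PowerSeries.C (c i))) ev P Set.univ
      (lmap jK (single 0 b - x')) := by
    have e : (single 0 b - x' : LP PA d) = (single 0 b - x) + (x - x') := by abel
    rw [e, lmap_add]
    exact ExL.add hex (ExL.lmap jK hex')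
  have hsupp : Supp (Sc h l) (lmap jK (single 0 b - x')) := by
    apply Supp.lmap
    apply Supp.sub
    · apply Supp.single
      intro v
      rw [dt_zero]
      exact hl0 v
    · exact hx'.mono fun u hu => hu.1
  have hK1 := rkL a (fun i => jK (PowerSeries.C (c i))) (fun j => jK (p j)) ev P
    (fun k hk => by rw [COREL_pv_ev, hP1 k hk, map_one]) hPa h (fun v => h v)
    (fun v => COREL_fam (h v)) (fun v i _ => hh v i) l
    (fun v m hm => by
      rw [core_pv jK p (h v) m]
      intro h0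
      exact hnr v m hm (core_jK_inj (by rw [h0, map_zero])))
    Set.univ (fun _ _ _ _ => Set.mem_univ _) _ hsupp hsum
  have hK2 := ExL.mono (T := Sc h l) (P' := P) (fun u hu => hu.2) (Finset.Subset.refl P) hK1
  obtain ⟨N, hN⟩ := COREL_clear a (fun i => PowerSeries.C (c i)) p ev P (Sc h l) _ hK2
  have hP := COREL_tf a c p ev P hPp hPa (Sc h l) δ hδ C hSδ hS hK _ N hN
  have hC := ExL.lmap (PowerSeries.constantCoeff (R := ℂ)) hP
  have e1 : (fun i => (PowerSeries.constantCoeff (R := ℂ)) (PowerSeries.C (c i))) = c := by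
    funext i; simp
  rw [e1] at hC
  have e2 : lmap (PowerSeries.constantCoeff (R := ℂ)) (single 0 b - x') =
      single 0 (PowerSeries.constantCoeff b) + -lmap (PowerSeries.constantCoeff (R := ℂ)) x' := by
    rw [lmap_sub, sub_eq_add_neg]
    congr 1
    apply lp_ext; intro u
    rw [lmap_coeff, coeff_single', coeff_single']
    split_ifs
    · rfl
    · exact map_zero _
  rw [e2] at hC
  exact COREL_slice a c (fun j => PowerSeries.constantCoeff (p j)) P (Sc h l) h0 hh0 hS0
    (PowerSeries.constantCoeff b) _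
    (Supp.neg (Supp.lmap _ (hx'.mono fun u hu => hu.2))) hC

end Pool.Agent.H56.T5

end S_COREL

section S_DEGL

/-!
# DEGL: reduction of the degree

ADAPT the second half of the proof of `sl` (`Pool/Agent/H56/SMC/SL.lean`, lowering of the degrees and the end; there a further relation
`h0` has to be carried along, here there is none).

Proof.  Claim: there is a representation `single 0 b = ∑ D_k z_k` with all `z_k` supported in `S ∩ LL ℓ P {k}` and in degrees
`dt δ u ≤ -1`.  Downward induction on the maximal degree `N ≥ 0` of the `z_k`: let `t_k` = part of degree `N` of `z_k`; the part of degree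
`N+1 ≥ 1` of the equation: `∑ g_k * t_k = 0` (`g_k = gs a c (ℓ k)` raises the degree by one: `hδ` for the `i` with `c i ≠ 0`).  By `hK`:
`t_k = ∑_l g_l y_kl`; replace `y_kl` by its part of degree `N-1`.  `z'_k = z_k + ∑_l D_l y_kl` is supported in `S ∩ LL ℓ P {k}` (`LL_Dop`) in
degrees `≤ N-1`, and `∑ D_k z'_k = ∑ D_k z_k` (`Dop_antisymmL`, `lp_eq_neg_self`).  With the `z_k` in degrees `≤ -1` the part of degree `0`
of the equation is `single 0 b = -∑_k g_k t_k`, `t_k` the part of degree `-1` of `z_k`.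
-/

set_option autoImplicit false

namespace Pool.Agent.H56.T5

open Finset AddMonoidAlgebra
open Pool.Agent.H56.SMC Pool.Agent.H37.T5

/-- DEGL -/
theorem degL {d s : ℕ} {ι : Type} [Fintype ι] (a : ι → Lat d) (c : ι → ℂ) (p : Fin d → ℂ)
    (ℓ : Fin s → Lat d) (P : Finset (Fin s)) (hP1 : ∀ k ∈ P, pv p (ℓ k) = 1)
    (hPa : ∀ k ∈ P, ∀ i, 0 ≤ dt (ℓ k) (a i))
    (S : Set (Lat d)) (δ : Lat d) (hδ : ∀ i, c i ≠ 0 → dt δ (a i) = 1)
    (hS : ∀ u ∈ S, ∀ i, c i ≠ 0 → u + a i ∈ S) (hK : KExactL a c ℓ P S)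
    (b : ℂ) (hex : ExL p a c ℓ P S (single 0 b)) :
    ∃ t : Fin s → LP ℂ d, (∀ k, Supp {u | u ∈ S ∧ u ∈ LL ℓ P {k} ∧ dt δ u = -1} (t k)) ∧
      (single 0 b : LP ℂ d) = ∑ k, gs a c (ℓ k) * t k := by
  classical
  obtain ⟨z0, hz0, heq0⟩ := hex
  -- lowering of the degrees
  have key : ∀ (n : ℕ) (z : Fin s → LP ℂ d), (∀ j, Supp (S ∩ LL ℓ P {j}) (z j)) →
      (∀ j, Supp {u | dt δ u < n} (z j)) →
      (single 0 b : LP ℂ d) = ∑ j, Dop p a c (ℓ j) (z j) →
      ∃ z' : Fin s → LP ℂ d, (∀ j, Supp (S ∩ LL ℓ P {j}) (z' j)) ∧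
        (∀ j, Supp {u | dt δ u < 0} (z' j)) ∧
        (single 0 b : LP ℂ d) = ∑ j, Dop p a c (ℓ j) (z' j) := by
    intro n
    induction n with
    | zero =>
      intro z hzS hz hzz
      exact ⟨z, hzS, fun j u hu => by simpa using hz j u hu, hzz⟩
    | succ n ih =>
      intro z hzS hz hzz
      set N : ℤ := (n : ℤ) with hN
      have hN0 : 0 ≤ N := Int.natCast_nonneg n
      let t : Fin s → LP ℂ d := fun j => dg (fun u => if dt δ u = N then (1 : ℂ) else 0) (z j)
      have ht : ∀ j u, (t j).coeff u = (if dt δ u = N then (1 : ℂ) else 0) * (z j).coeff u :=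
        fun j u => dg_coeff _ _ _
      have htS : ∀ j, Supp (S ∩ LL ℓ P {j}) (t j) := fun j => (hzS j).dg _
      have htop : ∀ j u, dt δ u = N + 1 → (z j).coeff u = 0 := by
        intro j u hu
        by_contra h1
        have : dt δ u < ((n + 1 : ℕ) : ℤ) := hz j u h1
        push_cast at this
        omega
      have hgt : ∑ j, gs a c (ℓ j) * t j = 0 := by
        apply lp_ext
        intro u
        rw [coeff_finsum, coeff_zero']
        by_cases hu : dt δ u = N + 1
        · have h1 : (∑ j, Dop p a c (ℓ j) (z j)).coeff u = 0 := by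
            rw [← hzz, coeff_single', if_neg]
            rintro rfl
            rw [dt_zero] at hu
            omega
          rw [coeff_finsum] at h1
          have h2 : ∀ j, (Dop p a c (ℓ j) (z j)).coeff u = -(gs a c (ℓ j) * t j).coeff u := by
            intro j
            rw [Dop_coeff, htop j u hu, mul_zero, zero_sub, gs_mul_coeff]
            congr 1
            refine Finset.sum_congr rfl fun i _ => ?_
            by_cases hci : c i = 0
            · rw [hci]; ring
            · have h3 : dt δ (u - a i) = N := by rw [dt_sub, hδ i hci, hu]; ring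
              rw [ht, if_pos h3, one_mul]
          simp only [h2, Finset.sum_neg_distrib, neg_eq_zero] at h1
          exact h1
        · refine Finset.sum_eq_zero fun j _ => ?_
          rw [gs_mul_coeff]
          refine Finset.sum_eq_zero fun i _ => ?_
          by_cases hci : c i = 0
          · rw [hci]; ring
          · have h3 : dt δ (u - a i) ≠ N := by rw [dt_sub, hδ i hci]; omega
            rw [ht, if_neg h3, zero_mul, mul_zero]
      obtain ⟨y0, hy0S, hy0a, hy0⟩ := hK t htS hgt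
      let y : Fin s → Fin s → LP ℂ d :=
        fun j k => dg (fun u => if dt δ u = N - 1 then (1 : ℂ) else 0) (y0 j k)
      have hy : ∀ j k u, (y j k).coeff u =
          (if dt δ u = N - 1 then (1 : ℂ) else 0) * (y0 j k).coeff u := fun j k u => dg_coeff _ _ _
      have hyS : ∀ j k, Supp (S ∩ LL ℓ P {j, k}) (y j k) := fun j k => (hy0S j k).dg _
      have hya : ∀ j k, y j k = -y k j := by
        intro j k
        apply lp_ext
        intro u
        rw [coeff_neg', hy, hy, hy0a j k, coeff_neg', mul_neg]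
      have hyt : ∀ j, t j = ∑ k, gs a c (ℓ k) * y j k := by
        intro j
        apply lp_ext
        intro u
        rw [coeff_finsum]
        by_cases hu : dt δ u = N
        · have h1 : (t j).coeff u =
              (∑ k, gs a c (ℓ k) * y0 j k).coeff u := by rw [← hy0 j]
          rw [h1, coeff_finsum]
          refine Finset.sum_congr rfl fun k _ => ?_
          rw [gs_mul_coeff, gs_mul_coeff]
          refine Finset.sum_congr rfl fun i _ => ?_
          by_cases hci : c i = 0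
          · rw [hci]; ring
          · have h3 : dt δ (u - a i) = N - 1 := by rw [dt_sub, hδ i hci, hu]
            rw [hy, if_pos h3, one_mul]
        · rw [ht, if_neg hu, zero_mul]
          symm
          refine Finset.sum_eq_zero fun k _ => ?_
          rw [gs_mul_coeff]
          refine Finset.sum_eq_zero fun i _ => ?_
          by_cases hci : c i = 0
          · rw [hci]; ring
          · have h3 : dt δ (u - a i) ≠ N - 1 := by rw [dt_sub, hδ i hci]; omega
            rw [hy, if_neg h3, zero_mul, mul_zero]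
      refine ih (fun j => z j + ∑ k, Dop p a c (ℓ k) (y j k)) ?_ ?_ ?_
      · intro j
        refine (hzS j).add (Supp.sum _ fun k _ => ?_)
        refine LL_Dop p a c ℓ P {j} hP1 hPa S hS k (y j k) ?_
        rw [Finset.pair_comm]
        exact hyS j k
      · intro j
        have e1 : z j + ∑ k, Dop p a c (ℓ k) (y j k) = (z j - t j) +
            ∑ k, dg (fun u => pv p (ℓ k) + (dt (ℓ k) u : ℂ)) (y j k) := by
          have e2 : ∀ k, Dop p a c (ℓ k) (y j k) =
              dg (fun u => pv p (ℓ k) + (dt (ℓ k) u : ℂ)) (y j k) - gs a c (ℓ k) * y j k :=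
            fun k => rfl
          simp only [e2, Finset.sum_sub_distrib]
          rw [hyt j]
          abel
        show Supp {u | dt δ u < n} (z j + ∑ k, Dop p a c (ℓ k) (y j k))
        rw [e1]
        refine Supp.add ?_ (Supp.sum _ fun k _ => Supp.dg _ ?_)
        · intro u hu
          rw [coeff_sub', ht] at hu
          have h1 : (z j).coeff u ≠ 0 := by
            intro h; apply hu; rw [h, mul_zero, sub_zero]
          have h3 : dt δ u < ((n + 1 : ℕ) : ℤ) := hz j u h1
          show dt δ u < (n : ℤ)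
          by_contra h4
          have h5 : dt δ u = N := by
            push_cast at h3
            omega
          apply hu
          rw [if_pos h5, one_mul, sub_self]
        · intro u hu
          rw [hy] at hu
          have h1 : dt δ u = N - 1 := by
            by_contra h
            apply hu
            rw [if_neg h, zero_mul]
          show dt δ u < (n : ℤ)
          omega
      · have e3 : ∑ j, Dop p a c (ℓ j) (∑ k, Dop p a c (ℓ k) (y j k)) = 0 :=
          Dop_antisymmL p a c ℓ lp_eq_neg_self y hya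
        simp only [Dop_add, Finset.sum_add_distrib]
        rw [e3, ← hzz, add_zero]
  obtain ⟨z', hz'S, hz', hzz'⟩ := key (∑ j, ∑ u ∈ (z0 j).coeff.support, (dt δ u + 1).toNat) z0
    hz0
    (fun j u hu => by
      show dt δ u < ((∑ j, ∑ u ∈ (z0 j).coeff.support, (dt δ u + 1).toNat : ℕ) : ℤ)
      have h1 : (dt δ u + 1).toNat ≤
          ∑ j, ∑ u ∈ (z0 j).coeff.support, (dt δ u + 1).toNat := by
        refine le_trans ?_ (Finset.single_le_sum (f := fun j => ∑ u ∈ (z0 j).coeff.support,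
          (dt δ u + 1).toNat) (fun _ _ => Nat.zero_le _) (Finset.mem_univ j))
        exact Finset.single_le_sum (f := fun u => (dt δ u + 1).toNat)
          (fun _ _ => Nat.zero_le _) (Finsupp.mem_support_iff.2 hu)
      omega) heq0
  -- the part of degree `-1`
  let t : Fin s → LP ℂ d := fun j => dg (fun u => if dt δ u = -1 then (-1 : ℂ) else 0) (z' j)
  have ht : ∀ j u, (t j).coeff u = (if dt δ u = -1 then (-1 : ℂ) else 0) * (z' j).coeff u :=
    fun j u => dg_coeff _ _ _
  refine ⟨t, fun j u hu => ?_, ?_⟩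
  · rw [ht] at hu
    have h1 := hz'S j u (fun h => hu (by rw [h, mul_zero]))
    refine ⟨h1.1, h1.2, ?_⟩
    by_contra h
    exact hu (by rw [if_neg h, zero_mul])
  · apply lp_ext
    intro u
    rw [coeff_finsum]
    by_cases hu : dt δ u = 0
    · rw [hzz', coeff_finsum]
      refine Finset.sum_congr rfl fun j _ => ?_
      have h1 : (z' j).coeff u = 0 := by
        by_contra h
        have h2 : dt δ u < 0 := hz' j u h
        omega
      rw [Dop_coeff, h1, mul_zero, zero_sub, gs_mul_coeff, ← Finset.sum_neg_distrib]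
      refine Finset.sum_congr rfl fun i _ => ?_
      by_cases hci : c i = 0
      · rw [hci]; ring
      · have h3 : dt δ (u - a i) = -1 := by rw [dt_sub, hδ i hci, hu]; ring
        rw [ht, if_pos h3]
        ring
    · have h1 : (single 0 b : LP ℂ d).coeff u = 0 := by
        rw [coeff_single', if_neg]
        rintro rfl
        exact hu (dt_zero δ)
      rw [h1]
      symm
      refine Finset.sum_eq_zero fun j _ => ?_
      rw [gs_mul_coeff]
      refine Finset.sum_eq_zero fun i _ => ?_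
      by_cases hci : c i = 0
      · rw [hci]; ring
      · have h3 : dt δ (u - a i) ≠ -1 := by rw [dt_sub, hδ i hci]; omega
        rw [ht, if_neg h3, zero_mul, mul_zero]

end Pool.Agent.H56.T5

end S_DEGL
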