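import Mathlib
import Pool.Agent.H56.SL.A6
import Pool.Agent.H56.SL.A10
import Pool.Agent.H56.SN.R1

/-! Strong monodromy, simplicial critical facets, part R2: this file joins the modules JFL, BFBL, MRELL, APPL. -/

set_option autoImplicit false

section S_JFL

/-!
# JFL: the formal integrals, polynomial supports

ADAPT `JF.lean` (`Pool/Agent/H56/SMC/JF.lean`).  The only change: the submodule `exS` of all relations is replaced by the submodule `exLS`
(`LB`) of the relations with mixed supports in ALL coordinate directions (`P = sh univ`, `ℓ = ev`): component `k` of a chain is supported in the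
`vec l l2 q` with `q_j ≥ -1`, and `q_j ≥ 0` if `j.succ.succ ≠ k`.

Proof.  `JF_rec`, `JF_emb`, `JF_L`, `JF_I` (for a general submodule `S`) and the other auxiliary lemmas of `JF` can be used as they are.
Analogues of `JF_rel`, `JF_D0`, `JF_D1`, `JF_D2` in the quotient by `exLS`: the relation `D_k e_u = 0` holds for
`u ∈ LL ev (sh univ) {k}` (`ExL.single_comp`, `Supp.single`).  For `D_0`, `D_1`: `u = vec l l2 q` with `q ≥ 0` (`vec_mem_LL`).  For
`D_{j+2}`: `u = vec l l2 (-ev j + q)` with `q ≥ 0`: `u_j = q_j - 1 ≥ -1`, the other `u_i ≥ 0` (component `j+2` of mixed type).  The statements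
`h1`, `h2`, `h3` are now for `g` with polynomial support (`Supp (Pos n) g`): write `g` as the sum of its terms (induction on the support
inside `Pos n`, or `g = ∑ u ∈ g.coeff.support, single u (g.coeff u)`).
-/

set_option autoImplicit false

namespace Pool.Agent.H56.T5

open Finset AddMonoidAlgebra
open Pool.Agent.H56.SMC Pool.Agent.H37.T5

/-- the relation `D_j e_u = 0` -/
theorem JFL_rel {R : Type} [CommRing R] {d : ℕ} {ι : Type} [Fintype ι] (p : Fin d → R)
    (a : ι → Lat d) (c : ι → R) {P : Finset (Fin d)} (j : Fin d) (u : Lat d)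
    (hu : u ∈ LL ev P {j}) (r : R) :
    (exLS p a c ev P Set.univ).mkQ (single u ((p j + (u j : R)) * r)) =
      ∑ i, (exLS p a c ev P Set.univ).mkQ (single (u + a i) (c i * (a i j : R) * r)) := by
  rw [← map_sum, ← sub_eq_zero, ← map_sub, Submodule.mkQ_apply, Submodule.Quotient.mk_eq_zero,
    mem_exLS]
  have h := ExL.single_comp (p := p) (a := a) (c := c) (ℓ := ev) (P := P) (S := Set.univ) j
    (Supp.single (show u ∈ Set.univ ∩ LL ev P {j} from ⟨Set.mem_univ u, hu⟩) r)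
  convert h using 1
  apply lp_ext; intro u'
  rw [Dop_coeff, coeff_sub', coeff_finsum, JF_pv_ev, coeff_single', coeff_single']
  congr 1
  · rw [dt_ev]
    split_ifs with h1
    · rw [h1]
    · rw [mul_zero]
  · refine sum_congr rfl fun i _ => ?_
    rw [coeff_single', coeff_single', dt_ev]
    have e : (u' = u + a i) = (u' - a i = u) := by
      rw [sub_eq_iff_eq_add]
    simp only [e]
    split_ifs
    · rfl
    · rw [mul_zero]

/-- an element is the sum of its terms -/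
theorem JFL_sum_single {R : Type} [CommRing R] {n : ℕ} (g : LP R n) :
    g = ∑ u ∈ g.coeff.support, (single u (g.coeff u) : LP R n) := by
  classical
  apply lp_ext; intro u
  rw [coeff_finsum]
  simp only [coeff_single']
  rw [Finset.sum_ite_eq]
  split_ifs with h
  · rfl
  · exact Finsupp.notMem_support_iff.mp h

/-- induction for polynomial supports -/
theorem JFL_ind {R : Type} [CommRing R] {n : ℕ} {S : Set (Lat n)} {M : LP R n → Prop}
    (h0 : M 0) (hadd : ∀ x y, M x → M y → M (x + y))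
    (hs : ∀ q ∈ S, ∀ x : R, M (single q x)) {g : LP R n} (hg : Supp S g) : M g := by
  rw [JFL_sum_single g]
  refine Finset.sum_induction _ M hadd h0 ?_
  intro u hu
  exact hs u (hg u (Finsupp.mem_support_iff.mp hu)) _

theorem JFL_mem {n : ℕ} (l l2 : ℤ) (q : Lat n) (hq : ∀ j, 0 ≤ q j) (j : Fin n) :
    vec l l2 (-ev j + q) ∈ LL ev (sh univ) {j.succ.succ} := by
  intro k hk
  obtain ⟨j', -, rfl⟩ := mem_sh.1 hk
  have h1 : dt (ev j'.succ.succ) (vec l l2 (-ev j + q)) = (-ev j + q) j' := by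
    rw [dt_ev]; simp [vec]
  rw [h1]
  have h2 := hq j'
  have h3 : (-ev j + q : Lat n) j' = -(if j' = j then 1 else 0) + q j' := by
    simp [ev, Pi.single_apply]
  rw [h3]
  constructor
  · split_ifs <;> omega
  · intro h4
    have h5 : j' ≠ j := by
      rintro rfl
      exact h4 (Finset.mem_singleton_self _)
    rw [if_neg h5]
    omega

section main

variable {n r : ℕ} {ϑ : Type} [Fintype ϑ] (a : Fin r → (Fin n →₀ ℕ)) (κ : Fin r → ℂ)
    (bb : ϑ → Lat n) (lam : ϑ → ℂ) (s0 t0 : ℂ)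

/-- the submodule of the relations -/
noncomputable abbrev JFL_S : Submodule KA (LP KA (n + 2)) :=
  exLS (fun j => jK (pp (PowerSeries.C s0 + PowerSeries.X) (PowerSeries.C t0) j)) (cA a bb)
        (fun i => jK (PowerSeries.C (cC κ lam i))) ev (sh univ) Set.univ

theorem JFL_D0 (l l2 : ℤ) (q : Lat n) (hq : ∀ j, 0 ≤ q j) (x : KA) :
    (JFL_S a κ bb lam s0 t0).mkQ (single (vec l l2 q)
      ((-jK (PowerSeries.C s0 + PowerSeries.X) + (l : KA)) * x)) =
    ∑ i, (JFL_S a κ bb lam s0 t0).mkQ (single (vec (l + 1) l2 (q + fun j => (a i j : ℤ)))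
      (jK (PowerSeries.C (κ i)) * x)) := by
  have h := JFL_rel (fun j : Fin (n + 2) =>
    jK (pp (PowerSeries.C s0 + PowerSeries.X) (PowerSeries.C t0) j)) (cA a bb)
    (fun i => jK (PowerSeries.C (cC κ lam i))) 0 (vec l l2 q)
    (vec_mem_LL univ _ l l2 q fun j _ => hq j) x
  rw [Fintype.sum_sum_type] at h
  have e1 : (vec l l2 q : Lat (n + 2)) 0 = l := rfl
  have e2 : jK (pp (n := n) (PowerSeries.C s0 + PowerSeries.X) (PowerSeries.C t0) 0) =
      -jK (PowerSeries.C s0 + PowerSeries.X) := by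
    rw [← map_neg]; rfl
  simp only [e1, e2] at h
  rw [h]
  have e3 : ∀ k : ϑ, (JFL_S a κ bb lam s0 t0).mkQ (single (vec l l2 q + cA a bb (Sum.inr k))
      (jK (PowerSeries.C (cC κ lam (Sum.inr k))) * ((cA a bb (Sum.inr k) 0 : ℤ) : KA) * x)) = 0 := by
    intro k
    have : (cA a bb (Sum.inr k) 0 : ℤ) = 0 := rfl
    rw [this]
    simp
  rw [sum_congr rfl (fun k _ => e3 k), sum_const_zero, add_zero]
  refine sum_congr rfl fun i _ => ?_
  have e4 : (cA a bb (Sum.inl i) 0 : ℤ) = 1 := rfl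
  have e5 : vec l l2 q + cA a bb (Sum.inl i) = vec (l + 1) l2 (q + fun j => (a i j : ℤ)) := by
    show vec l l2 q + vec 1 0 (fun j => (a i j : ℤ)) = _
    rw [vec_add, add_zero]
  rw [e4, e5]
  simp only [Int.cast_one, mul_one]
  rfl

theorem JFL_D1 (l l2 : ℤ) (q : Lat n) (hq : ∀ j, 0 ≤ q j) (x : KA) :
    (JFL_S a κ bb lam s0 t0).mkQ (single (vec l l2 q)
      ((-jK (PowerSeries.C t0) + (l2 : KA)) * x)) =
    ∑ k, (JFL_S a κ bb lam s0 t0).mkQ (single (vec l (l2 + 1) (q + bb k))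
      (jK (PowerSeries.C (lam k)) * x)) := by
  have h := JFL_rel (fun j : Fin (n + 2) =>
    jK (pp (PowerSeries.C s0 + PowerSeries.X) (PowerSeries.C t0) j)) (cA a bb)
    (fun i => jK (PowerSeries.C (cC κ lam i))) (Fin.succ 0) (vec l l2 q)
    (vec_mem_LL univ _ l l2 q fun j _ => hq j) x
  rw [Fintype.sum_sum_type] at h
  have e1 : (vec l l2 q : Lat (n + 2)) (Fin.succ 0) = l2 := rfl
  have e2 : jK (pp (n := n) (PowerSeries.C s0 + PowerSeries.X) (PowerSeries.C t0)
      (Fin.succ 0)) = -jK (PowerSeries.C t0) := by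
    rw [← map_neg]; rfl
  simp only [e1, e2] at h
  rw [h]
  have e3 : ∀ k : Fin r, (JFL_S a κ bb lam s0 t0).mkQ (single (vec l l2 q + cA a bb (Sum.inl k))
      (jK (PowerSeries.C (cC κ lam (Sum.inl k))) *
        ((cA a bb (Sum.inl k) (Fin.succ 0) : ℤ) : KA) * x)) = 0 := by
    intro k
    have : (cA a bb (Sum.inl k) (Fin.succ 0) : ℤ) = 0 := rfl
    rw [this]
    simp
  rw [sum_congr rfl (fun k _ => e3 k), sum_const_zero, zero_add]
  refine sum_congr rfl fun i _ => ?_
  have e4 : (cA a bb (Sum.inr i) (Fin.succ 0) : ℤ) = 1 := rfl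
  have e5 : vec l l2 q + cA a bb (Sum.inr i) = vec l (l2 + 1) (q + bb i) := by
    show vec l l2 q + vec 0 1 (bb i) = _
    rw [vec_add, add_zero]
  rw [e4, e5]
  simp only [Int.cast_one, mul_one]
  rfl

theorem JFL_D2 (l l2 : ℤ) (q : Lat n) (j : Fin n)
    (hq : vec l l2 q ∈ LL ev (sh univ) {j.succ.succ}) (x : KA) :
    (JFL_S a κ bb lam s0 t0).mkQ (single (vec l l2 q) ((1 + (q j : KA)) * x)) =
    ∑ i, (JFL_S a κ bb lam s0 t0).mkQ (single (vec (l + 1) l2 (q + fun j => (a i j : ℤ)))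
      (jK (PowerSeries.C (κ i)) * (a i j : KA) * x)) +
    ∑ k, (JFL_S a κ bb lam s0 t0).mkQ (single (vec l (l2 + 1) (q + bb k))
      (jK (PowerSeries.C (lam k)) * (bb k j : KA) * x)) := by
  have h := JFL_rel (fun j : Fin (n + 2) =>
    jK (pp (PowerSeries.C s0 + PowerSeries.X) (PowerSeries.C t0) j)) (cA a bb)
    (fun i => jK (PowerSeries.C (cC κ lam i))) j.succ.succ (vec l l2 q) hq x
  rw [Fintype.sum_sum_type] at h
  have e1 : (vec l l2 q : Lat (n + 2)) j.succ.succ = q j := rfl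
  have e2 : jK (pp (n := n) (PowerSeries.C s0 + PowerSeries.X) (PowerSeries.C t0)
      j.succ.succ) = 1 := by
    rw [← map_one jK]; rfl
  simp only [e1, e2] at h
  rw [h]
  congr 1
  · refine sum_congr rfl fun i _ => ?_
    have e4 : (cA a bb (Sum.inl i) j.succ.succ : ℤ) = (a i j : ℤ) := rfl
    have e5 : vec l l2 q + cA a bb (Sum.inl i) = vec (l + 1) l2 (q + fun j => (a i j : ℤ)) := by
      show vec l l2 q + vec 1 0 (fun j => (a i j : ℤ)) = _
      rw [vec_add, add_zero]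
    rw [e4, e5]
    simp only [Int.cast_natCast]
    rfl
  · refine sum_congr rfl fun i _ => ?_
    have e4 : (cA a bb (Sum.inr i) j.succ.succ : ℤ) = bb i j := rfl
    have e5 : vec l l2 q + cA a bb (Sum.inr i) = vec l (l2 + 1) (q + bb i) := by
      show vec l l2 q + vec 0 1 (bb i) = _
      rw [vec_add, add_zero]
    rw [e4, e5]
    rfl

end main

/-- JFL -/
theorem jfL {n r : ℕ} {ϑ : Type} [Fintype ϑ] (a : Fin r → (Fin n →₀ ℕ)) (κ : Fin r → ℂ)
    (bb : ϑ → Lat n) (hbb : ∀ k j, 0 ≤ bb k j) (lam : ϑ → ℂ) (s0 t0 : ℂ)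
    (ht0 : ∀ m : ℤ, t0 ≠ (m : ℂ)) :
    ∃ I : ℤ → ℤ → LP PA n →ₗ[PA] (LP KA (n + 2) ⧸ exLS
        (fun j => jK (pp (PowerSeries.C s0 + PowerSeries.X) (PowerSeries.C t0) j)) (cA a bb)
        (fun i => jK (PowerSeries.C (cC κ lam i))) ev (sh univ) Set.univ),
      (∀ i m g, Supp (Pos n) g →
        I i m g = I (i - 1) m (lmap (algebraMap ℂ PA) (toL ℂ (fpoly a κ)) * g)) ∧
      (∀ i m g, Supp (Pos n) g →
        I i m g = I i (m - 1) (lmap (algebraMap ℂ PA) (Hl bb lam) * g)) ∧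
      (∀ i m j g, Supp (Pos n) g → I i m (dL j g) +
        ((PowerSeries.C s0 + PowerSeries.X) + (i : PA)) •
          I (i - 1) m (dL j (lmap (algebraMap ℂ PA) (toL ℂ (fpoly a κ))) * g) +
        (PowerSeries.C t0 + (m : PA)) •
          I i (m - 1) (dL j (lmap (algebraMap ℂ PA) (Hl bb lam)) * g) = 0) ∧
      I 0 0 1 = Submodule.Quotient.mk (single 0 1) ∧
      ∀ R : ℕ, ∃ ρ : ℂ, ∀ g, I 0 (-(R : ℤ)) g =
        Submodule.Quotient.mk (lmap jK (PowerSeries.C ρ • emb (R : ℤ) g)) := by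
  have hD : ∀ i : ℤ, -jK (PowerSeries.C s0 + PowerSeries.X) - (i : KA) ≠ 0 := by
    intro i h
    have h1 : jK (-(PowerSeries.C s0 + PowerSeries.X) - (i : PA)) = 0 := by
      rw [map_sub, map_neg, map_intCast]; exact h
    have h2 : (-(PowerSeries.C s0 + PowerSeries.X) - (i : PA)) = 0 :=
      (IsFractionRing.injective PA KA) (by rw [map_zero]; exact h1)
    have h3 := congrArg (PowerSeries.coeff 1) h2
    have h4 : ((i : ℤ) : PA) = PowerSeries.C (i : ℂ) := by simp
    rw [h4, map_sub, map_neg, map_add, PowerSeries.coeff_C, PowerSeries.coeff_one_X,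
      PowerSeries.coeff_C, map_zero, if_neg one_ne_zero, if_neg one_ne_zero] at h3
    norm_num at h3
  have hE : ∀ m : ℤ, -t0 - (m : ℂ) ≠ 0 := by
    intro m h
    apply ht0 (-m)
    push_cast
    linear_combination -h
  obtain ⟨ρ, hρ0, hρ⟩ := JF_rec _ hD
  obtain ⟨σ, hσ0, hσ⟩ := JF_rec _ hE
  have hσ' : ∀ m, jK (PowerSeries.C (σ m)) = jK (PowerSeries.C (σ (m - 1))) *
      (-jK (PowerSeries.C t0) - (m : KA)) := by
    intro m
    rw [hσ m]
    simp only [map_mul, map_sub, map_neg, map_intCast]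
  refine ⟨fun i m => JF_I _ ρ σ i m, ?_, ?_, ?_, ?_, ?_⟩
  · intro i m g hg
    refine JFL_ind (M := fun g => JF_I (JFL_S a κ bb lam s0 t0) ρ σ i m g =
      JF_I (JFL_S a κ bb lam s0 t0) ρ σ (i - 1) m
        (lmap (algebraMap ℂ PA) (toL ℂ (fpoly a κ)) * g)) ?_ ?_ ?_ hg
    · simp only [mul_zero, map_zero]
    · intro x y hx hy
      rw [mul_add, map_add, map_add, hx, hy]
    · intro q hq x
      rw [JF_I_single, JF_mapf, sum_mul, map_sum]
      have h := JFL_D0 a κ bb lam s0 t0 (-i) (-m) q hq (ρ (i - 1) * jK (PowerSeries.C (σ m)) * jK x)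
      have e1 : (-jK (PowerSeries.C s0 + PowerSeries.X) + ((-i : ℤ) : KA)) *
          (ρ (i - 1) * jK (PowerSeries.C (σ m)) * jK x) =
          ρ i * jK (PowerSeries.C (σ m)) * jK x := by
        rw [hρ i]; push_cast; ring
      rw [e1] at h
      rw [h]
      refine sum_congr rfl fun k _ => ?_
      rw [single_mul_single, JF_I_single]
      congr 2
      · congr 1
        · ring
        · rw [add_comm]
      · rw [map_mul]; ring
  · intro i m g hg
    refine JFL_ind (M := fun g => JF_I (JFL_S a κ bb lam s0 t0) ρ σ i m g =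
      JF_I (JFL_S a κ bb lam s0 t0) ρ σ i (m - 1)
        (lmap (algebraMap ℂ PA) (Hl bb lam) * g)) ?_ ?_ ?_ hg
    · simp only [mul_zero, map_zero]
    · intro x y hx hy
      rw [mul_add, map_add, map_add, hx, hy]
    · intro q hq x
      rw [JF_I_single, JF_mapH, sum_mul, map_sum]
      have h := JFL_D1 a κ bb lam s0 t0 (-i) (-m) q hq (ρ i * jK (PowerSeries.C (σ (m - 1))) * jK x)
      have e1 : (-jK (PowerSeries.C t0) + ((-m : ℤ) : KA)) *
          (ρ i * jK (PowerSeries.C (σ (m - 1))) * jK x) =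
          ρ i * jK (PowerSeries.C (σ m)) * jK x := by
        rw [hσ' m]; push_cast; ring
      rw [e1] at h
      rw [h]
      refine sum_congr rfl fun k _ => ?_
      rw [single_mul_single, JF_I_single]
      congr 2
      · congr 1
        · ring
        · rw [add_comm]
      · rw [map_mul]; ring
  · intro i m j g hg
    refine JFL_ind (M := fun g => JF_I (JFL_S a κ bb lam s0 t0) ρ σ i m (dL j g) +
        ((PowerSeries.C s0 + PowerSeries.X) + (i : PA)) •
          JF_I (JFL_S a κ bb lam s0 t0) ρ σ (i - 1) m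
            (dL j (lmap (algebraMap ℂ PA) (toL ℂ (fpoly a κ))) * g) +
        (PowerSeries.C t0 + (m : PA)) •
          JF_I (JFL_S a κ bb lam s0 t0) ρ σ i (m - 1)
            (dL j (lmap (algebraMap ℂ PA) (Hl bb lam)) * g) = 0) ?_ ?_ ?_ hg
    · simp only [JF_dL_zero, mul_zero, map_zero, smul_zero, add_zero]
    · intro x y hx hy
      rw [JF_dL_add, mul_add, mul_add, map_add, map_add, map_add, smul_add, smul_add]
      calc _ = _ + _ := by abel
        _ = 0 + 0 := congrArg₂ (· + ·) hx hy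
        _ = 0 := add_zero 0
    · intro q hq x
      rw [JF_mapf, JF_mapH, JF_dL_sum, JF_dL_sum, sum_mul, sum_mul, map_sum, map_sum, smul_sum,
        smul_sum]
      have h := JFL_D2 a κ bb lam s0 t0 (-i) (-m) (-ev j + q) j
        (JFL_mem _ _ q hq j)
        (ρ i * jK (PowerSeries.C (σ m)) * jK x)
      have e0 : ((-ev j + q : Lat n) j : ℤ) = -1 + q j := by
        simp [ev]
      have e1 : (1 + (((-ev j + q : Lat n) j : ℤ) : KA)) *
          (ρ i * jK (PowerSeries.C (σ m)) * jK x) =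
          ρ i * jK (PowerSeries.C (σ m)) * jK ((q j : PA) * x) := by
        rw [e0, map_mul, map_intCast]; push_cast; ring
      rw [e1] at h
      rw [JF_dL_single, JF_I_single, h]
      have f1 : ∀ k : Fin r, ((PowerSeries.C s0 + PowerSeries.X) + (i : PA)) •
          JF_I (JFL_S a κ bb lam s0 t0) ρ σ (i - 1) m
            (dL j (single (fun j => (a k j : ℤ)) (PowerSeries.C (κ k))) * single q x) =
          -(JFL_S a κ bb lam s0 t0).mkQ (single (vec (-i + 1) (-m)
            ((-ev j + q) + fun j => (a k j : ℤ)))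
            (jK (PowerSeries.C (κ k)) * (a k j : KA) *
              (ρ i * jK (PowerSeries.C (σ m)) * jK x))) := by
        intro k
        rw [JF_dL_single, single_mul_single, ← map_smul, JF_smul_single, JF_I_single, ← map_neg]
        congr 1
        rw [← AddMonoidAlgebra.single_neg]
        congr 1
        · congr 1
          · ring
          · abel
        · rw [hρ i]
          simp only [map_mul, map_add, map_intCast]
          push_cast
          ring
      have f2 : ∀ k : ϑ, (PowerSeries.C t0 + (m : PA)) •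
          JF_I (JFL_S a κ bb lam s0 t0) ρ σ i (m - 1)
            (dL j (single (bb k) (PowerSeries.C (lam k))) * single q x) =
          -(JFL_S a κ bb lam s0 t0).mkQ (single (vec (-i) (-m + 1) ((-ev j + q) + bb k))
            (jK (PowerSeries.C (lam k)) * (bb k j : KA) *
              (ρ i * jK (PowerSeries.C (σ m)) * jK x))) := by
        intro k
        rw [JF_dL_single, single_mul_single, ← map_smul, JF_smul_single, JF_I_single, ← map_neg]
        congr 1
        rw [← AddMonoidAlgebra.single_neg]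
        congr 1
        · congr 1
          · ring
          · abel
        · rw [hσ' m]
          simp only [map_mul, map_add, map_intCast]
          ring
      rw [sum_congr rfl (fun k _ => f1 k), sum_congr rfl (fun k _ => f2 k), sum_neg_distrib,
        sum_neg_distrib]
      abel
  · have h1 : (1 : LP PA n) = single 0 1 := rfl
    rw [h1, JF_I_single, hρ0, hσ0]
    simp only [map_one, mul_one, neg_zero]
    have h2 : (vec 0 0 (0 : Lat n) : Lat (n + 2)) = 0 := by
      funext k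
      refine Fin.cases rfl (fun k => Fin.cases rfl (fun k => rfl) k) k
    rw [h2]
    rfl
  · intro R
    refine ⟨σ (-(R : ℤ)), ?_⟩
    intro g
    show Submodule.Quotient.mk ((ρ 0 * jK (PowerSeries.C (σ (-(R : ℤ))))) •
      JF_emb (-0) (- -(R : ℤ)) (lmap jK g)) = _
    rw [hρ0, one_mul, neg_zero, neg_neg, lmap_smul]
    congr 2
    induction g using AddMonoidAlgebra.induction_linear with
    | zero =>
      have z1 : lmap jK (0 : LP PA n) = 0 := by
        apply lp_ext; intro u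
        rw [lmap_coeff, coeff_zero', coeff_zero', map_zero]
      have z2 : emb (R : ℤ) (0 : LP PA n) = 0 := JF_emb_zero 0 (R : ℤ)
      have z3 : lmap jK (0 : LP PA (n + 2)) = 0 := by
        apply lp_ext; intro u
        rw [lmap_coeff, coeff_zero', coeff_zero', map_zero]
      rw [z1, z2, z3, JF_emb_zero]
    | add x y hx hy =>
      rw [lmap_add, JF_emb_add, hx, hy, ← lmap_add]
      congr 1
      exact (JF_emb_add (0 : ℤ) (R : ℤ) x y).symm
    | single q x =>
      rw [JF_lmap_single, JF_emb_single]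
      have h1 : emb (R : ℤ) (single q x : LP PA n) = single (vec 0 (R : ℤ) q) x :=
        JF_emb_single (0 : ℤ) (R : ℤ) q x
      rw [h1, JF_lmap_single]

end Pool.Agent.H56.T5

end S_JFL

section S_BFBL

/-!
# BFBL: integration by parts, polynomial supports

ADAPT `bfb_aux` (`Pool/Agent/H56/SMC/BFB.lean`); the statement on the exponents is now simply polynomial.

`I i m g` is a formal version of `∫ F^{s+i} H^{t+m} g`.
Proof.  First: sums, products and derivatives `dL j` of polynomially supported Laurent polynomials are polynomially supported (`dL j` lowers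
the exponent `u_j` by one and multiplies with `u_j`, so terms with `u_j = 0` disappear; `bfb_mul_coeff`, `bfb_dL_ne`), hence so is
`GG F s L` (induction on `L`).  Then `q' = Q L`, `Q [] = q`, and for `j :: L`: by `h1`, `h3`
`I(1-|L|-1) m (q GG(j::L)) = I(-|L|) m (q F ∂_j GG_L) + (s+1-|L|) I(-|L|) m (q GG_L ∂_j F) = I(1-|L|) m (q ∂_j GG_L) + (s+1-|L|) I(-|L|) m (∂_j F q GG_L)`, and `h3` for
`g = q GG_L`, `i = 1-|L|` gives
`= I(1-|L|) m (q ∂_j GG_L) - I(1-|L|) m (∂_j (q GG_L)) - (t+m) I(1-|L|) (m-1) (∂_j H q GG_L) = I(1-|L|) (m-1) ((-H ∂_j q - (t+m) ∂_j H q) GG_L)`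
(Leibniz for `dL`, `bfb_leibniz`; `h2`).  So by induction on `L`, for all `m` and all polynomially supported `q`:
`I(1-|L|) m (q GG_L) = I 1 (m-|L|) q'`, `q'` polynomially supported.
-/

set_option autoImplicit false

namespace Pool.Agent.H56.T5

open Finset AddMonoidAlgebra
open Pool.Agent.H56.SMC Pool.Agent.H37.T5

theorem pos_mul {n : ℕ} {A : Type} [CommRing A] {f g : LP A n} (hf : Supp (Pos n) f)
    (hg : Supp (Pos n) g) : Supp (Pos n) (f * g) := by
  intro u hu
  obtain ⟨a, b, ha, hb, rfl⟩ := bfb_mul_coeff _ _ _ hu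
  intro j
  have h1 := hf a ha j
  have h2 := hg b hb j
  have h3 : (a + b) j = a j + b j := rfl
  rw [h3]
  omega

theorem pos_dL {n : ℕ} {A : Type} [CommRing A] (j : Fin n) {g : LP A n}
    (hg : Supp (Pos n) g) : Supp (Pos n) (dL j g) := by
  intro u hu
  obtain ⟨h1, h2⟩ := bfb_dL_ne j g u hu
  have h3 := hg _ h1
  intro k
  have h4 := h3 k
  by_cases hk : k = j
  · subst hk
    have h5 : (u + ev k) k = u k + 1 := by simp [ev]
    rw [h5] at h4 h2
    omega
  · have h5 : (u + ev j) k = u k := by simp [ev, hk]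
    rw [h5] at h4
    exact h4

theorem BFBL_add {n : ℕ} {A : Type} [CommRing A] {f g : LP A n} (hf : Supp (Pos n) f)
    (hg : Supp (Pos n) g) : Supp (Pos n) (f + g) := by
  intro u hu
  rw [coeff_add'] at hu
  by_cases h : f.coeff u = 0
  · rw [h, zero_add] at hu
    exact hg u hu
  · exact hf u h

theorem BFBL_smul {n : ℕ} {A : Type} [CommRing A] {f : LP A n} (c : A)
    (hf : Supp (Pos n) f) : Supp (Pos n) (c • f) := by
  intro u hu
  rw [coeff_smul'] at hu
  exact hf u (right_ne_zero_of_mul hu)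

theorem BFBL_neg {n : ℕ} {A : Type} [CommRing A] {f : LP A n}
    (hf : Supp (Pos n) f) : Supp (Pos n) (-f) := by
  intro u hu
  rw [coeff_neg'] at hu
  exact hf u (neg_ne_zero.1 hu)

theorem BFBL_sub {n : ℕ} {A : Type} [CommRing A] {f g : LP A n} (hf : Supp (Pos n) f)
    (hg : Supp (Pos n) g) : Supp (Pos n) (f - g) := by
  rw [sub_eq_add_neg]
  exact BFBL_add hf (BFBL_neg hg)

theorem pos_GG {n : ℕ} {A : Type} [CommRing A] (F : LP A n) (hF : Supp (Pos n) F) (s : A)
    (L : List (Fin n)) : Supp (Pos n) (GG F s L) := by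
  induction L with
  | nil =>
    intro u hu j
    have e : (GG F s [] : LP A n) = single 0 1 := rfl
    rw [e, coeff_single'] at hu
    by_cases h : u = 0
    · rw [h]
      exact le_rfl
    · rw [if_neg h] at hu
      exact absurd rfl hu
  | cons j L ih =>
    have e4 : GG F s (j :: L) = F * dL j (GG F s L) +
      (s + 1 - (L.length : A)) • (GG F s L * dL j F) := rfl
    rw [e4]
    exact BFBL_add (pos_mul hF (pos_dL j ih)) (BFBL_smul _ (pos_mul ih (pos_dL j hF)))

/-- BFBL -/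
theorem bfbL {n : ℕ} {A W : Type} [CommRing A] [AddCommGroup W] [Module A W] (s t : A)
    (F H : LP A n) (hF : Supp (Pos n) F) (hH : Supp (Pos n) H) (I : ℤ → ℤ → LP A n →ₗ[A] W)
    (h1 : ∀ i m g, Supp (Pos n) g → I i m g = I (i - 1) m (F * g))
    (h2 : ∀ i m g, Supp (Pos n) g → I i m g = I i (m - 1) (H * g))
    (h3 : ∀ i m j g, Supp (Pos n) g → I i m (dL j g) +
      (s + (i : A)) • I (i - 1) m (dL j F * g) + (t + (m : A)) • I i (m - 1) (dL j H * g) = 0)
    (L : List (Fin n)) (m : ℤ) (q : LP A n) (hq : Supp (Pos n) q) :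
    ∃ q' : LP A n, I (1 - L.length) m (q * GG F s L) = I 1 (m - L.length) q' ∧
      Supp (Pos n) q' := by
  induction L generalizing m q with
  | nil =>
    refine ⟨q, ?_, hq⟩
    simp [GG]
  | cons j L ih =>
    have hGG := pos_GG F hF s L
    obtain ⟨q', hq', hex⟩ := ih (m - 1) (-(H * dL j q) - (t + (m : A)) • (dL j H * q))
      (BFBL_sub (BFBL_neg (pos_mul hH (pos_dL j hq))) (BFBL_smul _ (pos_mul (pos_dL j hH) hq)))
    refine ⟨q', ?_, hex⟩
    have e1 : (m - ((j :: L).length : ℤ)) = m - 1 - (L.length : ℤ) := by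
      rw [List.length_cons]; push_cast; ring
    have e2 : (1 - ((j :: L).length : ℤ)) = 1 - (L.length : ℤ) - 1 := by
      rw [List.length_cons]; push_cast; ring
    rw [e1, ← hq', e2]
    have e3 : q * GG F s (j :: L) = F * (q * dL j (GG F s L)) +
        (s + ((1 - (L.length : ℤ) : ℤ) : A)) • (dL j F * (q * GG F s L)) := by
      have e4 : GG F s (j :: L) = F * dL j (GG F s L) +
        (s + 1 - (L.length : A)) • (GG F s L * dL j F) := rfl
      have e5 : (s + ((1 - (L.length : ℤ) : ℤ) : A)) = s + 1 - (L.length : A) := by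
        push_cast; ring
      rw [e4, e5, mul_add, mul_smul_comm]
      congr 1
      · ring
      · congr 1; ring
    rw [e3, map_add, map_smul, ← h1 _ _ _ (pos_mul hq (pos_dL j hGG))]
    have e6 := h3 (1 - (L.length : ℤ)) m j (q * GG F s L) (pos_mul hq hGG)
    rw [bfb_leibniz, map_add] at e6
    have e7 : (-(H * dL j q) - (t + (m : A)) • (dL j H * q)) * GG F s L =
        -(H * (dL j q * GG F s L)) - (t + (m : A)) • (dL j H * (q * GG F s L)) := by
      rw [sub_mul, smul_mul_assoc, neg_mul, mul_assoc, mul_assoc]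
    rw [e7, map_sub, map_neg, map_smul, ← h2 _ _ _ (pos_mul (pos_dL j hq) hGG)]
    have e8 : ∀ a b c d e : W, a + b + c + d = 0 → e = -a - d → b + c = e := by
      intro a b c d e h he
      rw [he]
      have : b + c = (a + b + c + d) - a - d := by abel
      rw [this, h]; abel
    exact e8 _ _ _ _ _ e6 rfl

end Pool.Agent.H56.T5

end S_BFBL

section S_MRELL

/-!
# MRELL: the relation obtained from the functional equation, with mixed supports

ADAPT `MREL.lean` (`Pool/Agent/H56/SMC/MREL.lean`): `mrel_iter1`, `mrel_iter2`, `mrel_key`, `mrel_fin`, `mrel_exp`, `mrel`.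

Proof.  `A = PA`, `s = C s0 + X`, `t = C t0`, `F = lmap (algebraMap ℂ PA) (toL ℂ f)`, `H = lmap (algebraMap ℂ PA) (Hl bb lam)` (both polynomially
supported: `mrel_toL_nonneg`, `hbb`), `W`, `I` from `jfL`, `R` from `bfa`.
`b(s) I 0 0 1 = I (1-R) 0 (b(s) F^{R-1})` (`h1` iterated, all elements polynomially supported) `= ∑_β I (1-R) 0 (p_β GG_β F^{R-|β|}) = ∑_β I (1-|β|) 0 (p_β GG_β) = ∑_β I 1 (-|β|) q_β` (`bfbL` with
`q = p_β`) `= ∑_β I 1 (-R) (H^{R-|β|} q_β) = I 0 (-R) (F G)`, `G = ∑_β H^{R-|β|} q_β`, and `jfL` gives `= mk (lmap jK (C ρ • emb R (F G)))`.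
`x = C ρ • emb R (F G)`.  Exponents of `F G`: `ρ' + a_i` with `ρ'` an exponent of `G`, `ρ' ≥ 0`.
-/

set_option autoImplicit false

namespace Pool.Agent.H56.T5

open Finset AddMonoidAlgebra
open Pool.Agent.H56.SMC Pool.Agent.H37.T5

theorem mrelL_one {n : ℕ} {A : Type} [CommRing A] : Supp (Pos n) (1 : LP A n) := by
  rw [AddMonoidAlgebra.one_def]
  have h : (0 : Lat n) ∈ Pos n := fun _ => le_rfl
  exact Supp.single h 1

theorem mrelL_pow {n : ℕ} {A : Type} [CommRing A] {F : LP A n} (hF : Supp (Pos n) F) (k : ℕ) :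
    Supp (Pos n) (F ^ k) := by
  induction k with
  | zero => rw [pow_zero]; exact mrelL_one
  | succ k ih => rw [pow_succ]; exact pos_mul ih hF

theorem mrelL_iter1 {n : ℕ} {A W : Type} [CommRing A] [AddCommGroup W] [Module A W] (F : LP A n)
    (hF : Supp (Pos n) F) (I : ℤ → ℤ → LP A n →ₗ[A] W)
    (h1 : ∀ i m g, Supp (Pos n) g → I i m g = I (i - 1) m (F * g)) (k : ℕ) :
    ∀ i m g, Supp (Pos n) g → I i m g = I (i - k) m (F ^ k * g) := by
  induction k with
  | zero => intro i m g _; simp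
  | succ k ih =>
    intro i m g hg
    rw [ih i m g hg, h1 _ _ _ (pos_mul (mrelL_pow hF k) hg), ← mul_assoc, ← pow_succ']
    congr 2
    push_cast
    ring

theorem mrelL_iter2 {n : ℕ} {A W : Type} [CommRing A] [AddCommGroup W] [Module A W] (H : LP A n)
    (hH : Supp (Pos n) H) (I : ℤ → ℤ → LP A n →ₗ[A] W)
    (h2 : ∀ i m g, Supp (Pos n) g → I i m g = I i (m - 1) (H * g)) (k : ℕ) :
    ∀ i m g, Supp (Pos n) g → I i m g = I i (m - k) (H ^ k * g) := by
  induction k with
  | zero => intro i m g _; simp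
  | succ k ih =>
    intro i m g hg
    rw [ih i m g hg, h2 _ _ _ (pos_mul (mrelL_pow hH k) hg), ← mul_assoc, ← pow_succ']
    congr 2
    push_cast
    ring

/-- the relation, for abstract `I` -/
theorem mrelL_key {n : ℕ} {A W : Type} [CommRing A] [AddCommGroup W] [Module A W] (s c : A)
    (F H : LP A n) (hF : Supp (Pos n) F) (hH : Supp (Pos n) H) (I : ℤ → ℤ → LP A n →ₗ[A] W)
    (h1 : ∀ i m g, Supp (Pos n) g → I i m g = I (i - 1) m (F * g))
    (h2 : ∀ i m g, Supp (Pos n) g → I i m g = I i (m - 1) (H * g))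
    (R : ℕ) (hR0 : 0 < R) (S : Finset (Fin n →₀ ℕ)) (hRl : ∀ β ∈ S, (lst β).length ≤ R)
    (pb q : (Fin n →₀ ℕ) → LP A n) (hpb : ∀ β, Supp (Pos n) (pb β)) (hq : ∀ β, Supp (Pos n) (q β))
    (hb : ∑ β ∈ S, pb β * GG F s (lst β) * F ^ (R - (lst β).length) = c • F ^ (R - 1))
    (hq1 : ∀ β, I (1 - ((lst β).length : ℤ)) 0 (pb β * GG F s (lst β)) =
      I 1 (0 - ((lst β).length : ℤ)) (q β)) :
    c • I 0 0 1 = I 0 (-(R : ℤ)) (F * ∑ β ∈ S, H ^ (R - (lst β).length) * q β) := by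
  have e2 : c • I 0 0 1 = I (1 - (R : ℤ)) 0 (c • F ^ (R - 1)) := by
    rw [mrelL_iter1 F hF I h1 (R - 1) 0 0 1 mrelL_one, mul_one, ← map_smul]
    congr 2
    rw [Nat.cast_sub hR0]
    push_cast
    ring
  have hsum : Supp (Pos n) (∑ β ∈ S, H ^ (R - (lst β).length) * q β) :=
    Supp.sum S fun β _ => pos_mul (mrelL_pow hH _) (hq β)
  rw [e2, ← hb, map_sum]
  have e3 : I 0 (-(R : ℤ)) (F * ∑ β ∈ S, H ^ (R - (lst β).length) * q β) =
      I 1 (-(R : ℤ)) (∑ β ∈ S, H ^ (R - (lst β).length) * q β) := by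
    rw [h1 1 (-(R : ℤ)) _ hsum, sub_self]
  rw [e3, map_sum]
  refine sum_congr rfl fun β hβ => ?_
  have hl := hRl β hβ
  have e4 := hq1 β
  rw [zero_sub] at e4
  have e5 := mrelL_iter1 F hF I h1 (R - (lst β).length) (1 - ((lst β).length : ℤ)) 0
    (pb β * GG F s (lst β)) (pos_mul (hpb β) (pos_GG F hF s _))
  have e6 := mrelL_iter2 H hH I h2 (R - (lst β).length) 1 (-((lst β).length : ℤ)) (q β) (hq β)
  have e7 : (1 - ((lst β).length : ℤ)) - ((R - (lst β).length : ℕ) : ℤ) = 1 - (R : ℤ) := by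
    rw [Nat.cast_sub hl]; ring
  have e8 : (-((lst β).length : ℤ)) - ((R - (lst β).length : ℕ) : ℤ) = -(R : ℤ) := by
    rw [Nat.cast_sub hl]; ring
  rw [e7] at e5
  rw [e8] at e6
  rw [← e6, ← e4, e5]
  congr 1
  rw [mul_comm]

/-- from the quotient to `ExL` -/
theorem mrelL_fin {d s : ℕ} {ι : Type} [Fintype ι] (p : Fin d → KA) (a : ι → Lat d) (c : ι → KA)
    (ℓ : Fin s → Lat d) (P : Finset (Fin s)) (S : Set (Lat d))
    (r : PA) (x : LP PA d)
    (h : r • (Submodule.Quotient.mk (single 0 1) : LP KA d ⧸ exLS p a c ℓ P S) =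
      Submodule.Quotient.mk (lmap jK x)) :
    ExL p a c ℓ P S (lmap jK (single 0 r - x)) := by
  rw [← mem_exLS, lmap_sub, ← Submodule.Quotient.mk_eq_zero, Submodule.Quotient.mk_sub, ← h,
    sub_eq_zero, JF_lmap_single]
  have e9 : r • (Submodule.Quotient.mk (single 0 1) : LP KA d ⧸ exLS p a c ℓ P S) =
      Submodule.Quotient.mk (r • single 0 1) := rfl
  rw [e9]
  congr 1
  apply lp_ext
  intro u
  rw [coeff_single']
  have e10 : (r • (single 0 1 : LP KA d)).coeff u = r • ((single 0 1 : LP KA d).coeff u) := rfl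
  rw [e10, coeff_single', Algebra.smul_def]
  split_ifs
  · rw [mul_one]; rfl
  · rw [mul_zero]

theorem mrelL_H {n : ℕ} {ϑ : Type} [Fintype ϑ] (bb : ϑ → Lat n) (hbb : ∀ k j, 0 ≤ bb k j)
    (lam : ϑ → ℂ) : Supp (Pos n) (lmap (algebraMap ℂ PA) (Hl bb lam)) := by
  intro u hu
  rw [JF_mapH] at hu
  obtain ⟨k, rfl⟩ := mrel_singles _ _ _ hu
  exact hbb k

theorem mrelL_F {n : ℕ} (f : MvPolynomial (Fin n) ℂ) :
    Supp (Pos n) (lmap (algebraMap ℂ PA) (toL ℂ f)) :=
  Supp.lmap _ fun u hu => mrel_toL_nonneg f u hu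

/-- the exponents -/
theorem mrelL_exp {n r : ℕ} (a : Fin r → (Fin n →₀ ℕ)) (κ : Fin r → ℂ) (R : ℕ) (g : LP PA n)
    (hg : Supp (Pos n) g) (ρ0 : PA) (u : Lat (n + 2))
    (hu : (ρ0 • emb (R : ℤ) (lmap (algebraMap ℂ PA) (toL ℂ (fpoly a κ)) * g)).coeff u ≠ 0) :
    ∃ (ρ : Lat n) (i : Fin r), u = vec 0 R (ρ + fun j => (a i j : ℤ)) ∧ ∀ j, 0 ≤ ρ j := by
  classical
  rw [coeff_smul'] at hu
  have hu1 := right_ne_zero_of_mul hu
  obtain ⟨w, hw, rfl⟩ : ∃ w, (lmap (algebraMap ℂ PA) (toL ℂ (fpoly a κ)) * g).coeff w ≠ 0 ∧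
        u = vec 0 (R : ℤ) w := by
    have h6 : u ∈ (Finsupp.mapDomain (vec 0 (R : ℤ))
      (lmap (algebraMap ℂ PA) (toL ℂ (fpoly a κ)) * g).coeff).support :=
      Finsupp.mem_support_iff.2 hu1
    have h7 := Finsupp.mapDomain_support h6
    obtain ⟨w, hw, rfl⟩ := Finset.mem_image.1 h7
    exact ⟨w, Finsupp.mem_support_iff.1 hw, rfl⟩
  obtain ⟨a', ρ, ha', hρ, rfl⟩ := bfb_mul_coeff _ _ _ hw
  rw [JF_mapf] at ha'
  obtain ⟨i, rfl⟩ := mrel_singles _ _ _ ha'
  exact ⟨ρ, i, congrArg (vec 0 (R : ℤ)) (add_comm _ _), hg ρ hρ⟩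

/-- MRELL -/
theorem mrelL {n r : ℕ} {ϑ : Type} [Fintype ϑ] (a : Fin r → (Fin n →₀ ℕ)) (κ : Fin r → ℂ)
    (bb : ϑ → Lat n) (hbb : ∀ k j, 0 ≤ bb k j) (lam : ϑ → ℂ) (b : Polynomial ℂ) (P : H22.WeylS n)
    (hfe : H22.FunctionalEquation (fpoly a κ) b P)
    (s0 t0 : ℂ) (ht0 : ∀ m : ℤ, t0 ≠ (m : ℂ)) :
    ∃ (R : ℕ) (x : LP PA (n + 2)),
      ExL (fun j => jK (pp (PowerSeries.C s0 + PowerSeries.X) (PowerSeries.C t0) j)) (cA a bb)
        (fun i => jK (PowerSeries.C (cC κ lam i))) ev (sh univ) Set.univ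
        (lmap jK (single 0 (Polynomial.aeval (PowerSeries.C s0 + PowerSeries.X : PA) b) - x)) ∧
      ∀ u, x.coeff u ≠ 0 → ∃ (ρ : Lat n) (i : Fin r),
        u = vec 0 R (ρ + fun j => (a i j : ℤ)) ∧ ∀ j, 0 ≤ ρ j := by
  obtain ⟨R, hR0, hRl, hbfa⟩ := bfa (fpoly a κ) b P hfe
  obtain ⟨I, h1, h2, h3, h4, h5⟩ := jfL a κ bb hbb lam s0 t0 ht0
  have hb := hbfa PA (PowerSeries.C s0 + PowerSeries.X)
  have hF := mrelL_F (fpoly a κ)
  have hH := mrelL_H bb hbb lam
  have hpb : ∀ β : Fin n →₀ ℕ, Supp (Pos n) (toL PA (MvPolynomial.map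
      (Polynomial.aeval (PowerSeries.C s0 + PowerSeries.X : PA) :
      Polynomial ℂ →ₐ[ℂ] PA).toRingHom (P β))) := fun β => mrel_toL_nonneg _
  have hq := fun β : Fin n →₀ ℕ => bfbL (PowerSeries.C s0 + PowerSeries.X) (PowerSeries.C t0)
    (lmap (algebraMap ℂ PA) (toL ℂ (fpoly a κ))) (lmap (algebraMap ℂ PA) (Hl bb lam)) hF hH
    I h1 h2 h3 (lst β) 0 (toL PA (MvPolynomial.map
      (Polynomial.aeval (PowerSeries.C s0 + PowerSeries.X : PA) :
      Polynomial ℂ →ₐ[ℂ] PA).toRingHom (P β))) (hpb β)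
  choose q hq1 hq2 using hq
  obtain ⟨ρ0, hρ0⟩ := h5 R
  have e1 := mrelL_key _ _ _ _ hF hH I h1 h2 R hR0 P.support hRl _ q hpb hq2 hb hq1
  rw [h4, hρ0] at e1
  exact ⟨R, _, mrelL_fin _ _ _ _ _ _ _ _ e1, fun u hu => mrelL_exp a κ R _
    (Supp.sum _ fun β _ => pos_mul (mrelL_pow hH _) (hq2 β)) _ u hu⟩

end Pool.Agent.H56.T5

end S_MRELL

section S_APPL

/-!
# APPL: the relation on the slice of a weight vector `w`

ADAPT the proof of `appg` (`Pool/Agent/H56/SMC/APPG.lean`); here there are no walls `β`, `w` is any weight vector with `N(w) > 0` (not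
necessarily a facet normal), and the conclusion is the relation on the slice with mixed supports.

Write `A = A5 a M = cA a (bbM (noW n) M)`, `c = cC κ lam`, `h0 = h5 a w`, `N = wmin a w`, `δ = vec 1 1 0`, `s0 = -|w|/N`.
Proof.  (0) `0 < r` (`appg_pos`).  (1) `fspan`, `fac` (with `d + 1 = n + 2`): the functionals `h_v`, `hfac`.  `Sset h = {u : InC A u}`
(`appg_sset`).  `l = lev h m0 y0`; `l v ≤ 0` since `dt (h v) y0 ≥ 0` (`hy0c`).  `Sc h l = RG A m0 y0` (`mem_Sc_lev`, `appg_sset`).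
(2) lower bound for `dt δ` on `Sc h l` as in `appg`; `0 ≤ dt h0 u` on `Sc h l` (`hy0`, `appg_h0`).
(3) For every index `v`: either `h_v` has second coordinate `≠ 0`, or `fnr` applies: `h_v = vec 1 0 0` or `h_v = vec (-wmin a v') 0 v'` with
`v' : Fin n → ℕ`.  `hnr`: `appn`; in the last case, if `wmin a v' = 0` then some `i` has `∑ a_i j v'_j = 0`, so every `j` with
`v'_j ≠ 0` has `a_i j = 0` and `hyj` gives `m0 |v'| ≤ ∑_j v'_j (y0)_j = dt (h v) y0`, so `l v ≤ -|v'|` (`appg_lev`).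
(4) `good v` iff the second coordinate of `h_v` is `0`.  Not good: `appu` (first case).  `x`, `R` from `mrelL` (`t0 = I`, not an integer;
`hbb`: `bbM` has nonnegative entries, `appg_bbM_nonneg`, no `Sum.inr (Sum.inr _)`): an exponent of `x` is
`u = vec 0 R (ρ + a_i)`, `ρ ≥ 0`; for `vec 1 0 0`: `dt = 0 ≥ l v`; for `v'`: `dt (h v) u = v'·ρ + v'·a_i ≥ 0 ≥ l v`;
`dt h0 u = w·ρ + w·a_i ≥ N > 0` (`appg_wmin_le`).  `x` is supported in `LL ev (sh D) ∅` (`vec_mem_LL`).
(5) `coreL` with `P = sh D` (`p k = 1` for `k ∈ sh D`; `0 ≤ dt (ev k) (A i)`), `ExL.mono` (`sh_mono`) for the relation of `mrelL`,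
`constantCoeff (aeval (C s0 + X) b) = b.eval s0` (`appg_aeval`), and `constantCoeff (pp (C s0 + X) (C I) j) = pp s0 I j`.
-/

set_option autoImplicit false

namespace Pool.Agent.H56.T5

open Finset AddMonoidAlgebra
open Pool.Agent.H56.SMC Pool.Agent.H37.T5

theorem APPL_sum_add {n r : ℕ} (a : Fin r → (Fin n →₀ ℕ)) (w : Fin n → ℕ) (ρ : Lat n)
    (i : Fin r) (R l l2 : ℤ) (hρ : ∀ j, 0 ≤ ρ j) :
    l2 * R + (H22.wmin a w : ℤ) ≤ dt (vec l l2 (fun j => (w j : ℤ)))
      (vec 0 R (ρ + fun j => (a i j : ℤ))) := by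
  rw [dt_vec]
  have h2 := appg_wmin_le a w i
  have h3 : ∑ j, (w j : ℤ) * (ρ + fun j => (a i j : ℤ)) j =
      ∑ j, (w j : ℤ) * ρ j + ∑ j, (w j : ℤ) * (a i j : ℤ) := by
    simp only [Pi.add_apply, mul_add, sum_add_distrib]
  have h4 : 0 ≤ ∑ j, (w j : ℤ) * ρ j :=
    sum_nonneg fun j _ => mul_nonneg (by positivity) (hρ j)
  rw [h3]
  linarith

/-- If `wmin a v = 0` then the coordinates of `y0` bound `|v|`. -/
theorem APPL_wsum {n r : ℕ} (hr : 0 < r) (a : Fin r → (Fin n →₀ ℕ)) (m0 : ℤ)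
    (y0 : Lat (n + 2))
    (hyj : ∀ j, (∃ i, a i j = 0) → m0 ≤ y0 j.succ.succ) (v : Fin n → ℕ)
    (hv : H22.wmin a v = 0) :
    m0 * H22.wsum v ≤ dt (vec (-(H22.wmin a v : ℤ)) 0 (fun j => (v j : ℤ))) y0 := by
  have hex : ∃ i, ∑ j, a i j * v j = 0 := by
    have : Nonempty (Fin r) := ⟨⟨0, hr⟩⟩
    have h1 : sInf (Set.range fun i : Fin r => ∑ j, a i j * v j) ∈
        Set.range fun i : Fin r => ∑ j, a i j * v j :=
      Nat.sInf_mem (Set.range_nonempty _)
    obtain ⟨i, hi⟩ := h1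
    refine ⟨i, ?_⟩
    have h2 : H22.wmin a v = sInf (Set.range fun i : Fin r => ∑ j, a i j * v j) := by
      unfold H22.wmin
      rfl
    rw [← hv, h2, ← hi]
  obtain ⟨i, hi⟩ := hex
  rw [hv]
  have h3 : ∀ j, (v j : ℤ) * m0 ≤ (v j : ℤ) * y0 j.succ.succ := by
    intro j
    by_cases hj : v j = 0
    · rw [hj]; simp
    · have h4 : a i j = 0 := by
        have h5 := (Finset.sum_eq_zero_iff.1 hi) j (mem_univ j)
        rcases Nat.mul_eq_zero.1 h5 with h6 | h6
        · exact h6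
        · exact absurd h6 hj
      exact mul_le_mul_of_nonneg_left (hyj j ⟨i, h4⟩) (by positivity)
  rw [vec_surj y0, dt_vec]
  have h6 : (m0 * (H22.wsum v : ℤ)) = ∑ j, (v j : ℤ) * m0 := by
    simp only [H22.wsum]
    push_cast
    rw [mul_sum]
    exact sum_congr rfl fun j _ => mul_comm _ _
  rw [h6]
  have h7 := sum_le_sum (s := univ) fun j _ => h3 j
  simpa using h7

/-- APPL -/
theorem appL {n r : ℕ} (a : Fin r → (Fin n →₀ ℕ)) (κ : Fin r → ℂ)
    (b : Polynomial ℂ) (P : H22.WeylS n)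
    (hfe : H22.FunctionalEquation (fpoly a κ) b P) (w : Fin n → ℕ)
    (hN : 0 < H22.wmin a w) (D : Finset (Fin n)) (M : ℤ) (hM : 0 < M)
    (m0 : ℤ) (hm0 : 0 < m0) (y0 : Lat (n + 2)) (hy0c : InC (A5 a M) y0)
    (hy0 : dt (h5 a w) y0 = 0)
    (hyj : ∀ j, (∃ i, a i j = 0) → m0 ≤ y0 j.succ.succ)
    (lam : Option (Fin n) ⊕ Fin 0 → ℂ)
    (hK : KExactL (A5 a M) (cC κ lam) ev (sh D) (RG (A5 a M) m0 y0)) :
    ExL (pp (-(H22.wsum w : ℂ) / (H22.wmin a w : ℂ)) Complex.I) (A5 a M)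
      (cF (A5 a M) (cC κ lam) (h5 a w)) ev (sh D)
      (RG (A5 a M) m0 y0 ∩ {u | dt (h5 a w) u = 0})
      (single 0 (b.eval (-(H22.wsum w : ℂ) / (H22.wmin a w : ℂ)))) := by
  classical
  have hr := appg_pos a w hN
  have hδ := appg_delta a (noW n) M
  obtain ⟨e, he⟩ := fspan hr a (noW n) M hM
  obtain ⟨mf, h, hh, hprim, hfacet, hfac⟩ := fac (cA a (bbM (noW n) M)) (vec 1 1 0) hδ ⟨e, he⟩
  have hS := appg_sset (cA a (bbM (noW n) M)) h hh hfac
  have hSc : ∀ u, u ∈ Sc h (lev h m0 y0) ↔ InC (cA a (bbM (noW n) M)) (m0 • u + y0) := by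
    intro u
    rw [mem_Sc_lev h hm0, hS]
  have hScRG : Sc h (lev h m0 y0) = RG (A5 a M) m0 y0 := by
    ext u
    exact hSc u
  have hl0 : ∀ v, lev h m0 y0 v ≤ 0 := by
    intro v
    have := appg_lev h m0 hm0 y0 v 0 (by rw [mul_zero]; exact hy0c (h v) (hh v))
    linarith
  have hSδ : ∀ u ∈ Sc h (lev h m0 y0), -|dt (vec 1 1 0) y0| ≤ dt (vec 1 1 0) u := by
    intro u hu
    rw [hSc] at hu
    have h1 := hu (vec 1 1 0) (fun i => by rw [hδ i]; norm_num)
    rw [dt_add, dt_zsmul] at h1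
    have h2 := le_abs_self (dt (vec 1 1 0) y0)
    have h3 := abs_nonneg (dt (vec 1 1 0) y0)
    by_contra hcon
    push Not at hcon
    nlinarith
  have hh0 := appg_h0 a (noW n) M hM w (fun k => k.elim0)
  have hS0 : ∀ u ∈ Sc h (lev h m0 y0), 0 ≤ dt (h5 a w) u := by
    intro u hu
    rw [hSc] at hu
    have h1 := hu _ hh0
    rw [dt_add, dt_zsmul] at h1
    have h2 : dt (vec (-(H22.wmin a w : ℤ)) 0 (fun j => (w j : ℤ))) y0 = 0 := hy0
    rw [h2, add_zero] at h1
    exact nonneg_of_mul_nonneg_right h1 hm0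
  have hcases : ∀ v, h v (Fin.succ 0) ≠ 0 ∨ h v = vec 1 0 0 ∨
      ∃ v' : Fin n → ℕ, RayNormal a (noW n) v' ∧ univ.gcd v' = 1 ∧
        h v = vec (-(H22.wmin a v' : ℤ)) 0 (fun j => (v' j : ℤ)) := by
    intro v
    by_cases h1 : h v (Fin.succ 0) = 0
    · exact Or.inr (fnr hr a (noW n) M hM (h v) (hh v) (hprim v) (hfacet v) h1)
    · exact Or.inl h1
  have hnr : ∀ v, ∀ mm : ℤ, mm < lev h m0 y0 v →
      pv (pp (PowerSeries.C (-(H22.wsum w : ℂ) / (H22.wmin a w : ℂ)) + PowerSeries.X)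
        (PowerSeries.C Complex.I)) (h v) + (mm : PA) ≠ 0 := by
    intro v mm hmm
    refine appn a w hN (h v) (lev h m0 y0 v) ?_ mm hmm
    rcases hcases v with h1 | h1 | ⟨v', -, -, hv'⟩
    · exact Or.inl h1
    · exact Or.inr (Or.inl h1)
    · refine Or.inr (Or.inr ⟨v', hv', fun h0 => ?_⟩)
      have := APPL_wsum hr a m0 y0 hyj v' h0
      rw [← hv'] at this
      exact appg_lev h m0 hm0 y0 v _ this
  have hbad : ∀ v, ¬ (h v (Fin.succ 0) = 0) → ∀ mm : ℤ, mm < lev h m0 y0 v →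
      IsUnit (pv (pp (PowerSeries.C (-(H22.wsum w : ℂ) / (H22.wmin a w : ℂ)) + PowerSeries.X)
        (PowerSeries.C Complex.I)) (h v) + (mm : PA)) := by
    intro v hng mm hmm
    exact appu a w hN (h v) (lev h m0 y0 v) (hl0 v) (Or.inl hng) mm hmm
  obtain ⟨R, x, hex, hx⟩ := mrelL a κ (bbM (noW n) M) (by
      rintro (o | k) j
      · exact appg_bbM_nonneg (noW n) M hM o j
      · exact k.elim0) lam b P hfe
    (-(H22.wsum w : ℂ) / (H22.wmin a w : ℂ)) Complex.I (by
      intro m hm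
      have := congrArg Complex.im hm
      simp at this)
  have hxS : Supp {u | (∀ v, h v (Fin.succ 0) = 0 → lev h m0 y0 v ≤ dt (h v) u) ∧
        0 < dt (h5 a w) u} x := by
    intro u hu
    obtain ⟨ρ, i, rfl, hρ⟩ := hx u hu
    refine ⟨fun v hgood => ?_, ?_⟩
    · refine (hl0 v).trans ?_
      rcases hcases v with h1 | h1 | ⟨v', -, -, hv'⟩
      · exact absurd hgood h1
      · rw [h1, dt_vec]
        simp
      · rw [hv']
        have := APPL_sum_add a v' ρ i R (-(H22.wmin a v' : ℤ)) 0 hρ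
        refine le_trans ?_ this
        positivity
    · have := APPL_sum_add a w ρ i R (-(H22.wmin a w : ℤ)) 0 hρ
      have hN' : (0 : ℤ) < H22.wmin a w := by exact_mod_cast hN
      have h8 : (0 : ℤ) < 0 * (R : ℤ) + (H22.wmin a w : ℤ) := by linarith
      exact lt_of_lt_of_le h8 this
  have hxP : Supp (LL ev (sh D) ∅) x := by
    intro u hu
    obtain ⟨ρ, i, rfl, hρ⟩ := hx u hu
    refine vec_mem_LL D ∅ _ _ _ fun j _ => ?_
    simp only [Pi.add_apply]
    have := hρ j
    positivity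
  have hmain := coreL (A5 a M) (cC κ lam)
    (pp (PowerSeries.C (-(H22.wsum w : ℂ) / (H22.wmin a w : ℂ)) + PowerSeries.X)
        (PowerSeries.C Complex.I)) (sh D)
    (by
      intro k hk
      obtain ⟨j, -, rfl⟩ := mem_sh.1 hk
      simp [pp])
    (by
      intro k hk i
      obtain ⟨j, -, rfl⟩ := mem_sh.1 hk
      rw [dt_ev]
      rcases i with i | (o | k)
      · simp [A5, cA, vec]
      · simp only [A5, cA, vec, Fin.cons_succ]
        exact appg_bbM_nonneg (noW n) M hM o j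
      · exact k.elim0)
    h (lev h m0 y0) hl0 (fun v => h v (Fin.succ 0) = 0) (vec 1 1 0) (h5 a w) hδ _ hSδ hh hh0
    hS0 hnr hbad (by rw [hScRG]; exact hK) _ x hxS hxP
    (ExL.mono (Set.Subset.refl _) (sh_mono (subset_univ D)) hex)
  rw [hScRG, appg_aeval] at hmain
  have hpp : (fun j => PowerSeries.constantCoeff
      ((pp (PowerSeries.C (-(H22.wsum w : ℂ) / (H22.wmin a w : ℂ)) + PowerSeries.X)
        (PowerSeries.C Complex.I) : Fin (n + 2) → PA) j)) =
      pp (-(H22.wsum w : ℂ) / (H22.wmin a w : ℂ)) Complex.I := by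
    funext j
    refine Fin.cases ?_ (fun j => Fin.cases ?_ (fun j => ?_) j) j
    · simp [pp]
    · simp [pp]
    · simp [pp]
  rw [hpp] at hmain
  exact hmain

end Pool.Agent.H56.T5

end S_APPL
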