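import Mathlib
import Pool.Agent.H56.SL.A4
import Pool.Agent.H56.SL.A5
import Pool.Agent.H56.SL.A10
import Pool.Agent.H56.SN.R1

/-! Strong monodromy, simplicial critical facets, part R3: this file joins the modules KEDefs, EXTB, REGL, REGD, REGF, R0K, R1K, R2K, KXL, GKX. -/

set_option autoImplicit false

section S_KEDefs

/-!
# Definitions for the exactness of the mixed complex of the symbols
-/

set_option autoImplicit false

namespace Pool.Agent.H56.T5

open Finset AddMonoidAlgebra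
open Pool.Agent.H56.SMC Pool.Agent.H37.T5

/-- Exactness at `H_1` of the complex of the symbols of the functionals `ℓ_k`, one support `S`. -/
def KExS {d s : ℕ} {ι : Type} [Fintype ι] (a : ι → Lat d) (c : ι → ℂ) (ℓ : Fin s → Lat d)
    (S : Set (Lat d)) : Prop :=
  ∀ x : Fin s → LP ℂ d, (∀ k, Supp S (x k)) → ∑ k, gs a c (ℓ k) * x k = 0 →
    ∃ y : Fin s → Fin s → LP ℂ d, (∀ j k, Supp S (y j k)) ∧ (∀ j k, y j k = -y k j) ∧
      ∀ j, x j = ∑ k, gs a c (ℓ k) * y j k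

/-- The functionals `ℓ_k`, `k ∈ J`, are linearly independent on the exponents `a i` with
`H·a_i = 0`. -/
def IndOn {d s : ℕ} {ι : Type} (a : ι → Lat d) (H : Lat d) (ℓ : Fin s → Lat d)
    (J : Finset (Fin s)) : Prop :=
  ∀ n : Fin s → ℤ, (∀ i, dt H (a i) = 0 → ∑ k ∈ J, n k * dt (ℓ k) (a i) = 0) → ∀ k ∈ J, n k = 0

/-- The layer `{u : m0 u + y0 ∈ Sset h, H(m0 u + y0) = 0}`. -/
def Lay {d : ℕ} {κ : Type} (h : κ → Lat d) (H : Lat d) (m0 : ℤ) (y0 : Lat d) : Set (Lat d) :=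
  {u | m0 • u + y0 ∈ Sset h ∧ dt H (m0 • u + y0) = 0}

/-- The points of `S` with `ℓ_i = -1` for `i ∈ Z` and `ℓ_i ≥ 0` for `i ∈ E`, `i ∉ K`. -/
def NN {d s : ℕ} (S : Set (Lat d)) (ℓ : Fin s → Lat d) (Z E K : Finset (Fin s)) : Set (Lat d) :=
  {u | u ∈ S ∧ (∀ i ∈ Z, dt (ℓ i) u = -1) ∧ ∀ i ∈ E, i ∉ K → 0 ≤ dt (ℓ i) u}

/-- The functional of the face `{H = 0, ℓ_i = 0 (i ∈ Z)}`. -/
def HZ {d s : ℕ} (H : Lat d) (ℓ : Fin s → Lat d) (Z : Finset (Fin s)) : Lat d :=
  H + ∑ i ∈ Z, ℓ i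

/-- (A): exactness of the complex of the face `HZ` with supports `NN`, components in `J`. -/
def StA {d s : ℕ} {ι : Type} [Fintype ι] (a : ι → Lat d) (c : ι → ℂ) (H : Lat d)
    (S : Set (Lat d)) (ℓ : Fin s → Lat d) (Z E J : Finset (Fin s)) : Prop :=
  ∀ r : Fin s → LP ℂ d, (∀ k ∈ J, Supp (NN S ℓ Z E {k}) (r k)) →
    ∑ k ∈ J, gs a (cF a c (HZ H ℓ Z)) (ℓ k) * r k = 0 →
    ∃ y : Fin s → Fin s → LP ℂ d, (∀ k ∈ J, ∀ l ∈ J, Supp (NN S ℓ Z E {k, l}) (y k l)) ∧
      (∀ k l, y k l = -y l k) ∧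
      ∀ k ∈ J, r k = ∑ l ∈ J, gs a (cF a c (HZ H ℓ Z)) (ℓ l) * y k l

/-- (B): `g_m r0 = ∑_J g_k r_k` implies `r0 = ∑_J g_k y_k`. -/
def StB {d s : ℕ} {ι : Type} [Fintype ι] (a : ι → Lat d) (c : ι → ℂ) (H : Lat d)
    (S : Set (Lat d)) (ℓ : Fin s → Lat d) (Z E J : Finset (Fin s)) (m : Fin s) : Prop :=
  ∀ (r0 : LP ℂ d) (r : Fin s → LP ℂ d), Supp (NN S ℓ Z E ∅) r0 →
    (∀ k ∈ J, Supp (NN S ℓ Z E {k}) (r k)) →
    gs a (cF a c (HZ H ℓ Z)) (ℓ m) * r0 = ∑ k ∈ J, gs a (cF a c (HZ H ℓ Z)) (ℓ k) * r k →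
    ∃ y : Fin s → LP ℂ d, (∀ k ∈ J, Supp (NN S ℓ Z E {k}) (y k)) ∧
      r0 = ∑ k ∈ J, gs a (cF a c (HZ H ℓ Z)) (ℓ k) * y k

theorem NN_mono {d s : ℕ} (S : Set (Lat d)) (ℓ : Fin s → Lat d) (Z : Finset (Fin s))
    {E E' K K' : Finset (Fin s)} (hE : E' ⊆ E) (hK : K ⊆ K') :
    NN S ℓ Z E K ⊆ NN S ℓ Z E' K' := by
  rintro u ⟨h1, h2, h3⟩
  exact ⟨h1, h2, fun i hi hiK => h3 i (hE hi) fun h => hiK (hK h)⟩

theorem cF_ne {d : ℕ} {ι : Type} {a : ι → Lat d} {c : ι → ℂ} {H : Lat d} {i : ι}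
    (h : cF a c H i ≠ 0) : dt H (a i) = 0 := by
  unfold cF at h
  by_contra h1
  exact h (if_neg h1)

theorem dt_HZ {d s : ℕ} (H : Lat d) (ℓ : Fin s → Lat d) (Z : Finset (Fin s)) (u : Lat d) :
    dt (HZ H ℓ Z) u = dt H u + ∑ i ∈ Z, dt (ℓ i) u := by
  unfold HZ
  rw [dt_comm, dt_add, dt_sum, dt_comm]
  congr 1
  exact sum_congr rfl fun i _ => dt_comm _ _

/-- An exponent lies on the face `HZ` iff it lies on `H` and on all `ℓ_i`, `i ∈ Z`. -/
theorem dt_HZ_eq_zero {d s : ℕ} (H : Lat d) (ℓ : Fin s → Lat d) (Z : Finset (Fin s)) (v : Lat d)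
    (h0 : 0 ≤ dt H v) (h1 : ∀ i ∈ Z, 0 ≤ dt (ℓ i) v) :
    dt (HZ H ℓ Z) v = 0 ↔ dt H v = 0 ∧ ∀ i ∈ Z, dt (ℓ i) v = 0 := by
  rw [dt_HZ]
  constructor
  · intro h
    have h2 : 0 ≤ ∑ i ∈ Z, dt (ℓ i) v := sum_nonneg h1
    have h3 : ∑ i ∈ Z, dt (ℓ i) v = 0 := by omega
    exact ⟨by omega, (sum_eq_zero_iff_of_nonneg h1).1 h3⟩
  · rintro ⟨h2, h3⟩
    rw [h2, sum_eq_zero h3, add_zero]

end Pool.Agent.H56.T5

end S_KEDefs

section S_EXTB

/-!
# EXTB: extension of an independent family of functionals on a face to a generating family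

Let `T = {i : H·a_i = 0}`, `V = span_ℚ {a_i : i ∈ T} ⊆ ℚ^d` (`facV`, `facL` of `FAC.lean` are the casts to `ℚ`).

Proof.  (1) Choose `e : Fin s' → ι` with values in `T` such that the `a (e k)` are a basis of `V` (`exists_linearIndependent'`, or
`Submodule.exists_fun_fin_finrank_span_eq`, or `exists_linearIndependent` for the family `i : T ↦ facV (a i)`; `fac_li` translates between
linear independence over `ℤ` and `ℚ`).  For every `i ∈ T` there are `N ≠ 0` and integers with `N a_i = ∑ n_k a (e k)`.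
(2) The functionals `ℓ_k` restricted to `V` are independent over `ℚ` (`hind` with `J = univ`, clear denominators, `fac_den`); a functional on `V` is given by its values at
the basis, i.e. by a vector in `ℚ^{s'}`: `g ↦ (dt g (a (e k)))_k`; the vectors of `ev j`, `j : Fin d`, span `ℚ^{s'}` (the matrix with rows `a (e k)` has rank `s'`).  So the
independent family of vectors `(dt (ℓ k) (a (e ·)))_k` can be extended by vectors of some `ev j` to a basis of `ℚ^{s'}`: this gives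
`ℓ' : Fin (m + t) → Lat d` with `m + t = s'`.  (3) `hℓ'`: every `g` has `N * dt g (a (e j)) = ∑ n_k * dt (ℓ' k) (a (e j))` for all `j`
(basis, clear denominators), hence for all `i ∈ T` by (1) (multiply by the denominator of (1) of that `i`: linear combination, the relation with the
same `N`, `n` holds at `a_i` because it holds at all `a (e j)` and `N' a_i = ∑ n'_j a (e j)`, `N' ≠ 0`).
-/

set_option autoImplicit false

namespace Pool.Agent.H56.T5

open Finset AddMonoidAlgebra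
open Pool.Agent.H56.SMC Pool.Agent.H37.T5

theorem EXTB_dt {d : ℕ} {κ : Type*} (K : Finset κ) (n : κ → ℤ) (ℓ : κ → Lat d) (u : Lat d) :
    dt (∑ k ∈ K, n k • ℓ k) u = ∑ k ∈ K, n k * dt (ℓ k) u := by
  rw [dt_comm, dt_sum]
  refine sum_congr rfl fun k _ => ?_
  rw [dt_zsmul, dt_comm]

/-- EXTB -/
theorem extB {d : ℕ} {ι : Type} [Fintype ι] (a : ι → Lat d) (H : Lat d) {m : ℕ}
    (ℓ : Fin m → Lat d) (hind : IndOn a H ℓ univ) :
    ∃ (t : ℕ) (ℓ' : Fin (m + t) → Lat d) (e : Fin (m + t) → ι),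
      (∀ k : Fin m, ℓ' (Fin.castAdd t k) = ℓ k) ∧ (∀ k, dt H (a (e k)) = 0) ∧
      LinearIndependent ℤ (fun k => a (e k)) ∧
      ∀ g : Lat d, ∃ N : ℤ, N ≠ 0 ∧ ∃ n : Fin (m + t) → ℤ, ∀ i, dt H (a i) = 0 →
        N * dt g (a i) = ∑ k, n k * dt (ℓ' k) (a i) := by
  classical
  let T := {i : ι // dt H (a i) = 0}
  let v : T → (Fin d → ℚ) := fun i => facV (a i.1)
  obtain ⟨κ, e, he, hspan, hli⟩ := exists_linearIndependent' ℚ v
  have hfin : Finite κ := Finite.of_injective e he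
  have hft : Fintype κ := Fintype.ofFinite κ
  -- functionals vanishing at the chosen exponents
  have hvan : ∀ L : Lat d, (∀ k, dt L (a (e k).1) = 0) → ∀ i, dt H (a i) = 0 →
      dt L (a i) = 0 := by
    intro L hL i hi
    have h1 : v ⟨i, hi⟩ ∈ Submodule.span ℚ (Set.range (v ∘ e)) := by
      rw [hspan]
      exact Submodule.subset_span ⟨_, rfl⟩
    have h2 : Submodule.span ℚ (Set.range (v ∘ e)) ≤ LinearMap.ker (facL L) := by
      rw [Submodule.span_le]
      rintro _ ⟨k, rfl⟩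
      show facL L (facV (a (e k).1)) = 0
      rw [facL_facV, hL k, Int.cast_zero]
    have h3 : facL L (facV (a i)) = 0 := h2 h1
    rw [facL_facV] at h3
    exact_mod_cast h3
  let D : Lat d → (κ → ℚ) := fun g k => (dt g (a (e k).1) : ℚ)
  have hD : LinearIndependent ℚ (fun k => D (ℓ k)) := by
    rw [Fintype.linearIndependent_iff]
    intro q hq
    obtain ⟨N, hN, n, hn⟩ := fac_den q
    have h1 : ∀ i, dt H (a i) = 0 → ∑ k ∈ univ, n k * dt (ℓ k) (a i) = 0 := by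
      intro i hi
      rw [← EXTB_dt]
      refine hvan _ (fun k => ?_) i hi
      rw [EXTB_dt]
      have h2 := congrFun hq k
      have h3 : ((∑ x, n x * dt (ℓ x) (a (e k).1) : ℤ) : ℚ) = 0 := by
        push_cast
        have h4 : ∑ x, q x * (dt (ℓ x) (a (e k).1) : ℚ) = 0 := by
          simpa [D, Finset.sum_apply] using h2
        have h5 : ∑ x, (n x : ℚ) * (dt (ℓ x) (a (e k).1) : ℚ) =
            N * ∑ x, q x * (dt (ℓ x) (a (e k).1) : ℚ) := by
          rw [mul_sum]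
          refine sum_congr rfl fun x _ => ?_
          rw [← hn x]
          ring
        rw [h5, h4, mul_zero]
      exact_mod_cast h3
    intro k
    have h6 := hind n h1 k (mem_univ k)
    have h7 := hn k
    rw [h6, Int.cast_zero] at h7
    have h8 : (N : ℚ) ≠ 0 := by exact_mod_cast hN.ne'
    exact (mul_eq_zero.1 h7).resolve_left h8
  -- every vector is a multiple of some `D h`
  have hsurj : ∀ w : κ → ℚ, ∃ (h : Lat d) (γ : ℚ), w = γ • D h := by
    intro w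
    obtain ⟨φ, hφ⟩ : ∃ φ : (Fin d → ℚ) →ₗ[ℚ] ℚ, ∀ k, φ (v (e k)) = w k := by
      let b := Module.Basis.span hli
      let f : Submodule.span ℚ (Set.range (v ∘ e)) →ₗ[ℚ] ℚ := b.constr ℚ w
      obtain ⟨φ, hφ⟩ := LinearMap.exists_extend f
      refine ⟨φ, fun k => ?_⟩
      have h1 : f (b k) = w k := b.constr_basis ℚ w k
      have h2 : ((b k : Submodule.span ℚ (Set.range (v ∘ e))) : Fin d → ℚ) = v (e k) := by
        have h3 := Module.Basis.span_apply hli k
        rw [show b k = (Module.Basis.span hli) k from rfl, h3]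
        rfl
      rw [← h1, ← hφ, LinearMap.comp_apply, Submodule.subtype_apply, h2]
    by_cases h0 : φ = 0
    · refine ⟨0, 0, ?_⟩
      funext k
      rw [← hφ k, h0]
      simp
    · obtain ⟨h, γ, hγ, hφγ, -⟩ := fac_scale φ h0
      refine ⟨h, γ, ?_⟩
      funext k
      rw [← hφ k, hφγ, LinearMap.smul_apply, smul_eq_mul, Pi.smul_apply, smul_eq_mul]
      show γ * facL h (facV (a (e k).1)) = _
      rw [facL_facV]
  set W := Submodule.span ℚ (Set.range fun k => D (ℓ k)) with hW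
  obtain ⟨W', hWW⟩ := Submodule.exists_isCompl W
  let t := Module.finrank ℚ W'
  let bw : Module.Basis (Fin t) ℚ W' := Module.finBasis ℚ W'
  choose hh γ hγ using fun x : Fin t => hsurj (bw x : κ → ℚ)
  have hcard : m + t = Fintype.card κ := by
    have h1 := Submodule.finrank_add_eq_of_isCompl hWW
    have h2 : Module.finrank ℚ W = m := by
      rw [hW, finrank_span_eq_card hD, Fintype.card_fin]
    rw [Module.finrank_fintype_fun_eq_card, h2] at h1
    exact h1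
  let E : Fin (m + t) ≃ κ := (finCongr hcard).trans (Fintype.equivFin κ).symm
  refine ⟨t, Fin.append ℓ hh, fun k => (e (E k)).1, fun k => Fin.append_left _ _ k,
    fun k => (e (E k)).2, ?_, ?_⟩
  · rw [fac_li]
    exact hli.comp E E.injective
  · intro g
    -- the coefficients
    have h1 : D g ∈ W ⊔ W' := by
      rw [hWW.sup_eq_top]; trivial
    obtain ⟨w, hw, w', hw', hsum⟩ := Submodule.mem_sup.1 h1
    obtain ⟨c, hc⟩ := (Submodule.mem_span_range_iff_exists_fun ℚ).1 hw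
    have h2 : w' = ∑ x, (bw.repr ⟨w', hw'⟩ x * γ x) • D (hh x) := by
      have h3 := congrArg (Subtype.val) (bw.sum_repr ⟨w', hw'⟩)
      rw [show ((⟨w', hw'⟩ : W') : κ → ℚ) = w' from rfl] at h3
      refine h3.symm.trans ?_
      rw [Submodule.coe_sum]
      refine sum_congr rfl fun x _ => ?_
      rw [mul_smul, ← hγ x]
      rfl
    let q : Fin (m + t) → ℚ := Fin.append c (fun x => bw.repr ⟨w', hw'⟩ x * γ x)
    have h4 : D g = ∑ k, q k • D (Fin.append ℓ hh k) := by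
      rw [Fin.sum_univ_add]
      simp only [q, Fin.append_left, Fin.append_right]
      rw [← h2, hc, hsum]
    obtain ⟨N, hN, n, hn⟩ := fac_den q
    refine ⟨N, by exact_mod_cast hN.ne', n, fun i hi => ?_⟩
    have h5 : dt ((N : ℤ) • g - ∑ k, n k • Fin.append ℓ hh k) (a i) = 0 := by
      refine hvan _ (fun k => ?_) i hi
      rw [dt_comm, dt_sub, dt_comm _ (∑ k, n k • Fin.append ℓ hh k), EXTB_dt, dt_zsmul, dt_comm]
      have h6 := congrFun h4 k
      simp only [D, Finset.sum_apply, Pi.smul_apply, smul_eq_mul] at h6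
      have h7 : (((N : ℤ) * dt g (a (e k).1) -
          ∑ x, n x * dt (Fin.append ℓ hh x) (a (e k).1) : ℤ) : ℚ) = 0 := by
        push_cast
        rw [h6, mul_sum, sub_eq_zero]
        refine sum_congr rfl fun x _ => ?_
        rw [← hn x]
        ring
      exact_mod_cast h7
    rw [dt_comm, dt_sub, dt_comm _ (∑ k, n k • Fin.append ℓ hh k), EXTB_dt, dt_zsmul, dt_comm,
      sub_eq_zero] at h5
    exact h5

end Pool.Agent.H56.T5

end S_EXTB

section S_REGL

/-!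
# REGL: the face exactness `kexg` on a layer

`kexg` (`Pool/Agent/H56/SMC/KEXG.lean`) is the case `dt H y0 = 0` (then `Lay h H m0 y0 = {u | m0 • u + y0 ∈ Sset h ∧ dt H u = 0}`, `m0 > 0`).

Proof.  If `Lay h H m0 y0` is empty all `x k = 0` (`lp_ext`), take `y = 0`.  Otherwise choose `u0 ∈ Lay`, `y0' = m0 • u0 + y0`, so
`dt H y0' = 0`.  For `u = u0 + u'`: `m0 • u + y0 = m0 • u' + y0'`, so `u ∈ Lay h H m0 y0` iff `m0 • u' + y0' ∈ Sset h ∧ dt H u' = 0`
(`dt H (m0 • u' + y0') = m0 * dt H u'`, `m0 > 0`).  Apply `kexg` with `y0'` to `x' k = single (-u0) 1 * x k` (`single_mul_coeff` with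
`r = 1`: coefficient at `u'` is the coefficient of `x k` at `u' + u0`), and put `y = single u0 1 * y'`.
-/

set_option autoImplicit false

namespace Pool.Agent.H56.T5

open Finset AddMonoidAlgebra
open Pool.Agent.H56.SMC Pool.Agent.H37.T5

/-- REGL -/
theorem regL {d : ℕ} {ι κ : Type} [Fintype ι] [Fintype κ] (a : ι → Lat d) (c : ι → ℂ)
    (h : κ → Lat d) (δ : Lat d) (hδ : ∀ i, dt δ (a i) = 1) (hh : ∀ v i, 0 ≤ dt (h v) (a i))
    (hfac : ∀ u ∈ Sset h, ∃ N : ℕ, 0 < N ∧ ∃ n : ι → ℕ, N • u = ∑ i, n i • a i)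
    (hnd : TorusND a c) (H : Lat d) (hH : ∀ i, 0 ≤ dt H (a i)) {s : ℕ} (ℓ : Fin s → Lat d)
    (hℓ : ∀ g : Lat d, ∃ N : ℤ, N ≠ 0 ∧ ∃ n : Fin s → ℤ, ∀ i, dt H (a i) = 0 →
      N * dt g (a i) = ∑ k, n k * dt (ℓ k) (a i))
    (e : Fin s → ι) (he : ∀ k, dt H (a (e k)) = 0) (hind : LinearIndependent ℤ (fun k => a (e k)))
    (m0 : ℤ) (hm0 : 0 < m0) (y0 : Lat d) : KExS a (cF a c H) ℓ (Lay h H m0 y0) := by
  classical
  intro x hx h0
  by_cases hne : ∃ u0, u0 ∈ Lay h H m0 y0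
  swap
  · have hx0 : ∀ k, x k = 0 := by
      intro k
      apply lp_ext
      intro u
      by_contra hcon
      exact hne ⟨u, hx k u hcon⟩
    refine ⟨fun _ _ => 0, ?_, ?_, ?_⟩
    · intro j k u hu
      exact absurd rfl hu
    · intro j k
      simp
    · intro j
      simp [hx0 j]
  obtain ⟨u0, hu0⟩ := hne
  have hy0 : dt H (m0 • u0 + y0) = 0 := hu0.2
  set y0' : Lat d := m0 • u0 + y0 with hy0'
  have key : ∀ u' : Lat d, m0 • (u' + u0) + y0 = m0 • u' + y0' := by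
    intro u'
    rw [hy0', smul_add, add_assoc]
  have hdt : ∀ u' : Lat d, dt H (m0 • u' + y0') = m0 * dt H u' := by
    intro u'
    rw [dt_add, dt_zsmul, hy0, add_zero]
  have hx' : ∀ k, Supp {u | m0 • u + y0' ∈ Sset h ∧ dt H u = 0} (single (-u0) 1 * x k) := by
    intro k u' hu'
    rw [single_mul_coeff, one_mul, sub_neg_eq_add] at hu'
    have h1 := hx k _ hu'
    have h2 : m0 • (u' + u0) + y0 ∈ Sset h := h1.1
    have h3 : dt H (m0 • (u' + u0) + y0) = 0 := h1.2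
    rw [key] at h2 h3
    rw [hdt] at h3
    refine ⟨h2, ?_⟩
    rcases mul_eq_zero.1 h3 with h4 | h4
    · omega
    · exact h4
  have h0' : ∑ k, gs a (cF a c H) (ℓ k) * (single (-u0) 1 * x k) = 0 := by
    have h1 : ∀ k, gs a (cF a c H) (ℓ k) * (single (-u0) 1 * x k) =
        single (-u0) 1 * (gs a (cF a c H) (ℓ k) * x k) := fun k => by ring
    rw [sum_congr rfl fun k _ => h1 k, ← mul_sum, h0, mul_zero]
  obtain ⟨y, hy1, hy2, hy3⟩ := kexg a c h δ hδ hh hfac hnd H hH ℓ hℓ e he hind m0 hm0 y0' hy0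
    (fun k => single (-u0) 1 * x k) hx' h0'
  have hone : (single u0 1 : LP ℂ d) * single (-u0) 1 = 1 := by
    rw [AddMonoidAlgebra.single_mul_single, add_neg_cancel, one_mul]
    rfl
  refine ⟨fun j k => single u0 1 * y j k, ?_, ?_, ?_⟩
  · intro j k u hu
    rw [single_mul_coeff, one_mul] at hu
    have h1 := hy1 j k _ hu
    have h2 : m0 • (u - u0) + y0' ∈ Sset h := h1.1
    have h3 : dt H (u - u0) = 0 := h1.2
    have h4 : m0 • u + y0 = m0 • (u - u0) + y0' := by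
      rw [← key, sub_add_cancel]
    show m0 • u + y0 ∈ Sset h ∧ dt H (m0 • u + y0) = 0
    rw [h4]
    exact ⟨h2, by rw [hdt, h3, mul_zero]⟩
  · intro j k
    show single u0 1 * y j k = -(single u0 1 * y k j)
    rw [hy2 j k, mul_neg]
  · intro j
    have h1 : x j = single u0 1 * (single (-u0) 1 * x j) := by
      rw [← mul_assoc, hone, one_mul]
    rw [h1, show (single (-u0) 1 : LP ℂ d) * x j = ∑ k, gs a (cF a c H) (ℓ k) * y j k from hy3 j,
      mul_sum]
    exact sum_congr rfl fun k _ => by ring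

end Pool.Agent.H56.T5

end S_REGL

section S_REGD

/-!
# REGD: if the complex of `m + 1` functionals is exact so is the complex of the first `m`

(all symbols are homogeneous of degree `1` with respect to `δ`, the degrees on `S` are bounded below.)

Proof.  Claim for all `N : ℕ`: every cycle `x` of the first `m` functionals (`∑ k : Fin m, gs a c (ℓ k.castSucc) * x k = 0`) supported in
`S ∩ {dt δ u < L + N}` is a boundary.  `N = 0`: `x = 0`.  Step: `x` supported in `dt δ u < L + N + 1`.  `x̂ = Fin.snoc x 0` is a cycle for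
`ℓ` (`Fin.sum_univ_castSucc`), so `x̂_j = ∑ k, g_k y_jk`, `g_k = gs a c (ℓ k)`.  Replace `y_jk` by its part of degree `< L + N` (`dg` with an indicator
function): still antisymmetric, supported in `S`, and the relation still holds: `g_k` raises the degree by exactly one (`hδ`), so at a
point `u` of degree `< L + N + 1` nothing changes, and at other points both sides are `0`.  The last equation is
`0 = ∑ l : Fin m, g_l y_{last,l} + g_last y_{last,last}` and `y_{last,last} = 0` (`y = -y`, `lp_eq_neg_self`).  So `(y_{last,l})_l` is a cycle of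
the first `m` functionals supported in `S ∩ {dt δ u < L + N}`: by induction `y_{last,l} = ∑ j, g_j w_lj`, `w` antisymmetric.  Then
`x_k = ∑_{l : Fin m} g_l y_kl + g_last y_{k,last} = ∑_l g_l y_kl - g_last ∑_l g_l w_kl = ∑_l g_l (y_kl - g_last w_kl)`, and
`y_kl - g_last w_kl` is antisymmetric and supported in `S` (`hS`, `Supp.gs_mul`).
Finally every cycle has bounded degrees (finite supports).
-/

set_option autoImplicit false

namespace Pool.Agent.H56.T5

open Finset AddMonoidAlgebra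
open Pool.Agent.H56.SMC Pool.Agent.H37.T5

/-- The part of degree `< D`. -/
noncomputable def REGD_tr {d : ℕ} (δ : Lat d) (D : ℤ) (x : LP ℂ d) : LP ℂ d :=
  dg (fun u => if dt δ u < D then (1 : ℂ) else 0) x

theorem REGD_tr_coeff {d : ℕ} (δ : Lat d) (D : ℤ) (x : LP ℂ d) (u : Lat d) :
    (REGD_tr δ D x).coeff u = (if dt δ u < D then (1 : ℂ) else 0) * x.coeff u := dg_coeff _ _ _

theorem REGD_gs_tr {d : ℕ} {ι : Type} [Fintype ι] (a : ι → Lat d) (c : ι → ℂ) (δ : Lat d)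
    (hδ : ∀ i, dt δ (a i) = 1) (h : Lat d) (D : ℤ) (x : LP ℂ d) (u : Lat d) :
    (gs a c h * REGD_tr δ D x).coeff u =
      (if dt δ u < D + 1 then (1 : ℂ) else 0) * (gs a c h * x).coeff u := by
  rw [gs_mul_coeff, gs_mul_coeff, mul_sum]
  refine sum_congr rfl fun i _ => ?_
  rw [REGD_tr_coeff, dt_sub, hδ]
  by_cases hu : dt δ u < D + 1
  · rw [if_pos hu, if_pos (by omega)]
    ring
  · rw [if_neg hu, if_neg (by omega)]
    ring

/-- REGD -/
theorem regD {d : ℕ} {ι : Type} [Fintype ι] (a : ι → Lat d) (c : ι → ℂ) (δ : Lat d)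
    (hδ : ∀ i, dt δ (a i) = 1) (S : Set (Lat d)) (hS : ∀ u ∈ S, ∀ i, c i ≠ 0 → u + a i ∈ S)
    (L : ℤ) (hL : ∀ u ∈ S, L ≤ dt δ u) {m : ℕ} (ℓ : Fin (m + 1) → Lat d)
    (hK : KExS a c ℓ S) : KExS a c (fun k : Fin m => ℓ k.castSucc) S := by
  classical
  have key : ∀ (N : ℕ) (x : Fin m → LP ℂ d), (∀ k, Supp S (x k)) →
      (∀ k, Supp {u | dt δ u < L + N} (x k)) →
      ∑ k : Fin m, gs a c (ℓ k.castSucc) * x k = 0 →
      ∃ y : Fin m → Fin m → LP ℂ d, (∀ j k, Supp S (y j k)) ∧ (∀ j k, y j k = -y k j) ∧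
        ∀ j, x j = ∑ k : Fin m, gs a c (ℓ k.castSucc) * y j k := by
    intro N
    induction N with
    | zero =>
      intro x hxS hx _
      have hx0 : ∀ j, x j = 0 := by
        intro j
        apply lp_ext
        intro u
        by_contra hu
        have h1 := hL u (hxS j u hu)
        have h2 : dt δ u < L + ((0 : ℕ) : ℤ) := hx j u hu
        push_cast at h2
        omega
      refine ⟨fun _ _ => 0, fun _ _ => Supp.zero _, fun _ _ => neg_zero.symm, fun j => ?_⟩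
      rw [hx0 j]
      simp
    | succ N ih =>
      intro x hxS hx hcyc
      let xh : Fin (m + 1) → LP ℂ d := Fin.snoc (α := fun _ => LP ℂ d) x 0
      have hxh1 : ∀ k : Fin m, xh k.castSucc = x k := fun k => Fin.snoc_castSucc _ _ _
      have hxh2 : xh (Fin.last m) = 0 := Fin.snoc_last _ _
      have hxhS : ∀ k, Supp S (xh k) := by
        intro k
        refine Fin.lastCases ?_ (fun k => ?_) k
        · rw [hxh2]; exact Supp.zero _
        · rw [hxh1]; exact hxS k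
      have hxhD : ∀ k, Supp {u | dt δ u < L + N + 1} (xh k) := by
        intro k
        refine Fin.lastCases ?_ (fun k => ?_) k
        · rw [hxh2]; exact Supp.zero _
        · rw [hxh1]
          intro u hu
          have h2 : dt δ u < L + ((N + 1 : ℕ) : ℤ) := hx k u hu
          show dt δ u < L + N + 1
          push_cast at h2
          omega
      have hxhc : ∑ k, gs a c (ℓ k) * xh k = 0 := by
        rw [Fin.sum_univ_castSucc, hxh2, mul_zero, add_zero]
        simp only [hxh1]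
        exact hcyc
      obtain ⟨y0, hy0S, hy0a, hy0⟩ := hK xh hxhS hxhc
      let y : Fin (m + 1) → Fin (m + 1) → LP ℂ d := fun j k => REGD_tr δ (L + N) (y0 j k)
      have hyS : ∀ j k, Supp S (y j k) := fun j k => (hy0S j k).dg _
      have hyD : ∀ j k, Supp {u | dt δ u < L + N} (y j k) := by
        intro j k u hu
        show dt δ u < L + N
        by_contra h
        apply hu
        show (REGD_tr δ (L + N) (y0 j k)).coeff u = 0
        rw [REGD_tr_coeff, if_neg h, zero_mul]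
      have hya : ∀ j k, y j k = -y k j := by
        intro j k
        apply lp_ext
        intro u
        show (REGD_tr δ (L + N) (y0 j k)).coeff u = (-REGD_tr δ (L + N) (y0 k j)).coeff u
        rw [coeff_neg', REGD_tr_coeff, REGD_tr_coeff, hy0a j k, coeff_neg', mul_neg]
      have hyx : ∀ j, xh j = ∑ k, gs a c (ℓ k) * y j k := by
        intro j
        apply lp_ext
        intro u
        rw [coeff_finsum]
        have h1 : ∀ k, (gs a c (ℓ k) * y j k).coeff u =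
            (if dt δ u < L + N + 1 then (1 : ℂ) else 0) * (gs a c (ℓ k) * y0 j k).coeff u :=
          fun k => REGD_gs_tr a c δ hδ (ℓ k) (L + N) (y0 j k) u
        simp only [h1]
        rw [← mul_sum, ← coeff_finsum, ← hy0 j]
        by_cases hu : dt δ u < L + N + 1
        · rw [if_pos hu, one_mul]
        · rw [if_neg hu, zero_mul]
          by_contra h
          exact hu (hxhD j u h)
      have hyll : y (Fin.last m) (Fin.last m) = 0 := lp_eq_neg_self _ (hya _ _)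
      obtain ⟨w, hwS, hwa, hw⟩ := ih (fun l => y (Fin.last m) l.castSucc) (fun l => hyS _ _)
        (fun l => hyD _ _) (by
        have h1 := hyx (Fin.last m)
        rw [hxh2, Fin.sum_univ_castSucc, hyll, mul_zero, add_zero] at h1
        exact h1.symm)
      refine ⟨fun k l => y k.castSucc l.castSucc - gs a c (ℓ (Fin.last m)) * w k l, fun k l =>
        (hyS _ _).sub ((hwS k l).gs_mul a c _ hS), fun k l => ?_, fun k => ?_⟩
      · show y k.castSucc l.castSucc - gs a c (ℓ (Fin.last m)) * w k l =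
          -(y l.castSucc k.castSucc - gs a c (ℓ (Fin.last m)) * w l k)
        rw [hya k.castSucc l.castSucc, hwa k l, mul_neg]
        abel
      · have h1 := hyx k.castSucc
        rw [hxh1, Fin.sum_univ_castSucc, hya k.castSucc (Fin.last m), hw k] at h1
        rw [h1]
        simp only [mul_sub, sum_sub_distrib]
        rw [mul_neg, mul_sum, ← sub_eq_add_neg]
        exact congrArg (HSub.hSub _) (sum_congr rfl fun l _ => mul_left_comm _ _ _)
  intro x hxS hcyc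
  refine key (∑ j, ∑ u ∈ (x j).coeff.support, (dt δ u - L + 1).toNat) x hxS (fun j u hu => ?_) hcyc
  show dt δ u < L + _
  have h1 : (dt δ u - L + 1).toNat ≤
      ∑ j, ∑ u ∈ (x j).coeff.support, (dt δ u - L + 1).toNat := by
    refine le_trans ?_ (Finset.single_le_sum (f := fun j => ∑ u ∈ (x j).coeff.support,
      (dt δ u - L + 1).toNat) (fun _ _ => Nat.zero_le _) (Finset.mem_univ j))
    exact Finset.single_le_sum (f := fun u => (dt δ u - L + 1).toNat)
      (fun _ _ => Nat.zero_le _) (Finsupp.mem_support_iff.2 hu)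
  omega

end Pool.Agent.H56.T5

end S_REGD

section S_REGF

/-!
# REGF: exactness on a layer for functionals which are independent on the face

Proof.  (1) `m` functionals `ℓ : Fin m → Lat d` (theorem `regF`): `extB` gives `ℓ' : Fin (m + t) → Lat d`, `e`; `regL` gives `KExS` for `ℓ'`; descend
`t` times with `regD` (induction on `t` for the statement `KExS a c' ℓ' S → KExS a c' (fun k : Fin m => ℓ' (Fin.castAdd t k)) S`; `c' = cF a c H`).
The layer is closed under adding `a i` with `c' i ≠ 0` (`cF_ne`; `m0 • (u + a i) + y0 = (m0 • u + y0) + m0 • a i`, `Sset h` by `hh`, `dt H (a i) = 0`).  Bound for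
the degree: `m0 • u + y0 ∈ Sset h` gives `N • (m0 • u + y0) = ∑ n_i • a i` so `0 ≤ dt δ (m0 • u + y0) = m0 * dt δ u + dt δ y0`, so
`-|dt δ y0| ≤ dt δ u`.
(2) `regFJ`: a finset `J` of indices of `ℓ : Fin s → Lat d`: apply `regF` to `fun k => ℓ (J.orderEmbOfFin rfl k)` (or another enumeration `Fin J.card ≃ J`), extend by zero
outside `J`.
-/

set_option autoImplicit false

namespace Pool.Agent.H56.T5

open Finset AddMonoidAlgebra
open Pool.Agent.H56.SMC Pool.Agent.H37.T5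

/-- the degree is bounded below on a layer -/
theorem REGF_bound {d : ℕ} {ι κ : Type} [Fintype ι] (a : ι → Lat d)
    (h : κ → Lat d) (δ : Lat d) (hδ : ∀ i, dt δ (a i) = 1)
    (hfac : ∀ u ∈ Sset h, ∃ N : ℕ, 0 < N ∧ ∃ n : ι → ℕ, N • u = ∑ i, n i • a i)
    (H : Lat d) (m0 : ℤ) (hm0 : 0 < m0) (y0 : Lat d) :
    ∀ u ∈ Lay h H m0 y0, -|dt δ y0| ≤ dt δ u := by
  rintro u ⟨hu, -⟩
  obtain ⟨N, hN, n, hn⟩ := hfac _ hu
  have h1 : (N : ℤ) * dt δ (m0 • u + y0) = ∑ i, (n i : ℤ) := by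
    rw [← dt_nsmul, hn, dt_sum]
    refine sum_congr rfl fun i _ => ?_
    rw [dt_nsmul, hδ, mul_one]
  have h2 : 0 ≤ (N : ℤ) * dt δ (m0 • u + y0) := by
    rw [h1]; exact sum_nonneg fun i _ => Int.natCast_nonneg _
  have h3 : 0 ≤ dt δ (m0 • u + y0) := by
    by_contra hc
    push Not at hc
    have : (N : ℤ) * dt δ (m0 • u + y0) < 0 := mul_neg_of_pos_of_neg (by exact_mod_cast hN) hc
    omega
  rw [dt_add, dt_zsmul] at h3
  have h4 : dt δ y0 ≤ |dt δ y0| := le_abs_self _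
  have h5 : 0 ≤ |dt δ y0| := abs_nonneg _
  rcases le_or_gt 0 (dt δ u) with h6 | h6
  · omega
  · have h7 : m0 * dt δ u ≤ 1 * dt δ u := mul_le_mul_of_nonpos_right (by omega) h6.le
    omega

/-- the descent -/
theorem REGF_desc {d : ℕ} {ι : Type} [Fintype ι] (a : ι → Lat d) (c : ι → ℂ) (δ : Lat d)
    (hδ : ∀ i, dt δ (a i) = 1) (S : Set (Lat d)) (hS : ∀ u ∈ S, ∀ i, c i ≠ 0 → u + a i ∈ S)
    (L : ℤ) (hL : ∀ u ∈ S, L ≤ dt δ u) {m : ℕ} (t : ℕ) :
    ∀ ℓ : Fin (m + t) → Lat d, KExS a c ℓ S →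
      KExS a c (fun k : Fin m => ℓ (Fin.castAdd t k)) S := by
  induction t with
  | zero => intro ℓ h; exact h
  | succ t ih =>
    intro ℓ h
    have h1 := regD (m := m + t) a c δ hδ S hS L hL ℓ h
    have h2 := ih (fun k => ℓ k.castSucc) h1
    have h3 : (fun k : Fin m => ℓ (Fin.castAdd (t + 1) k)) =
        (fun k : Fin m => ℓ (Fin.castAdd t k).castSucc) := by
      funext k
      congr 1
    rw [h3]
    exact h2

/-- REGF -/
theorem regF {d : ℕ} {ι κ : Type} [Fintype ι] [Fintype κ] (a : ι → Lat d) (c : ι → ℂ)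
    (h : κ → Lat d) (δ : Lat d) (hδ : ∀ i, dt δ (a i) = 1) (hh : ∀ v i, 0 ≤ dt (h v) (a i))
    (hfac : ∀ u ∈ Sset h, ∃ N : ℕ, 0 < N ∧ ∃ n : ι → ℕ, N • u = ∑ i, n i • a i)
    (hnd : TorusND a c) (H : Lat d) (hH : ∀ i, 0 ≤ dt H (a i)) {m : ℕ} (ℓ : Fin m → Lat d)
    (hind : IndOn a H ℓ univ) (m0 : ℤ) (hm0 : 0 < m0) (y0 : Lat d) :
    KExS a (cF a c H) ℓ (Lay h H m0 y0) := by
  obtain ⟨t, ℓ', e, h1, h2, h3, h4⟩ := extB a H ℓ hind
  have h5 := regL a c h δ hδ hh hfac hnd H hH ℓ' h4 e h2 h3 m0 hm0 y0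
  have hS : ∀ u ∈ Lay h H m0 y0, ∀ i, cF a c H i ≠ 0 → u + a i ∈ Lay h H m0 y0 := by
    rintro u ⟨hu1, hu2⟩ i hi
    have hi0 := cF_ne hi
    have heq : m0 • (u + a i) + y0 = (m0 • u + y0) + m0 • a i := by
      rw [smul_add]; abel
    refine ⟨?_, ?_⟩
    · intro v
      rw [heq, dt_add, dt_zsmul]
      exact add_nonneg (hu1 v) (mul_nonneg hm0.le (hh v i))
    · rw [heq, dt_add, dt_zsmul, hi0, hu2]; ring
  have h6 := REGF_desc a (cF a c H) δ hδ _ hS _
    (REGF_bound a h δ hδ hfac H m0 hm0 y0) t ℓ' h5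
  have h7 : (fun k : Fin m => ℓ' (Fin.castAdd t k)) = ℓ := funext h1
  rwa [h7] at h6

/-- sums over `J` by the enumeration -/
theorem REGF_sum {s : ℕ} {A : Type*} [AddCommMonoid A] (J : Finset (Fin s))
    (σ : Fin J.card ≃ J) (f : Fin s → A) : ∑ k ∈ J, f k = ∑ k : Fin J.card, f (σ k) := by
  rw [← Finset.sum_coe_sort J f]
  exact (Equiv.sum_comp σ (fun i : J => f i)).symm

/-- REGF for a finset of indices -/
theorem regFJ {d : ℕ} {ι κ : Type} [Fintype ι] [Fintype κ] (a : ι → Lat d) (c : ι → ℂ)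
    (h : κ → Lat d) (δ : Lat d) (hδ : ∀ i, dt δ (a i) = 1) (hh : ∀ v i, 0 ≤ dt (h v) (a i))
    (hfac : ∀ u ∈ Sset h, ∃ N : ℕ, 0 < N ∧ ∃ n : ι → ℕ, N • u = ∑ i, n i • a i)
    (hnd : TorusND a c) (H : Lat d) (hH : ∀ i, 0 ≤ dt H (a i)) {s : ℕ} (ℓ : Fin s → Lat d)
    (J : Finset (Fin s)) (hind : IndOn a H ℓ J) (m0 : ℤ) (hm0 : 0 < m0) (y0 : Lat d)
    (x : Fin s → LP ℂ d) (hx : ∀ k ∈ J, Supp (Lay h H m0 y0) (x k))
    (h0 : ∑ k ∈ J, gs a (cF a c H) (ℓ k) * x k = 0) :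
    ∃ y : Fin s → Fin s → LP ℂ d, (∀ k ∈ J, ∀ l ∈ J, Supp (Lay h H m0 y0) (y k l)) ∧
      (∀ k l, y k l = -y l k) ∧ ∀ k ∈ J, x k = ∑ l ∈ J, gs a (cF a c H) (ℓ l) * y k l := by
  classical
  set σ : Fin J.card ≃ J := J.equivFin.symm with hσ
  have hind' : IndOn a H (fun k : Fin J.card => ℓ (σ k)) univ := by
    intro n hn k _
    have h1 := hind (fun k => if hk : k ∈ J then n (σ.symm ⟨k, hk⟩) else 0) (by
      intro i hi
      rw [REGF_sum J σ]
      rw [← hn i hi]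
      refine sum_congr rfl fun k _ => ?_
      rw [dif_pos (σ k).2]
      simp) (σ k) (σ k).2
    rw [dif_pos (σ k).2] at h1
    simpa using h1
  have h1 := regF a c h δ hδ hh hfac hnd H hH (fun k : Fin J.card => ℓ (σ k)) hind' m0 hm0 y0
  obtain ⟨y, hy1, hy2, hy3⟩ := h1 (fun k => x (σ k)) (fun k => hx _ (σ k).2) (by
    rw [← h0, REGF_sum J σ])
  refine ⟨fun k l => if hkl : k ∈ J ∧ l ∈ J then y (σ.symm ⟨k, hkl.1⟩) (σ.symm ⟨l, hkl.2⟩) else 0,
    ?_, ?_, ?_⟩
  · intro k hk l hl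
    simp only [dif_pos (And.intro hk hl)]
    exact hy1 _ _
  · intro k l
    by_cases hkl : k ∈ J ∧ l ∈ J
    · simp only [dif_pos hkl, dif_pos (And.intro hkl.2 hkl.1)]
      exact hy2 _ _
    · have hlk : ¬ (l ∈ J ∧ k ∈ J) := fun hc => hkl ⟨hc.2, hc.1⟩
      simp only [dif_neg hkl, dif_neg hlk, neg_zero]
  · intro k hk
    have h2 := hy3 (σ.symm ⟨k, hk⟩)
    simp only [Equiv.apply_symm_apply] at h2
    rw [h2, REGF_sum J σ]
    refine sum_congr rfl fun l _ => ?_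
    beta_reduce
    rw [dif_pos (And.intro hk (σ l).2)]
    simp

end Pool.Agent.H56.T5

end S_REGF

section S_R0K

/-!
# R0K: the statement (B) for `E = ∅`

Write `S = {u | m0 • u + y0 ∈ Sset h ∧ dt H u = 0}`.
Proof.  (1) `NN S ℓ Z ∅ K = Lay h (HZ H ℓ Z) m0 y0` for every `K`: on `Sset h` all functionals which are nonnegative on the exponents are
nonnegative (`hfac`: `N • v = ∑ n_i • a i`), so for `v = m0 • u + y0 ∈ Sset h`: `dt (HZ H ℓ Z) v = 0` iff `dt H v = 0` and `dt (ℓ k) v = 0` for all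
`k ∈ Z` (`dt_HZ_eq_zero`); `dt H v = m0 * dt H u` (`hy0`), `dt (ℓ k) v = m0 * dt (ℓ k) u + m0` (`hyP`), `m0 > 0`.
(2) `HZ H ℓ Z` is nonnegative on all exponents (`dt_HZ`).  Apply `regFJ` with the functional `HZ H ℓ Z`, the finset `insert m J` and `x_m = r0`, `x_k = -r_k` (`k ∈ J`,
so `k ≠ m`): `r0 = x_m = ∑ l ∈ insert m J, g_l * y m l`, `y m m = 0` (`y = -y`, `lp_eq_neg_self`), so take `y_k = y m k`.
-/

set_option autoImplicit false

namespace Pool.Agent.H56.T5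

open Finset AddMonoidAlgebra
open Pool.Agent.H56.SMC Pool.Agent.H37.T5

/-- Functionals nonnegative on the exponents are nonnegative on the cone. -/
theorem R0K_nonneg {d : ℕ} {ι κ : Type} [Fintype ι] (a : ι → Lat d) (h : κ → Lat d)
    (hfac : ∀ u ∈ Sset h, ∃ N : ℕ, 0 < N ∧ ∃ n : ι → ℕ, N • u = ∑ i, n i • a i)
    (H : Lat d) (hH : ∀ i, 0 ≤ dt H (a i)) (v : Lat d) (hv : v ∈ Sset h) : 0 ≤ dt H v := by
  obtain ⟨N, hN, n, hn⟩ := hfac v hv
  have h1 : dt H (N • v) = ∑ i, (n i : ℤ) * dt H (a i) := by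
    rw [hn, dt_sum]
    exact sum_congr rfl fun i _ => dt_nsmul _ _ _
  rw [dt_nsmul] at h1
  have h2 : 0 ≤ (N : ℤ) * dt H v := by
    rw [h1]
    exact sum_nonneg fun i _ => mul_nonneg (by positivity) (hH i)
  have h3 : (0 : ℤ) < N := by exact_mod_cast hN
  exact nonneg_of_mul_nonneg_right h2 h3

theorem R0K_NN {d : ℕ} {ι κ : Type} [Fintype ι] (a : ι → Lat d)
    (h : κ → Lat d)
    (hfac : ∀ u ∈ Sset h, ∃ N : ℕ, 0 < N ∧ ∃ n : ι → ℕ, N • u = ∑ i, n i • a i)
    (H : Lat d) (hH : ∀ i, 0 ≤ dt H (a i)) {s : ℕ} (ℓ : Fin s → Lat d)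
    (P : Finset (Fin s)) (hPa : ∀ k ∈ P, ∀ i, 0 ≤ dt (ℓ k) (a i))
    (m0 : ℤ) (hm0 : 0 < m0) (y0 : Lat d) (hy0 : dt H y0 = 0) (hyP : ∀ k ∈ P, dt (ℓ k) y0 = m0)
    (Z : Finset (Fin s)) (hZ : Z ⊆ P) (K : Finset (Fin s)) :
    NN {u | m0 • u + y0 ∈ Sset h ∧ dt H u = 0} ℓ Z ∅ K = Lay h (HZ H ℓ Z) m0 y0 := by
  ext u
  have hl : ∀ i ∈ Z, dt (ℓ i) (m0 • u + y0) = m0 * (dt (ℓ i) u + 1) := by
    intro i hi
    rw [dt_add, dt_zsmul, hyP i (hZ hi)]
    ring
  have hHv : dt H (m0 • u + y0) = m0 * dt H u := by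
    rw [dt_add, dt_zsmul, hy0, add_zero]
  constructor
  · rintro ⟨⟨h1, h2⟩, h3, -⟩
    refine ⟨h1, ?_⟩
    rw [dt_HZ_eq_zero H ℓ Z _ (R0K_nonneg a h hfac H hH _ h1)
      (fun i hi => R0K_nonneg a h hfac (ℓ i) (hPa i (hZ hi)) _ h1)]
    refine ⟨by rw [hHv, h2, mul_zero], fun i hi => ?_⟩
    rw [hl i hi, h3 i hi]
    ring
  · rintro ⟨h1, h2⟩
    rw [dt_HZ_eq_zero H ℓ Z _ (R0K_nonneg a h hfac H hH _ h1)
      (fun i hi => R0K_nonneg a h hfac (ℓ i) (hPa i (hZ hi)) _ h1)] at h2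
    obtain ⟨h3, h4⟩ := h2
    refine ⟨⟨h1, ?_⟩, fun i hi => ?_, fun i hi => absurd hi (Finset.notMem_empty i)⟩
    · rw [hHv] at h3
      rcases mul_eq_zero.1 h3 with h5 | h5
      · omega
      · exact h5
    · have h5 := h4 i hi
      rw [hl i hi] at h5
      rcases mul_eq_zero.1 h5 with h6 | h6
      · omega
      · omega

/-- R0K -/
theorem r0K {d : ℕ} {ι κ : Type} [Fintype ι] [Fintype κ] (a : ι → Lat d) (c : ι → ℂ)
    (h : κ → Lat d) (δ : Lat d) (hδ : ∀ i, dt δ (a i) = 1) (hh : ∀ v i, 0 ≤ dt (h v) (a i))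
    (hfac : ∀ u ∈ Sset h, ∃ N : ℕ, 0 < N ∧ ∃ n : ι → ℕ, N • u = ∑ i, n i • a i)
    (hnd : TorusND a c) (H : Lat d) (hH : ∀ i, 0 ≤ dt H (a i)) {s : ℕ} (ℓ : Fin s → Lat d)
    (P : Finset (Fin s)) (hPa : ∀ k ∈ P, ∀ i, 0 ≤ dt (ℓ k) (a i))
    (m0 : ℤ) (hm0 : 0 < m0) (y0 : Lat d) (hy0 : dt H y0 = 0) (hyP : ∀ k ∈ P, dt (ℓ k) y0 = m0)
    (Z J : Finset (Fin s)) (hZ : Z ⊆ P) (m : Fin s) (hmJ : m ∉ J)
    (hind : IndOn a (HZ H ℓ Z) ℓ (insert m J)) :
    StB a c H {u | m0 • u + y0 ∈ Sset h ∧ dt H u = 0} ℓ Z ∅ J m := by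
  classical
  intro r0 r hr0 hr heq
  have hNN := fun K => R0K_NN a h hfac H hH ℓ P hPa m0 hm0 y0 hy0 hyP Z hZ K
  rw [hNN] at hr0
  have hHZ : ∀ i, 0 ≤ dt (HZ H ℓ Z) (a i) := by
    intro i
    rw [dt_HZ]
    exact add_nonneg (hH i) (sum_nonneg fun k hk => hPa k (hZ hk) i)
  have hx : ∀ k ∈ insert m J, Supp (Lay h (HZ H ℓ Z) m0 y0) (if k = m then r0 else -r k) := by
    intro k hk
    by_cases hkm : k = m
    · rw [if_pos hkm]
      exact hr0
    · rw [if_neg hkm]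
      rcases mem_insert.1 hk with h1 | h1
      · exact absurd h1 hkm
      · have h2 := hr k h1
        rw [hNN] at h2
        exact h2.neg
  have h0 : ∑ k ∈ insert m J, gs a (cF a c (HZ H ℓ Z)) (ℓ k) * (if k = m then r0 else -r k) = 0 := by
    rw [sum_insert hmJ, if_pos rfl, heq, ← sum_add_distrib]
    refine sum_eq_zero fun k hk => ?_
    rw [if_neg (show ¬ k = m by rintro rfl; exact hmJ hk)]
    ring
  obtain ⟨y, hy1, hy2, hy3⟩ := regFJ a c h δ hδ hh hfac hnd (HZ H ℓ Z) hHZ ℓ (insert m J) hind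
    m0 hm0 y0 _ hx h0
  have hmm : y m m = 0 := lp_eq_neg_self _ (hy2 m m)
  refine ⟨fun k => y m k, fun k hk => ?_, ?_⟩
  · rw [hNN]
    exact hy1 m (mem_insert_self m J) k (mem_insert_of_mem hk)
  · have h1 := hy3 m (mem_insert_self m J)
    rw [if_pos rfl, sum_insert hmJ, hmm, mul_zero, zero_add] at h1
    exact h1

end Pool.Agent.H56.T5

end S_R0K

section S_R1K

/-!
# R1K: (B) for `E + p` from (B) for `E` and (A) for `Z + p`

Write `g_k = gs a (cF a c (HZ H ℓ Z)) (ℓ k)`, `g'_k = gs a (cF a c (HZ H ℓ (insert p Z))) (ℓ k)`.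
Proof.  Let `r0`, `r_k` be as in `StB … Z (insert p E) J m`.  By `NN_mono` they are as in `StB … Z E J m`, so `r0 = ∑ k ∈ J, g_k y_k` with `y_k` supported in
`NN S ℓ Z E {k}`.  For `k ∈ J`, `k ≠ p` let `ȳ_k` be the part of `y_k` at the points with `dt (ℓ p) u = -1` (`dg` with an indicator function); it is supported in
`NN S ℓ (insert p Z) E {k}`.  Then `∑ k ∈ J.erase p, g'_k ȳ_k = 0` (*).  By `hA`: `ȳ_k = ∑ l ∈ J.erase p, g'_l z_kl`, `z` antisymmetric, `z_kl` supported in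
`NN S ℓ (insert p Z) E {k, l}`.  Put `y'_p = y_p` (if `p ∈ J`) and `y'_k = y_k - ∑ l ∈ J.erase p, g_l z_kl` for `k ∈ J.erase p`.  Then `∑ k ∈ J, g_k y'_k = ∑ k ∈ J, g_k y_k`
(antisymmetry, `∑_k ∑_l g_k g_l z_kl = 0`, `lp_eq_neg_self`).  Supports: `y'_p` is in `NN S ℓ Z E {p} = NN S ℓ Z (insert p E) {p}`; `g_l z_kl` is in `NN S ℓ Z E {k}`
(exponents `a i` of `g_l` have `dt H (a i) = 0` and `dt (ℓ j) (a i) = 0`, `j ∈ Z` (`cF_ne`, `dt_HZ_eq_zero`), and `dt (ℓ l) (a i) ≥ 1` if the coefficient is not zero; if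
`l ∈ E` then `dt (ℓ l) u' ≥ -1` by `hSP`), and `y'_k` has no exponent with `dt (ℓ p) u = -1`: at such `u` the value of `y_k` is that of `ȳ_k` and
`(g_l z_kl)(u) = ∑_i cF_i dt (ℓ l) (a i) z_kl (u - a i)` where `z_kl` lives on `dt (ℓ p) = -1`, so only `i` with `dt (ℓ p) (a i) = 0` contribute and
`(g_l z_kl)(u) = (g'_l z_kl)(u)`.  All exponents of `y'_k` have `dt (ℓ p) u ≥ -1` (`hSP`), so `≥ 0`: `y'_k` is in `NN S ℓ Z (insert p E) {k}`.
(*): `g'_k ȳ_k` lives on `dt (ℓ p) u = -1`.  At such `u` we have `0 = r0(u) = ∑ k ∈ J, (g_k y_k)(u)` (`r0` has `dt (ℓ p) ≥ 0`); in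
`(g_k y_k)(u) = ∑_i cF_i dt (ℓ k) (a i) y_k (u - a i)` the point `u - a i` must have `dt (ℓ p) ≥ -1` (`hSP`), so `dt (ℓ p) (a i) = 0` (`hPa`): for `k = p` the term vanishes, for
`k ≠ p` it is the term of `g'_k ȳ_k`.
-/

set_option autoImplicit false

namespace Pool.Agent.H56.T5

open Finset AddMonoidAlgebra
open Pool.Agent.H56.SMC Pool.Agent.H37.T5

/-- The part of `z` at the points with `dt q u = -1`. -/
noncomputable def R1K_bar {d : ℕ} (q : Lat d) (z : LP ℂ d) : LP ℂ d :=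
  dg (fun v => if dt q v = -1 then 1 else 0) z

theorem R1K_bar_coeff {d : ℕ} (q : Lat d) (z : LP ℂ d) (u : Lat d) :
    (R1K_bar q z).coeff u = if dt q u = -1 then z.coeff u else 0 := by
  unfold R1K_bar
  rw [dg_coeff]
  split_ifs <;> simp

theorem R1K_dt_insert {d s : ℕ} (H : Lat d) (ℓ : Fin s → Lat d) {Z : Finset (Fin s)} {p : Fin s}
    (hpZ : p ∉ Z) (u : Lat d) : dt (HZ H ℓ (insert p Z)) u = dt (HZ H ℓ Z) u + dt (ℓ p) u := by
  rw [dt_HZ, dt_HZ, sum_insert hpZ]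
  ring

/-- the key comparison of the symbols for `Z` and `insert p Z` -/
theorem R1K_key {d : ℕ} {ι : Type} [Fintype ι] (a : ι → Lat d) (c : ι → ℂ)
    (H : Lat d) {s : ℕ} (ℓ : Fin s → Lat d) {Z : Finset (Fin s)} {p : Fin s}
    (hpa : ∀ i, 0 ≤ dt (ℓ p) (a i)) (hpZ : p ∉ Z) (k : Fin s) (z : LP ℂ d)
    (hz : ∀ v, z.coeff v ≠ 0 → -1 ≤ dt (ℓ p) v) (u : Lat d) (hu : dt (ℓ p) u = -1) :
    (gs a (cF a c (HZ H ℓ Z)) (ℓ k) * z).coeff u =
      (gs a (cF a c (HZ H ℓ (insert p Z))) (ℓ k) * R1K_bar (ℓ p) z).coeff u := by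
  rw [gs_mul_coeff, gs_mul_coeff]
  refine sum_congr rfl fun i _ => ?_
  have h0 := hpa i
  have h1 := dt_sub (ℓ p) u (a i)
  rcases eq_or_ne (dt (ℓ p) (a i)) 0 with h2 | h2
  · have h3 : cF a c (HZ H ℓ (insert p Z)) i = cF a c (HZ H ℓ Z) i := by
      unfold cF
      rw [R1K_dt_insert H ℓ hpZ, h2, add_zero]
    rw [h3, R1K_bar_coeff, if_pos (by omega)]
  · have h3 : z.coeff (u - a i) = 0 := by
      by_contra h4
      have := hz _ h4
      omega
    rw [h3, R1K_bar_coeff, h3, ite_self, mul_zero, mul_zero]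

theorem R1K_cF {d : ℕ} {ι : Type} {a : ι → Lat d} {c : ι → ℂ} {H : Lat d} {s : ℕ}
    {ℓ : Fin s → Lat d} {Z : Finset (Fin s)} (hH : ∀ i, 0 ≤ dt H (a i))
    (hZa : ∀ k ∈ Z, ∀ i, 0 ≤ dt (ℓ k) (a i)) {i : ι} (h : cF a c (HZ H ℓ Z) i ≠ 0) :
    dt H (a i) = 0 ∧ ∀ k ∈ Z, dt (ℓ k) (a i) = 0 :=
  (dt_HZ_eq_zero H ℓ Z (a i) (hH i) fun k hk => hZa k hk i).1 (cF_ne h)

theorem R1K_term {d : ℕ} {ι : Type} [Fintype ι] {a : ι → Lat d} {c : ι → ℂ}
    {h : Lat d} {z : LP ℂ d} {u : Lat d} (hne : (gs a c h * z).coeff u ≠ 0) :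
    ∃ i, c i ≠ 0 ∧ dt h (a i) ≠ 0 ∧ z.coeff (u - a i) ≠ 0 := by
  rw [gs_mul_coeff] at hne
  obtain ⟨i, -, hi⟩ := exists_ne_zero_of_sum_ne_zero hne
  refine ⟨i, fun h0 => hi (by rw [h0, zero_mul, zero_mul]), fun h0 => hi (by
    rw [h0, Int.cast_zero, mul_zero, zero_mul]), fun h0 => hi (by rw [h0, mul_zero])⟩

theorem R1K_antisymm {d s : ℕ} (g : Fin s → LP ℂ d) (K : Finset (Fin s))
    (z : Fin s → Fin s → LP ℂ d) (hz : ∀ k l, z k l = -z l k) :
    ∑ k ∈ K, g k * ∑ l ∈ K, g l * z k l = 0 := by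
  apply lp_eq_neg_self
  simp only [mul_sum]
  rw [← sum_neg_distrib]
  conv_lhs => rw [sum_comm]
  refine sum_congr rfl fun j _ => ?_
  rw [← sum_neg_distrib]
  refine sum_congr rfl fun k _ => ?_
  rw [hz k j]
  ring

/-- R1K -/
theorem r1K {d : ℕ} {ι : Type} [Fintype ι] (a : ι → Lat d) (c : ι → ℂ)
    (H : Lat d) (hH : ∀ i, 0 ≤ dt H (a i)) (S : Set (Lat d))
    (hS : ∀ u ∈ S, ∀ i, dt H (a i) = 0 → u + a i ∈ S) {s : ℕ} (ℓ : Fin s → Lat d)
    (P : Finset (Fin s)) (hPa : ∀ k ∈ P, ∀ i, 0 ≤ dt (ℓ k) (a i))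
    (hSP : ∀ u ∈ S, ∀ k ∈ P, -1 ≤ dt (ℓ k) u)
    (Z E J : Finset (Fin s)) (hZ : Z ⊆ P) (hE : E ⊆ P) (m p : Fin s) (hp : p ∈ P) (hpZ : p ∉ Z)
    (hpE : p ∉ E) (hB : StB a c H S ℓ Z E J m) (hA : StA a c H S ℓ (insert p Z) E (J.erase p)) :
    StB a c H S ℓ Z (insert p E) J m := by
  intro r0 r hr0 hr heq
  have hpa := hPa p hp
  have hpZP : insert p Z ⊆ P := insert_subset hp hZ
  set g : Fin s → LP ℂ d := fun k => gs a (cF a c (HZ H ℓ Z)) (ℓ k) with hg
  set g' : Fin s → LP ℂ d := fun k => gs a (cF a c (HZ H ℓ (insert p Z))) (ℓ k) with hg'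
  obtain ⟨y, hy, hry⟩ := hB r0 r (hr0.mono (NN_mono S ℓ Z (subset_insert p E) subset_rfl))
    (fun k hk => (hr k hk).mono (NN_mono S ℓ Z (subset_insert p E) subset_rfl)) heq
  have hSm : ∀ {E' K : Finset (Fin s)} {x : LP ℂ d}, Supp (NN S ℓ Z E' K) x →
      ∀ v, x.coeff v ≠ 0 → -1 ≤ dt (ℓ p) v := fun hx v hv => hSP v (hx v hv).1 p hp
  -- `g' p = 0`
  have hg'p : ∀ (x : LP ℂ d) (u : Lat d), (g' p * x).coeff u = 0 := by
    intro x u
    by_contra hne
    obtain ⟨i, h1, h2, -⟩ := R1K_term hne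
    exact h2 ((R1K_cF hH (fun k hk => hPa k (hpZP hk)) h1).2 p (mem_insert_self p Z))
  have hkey : ∀ k x, (∀ v, x.coeff v ≠ 0 → -1 ≤ dt (ℓ p) v) → ∀ u, dt (ℓ p) u = -1 →
      (g k * x).coeff u = (g' k * R1K_bar (ℓ p) x).coeff u := fun k x hx u hu =>
    R1K_key a c H ℓ hpa hpZ k x hx u hu
  -- (*)
  have hstar : ∑ k ∈ J.erase p, g' k * R1K_bar (ℓ p) (y k) = 0 := by
    apply lp_ext
    intro u
    rw [coeff_zero', coeff_finsum]
    by_cases hu : dt (ℓ p) u = -1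
    · have h1 : ∑ k ∈ J.erase p, (g' k * R1K_bar (ℓ p) (y k)).coeff u =
          ∑ k ∈ J, (g' k * R1K_bar (ℓ p) (y k)).coeff u := sum_erase _ (hg'p _ _)
      have h2 : ∑ k ∈ J, (g' k * R1K_bar (ℓ p) (y k)).coeff u = ∑ k ∈ J, (g k * y k).coeff u :=
        sum_congr rfl fun k hk => (hkey k (y k) (hSm (hy k hk)) u hu).symm
      rw [h1, h2, ← coeff_finsum, ← hry]
      by_contra h3
      have h4 := (hr0 u h3).2.2 p (mem_insert_self p E) (notMem_empty p)
      omega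
    · refine sum_eq_zero fun k hk => ?_
      by_contra hne
      obtain ⟨i, h1, -, h3⟩ := R1K_term hne
      have h4 := (R1K_cF hH (fun k hk => hPa k (hpZP hk)) h1).2 p (mem_insert_self p Z)
      rw [R1K_bar_coeff] at h3
      have h5 := dt_sub (ℓ p) u (a i)
      rw [if_neg (by omega)] at h3
      exact h3 rfl
  -- apply (A)
  have hbar : ∀ k ∈ J.erase p, Supp (NN S ℓ (insert p Z) E {k}) (R1K_bar (ℓ p) (y k)) := by
    intro k hk u hu
    rw [R1K_bar_coeff] at hu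
    by_cases h1 : dt (ℓ p) u = -1
    · rw [if_pos h1] at hu
      obtain ⟨h2, h3, h4⟩ := hy k (mem_of_mem_erase hk) u hu
      refine ⟨h2, fun i hi => ?_, h4⟩
      rcases mem_insert.1 hi with rfl | hi
      · exact h1
      · exact h3 i hi
    · rw [if_neg h1] at hu
      exact absurd rfl hu
  obtain ⟨z, hz, hza, hzs⟩ := hA (fun k => R1K_bar (ℓ p) (y k)) hbar hstar
  -- the new elements
  refine ⟨fun k => if k = p then y p else y k - ∑ l ∈ J.erase p, g l * z k l, ?_, ?_⟩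
  · intro k hk
    show Supp _ (if k = p then y p else y k - ∑ l ∈ J.erase p, g l * z k l)
    by_cases hkp : k = p
    · subst hkp
      rw [if_pos rfl]
      intro u hu
      obtain ⟨h2, h3, h4⟩ := hy k hk u hu
      refine ⟨h2, h3, fun i hi hik => ?_⟩
      rcases mem_insert.1 hi with rfl | hi
      · exact absurd (mem_singleton_self _) hik
      · exact h4 i hi hik
    · rw [if_neg hkp]
      have hke : k ∈ J.erase p := mem_erase.2 ⟨hkp, hk⟩
      have hsup : Supp (NN S ℓ Z E {k}) (y k - ∑ l ∈ J.erase p, g l * z k l) := by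
        refine (hy k hk).sub (Supp.sum _ fun l hl => ?_)
        intro u hu
        obtain ⟨i, h1, h2, h3⟩ := R1K_term hu
        obtain ⟨h4, h5⟩ := R1K_cF hH (fun k hk => hPa k (hZ hk)) h1
        obtain ⟨h6, h7, h8⟩ := hz k hke l hl _ h3
        refine ⟨?_, fun j hj => ?_, fun j hj hjk => ?_⟩
        · have := hS _ h6 i h4
          rwa [sub_add_cancel] at this
        · have h9 := h7 j (mem_insert_of_mem hj)
          have h10 := h5 j hj
          have h11 := dt_sub (ℓ j) u (a i)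
          omega
        · have h11 := dt_sub (ℓ j) u (a i)
          have h12 := hPa j (hE hj) i
          by_cases hjl : j = l
          · subst hjl
            have h13 := hSP _ h6 j (hE hj)
            omega
          · have h13 := h8 j hj (by
              rw [mem_insert, mem_singleton, not_or]
              exact ⟨fun h => hjk (mem_singleton.2 h), hjl⟩)
            omega
      intro u hu
      obtain ⟨h2, h3, h4⟩ := hsup u hu
      refine ⟨h2, h3, fun i hi hik => ?_⟩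
      rcases mem_insert.1 hi with rfl | hi
      · by_contra hneg
        have h5 := hSP u h2 i hp
        have h6 : dt (ℓ i) u = -1 := by omega
        apply hu
        rw [coeff_sub', coeff_finsum]
        have h7 : ∑ l ∈ J.erase i, (g l * z k l).coeff u =
            ∑ l ∈ J.erase i, (g' l * z k l).coeff u := by
          refine sum_congr rfl fun l hl => ?_
          have hzl : ∀ v, (z k l).coeff v ≠ 0 → dt (ℓ i) v = -1 := fun v hv =>
            (hz k hke l hl v hv).2.1 i (mem_insert_self i Z)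
          have hbz : R1K_bar (ℓ i) (z k l) = z k l := by
            apply lp_ext
            intro v
            rw [R1K_bar_coeff]
            by_cases hv : (z k l).coeff v = 0
            · rw [hv, ite_self]
            · rw [if_pos (hzl v hv)]
          rw [hkey l (z k l) (fun v hv => (hzl v hv).ge) u h6, hbz]
        rw [h7, ← coeff_finsum]
        have h8 := hzs k hke
        have h9 : (R1K_bar (ℓ i) (y k)).coeff u = (y k).coeff u := by
          rw [R1K_bar_coeff, if_pos h6]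
        rw [← h9, sub_eq_zero]
        exact congrArg (fun x => x.coeff u) h8
      · exact h4 i hi hik
  · have h1 : ∀ k ∈ J, g k * (if k = p then y p else y k - ∑ l ∈ J.erase p, g l * z k l) =
        g k * y k - (if k = p then 0 else g k * ∑ l ∈ J.erase p, g l * z k l) := by
      intro k _
      by_cases hkp : k = p
      · rw [if_pos hkp, if_pos hkp, hkp, sub_zero]
      · rw [if_neg hkp, if_neg hkp, mul_sub]
    show r0 = ∑ k ∈ J, g k * (if k = p then y p else y k - ∑ l ∈ J.erase p, g l * z k l)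
    rw [sum_congr rfl h1, sum_sub_distrib]
    have h2 : ∑ k ∈ J, (if k = p then 0 else g k * ∑ l ∈ J.erase p, g l * z k l) =
        ∑ k ∈ J.erase p, g k * ∑ l ∈ J.erase p, g l * z k l := by
      rw [← sum_erase (a := p) J (f := fun k => if k = p then 0 else
        g k * ∑ l ∈ J.erase p, g l * z k l) (if_pos rfl)]
      exact sum_congr rfl fun k hk => if_neg (ne_of_mem_erase hk)
    rw [h2, R1K_antisymm g (J.erase p) z hza, sub_zero]
    exact hry

end Pool.Agent.H56.T5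

end S_R1K

section S_R2K

/-!
# R2K: (A) for `J + p` from (B) and (A) for `J`

Write `g_k = gs a (cF a c (HZ H ℓ Z)) (ℓ k)`.
Proof.  Let `r` be as in `StA … Z E (insert p J)`: `g_p r_p = -∑ k ∈ J, g_k r_k` (`sum_insert hpJ`).  `r_p` is in `NN S ℓ Z E {p} ⊆ NN S ℓ Z (E.erase p) ∅`, `r_k` in
`NN S ℓ Z E {k} ⊆ NN S ℓ Z (E.erase p) {k}`.  By `hB`: `r_p = ∑ k ∈ J, g_k y_k`, `y_k` in `NN S ℓ Z (E.erase p) {k}`.  `r'_k = r_k + g_p y_k` (`k ∈ J`) is in
`NN S ℓ Z E {k}`: the exponents `a i` of `g_p` have `dt H (a i) = 0` and `dt (ℓ j) (a i) = 0`, `j ∈ Z` (`cF_ne`, `dt_HZ_eq_zero`), and `dt (ℓ p) (a i) ≠ 0`, so if `p ∈ E`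
(hence `p ∈ P`) `dt (ℓ p) (a i) ≥ 1` and `dt (ℓ p) ≥ -1` on `S` (`hSP`).  `∑ k ∈ J, g_k r'_k = -g_p r_p + g_p r_p = 0`.  By `hA`: `r'_k = ∑ l ∈ J, g_l y'_kl`.  Put
`Y k l = y'_kl` for `k, l ≠ p`, `Y p l = y_l`, `Y k p = -y_k`, `Y p p = 0`.  (`NN S ℓ Z (E.erase p) {k} ⊆ NN S ℓ Z E {k, p}`.)
-/

set_option autoImplicit false

namespace Pool.Agent.H56.T5

open Finset AddMonoidAlgebra
open Pool.Agent.H56.SMC Pool.Agent.H37.T5

/-- Multiplication by the symbol of the component `p`. -/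
theorem R2K_gs {d : ℕ} {ι : Type} [Fintype ι] (a : ι → Lat d) (c : ι → ℂ)
    (H : Lat d) (hH : ∀ i, 0 ≤ dt H (a i)) (S : Set (Lat d))
    (hS : ∀ u ∈ S, ∀ i, dt H (a i) = 0 → u + a i ∈ S) {s : ℕ} (ℓ : Fin s → Lat d)
    (P : Finset (Fin s)) (hPa : ∀ k ∈ P, ∀ i, 0 ≤ dt (ℓ k) (a i))
    (hSP : ∀ u ∈ S, ∀ k ∈ P, -1 ≤ dt (ℓ k) u)
    (Z E K : Finset (Fin s)) (hZ : Z ⊆ P) (hE : E ⊆ P) (p : Fin s)
    (y : LP ℂ d) (hy : Supp (NN S ℓ Z (E.erase p) K) y) :
    Supp (NN S ℓ Z E K) (gs a (cF a c (HZ H ℓ Z)) (ℓ p) * y) := by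
  intro u hu
  rw [gs_mul_coeff] at hu
  obtain ⟨i, -, hi⟩ := exists_ne_zero_of_sum_ne_zero hu
  have h1 : y.coeff (u - a i) ≠ 0 := fun h0 => hi (by rw [h0, mul_zero])
  have h2 : cF a c (HZ H ℓ Z) i ≠ 0 := fun h0 => hi (by rw [h0, zero_mul, zero_mul])
  have h3 : dt (ℓ p) (a i) ≠ 0 := fun h0 => hi (by rw [h0, Int.cast_zero, mul_zero, zero_mul])
  obtain ⟨h4, h5, h6⟩ := hy _ h1
  have h7 := (dt_HZ_eq_zero H ℓ Z (a i) (hH i) fun j hj => hPa j (hZ hj) i).1 (cF_ne h2)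
  have hu2 : u = (u - a i) + a i := by rw [sub_add_cancel]
  refine ⟨?_, ?_, ?_⟩
  · rw [hu2]
    exact hS _ h4 i h7.1
  · intro j hj
    have h8 := h5 j hj
    have h9 := h7.2 j hj
    rw [dt_sub] at h8
    omega
  · intro j hj hjK
    have h9 := hPa j (hE hj) i
    by_cases hjp : j = p
    · subst hjp
      have h8 := hSP _ h4 j (hE hj)
      rw [dt_sub] at h8
      omega
    · have h8 := h6 j (Finset.mem_erase.2 ⟨hjp, hj⟩) hjK
      rw [dt_sub] at h8
      omega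

/-- R2K -/
theorem r2K {d : ℕ} {ι : Type} [Fintype ι] (a : ι → Lat d) (c : ι → ℂ)
    (H : Lat d) (hH : ∀ i, 0 ≤ dt H (a i)) (S : Set (Lat d))
    (hS : ∀ u ∈ S, ∀ i, dt H (a i) = 0 → u + a i ∈ S) {s : ℕ} (ℓ : Fin s → Lat d)
    (P : Finset (Fin s)) (hPa : ∀ k ∈ P, ∀ i, 0 ≤ dt (ℓ k) (a i))
    (hSP : ∀ u ∈ S, ∀ k ∈ P, -1 ≤ dt (ℓ k) u)
    (Z E J : Finset (Fin s)) (hZ : Z ⊆ P) (hE : E ⊆ P) (p : Fin s) (hpJ : p ∉ J)
    (hB : StB a c H S ℓ Z (E.erase p) J p) (hA : StA a c H S ℓ Z E J) :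
    StA a c H S ℓ Z E (insert p J) := by
  classical
  intro r hr hsum
  rw [sum_insert hpJ] at hsum
  have hrp : Supp (NN S ℓ Z (E.erase p) ∅) (r p) := by
    refine (hr p (mem_insert_self p J)).mono ?_
    rintro u ⟨h1, h2, h3⟩
    refine ⟨h1, h2, fun i hi _ => h3 i (mem_of_mem_erase hi) ?_⟩
    rw [mem_singleton]
    exact ne_of_mem_erase hi
  obtain ⟨y, hy, hyr⟩ := hB (r p) (fun k => -r k) hrp
    (fun k hk => ((hr k (mem_insert_of_mem hk)).mono
      (NN_mono S ℓ Z (erase_subset p E) (Subset.refl _))).neg)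
    (by
      simp only [mul_neg, sum_neg_distrib]
      exact eq_neg_of_add_eq_zero_left hsum)
  obtain ⟨y', hy', hya, hyr'⟩ := hA
    (fun k => r k + gs a (cF a c (HZ H ℓ Z)) (ℓ p) * y k)
    (fun k hk => (hr k (mem_insert_of_mem hk)).add
      (R2K_gs a c H hH S hS ℓ P hPa hSP Z E {k} hZ hE p (y k) (hy k hk)))
    (by
      have h1 : ∑ k ∈ J, gs a (cF a c (HZ H ℓ Z)) (ℓ k) *
          (r k + gs a (cF a c (HZ H ℓ Z)) (ℓ p) * y k)
          = ∑ k ∈ J, gs a (cF a c (HZ H ℓ Z)) (ℓ k) * r k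
            + gs a (cF a c (HZ H ℓ Z)) (ℓ p) *
              ∑ k ∈ J, gs a (cF a c (HZ H ℓ Z)) (ℓ k) * y k := by
        rw [mul_sum, ← sum_add_distrib]
        exact sum_congr rfl fun k _ => by ring
      rw [h1, ← hyr, add_comm]
      exact hsum)
  have hne : ∀ l ∈ J, l ≠ p := fun l hl h => hpJ (h ▸ hl)
  refine ⟨fun k l => if k = p then (if l = p then 0 else y l) else
    (if l = p then -y k else y' k l), ?_, ?_, ?_⟩
  · intro k hk l hl
    by_cases hkp : k = p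
    · by_cases hlp : l = p
      · simp only [hkp, hlp, if_true]
        exact Supp.zero _
      · have hlJ : l ∈ J := (mem_insert.1 hl).resolve_left hlp
        simp only [hkp, hlp, if_true, if_false]
        refine (hy l hlJ).mono ?_
        rintro u ⟨h1, h2, h3⟩
        refine ⟨h1, h2, fun i hi hiK => ?_⟩
        rw [mem_insert, mem_singleton, not_or] at hiK
        exact h3 i (mem_erase.2 ⟨hiK.1, hi⟩) (by rw [mem_singleton]; exact hiK.2)
    · have hkJ : k ∈ J := (mem_insert.1 hk).resolve_left hkp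
      by_cases hlp : l = p
      · simp only [hkp, hlp, if_true, if_false]
        refine Supp.neg ((hy k hkJ).mono ?_)
        rintro u ⟨h1, h2, h3⟩
        refine ⟨h1, h2, fun i hi hiK => ?_⟩
        rw [mem_insert, mem_singleton, not_or] at hiK
        exact h3 i (mem_erase.2 ⟨hiK.2, hi⟩) (by rw [mem_singleton]; exact hiK.1)
      · have hlJ : l ∈ J := (mem_insert.1 hl).resolve_left hlp
        simp only [hkp, hlp, if_false]
        exact hy' k hkJ l hlJ
  · intro k l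
    by_cases hkp : k = p
    · by_cases hlp : l = p
      · simp [hkp, hlp]
      · simp [hkp, hlp]
    · by_cases hlp : l = p
      · simp [hkp, hlp]
      · simp only [hkp, hlp, if_false]
        exact hya k l
  · intro k hk
    rw [sum_insert hpJ]
    by_cases hkp : k = p
    · simp only [hkp, if_true]
      rw [mul_zero, zero_add, hyr]
      refine sum_congr rfl fun l hl => ?_
      rw [if_neg (hne l hl)]
    · have hkJ : k ∈ J := (mem_insert.1 hk).resolve_left hkp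
      simp only [hkp, if_true, if_false]
      have h1 : ∑ l ∈ J, gs a (cF a c (HZ H ℓ Z)) (ℓ l) * (if l = p then -y k else y' k l)
          = ∑ l ∈ J, gs a (cF a c (HZ H ℓ Z)) (ℓ l) * y' k l :=
        sum_congr rfl fun l hl => by rw [if_neg (hne l hl)]
      rw [h1, ← hyr' k hkJ]
      ring

end Pool.Agent.H56.T5

end S_R2K

section S_KXL

/-!
# KXL: exactness of the mixed complex of the symbols

Write `S = {u | m0 • u + y0 ∈ Sset h ∧ dt H u = 0}`.
Proof.  (1) `hS` of `r1K`, `r2K`: `m0 • (u + a i) + y0 = (m0 • u + y0) + m0 • a i`, `hh`.  `hSP`: `N • (m0 • u + y0) = ∑ n_i • a i` (`hfac`), so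
`0 ≤ dt (ℓ k) (m0 • u + y0) = m0 * (dt (ℓ k) u + 1)`.
(2) Induction on `N`: for all `Z, E ⊆ P` with `Disjoint Z E`, `E.card ≤ N`, and all `J` with `Disjoint Z J`, `k0 ∉ J`:
  (B) `StB … Z E J m` for all `m ∉ J`, `m ∉ Z` with `m ≠ k0 ∨ Z = ∅`, and (A) `StA … Z E J`.
(B) for `E = ∅`: `r0K`, the independence of `insert m J` on `HZ H ℓ Z`: if `Z = ∅` (`HZ H ℓ ∅ = H`) from `hA` (subsets of independent families), otherwise
from `hB Z` (`insert m J ⊆ (univ \ Z).erase k0`).  (B) for `E = insert p E'`: `r1K` from (B) for `E'` and (A) for `insert p Z`, `E'`, `J.erase p`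
(induction hypothesis).  (A): induction on `J` (`Finset.induction_on`): `J = ∅` is trivial; `insert p J` with `r2K` from (B) for `E.erase p`, `J`, `m = p`
(`card ≤ N`, `p ≠ k0`, `p ∉ Z`; this is (B) with `card ≤ N`, proved before (A)) and (A) for `J`.
(3) For `Z = ∅`, `E = P`, `J = univ.erase k0`: (A) and (B) with `m = k0`; `r2K` with `p = k0` (`P.erase k0 = P`) gives `StA … ∅ P univ`; this is `KExactL`:
`S ∩ LL ℓ P {k} = NN S ℓ ∅ P {k}` and the same for `{k, l}` (by `hSP`), `HZ H ℓ ∅ = H`.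
-/

set_option autoImplicit false

namespace Pool.Agent.H56.T5

open Finset AddMonoidAlgebra
open Pool.Agent.H56.SMC Pool.Agent.H37.T5

theorem KXL_indOn_mono {d s : ℕ} {ι : Type} {a : ι → Lat d} {H : Lat d} {ℓ : Fin s → Lat d}
    {J J' : Finset (Fin s)} (h : IndOn a H ℓ J') (hJ : J ⊆ J') : IndOn a H ℓ J := by
  classical
  intro n hn k hk
  have h1 := h (fun k => if k ∈ J then n k else 0) (by
    intro i hi
    have h2 := hn i hi
    refine Eq.trans ?_ h2
    have h3 : ∀ k ∈ J', (if k ∈ J then n k else 0) * dt (ℓ k) (a i)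
        = if k ∈ J then n k * dt (ℓ k) (a i) else 0 := by
      intro k _
      split_ifs
      · rfl
      · rw [zero_mul]
    rw [sum_congr rfl h3, sum_ite_mem, inter_eq_right.mpr hJ]) k (hJ hk)
  simpa [hk] using h1

theorem KXL_HZ_empty {d s : ℕ} (H : Lat d) (ℓ : Fin s → Lat d) : HZ H ℓ ∅ = H := by
  unfold HZ
  rw [sum_empty, add_zero]

/-- KXL -/
theorem kexL {d : ℕ} {ι κ : Type} [Fintype ι] [Fintype κ] (a : ι → Lat d) (c : ι → ℂ)
    (h : κ → Lat d) (δ : Lat d) (hδ : ∀ i, dt δ (a i) = 1) (hh : ∀ v i, 0 ≤ dt (h v) (a i))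
    (hfac : ∀ u ∈ Sset h, ∃ N : ℕ, 0 < N ∧ ∃ n : ι → ℕ, N • u = ∑ i, n i • a i)
    (hnd : TorusND a c) (H : Lat d) (hH : ∀ i, 0 ≤ dt H (a i)) {s : ℕ} (ℓ : Fin s → Lat d)
    (P : Finset (Fin s)) (hPa : ∀ k ∈ P, ∀ i, 0 ≤ dt (ℓ k) (a i))
    (m0 : ℤ) (hm0 : 0 < m0) (y0 : Lat d) (hy0 : dt H y0 = 0) (hyP : ∀ k ∈ P, dt (ℓ k) y0 = m0)
    (k0 : Fin s) (hk0 : k0 ∉ P) (hA : IndOn a H ℓ univ)
    (hB : ∀ Z ⊆ P, IndOn a (HZ H ℓ Z) ℓ ((univ \ Z).erase k0)) :
    KExactL a (cF a c H) ℓ P {u | m0 • u + y0 ∈ Sset h ∧ dt H u = 0} := by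
  classical
  set S : Set (Lat d) := {u | m0 • u + y0 ∈ Sset h ∧ dt H u = 0} with hSdef
  have hS : ∀ u ∈ S, ∀ i, dt H (a i) = 0 → u + a i ∈ S := by
    rintro u ⟨hu1, hu2⟩ i hi
    refine ⟨fun v => ?_, ?_⟩
    · have h1 : 0 ≤ dt (h v) (m0 • u + y0) := hu1 v
      have h2 := hh v i
      have e : m0 • (u + a i) + y0 = (m0 • u + y0) + m0 • a i := by
        rw [smul_add]
        abel
      rw [e, dt_add, dt_zsmul]
      exact add_nonneg h1 (mul_nonneg hm0.le h2)
    · rw [dt_add, hu2, hi, add_zero]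
  have hSP : ∀ u ∈ S, ∀ k ∈ P, -1 ≤ dt (ℓ k) u := by
    rintro u ⟨hu1, _⟩ k hk
    obtain ⟨N, hN, n, hn⟩ := hfac _ hu1
    have h1 : (N : ℤ) * dt (ℓ k) (m0 • u + y0) = ∑ i, (n i : ℤ) * dt (ℓ k) (a i) := by
      rw [← dt_nsmul, hn, dt_sum]
      exact sum_congr rfl fun i _ => dt_nsmul _ _ _
    have h2 : 0 ≤ (N : ℤ) * dt (ℓ k) (m0 • u + y0) := by
      rw [h1]
      exact sum_nonneg fun i _ => mul_nonneg (Int.natCast_nonneg _) (hPa k hk i)
    have h3 : 0 ≤ dt (ℓ k) (m0 • u + y0) :=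
      nonneg_of_mul_nonneg_right h2 (by exact_mod_cast hN)
    rw [dt_add, dt_zsmul, hyP k hk] at h3
    by_contra hcon
    push Not at hcon
    have h4 : dt (ℓ k) u + 1 ≤ -1 := by omega
    nlinarith
  have hmain : ∀ N : ℕ,
      (∀ Z E : Finset (Fin s), Z ⊆ P → E ⊆ P → Disjoint Z E → E.card ≤ N →
        ∀ J : Finset (Fin s), Disjoint Z J → k0 ∉ J → ∀ m, m ∉ J → m ∉ Z → (m ≠ k0 ∨ Z = ∅) →
          StB a c H S ℓ Z E J m) ∧
      (∀ Z E : Finset (Fin s), Z ⊆ P → E ⊆ P → Disjoint Z E → E.card ≤ N →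
        ∀ J : Finset (Fin s), Disjoint Z J → k0 ∉ J → StA a c H S ℓ Z E J) := by
    -- (B) for the empty set
    have hB0 : ∀ Z : Finset (Fin s), Z ⊆ P → ∀ J : Finset (Fin s), Disjoint Z J → k0 ∉ J →
        ∀ m, m ∉ J → m ∉ Z → (m ≠ k0 ∨ Z = ∅) → StB a c H S ℓ Z ∅ J m := by
      intro Z hZ J hZJ hkJ m hmJ hmZ hm
      refine r0K a c h δ hδ hh hfac hnd H hH ℓ P hPa m0 hm0 y0 hy0 hyP Z J hZ m hmJ ?_
      rcases hm with hm | hm
      · refine KXL_indOn_mono (hB Z hZ) ?_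
        intro k hk
        rw [mem_erase, mem_sdiff]
        rcases mem_insert.mp hk with rfl | hk
        · exact ⟨hm, mem_univ _, hmZ⟩
        · exact ⟨fun e => hkJ (e ▸ hk), mem_univ _, fun hkZ => disjoint_left.mp hZJ hkZ hk⟩
      · rw [hm, KXL_HZ_empty]
        exact KXL_indOn_mono hA (subset_univ _)
    -- (A) from (B) for the same bound
    have hAB : ∀ N : ℕ,
        (∀ Z E : Finset (Fin s), Z ⊆ P → E ⊆ P → Disjoint Z E → E.card ≤ N →
          ∀ J : Finset (Fin s), Disjoint Z J → k0 ∉ J → ∀ m, m ∉ J → m ∉ Z →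
            (m ≠ k0 ∨ Z = ∅) → StB a c H S ℓ Z E J m) →
        (∀ Z E : Finset (Fin s), Z ⊆ P → E ⊆ P → Disjoint Z E → E.card ≤ N →
          ∀ J : Finset (Fin s), Disjoint Z J → k0 ∉ J → StA a c H S ℓ Z E J) := by
      intro N hBN Z E hZ hE hZE hEN J
      induction J using Finset.induction_on with
      | empty =>
        intro _ _ r _ _
        exact ⟨fun _ _ => 0, fun k hk => absurd hk (notMem_empty k), fun _ _ => by rw [neg_zero],
          fun k hk => absurd hk (notMem_empty k)⟩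
      | insert p J hpJ ih =>
        intro hZJ hkJ
        have hZJ' : Disjoint Z J := disjoint_of_subset_right (subset_insert p J) hZJ
        have hkJ' : k0 ∉ J := fun hk => hkJ (mem_insert_of_mem hk)
        have hpZ : p ∉ Z := fun hpZ => disjoint_left.mp hZJ hpZ (mem_insert_self p J)
        have hpk : p ≠ k0 := fun e => hkJ (e ▸ mem_insert_self p J)
        refine r2K a c H hH S hS ℓ P hPa hSP Z E J hZ hE p hpJ ?_ (ih hZJ' hkJ')
        exact hBN Z (E.erase p) hZ ((erase_subset p E).trans hE)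
          (disjoint_of_subset_right (erase_subset p E) hZE)
          ((card_le_card (erase_subset p E)).trans hEN) J hZJ' hkJ' p hpJ hpZ (Or.inl hpk)
    intro N
    induction N with
    | zero =>
      have hb : ∀ Z E : Finset (Fin s), Z ⊆ P → E ⊆ P → Disjoint Z E → E.card ≤ 0 →
          ∀ J : Finset (Fin s), Disjoint Z J → k0 ∉ J → ∀ m, m ∉ J → m ∉ Z →
            (m ≠ k0 ∨ Z = ∅) → StB a c H S ℓ Z E J m := by
        intro Z E hZ _ _ hE0
        have hE' : E = ∅ := card_eq_zero.mp (Nat.le_zero.mp hE0)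
        rw [hE']
        exact hB0 Z hZ
      exact ⟨hb, hAB 0 hb⟩
    | succ N ih =>
      have hb : ∀ Z E : Finset (Fin s), Z ⊆ P → E ⊆ P → Disjoint Z E → E.card ≤ N + 1 →
          ∀ J : Finset (Fin s), Disjoint Z J → k0 ∉ J → ∀ m, m ∉ J → m ∉ Z →
            (m ≠ k0 ∨ Z = ∅) → StB a c H S ℓ Z E J m := by
        intro Z E hZ hE hZE hEN J hZJ hkJ m hmJ hmZ hm
        rcases E.eq_empty_or_nonempty with rfl | ⟨p, hp⟩
        · exact hB0 Z hZ J hZJ hkJ m hmJ hmZ hm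
        · have hpE : p ∉ E.erase p := notMem_erase p E
          have hcard : (E.erase p).card ≤ N := by
            rw [card_erase_of_mem hp]
            omega
          have hE' : E.erase p ⊆ P := (erase_subset p E).trans hE
          have hpZ : p ∉ Z := fun hpZ => disjoint_left.mp hZE hpZ hp
          have hZE' : Disjoint Z (E.erase p) := disjoint_of_subset_right (erase_subset p E) hZE
          have h1 := ih.1 Z (E.erase p) hZ hE' hZE' hcard J hZJ hkJ m hmJ hmZ hm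
          have h2 := ih.2 (insert p Z) (E.erase p) (insert_subset (hE hp) hZ) hE'
            (disjoint_insert_left.mpr ⟨hpE, hZE'⟩) hcard (J.erase p)
            (disjoint_insert_left.mpr ⟨notMem_erase p J,
              disjoint_of_subset_right (erase_subset p J) hZJ⟩)
            (fun hk => hkJ (mem_of_mem_erase hk))
          have h3 := r1K a c H hH S hS ℓ P hPa hSP Z (E.erase p) J hZ hE' m p (hE hp) hpZ hpE h1 h2
          rwa [insert_erase hp] at h3
      exact ⟨hb, hAB (N + 1) hb⟩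
  obtain ⟨hb, ha⟩ := hmain P.card
  have hA1 : StA a c H S ℓ ∅ P (univ.erase k0) :=
    ha ∅ P (empty_subset _) (Subset.refl _) (disjoint_empty_left _) le_rfl _
      (disjoint_empty_left _) (notMem_erase k0 _)
  have hB1 : StB a c H S ℓ ∅ (P.erase k0) (univ.erase k0) k0 :=
    hb ∅ (P.erase k0) (empty_subset _) (erase_subset _ _) (disjoint_empty_left _)
      (card_le_card (erase_subset _ _)) _ (disjoint_empty_left _) (notMem_erase k0 _) k0
      (notMem_erase k0 _) (notMem_empty _) (Or.inr rfl)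
  have hA2 : StA a c H S ℓ ∅ P univ := by
    have h1 := r2K a c H hH S hS ℓ P hPa hSP ∅ P (univ.erase k0) (empty_subset _) (Subset.refl _)
      k0 (notMem_erase k0 _) hB1 hA1
    rwa [insert_erase (mem_univ k0)] at h1
  have hset : ∀ K : Finset (Fin s), NN S ℓ ∅ P K = S ∩ LL ℓ P K := by
    intro K
    ext u
    constructor
    · rintro ⟨h1, _, h3⟩
      exact ⟨h1, fun i hi => ⟨hSP u h1 i hi, h3 i hi⟩⟩
    · rintro ⟨h1, h2⟩
      exact ⟨h1, fun i hi => absurd hi (notMem_empty i), fun i hi hiK => (h2 i hi).2 hiK⟩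
  intro r hr hsum
  obtain ⟨y, hy1, hy2, hy3⟩ := hA2 r (fun k _ => by rw [hset]; exact hr k)
    (by rw [KXL_HZ_empty]; exact hsum)
  refine ⟨y, fun k l => ?_, hy2, fun k => ?_⟩
  · have h1 := hy1 k (mem_univ k) l (mem_univ l)
    rwa [hset] at h1
  · have h1 := hy3 k (mem_univ k)
    rwa [KXL_HZ_empty] at h1

end Pool.Agent.H56.T5

end S_KXL

section S_GKX

/-!
# GKX: exactness of the mixed complex, all exponents

Proof.  `fspan`, `fac` give `h` with `hh`, `hfac` for `A5 a M = cA a (bbM (noW n) M)` (as in `appL`, `Pool/Agent/H56/T5/APPL.lean`), `δ = vec 1 1 0`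
(`appg_delta`).  Apply `kexL` with `H = 0`, `ℓ = ev`, `P = sh D`, `k0 = 0` (not in `sh D`); `cF a c 0 = c`, and the set of `kexL` is `RG (A5 a M) m0 y0`
(`appg_sset`, `dt 0 u = 0`).  `hPa`: the coordinates `q_j` of the exponents are nonnegative (`appg_bbM_nonneg`).  `hyP`: `hyD`.
`hA`, `hB`: let `∑ k ∈ J, n k * (A i) k = 0` for all exponents `A i` with `(A i) k = 0` for `k ∈ Z` (`dt_HZ_eq_zero`, `dt_ev`).  `A = (0,1;0)` (it vanishes on
`Z ⊆ sh D`): `n 1 = 0` if `1 ∈ J`.  `A = (0,1;M e_j)`, `j.succ.succ ∉ Z`: `n 1 + M n (j+2) = 0` so `n (j+2) = 0`.  For `hA` (`Z = ∅`) also `A = (1,0;a_0)`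
(`hr`): `n 0 = 0`.
-/

set_option autoImplicit false

namespace Pool.Agent.H56.T5

open Finset AddMonoidAlgebra
open Pool.Agent.H56.SMC Pool.Agent.H37.T5

theorem GKX_dt_zero_left {d : ℕ} (u : Lat d) : dt (0 : Lat d) u = 0 := by
  rw [dt_comm, dt_zero]

theorem GKX_vec010 {n : ℕ} (k : Fin (n + 2)) :
    (vec 0 1 0 : Lat (n + 2)) k = if k = Fin.succ 0 then 1 else 0 := by
  refine Fin.cases ?_ (fun k => Fin.cases ?_ (fun k => ?_) k) k
  · rw [if_neg (Fin.succ_ne_zero 0).symm]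
    simp [vec]
  · rw [if_pos rfl]
    simp [vec]
  · rw [if_neg (fun h => Fin.succ_ne_zero k (Fin.succ_injective _ h))]
    simp [vec]

theorem GKX_vecM {n : ℕ} (M : ℤ) (j : Fin n) (k : Fin (n + 2)) :
    (vec 0 1 (M • ev j) : Lat (n + 2)) k =
      (if k = Fin.succ 0 then 1 else 0) + (if k = j.succ.succ then M else 0) := by
  refine Fin.cases ?_ (fun k => Fin.cases ?_ (fun k => ?_) k) k
  · rw [if_neg (Fin.succ_ne_zero 0).symm, if_neg (Fin.succ_ne_zero _).symm]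
    simp [vec]
  · rw [if_pos rfl, if_neg (fun h => Fin.succ_ne_zero j (Fin.succ_injective _ h).symm)]
    simp [vec]
  · rw [if_neg (fun h => Fin.succ_ne_zero k (Fin.succ_injective _ h))]
    by_cases h : k = j
    · subst h
      rw [if_pos rfl]
      simp [vec, ev]
    · rw [if_neg (fun h' => h (Fin.succ_injective _ (Fin.succ_injective _ h')))]
      simp [vec, ev, h]

/-- The exponents of the second kind determine all coefficients but the first. -/
theorem GKX_ind {n r : ℕ} (a : Fin r → (Fin n →₀ ℕ)) (M : ℤ) (hM : 0 < M)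
    (Z J : Finset (Fin (n + 2))) (hZ : ∀ k ∈ Z, ∃ j : Fin n, j.succ.succ = k)
    (hJZ : ∀ k ∈ J, k ∉ Z) (nn : Fin (n + 2) → ℤ)
    (hn : ∀ i, (∀ k ∈ Z, A5 a M i k = 0) → ∑ k ∈ J, nn k * A5 a M i k = 0) :
    ∀ k ∈ J, k ≠ 0 → nn k = 0 := by
  have h1 : Fin.succ 0 ∈ J → nn (Fin.succ 0) = 0 := by
    intro hJ
    have h2 := hn (Sum.inr (Sum.inl none)) (by
      intro k hk
      obtain ⟨j, rfl⟩ := hZ k hk
      rw [A5_none, GKX_vec010, if_neg (fun h => Fin.succ_ne_zero j (Fin.succ_injective _ h))])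
    rw [A5_none] at h2
    simp only [GKX_vec010, mul_ite, mul_one, mul_zero] at h2
    rw [Finset.sum_ite_eq' J (Fin.succ 0) nn, if_pos hJ] at h2
    exact h2
  intro k hk hk0
  obtain ⟨k', rfl⟩ := Fin.exists_succ_eq.2 hk0
  by_cases hk1 : k' = 0
  · subst hk1
    exact h1 hk
  · obtain ⟨j, rfl⟩ := Fin.exists_succ_eq.2 hk1
    have h2 := hn (Sum.inr (Sum.inl (some j))) (by
      intro k hkZ
      obtain ⟨j', rfl⟩ := hZ k hkZ
      rw [A5_some, GKX_vecM, if_neg (fun h => Fin.succ_ne_zero j' (Fin.succ_injective _ h)),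
        if_neg, add_zero]
      intro h
      rw [h] at hkZ
      exact hJZ _ hk hkZ)
    rw [A5_some] at h2
    simp only [GKX_vecM, mul_add, mul_ite, mul_one, mul_zero, sum_add_distrib] at h2
    rw [Finset.sum_ite_eq' J (Fin.succ 0) nn,
      Finset.sum_ite_eq' J j.succ.succ (fun k => nn k * M), if_pos hk] at h2
    have h3 : (if (Fin.succ 0 : Fin (n + 2)) ∈ J then nn (Fin.succ 0) else 0) = 0 := by
      split_ifs with h
      · exact h1 h
      · rfl
    rw [h3, zero_add] at h2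
    rcases mul_eq_zero.1 h2 with h4 | h4
    · exact h4
    · exact absurd h4 hM.ne'

/-- GKX -/
theorem gkx {n r : ℕ} (hr : 0 < r) (a : Fin r → (Fin n →₀ ℕ)) (κ : Fin r → ℂ) (M : ℤ)
    (hM : 0 < M) (lam : Option (Fin n) ⊕ Fin 0 → ℂ) (hnd : TorusND (A5 a M) (cC κ lam))
    (D : Finset (Fin n)) (m0 : ℤ) (hm0 : 0 < m0) (y0 : Lat (n + 2))
    (hyD : ∀ j ∈ D, y0 j.succ.succ = m0) :
    KExactL (A5 a M) (cC κ lam) ev (sh D) (RG (A5 a M) m0 y0) := by
  classical
  have hδ := appg_delta a (noW n) M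
  obtain ⟨e, he⟩ := fspan hr a (noW n) M hM
  obtain ⟨mf, h, hh, -, -, hfac⟩ := fac (cA a (bbM (noW n) M)) (vec 1 1 0) hδ ⟨e, he⟩
  have hS := appg_sset (cA a (bbM (noW n) M)) h hh hfac
  have hcoord : ∀ (j : Fin n) i, 0 ≤ dt (ev j.succ.succ) (A5 a M i) := by
    intro j i
    rw [dt_ev]
    rcases i with i | (o | k)
    · simp [A5, cA, vec]
    · simp only [A5, cA, vec, Fin.cons_succ]
      exact appg_bbM_nonneg (noW n) M hM o j
    · exact k.elim0
  have hsh : ∀ k ∈ sh D, ∃ j : Fin n, j.succ.succ = k := by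
    intro k hk
    obtain ⟨j, -, hj⟩ := mem_sh.1 hk
    exact ⟨j, hj⟩
  have key := kexL (A5 a M) (cC κ lam) h (vec 1 1 0) hδ hh hfac hnd 0
    (fun i => by rw [GKX_dt_zero_left]) (ev : Fin (n + 2) → Lat (n + 2)) (sh D)
    (by
      intro k hk i
      obtain ⟨j, rfl⟩ := hsh k hk
      exact hcoord j i)
    m0 hm0 y0 (GKX_dt_zero_left _)
    (by
      intro k hk
      obtain ⟨j, hj, rfl⟩ := mem_sh.1 hk
      rw [dt_ev]
      exact hyD j hj)
    0
    (by
      intro h0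
      obtain ⟨j, hj⟩ := hsh 0 h0
      exact Fin.succ_ne_zero _ hj)
    (by
      intro nn hn
      have h1 := GKX_ind a M hM ∅ univ (by simp) (by simp) nn (by
        intro i _
        have := hn i (GKX_dt_zero_left _)
        simpa only [dt_ev] using this)
      intro k _
      by_cases hk : k = 0
      · subst hk
        have h2 := hn (Sum.inl ⟨0, hr⟩) (GKX_dt_zero_left _)
        simp only [dt_ev] at h2
        rw [Finset.sum_eq_single (0 : Fin (n + 2))] at h2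
        · rw [A5_inl] at h2
          simpa [vec] using h2
        · intro k _ hk
          rw [h1 k (mem_univ _) hk, zero_mul]
        · intro h; exact absurd (mem_univ _) h
      · exact h1 k (mem_univ _) hk)
    (by
      intro Z hZ nn hn
      have hZ' : ∀ k ∈ Z, ∃ j : Fin n, j.succ.succ = k := fun k hk => hsh k (hZ hk)
      have h1 := GKX_ind a M hM Z ((univ \ Z).erase 0) hZ' (by
        intro k hk
        exact (mem_sdiff.1 (mem_of_mem_erase hk)).2) nn (by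
        intro i hi
        have h2 : dt (HZ 0 ev Z) (A5 a M i) = 0 := by
          rw [dt_HZ_eq_zero]
          · refine ⟨GKX_dt_zero_left _, fun k hk => ?_⟩
            rw [dt_ev]
            exact hi k hk
          · rw [GKX_dt_zero_left]
          · intro k hk
            obtain ⟨j, rfl⟩ := hZ' k hk
            exact hcoord j i
        have := hn i h2
        simpa only [dt_ev] using this)
      intro k hk
      exact h1 k hk (ne_of_mem_erase hk))
  have hc : cF (A5 a M) (cC κ lam) 0 = cC κ lam := by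
    funext i
    unfold cF
    rw [if_pos (GKX_dt_zero_left _)]
  have hset : {u : Lat (n + 2) | m0 • u + y0 ∈ Sset h ∧ dt 0 u = 0} = RG (A5 a M) m0 y0 := by
    ext u
    constructor
    · rintro ⟨h1, -⟩
      exact (hS _).1 h1
    · intro h1
      exact ⟨(hS _).2 h1, GKX_dt_zero_left _⟩
  rw [hc, hset] at key
  exact key

/-- The cone over the exponents. -/
theorem facI {n r : ℕ} (hr : 0 < r) (a : Fin r → (Fin n →₀ ℕ)) (M : ℤ) (hM : 0 < M)
    (u : Lat (n + 2)) (hu : InC (A5 a M) u) :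
    ∃ N : ℕ, 0 < N ∧ ∃ k : Fin r ⊕ (Option (Fin n) ⊕ Fin 0) → ℕ,
      N • u = ∑ i, k i • A5 a M i := by
  have hδ := appg_delta a (noW n) M
  obtain ⟨e, he⟩ := fspan hr a (noW n) M hM
  obtain ⟨mf, h, hh, -, -, hfac⟩ := fac (cA a (bbM (noW n) M)) (vec 1 1 0) hδ ⟨e, he⟩
  have hS := appg_sset (cA a (bbM (noW n) M)) h hh hfac
  exact hfac u ((hS u).2 hu)

end Pool.Agent.H56.T5

end S_GKX
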