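import Mathlib
import Pool.Agent.H37.T5.FDefs
import Pool.Agent.H56.SL.A7
import Pool.Agent.H56.SN.R1
import Pool.Agent.H56.SN.R3

/-! Strong monodromy, simplicial critical facets, part R4: this file joins the modules RDefs, COMB, COMBZ, RAT, GDX, YVL, RGE, SLZ. -/

set_option autoImplicit false

section S_RDefs

/-!
# Definitions for theorem R (simplicial faces, root side)
-/

set_option autoImplicit false

namespace Pool.Agent.H56.T5

open Finset AddMonoidAlgebra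
open Pool.Agent.H56.SMC Pool.Agent.H37.T5

/-- The data of a simplicial face over the rationals. -/
structure RD {n r : ℕ} (a : Fin r → (Fin n →₀ ℕ)) (w : Fin n → ℕ) (σ : Finset (Fin r))
    (lam : Fin r → ℚ) (mu : Fin n → ℚ) (th : Fin r → Fin r → ℚ) : Prop where
  pos : 0 < H22.wmin a w
  on : ∀ b ∈ σ, ∑ j, a b j * w j = H22.wmin a w
  ind : LinearIndependent ℤ (Sum.elim
    (fun b : {b : Fin r // b ∈ σ} => (vec 1 0 (fun j => (a b.1 j : ℤ)) : Lat (n + 2)))
    (fun j : {j : Fin n // w j = 0} => (vec 0 0 (ev j.1) : Lat (n + 2))))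
  th0 : ∀ i, ∑ j, a i j * w j = H22.wmin a w → ∀ b ∈ σ, 0 ≤ th i b
  th1 : ∀ i, ∑ j, a i j * w j = H22.wmin a w → ∑ b ∈ σ, th i b = 1
  tha : ∀ i, ∑ j, a i j * w j = H22.wmin a w → ∀ j, (a i j : ℚ) = ∑ b ∈ σ, th i b * (a b j : ℚ)
  lams : ∑ b ∈ σ, lam b = (H22.wsum w : ℚ) / (H22.wmin a w : ℚ)
  lamj : ∀ j, ∑ b ∈ σ, lam b * (a b j : ℚ) + (if w j = 0 then mu j else 0) = 1

/-- The combinatorial data of the slice. -/
structure SZ {n r : ℕ} (a : Fin r → (Fin n →₀ ℕ)) (w : Fin n → ℕ) (σ : Finset (Fin r))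
    (lam : Fin r → ℚ) (th : Fin r → Fin r → ℚ) (m0 : ℤ) (D P : Finset (Fin n))
    (T T' : Fin r → ℤ) : Prop where
  PD : P ⊆ D
  D0 : ∀ j ∈ D, w j ≠ 0
  T0 : ∀ b ∈ σ, 0 ≤ T b
  TC : ∀ j, w j ≠ 0 → (∃ i, a i j = 0) → m0 ≤ ∑ b ∈ σ, T b * (a b j : ℤ)
  TD : ∀ j ∈ D, ∃ b ∈ σ, a b j ≠ 0 ∧ (∀ b' ∈ σ, b' ≠ b → a b' j = 0) ∧ T b * (a b j : ℤ) = m0
  TT' : ∀ b ∈ σ, T' b = T b ∨ (T' b = 0 ∧
    (lam b ≤ 0 ∨ ∃ j1 ∈ D, ∃ j2 ∈ D, j1 ≠ j2 ∧ a b j1 ≠ 0 ∧ a b j2 ≠ 0))
  TP : ∀ j ∈ P, ∀ b ∈ σ, a b j ≠ 0 → T' b * (a b j : ℤ) = m0 ∧ ∀ j' ∈ D, a b j' ≠ 0 → j' = j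
  no : ∀ i, ∑ j, a i j * w j = H22.wmin a w → (∀ b ∈ σ, th i b * (m0 : ℚ) ≤ (T' b : ℚ)) →
    ¬ ∀ j1 ∈ P, ∀ j2 ∈ P, a i j1 ≠ 0 → a i j2 ≠ 0 → j1 = j2

/-- `∑_{b ∈ σ} T_b (1,0;a_b) + m1 ∑_{w_j=0} (0,1;M e_j)`. -/
noncomputable def yv {n r : ℕ} (a : Fin r → (Fin n →₀ ℕ)) (M : ℤ) (w : Fin n → ℕ) (σ : Finset (Fin r))
    (T : Fin r → ℤ) (m1 : ℤ) : Lat (n + 2) :=
  ∑ b ∈ σ, T b • A5 a M (Sum.inl b) +
    m1 • ∑ j ∈ univ.filter (fun j => w j = 0), A5 a M (Sum.inr (Sum.inl (some j)))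

/-- Index type of the generators of the cone over the face. -/
abbrev TT {n r : ℕ} (w : Fin n → ℕ) (σ : Finset (Fin r)) : Type :=
  {b : Fin r // b ∈ σ} ⊕ Option {j : Fin n // w j = 0}

/-- The generators. -/
def XT {n r : ℕ} (w : Fin n → ℕ) (σ : Finset (Fin r)) :
    TT w σ → Fin r ⊕ (Option (Fin n) ⊕ Fin 0)
  | Sum.inl b => Sum.inl b.1
  | Sum.inr none => Sum.inr (Sum.inl none)
  | Sum.inr (some j) => Sum.inr (Sum.inl (some j.1))

/-- The dual functionals of the generators. -/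
structure GD {n r : ℕ} (a : Fin r → (Fin n →₀ ℕ)) (M : ℤ) (w : Fin n → ℕ) (σ : Finset (Fin r))
    (lam : Fin r → ℚ) (th : Fin r → Fin r → ℚ) (G : ℤ) (γ : TT w σ → Lat (n + 2))
    (q : TT w σ → ℂ) : Prop where
  G0 : 0 < G
  dual : ∀ τ τ', dt (γ τ) (A5 a M (XT w σ τ')) = if τ = τ' then G else 0
  gen : ∀ τ, dt (h5 a w) (A5 a M (XT w σ τ)) = 0
  face : ∀ i, dt (h5 a w) (A5 a M i) = 0 → (∀ τ, 0 ≤ dt (γ τ) (A5 a M i)) ∧
    G • A5 a M i = ∑ τ, dt (γ τ) (A5 a M i) • A5 a M (XT w σ τ)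
  par : ∀ g : Lat (n + 2), pv (pp (-(H22.wsum w : ℂ) / (H22.wmin a w : ℂ)) Complex.I) g =
    ∑ τ, q τ * (dt g (A5 a M (XT w σ τ)) : ℂ)
  qb : ∀ b : {b : Fin r // b ∈ σ}, q (Sum.inl b) = (lam b.1 : ℂ)
  thb : ∀ i, ∑ j, a i j * w j = H22.wmin a w → ∀ b : {b : Fin r // b ∈ σ},
    (dt (γ (Sum.inl b)) (A5 a M (Sum.inl i)) : ℚ) = (G : ℚ) * th i b.1

/-- The lattice points of the span of the face. -/
def EE {n r : ℕ} (a : Fin r → (Fin n →₀ ℕ)) (M : ℤ) (w : Fin n → ℕ) (σ : Finset (Fin r))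
    (G : ℤ) (γ : TT w σ → Lat (n + 2)) : Set (Lat (n + 2)) :=
  {v | G • v = ∑ τ, dt (γ τ) v • A5 a M (XT w σ τ)}

/-- The region on the slice. -/
def RS {n r : ℕ} (a : Fin r → (Fin n →₀ ℕ)) (M : ℤ) (w : Fin n → ℕ) (σ : Finset (Fin r))
    (m0 : ℤ) (T : Fin r → ℤ) (m1 : ℤ) : Set (Lat (n + 2)) :=
  RG (A5 a M) m0 (yv a M w σ T m1) ∩ {u | dt (h5 a w) u = 0}

/-- The family of functionals used on the slice: `ev_{j}` for `b` with the direction
`j = jb b`, the dual functional for the other `b`, `ev` for the coordinates `l2` and `q_j`,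
`w_j = 0`. -/
def fam {n r : ℕ} (w : Fin n → ℕ) (σ : Finset (Fin r)) (γ : TT w σ → Lat (n + 2))
    (jb : Fin r → Option (Fin n)) : TT w σ → Lat (n + 2)
  | Sum.inl b => (jb b.1).elim (γ (Sum.inl b)) (fun j => ev j.succ.succ)
  | Sum.inr none => ev (Fin.succ 0)
  | Sum.inr (some j) => ev j.1.succ.succ

/-- `jb b` is the direction of `P` at `b`. -/
def JB {n r : ℕ} (a : Fin r → (Fin n →₀ ℕ)) (σ : Finset (Fin r)) (P : Finset (Fin n))
    (jb : Fin r → Option (Fin n)) : Prop :=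
  ∀ b ∈ σ, ∀ j, jb b = some j ↔ j ∈ P ∧ a b j ≠ 0

open Classical in
/-- The indices of the directions of `P`. -/
noncomputable def PP {n r s : ℕ} (w : Fin n → ℕ) (σ : Finset (Fin r)) (jb : Fin r → Option (Fin n))
    (e : Fin s ≃ TT w σ) : Finset (Fin s) :=
  univ.filter (fun k => ∃ b : {b : Fin r // b ∈ σ}, e k = Sum.inl b ∧ jb b.1 ≠ none)

end Pool.Agent.H56.T5

end S_RDefs

section S_COMB

/-!
# COMB: the choice of the levels (finite combinatorics over `ℚ`)

Notation: `τ_j = {b : A b j ≠ 0}`; `D0 = {j ∈ C0 : A b j ≠ 0 → 0 < lam b}`; `A0 = {b : ∃ j ∈ D0, A b j ≠ 0}` (so `lam b > 0` for `b ∈ A0`);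
`Rel b b' := ∃ j ∈ D0, A b j ≠ 0 ∧ A b' j ≠ 0`, classes = classes of `Relation.EqvGen Rel`; `S1 = {b : ∃ j ∈ D0, A b j ≠ 0 ∧ ∀ b' ≠ b, A b' j = 0}`;
a class is GOOD if all its elements are in `S1`; for every class which is not good choose ONE element `star` of it outside `S1`.
`C = ∑ b, ∑ j, A b j` (so `A b j ≤ C`).  Choose a rational `ε > 0` with `ε ≤ lam b` whenever `lam b > 0`, and `C * ε < θ i b - lam b` whenever
`lam b < θ i b` (finitely many conditions).
`t b = ` : if `b ∉ A0`: `1` if `lam b ≤ 0`, `0` if `lam b > 0`; if `b ∈ A0` and the class of `b` is good: `lam b`; if `b ∈ A0` is the star of its class: `lam b - ε`; the other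
`b ∈ A0` (class not good): `lam b + C ε`.
`D = {j ∈ D0 : ∃ b, A b j ≠ 0, A b' j = 0 for b' ≠ b, the class of b is good}`.
`t' b = 0` if `lam b ≤ 0` or if there are `j1 ≠ j2` in `D` with `A b j1 ≠ 0`, `A b j2 ≠ 0`; `t' b = t b` otherwise.
`P = {j ∈ D : the b with A b j ≠ 0 has no other j' ∈ D with A b j' ≠ 0}`.

(1) `1 ≤ ∑ b, t b * A b j`, `j ∈ C0`.  `j ∈ D0`: all `b ∈ τ_j` are in one class (and `τ_j` is not empty by `hlam`).  Good class: the sum is `∑ lam b * A b j = 1`.  Not good, star not in `τ_j`: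
`≥ ∑ lam b * A b j = 1`.  Not good, star in `τ_j`: the star is not in `S1`, so `τ_j` has another element `b'`; the sum is
`≥ 1 - ε * A star j + C * ε * A b' j ≥ 1 - ε C + C ε = 1`.  `j ∉ D0`: there is `b` with `A b j ≠ 0`, `lam b ≤ 0`, so `b ∉ A0`, `t b = 1`, `t b * A b j ≥ 1`, all terms
are `≥ 0`.
(2) `j ∈ D`: `t b * A b j = lam b * A b j = 1` (`hlam`, one term).
(3) the condition for `P`: clear from the definitions (`lam b > 0` and no second direction, so `t' b = t b`).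
(4) Last condition: let `θ i b ≤ t' b` for all `b` and `j1 = j2` for all `j1, j2 ∈ P` with `aI i j1, aI i j2 ≠ 0`.  Let `θ i b ≠ 0`.  Then `t' b > 0`, so `b ∈ A0`, `lam b > 0`
(for `b ∉ A0`: `t b = 0` or `lam b ≤ 0`).  For every `j ∈ D0` with `A b j ≠ 0`: `aI i j = ∑ θ i b' * A b' j > 0`, so `aI i j ≥ 1`; for `b' ∈ τ_j`
`θ i b' ≤ t' b' ≤ t b' ≤ lam b' + C ε`, so `θ i b' ≤ lam b'` by the choice of `ε`; so `1 ≤ ∑ θ i b' * A b' j ≤ ∑ lam b' * A b' j = 1` and `θ i b' = lam b'` for all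
`b' ∈ τ_j`; in particular `θ i b' ≠ 0` and `b'` is not the star of a class which is not good (`θ i star ≤ lam star - ε`).  So the set `{b : θ i b ≠ 0}` is closed under `Rel`, hence a
union of classes, and none of its elements is a star: all its classes are good.  So every such `b` is in `S1`: there is `j ∈ D0` with `τ_j = {b}`, so `j ∈ D`; by
`t' b ≠ 0` there is no other direction of `D` at `b`: `j ∈ P`, call it `j(b)`, and `aI i j(b) = θ i b * A b j(b) = lam b * A b j(b) = 1 ≠ 0`.  By the hypothesis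
`j(b) = j(b')` for all such `b, b'`, so `b = b'`: there is exactly one `b` with `θ i b ≠ 0`, `θ i b = 1` (`hθ1`), `lam b = 1`, `A b j(b) = 1`.  So `j(b)` is an apex direction
of `b`; every apex direction `j' ∈ C0` of `b` is in `D0` (`lam b > 0`) and in `D` (`τ_j' = {b}`, good class), so `j' = j(b)`: contradiction with `hU`.
-/

set_option autoImplicit false

namespace Pool.Agent.H56.T5

open Finset

/-- good classes and the chosen elements of the other classes -/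
theorem COMB_star {β : Type} (Rel : β → β → Prop) (S1 : β → Prop) :
    ∃ Good Star : β → Prop, (∀ b b', Relation.EqvGen Rel b b' → (Good b ↔ Good b')) ∧
      (∀ b, Good b → S1 b) ∧ (∀ b, ¬ Good b → ∃ s, Relation.EqvGen Rel b s ∧ Star s) ∧
      (∀ s s', Star s → Star s' → Relation.EqvGen Rel s s' → s = s') ∧
      (∀ s, Star s → ¬ S1 s) := by
  classical
  let st : Setoid β := Relation.EqvGen.setoid Rel
  have hq : ∀ b b' : β, (Quotient.mk st b = Quotient.mk st b') ↔ Relation.EqvGen Rel b b' :=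
    fun b b' => Quotient.eq
  let Q := {q : Quotient st // ∃ b, Quotient.mk st b = q ∧ ¬ S1 b}
  let f : Q → β := fun q => q.2.choose
  have hf : ∀ q : Q, Quotient.mk st (f q) = q.1 ∧ ¬ S1 (f q) := fun q => q.2.choose_spec
  refine ⟨fun b => ∀ b', Relation.EqvGen Rel b b' → S1 b', fun s => ∃ q : Q, f q = s,
    ?_, ?_, ?_, ?_, ?_⟩
  · intro b b' h
    constructor
    · intro hb c hc
      exact hb c (Relation.EqvGen.trans _ _ _ h hc)
    · intro hb c hc
      exact hb c (Relation.EqvGen.trans _ _ _ (Relation.EqvGen.symm _ _ h) hc)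
  · intro b hb
    exact hb b (Relation.EqvGen.refl b)
  · intro b hb
    push Not at hb
    obtain ⟨b', h1, h2⟩ := hb
    have hex : ∃ c, Quotient.mk st c = Quotient.mk st b ∧ ¬ S1 c :=
      ⟨b', (hq _ _).2 (Relation.EqvGen.symm _ _ h1), h2⟩
    refine ⟨f ⟨Quotient.mk st b, hex⟩, ?_, ⟨Quotient.mk st b, hex⟩, rfl⟩
    exact (hq _ _).1 (hf ⟨Quotient.mk st b, hex⟩).1.symm
  · rintro s s' ⟨q, rfl⟩ ⟨q', rfl⟩ h
    have h1 : q.1 = q'.1 := by
      rw [← (hf q).1, ← (hf q').1]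
      exact (hq _ _).2 h
    rw [Subtype.ext h1]
  · rintro s ⟨q, rfl⟩
    exact (hf q).2

theorem COMB_eps {κ : Type} [Fintype κ] (x : κ → ℚ) :
    ∃ ε : ℚ, 0 < ε ∧ ∀ k, 0 < x k → ε < x k := by
  classical
  have key : ∀ s : Finset κ, ∃ ε : ℚ, 0 < ε ∧ ∀ k ∈ s, 0 < x k → ε < x k := by
    intro s
    induction s using Finset.induction_on with
    | empty => exact ⟨1, one_pos, fun k hk => absurd hk (notMem_empty k)⟩
    | insert a s _ ih =>
      obtain ⟨ε, hε, h⟩ := ih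
      by_cases ha : 0 < x a
      · refine ⟨min ε (x a / 2), lt_min hε (by linarith), fun k hk hxk => ?_⟩
        rcases mem_insert.1 hk with rfl | hk
        · exact lt_of_le_of_lt (min_le_right _ _) (by linarith)
        · exact lt_of_le_of_lt (min_le_left _ _) (h k hk hxk)
      · refine ⟨ε, hε, fun k hk hxk => ?_⟩
        rcases mem_insert.1 hk with rfl | hk
        · exact absurd hxk ha
        · exact h k hk hxk
  obtain ⟨ε, hε, h⟩ := key univ
  exact ⟨ε, hε, fun k => h k (mem_univ k)⟩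

/-- COMB -/
theorem comb {β ι' : Type} [Fintype β] [DecidableEq β] [Fintype ι'] {n : ℕ} (A : β → Fin n → ℕ)
    (C0 : Finset (Fin n)) (lam : β → ℚ) (hlam : ∀ j ∈ C0, ∑ b, lam b * (A b j : ℚ) = 1)
    (θ : ι' → β → ℚ) (hθ0 : ∀ i b, 0 ≤ θ i b) (hθ1 : ∀ i, ∑ b, θ i b = 1)
    (aI : ι' → Fin n → ℕ) (haI : ∀ i j, (aI i j : ℚ) = ∑ b, θ i b * (A b j : ℚ))
    (hU : ¬ ∃ b, ∃ j ∈ C0, (A b j = 1 ∧ ∀ b', b' ≠ b → A b' j = 0) ∧
      ∀ j' ∈ C0, (A b j' = 1 ∧ ∀ b', b' ≠ b → A b' j' = 0) → j' = j) :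
    ∃ (t t' : β → ℚ) (D P : Finset (Fin n)), P ⊆ D ∧ D ⊆ C0 ∧ (∀ b, 0 ≤ t b) ∧
      (∀ j ∈ C0, 1 ≤ ∑ b, t b * (A b j : ℚ)) ∧
      (∀ j ∈ D, ∃ b, A b j ≠ 0 ∧ (∀ b', b' ≠ b → A b' j = 0) ∧ t b * (A b j : ℚ) = 1) ∧
      (∀ b, t' b = t b ∨ (t' b = 0 ∧
        (lam b ≤ 0 ∨ ∃ j1 ∈ D, ∃ j2 ∈ D, j1 ≠ j2 ∧ A b j1 ≠ 0 ∧ A b j2 ≠ 0))) ∧
      (∀ j ∈ P, ∀ b, A b j ≠ 0 → t' b * (A b j : ℚ) = 1 ∧ ∀ j' ∈ D, A b j' ≠ 0 → j' = j) ∧
      ∀ i, (∀ b, θ i b ≤ t' b) → ¬ ∀ j1 ∈ P, ∀ j2 ∈ P, aI i j1 ≠ 0 → aI i j2 ≠ 0 → j1 = j2 := by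
  classical
  -- the sets of the header
  set D0 : Fin n → Prop := fun j => j ∈ C0 ∧ ∀ b, A b j ≠ 0 → 0 < lam b with hD0
  set A0 : β → Prop := fun b => ∃ j, D0 j ∧ A b j ≠ 0 with hA0
  set Rel : β → β → Prop := fun b b' => ∃ j, D0 j ∧ A b j ≠ 0 ∧ A b' j ≠ 0 with hRel
  set S1 : β → Prop := fun b => ∃ j, D0 j ∧ A b j ≠ 0 ∧ ∀ b', b' ≠ b → A b' j = 0 with hS1
  obtain ⟨Good, Star, hG1, hG2, hG3, hG4, hG5⟩ := COMB_star Rel S1
  set C : ℕ := ∑ b, ∑ j, A b j with hC
  have hAC : ∀ b j, A b j ≤ C := by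
    intro b j
    calc A b j ≤ ∑ j, A b j := single_le_sum (f := fun j => A b j) (fun _ _ => Nat.zero_le _)
          (mem_univ j)
      _ ≤ C := single_le_sum (f := fun b => ∑ j, A b j) (fun _ _ => Nat.zero_le _) (mem_univ b)
  have hC0 : (0 : ℚ) ≤ (C : ℚ) := Nat.cast_nonneg _
  obtain ⟨ε, hε, hεx⟩ := COMB_eps (Sum.elim lam
    (fun p : ι' × β => (θ p.1 p.2 - lam p.2) / ((C : ℚ) + 1)))
  have hε1 : ∀ b, 0 < lam b → ε < lam b := fun b hb => hεx (Sum.inl b) hb
  have hε2 : ∀ i b, lam b < θ i b → (C : ℚ) * ε < θ i b - lam b := by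
    intro i b h
    have h1 : 0 < (θ i b - lam b) / ((C : ℚ) + 1) := by
      apply div_pos (by linarith) (by linarith)
    have h2 := hεx (Sum.inr (i, b)) h1
    simp only [Sum.elim_inr] at h2
    rw [lt_div_iff₀ (by linarith)] at h2
    linarith
  have hA0lam : ∀ b, A0 b → 0 < lam b := by
    rintro b ⟨j, hj, hbj⟩
    exact hj.2 b hbj
  set t : β → ℚ := fun b => if A0 b then
      (if Good b then lam b else if Star b then lam b - ε else lam b + (C : ℚ) * ε)
    else (if lam b ≤ 0 then 1 else 0) with ht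
  have hCε : 0 ≤ (C : ℚ) * ε := by positivity
  have ht0 : ∀ b, 0 ≤ t b := by
    intro b
    simp only [ht]
    by_cases h1 : A0 b
    · have h2 := hA0lam b h1
      have h3 := hε1 b h2
      rw [if_pos h1]
      split_ifs
      · exact h2.le
      · linarith
      · linarith
    · rw [if_neg h1]
      split_ifs <;> norm_num
  have htle : ∀ b, A0 b → t b ≤ lam b + (C : ℚ) * ε := by
    intro b h1
    simp only [ht]
    rw [if_pos h1]
    split_ifs
    · linarith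
    · linarith
    · exact le_rfl
  have htgood : ∀ b, A0 b → Good b → t b = lam b := by
    intro b h1 h2
    simp only [ht]
    rw [if_pos h1, if_pos h2]
  have htstar : ∀ b, A0 b → ¬ Good b → Star b → t b = lam b - ε := by
    intro b h1 h2 h3
    simp only [ht]
    rw [if_pos h1, if_neg h2, if_pos h3]
  have htother : ∀ b, A0 b → ¬ Good b → ¬ Star b → t b = lam b + (C : ℚ) * ε := by
    intro b h1 h2 h3
    simp only [ht]
    rw [if_pos h1, if_neg h2, if_neg h3]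
  set D : Finset (Fin n) := univ.filter (fun j => D0 j ∧ ∃ b, A b j ≠ 0 ∧
    (∀ b', b' ≠ b → A b' j = 0) ∧ Good b) with hD
  have hmD : ∀ j, j ∈ D ↔ D0 j ∧ ∃ b, A b j ≠ 0 ∧ (∀ b', b' ≠ b → A b' j = 0) ∧ Good b := by
    intro j
    rw [hD, mem_filter]
    simp
  set two : β → Prop := fun b => ∃ j1 ∈ D, ∃ j2 ∈ D, j1 ≠ j2 ∧ A b j1 ≠ 0 ∧ A b j2 ≠ 0
    with htwo
  set t' : β → ℚ := fun b => if lam b ≤ 0 ∨ two b then 0 else t b with ht'
  have ht't : ∀ b, t' b ≤ t b := by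
    intro b
    simp only [ht']
    split_ifs
    · exact ht0 b
    · exact le_rfl
  set P : Finset (Fin n) := D.filter (fun j => ∀ b, A b j ≠ 0 → ∀ j' ∈ D, A b j' ≠ 0 → j' = j)
    with hP
  -- the main property of the directions of D
  have hDt : ∀ j ∈ D, ∃ b, A b j ≠ 0 ∧ (∀ b', b' ≠ b → A b' j = 0) ∧ Good b ∧
      lam b * (A b j : ℚ) = 1 ∧ t b * (A b j : ℚ) = 1 := by
    intro j hj
    obtain ⟨h0, b, hb1, hb2, hb3⟩ := (hmD j).1 hj
    have h1 := hlam j h0.1
    rw [sum_eq_single_of_mem b (mem_univ b)] at h1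
    · refine ⟨b, hb1, hb2, hb3, h1, ?_⟩
      rw [htgood b ⟨j, h0, hb1⟩ hb3, h1]
    · intro b' _ hb'
      rw [hb2 b' hb']
      simp
  refine ⟨t, t', D, P, filter_subset _ _, ?_, ht0, ?_, ?_, ?_, ?_, ?_⟩
  · intro j hj
    exact ((hmD j).1 hj).1.1
  · -- the sums are at least one
    intro j hj
    by_cases h0 : D0 j
    · have hA0j : ∀ b, A b j ≠ 0 → A0 b := fun b hb => ⟨j, h0, hb⟩
      have hsum := hlam j hj
      obtain ⟨b0, hb0⟩ : ∃ b, A b j ≠ 0 := by
        by_contra hcon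
        push Not at hcon
        rw [sum_eq_zero] at hsum
        · exact absurd hsum (by norm_num)
        · intro b _
          rw [hcon b]
          simp
      have heq : ∀ b, A b j ≠ 0 → Relation.EqvGen Rel b0 b := fun b hb =>
        Relation.EqvGen.rel _ _ ⟨j, h0, hb0, hb⟩
      -- it is enough to look at the differences
      have hgoal : 0 ≤ ∑ b, (t b - lam b) * (A b j : ℚ) → 1 ≤ ∑ b, t b * (A b j : ℚ) := by
        intro h
        have h1 : ∑ b, (t b - lam b) * (A b j : ℚ)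
            = ∑ b, t b * (A b j : ℚ) - ∑ b, lam b * (A b j : ℚ) := by
          rw [← sum_sub_distrib]
          apply sum_congr rfl
          intro b _
          ring
        rw [h1, hsum] at h
        linarith
      apply hgoal
      by_cases hg : Good b0
      · apply le_of_eq
        symm
        apply sum_eq_zero
        intro b _
        by_cases hb : A b j = 0
        · rw [hb]; simp
        · rw [htgood b (hA0j b hb) ((hG1 _ _ (heq b hb)).1 hg)]
          ring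
      · have hng : ∀ b, A b j ≠ 0 → ¬ Good b := fun b hb h => hg ((hG1 _ _ (heq b hb)).2 h)
        by_cases hst : ∃ s, A s j ≠ 0 ∧ Star s
        · obtain ⟨s, hs1, hs2⟩ := hst
          have hother : ∀ b, A b j ≠ 0 → b ≠ s → ¬ Star b := by
            intro b hb hbs hb2
            apply hbs
            apply hG4 b s hb2 hs2
            exact Relation.EqvGen.rel _ _ ⟨j, h0, hb, hs1⟩
          obtain ⟨b', hb's, hb'⟩ : ∃ b', b' ≠ s ∧ A b' j ≠ 0 := by
            by_contra hcon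
            push Not at hcon
            exact hG5 s hs2 ⟨j, h0, hs1, hcon⟩
          rw [← add_sum_erase univ _ (mem_univ s)]
          have h1 : (t s - lam s) * (A s j : ℚ) ≥ -(ε * (C : ℚ)) := by
            rw [htstar s (hA0j s hs1) (hng s hs1) hs2]
            have h2 : (A s j : ℚ) ≤ (C : ℚ) := by exact_mod_cast hAC s j
            have h3 : ε * (A s j : ℚ) ≤ ε * (C : ℚ) := mul_le_mul_of_nonneg_left h2 hε.le
            have h4 : (lam s - ε - lam s) * (A s j : ℚ) = -(ε * (A s j : ℚ)) := by ring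
            rw [h4]
            linarith
          have hterm : ∀ b ∈ univ.erase s, 0 ≤ (t b - lam b) * (A b j : ℚ) := by
            intro b hb
            by_cases hbj : A b j = 0
            · rw [hbj]; simp
            · rw [htother b (hA0j b hbj) (hng b hbj) (hother b hbj (ne_of_mem_erase hb))]
              have : lam b + (C : ℚ) * ε - lam b = (C : ℚ) * ε := by ring
              rw [this]
              positivity
          have h5 : (t b' - lam b') * (A b' j : ℚ) ≤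
              ∑ b ∈ univ.erase s, (t b - lam b) * (A b j : ℚ) :=
            single_le_sum (f := fun b => (t b - lam b) * (A b j : ℚ)) hterm
              (mem_erase.2 ⟨hb's, mem_univ b'⟩)
          have h6 : (C : ℚ) * ε ≤ (t b' - lam b') * (A b' j : ℚ) := by
            rw [htother b' (hA0j b' hb') (hng b' hb') (hother b' hb' hb's)]
            have h7 : (1 : ℚ) ≤ (A b' j : ℚ) := by
              exact_mod_cast Nat.one_le_iff_ne_zero.2 hb'
            have h8 : (C : ℚ) * ε * 1 ≤ (C : ℚ) * ε * (A b' j : ℚ) :=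
              mul_le_mul_of_nonneg_left h7 hCε
            have h9 : (lam b' + (C : ℚ) * ε - lam b') * (A b' j : ℚ)
                = (C : ℚ) * ε * (A b' j : ℚ) := by ring
            rw [h9]
            linarith
          linarith
        · push Not at hst
          apply sum_nonneg
          intro b _
          by_cases hbj : A b j = 0
          · rw [hbj]; simp
          · rw [htother b (hA0j b hbj) (hng b hbj) (hst b hbj)]
            have : lam b + (C : ℚ) * ε - lam b = (C : ℚ) * ε := by ring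
            rw [this]
            positivity
    · obtain ⟨b, hb1, hb2⟩ : ∃ b, A b j ≠ 0 ∧ lam b ≤ 0 := by
        by_contra hcon
        push Not at hcon
        exact h0 ⟨hj, hcon⟩
      have h1 : t b = 1 := by
        simp only [ht]
        rw [if_neg (fun h => absurd (hA0lam b h) (not_lt.2 hb2)), if_pos hb2]
      have h2 : t b * (A b j : ℚ) ≤ ∑ b, t b * (A b j : ℚ) :=
        single_le_sum (f := fun b => t b * (A b j : ℚ))
          (fun b _ => mul_nonneg (ht0 b) (Nat.cast_nonneg _)) (mem_univ b)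
      have h3 : (1 : ℚ) ≤ (A b j : ℚ) := by exact_mod_cast Nat.one_le_iff_ne_zero.2 hb1
      rw [h1, one_mul] at h2
      linarith
  · intro j hj
    obtain ⟨b, h1, h2, -, -, h3⟩ := hDt j hj
    exact ⟨b, h1, h2, h3⟩
  · intro b
    simp only [ht']
    by_cases h : lam b ≤ 0 ∨ two b
    · rw [if_pos h]
      exact Or.inr ⟨rfl, h⟩
    · rw [if_neg h]
      exact Or.inl rfl
  · intro j hj b hb
    obtain ⟨hjD, hjP⟩ := mem_filter.1 hj
    refine ⟨?_, hjP b hb⟩
    obtain ⟨b0, h1, h2, -, -, h3⟩ := hDt j hjD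
    have hbb : b = b0 := by
      by_contra hne
      exact hb (h2 b hne)
    subst hbb
    have h4 : ¬ (lam b ≤ 0 ∨ two b) := by
      rintro (h | ⟨j1, hj1, j2, hj2, hne, ha1, ha2⟩)
      · exact absurd (((hmD j).1 hjD).1.2 b hb) (not_lt.2 h)
      · exact hne ((hjP b hb j1 hj1 ha1).trans (hjP b hb j2 hj2 ha2).symm)
    simp only [ht']
    rw [if_neg h4, h3]
  · intro i hθt hall
    -- (A)
    have hstepA : ∀ b, θ i b ≠ 0 → A0 b ∧ ¬ two b := by
      intro b hb
      have hpos : 0 < θ i b := lt_of_le_of_ne (hθ0 i b) (Ne.symm hb)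
      have h1 := hθt b
      have h2 : ¬ (lam b ≤ 0 ∨ two b) := by
        intro h
        simp only [ht'] at h1
        rw [if_pos h] at h1
        linarith
      push Not at h2
      refine ⟨?_, h2.2⟩
      by_contra hcon
      have h3 : t b = 0 := by
        simp only [ht]
        rw [if_neg hcon, if_neg (not_le.2 h2.1)]
      have h4 := h1.trans (ht't b)
      linarith
    -- (B)
    have hstepB : ∀ j, D0 j → ∀ b, A b j ≠ 0 → θ i b ≠ 0 → ∀ b', A b' j ≠ 0 →
        θ i b' = lam b' := by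
      intro j hj b hbj hb b' hb'j
      have hle : ∀ c, A c j ≠ 0 → θ i c ≤ lam c := by
        intro c hc
        by_contra hcon
        push Not at hcon
        have h1 := hε2 i c hcon
        have h2 := (hθt c).trans (ht't c)
        have h3 := htle c ⟨j, hj, hc⟩
        linarith
      have hpos : 0 < θ i b := lt_of_le_of_ne (hθ0 i b) (Ne.symm hb)
      have h1 : 0 < ∑ c, θ i c * (A c j : ℚ) := by
        have h2 : θ i b * (A b j : ℚ) ≤ ∑ c, θ i c * (A c j : ℚ) :=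
          single_le_sum (f := fun c => θ i c * (A c j : ℚ))
            (fun c _ => mul_nonneg (hθ0 i c) (Nat.cast_nonneg _)) (mem_univ b)
        have h3 : (0 : ℚ) < (A b j : ℚ) := by exact_mod_cast Nat.pos_of_ne_zero hbj
        have h4 : 0 < θ i b * (A b j : ℚ) := mul_pos hpos h3
        linarith
      rw [← haI i j] at h1
      have h2 : (1 : ℚ) ≤ (aI i j : ℚ) := by
        have : 0 < aI i j := by exact_mod_cast h1
        exact_mod_cast this
      have h3 : ∑ c, (lam c - θ i c) * (A c j : ℚ) = 1 - (aI i j : ℚ) := by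
        rw [haI i j, ← hlam j hj.1, ← sum_sub_distrib]
        apply sum_congr rfl
        intro c _
        ring
      have hnn : ∀ c ∈ (univ : Finset β), 0 ≤ (lam c - θ i c) * (A c j : ℚ) := by
        intro c _
        by_cases hc : A c j = 0
        · rw [hc]; simp
        · have := hle c hc
          apply mul_nonneg (by linarith) (Nat.cast_nonneg _)
      have h4 : ∑ c, (lam c - θ i c) * (A c j : ℚ) = 0 := by
        apply le_antisymm _ (sum_nonneg hnn)
        rw [h3]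
        linarith
      have h5 := (sum_eq_zero_iff_of_nonneg hnn).1 h4 b' (mem_univ b')
      have h6 : (A b' j : ℚ) ≠ 0 := by exact_mod_cast hb'j
      have h7 := (mul_eq_zero.1 h5).resolve_right h6
      linarith
    have hB1 : ∀ b, θ i b ≠ 0 → θ i b = lam b := by
      intro b hb
      obtain ⟨⟨j, hj, hbj⟩, -⟩ := hstepA b hb
      exact hstepB j hj b hbj hb b hbj
    -- (C)
    have hstepC1 : ∀ b b', Rel b b' → θ i b ≠ 0 → θ i b' ≠ 0 := by
      rintro b b' ⟨j, hj, hb, hb'⟩ h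
      rw [hstepB j hj b hb h b' hb']
      exact (hj.2 b' hb').ne'
    have hstepC : ∀ b b', Relation.EqvGen Rel b b' → (θ i b ≠ 0 ↔ θ i b' ≠ 0) := by
      intro b b' h
      induction h with
      | rel x y hxy =>
        refine ⟨hstepC1 x y hxy, hstepC1 y x ?_⟩
        obtain ⟨j, hj, h1, h2⟩ := hxy
        exact ⟨j, hj, h2, h1⟩
      | refl x => exact Iff.rfl
      | symm x y _ ih => exact ih.symm
      | trans x y z _ _ ih1 ih2 => exact ih1.trans ih2
    -- (D)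
    have hstepD : ∀ b, θ i b ≠ 0 → Good b := by
      intro b hb
      by_contra hcon
      obtain ⟨s, hs1, hs2⟩ := hG3 b hcon
      have hs3 : ¬ Good s := fun h => hcon ((hG1 _ _ hs1).2 h)
      have hs4 := (hstepC b s hs1).1 hb
      have h1 := htstar s (hstepA s hs4).1 hs3 hs2
      have h2 := (hθt s).trans (ht't s)
      rw [hB1 s hs4] at h2
      linarith
    have hdir : ∀ b, θ i b ≠ 0 → ∃ j ∈ P, D0 j ∧ A b j ≠ 0 ∧ (∀ b', b' ≠ b → A b' j = 0) ∧
        aI i j ≠ 0 ∧ (∀ j' ∈ D, A b j' ≠ 0 → j' = j) ∧ lam b * (A b j : ℚ) = 1 := by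
      intro b hb
      obtain ⟨j, hj1, hj2, hj3⟩ := hG2 b (hstepD b hb)
      have hjD : j ∈ D := (hmD j).2 ⟨hj1, b, hj2, hj3, hstepD b hb⟩
      have huniq : ∀ j' ∈ D, A b j' ≠ 0 → j' = j := by
        intro j' hj' hb'
        by_contra hne
        exact (hstepA b hb).2 ⟨j', hj', j, hjD, hne, hb', hj2⟩
      have h1 := hlam j hj1.1
      rw [sum_eq_single_of_mem b (mem_univ b)
        (fun b' _ hb' => by rw [hj3 b' hb']; simp)] at h1
      refine ⟨j, ?_, hj1, hj2, hj3, ?_, huniq, h1⟩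
      · rw [hP, mem_filter]
        refine ⟨hjD, fun c hc j' hj' hcj' => ?_⟩
        have hcb : c = b := by
          by_contra hne
          exact hc (hj3 c hne)
        rw [hcb] at hcj'
        exact huniq j' hj' hcj'
      · intro h0
        have h2 := haI i j
        rw [h0, sum_eq_single_of_mem b (mem_univ b)
          (fun b' _ hb' => by rw [hj3 b' hb']; simp), hB1 b hb, h1] at h2
        norm_num at h2
    obtain ⟨b, hb⟩ : ∃ b, θ i b ≠ 0 := by
      by_contra hcon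
      push Not at hcon
      have := hθ1 i
      rw [sum_eq_zero (fun b _ => hcon b)] at this
      norm_num at this
    obtain ⟨j, hjP, hj0, hbj, hbu, haj, huniq, hlj⟩ := hdir b hb
    have hsingle : ∀ b', b' ≠ b → θ i b' = 0 := by
      intro b' hne
      by_contra hb'
      obtain ⟨j', hj'P, -, hb'j', -, haj', -, -⟩ := hdir b' hb'
      have h1 : j' = j := hall j' hj'P j hjP haj' haj
      rw [h1] at hb'j'
      exact hb'j' (hbu b' hne)
    have hone : θ i b = 1 := by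
      have := hθ1 i
      rw [sum_eq_single_of_mem b (mem_univ b) (fun b' _ hb' => hsingle b' hb')] at this
      exact this
    have hlam1 : lam b = 1 := by rw [← hB1 b hb, hone]
    have hA1 : A b j = 1 := by
      rw [hlam1, one_mul] at hlj
      exact_mod_cast hlj
    apply hU
    refine ⟨b, j, hj0.1, ⟨hA1, hbu⟩, ?_⟩
    rintro j' hj' ⟨hA1', hbu'⟩
    have hne' : A b j' ≠ 0 := by rw [hA1']; norm_num
    apply huniq j' _ hne'
    rw [hmD]
    refine ⟨⟨hj', ?_⟩, b, hne', hbu', hstepD b hb⟩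
    intro c hc
    have hcb : c = b := by
      by_contra hne
      exact hc (hbu' c hne)
    rw [hcb, hlam1]
    norm_num

end Pool.Agent.H56.T5

end S_COMB

section S_COMBZ

/-!
# COMBZ: the integral data of the slice

Proof.  Apply `comb` with `β = {b // b ∈ σ}`, `ι' = {i // ∑ j, a i j * w j = wmin a w}`, `A b j = a b j`, `C0 = {j : w j ≠ 0 ∧ ∃ i, a i j = 0}`, `lam`, `θ i b = th i b`,
`aI i j = a i j` (`hlam`: `lamj` with `w j ≠ 0`; sums over `σ` and over the subtype: `Finset.sum_coe_sort` or `Finset.sum_attach`).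
`hU`: let `b`, `j ∈ C0` be as in the hypothesis of `hU` of `comb`; then `ApexD a w σ b j`, and for every `j'` with `ApexD a w σ b j'`: if some `a i j' = 0`, then `j' ∈ C0`, so
`j' = j`.  Otherwise all `a i j' ≥ 1`; then `σ = {b}` (`a b' j' = 0` for the other `b'`), `lam b * 1 = 1` (`lamj j'`, `w j' ≠ 0`) and
`lam b = wsum w / wmin a w` (`lams`), so `wsum w = wmin a w`, which contradicts `hs`.  So `UB a w σ` holds, contradiction with `hU`.
From `t, t', D, P` of `comb`: let `m1 > 0` be a common denominator of all `t b`, `t' b` (finitely many; e.g. the product of all denominators), `T b = 2 m1 t b`,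
`T' b = 2 m1 t' b` as integers for `b ∈ σ` (`0` for `b ∉ σ`).
-/

set_option autoImplicit false

namespace Pool.Agent.H56.T5

open Finset AddMonoidAlgebra
open Pool.Agent.H56.SMC Pool.Agent.H37.T5

theorem COMBZ_clear {β : Type} [Fintype β] (f : β → ℚ) :
    ∃ m : ℤ, 0 < m ∧ ∀ b, ∃ z : ℤ, (z : ℚ) = m * f b := by
  classical
  refine ⟨∏ b, ((f b).den : ℤ), Finset.prod_pos fun b _ => by exact_mod_cast (f b).den_pos, ?_⟩
  intro b
  obtain ⟨k, hk⟩ := Finset.dvd_prod_of_mem (fun b => ((f b).den : ℤ)) (Finset.mem_univ b)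
  refine ⟨k * (f b).num, ?_⟩
  rw [hk]
  push_cast
  have := Rat.mul_den_eq_num (f b)
  rw [← this]
  ring

theorem COMBZ_hU {n r : ℕ} (a : Fin r → (Fin n →₀ ℕ)) (w : Fin n → ℕ) (σ : Finset (Fin r))
    (lam : Fin r → ℚ) (mu : Fin n → ℚ) (th : Fin r → Fin r → ℚ) (hR : RD a w σ lam mu th)
    (hs : H22.wsum w ≠ H22.wmin a w) {b : Fin r} (hb : b ∈ σ) {j' : Fin n} (hw : w j' ≠ 0)
    (h1 : a b j' = 1) (h2 : ∀ b' ∈ σ, b' ≠ b → a b' j' = 0) : ∃ i, a i j' = 0 := by
  by_contra hcon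
  push Not at hcon
  have hall : ∀ b' ∈ σ, b' = b := by
    intro b' hb'
    by_contra hne
    exact hcon b' (h2 b' hb' hne)
  have hσ : σ = {b} := by
    ext x
    rw [Finset.mem_singleton]
    exact ⟨hall x, fun h => h ▸ hb⟩
  have e1 := hR.lamj j'
  rw [if_neg hw, add_zero, hσ, Finset.sum_singleton, h1] at e1
  have e2 := hR.lams
  rw [hσ, Finset.sum_singleton] at e2
  have hpos : (0 : ℚ) < (H22.wmin a w : ℚ) := by exact_mod_cast hR.pos
  have e3 : (H22.wsum w : ℚ) / (H22.wmin a w : ℚ) = 1 := by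
    rw [← e2]; simpa using e1
  rw [div_eq_one_iff_eq hpos.ne'] at e3
  exact hs (by exact_mod_cast e3)

/-- COMBZ -/
theorem combZ {n r : ℕ} (a : Fin r → (Fin n →₀ ℕ)) (w : Fin n → ℕ) (σ : Finset (Fin r))
    (lam : Fin r → ℚ) (mu : Fin n → ℚ) (th : Fin r → Fin r → ℚ) (hR : RD a w σ lam mu th)
    (hs : H22.wsum w ≠ H22.wmin a w) (hU : ¬ UB a w σ) :
    ∃ (m1 : ℤ) (D P : Finset (Fin n)) (T T' : Fin r → ℤ), 0 < m1 ∧
      SZ a w σ lam th (2 * m1) D P T T' := by
  classical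
  let β := {b : Fin r // b ∈ σ}
  let ι' := {i : Fin r // ∑ j, a i j * w j = H22.wmin a w}
  let C0 : Finset (Fin n) := univ.filter (fun j => w j ≠ 0 ∧ ∃ i, a i j = 0)
  have hsum : ∀ f : Fin r → ℚ, ∑ b : β, f b.1 = ∑ b ∈ σ, f b := fun f =>
    Finset.sum_coe_sort σ f
  obtain ⟨t, t', D, P, hPD, hDC, ht0, hC, hD, ht', hP, hno⟩ :=
    comb (β := β) (ι' := ι') (fun b j => a b.1 j) C0 (fun b => lam b.1)
      (by
        intro j hj
        have hj' := (Finset.mem_filter.mp hj).2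
        have h1 := hR.lamj j
        rw [if_neg hj'.1, add_zero] at h1
        rw [← h1]
        exact hsum fun b => lam b * (a b j : ℚ))
      (fun i b => th i.1 b.1) (fun i b => hR.th0 i.1 i.2 b.1 b.2)
      (fun i => by rw [← hR.th1 i.1 i.2]; exact hsum fun b => th i.1 b)
      (fun i j => a i.1 j)
      (fun i j => by
        rw [hR.tha i.1 i.2 j]
        exact (hsum fun b => th i.1 b * (a b j : ℚ)).symm)
      (by
        rintro ⟨b, j, hj, ⟨h1, h2⟩, huniq⟩
        apply hU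
        have hj' := (Finset.mem_filter.mp hj).2
        refine ⟨b.1, j, ⟨b.2, hj'.1, h1, fun b' hb' hne => h2 ⟨b', hb'⟩
          (fun h => hne (congrArg Subtype.val h))⟩, ?_⟩
        rintro j' ⟨-, hw', h1', h2'⟩
        have hex := COMBZ_hU a w σ lam mu th hR hs b.2 hw' h1' h2'
        refine huniq j' (Finset.mem_filter.mpr ⟨Finset.mem_univ _, hw', hex⟩) ⟨h1', ?_⟩
        intro b' hb'
        exact h2' b'.1 b'.2 (fun h => hb' (Subtype.ext h)))
  obtain ⟨m1, hm1, hz⟩ := COMBZ_clear (Sum.elim t t')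
  choose z hz using hz
  have hzt : ∀ b : β, ((z (Sum.inl b) : ℤ) : ℚ) = m1 * t b := fun b => hz (Sum.inl b)
  have hzt' : ∀ b : β, ((z (Sum.inr b) : ℤ) : ℚ) = m1 * t' b := fun b => hz (Sum.inr b)
  have hm1q : (0 : ℚ) < (m1 : ℚ) := by exact_mod_cast hm1
  let T : Fin r → ℤ := fun b => if h : b ∈ σ then 2 * z (Sum.inl ⟨b, h⟩) else 0
  let T' : Fin r → ℤ := fun b => if h : b ∈ σ then 2 * z (Sum.inr ⟨b, h⟩) else 0
  have hT : ∀ b : β, ((T b.1 : ℤ) : ℚ) = 2 * m1 * t b := by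
    intro b
    simp only [T]
    rw [dif_pos b.2]
    push_cast
    rw [hzt b]; ring
  have hT' : ∀ b : β, ((T' b.1 : ℤ) : ℚ) = 2 * m1 * t' b := by
    intro b
    simp only [T']
    rw [dif_pos b.2]
    push_cast
    rw [hzt' b]; ring
  refine ⟨m1, D, P, T, T', hm1, ?_⟩
  constructor
  · exact hPD
  · intro j hj
    exact (Finset.mem_filter.mp (hDC hj)).2.1
  · intro b hb
    have h1 : (0 : ℚ) ≤ ((T b : ℤ) : ℚ) := by
      rw [hT ⟨b, hb⟩]
      have := ht0 ⟨b, hb⟩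
      positivity
    exact_mod_cast h1
  · intro j hw hi
    have hj : j ∈ C0 := Finset.mem_filter.mpr ⟨Finset.mem_univ _, hw, hi⟩
    have h1 := hC j hj
    have h2 : ((∑ b ∈ σ, T b * (a b j : ℤ) : ℤ) : ℚ) =
        2 * m1 * ∑ b : β, t b * ((a b.1 j : ℕ) : ℚ) := by
      push_cast
      rw [← hsum fun b => (T b : ℚ) * (a b j : ℚ), Finset.mul_sum]
      refine Finset.sum_congr rfl fun b _ => ?_
      rw [hT b]; ring
    have h3 : ((2 * m1 : ℤ) : ℚ) ≤ ((∑ b ∈ σ, T b * (a b j : ℤ) : ℤ) : ℚ) := by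
      rw [h2]
      push_cast
      nlinarith
    exact_mod_cast h3
  · intro j hj
    obtain ⟨b, h1, h2, h3⟩ := hD j hj
    refine ⟨b.1, b.2, h1, fun b' hb' hne => h2 ⟨b', hb'⟩
      (fun h => hne (congrArg Subtype.val h)), ?_⟩
    have h4 : ((T b.1 * (a b.1 j : ℤ) : ℤ) : ℚ) = ((2 * m1 : ℤ) : ℚ) := by
      push_cast
      rw [hT b]
      calc 2 * (m1 : ℚ) * t b * (a b.1 j : ℚ) = 2 * m1 * (t b * (a b.1 j : ℚ)) := by ring
        _ = 2 * m1 := by rw [h3, mul_one]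
    exact_mod_cast h4
  · intro b hb
    rcases ht' ⟨b, hb⟩ with h | ⟨h, h'⟩
    · left
      have h1 : ((T' b : ℤ) : ℚ) = ((T b : ℤ) : ℚ) := by
        rw [hT' ⟨b, hb⟩, hT ⟨b, hb⟩, h]
      exact_mod_cast h1
    · right
      refine ⟨?_, h'⟩
      have h1 : ((T' b : ℤ) : ℚ) = 0 := by
        rw [hT' ⟨b, hb⟩, h, mul_zero]
      exact_mod_cast h1
  · intro j hj b hb hne
    obtain ⟨h1, h2⟩ := hP j hj ⟨b, hb⟩ hne
    refine ⟨?_, h2⟩
    have h4 : ((T' b * (a b j : ℤ) : ℤ) : ℚ) = ((2 * m1 : ℤ) : ℚ) := by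
      push_cast
      rw [hT' ⟨b, hb⟩]
      calc 2 * (m1 : ℚ) * t' ⟨b, hb⟩ * (a b j : ℚ) = 2 * m1 * (t' ⟨b, hb⟩ * (a b j : ℚ)) := by ring
        _ = 2 * m1 := by rw [h1, mul_one]
    exact_mod_cast h4
  · intro i hi hth
    refine hno ⟨i, hi⟩ fun b => ?_
    have h1 := hth b.1 b.2
    rw [hT' b] at h1
    push_cast at h1
    have h2 : (0 : ℚ) < 2 * m1 := by positivity
    have h3 : th i b.1 * (2 * (m1 : ℚ)) ≤ t' b * (2 * m1) := by linarith
    exact le_of_mul_le_mul_right h3 h2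

end Pool.Agent.H56.T5

end S_COMBZ

section S_RAT

/-!
# RAT: from the real data `FD` to the rational data `RD`

(`H22.rowR a i = (1; a_i)`, `H22.pointR a i = a_i` as real vectors, `eR j = (0; e_j)`, `p0R a w = (|w|/N(w); 1, …, 1)`: unfold.)
Proof.  (1) `ind`: an integral relation between the vectors `(1,0;a_b)`, `(0,0;e_j)` of `Lat (n+2)` gives a real relation with the same integers between `rowR a b` and `eR j`
(compare coordinates), so all coefficients vanish (`Fintype.linearIndependent_iff`).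
(2) By `dual_exists` (`Pool/Agent/H56/SMC/SIMX.lean`) applied to this family `X` over `{b // b ∈ σ} ⊕ {j // w j = 0}` there is `G > 0` and for every index an integral functional `γ_k`
with `dt (γ_k) (X l) = G` if `k = l` and `0` otherwise.
(3) `th i b := dt (γ_b) (vec 1 0 a_i) / G` (for `b ∈ σ`; `0` otherwise).  Let `i` be on the face.  By `conv` there are real `t_b ≥ 0`, `b ∈ σ`, `∑ t_b = 1`,
`a_i = ∑ t_b a_b` (`pointR` on `σ`: `convexHull_image`-style lemmas, `Finset.mem_convexHull_iff_exists_fintype`, `mem_convexHull_of_exists_fintype`,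
`Set.Finite.convexHull_eq`, `Finset.centerMass`; duplicates may be merged; the points `pointR a b`, `b ∈ σ`, are distinct by `ind`).  Then `(1,0;a_i) = ∑ t_b (1,0;a_b)` over `ℝ`;
applying the functional `γ_b` (real extension): `dt (γ_b) (vec 1 0 a_i) = G t_b`.  So `(th i b : ℝ) = t_b`, which gives `th0`, `th1`, `tha` (cast to `ℝ`).
(4) `span`: there are real `l_b`, `m_j` with `p0R a w = ∑ l_b rowR a b + ∑ m_j eR j` (`Submodule.span_union`, `Submodule.mem_span_range_iff_exists_fun`, or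
`Finsupp.mem_span_range_iff_exists_finsupp`, for the family `Sum.elim …`).  Apply `γ_b`: `G l_b = γ_b(p0)` is rational (`p0` has the rational coordinates `|w|/N`, `1`), the same for
`m_j`.  Let `lam b`, `mu j` be these rationals.  `lams`, `lamj`: coordinates of the equation (cast to `ℝ`).
-/

set_option autoImplicit false

namespace Pool.Agent.H56.T5

open Finset AddMonoidAlgebra
open Pool.Agent.H56.SMC Pool.Agent.H37.T5

/-- the index set -/
private abbrev RATS {n r : ℕ} (w : Fin n → ℕ) (σ : Finset (Fin r)) : Type :=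
  {b : Fin r // b ∈ σ} ⊕ {j : Fin n // w j = 0}

/-- the real family -/
private noncomputable def RATR {n r : ℕ} (a : Fin r → (Fin n →₀ ℕ)) (w : Fin n → ℕ)
    (σ : Finset (Fin r)) : RATS w σ → Unit ⊕ Fin n → ℝ :=
  Sum.elim (fun b => H22.rowR a b.1) (fun j => eR j.1)

/-- the integral family -/
private def RATX {n r : ℕ} (a : Fin r → (Fin n →₀ ℕ)) (w : Fin n → ℕ)
    (σ : Finset (Fin r)) : RATS w σ → Lat (n + 2) :=
  Sum.elim (fun b => vec 1 0 (fun j => (a b.1 j : ℤ))) (fun j => vec 0 0 (ev j.1))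

/-- the real functional -/
private def RATρ {n : ℕ} (γ : Lat (n + 2)) (y : Unit ⊕ Fin n → ℝ) : ℝ :=
  (γ 0 : ℝ) * y (Sum.inl ()) + ∑ j : Fin n, (γ j.succ.succ : ℝ) * y (Sum.inr j)

private theorem RAT_sum {n : ℕ} {S : Type} [Fintype S] (γ : Lat (n + 2)) (c : S → ℝ)
    (Y : S → Unit ⊕ Fin n → ℝ) : RATρ γ (∑ s, c s • Y s) = ∑ s, c s * RATρ γ (Y s) := by
  simp only [RATρ, Finset.sum_apply, Pi.smul_apply, smul_eq_mul, mul_add, sum_add_distrib,
    mul_sum]
  congr 1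
  · exact sum_congr rfl fun s _ => by ring
  · rw [sum_comm]
    exact sum_congr rfl fun s _ => sum_congr rfl fun j _ => by ring

private theorem RAT_dt {n : ℕ} (γ : Lat (n + 2)) (l : ℤ) (q : Fin n → ℤ) :
    dt γ (vec l 0 q) = γ 0 * l + ∑ j : Fin n, γ j.succ.succ * q j := by
  conv_lhs => rw [vec_surj γ]
  rw [dt_vec, mul_zero, add_zero]

private theorem RAT_row {n r : ℕ} (a : Fin r → (Fin n →₀ ℕ)) (γ : Lat (n + 2)) (i : Fin r) :
    RATρ γ (H22.rowR a i) = (dt γ (vec 1 0 (fun j => (a i j : ℤ))) : ℝ) := by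
  rw [RAT_dt]
  simp only [RATρ, H22.rowR, Sum.elim_inl, Sum.elim_inr]
  push_cast
  rfl

private theorem RAT_eR {n : ℕ} (γ : Lat (n + 2)) (k : Fin n) :
    RATρ γ (eR k) = (dt γ (vec 0 0 (ev k)) : ℝ) := by
  rw [RAT_dt]
  simp [RATρ, eR, ev, Pi.single_apply]

private theorem RAT_fam {n r : ℕ} (a : Fin r → (Fin n →₀ ℕ)) (w : Fin n → ℕ)
    (σ : Finset (Fin r)) (γ : Lat (n + 2)) (s : RATS w σ) :
    RATρ γ (RATR a w σ s) = (dt γ (RATX a w σ s) : ℝ) := by
  rcases s with b | j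
  · exact RAT_row a γ b.1
  · exact RAT_eR γ j.1

private theorem RAT_coord {n r : ℕ} (a : Fin r → (Fin n →₀ ℕ)) (w : Fin n → ℕ)
    (σ : Finset (Fin r)) (s : RATS w σ) :
    (RATR a w σ s (Sum.inl ()) = ((RATX a w σ s 0 : ℤ) : ℝ)) ∧
      ∀ j : Fin n, RATR a w σ s (Sum.inr j) = ((RATX a w σ s j.succ.succ : ℤ) : ℝ) := by
  rcases s with b | k
  · refine ⟨?_, fun j => ?_⟩
    · simp [RATR, RATX, H22.rowR, vec]
    · simp [RATR, RATX, H22.rowR, vec]
  · refine ⟨?_, fun j => ?_⟩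
    · simp [RATR, RATX, eR, vec]
    · simp [RATR, RATX, eR, vec, ev, Pi.single_apply]

private theorem RAT_ind {n r : ℕ} (a : Fin r → (Fin n →₀ ℕ)) (w : Fin n → ℕ)
    (σ : Finset (Fin r)) (h : LinearIndependent ℝ (RATR a w σ)) :
    LinearIndependent ℤ (RATX a w σ) := by
  rw [Fintype.linearIndependent_iff] at h ⊢
  intro g hg s
  have h1 : ∑ s, (g s : ℝ) • RATR a w σ s = 0 := by
    funext y
    rw [Finset.sum_apply]
    rcases y with u | j
    · have h2 := congrFun hg 0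
      rw [Finset.sum_apply] at h2
      simp only [Pi.smul_apply, smul_eq_mul, Pi.zero_apply] at h2 ⊢
      have h3 : ∑ s, (g s : ℝ) * RATR a w σ s (Sum.inl u) =
          ((∑ s, g s * RATX a w σ s 0 : ℤ) : ℝ) := by
        push_cast
        exact sum_congr rfl fun s _ => by rw [(RAT_coord a w σ s).1]
      rw [h3, h2, Int.cast_zero]
    · have h2 := congrFun hg j.succ.succ
      rw [Finset.sum_apply] at h2
      simp only [Pi.smul_apply, smul_eq_mul, Pi.zero_apply] at h2 ⊢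
      have h3 : ∑ s, (g s : ℝ) * RATR a w σ s (Sum.inr j) =
          ((∑ s, g s * RATX a w σ s j.succ.succ : ℤ) : ℝ) := by
        push_cast
        exact sum_congr rfl fun s _ => by rw [(RAT_coord a w σ s).2 j]
      rw [h3, h2, Int.cast_zero]
  exact_mod_cast h (fun s => (g s : ℝ)) h1 s

/-- RAT -/
theorem rat {n r : ℕ} (a : Fin r → (Fin n →₀ ℕ)) (w : Fin n → ℕ) (σ : Finset (Fin r))
    (hF : FD a w σ) :
    ∃ (lam : Fin r → ℚ) (mu : Fin n → ℚ) (th : Fin r → Fin r → ℚ), RD a w σ lam mu th := by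
  classical
  have hindR : LinearIndependent ℝ (RATR a w σ) := hF.ind
  have hindX : LinearIndependent ℤ (RATX a w σ) := RAT_ind a w σ hindR
  obtain ⟨D, hD, hdual⟩ := SIMXaux.dual_exists (RATX a w σ) hindX
  choose γ hγ using fun s : RATS w σ => hdual (Pi.single s 1)
  have hDR : (D : ℝ) ≠ 0 := by exact_mod_cast hD.ne'
  have hDQ : (D : ℚ) ≠ 0 := by exact_mod_cast hD.ne'
  have hγR : ∀ s t, RATρ (γ s) (RATR a w σ t) = if t = s then (D : ℝ) else 0 := by
    intro s t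
    rw [RAT_fam, hγ s t, Pi.single_apply]
    split_ifs <;> simp
  -- the coefficients
  have hcoef : ∀ (c : RATS w σ → ℝ) (s : RATS w σ),
      RATρ (γ s) (∑ t, c t • RATR a w σ t) = D * c s := by
    intro c s
    rw [RAT_sum]
    simp only [hγR]
    simp [mul_comm]
  -- the functions
  set th : Fin r → Fin r → ℚ := fun i b =>
    if h : b ∈ σ then ((dt (γ (Sum.inl ⟨b, h⟩)) (vec 1 0 (fun j => (a i j : ℤ))) : ℤ) : ℚ) / D
    else 0 with hth
  set pQ : Lat (n + 2) → ℚ := fun g =>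
    (g 0 : ℚ) * ((H22.wsum w : ℚ) / (H22.wmin a w : ℚ)) + ∑ j : Fin n, (g j.succ.succ : ℚ) with hpQ
  have hpR : ∀ g, RATρ g (p0R a w) = ((pQ g : ℚ) : ℝ) := by
    intro g
    simp only [RATρ, p0R, Sum.elim_inl, Sum.elim_inr, hpQ, mul_one]
    push_cast
    rfl
  set lam : Fin r → ℚ := fun b => if h : b ∈ σ then pQ (γ (Sum.inl ⟨b, h⟩)) / D else 0 with hlam
  set mu : Fin n → ℚ := fun j => if h : w j = 0 then pQ (γ (Sum.inr ⟨j, h⟩)) / D else 0 with hmu
  -- conv
  have hconv : ∀ i, ∑ j, a i j * w j = H22.wmin a w → ∃ t : {b : Fin r // b ∈ σ} → ℝ,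
      (∀ b, 0 ≤ t b) ∧ ∑ b, t b = 1 ∧ H22.rowR a i = ∑ b, t b • H22.rowR a b.1 := by
    intro i hi
    obtain ⟨ι, _, c, z, h0, h1, hz, hx⟩ := mem_convexHull_iff_exists_fintype.1 (hF.conv i hi)
    have hz' : ∀ k, ∃ b : {b : Fin r // b ∈ σ}, H22.pointR a b.1 = z k := by
      intro k
      obtain ⟨b, hb, hbz⟩ := hz k
      exact ⟨⟨b, hb⟩, hbz⟩
    choose f hf using hz'
    have hfib : ∀ F : {b : Fin r // b ∈ σ} → ℝ,
        ∑ b, (∑ k ∈ univ.filter (fun k => f k = b), c k) * F b = ∑ k, c k * F (f k) := by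
      intro F
      simp only [sum_mul]
      rw [← Finset.sum_fiberwise univ f (fun k => c k * F (f k))]
      refine sum_congr rfl fun b _ => sum_congr rfl fun k hk => ?_
      rw [(mem_filter.1 hk).2]
    refine ⟨fun b => ∑ k ∈ univ.filter (fun k => f k = b), c k,
      fun b => sum_nonneg fun k _ => h0 k, ?_, ?_⟩
    · have h2 := hfib (fun _ => 1)
      simp only [mul_one] at h2
      rw [h2, h1]
    · funext y
      rw [Finset.sum_apply]
      simp only [Pi.smul_apply, smul_eq_mul]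
      rcases y with u | j
      · rw [hfib (fun b => H22.rowR a b.1 (Sum.inl u))]
        simp only [H22.rowR, Sum.elim_inl, mul_one]
        exact h1.symm
      · rw [hfib (fun b => H22.rowR a b.1 (Sum.inr j))]
        have h3 := congrFun hx j
        rw [Finset.sum_apply] at h3
        simp only [H22.rowR, Sum.elim_inr]
        have h4 : (a i j : ℝ) = H22.pointR a i j := rfl
        rw [h4, ← h3]
        refine sum_congr rfl fun k _ => ?_
        rw [Pi.smul_apply, smul_eq_mul, ← hf k]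
        rfl
  have hthR : ∀ i, ∑ j, a i j * w j = H22.wmin a w → ∃ t : {b : Fin r // b ∈ σ} → ℝ,
      (∀ b, 0 ≤ t b) ∧ ∑ b, t b = 1 ∧ H22.rowR a i = ∑ b, t b • H22.rowR a b.1 ∧
      ∀ b : {b : Fin r // b ∈ σ}, ((th i b.1 : ℚ) : ℝ) = t b := by
    intro i hi
    obtain ⟨t, h0, h1, h2⟩ := hconv i hi
    refine ⟨t, h0, h1, h2, fun b => ?_⟩
    have h3 := hcoef (Sum.elim t (fun _ => 0)) (Sum.inl b)
    have h4 : ∑ s, (Sum.elim t (fun _ => 0) : RATS w σ → ℝ) s • RATR a w σ s = H22.rowR a i := by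
      rw [Fintype.sum_sum_type, h2]
      simp [RATR]
    rw [h4, RAT_row] at h3
    simp only [hth, dif_pos b.2]
    push_cast
    rw [Sum.elim_inl] at h3
    rw [h3]
    field_simp
  -- span
  have hspan : ∃ c : RATS w σ → ℝ, p0R a w = ∑ s, c s • RATR a w σ s := by
    have h1 := hF.span
    have h2 : ({y | ∃ b ∈ σ, y = H22.rowR a b} ∪ {y | ∃ j, w j = 0 ∧ y = eR j} :
        Set (Unit ⊕ Fin n → ℝ)) = Set.range (RATR a w σ) := by
      ext y
      constructor
      · rintro (⟨b, hb, rfl⟩ | ⟨j, hj, rfl⟩)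
        · exact ⟨Sum.inl ⟨b, hb⟩, rfl⟩
        · exact ⟨Sum.inr ⟨j, hj⟩, rfl⟩
      · rintro ⟨s, rfl⟩
        rcases s with b | j
        · exact Or.inl ⟨b.1, b.2, rfl⟩
        · exact Or.inr ⟨j.1, j.2, rfl⟩
    rw [h2, Submodule.mem_span_range_iff_exists_fun] at h1
    obtain ⟨c, hc⟩ := h1
    exact ⟨c, hc.symm⟩
  obtain ⟨c, hc⟩ := hspan
  have hlamc : ∀ b : {b : Fin r // b ∈ σ}, ((lam b.1 : ℚ) : ℝ) = c (Sum.inl b) := by
    intro b
    have h3 := hcoef c (Sum.inl b)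
    rw [← hc, hpR] at h3
    simp only [hlam, dif_pos b.2]
    push_cast
    rw [h3]
    field_simp
  have hmuc : ∀ j : {j : Fin n // w j = 0}, ((mu j.1 : ℚ) : ℝ) = c (Sum.inr j) := by
    intro j
    have h3 := hcoef c (Sum.inr j)
    rw [← hc, hpR] at h3
    simp only [hmu, dif_pos j.2]
    push_cast
    rw [h3]
    field_simp
  refine ⟨lam, mu, th, hF.pos, hF.on, hindX, ?_, ?_, ?_, ?_, ?_⟩
  · intro i hi b hb
    obtain ⟨t, h0, -, -, h3⟩ := hthR i hi
    have h4 := h3 ⟨b, hb⟩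
    have h5 := h0 ⟨b, hb⟩
    rw [← h4] at h5
    exact_mod_cast h5
  · intro i hi
    obtain ⟨t, -, h1, -, h3⟩ := hthR i hi
    have h4 : ((∑ b ∈ σ, th i b : ℚ) : ℝ) = 1 := by
      push_cast
      rw [← Finset.sum_coe_sort σ (fun b => ((th i b : ℚ) : ℝ)), ← h1]
      exact sum_congr rfl fun b _ => h3 b
    exact_mod_cast h4
  · intro i hi j
    obtain ⟨t, -, -, h2, h3⟩ := hthR i hi
    have h5 := congrFun h2 (Sum.inr j)
    rw [Finset.sum_apply] at h5
    simp only [Pi.smul_apply, smul_eq_mul, H22.rowR, Sum.elim_inr] at h5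
    have h4 : ((a i j : ℚ) : ℝ) = ((∑ b ∈ σ, th i b * (a b j : ℚ) : ℚ) : ℝ) := by
      push_cast
      rw [← Finset.sum_coe_sort σ (fun b => ((th i b : ℚ) : ℝ) * (a b j : ℝ)), h5]
      exact sum_congr rfl fun b _ => by rw [h3 b]
    exact_mod_cast h4
  · have h5 := congrFun hc (Sum.inl ())
    rw [Finset.sum_apply, Fintype.sum_sum_type] at h5
    simp only [Pi.smul_apply, smul_eq_mul, RATR, Sum.elim_inl, Sum.elim_inr, H22.rowR, eR, p0R,
      mul_one, mul_zero, sum_const_zero, add_zero] at h5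
    have h4 : ((∑ b ∈ σ, lam b : ℚ) : ℝ) =
        (((H22.wsum w : ℚ) / (H22.wmin a w : ℚ) : ℚ) : ℝ) := by
      push_cast
      rw [← Finset.sum_coe_sort σ (fun b => ((lam b : ℚ) : ℝ)), h5]
      exact sum_congr rfl fun b _ => hlamc b
    exact_mod_cast h4
  · intro j
    have h5 := congrFun hc (Sum.inr j)
    rw [Finset.sum_apply, Fintype.sum_sum_type] at h5
    simp only [Pi.smul_apply, smul_eq_mul, RATR, Sum.elim_inl, Sum.elim_inr, H22.rowR, eR,
      p0R] at h5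
    have h6 : ∑ k : {j : Fin n // w j = 0}, c (Sum.inr k) * (Pi.single k.1 (1 : ℝ) : Fin n → ℝ) j =
        if w j = 0 then ((mu j : ℚ) : ℝ) else 0 := by
      by_cases hj : w j = 0
      · rw [if_pos hj, Finset.sum_eq_single (⟨j, hj⟩ : {j : Fin n // w j = 0})]
        · rw [Pi.single_eq_same, mul_one, ← hmuc]
        · intro k _ hk
          rw [Pi.single_apply, if_neg, mul_zero]
          intro h
          exact hk (Subtype.ext h.symm)
        · intro h
          exact absurd (mem_univ _) h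
      · rw [if_neg hj]
        refine sum_eq_zero fun k _ => ?_
        rw [Pi.single_apply, if_neg, mul_zero]
        intro h
        exact hj (h ▸ k.2)
    rw [h6] at h5
    have h4 : ((∑ b ∈ σ, lam b * (a b j : ℚ) + (if w j = 0 then mu j else 0) : ℚ) : ℝ) =
        ((1 : ℚ) : ℝ) := by
      push_cast
      rw [← Finset.sum_coe_sort σ (fun b => ((lam b : ℚ) : ℝ) * (a b j : ℝ)), h5]
      congr 1
      · exact sum_congr rfl fun b _ => by rw [hlamc b]
      · split_ifs <;> simp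
    exact_mod_cast h4

end Pool.Agent.H56.T5

end S_RAT

section S_GDX

/-!
# GDX: the dual functionals of the generators

Proof.  (1) The vectors `A5 a M (XT w σ τ)`, `τ : TT w σ`, i.e. `(1,0;a_b)`, `(0,1;0)`, `(0,1;M e_j)` (`w_j = 0`), are linearly independent over `ℤ`: in a relation with coefficients
`n_b, n_0, n_j` all coordinates except the second give a relation between `(1,0;a_b)` and `(0,0;e_j)` with coefficients `n_b`, `M n_j`, so `n_b = 0`, `n_j = 0` (`hR.ind`); then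
`n_0 = 0`.  `dual_exists` gives `G > 0` and `γ` with `dual`.
(2) `gen`: `dt (h5 a w)` of `(1,0;a_b)` is `-N + ∑ w_j a_bj = 0` (`hR.on`), of `(0,1;0)` is `0`, of `(0,1;M e_j)` is `M w_j = 0`.
(3) `face`: an exponent with `dt (h5 a w) = 0` is `(1,0;a_i)` with `∑ a_ij w_j = N`, or `(0,1;0)`, or `(0,1;M e_j)` with `w_j = 0`.  The last two are generators: `dual`.  For the first
`dt g (1,0;a_i) = ∑ b ∈ σ, th i b * dt g (1,0;a_b)` over `ℚ` for all `g` (`th1`, `tha`), so `dt (γ (inl b)) (1,0;a_i) = G * th i b ≥ 0` (this is `thb`), `dt (γ (inr _)) (1,0;a_i) = 0`, and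
the formula for `G • A5 a M i` (compare coordinates over `ℚ`).
(4) `q (inl b) = lam b`, `q (inr none) = -I - ∑_{w_j=0} mu_j / M`, `q (inr (some j)) = mu_j / M`.  With `g = vec l l2 v`: `pv (pp s0 I) g = -(l s0) - l2 I + ∑ v_j` (`pv_pp`,
`vec_surj`), and `∑ q τ * dt g (…) = ∑_b lam b (l + ∑_j v_j a_bj) + ∑_{w_j=0} (mu_j/M) (l2 + M v_j) + (-I - ∑ mu_j/M) l2
= l * (∑_b lam b) + ∑_j v_j (∑_b lam b a_bj + [w_j=0] mu_j) - I l2 = l * (wsum w / wmin a w) + ∑ v_j - I l2`.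
-/

set_option autoImplicit false

namespace Pool.Agent.H56.T5

open Finset AddMonoidAlgebra
open Pool.Agent.H56.SMC Pool.Agent.H37.T5

private theorem GDX_vec0 {n : ℕ} (l l2 : ℤ) (q : Fin n → ℤ) : vec l l2 q 0 = l := rfl
private theorem GDX_vec1 {n : ℕ} (l l2 : ℤ) (q : Fin n → ℤ) : vec l l2 q (Fin.succ 0) = l2 := rfl
private theorem GDX_vec2 {n : ℕ} (l l2 : ℤ) (q : Fin n → ℤ) (j : Fin n) :
    vec l l2 q j.succ.succ = q j := rfl

private theorem GDX_dt1 {n r : ℕ} (a : Fin r → (Fin n →₀ ℕ)) (M : ℤ) (g : Lat (n + 2)) (i : Fin r) :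
    dt g (A5 a M (Sum.inl i)) = g 0 + ∑ j, g j.succ.succ * (a i j : ℤ) := by
  rw [A5_inl]
  conv_lhs => rw [vec_surj g]
  rw [dt_vec]
  ring

private theorem GDX_dt2 {n r : ℕ} (a : Fin r → (Fin n →₀ ℕ)) (M : ℤ) (g : Lat (n + 2)) :
    dt g (A5 a M (Sum.inr (Sum.inl none))) = g (Fin.succ 0) := by
  rw [A5_none]
  conv_lhs => rw [vec_surj g]
  rw [dt_vec]
  simp

private theorem GDX_dt3 {n r : ℕ} (a : Fin r → (Fin n →₀ ℕ)) (M : ℤ) (g : Lat (n + 2)) (j : Fin n) :
    dt g (A5 a M (Sum.inr (Sum.inl (some j)))) = g (Fin.succ 0) + M * g j.succ.succ := by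
  rw [A5_some]
  conv_lhs => rw [vec_surj g]
  rw [dt_vec]
  simp [ev, Pi.single_apply]
  ring

private theorem GDX_indep {n r : ℕ} (a : Fin r → (Fin n →₀ ℕ)) (M : ℤ) (hM : 0 < M) (w : Fin n → ℕ)
    (σ : Finset (Fin r))
    (hi : LinearIndependent ℤ (Sum.elim
    (fun b : {b : Fin r // b ∈ σ} => (vec 1 0 (fun j => (a b.1 j : ℤ)) : Lat (n + 2)))
    (fun j : {j : Fin n // w j = 0} => (vec 0 0 (ev j.1) : Lat (n + 2))))) :
    LinearIndependent ℤ (fun τ : TT w σ => A5 a M (XT w σ τ)) := by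
  rw [Fintype.linearIndependent_iff] at hi ⊢
  intro m hm
  rw [Fintype.sum_sum_type, Fintype.sum_option] at hm
  have c0 := congrFun hm 0
  have c1 := congrFun hm (Fin.succ 0)
  have c2 : ∀ j : Fin n, _ := fun j => congrFun hm j.succ.succ
  simp only [XT, A5_inl, A5_none, A5_some, Pi.add_apply, Finset.sum_apply, Pi.smul_apply, GDX_vec0,
    smul_eq_mul, mul_one, mul_zero, add_zero, Finset.sum_const_zero, Pi.zero_apply] at c0
  simp only [XT, A5_inl, A5_none, A5_some, Pi.add_apply, Finset.sum_apply, Pi.smul_apply, GDX_vec1,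
    smul_eq_mul, mul_one, mul_zero, zero_add, Finset.sum_const_zero, Pi.zero_apply] at c1
  simp only [XT, A5_inl, A5_none, A5_some, Pi.add_apply, Finset.sum_apply, Pi.smul_apply, GDX_vec2,
    smul_eq_mul, mul_zero, zero_add, Pi.zero_apply] at c2
  have h1 := hi (Sum.elim (fun b => m (Sum.inl b)) (fun j => M * m (Sum.inr (some j)))) (by
    rw [Fintype.sum_sum_type]
    funext i
    refine Fin.cases ?_ (fun i => Fin.cases ?_ (fun i => ?_) i) i
    · simp only [Sum.elim_inl, Sum.elim_inr, Pi.add_apply, Finset.sum_apply, Pi.smul_apply, GDX_vec0,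
        smul_eq_mul, mul_one, mul_zero, add_zero, Finset.sum_const_zero, Pi.zero_apply]
      exact c0
    · simp only [Sum.elim_inl, Sum.elim_inr, Pi.add_apply, Finset.sum_apply, Pi.smul_apply, GDX_vec1,
        smul_eq_mul, mul_zero, add_zero, Finset.sum_const_zero, Pi.zero_apply]
    · simp only [Sum.elim_inl, Sum.elim_inr, Pi.add_apply, Finset.sum_apply, Pi.smul_apply, GDX_vec2,
        smul_eq_mul, Pi.zero_apply]
      rw [← c2 i]
      congr 1
      refine Finset.sum_congr rfl fun j _ => ?_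
      ring)
  have hb : ∀ b, m (Sum.inl b) = 0 := fun b => h1 (Sum.inl b)
  have hj : ∀ j, m (Sum.inr (some j)) = 0 := fun j => by
    have h2 : M * m (Sum.inr (some j)) = 0 := h1 (Sum.inr j)
    exact (mul_eq_zero.1 h2).resolve_left hM.ne'
  have h0 : m (Sum.inr none) = 0 := by
    have h2 : ∑ x : {j : Fin n // w j = 0}, m (Sum.inr (some x)) = 0 :=
      Finset.sum_eq_zero fun j _ => hj j
    rw [h2, add_zero] at c1
    exact c1
  rintro (b | _ | j)
  · exact hb b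
  · exact h0
  · exact hj j

/-- GDX -/
theorem gdX {n r : ℕ} (a : Fin r → (Fin n →₀ ℕ)) (M : ℤ) (hM : 0 < M) (w : Fin n → ℕ)
    (σ : Finset (Fin r)) (lam : Fin r → ℚ) (mu : Fin n → ℚ) (th : Fin r → Fin r → ℚ)
    (hR : RD a w σ lam mu th) :
    ∃ (G : ℤ) (γ : TT w σ → Lat (n + 2)) (q : TT w σ → ℂ), GD a M w σ lam th G γ q := by
  classical
  obtain ⟨D, hD, hdual⟩ := SIMXaux.dual_exists _ (GDX_indep a M hM w σ hR.ind)
  choose G hG using hdual
  set γ : TT w σ → Lat (n + 2) := fun τ => G (Pi.single τ 1) with hγ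
  have dual : ∀ τ τ', dt (γ τ) (A5 a M (XT w σ τ')) = if τ = τ' then D else 0 := by
    intro τ τ'
    have h1 := hG (Pi.single τ 1) τ'
    rw [hγ]
    simp only
    rw [h1, Pi.single_apply]
    by_cases h : τ = τ'
    · simp [h]
    · have h' : ¬ (τ' = τ) := fun e => h e.symm
      simp [h, h']
  have gen : ∀ τ, dt (h5 a w) (A5 a M (XT w σ τ)) = 0 := by
    rintro (b | _ | j)
    · show dt (h5 a w) (A5 a M (Sum.inl b.1)) = 0
      rw [GDX_dt1]
      have h1 := hR.on b.1 b.2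
      have h2 : ∑ j, (h5 a w) j.succ.succ * (a b.1 j : ℤ) = (H22.wmin a w : ℤ) := by
        rw [← h1]
        push_cast
        refine Finset.sum_congr rfl fun j _ => ?_
        show (w j : ℤ) * _ = _
        ring
      rw [h2]
      show -(H22.wmin a w : ℤ) + _ = 0
      ring
    · show dt (h5 a w) (A5 a M (Sum.inr (Sum.inl none))) = 0
      rw [GDX_dt2]
      rfl
    · show dt (h5 a w) (A5 a M (Sum.inr (Sum.inl (some j.1)))) = 0
      rw [GDX_dt3]
      show (0 : ℤ) + M * (w j.1 : ℤ) = 0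
      rw [j.2]
      simp
  -- the exponents on the face
  have hth : ∀ i, ∑ j, a i j * w j = H22.wmin a w → ∀ g : Lat (n + 2),
      (dt g (A5 a M (Sum.inl i)) : ℚ) = ∑ b ∈ σ, th i b * (dt g (A5 a M (Sum.inl b)) : ℚ) := by
    intro i hi g
    simp only [GDX_dt1]
    push_cast
    have h1 : ∀ j, (g j.succ.succ : ℚ) * (a i j : ℚ) = ∑ b ∈ σ, th i b * ((g j.succ.succ : ℚ) * (a b j : ℚ)) := by
      intro j
      rw [hR.tha i hi j, Finset.mul_sum]
      refine Finset.sum_congr rfl fun b _ => ?_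
      ring
    have h2 : (g 0 : ℚ) = ∑ b ∈ σ, th i b * (g 0 : ℚ) := by
      rw [← Finset.sum_mul, hR.th1 i hi, one_mul]
    rw [Finset.sum_congr rfl (fun j _ => h1 j), Finset.sum_comm]
    conv_lhs => rw [h2]
    rw [← Finset.sum_add_distrib]
    refine Finset.sum_congr rfl fun b _ => ?_
    rw [← Finset.mul_sum]
    ring
  have thb : ∀ i, ∑ j, a i j * w j = H22.wmin a w → ∀ b : {b : Fin r // b ∈ σ},
      (dt (γ (Sum.inl b)) (A5 a M (Sum.inl i)) : ℚ) = (D : ℚ) * th i b.1 := by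
    intro i hi b
    rw [hth i hi]
    rw [Finset.sum_eq_single b.1]
    · have h1 := dual (Sum.inl b) (Sum.inl b)
      rw [if_pos rfl] at h1
      have h2 : dt (γ (Sum.inl b)) (A5 a M (Sum.inl b.1)) = D := h1
      rw [h2]
      ring
    · intro b' hb' hne
      have h1 := dual (Sum.inl b) (Sum.inl ⟨b', hb'⟩)
      rw [if_neg (fun h => hne (by
        have := Sum.inl.inj h
        exact (congrArg Subtype.val this).symm))] at h1
      have h2 : dt (γ (Sum.inl b)) (A5 a M (Sum.inl b')) = 0 := h1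
      rw [h2]
      simp
    · intro h
      exact absurd b.2 h
  have thn : ∀ i, ∑ j, a i j * w j = H22.wmin a w → ∀ o,
      dt (γ (Sum.inr o)) (A5 a M (Sum.inl i)) = 0 := by
    intro i hi o
    have h1 := hth i hi (γ (Sum.inr o))
    have h2 : ∑ b ∈ σ, th i b * (dt (γ (Sum.inr o)) (A5 a M (Sum.inl b)) : ℚ) = 0 := by
      refine Finset.sum_eq_zero fun b hb => ?_
      have h3 := dual (Sum.inr o) (Sum.inl ⟨b, hb⟩)
      rw [if_neg (fun h => by simp at h)] at h3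
      have h4 : dt (γ (Sum.inr o)) (A5 a M (Sum.inl b)) = 0 := h3
      rw [h4]
      simp
    rw [h2] at h1
    exact_mod_cast h1
  -- the generators
  have hX : ∀ τ₀ : TT w σ, (∀ τ, 0 ≤ dt (γ τ) (A5 a M (XT w σ τ₀))) ∧
      D • A5 a M (XT w σ τ₀) = ∑ τ, dt (γ τ) (A5 a M (XT w σ τ₀)) • A5 a M (XT w σ τ) := by
    intro τ₀
    refine ⟨fun τ => ?_, ?_⟩
    · rw [dual]
      split_ifs
      · exact hD.le
      · exact le_refl _
    · rw [Finset.sum_eq_single τ₀]
      · rw [dual, if_pos rfl]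
      · intro τ _ hne
        rw [dual, if_neg hne, zero_smul]
      · intro h
        exact absurd (Finset.mem_univ _) h
  have face : ∀ i, dt (h5 a w) (A5 a M i) = 0 → (∀ τ, 0 ≤ dt (γ τ) (A5 a M i)) ∧
      D • A5 a M i = ∑ τ, dt (γ τ) (A5 a M i) • A5 a M (XT w σ τ) := by
    rintro (i | (_ | j) | k) hi
    · have hi' : ∑ j, a i j * w j = H22.wmin a w := by
        rw [GDX_dt1] at hi
        have h2 : ∑ j, (h5 a w) j.succ.succ * (a i j : ℤ) = ((∑ j, a i j * w j : ℕ) : ℤ) := by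
          push_cast
          refine Finset.sum_congr rfl fun j _ => ?_
          show (w j : ℤ) * _ = _
          ring
        rw [h2] at hi
        have h3 : -(H22.wmin a w : ℤ) + ((∑ j, a i j * w j : ℕ) : ℤ) = 0 := hi
        have h4 : ((∑ j, a i j * w j : ℕ) : ℤ) = (H22.wmin a w : ℤ) := by linarith
        exact_mod_cast h4
      have hDQ : (0 : ℚ) < D := by exact_mod_cast hD
      refine ⟨?_, ?_⟩
      · rintro (b | o)
        · have h1 := thb i hi' b
          have h2 := mul_nonneg hDQ.le (hR.th0 i hi' b.1 b.2)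
          rw [← h1] at h2
          exact_mod_cast h2
        · rw [thn i hi' o]
      · rw [Fintype.sum_sum_type]
        have h1 : ∑ o : Option {j : Fin n // w j = 0},
            dt (γ (Sum.inr o)) (A5 a M (Sum.inl i)) • A5 a M (XT w σ (Sum.inr o)) = 0 :=
          Finset.sum_eq_zero fun o _ => by rw [thn i hi' o, zero_smul]
        rw [h1, add_zero]
        have key : ∀ x : Fin (n + 2), ((D : ℚ) * (A5 a M (Sum.inl i) x : ℚ)) =
            ∑ b : {b : Fin r // b ∈ σ}, (dt (γ (Sum.inl b)) (A5 a M (Sum.inl i)) : ℚ) *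
              (A5 a M (Sum.inl b.1) x : ℚ) := by
          intro x
          have h2 := hth i hi' (ev x)
          simp only [dt_ev] at h2
          rw [h2, Finset.mul_sum, ← Finset.sum_coe_sort σ
            (fun b => (D : ℚ) * (th i b * (A5 a M (Sum.inl b) x : ℚ)))]
          refine Finset.sum_congr rfl fun b _ => ?_
          rw [thb i hi' b]
          ring
        funext x
        have h3 := key x
        rw [Finset.sum_apply]
        simp only [Pi.smul_apply, smul_eq_mul]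
        exact_mod_cast h3
    · exact hX (Sum.inr none)
    · have hj : w j = 0 := by
        rw [GDX_dt3] at hi
        have h2 : (0 : ℤ) + M * (w j : ℤ) = 0 := hi
        rw [zero_add] at h2
        have h3 := (mul_eq_zero.1 h2).resolve_left hM.ne'
        exact_mod_cast h3
      exact hX (Sum.inr (some ⟨j, hj⟩))
    · exact k.elim0
  -- the parameter
  have hMC : (M : ℂ) ≠ 0 := by exact_mod_cast hM.ne'
  set S : ℂ := ∑ j : {j : Fin n // w j = 0}, (mu j.1 : ℂ) / (M : ℂ) with hS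
  refine ⟨D, γ, fun τ => match τ with
    | Sum.inl b => (lam b.1 : ℂ)
    | Sum.inr none => -Complex.I - S
    | Sum.inr (some j) => (mu j.1 : ℂ) / (M : ℂ), hD, dual, gen, face, ?_, fun _ => rfl, thb⟩
  intro g
  rw [Fintype.sum_sum_type, Fintype.sum_option]
  simp only [XT, GDX_dt1, GDX_dt2, GDX_dt3]
  conv_lhs => rw [vec_surj g]
  rw [pv_pp]
  push_cast
  have hlam : ∑ b : {b : Fin r // b ∈ σ}, (lam b.1 : ℂ) = (H22.wsum w : ℂ) / (H22.wmin a w : ℂ) := by
    rw [Finset.sum_coe_sort σ (fun b => (lam b : ℂ))]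
    have h1 := congrArg (fun x : ℚ => (x : ℂ)) hR.lams
    push_cast at h1
    exact h1
  have hlamj : ∀ j, ∑ b : {b : Fin r // b ∈ σ}, (lam b.1 : ℂ) * (a b.1 j : ℂ) +
      (if w j = 0 then (mu j : ℂ) else 0) = 1 := by
    intro j
    rw [Finset.sum_coe_sort σ (fun b => (lam b : ℂ) * (a b j : ℂ))]
    have h1 := congrArg (fun x : ℚ => (x : ℂ)) (hR.lamj j)
    push_cast at h1
    split_ifs with h2
    · rw [if_pos h2] at h1
      exact h1
    · rw [if_neg h2] at h1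
      simpa using h1
  have e1 : ∑ b : {b : Fin r // b ∈ σ}, (lam b.1 : ℂ) * ((g 0 : ℂ) +
      ∑ j, (g j.succ.succ : ℂ) * (a b.1 j : ℂ)) =
      (g 0 : ℂ) * ((H22.wsum w : ℂ) / (H22.wmin a w : ℂ)) +
      ∑ j, (g j.succ.succ : ℂ) * ∑ b : {b : Fin r // b ∈ σ}, (lam b.1 : ℂ) * (a b.1 j : ℂ) := by
    rw [← hlam, Finset.mul_sum]
    simp only [Finset.mul_sum, mul_add]
    rw [Finset.sum_add_distrib]
    congr 1
    · refine Finset.sum_congr rfl fun b _ => ?_
      ring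
    · rw [Finset.sum_comm]
      refine Finset.sum_congr rfl fun j _ => ?_
      refine Finset.sum_congr rfl fun b _ => ?_
      ring
  have e2 : ∑ j : {j : Fin n // w j = 0}, (mu j.1 : ℂ) / (M : ℂ) *
      ((g (Fin.succ 0) : ℂ) + (M : ℂ) * (g j.1.succ.succ : ℂ)) =
      S * (g (Fin.succ 0) : ℂ) + ∑ j, (g j.succ.succ : ℂ) * (if w j = 0 then (mu j : ℂ) else 0) := by
    rw [hS, Finset.sum_mul]
    have h1 : ∑ j : Fin n, (g j.succ.succ : ℂ) * (if w j = 0 then (mu j : ℂ) else 0) =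
        ∑ j : {j : Fin n // w j = 0}, (g j.1.succ.succ : ℂ) * (mu j.1 : ℂ) := by
      simp only [mul_ite, mul_zero]
      rw [← Finset.sum_filter]
      exact Finset.sum_subtype _ (by simp) (fun j : Fin n => (g j.succ.succ : ℂ) * (mu j : ℂ))
    rw [h1, ← Finset.sum_add_distrib]
    refine Finset.sum_congr rfl fun j _ => ?_
    field_simp
  rw [e1, e2]
  have e3 : ∑ j : Fin n, (g j.succ.succ : ℂ) = ∑ j : Fin n, (g j.succ.succ : ℂ) *
      (∑ b : {b : Fin r // b ∈ σ}, (lam b.1 : ℂ) * (a b.1 j : ℂ) +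
      (if w j = 0 then (mu j : ℂ) else 0)) := by
    refine Finset.sum_congr rfl fun j _ => ?_
    rw [hlamj j, mul_one]
  rw [e3]
  simp only [mul_add, Finset.sum_add_distrib]
  ring

end Pool.Agent.H56.T5

end S_GDX

section S_YVL

/-!
# YVL: values of functionals at `yv`

`yv a M w σ T m1 = ∑_{b ∈ σ} T_b (1,0;a_b) + m1 ∑_{w_j=0} (0,1;M e_j)`.
Proofs.  `yv_dt`: `dt_add`, `dt_sum`, `dt_zsmul`.  The others follow from it (`dt_vec`, `dt_ev`, `A5_inl`, `A5_some`; `h5 a w = vec (-N) 0 w`).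
-/

set_option autoImplicit false

namespace Pool.Agent.H56.T5

open Finset AddMonoidAlgebra
open Pool.Agent.H56.SMC Pool.Agent.H37.T5

theorem yv_dt {n r : ℕ} (a : Fin r → (Fin n →₀ ℕ)) (M : ℤ) (w : Fin n → ℕ) (σ : Finset (Fin r))
    (T : Fin r → ℤ) (m1 : ℤ) (g : Lat (n + 2)) :
    dt g (yv a M w σ T m1) = ∑ b ∈ σ, T b * dt g (A5 a M (Sum.inl b)) +
      m1 * ∑ j ∈ univ.filter (fun j => w j = 0), dt g (A5 a M (Sum.inr (Sum.inl (some j)))) := by
  unfold yv
  rw [dt_add, dt_sum, dt_zsmul, dt_sum]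
  congr 1
  exact sum_congr rfl fun b _ => dt_zsmul _ _ _

theorem yv_h5 {n r : ℕ} (a : Fin r → (Fin n →₀ ℕ)) (M : ℤ) (w : Fin n → ℕ) (σ : Finset (Fin r))
    (hon : ∀ b ∈ σ, ∑ j, a b j * w j = H22.wmin a w)
    (T : Fin r → ℤ) (m1 : ℤ) : dt (h5 a w) (yv a M w σ T m1) = 0 := by
  rw [yv_dt]
  have h1 : ∀ b ∈ σ, T b * dt (h5 a w) (A5 a M (Sum.inl b)) = 0 := by
    intro b hb
    have h2 : (∑ j, (w j : ℤ) * (a b j : ℤ)) = (H22.wmin a w : ℤ) := by
      rw [← hon b hb]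
      push_cast
      exact sum_congr rfl fun j _ => mul_comm _ _
    rw [A5_inl, h5, dt_vec, h2]
    ring
  have h2 : ∀ j ∈ univ.filter (fun j => w j = 0),
      dt (h5 a w) (A5 a M (Sum.inr (Sum.inl (some j)))) = 0 := by
    intro j hj
    rw [mem_filter] at hj
    rw [A5_some, h5, dt_vec]
    have h3 : ∑ k, (w k : ℤ) * (M • (ev j : Lat n)) k = 0 := by
      apply sum_eq_zero
      intro k _
      by_cases hk : k = j
      · rw [hk, hj.2]; simp
      · simp [ev, Pi.single_apply, hk]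
    rw [h3]
    ring
  rw [sum_eq_zero h1, sum_eq_zero h2]
  ring

theorem yv_coord {n r : ℕ} (a : Fin r → (Fin n →₀ ℕ)) (M : ℤ) (w : Fin n → ℕ)
    (σ : Finset (Fin r)) (T : Fin r → ℤ) (m1 : ℤ) (j : Fin n) :
    yv a M w σ T m1 j.succ.succ = ∑ b ∈ σ, T b * (a b j : ℤ) + (if w j = 0 then m1 * M else 0) := by
  rw [← dt_ev j.succ.succ (yv a M w σ T m1), yv_dt]
  congr 1
  · apply sum_congr rfl
    intro b _
    rw [dt_ev, A5_inl]
    rfl
  · have h1 : ∀ k ∈ univ.filter (fun k => w k = 0),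
        dt (ev j.succ.succ) (A5 a M (Sum.inr (Sum.inl (some k)))) = if j = k then M else 0 := by
      intro k _
      rw [dt_ev, A5_some]
      show (M • (ev k : Lat n)) j = _
      by_cases hk : j = k
      · simp [ev, hk]
      · simp [ev, Pi.single_apply, hk]
    rw [sum_congr rfl h1, sum_ite_eq]
    by_cases hj : w j = 0
    · simp [hj]
    · simp [hj]

theorem yv_inC {n r : ℕ} (a : Fin r → (Fin n →₀ ℕ)) (M : ℤ) (w : Fin n → ℕ) (σ : Finset (Fin r))
    (T : Fin r → ℤ) (m1 : ℤ) (hT : ∀ b ∈ σ, 0 ≤ T b) (hm : 0 ≤ m1) :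
    InC (A5 a M) (yv a M w σ T m1) := by
  intro h hh
  rw [yv_dt]
  have h1 : 0 ≤ ∑ b ∈ σ, T b * dt h (A5 a M (Sum.inl b)) :=
    sum_nonneg fun b hb => mul_nonneg (hT b hb) (hh _)
  have h2 : 0 ≤ ∑ j ∈ univ.filter (fun j => w j = 0), dt h (A5 a M (Sum.inr (Sum.inl (some j)))) :=
    sum_nonneg fun j _ => hh _
  have h3 := mul_nonneg hm h2
  linarith

theorem yv_gb {n r : ℕ} (a : Fin r → (Fin n →₀ ℕ)) (M : ℤ) (w : Fin n → ℕ) (σ : Finset (Fin r))
    (lam : Fin r → ℚ) (th : Fin r → Fin r → ℚ) (G : ℤ) (γ : TT w σ → Lat (n + 2))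
    (q : TT w σ → ℂ) (hG : GD a M w σ lam th G γ q) (T : Fin r → ℤ) (m1 : ℤ)
    (b : {b : Fin r // b ∈ σ}) : dt (γ (Sum.inl b)) (yv a M w σ T m1) = G * T b.1 := by
  rw [yv_dt]
  have h1 : ∀ b' ∈ σ, T b' * dt (γ (Sum.inl b)) (A5 a M (Sum.inl b')) =
      if b.1 = b' then G * T b.1 else 0 := by
    intro b' hb'
    have := hG.dual (Sum.inl b) (Sum.inl ⟨b', hb'⟩)
    simp only [XT] at this
    rw [this]
    by_cases hbb : b.1 = b'
    · have : b = ⟨b', hb'⟩ := Subtype.ext hbb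
      rw [if_pos (by rw [this]), if_pos hbb, ← hbb]
      ring
    · rw [if_neg, if_neg hbb, mul_zero]
      intro h
      exact hbb (congrArg Subtype.val (Sum.inl.inj h))
  have h2 : ∀ j ∈ univ.filter (fun j => w j = 0),
      dt (γ (Sum.inl b)) (A5 a M (Sum.inr (Sum.inl (some j)))) = 0 := by
    intro j hj
    rw [mem_filter] at hj
    have := hG.dual (Sum.inl b) (Sum.inr (some ⟨j, hj.2⟩))
    simp only [XT] at this
    rw [this, if_neg (by simp)]
  rw [sum_congr rfl h1, sum_ite_eq, if_pos b.2, sum_eq_zero h2]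
  ring

theorem yv_g0 {n r : ℕ} (a : Fin r → (Fin n →₀ ℕ)) (M : ℤ) (w : Fin n → ℕ) (σ : Finset (Fin r))
    (lam : Fin r → ℚ) (th : Fin r → Fin r → ℚ) (G : ℤ) (γ : TT w σ → Lat (n + 2))
    (q : TT w σ → ℂ) (hG : GD a M w σ lam th G γ q) (T : Fin r → ℤ) (m1 : ℤ) :
    dt (γ (Sum.inr none)) (yv a M w σ T m1) = 0 := by
  rw [yv_dt]
  have h1 : ∀ b' ∈ σ, T b' * dt (γ (Sum.inr none)) (A5 a M (Sum.inl b')) = 0 := by
    intro b' hb'
    have := hG.dual (Sum.inr none) (Sum.inl ⟨b', hb'⟩)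
    simp only [XT] at this
    rw [this, if_neg (by simp), mul_zero]
  have h2 : ∀ j ∈ univ.filter (fun j => w j = 0),
      dt (γ (Sum.inr none)) (A5 a M (Sum.inr (Sum.inl (some j)))) = 0 := by
    intro j hj
    rw [mem_filter] at hj
    have := hG.dual (Sum.inr none) (Sum.inr (some ⟨j, hj.2⟩))
    simp only [XT] at this
    rw [this, if_neg (by simp)]
  rw [sum_eq_zero h1, sum_eq_zero h2]
  ring

theorem yv_gj {n r : ℕ} (a : Fin r → (Fin n →₀ ℕ)) (M : ℤ) (w : Fin n → ℕ) (σ : Finset (Fin r))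
    (lam : Fin r → ℚ) (th : Fin r → Fin r → ℚ) (G : ℤ) (γ : TT w σ → Lat (n + 2))
    (q : TT w σ → ℂ) (hG : GD a M w σ lam th G γ q) (T : Fin r → ℤ) (m1 : ℤ)
    (j : {j : Fin n // w j = 0}) :
    dt (γ (Sum.inr (some j))) (yv a M w σ T m1) = G * m1 := by
  rw [yv_dt]
  have h1 : ∀ b' ∈ σ, T b' * dt (γ (Sum.inr (some j))) (A5 a M (Sum.inl b')) = 0 := by
    intro b' hb'
    have := hG.dual (Sum.inr (some j)) (Sum.inl ⟨b', hb'⟩)
    simp only [XT] at this
    rw [this, if_neg (by simp), mul_zero]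
  have h2 : ∀ j' ∈ univ.filter (fun j => w j = 0),
      dt (γ (Sum.inr (some j))) (A5 a M (Sum.inr (Sum.inl (some j')))) =
        if j.1 = j' then G else 0 := by
    intro j' hj'
    rw [mem_filter] at hj'
    have := hG.dual (Sum.inr (some j)) (Sum.inr (some ⟨j', hj'.2⟩))
    simp only [XT] at this
    rw [this]
    by_cases hjj : j.1 = j'
    · have h3 : j = ⟨j', hj'.2⟩ := Subtype.ext hjj
      rw [if_pos (by rw [h3]), if_pos hjj]
    · rw [if_neg, if_neg hjj]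
      intro h
      exact hjj (congrArg Subtype.val (Option.some.inj (Sum.inr.inj h)))
  rw [sum_eq_zero h1, sum_congr rfl h2, sum_ite_eq, if_pos (by simp [j.2])]
  ring

end Pool.Agent.H56.T5

end S_YVL

section S_RGE

/-!
# RGE: the region on the slice in the coordinates of the face

Write `v = m0 • u + yv a M w σ T m1`.
Proof.  `ee_of_face`: let `InC (A5 a M) v` and `dt (h5 a w) v = 0`.  `facI` (`GKX.lean`): `N • v = ∑ k_i • A_i`, `N > 0`, `k_i : ℕ`.  `dt (h5 a w) (A_i) ≥ 0` (`appg_h0` with `noW`), so `k_i = 0` unless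
`dt (h5 a w) (A_i) = 0`.  `hG.face` for these `i`: `G • (N • v) = ∑_i k_i • ∑_τ dt (γ τ) (A_i) • X_τ = ∑_τ dt (γ τ) (N • v) • X_τ = N • ∑_τ dt (γ τ) v • X_τ`
(`X_τ = A5 a M (XT w σ τ)`); cancel `N`.  `0 ≤ dt (γ τ) v` in the same way.
`inC_of_ee`: for `g ≥ 0` on the exponents `G * dt g v = ∑_τ dt (γ τ) v * dt g X_τ ≥ 0`.
`rge`: (→) `v` satisfies the hypotheses of `ee_of_face` (`yv_h5`; `hon`); `yv ∈ EE` (`yv_gb`, `yv_g0`, `yv_gj` and the definition), so `m0 • u ∈ EE` and `u ∈ EE` (cancel `m0`);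
`dt (γ τ) v = m0 * dt (γ τ) u + dt (γ τ) yv`, and `0 ≤ m0 * x` gives `0 ≤ x`.  (←) `v ∈ EE`, `dt (γ τ) v ≥ 0`: `inC_of_ee`; `dt (h5 a w) u = 0`: `G * dt (h5 a w) u = ∑_τ dt (γ τ) u * 0`
(`hG.gen`).
`ee_dt`: if `g` vanishes at all generators, `dt g u = 0` for `u ∈ EE`.
-/

set_option autoImplicit false

namespace Pool.Agent.H56.T5

open Finset AddMonoidAlgebra
open Pool.Agent.H56.SMC Pool.Agent.H37.T5

/-- The values of a functional on the span of the face. -/
theorem ee_dt {n r : ℕ} (a : Fin r → (Fin n →₀ ℕ)) (M : ℤ) (w : Fin n → ℕ) (σ : Finset (Fin r))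
    (G : ℤ) (γ : TT w σ → Lat (n + 2)) (v : Lat (n + 2)) (hv : v ∈ EE a M w σ G γ)
    (g : Lat (n + 2)) : G * dt g v = ∑ τ, dt (γ τ) v * dt g (A5 a M (XT w σ τ)) := by
  have h1 : G • v = ∑ τ, dt (γ τ) v • A5 a M (XT w σ τ) := hv
  rw [← dt_zsmul, h1, dt_sum]
  exact sum_congr rfl fun τ _ => dt_zsmul _ _ _

theorem RGE_cancel {d : ℕ} {N : ℤ} (hN : N ≠ 0) {x y : Lat d} (h : N • x = N • y) : x = y := by
  funext j
  have h1 := congrFun h j
  simp only [Pi.smul_apply, smul_eq_mul] at h1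
  exact mul_left_cancel₀ hN h1

theorem RGE_rpos {n r : ℕ} (a : Fin r → (Fin n →₀ ℕ)) (w : Fin n → ℕ)
    (hN : 0 < H22.wmin a w) : 0 < r := by
  rcases Nat.eq_zero_or_pos r with h | h
  · subst h
    have h1 : H22.wmin a w = 0 := by
      unfold H22.wmin
      exact Nat.iInf_of_empty _
    omega
  · exact h

theorem ee_of_face {n r : ℕ} (a : Fin r → (Fin n →₀ ℕ)) (M : ℤ) (hM : 0 < M) (w : Fin n → ℕ)
    (hN : 0 < H22.wmin a w) (σ : Finset (Fin r))
    (lam : Fin r → ℚ) (th : Fin r → Fin r → ℚ) (G : ℤ) (γ : TT w σ → Lat (n + 2))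
    (q : TT w σ → ℂ) (hG : GD a M w σ lam th G γ q) (v : Lat (n + 2)) (hv : InC (A5 a M) v)
    (hv0 : dt (h5 a w) v = 0) : v ∈ EE a M w σ G γ ∧ ∀ τ, 0 ≤ dt (γ τ) v := by
  obtain ⟨N, hNpos, k, hk⟩ := facI (RGE_rpos a w hN) a M hM v hv
  have hh0 : ∀ i, 0 ≤ dt (h5 a w) (A5 a M i) := fun i =>
    appg_h0 a (noW n) M hM w (fun k => k.elim0) i
  have hN' : (0 : ℤ) < (N : ℤ) := by exact_mod_cast hNpos
  have hval : ∀ g : Lat (n + 2), (N : ℤ) * dt g v = ∑ i, (k i : ℤ) * dt g (A5 a M i) := by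
    intro g
    rw [← dt_nsmul, hk, dt_sum]
    exact sum_congr rfl fun i _ => dt_nsmul _ _ _
  have hz : ∀ i, (k i : ℤ) = 0 ∨ dt (h5 a w) (A5 a M i) = 0 := by
    have h1 := hval (h5 a w)
    rw [hv0, mul_zero] at h1
    have h2 := (sum_eq_zero_iff_of_nonneg (fun i _ =>
      mul_nonneg (Int.natCast_nonneg (k i)) (hh0 i))).1 h1.symm
    intro i
    exact mul_eq_zero.mp (h2 i (mem_univ i))
  refine ⟨?_, fun τ => ?_⟩
  · show G • v = ∑ τ, dt (γ τ) v • A5 a M (XT w σ τ)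
    refine RGE_cancel (N := (N : ℤ)) hN'.ne' ?_
    have hk' : (N : ℤ) • v = ∑ i, (k i : ℤ) • A5 a M i := by
      rw [natCast_zsmul, hk]
      exact sum_congr rfl fun i _ => (natCast_zsmul _ _).symm
    rw [smul_comm, hk', smul_sum, smul_sum]
    have h1 : ∀ i ∈ univ, G • (k i : ℤ) • A5 a M i
        = ∑ τ, ((k i : ℤ) * dt (γ τ) (A5 a M i)) • A5 a M (XT w σ τ) := by
      intro i _
      rcases hz i with h | h
      · rw [h, zero_smul, smul_zero]
        symm
        refine sum_eq_zero fun τ _ => ?_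
        rw [zero_mul, zero_smul]
      · rw [smul_comm, (hG.face i h).2, smul_sum]
        exact sum_congr rfl fun τ _ => smul_smul _ _ _
    rw [sum_congr rfl h1, sum_comm]
    refine sum_congr rfl fun τ _ => ?_
    rw [← sum_smul, smul_smul, hval]
  · have h1 : 0 ≤ (N : ℤ) * dt (γ τ) v := by
      rw [hval]
      refine sum_nonneg fun i _ => ?_
      rcases hz i with h | h
      · rw [h, zero_mul]
      · exact mul_nonneg (Int.natCast_nonneg _) ((hG.face i h).1 τ)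
    exact nonneg_of_mul_nonneg_right h1 hN'

theorem inC_of_ee {n r : ℕ} (a : Fin r → (Fin n →₀ ℕ)) (M : ℤ) (w : Fin n → ℕ)
    (σ : Finset (Fin r)) (G : ℤ) (hG0 : 0 < G) (γ : TT w σ → Lat (n + 2))
    (v : Lat (n + 2))
    (hv : v ∈ EE a M w σ G γ) (h0 : ∀ τ, 0 ≤ dt (γ τ) v) : InC (A5 a M) v := by
  intro g hg
  have h1 : 0 ≤ G * dt g v := by
    rw [ee_dt a M w σ G γ v hv g]
    exact sum_nonneg fun τ _ => mul_nonneg (h0 τ) (hg _)
  exact nonneg_of_mul_nonneg_right h1 hG0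

theorem RGE_yv {n r : ℕ} (a : Fin r → (Fin n →₀ ℕ)) (M : ℤ) (w : Fin n → ℕ) (σ : Finset (Fin r))
    (lam : Fin r → ℚ) (th : Fin r → Fin r → ℚ) (G : ℤ) (γ : TT w σ → Lat (n + 2))
    (q : TT w σ → ℂ) (hG : GD a M w σ lam th G γ q) (T : Fin r → ℤ) (m1 : ℤ) :
    G • yv a M w σ T m1 = ∑ τ, dt (γ τ) (yv a M w σ T m1) • A5 a M (XT w σ τ) := by
  rw [Fintype.sum_sum_type, Fintype.sum_option]
  rw [yv_g0 a M w σ lam th G γ q hG T m1, zero_smul, zero_add]
  simp only [yv_gb a M w σ lam th G γ q hG T m1, yv_gj a M w σ lam th G γ q hG T m1, XT]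
  unfold yv
  rw [smul_add, smul_sum, smul_smul, smul_sum]
  congr 1
  · rw [← sum_coe_sort σ (fun b => G • T b • A5 a M (Sum.inl b))]
    refine sum_congr rfl fun b _ => ?_
    rw [smul_smul]
  · rw [← sum_subtype (univ.filter (fun j : Fin n => w j = 0))
      (p := fun j => w j = 0) (fun j => by simp)
      (fun j => (G * m1) • A5 a M (Sum.inr (Sum.inl (some j))))]

/-- RGE -/
theorem rge {n r : ℕ} (a : Fin r → (Fin n →₀ ℕ)) (M : ℤ) (hM : 0 < M) (w : Fin n → ℕ)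
    (hN : 0 < H22.wmin a w) (σ : Finset (Fin r))
    (hon : ∀ b ∈ σ, ∑ j, a b j * w j = H22.wmin a w)
    (lam : Fin r → ℚ) (th : Fin r → Fin r → ℚ) (G : ℤ) (γ : TT w σ → Lat (n + 2))
    (q : TT w σ → ℂ) (hG : GD a M w σ lam th G γ q) (m0 : ℤ) (hm0 : 0 < m0) (T : Fin r → ℤ)
    (m1 : ℤ) (u : Lat (n + 2)) :
    u ∈ RS a M w σ m0 T m1 ↔ u ∈ EE a M w σ G γ ∧
      (∀ b : {b : Fin r // b ∈ σ}, 0 ≤ m0 * dt (γ (Sum.inl b)) u + G * T b.1) ∧
      0 ≤ dt (γ (Sum.inr none)) u ∧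
      ∀ j : {j : Fin n // w j = 0}, 0 ≤ m0 * dt (γ (Sum.inr (some j))) u + G * m1 := by
  have hy := RGE_yv a M w σ lam th G γ q hG T m1
  have hγv : ∀ τ, dt (γ τ) (m0 • u + yv a M w σ T m1)
      = m0 * dt (γ τ) u + dt (γ τ) (yv a M w σ T m1) := fun τ => by rw [dt_add, dt_zsmul]
  constructor
  · rintro ⟨h1, h2⟩
    have h2' : dt (h5 a w) u = 0 := h2
    have hv0 : dt (h5 a w) (m0 • u + yv a M w σ T m1) = 0 := by
      rw [dt_add, dt_zsmul, h2', yv_h5 a M w σ hon T m1]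
      ring
    obtain ⟨h3, h4⟩ := ee_of_face a M hM w hN σ lam th G γ q hG _ h1 hv0
    refine ⟨?_, fun b => ?_, ?_, fun j => ?_⟩
    · show G • u = ∑ τ, dt (γ τ) u • A5 a M (XT w σ τ)
      refine RGE_cancel hm0.ne' ?_
      have h5 : G • (m0 • u + yv a M w σ T m1)
          = ∑ τ, dt (γ τ) (m0 • u + yv a M w σ T m1) • A5 a M (XT w σ τ) := h3
      simp only [hγv, add_smul, sum_add_distrib] at h5
      rw [smul_add, hy] at h5
      have h6 := add_right_cancel h5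
      rw [smul_comm, h6, smul_sum]
      exact sum_congr rfl fun τ _ => (smul_smul _ _ _).symm
    · have h5 := h4 (Sum.inl b)
      rwa [hγv, yv_gb a M w σ lam th G γ q hG T m1] at h5
    · have h5 := h4 (Sum.inr none)
      rw [hγv, yv_g0 a M w σ lam th G γ q hG T m1, add_zero] at h5
      exact nonneg_of_mul_nonneg_right h5 hm0
    · have h5 := h4 (Sum.inr (some j))
      rwa [hγv, yv_gj a M w σ lam th G γ q hG T m1] at h5
  · rintro ⟨h1, h2, h3, h4⟩
    have h1' : G • u = ∑ τ, dt (γ τ) u • A5 a M (XT w σ τ) := h1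
    refine ⟨?_, ?_⟩
    · refine inC_of_ee a M w σ G hG.G0 γ _ ?_ ?_
      · show G • (m0 • u + yv a M w σ T m1)
          = ∑ τ, dt (γ τ) (m0 • u + yv a M w σ T m1) • A5 a M (XT w σ τ)
        simp only [hγv, add_smul, sum_add_distrib]
        rw [smul_add, hy]
        congr 1
        rw [smul_comm, h1', smul_sum]
        exact sum_congr rfl fun τ _ => smul_smul _ _ _
      · rintro (b | (_ | j))
        · rw [hγv, yv_gb a M w σ lam th G γ q hG T m1]
          exact h2 b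
        · rw [hγv, yv_g0 a M w σ lam th G γ q hG T m1, add_zero]
          exact mul_nonneg hm0.le h3
        · rw [hγv, yv_gj a M w σ lam th G γ q hG T m1]
          exact h4 j
    · show dt (h5 a w) u = 0
      have h5 := ee_dt a M w σ G γ u h1 (h5 a w)
      simp only [hG.gen, mul_zero, sum_const_zero] at h5
      rcases mul_eq_zero.mp h5 with h6 | h6
      · exact absurd h6 hG.G0.ne'
      · exact h6

/-- The region is closed under adding exponents of the face. -/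
theorem rs_add {n r : ℕ} (a : Fin r → (Fin n →₀ ℕ)) (M : ℤ) (w : Fin n → ℕ) (σ : Finset (Fin r))
    (m0 : ℤ) (hm0 : 0 < m0) (T : Fin r → ℤ) (m1 : ℤ) (u : Lat (n + 2))
    (hu : u ∈ RS a M w σ m0 T m1) (i : Fin r ⊕ (Option (Fin n) ⊕ Fin 0))
    (hi : dt (h5 a w) (A5 a M i) = 0) : u + A5 a M i ∈ RS a M w σ m0 T m1 := by
  obtain ⟨h1, h2⟩ := hu
  have h2' : dt (h5 a w) u = 0 := h2
  refine ⟨?_, ?_⟩
  · intro g hg
    have h3 := h1 g hg
    have e : m0 • (u + A5 a M i) + yv a M w σ T m1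
        = (m0 • u + yv a M w σ T m1) + m0 • A5 a M i := by
      rw [smul_add]
      abel
    rw [e, dt_add, dt_zsmul]
    exact add_nonneg h3 (mul_nonneg hm0.le (hg i))
  · show dt (h5 a w) (u + A5 a M i) = 0
    rw [dt_add, h2', hi, add_zero]

end Pool.Agent.H56.T5

end S_RGE

section S_SLZ

/-!
# SLZ: raising of the levels on the slice

Write `A = A5 a M`, `X τ = A (XT w σ τ)`, `p = pp s0 I`, `S = RS a M w σ m0 T m1`, `S' = RS a M w σ m0 T' m1`, `B2 = {b ∈ σ : ∃ j1 ≠ j2 in D, a b j1 ≠ 0, a b j2 ≠ 0}`.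
Proof.  (1) Let `u ∈ S ∩ LL ev (sh D) {k}` and `b ∈ B2`, with `j1 ≠ j2`.  One of them, `j`, has `j.succ.succ ≠ k`, so `0 ≤ u j.succ.succ` (`dt_ev`, `mem_sh`).  By
`rge` `u ∈ EE`, and `ee_dt` with `g = ev j.succ.succ`: `G * u j.succ.succ = ∑_τ dt (γ τ) u * (X τ) j.succ.succ`; only the generator `b` has `(X τ) j.succ.succ ≠ 0` (`hZ.TD j`: there is a
unique vertex with `a b' j ≠ 0`, it is `b`; `w j ≠ 0` by `hZ.D0`, so the generators `(0,1;M e_j')`, `w_j' = 0`, have `j`-coordinate `0`), so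
`G * u j.succ.succ = dt (γ (inl b)) u * a b j` and `0 ≤ dt (γ (inl b)) u`.  So the relation `hex` is an `ExL` with
`S0 = S ∩ {u | ∀ b ∈ B2, 0 ≤ dt (γ (inl b)) u}` in place of `S` (same `z`).
(2) `rkL` (`Pool/Agent/H56/T5/RKL.lean`) with this `S0`, `ℓ = ev`, `P = sh D`, `κ = {b : {b // b ∈ σ} // lam b ≤ 0}`, `g = γ (inl b)`, `θ v k = g v k` (`g = ∑ k, g k • ev k`),
`l = 0`.  `hP1`: `pv p (ev j.succ.succ) = 1`.  `hPa`: the exponents have nonnegative coordinates.  `hh`, `hS0`: `hG.face` for the exponents with `cF … ≠ 0` (they have `dt (h5 a w) = 0`), `rs_add`.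
`hnr`: `pv p (γ (inl b)) = ∑ q τ * dt (γ (inl b)) (X τ) = G * lam b` (`hG.par`, `hG.dual`, `hG.qb`), and `G * lam b + m < 0` for `m < 0` (cast from `ℚ`).
`hx`: `dt g 0 = 0`.
(3) `ExL.mono` with `sh P ⊆ sh D` (`sh_mono`, `hZ.PD`) and `S0 ∩ Sc g 0 ⊆ S'`: by `rge` for `T` and for `T'`: for `b` with `T' b = T b` nothing changes; for the
other `b` (`T' b = 0`; `lam b ≤ 0` or `b ∈ B2`, `hZ.TT'`) `0 ≤ dt (γ (inl b)) u`, so `0 ≤ m0 * dt (γ (inl b)) u + G * 0`.
-/

set_option autoImplicit false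

namespace Pool.Agent.H56.T5

open Finset AddMonoidAlgebra
open Pool.Agent.H56.SMC Pool.Agent.H37.T5

theorem slz_coord {n r : ℕ} (a : Fin r → (Fin n →₀ ℕ)) (M : ℤ) (j : Fin n)
    (i : Fin r) : dt (ev j.succ.succ) (A5 a M (Sum.inl i)) = (a i j : ℤ) := by
  rw [dt_ev, A5_inl]
  simp [vec]

theorem slz_coord0 {n r : ℕ} (a : Fin r → (Fin n →₀ ℕ)) (M : ℤ) (j : Fin n) :
    dt (ev j.succ.succ) (A5 a M (Sum.inr (Sum.inl none))) = 0 := by
  rw [dt_ev, A5_none]
  simp [vec]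

theorem slz_coordj {n r : ℕ} (a : Fin r → (Fin n →₀ ℕ)) (M : ℤ) (j j' : Fin n) :
    dt (ev j.succ.succ) (A5 a M (Sum.inr (Sum.inl (some j')))) = if j = j' then M else 0 := by
  rw [dt_ev, A5_some]
  simp [vec, ev, Pi.single_apply]

theorem slz_nonneg {n r : ℕ} (a : Fin r → (Fin n →₀ ℕ)) (M : ℤ) (hM : 0 < M) (j : Fin n)
    (i : Fin r ⊕ (Option (Fin n) ⊕ Fin 0)) : 0 ≤ dt (ev j.succ.succ) (A5 a M i) := by
  rcases i with i | ((_ | j') | k)
  · rw [slz_coord]; exact Int.natCast_nonneg _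
  · rw [slz_coord0]
  · rw [slz_coordj]; split_ifs
    · exact hM.le
    · exact le_rfl
  · exact k.elim0

/-- the dual functional of a vertex in the coordinate `j` -/
theorem slz_vertex {n r : ℕ} (a : Fin r → (Fin n →₀ ℕ)) (M : ℤ) (w : Fin n → ℕ)
    (σ : Finset (Fin r)) (G : ℤ) (hG0 : 0 < G) (γ : TT w σ → Lat (n + 2)) (u : Lat (n + 2))
    (hu : u ∈ EE a M w σ G γ) (j : Fin n) (hwj : w j ≠ 0) (b : {b : Fin r // b ∈ σ})
    (hbj : a b.1 j ≠ 0) (huniq : ∀ b' ∈ σ, b' ≠ b.1 → a b' j = 0)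
    (h0 : 0 ≤ dt (ev j.succ.succ) u) : 0 ≤ dt (γ (Sum.inl b)) u := by
  have h1 := ee_dt a M w σ G γ u hu (ev j.succ.succ)
  rw [Finset.sum_eq_single (Sum.inl b)] at h1
  · have h2 : dt (ev j.succ.succ) (A5 a M (XT w σ (Sum.inl b))) = (a b.1 j : ℤ) := slz_coord a M j b.1
    rw [h2] at h1
    have h3 : 0 ≤ dt (γ (Sum.inl b)) u * (a b.1 j : ℤ) := by
      rw [← h1]
      exact mul_nonneg hG0.le h0
    have h4 : (0 : ℤ) < (a b.1 j : ℤ) := by
      have := Nat.pos_of_ne_zero hbj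
      exact_mod_cast this
    exact nonneg_of_mul_nonneg_left h3 h4
  · rintro (b' | (_ | j')) _ hne
    · have h2 : dt (ev j.succ.succ) (A5 a M (XT w σ (Sum.inl b'))) = (a b'.1 j : ℤ) :=
        slz_coord a M j b'.1
      rw [h2, huniq b'.1 b'.2 (fun h => hne (by rw [Subtype.ext h]))]
      simp
    · have h2 : dt (ev j.succ.succ) (A5 a M (XT w σ (Sum.inr none))) = 0 := slz_coord0 a M j
      rw [h2, mul_zero]
    · have h2 : dt (ev j.succ.succ) (A5 a M (XT w σ (Sum.inr (some j')))) =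
          if j = j'.1 then M else 0 := slz_coordj a M j j'.1
      rw [h2, if_neg, mul_zero]
      intro h
      exact hwj (by rw [h]; exact j'.2)
  · intro h
    exact absurd (Finset.mem_univ _) h

theorem slz_ev_sum {d : ℕ} (g : Lat d) : g = ∑ k, g k • (ev k : Lat d) := by
  funext i
  simp [ev, Finset.sum_apply, Pi.single_apply]

theorem slz_pv_ev {d : ℕ} {R : Type} [CommRing R] (p : Fin d → R) (k : Fin d) :
    pv p (ev k) = p k := by
  simp [pv, ev, Pi.single_apply]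

/-- SLZ -/
theorem slZ {n r : ℕ} (a : Fin r → (Fin n →₀ ℕ)) (M : ℤ) (hM : 0 < M) (w : Fin n → ℕ)
    (hN : 0 < H22.wmin a w) (σ : Finset (Fin r))
    (hon : ∀ b ∈ σ, ∑ j, a b j * w j = H22.wmin a w)
    (lam : Fin r → ℚ) (th : Fin r → Fin r → ℚ) (G : ℤ) (γ : TT w σ → Lat (n + 2))
    (q : TT w σ → ℂ) (hG : GD a M w σ lam th G γ q) (m0 : ℤ) (hm0 : 0 < m0)
    (D P : Finset (Fin n)) (T T' : Fin r → ℤ) (m1 : ℤ) (hZ : SZ a w σ lam th m0 D P T T')
    (c : Fin r ⊕ (Option (Fin n) ⊕ Fin 0) → ℂ) (β : ℂ)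
    (hex : ExL (pp (-(H22.wsum w : ℂ) / (H22.wmin a w : ℂ)) Complex.I) (A5 a M)
      (cF (A5 a M) c (h5 a w)) ev (sh D) (RS a M w σ m0 T m1) (single 0 β)) :
    ExL (pp (-(H22.wsum w : ℂ) / (H22.wmin a w : ℂ)) Complex.I) (A5 a M)
      (cF (A5 a M) c (h5 a w)) ev (sh P) (RS a M w σ m0 T' m1) (single 0 β) := by
  classical
  set p := (pp (-(H22.wsum w : ℂ) / (H22.wmin a w : ℂ)) Complex.I : Fin (n + 2) → ℂ) with hp
  set B2 : {b : Fin r // b ∈ σ} → Prop := fun b =>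
    ∃ j1 ∈ D, ∃ j2 ∈ D, j1 ≠ j2 ∧ a b.1 j1 ≠ 0 ∧ a b.1 j2 ≠ 0 with hB2
  set S0 : Set (Lat (n + 2)) := RS a M w σ m0 T m1 ∩
    {u | ∀ b : {b : Fin r // b ∈ σ}, B2 b → 0 ≤ dt (γ (Sum.inl b)) u} with hS0
  have hc0 : ∀ i, cF (A5 a M) c (h5 a w) i ≠ 0 → dt (h5 a w) (A5 a M i) = 0 := by
    intro i hi
    unfold cF at hi
    by_contra h1
    exact hi (if_neg h1)
  -- (1)
  have hex1 : ExL p (A5 a M) (cF (A5 a M) c (h5 a w)) ev (sh D) S0 (single 0 β) := by
    obtain ⟨z, hz, hxz⟩ := hex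
    refine ⟨z, fun k u hu => ?_, hxz⟩
    obtain ⟨huS, huL⟩ := hz k u hu
    refine ⟨⟨huS, ?_⟩, huL⟩
    rintro b ⟨j1, hj1, j2, hj2, hne, hb1, hb2⟩
    have hEE : u ∈ EE a M w σ G γ :=
      ((rge a M hM w hN σ hon lam th G γ q hG m0 hm0 T m1 u).1 huS).1
    have key : ∀ j ∈ D, a b.1 j ≠ 0 → j.succ.succ ≠ k → 0 ≤ dt (γ (Sum.inl b)) u := by
      intro j hj hbj hjk
      have h1 : 0 ≤ dt (ev j.succ.succ) u :=
        (huL j.succ.succ (mem_sh.2 ⟨j, hj, rfl⟩)).2 (by simpa using hjk)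
      obtain ⟨b0, hb0, hb0j, huniq, -⟩ := hZ.TD j hj
      have hbb : b.1 = b0 := by
        by_contra hcon
        exact hbj (huniq b.1 b.2 hcon)
      exact slz_vertex a M w σ G hG.G0 γ u hEE j (hZ.D0 j hj) b hbj
        (fun b' hb' hne' => huniq b' hb' (by rw [← hbb]; exact hne')) h1
    by_cases hk : j1.succ.succ = k
    · apply key j2 hj2 hb2
      intro h
      apply hne
      have h3 : j1.succ.succ = j2.succ.succ := by rw [hk, h]
      simpa using h3
    · exact key j1 hj1 hb1 hk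
  -- (2)
  let κ := {b : {b : Fin r // b ∈ σ} // lam b.1 ≤ 0}
  have hex2 : ExL p (A5 a M) (cF (A5 a M) c (h5 a w)) ev (sh D)
      (S0 ∩ Sc (fun v : κ => γ (Sum.inl v.1)) (fun _ => 0)) (single 0 β) := by
    refine rkL (κ := κ) (A5 a M) (cF (A5 a M) c (h5 a w)) p ev (sh D) ?_ ?_
      (fun v => γ (Sum.inl v.1)) (fun v k => γ (Sum.inl v.1) k) ?_ ?_ (fun _ => 0) ?_ S0 ?_
      (single 0 β) ?_ hex1
    · intro k hk
      obtain ⟨j, -, rfl⟩ := mem_sh.1 hk
      rw [slz_pv_ev, hp]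
      simp [pp]
    · intro k hk i
      obtain ⟨j, -, rfl⟩ := mem_sh.1 hk
      exact slz_nonneg a M hM j i
    · intro v
      exact slz_ev_sum _
    · intro v i hi
      exact (hG.face i (hc0 i hi)).1 _
    · intro v m hm
      have h1 : pv p (γ (Sum.inl v.1)) = ((lam v.1.1 * (G : ℚ) : ℚ) : ℂ) := by
        rw [hp, hG.par, Finset.sum_eq_single (Sum.inl v.1)]
        · rw [hG.dual, if_pos rfl, hG.qb]
          push_cast
          ring
        · intro τ _ hne
          rw [hG.dual, if_neg (Ne.symm hne)]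
          simp
        · intro h
          exact absurd (Finset.mem_univ _) h
      show pv p (γ (Sum.inl v.1)) + (m : ℂ) ≠ 0
      rw [h1]
      intro h2
      have h3 : ((lam v.1.1 * (G : ℚ) + (m : ℚ) : ℚ) : ℂ) = 0 := by
        push_cast
        push_cast at h2
        exact h2
      have h4 : lam v.1.1 * (G : ℚ) + (m : ℚ) = 0 := by exact_mod_cast h3
      have h5 : lam v.1.1 * (G : ℚ) ≤ 0 := by
        apply mul_nonpos_of_nonpos_of_nonneg v.2
        have := hG.G0.le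
        exact_mod_cast this
      have h6 : (m : ℚ) < 0 := by exact_mod_cast hm
      linarith
    · rintro u ⟨hu1, hu2⟩ i hi
      refine ⟨rs_add a M w σ m0 hm0 T m1 u hu1 i (hc0 i hi), fun b hb => ?_⟩
      rw [dt_add]
      have h1 := hu2 b hb
      have h2 := (hG.face i (hc0 i hi)).1 (Sum.inl b)
      exact add_nonneg h1 h2
    · intro u hu v
      have h1 : u = 0 := by
        by_contra hne
        apply hu
        rw [AddMonoidAlgebra.coeff_single]
        exact Finsupp.single_eq_of_ne hne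
      rw [h1]
      show (0 : ℤ) ≤ dt (γ (Sum.inl v.1)) 0
      rw [dt_zero]
  -- (3)
  refine ExL.mono ?_ (sh_mono hZ.PD) hex2
  rintro u ⟨⟨hu1, hu2⟩, hu3⟩
  obtain ⟨h1, h2, h3, h4⟩ := (rge a M hM w hN σ hon lam th G γ q hG m0 hm0 T m1 u).1 hu1
  refine (rge a M hM w hN σ hon lam th G γ q hG m0 hm0 T' m1 u).2 ⟨h1, fun b => ?_, h3, h4⟩
  rcases hZ.TT' b.1 b.2 with h5 | ⟨h5, h6⟩
  · rw [h5]; exact h2 b
  · rw [h5, mul_zero, add_zero]
    apply mul_nonneg hm0.le
    rcases h6 with h7 | h7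
    · exact hu3 (⟨b, h7⟩ : κ)
    · exact hu2 b h7

end Pool.Agent.H56.T5

end S_SLZ
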