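import Mathlib
import Pool.Agent.H56.SL.A10
import Pool.Agent.H56.SL.A7
import Pool.Agent.H56.SL.A5
import Pool.Agent.H56.SN.R1
import Pool.Agent.H56.SN.R2
import Pool.Agent.H56.SN.R3
import Pool.Agent.H56.SN.R4

/-! Strong monodromy, simplicial critical facets, part R5: this file joins the modules FAMV, FAMC, KSL, SLF, RTH. -/

set_option autoImplicit false

section S_FAMV

/-!
# FAMV: the family of functionals on the slice

Write `X τ = A5 a M (XT w σ τ)`, `fam = fam w σ γ jb`.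
`jb_exists`: `jb b = some j` for the `j ∈ P` with `a b j ≠ 0` (unique by `hZ.TP`: for `j, j' ∈ P ⊆ D` with `a b j, a b j' ≠ 0` one has `j' = j`), `none` if there is none (and for `b ∉ σ`).
`fam_val`: the values at the generators: `dt (fam (inl b)) (X (inl b')) = 0` for `b' ≠ b`, `≠ 0` for `b' = b` (if `jb b = none` it is `G` or `0` by `hG.dual`; if `jb b = some j`: `a b' j`, which is `≠ 0` for
`b' = b` and `0` for `b' ≠ b`, as `j ∈ D` has a unique vertex, `hZ.TD`); `dt (fam (inl b)) (X (inr o)) = 0` (`hG.dual`; for `jb b = some j`: `w j ≠ 0` by `hZ.D0`, so `X (inr o)` has `q_j = 0`);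
`dt (fam (inr none)) (X (inl b)) = 0`, `dt (fam (inr none)) (X (inr o)) = 1`; `dt (fam (inr (some j))) (X (inr none)) = 0`,
`dt (fam (inr (some j))) (X (inr (some j'))) = M` if `j = j'`, otherwise `0`.
`fam_indep`: let `∑ τ, k τ * dt (fam τ) (X τ') = 0` for all `τ' ∉ Z` (`Z` a set of `inl` indices) where `k τ = 0` for `τ ∈ Z`.  `τ' = inr none`: `k (inr none) = 0`; `τ' = inr (some j)`: `M * k (inr (some j)) = 0`;
`τ' = inl b ∉ Z`: then `k (inl b) * (nonzero) = 0`.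
`fam_span`: the matrix `Q τ τ' = dt (fam τ) (X τ')` has nonzero determinant (by `fam_indep` with `Z = ∅` and `Matrix.exists_vecMul_eq_zero_iff`); for a functional `g` let
`N = det Q`, `k = (τ' ↦ dt g (X τ')) ᵥ* adjugate Q` (`Matrix.vecMul_vecMul`, `Matrix.adjugate_mul`).
-/

set_option autoImplicit false

namespace Pool.Agent.H56.T5

open Finset AddMonoidAlgebra
open Pool.Agent.H56.SMC Pool.Agent.H37.T5

theorem jb_exists {n r : ℕ} (a : Fin r → (Fin n →₀ ℕ)) (w : Fin n → ℕ) (σ : Finset (Fin r))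
    (lam : Fin r → ℚ) (th : Fin r → Fin r → ℚ) (m0 : ℤ) (D P : Finset (Fin n))
    (T T' : Fin r → ℤ) (hZ : SZ a w σ lam th m0 D P T T') :
    ∃ jb : Fin r → Option (Fin n), JB a σ P jb := by
  classical
  refine ⟨fun b => if h : ∃ j, j ∈ P ∧ a b j ≠ 0 then some h.choose else none, ?_⟩
  intro b hb j
  beta_reduce
  constructor
  · intro h
    by_cases hx : ∃ j, j ∈ P ∧ a b j ≠ 0
    · rw [dif_pos hx] at h
      have h2 : hx.choose = j := Option.some.inj h
      rw [← h2]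
      exact hx.choose_spec
    · rw [dif_neg hx] at h
      cases h
  · rintro ⟨hj, hab⟩
    have hx : ∃ j, j ∈ P ∧ a b j ≠ 0 := ⟨j, hj, hab⟩
    rw [dif_pos hx]
    have h2 := (hZ.TP j hj b hb hab).2 hx.choose (hZ.PD hx.choose_spec.1) hx.choose_spec.2
    rw [h2]

theorem FAMV_ev {n : ℕ} (j : Fin n) (l l2 : ℤ) (q : Fin n → ℤ) :
    dt (ev j.succ.succ) (vec l l2 q) = q j := by
  rw [dt_ev]
  simp [vec]

theorem FAMV_ev1 {n : ℕ} (l l2 : ℤ) (q : Fin n → ℤ) :
    dt (ev (Fin.succ 0) : Lat (n + 2)) (vec l l2 q) = l2 := by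
  rw [dt_ev]
  simp [vec]

/-- The values at the generators. -/
theorem fam_val {n r : ℕ} (a : Fin r → (Fin n →₀ ℕ)) (M : ℤ) (hM : 0 < M) (w : Fin n → ℕ)
    (σ : Finset (Fin r)) (lam : Fin r → ℚ) (th : Fin r → Fin r → ℚ) (G : ℤ)
    (γ : TT w σ → Lat (n + 2)) (q : TT w σ → ℂ) (hG : GD a M w σ lam th G γ q) (m0 : ℤ)
    (D P : Finset (Fin n)) (T T' : Fin r → ℤ) (hZ : SZ a w σ lam th m0 D P T T')
    (jb : Fin r → Option (Fin n)) (hjb : JB a σ P jb) :
    (∀ b, dt (fam w σ γ jb (Sum.inl b)) (A5 a M (XT w σ (Sum.inl b))) ≠ 0) ∧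
    (∀ b b', b ≠ b' → dt (fam w σ γ jb (Sum.inl b)) (A5 a M (XT w σ (Sum.inl b'))) = 0) ∧
    (∀ b o, dt (fam w σ γ jb (Sum.inl b)) (A5 a M (XT w σ (Sum.inr o))) = 0) ∧
    (∀ b, dt (fam w σ γ jb (Sum.inr none)) (A5 a M (XT w σ (Sum.inl b))) = 0) ∧
    (∀ o, dt (fam w σ γ jb (Sum.inr none)) (A5 a M (XT w σ (Sum.inr o))) = 1) ∧
    (∀ j, dt (fam w σ γ jb (Sum.inr (some j))) (A5 a M (XT w σ (Sum.inr none))) = 0) ∧
    ∀ j j', dt (fam w σ γ jb (Sum.inr (some j))) (A5 a M (XT w σ (Sum.inr (some j')))) =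
      if j = j' then M else 0 := by
  refine ⟨fun b => ?_, fun b b' hbb => ?_, fun b o => ?_, fun b => ?_, fun o => ?_, fun j => ?_,
    fun j j' => ?_⟩
  · rcases hjo : jb b.1 with _ | j
    · have h1 : fam w σ γ jb (Sum.inl b) = γ (Sum.inl b) := by
        simp only [fam, hjo, Option.elim]
      rw [h1, hG.dual, if_pos rfl]
      exact hG.G0.ne'
    · have h1 : fam w σ γ jb (Sum.inl b) = ev j.succ.succ := by
        simp only [fam, hjo, Option.elim]
      have h2 : A5 a M (XT w σ (Sum.inl b)) = vec 1 0 (fun j => (a b.1 j : ℤ)) := rfl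
      rw [h1, h2, FAMV_ev]
      have h3 := ((hjb b.1 b.2 j).1 hjo).2
      exact_mod_cast h3
  · rcases hjo : jb b.1 with _ | j
    · have h1 : fam w σ γ jb (Sum.inl b) = γ (Sum.inl b) := by
        simp only [fam, hjo, Option.elim]
      rw [h1, hG.dual, if_neg]
      intro h2
      exact hbb (Sum.inl.inj h2)
    · have h1 : fam w σ γ jb (Sum.inl b) = ev j.succ.succ := by
        simp only [fam, hjo, Option.elim]
      have h2 : A5 a M (XT w σ (Sum.inl b')) = vec 1 0 (fun j => (a b'.1 j : ℤ)) := rfl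
      rw [h1, h2, FAMV_ev]
      obtain ⟨hjP, hab⟩ := (hjb b.1 b.2 j).1 hjo
      obtain ⟨b0, -, -, hu, -⟩ := hZ.TD j (hZ.PD hjP)
      have h3 : b.1 = b0 := by
        by_contra hne
        exact hab (hu b.1 b.2 hne)
      have h4 : a b'.1 j = 0 := by
        refine hu b'.1 b'.2 fun h5 => hbb ?_
        apply Subtype.ext
        rw [h3, h5]
      rw [h4]
      rfl
  · rcases hjo : jb b.1 with _ | j
    · have h1 : fam w σ γ jb (Sum.inl b) = γ (Sum.inl b) := by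
        simp only [fam, hjo, Option.elim]
      rw [h1, hG.dual, if_neg]
      intro h2
      cases h2
    · have h1 : fam w σ γ jb (Sum.inl b) = ev j.succ.succ := by
        simp only [fam, hjo, Option.elim]
      rw [h1]
      rcases o with _ | j'
      · have h2 : A5 a M (XT w σ (Sum.inr none)) = vec 0 1 0 := rfl
        rw [h2, FAMV_ev]
        rfl
      · have h2 : A5 a M (XT w σ (Sum.inr (some j'))) = vec 0 1 (M • ev j'.1) := rfl
        rw [h2, FAMV_ev]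
        have h3 : w j ≠ 0 := hZ.D0 j (hZ.PD ((hjb b.1 b.2 j).1 hjo).1)
        have h4 : j ≠ j'.1 := by
          intro h5
          rw [h5] at h3
          exact h3 j'.2
        simp [ev, h4]
  · have h2 : A5 a M (XT w σ (Sum.inl b)) = vec 1 0 (fun j => (a b.1 j : ℤ)) := rfl
    have h1 : fam w σ γ jb (Sum.inr none) = ev (Fin.succ 0) := rfl
    rw [h1, h2, FAMV_ev1]
  · have h1 : fam w σ γ jb (Sum.inr none) = ev (Fin.succ 0) := rfl
    rw [h1]
    rcases o with _ | j'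
    · have h2 : A5 a M (XT w σ (Sum.inr none)) = vec 0 1 0 := rfl
      rw [h2, FAMV_ev1]
    · have h2 : A5 a M (XT w σ (Sum.inr (some j'))) = vec 0 1 (M • ev j'.1) := rfl
      rw [h2, FAMV_ev1]
  · have h1 : fam w σ γ jb (Sum.inr (some j)) = ev j.1.succ.succ := rfl
    have h2 : A5 a M (XT w σ (Sum.inr none)) = vec 0 1 0 := rfl
    rw [h1, h2, FAMV_ev]
    rfl
  · have h1 : fam w σ γ jb (Sum.inr (some j)) = ev j.1.succ.succ := rfl
    have h2 : A5 a M (XT w σ (Sum.inr (some j'))) = vec 0 1 (M • ev j'.1) := rfl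
    rw [h1, h2, FAMV_ev]
    by_cases hjj : j = j'
    · subst hjj
      simp [ev]
    · have h3 : j.1 ≠ j'.1 := fun h => hjj (Subtype.ext h)
      simp [ev, h3, hjj]

/-- Independence on the generators outside a set `Z` of vertices. -/
theorem fam_indep {n r : ℕ} (a : Fin r → (Fin n →₀ ℕ)) (M : ℤ) (hM : 0 < M) (w : Fin n → ℕ)
    (σ : Finset (Fin r)) (lam : Fin r → ℚ) (th : Fin r → Fin r → ℚ) (G : ℤ)
    (γ : TT w σ → Lat (n + 2)) (q : TT w σ → ℂ) (hG : GD a M w σ lam th G γ q) (m0 : ℤ)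
    (D P : Finset (Fin n)) (T T' : Fin r → ℤ) (hZ : SZ a w σ lam th m0 D P T T')
    (jb : Fin r → Option (Fin n)) (hjb : JB a σ P jb) (Z : Set (TT w σ))
    (hZl : ∀ τ ∈ Z, ∃ b, τ = Sum.inl b) (k : TT w σ → ℤ) (hk : ∀ τ ∈ Z, k τ = 0)
    (h0 : ∀ τ', τ' ∉ Z →
      ∑ τ, k τ * dt (fam w σ γ jb τ) (A5 a M (XT w σ τ')) = 0) : k = 0 := by
  obtain ⟨v1, v2, v3, v4, v5, v6, v7⟩ :=
    fam_val a M hM w σ lam th G γ q hG m0 D P T T' hZ jb hjb
  have hZr : ∀ o, (Sum.inr o : TT w σ) ∉ Z := by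
    intro o ho
    obtain ⟨b, hb⟩ := hZl _ ho
    cases hb
  have k0 : k (Sum.inr none) = 0 := by
    have h1 := h0 (Sum.inr none) (hZr none)
    rw [Fintype.sum_sum_type, Fintype.sum_option] at h1
    have h2 : ∑ b, k (Sum.inl b) * dt (fam w σ γ jb (Sum.inl b))
        (A5 a M (XT w σ (Sum.inr none))) = 0 :=
      Finset.sum_eq_zero fun b _ => by rw [v3 b none, mul_zero]
    have h3 : ∑ j, k (Sum.inr (some j)) * dt (fam w σ γ jb (Sum.inr (some j)))
        (A5 a M (XT w σ (Sum.inr none))) = 0 :=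
      Finset.sum_eq_zero fun j _ => by rw [v6 j, mul_zero]
    rw [h2, h3, v5 none] at h1
    linarith
  have k1 : ∀ j, k (Sum.inr (some j)) = 0 := by
    intro j
    have h1 := h0 (Sum.inr (some j)) (hZr (some j))
    rw [Fintype.sum_sum_type, Fintype.sum_option] at h1
    have h2 : ∑ b, k (Sum.inl b) * dt (fam w σ γ jb (Sum.inl b))
        (A5 a M (XT w σ (Sum.inr (some j)))) = 0 :=
      Finset.sum_eq_zero fun b _ => by rw [v3 b (some j), mul_zero]
    have h3 : ∑ i, k (Sum.inr (some i)) * dt (fam w σ γ jb (Sum.inr (some i)))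
        (A5 a M (XT w σ (Sum.inr (some j)))) = k (Sum.inr (some j)) * M := by
      rw [Finset.sum_eq_single j]
      · rw [v7 j j, if_pos rfl]
      · intro i _ hij
        rw [v7 i j, if_neg hij, mul_zero]
      · intro h
        exact absurd (Finset.mem_univ j) h
    rw [h2, h3, k0, zero_mul, zero_add, zero_add] at h1
    rcases mul_eq_zero.1 h1 with h4 | h4
    · exact h4
    · exact absurd h4 hM.ne'
  have k2 : ∀ b, k (Sum.inl b) = 0 := by
    intro b
    by_cases hb : (Sum.inl b : TT w σ) ∈ Z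
    · exact hk _ hb
    · have h1 := h0 (Sum.inl b) hb
      rw [Fintype.sum_sum_type, Fintype.sum_option] at h1
      have h2 : ∑ i, k (Sum.inl i) * dt (fam w σ γ jb (Sum.inl i))
          (A5 a M (XT w σ (Sum.inl b))) =
          k (Sum.inl b) * dt (fam w σ γ jb (Sum.inl b)) (A5 a M (XT w σ (Sum.inl b))) := by
        rw [Finset.sum_eq_single b]
        · intro i _ hib
          rw [v2 i b hib, mul_zero]
        · intro h
          exact absurd (Finset.mem_univ b) h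
      have h3 : ∑ i, k (Sum.inr (some i)) * dt (fam w σ γ jb (Sum.inr (some i)))
          (A5 a M (XT w σ (Sum.inl b))) = 0 :=
        Finset.sum_eq_zero fun i _ => by rw [k1 i, zero_mul]
      rw [h2, h3, k0, zero_mul, zero_add, add_zero] at h1
      rcases mul_eq_zero.1 h1 with h4 | h4
      · exact h4
      · exact absurd h4 (v1 b)
  funext τ
  rcases τ with b | o
  · exact k2 b
  · rcases o with _ | j
    · exact k0
    · exact k1 j

/-- Every functional is a rational combination of the family on the span of the face. -/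
theorem fam_span {n r : ℕ} (a : Fin r → (Fin n →₀ ℕ)) (M : ℤ) (hM : 0 < M) (w : Fin n → ℕ)
    (σ : Finset (Fin r)) (lam : Fin r → ℚ) (th : Fin r → Fin r → ℚ) (G : ℤ)
    (γ : TT w σ → Lat (n + 2)) (q : TT w σ → ℂ) (hG : GD a M w σ lam th G γ q) (m0 : ℤ)
    (D P : Finset (Fin n)) (T T' : Fin r → ℤ) (hZ : SZ a w σ lam th m0 D P T T')
    (jb : Fin r → Option (Fin n)) (hjb : JB a σ P jb) (g : Lat (n + 2)) :
    ∃ (N : ℤ) (k : TT w σ → ℤ), N ≠ 0 ∧ ∀ τ', N * dt g (A5 a M (XT w σ τ')) =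
      ∑ τ, k τ * dt (fam w σ γ jb τ) (A5 a M (XT w σ τ')) := by
  classical
  let Q : Matrix (TT w σ) (TT w σ) ℤ :=
    Matrix.of fun τ τ' => dt (fam w σ γ jb τ) (A5 a M (XT w σ τ'))
  have hdet : Q.det ≠ 0 := by
    intro hd
    obtain ⟨v, hv, hv0⟩ := Matrix.exists_vecMul_eq_zero_iff.2 hd
    apply hv
    refine fam_indep a M hM w σ lam th G γ q hG m0 D P T T' hZ jb hjb ∅ (by simp) v (by simp) ?_
    intro τ' _
    have h1 := congrFun hv0 τ'
    exact h1
  refine ⟨Q.det, Matrix.vecMul (fun τ' => dt g (A5 a M (XT w σ τ'))) Q.adjugate, hdet, ?_⟩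
  intro τ'
  have h1 : Matrix.vecMul (Matrix.vecMul (fun τ' => dt g (A5 a M (XT w σ τ'))) Q.adjugate) Q =
      Q.det • (fun τ' => dt g (A5 a M (XT w σ τ'))) := by
    rw [Matrix.vecMul_vecMul, Matrix.adjugate_mul, Matrix.vecMul_smul, Matrix.vecMul_one]
  have h2 := congrFun h1 τ'
  have h3 : (Q.det • (fun τ' => dt g (A5 a M (XT w σ τ')))) τ' =
      Q.det * dt g (A5 a M (XT w σ τ')) := rfl
  rw [← h3, ← h2]
  rfl

end Pool.Agent.H56.T5

end S_FAMV

section S_FAMC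

/-!
# FAMC: change of the family of functionals on the slice

Write `A = A5 a M`, `X τ = A (XT w σ τ)`, `p = pp s0 I`, `c' = cF A c (h5 a w)`, `S' = RS a M w σ m0 T' m1`, `fam = fam w σ γ jb`, `ℓ' k = fam (e k)`, `P' = PP w σ jb e`.
Proof.  (1) If a functional `g` vanishes at all generators `X τ`, then `Dop p A c' g z = 0` for all `z` supported in `S'`: `Dop_coeff`; `pv p g = 0` (`hG.par`), `dt g u = 0` for `u ∈ S'`
(`rge`: `u ∈ EE`, `ee_dt`, `hG.G0`), and `dt g (A i) = 0` if `c' i ≠ 0` (`hG.face`: `G • A i = ∑ …`).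
(2) For `i : Fin (n+2)` there are `N_i ≠ 0` and `k_i : TT w σ → ℤ` with `g = N_i • ev i - ∑ τ, k_i τ • fam τ` vanishing at all generators (`fam_span`); if `i = j.succ.succ` with `j ∈ P`, take `N_i = 1` and `k_i` the unit
vector at `inl b`, `b` the vertex with `a b j ≠ 0` (`hZ.TD`; `jb b = some j`, so `fam (inl b) = ev i`).  By (1) and linearity (`Dop_left`, or `Dop_fam`; or compare coefficients with `Dop_coeff`):
`Dop p A c' (ev i) z = ∑ τ, ((k_i τ : ℂ) / N_i) • Dop p A c' (fam τ) z` for `z` supported in `S'`.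
(3) Given `x = ∑ i, Dop (ev i) (z i)`, put `z' k = ∑ i, ((k_i (e k) : ℂ) / N_i) • z i`; then `x = ∑ k, Dop (ℓ' k) (z' k)` (sum over `k` via `e`).
(4) Supports: `z' k` is supported in `S' ∩ LL ℓ' P' {k}`.  `i` not in `sh P`: for `u` in the support of `z i` all `j ∈ P` have `0 ≤ u j.succ.succ`; for `k' ∈ P'`: `e k' = inl b'`, `jb b' = some j'`,
`ℓ' k' = ev j'.succ.succ`, `j' ∈ P` (`hjb`), so `0 ≤ dt (ℓ' k') u`.  `i = j.succ.succ`, `j ∈ P`: only `k` with `e k = inl b` has a nonzero coefficient; for `k' ∈ P'`, `k' ≠ k`: `b' ≠ b`, so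
`j' ≠ j` (`j` has only one vertex), `0 ≤ u j'.succ.succ`; for `k' = k`: `-1 ≤ u j.succ.succ`.
-/

set_option autoImplicit false

namespace Pool.Agent.H56.T5

open Finset AddMonoidAlgebra
open Pool.Agent.H56.SMC Pool.Agent.H37.T5

theorem FAMC_dt_zero {n r : ℕ} (a : Fin r → (Fin n →₀ ℕ)) (M : ℤ) (w : Fin n → ℕ)
    (σ : Finset (Fin r)) (G : ℤ) (hG0 : 0 < G) (γ : TT w σ → Lat (n + 2)) (v : Lat (n + 2))
    (hv : v ∈ EE a M w σ G γ) (g : Lat (n + 2)) (hg : ∀ τ, dt g (A5 a M (XT w σ τ)) = 0) :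
    dt g v = 0 := by
  have h1 := ee_dt a M w σ G γ v hv g
  have h2 : ∑ τ, dt (γ τ) v * dt g (A5 a M (XT w σ τ)) = 0 :=
    sum_eq_zero fun τ _ => by rw [hg τ, mul_zero]
  rw [h2] at h1
  exact (mul_eq_zero.1 h1).resolve_left hG0.ne'

theorem FAMC_Dop_zero {n r : ℕ} (a : Fin r → (Fin n →₀ ℕ)) (M : ℤ) (hM : 0 < M) (w : Fin n → ℕ)
    (hN : 0 < H22.wmin a w) (σ : Finset (Fin r))
    (hon : ∀ b ∈ σ, ∑ j, a b j * w j = H22.wmin a w)
    (lam : Fin r → ℚ) (th : Fin r → Fin r → ℚ) (G : ℤ) (γ : TT w σ → Lat (n + 2))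
    (q : TT w σ → ℂ) (hG : GD a M w σ lam th G γ q) (m0 : ℤ) (hm0 : 0 < m0)
    (T' : Fin r → ℤ) (m1 : ℤ) (c : Fin r ⊕ (Option (Fin n) ⊕ Fin 0) → ℂ)
    (z : LP ℂ (n + 2)) (hz : Supp (RS a M w σ m0 T' m1) z) (g : Lat (n + 2))
    (hg : ∀ τ, dt g (A5 a M (XT w σ τ)) = 0) :
    Dop (pp (-(H22.wsum w : ℂ) / (H22.wmin a w : ℂ)) Complex.I) (A5 a M)
      (cF (A5 a M) c (h5 a w)) g z = 0 := by
  apply lp_ext
  intro u
  rw [Dop_coeff, coeff_zero']
  have h1 : pv (pp (-(H22.wsum w : ℂ) / (H22.wmin a w : ℂ)) Complex.I) g = 0 := by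
    rw [hG.par]
    exact sum_eq_zero fun τ _ => by rw [hg τ, Int.cast_zero, mul_zero]
  have h2 : (dt g u : ℂ) * z.coeff u = 0 := by
    by_cases hu : z.coeff u = 0
    · rw [hu, mul_zero]
    · have h3 := ((rge a M hM w hN σ hon lam th G γ q hG m0 hm0 T' m1 u).1 (hz u hu)).1
      rw [FAMC_dt_zero a M w σ G hG.G0 γ u h3 g hg, Int.cast_zero, zero_mul]
  have h4 : ∑ i, cF (A5 a M) c (h5 a w) i * (dt g (A5 a M i) : ℂ) * z.coeff (u - A5 a M i) = 0 := by
    refine sum_eq_zero fun i _ => ?_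
    by_cases hi : dt (h5 a w) (A5 a M i) = 0
    · have h5' := (hG.face i hi).2
      rw [FAMC_dt_zero a M w σ G hG.G0 γ (A5 a M i) h5' g hg, Int.cast_zero, mul_zero, zero_mul]
    · have : cF (A5 a M) c (h5 a w) i = 0 := if_neg hi
      rw [this, zero_mul, zero_mul]
  rw [h1, zero_add, h2, h4, sub_zero]

theorem FAMC_Dop_comb {d : ℕ} {ι κ : Type} [Fintype ι] [Fintype κ] (p : Fin d → ℂ)
    (A : ι → Lat d) (c : ι → ℂ) (N : ℤ) (g : Lat d) (k : κ → ℤ) (f : κ → Lat d) (z : LP ℂ d) :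
    Dop p A c (N • g - ∑ τ, k τ • f τ) z =
      (N : ℂ) • Dop p A c g z - ∑ τ, (k τ : ℂ) • Dop p A c (f τ) z := by
  rw [Dop_left p A c (N • g - ∑ τ, k τ • f τ) z, Dop_left p A c g z]
  have e : ∀ τ, Dop p A c (f τ) z = ∑ j, ((f τ j : ℤ) : ℂ) • Dop p A c (ev j) z := fun τ =>
    Dop_left p A c (f τ) z
  simp_rw [e]
  rw [Finset.smul_sum]
  simp_rw [Finset.smul_sum]
  rw [Finset.sum_comm, ← Finset.sum_sub_distrib]
  refine sum_congr rfl fun j _ => ?_
  rw [smul_smul]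
  simp_rw [smul_smul]
  rw [← Finset.sum_smul, ← sub_smul]
  congr 1
  rw [Pi.sub_apply, Finset.sum_apply]
  simp only [Pi.smul_apply, smul_eq_mul]
  push_cast
  ring

theorem FAMC_dt_comb {d : ℕ} {κ : Type} [Fintype κ] (N : ℤ) (g : Lat d) (k : κ → ℤ)
    (f : κ → Lat d) (u : Lat d) : dt (N • g - ∑ τ, k τ • f τ) u =
      N * dt g u - ∑ τ, k τ * dt (f τ) u := by
  rw [dt_comm, dt_sub, dt_zsmul, dt_sum, dt_comm u g]
  congr 1
  refine sum_congr rfl fun τ _ => ?_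
  rw [dt_zsmul, dt_comm]

/-- FAMC -/
theorem famC {n r s : ℕ} (a : Fin r → (Fin n →₀ ℕ)) (M : ℤ) (hM : 0 < M) (w : Fin n → ℕ)
    (hN : 0 < H22.wmin a w) (σ : Finset (Fin r))
    (hon : ∀ b ∈ σ, ∑ j, a b j * w j = H22.wmin a w)
    (lam : Fin r → ℚ) (th : Fin r → Fin r → ℚ) (G : ℤ) (γ : TT w σ → Lat (n + 2))
    (q : TT w σ → ℂ) (hG : GD a M w σ lam th G γ q) (m0 : ℤ) (hm0 : 0 < m0)
    (D P : Finset (Fin n)) (T T' : Fin r → ℤ) (m1 : ℤ) (hZ : SZ a w σ lam th m0 D P T T')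
    (jb : Fin r → Option (Fin n)) (hjb : JB a σ P jb) (e : Fin s ≃ TT w σ)
    (c : Fin r ⊕ (Option (Fin n) ⊕ Fin 0) → ℂ) (x : LP ℂ (n + 2))
    (hex : ExL (pp (-(H22.wsum w : ℂ) / (H22.wmin a w : ℂ)) Complex.I) (A5 a M)
      (cF (A5 a M) c (h5 a w)) ev (sh P) (RS a M w σ m0 T' m1) x) :
    ExL (pp (-(H22.wsum w : ℂ) / (H22.wmin a w : ℂ)) Complex.I) (A5 a M)
      (cF (A5 a M) c (h5 a w)) (fun k => fam w σ γ jb (e k)) (PP w σ jb e)
      (RS a M w σ m0 T' m1) x := by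
  classical
  obtain ⟨z, hz, hx⟩ := hex
  have hK : ∀ i : Fin (n + 2), ∃ (N : ℤ) (k : TT w σ → ℤ), N ≠ 0 ∧
      (∀ τ', N * dt (ev i) (A5 a M (XT w σ τ')) =
        ∑ τ, k τ * dt (fam w σ γ jb τ) (A5 a M (XT w σ τ'))) ∧
      (∀ j ∈ P, i = j.succ.succ → ∀ τ, k τ ≠ 0 → ∃ b : {b : Fin r // b ∈ σ},
        τ = Sum.inl b ∧ jb b.1 = some j) := by
    intro i
    by_cases hi : ∃ j ∈ P, i = j.succ.succ
    · obtain ⟨j, hj, rfl⟩ := hi
      obtain ⟨b, hb, hab, -⟩ := hZ.TD j (hZ.PD hj)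
      have hjb' : jb b = some j := (hjb b hb j).2 ⟨hj, hab⟩
      have hfam : fam w σ γ jb (Sum.inl ⟨b, hb⟩) = ev j.succ.succ := by
        simp only [fam, hjb', Option.elim_some]
      refine ⟨1, Pi.single (Sum.inl ⟨b, hb⟩) 1, one_ne_zero, ?_, ?_⟩
      · intro τ'
        rw [Finset.sum_eq_single (Sum.inl ⟨b, hb⟩)]
        · rw [Pi.single_eq_same, hfam]
        · intro τ _ hτ
          rw [Pi.single_eq_of_ne hτ, zero_mul]
        · intro h
          exact absurd (mem_univ _) h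
      · intro j' _ hjj' τ hτ
        have hτ' : τ = Sum.inl ⟨b, hb⟩ := by
          by_contra h
          exact hτ (Pi.single_eq_of_ne h _)
        have e1 : j = j' := Fin.succ_injective _ (Fin.succ_injective _ hjj')
        subst e1
        exact ⟨⟨b, hb⟩, hτ', hjb'⟩
    · obtain ⟨N, k, hN0, hk⟩ := fam_span a M hM w σ lam th G γ q hG m0 D P T T' hZ jb hjb (ev i)
      exact ⟨N, k, hN0, hk, fun j hj hij => absurd ⟨j, hj, hij⟩ hi⟩
  choose N k hN0 hk hkP using hK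
  have hrel : ∀ i, (N i : ℂ) • Dop (pp (-(H22.wsum w : ℂ) / (H22.wmin a w : ℂ)) Complex.I)
      (A5 a M) (cF (A5 a M) c (h5 a w)) (ev i) (z i) =
      ∑ τ, (k i τ : ℂ) • Dop (pp (-(H22.wsum w : ℂ) / (H22.wmin a w : ℂ)) Complex.I)
      (A5 a M) (cF (A5 a M) c (h5 a w)) (fam w σ γ jb τ) (z i) := by
    intro i
    have h1 := FAMC_Dop_comb (pp (-(H22.wsum w : ℂ) / (H22.wmin a w : ℂ)) Complex.I) (A5 a M)
      (cF (A5 a M) c (h5 a w)) (N i) (ev i) (k i) (fam w σ γ jb) (z i)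
    have h2 := FAMC_Dop_zero a M hM w hN σ hon lam th G γ q hG m0 hm0 T' m1 c (z i)
      ((hz i).mono Set.inter_subset_left) (N i • ev i - ∑ τ, k i τ • fam w σ γ jb τ) (by
        intro τ'
        rw [FAMC_dt_comb, hk i τ', sub_self])
    rw [h2] at h1
    exact (sub_eq_zero.1 h1.symm)
  refine ⟨fun t => ∑ i, ((k i (e t) : ℂ) / (N i : ℂ)) • z i, ?_, ?_⟩
  · intro t
    refine Supp.sum _ fun i _ => ?_
    by_cases h0 : k i (e t) = 0
    · rw [h0, Int.cast_zero, zero_div, zero_smul]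
      exact Supp.zero _
    · refine Supp.smul _ ((hz i).mono ?_)
      rintro u ⟨hu1, hu2⟩
      refine ⟨hu1, ?_⟩
      intro t' ht'
      have ht'' : ∃ b : {b : Fin r // b ∈ σ}, e t' = Sum.inl b ∧ jb b.1 ≠ none := by
        have := ht'
        unfold PP at this
        exact (mem_filter.1 this).2
      obtain ⟨b', hb', hne⟩ := ht''
      obtain ⟨j', hj'⟩ := Option.ne_none_iff_exists'.1 hne
      obtain ⟨hj'P, hab'⟩ := (hjb b'.1 b'.2 j').1 hj'
      have hfam : fam w σ γ jb (e t') = ev j'.succ.succ := by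
        rw [hb']
        simp only [fam, hj', Option.elim_some]
      have hmem : j'.succ.succ ∈ sh P := mem_sh.2 ⟨j', hj'P, rfl⟩
      have h3 := hu2 _ hmem
      simp only [hfam]
      refine ⟨h3.1, fun hne' => h3.2 fun hi => hne' ?_⟩
      rw [Finset.mem_singleton] at hi ⊢
      obtain ⟨b, hb, hjbb⟩ := hkP i j' hj'P hi.symm (e t) h0
      obtain ⟨-, hab⟩ := (hjb b.1 b.2 j').1 hjbb
      obtain ⟨b0, hb0, -, huniq, -⟩ := hZ.TD j' (hZ.PD hj'P)
      have e1 : b.1 = b0 := by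
        by_contra h
        exact hab (huniq b.1 b.2 h)
      have e2 : b'.1 = b0 := by
        by_contra h
        exact hab' (huniq b'.1 b'.2 h)
      have e3 : b' = b := Subtype.ext (e2.trans e1.symm)
      apply e.injective
      rw [hb', hb, e3]
  · rw [hx]
    have e1 : ∀ i, Dop (pp (-(H22.wsum w : ℂ) / (H22.wmin a w : ℂ)) Complex.I)
        (A5 a M) (cF (A5 a M) c (h5 a w)) (ev i) (z i) =
        ∑ t, ((k i (e t) : ℂ) / (N i : ℂ)) •
          Dop (pp (-(H22.wsum w : ℂ) / (H22.wmin a w : ℂ)) Complex.I)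
          (A5 a M) (cF (A5 a M) c (h5 a w)) (fam w σ γ jb (e t)) (z i) := by
      intro i
      have hNi : (N i : ℂ) ≠ 0 := by exact_mod_cast hN0 i
      rw [Equiv.sum_comp e (fun τ => ((k i τ : ℂ) / (N i : ℂ)) •
          Dop (pp (-(H22.wsum w : ℂ) / (H22.wmin a w : ℂ)) Complex.I)
          (A5 a M) (cF (A5 a M) c (h5 a w)) (fam w σ γ jb τ) (z i))]
      have h1 := congrArg (fun y => ((N i : ℂ)⁻¹) • y) (hrel i)
      simp only [smul_smul, inv_mul_cancel₀ hNi, one_smul, Finset.smul_sum] at h1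
      rw [h1]
      refine sum_congr rfl fun τ _ => ?_
      rw [div_eq_inv_mul (k i τ : ℂ) (N i : ℂ)]
    rw [sum_congr rfl fun i _ => e1 i, Finset.sum_comm]
    refine sum_congr rfl fun t _ => ?_
    rw [Dop_sum]
    refine sum_congr rfl fun i _ => ?_
    rw [Dop_smul]

end Pool.Agent.H56.T5

end S_FAMC

section S_KSL

/-!
# KSL: exactness of the mixed complex on the slice

Write `A = A5 a M`, `ℓ' k = fam w σ γ jb (e k)`, `P' = PP w σ jb e`, `y0 = yv a M w σ T' m1`, `H = h5 a w`.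
Proof.  `fspan`, `fac` give `h` with `hh`, `hfac` for `A = cA a (bbM (noW n) M)` (as in `appL`, `Pool/Agent/H56/T5/APPL.lean`; `0 < r` by `appg_pos`), `δ = vec 1 1 0` (`appg_delta`), `0 ≤ dt H (A i)` (`appg_h0`).
`RS a M w σ m0 T' m1 = {u | m0 • u + y0 ∈ Sset h ∧ dt H u = 0}` (`appg_sset`).  Apply `kexL` with `k0 = e.symm (inr none)` (not in `P'`).
`hPa`: for `k ∈ P'` `ℓ' k = ev j.succ.succ` and the exponents have nonnegative coordinates.  `hy0`: `yv_h5`.  `hyP`: `e k = inl b`, `jb b = some j`, so `j ∈ P`, `a b j ≠ 0` (`hjb`), and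
`dt (ev j.succ.succ) y0 = y0 j.succ.succ = ∑_{b' ∈ σ} T' b' * a b' j` (`yv_coord`, `w j ≠ 0`) `= T' b * a b j = m0` (`hZ.TD`: `b` is the only vertex with `a b j ≠ 0`; `hZ.TP`).
`hA`, `hB`: let `n : Fin s → ℤ`, `J = univ` and `Z = ∅`, or `Z ⊆ P'`, `J = (univ \ Z).erase k0`.  Put `k τ = n (e.symm τ)` if `e.symm τ ∈ J` and `0` otherwise; `Z̃ = {τ | e.symm τ ∈ Z}` (all of the form `inl b`).  For every generator
`τ' ∉ Z̃`: `dt H (X τ') = 0` (`hG.gen`) and `dt (ℓ' i) (X τ') = 0` for `i ∈ Z` (`fam_val`: `e i = inl b`, `τ' ≠ inl b`), so `dt (HZ H ℓ' Z) (X τ') = 0` (`dt_HZ`) and the relation holds at `X τ'`: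
`fam_indep` gives `k = 0`.
-/

set_option autoImplicit false

namespace Pool.Agent.H56.T5

open Finset AddMonoidAlgebra
open Pool.Agent.H56.SMC Pool.Agent.H37.T5

/-- KSL -/
theorem kSL {n r s : ℕ} (a : Fin r → (Fin n →₀ ℕ)) (M : ℤ) (hM : 0 < M) (w : Fin n → ℕ)
    (hN : 0 < H22.wmin a w) (σ : Finset (Fin r))
    (hon : ∀ b ∈ σ, ∑ j, a b j * w j = H22.wmin a w)
    (lam : Fin r → ℚ) (th : Fin r → Fin r → ℚ) (G : ℤ) (γ : TT w σ → Lat (n + 2))
    (q : TT w σ → ℂ) (hG : GD a M w σ lam th G γ q) (m0 : ℤ) (hm0 : 0 < m0)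
    (D P : Finset (Fin n)) (T T' : Fin r → ℤ) (m1 : ℤ) (hZ : SZ a w σ lam th m0 D P T T')
    (jb : Fin r → Option (Fin n)) (hjb : JB a σ P jb) (e : Fin s ≃ TT w σ)
    (c : Fin r ⊕ (Option (Fin n) ⊕ Fin 0) → ℂ) (hnd : TorusND (A5 a M) c) :
    KExactL (A5 a M) (cF (A5 a M) c (h5 a w)) (fun k => fam w σ γ jb (e k)) (PP w σ jb e)
      (RS a M w σ m0 T' m1) := by
  classical
  have hr := appg_pos a w hN
  have hδ := appg_delta a (noW n) M
  obtain ⟨e', he'⟩ := fspan hr a (noW n) M hM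
  obtain ⟨mf, h, hh, hprim, hfacet, hfac⟩ := fac (cA a (bbM (noW n) M)) (vec 1 1 0) hδ ⟨e', he'⟩
  have hS := appg_sset (cA a (bbM (noW n) M)) h hh hfac
  have hh0 := appg_h0 a (noW n) M hM w (fun k => k.elim0)
  obtain ⟨hv1, hv2, hv3, -, -, -, -⟩ := fam_val a M hM w σ lam th G γ q hG m0 D P T T' hZ jb hjb
  have hmemPP : ∀ k, k ∈ PP w σ jb e ↔
      ∃ b : {b : Fin r // b ∈ σ}, e k = Sum.inl b ∧ jb b.1 ≠ none := by
    intro k
    simp [PP]
  -- the functional of an index of `P'`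
  have hfamP : ∀ k ∈ PP w σ jb e, ∃ (b : {b : Fin r // b ∈ σ}) (j : Fin n), e k = Sum.inl b ∧
      jb b.1 = some j ∧ fam w σ γ jb (e k) = ev j.succ.succ := by
    intro k hk
    obtain ⟨b, hb, hjb'⟩ := (hmemPP k).1 hk
    obtain ⟨j, hj⟩ := Option.ne_none_iff_exists'.1 hjb'
    refine ⟨b, j, hb, hj, ?_⟩
    rw [hb]
    show (jb b.1).elim (γ (Sum.inl b)) (fun j => ev j.succ.succ) = _
    rw [hj]
    rfl
  have hPa : ∀ k ∈ PP w σ jb e, ∀ i, 0 ≤ dt (fam w σ γ jb (e k)) (A5 a M i) := by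
    intro k hk i
    obtain ⟨b, j, -, -, hf⟩ := hfamP k hk
    rw [hf, dt_ev]
    rcases i with i | (o | k)
    · simp [A5, cA, vec]
    · simp only [A5, cA, vec, Fin.cons_succ]
      exact appg_bbM_nonneg (noW n) M hM o j
    · exact k.elim0
  have hyP : ∀ k ∈ PP w σ jb e, dt (fam w σ γ jb (e k)) (yv a M w σ T' m1) = m0 := by
    intro k hk
    obtain ⟨b, j, -, hj, hf⟩ := hfamP k hk
    obtain ⟨hjP, hab⟩ := (hjb b.1 b.2 j).1 hj
    have hjD := hZ.PD hjP
    rw [hf, dt_ev, yv_coord, if_neg (hZ.D0 j hjD), add_zero]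
    obtain ⟨b1, hb1, hab1, hun, -⟩ := hZ.TD j hjD
    have hbb : b.1 = b1 := by
      by_contra hne
      exact hab (hun b.1 b.2 hne)
    rw [Finset.sum_eq_single b.1]
    · exact (hZ.TP j hjP b.1 b.2 hab).1
    · intro b' hb' hne
      rw [hun b' hb' (by rw [← hbb]; exact hne)]
      simp
    · intro h'
      exact absurd b.2 h'
  have hk0 : e.symm (Sum.inr none) ∉ PP w σ jb e := by
    intro h'
    obtain ⟨b, hb, -⟩ := (hmemPP _).1 h'
    rw [e.apply_symm_apply] at hb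
    simp at hb
  -- independence
  have hgen : ∀ Z ⊆ PP w σ jb e, ∀ J : Finset (Fin s), Disjoint Z J →
      IndOn (A5 a M) (HZ (h5 a w) (fun k => fam w σ γ jb (e k)) Z)
        (fun k => fam w σ γ jb (e k)) J := by
    intro Z hZP J hdis nn hnn k hk
    have hkk := fam_indep a M hM w σ lam th G γ q hG m0 D P T T' hZ jb hjb
      {τ | e.symm τ ∈ Z} (by
        intro τ hτ
        obtain ⟨b, hb, -⟩ := (hmemPP _).1 (hZP hτ)
        rw [e.apply_symm_apply] at hb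
        exact ⟨b, hb⟩)
      (fun τ => if e.symm τ ∈ J then nn (e.symm τ) else 0) (by
        intro τ hτ
        exact if_neg (Finset.disjoint_left.1 hdis hτ)) (by
        intro τ' hτ'
        have h1 : dt (HZ (h5 a w) (fun k => fam w σ γ jb (e k)) Z)
            (A5 a M (XT w σ τ')) = 0 := by
          rw [dt_HZ, hG.gen τ', zero_add]
          refine Finset.sum_eq_zero fun i hi => ?_
          obtain ⟨b, hb, -⟩ := (hmemPP _).1 (hZP hi)
          show dt (fam w σ γ jb (e i)) _ = 0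
          rw [hb]
          rcases τ' with b' | o
          · refine hv2 b b' ?_
            rintro rfl
            apply hτ'
            show e.symm (Sum.inl b) ∈ Z
            rw [← hb, e.symm_apply_apply]
            exact hi
          · exact hv3 b o
        have h2 := hnn _ h1
        refine Eq.trans ?_ h2
        rw [← Equiv.sum_comp e]
        simp only [Equiv.symm_apply_apply, ite_mul, zero_mul]
        rw [Finset.sum_ite_mem, Finset.univ_inter])
    have := congrFun hkk (e k)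
    simpa [hk] using this
  have hset : RS a M w σ m0 T' m1 =
      {u | m0 • u + yv a M w σ T' m1 ∈ Sset h ∧ dt (h5 a w) u = 0} := by
    ext u
    constructor
    · rintro ⟨h1, h2⟩
      exact ⟨(hS _).2 h1, h2⟩
    · rintro ⟨h1, h2⟩
      exact ⟨(hS _).1 h1, h2⟩
  rw [hset]
  refine kexL (A5 a M) c h (vec 1 1 0) hδ hh hfac hnd (h5 a w) hh0
    (fun k => fam w σ γ jb (e k)) (PP w σ jb e) hPa m0 hm0 (yv a M w σ T' m1)
    (yv_h5 a M w σ hon T' m1) hyP (e.symm (Sum.inr none)) hk0 ?_ ?_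
  · have h1 := hgen ∅ (Finset.empty_subset _) univ (Finset.disjoint_empty_left _)
    have h2 : HZ (h5 a w) (fun k => fam w σ γ jb (e k)) (∅ : Finset (Fin s)) = h5 a w := by
      simp [HZ]
    rwa [h2] at h1
  · intro Z hZP
    refine hgen Z hZP _ ?_
    rw [Finset.disjoint_left]
    intro x hx hx'
    have := Finset.mem_of_mem_erase hx'
    exact (Finset.mem_sdiff.1 this).2 hx

end Pool.Agent.H56.T5

end S_KSL

section S_SLF

/-!
# SLF: the contradiction on the slice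

Write `A = A5 a M`, `X τ = A (XT w σ τ)`, `c' = cF A c (h5 a w)`, `S' = RS a M w σ m0 T' m1`, `ℓ' k = fam w σ γ jb (e k)`, `P' = PP w σ jb e`, `m0 = M * m1`.
Proof.  `degL` (`Pool/Agent/H56/T5/DEGL.lean`) with `δ = vec 1 1 0` (`appg_delta`): `hP1`: for `k ∈ P'` `ℓ' k = ev j.succ.succ`, `pv (pp …) (ev j.succ.succ) = 1`; `hPa`; `hS`: `rs_add` (`c' i ≠ 0` gives
`dt (h5 a w) (A i) = 0`).  It gives `t k` supported in `{u ∈ S', u ∈ LL ℓ' P' {k}}` and `single 0 β = ∑ k, gs A c' (ℓ' k) * t k`.  Suppose `β ≠ 0`.  The coefficient at `0` (`gs_mul_coeff`): some `k`, `i` with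
`c' i ≠ 0` (so `dt (h5 a w) (A i) = 0`) and `(t k).coeff (0 - A i) ≠ 0`, so `-A i ∈ S'` and `-A i ∈ LL ℓ' P' {k}`.  By `rge`:
`0 ≤ dt (γ (inr none)) (-A i)`, `0 ≤ m0 * dt (γ (inr (some j))) (-A i) + G * m1`, `0 ≤ m0 * dt (γ (inl b)) (-A i) + G * T' b`.
`i = inr (inl none)` is a generator: `dt (γ (inr none)) (-A i) = -G < 0`, contradiction.  `i = inr (inl (some j))`: `dt (h5 a w) (A i) = M * w j`, so `w j = 0` and it is a generator:
`0 ≤ -m0 G + G m1 = G m1 (1 - M) < 0` (`M ≥ 2`), contradiction.  `i = inl i0`: `dt (h5 a w) (A i) = 0` means that `i0` is on the face (`∑ j, a i0 j * w j = wmin a w`);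
`0 ≤ -m0 * (G * th i0 b) + G * T' b` (`hG.thb`), so `th i0 b * m0 ≤ T' b` for all `b ∈ σ`.  By `hZ.no` there are `j1, j2 ∈ P` with `a i0 j1 ≠ 0`, `a i0 j2 ≠ 0`, `j1 ≠ j2`.  Let `b1, b2 ∈ σ` be vertices with
`a b1 j1 ≠ 0`, `a b2 j2 ≠ 0` (`hZ.TD`), so `jb b1 = some j1`, `jb b2 = some j2` (`hjb`), `b1 ≠ b2`; `k1 = e.symm (inl b1)`, `k2 = e.symm (inl b2)` are in `P'` and different, so one of them,
say `k1`, is `≠ k`, and `0 ≤ dt (ℓ' k1) (-A i) = -(a i0 j1)`, contradiction.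
-/

set_option autoImplicit false

namespace Pool.Agent.H56.T5

open Finset AddMonoidAlgebra
open Pool.Agent.H56.SMC Pool.Agent.H37.T5

theorem SLF_pv {n : ℕ} (s t : ℂ) (j : Fin n) :
    pv (pp s t) (ev j.succ.succ : Lat (n + 2)) = 1 := by
  have h : (ev j.succ.succ : Lat (n + 2)) = vec 0 0 (ev j) := by
    funext i
    refine Fin.cases ?_ (fun i => Fin.cases ?_ (fun i => ?_) i) i
    · simp [vec, ev, Pi.single_apply]
    · simp only [vec, ev, Fin.cons_succ, Fin.cons_zero, Pi.single_apply]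
      rw [if_neg]
      intro h
      exact Fin.succ_ne_zero _ (Fin.succ_injective _ h).symm
    · simp [vec, ev, Pi.single_apply]
  rw [h, pv_pp]
  simp [ev, Pi.single_apply]

theorem SLF_coord {n r : ℕ} (a : Fin r → (Fin n →₀ ℕ)) (M : ℤ) (hM : 0 < M) (j : Fin n)
    (i : Fin r ⊕ (Option (Fin n) ⊕ Fin 0)) : 0 ≤ dt (ev j.succ.succ) (A5 a M i) := by
  rw [dt_ev]
  rcases i with i | (o | k)
  · rw [A5_inl]
    simp [vec]
  · have h := appg_bbM_nonneg (noW n) M hM o j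
    simpa [A5, cA, vec] using h
  · exact k.elim0

theorem SLF_inl {n r : ℕ} (a : Fin r → (Fin n →₀ ℕ)) (M : ℤ) (j : Fin n) (i : Fin r) :
    dt (ev j.succ.succ) (A5 a M (Sum.inl i)) = (a i j : ℤ) := by
  rw [dt_ev, A5_inl]
  simp [vec]

theorem SLF_h5_inl {n r : ℕ} (a : Fin r → (Fin n →₀ ℕ)) (M : ℤ) (w : Fin n → ℕ) (i : Fin r)
    (h : dt (h5 a w) (A5 a M (Sum.inl i)) = 0) : ∑ j, a i j * w j = H22.wmin a w := by
  rw [A5_inl, h5, dt_vec] at h
  have h2 : ((∑ j, a i j * w j : ℕ) : ℤ) = (H22.wmin a w : ℤ) := by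
    push_cast
    have h3 : ∑ j, (w j : ℤ) * (a i j : ℤ) = ∑ j, (a i j : ℤ) * (w j : ℤ) :=
      sum_congr rfl fun j _ => mul_comm _ _
    linarith
  exact_mod_cast h2

theorem SLF_h5_some {n r : ℕ} (a : Fin r → (Fin n →₀ ℕ)) (M : ℤ) (hM : 0 < M) (w : Fin n → ℕ)
    (j : Fin n) (h : dt (h5 a w) (A5 a M (Sum.inr (Sum.inl (some j)))) = 0) : w j = 0 := by
  rw [A5_some, h5, dt_vec] at h
  simp only [ev, Pi.smul_apply, Pi.single_apply, smul_eq_mul, mul_ite, mul_one, mul_zero,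
    Finset.sum_ite_eq', mem_univ, if_true, add_zero, zero_add, zero_mul] at h
  rcases mul_eq_zero.1 h with h1 | h1
  · exact_mod_cast h1
  · exact absurd h1 hM.ne'

/-- SLF -/
theorem slF {n r s : ℕ} (a : Fin r → (Fin n →₀ ℕ)) (M : ℤ) (hM : 2 ≤ M) (w : Fin n → ℕ)
    (hN : 0 < H22.wmin a w) (σ : Finset (Fin r))
    (hon : ∀ b ∈ σ, ∑ j, a b j * w j = H22.wmin a w)
    (lam : Fin r → ℚ) (th : Fin r → Fin r → ℚ) (G : ℤ) (γ : TT w σ → Lat (n + 2))
    (q : TT w σ → ℂ) (hG : GD a M w σ lam th G γ q) (m1 : ℤ) (hm1 : 0 < m1)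
    (D P : Finset (Fin n)) (T T' : Fin r → ℤ) (hZ : SZ a w σ lam th (M * m1) D P T T')
    (jb : Fin r → Option (Fin n)) (hjb : JB a σ P jb) (e : Fin s ≃ TT w σ)
    (c : Fin r ⊕ (Option (Fin n) ⊕ Fin 0) → ℂ)
    (hK : KExactL (A5 a M) (cF (A5 a M) c (h5 a w)) (fun k => fam w σ γ jb (e k)) (PP w σ jb e)
      (RS a M w σ (M * m1) T' m1)) (β : ℂ)
    (hex : ExL (pp (-(H22.wsum w : ℂ) / (H22.wmin a w : ℂ)) Complex.I) (A5 a M)
      (cF (A5 a M) c (h5 a w)) (fun k => fam w σ γ jb (e k)) (PP w σ jb e)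
      (RS a M w σ (M * m1) T' m1) (single 0 β)) : β = 0 := by
  classical
  have hM0 : 0 < M := by linarith
  have hm0 : 0 < M * m1 := mul_pos hM0 hm1
  have hP : ∀ k ∈ PP w σ jb e, ∃ j : Fin n, fam w σ γ jb (e k) = ev j.succ.succ := by
    intro k hk
    rw [PP, mem_filter] at hk
    obtain ⟨-, b, hb, hjbn⟩ := hk
    obtain ⟨j, hj⟩ := Option.ne_none_iff_exists'.1 hjbn
    refine ⟨j, ?_⟩
    rw [hb]
    simp only [fam]
    rw [hj]
    rfl
  obtain ⟨t, ht, hsum⟩ := degL (A5 a M) (cF (A5 a M) c (h5 a w))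
    (pp (-(H22.wsum w : ℂ) / (H22.wmin a w : ℂ)) Complex.I) (fun k => fam w σ γ jb (e k))
    (PP w σ jb e)
    (fun k hk => by
      obtain ⟨j, hj⟩ := hP k hk
      simp only [hj]
      exact SLF_pv _ _ j)
    (fun k hk i => by
      obtain ⟨j, hj⟩ := hP k hk
      simp only [hj]
      exact SLF_coord a M hM0 j i)
    (RS a M w σ (M * m1) T' m1) (vec 1 1 0) (fun i _ => appg_delta a (noW n) M i)
    (fun u hu i hi => rs_add a M w σ (M * m1) hm0 T' m1 u hu i (cF_ne hi)) hK β hex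
  by_contra hβ
  -- a nonzero coefficient
  have h0 : (∑ k, gs (A5 a M) (cF (A5 a M) c (h5 a w)) (fam w σ γ jb (e k)) * t k).coeff 0 ≠ 0 := by
    rw [← hsum, coeff_single', if_pos rfl]
    exact hβ
  rw [coeff_finsum] at h0
  obtain ⟨k, -, hk⟩ := Finset.exists_ne_zero_of_sum_ne_zero h0
  rw [gs_mul_coeff] at hk
  obtain ⟨i, -, hi⟩ := Finset.exists_ne_zero_of_sum_ne_zero hk
  have hci : cF (A5 a M) c (h5 a w) i ≠ 0 := fun h => hi (by rw [h, zero_mul, zero_mul])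
  have hti : (t k).coeff (0 - A5 a M i) ≠ 0 := fun h => hi (by rw [h, mul_zero])
  have hface := cF_ne hci
  obtain ⟨hS, hLL, -⟩ := ht k _ hti
  rw [zero_sub] at hS hLL
  obtain ⟨-, hb, h00, hjj⟩ := (rge a M hM0 w hN σ hon lam th G γ q hG (M * m1) hm0 T' m1 _).1 hS
  have hG0 := hG.G0
  rcases i with i0 | (o | k0)
  · -- an exponent of the polynomial
    have hf := SLF_h5_inl a M w i0 hface
    have hth : ∀ b ∈ σ, th i0 b * ((M * m1 : ℤ) : ℚ) ≤ (T' b : ℚ) := by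
      intro b hbσ
      have h1 := hb ⟨b, hbσ⟩
      rw [dt_neg] at h1
      have h2 := hG.thb i0 hf ⟨b, hbσ⟩
      have h3 : (0 : ℚ) ≤ ((M * m1 : ℤ) : ℚ) *
          -(dt (γ (Sum.inl ⟨b, hbσ⟩)) (A5 a M (Sum.inl i0)) : ℚ) + (G : ℚ) * (T' b : ℚ) := by
        exact_mod_cast h1
      rw [h2] at h3
      have h4 : (0 : ℚ) < G := by exact_mod_cast hG0
      have h5 : (0 : ℚ) ≤ (G : ℚ) * ((T' b : ℚ) - th i0 b * ((M * m1 : ℤ) : ℚ)) := by
        have : (G : ℚ) * ((T' b : ℚ) - th i0 b * ((M * m1 : ℤ) : ℚ)) =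
            ((M * m1 : ℤ) : ℚ) * -((G : ℚ) * th i0 b) + (G : ℚ) * (T' b : ℚ) := by ring
        rw [this]
        exact h3
      have h6 := nonneg_of_mul_nonneg_right h5 h4
      linarith
    have hno := hZ.no i0 hf hth
    push Not at hno
    obtain ⟨j1, hj1, j2, hj2, ha1, ha2, hne⟩ := hno
    -- the vertex of a direction is at `k`
    have key : ∀ j ∈ P, a i0 j ≠ 0 → ∃ b : {b : Fin r // b ∈ σ}, jb b.1 = some j ∧
        e k = Sum.inl b := by
      intro j hj haj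
      obtain ⟨b, hbσ, hbj, -, -⟩ := hZ.TD j (hZ.PD hj)
      have hjbj : jb b = some j := (hjb b hbσ j).2 ⟨hj, hbj⟩
      refine ⟨⟨b, hbσ⟩, hjbj, ?_⟩
      by_contra hek
      set k1 := e.symm (Sum.inl ⟨b, hbσ⟩) with hk1
      have hek1 : e k1 = Sum.inl ⟨b, hbσ⟩ := by rw [hk1, Equiv.apply_symm_apply]
      have hk1P : k1 ∈ PP w σ jb e := by
        rw [PP, mem_filter]
        refine ⟨mem_univ _, ⟨b, hbσ⟩, hek1, ?_⟩
        rw [hjbj]
        exact Option.some_ne_none j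
      have hk1k : k1 ∉ ({k} : Finset (Fin s)) := by
        intro h
        rw [mem_singleton] at h
        apply hek
        rw [← h, hek1]
      have h1 := (hLL k1 hk1P).2 hk1k
      have h2 : fam w σ γ jb (e k1) = ev j.succ.succ := by
        rw [hek1]
        simp only [fam]
        rw [hjbj]
        rfl
      simp only [h2] at h1
      rw [dt_neg, SLF_inl] at h1
      have h3 : (0 : ℤ) < (a i0 j : ℤ) := by
        have : 0 < a i0 j := Nat.pos_of_ne_zero haj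
        exact_mod_cast this
      linarith
    obtain ⟨b1, hb1, he1⟩ := key j1 hj1 ha1
    obtain ⟨b2, hb2, he2⟩ := key j2 hj2 ha2
    have hbb : b1 = b2 := Sum.inl_injective (he1.symm.trans he2)
    subst hbb
    rw [hb1] at hb2
    exact hne (Option.some_injective _ hb2)
  · rcases o with _ | j
    · have h1 := hG.dual (Sum.inr none) (Sum.inr none)
      rw [if_pos rfl] at h1
      rw [dt_neg] at h00
      have h2 : dt (γ (Sum.inr none)) (A5 a M (Sum.inr (Sum.inl none))) = G := h1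
      rw [h2] at h00
      linarith
    · have hw := SLF_h5_some a M hM0 w j hface
      have h1 := hG.dual (Sum.inr (some ⟨j, hw⟩)) (Sum.inr (some ⟨j, hw⟩))
      rw [if_pos rfl] at h1
      have h2 : dt (γ (Sum.inr (some ⟨j, hw⟩))) (A5 a M (Sum.inr (Sum.inl (some j)))) = G := h1
      have h3 := hjj ⟨j, hw⟩
      rw [dt_neg, h2] at h3
      have h4 : 0 < G * m1 := mul_pos hG0 hm1
      nlinarith
  · exact k0.elim0

end Pool.Agent.H56.T5

end S_SLF

section S_RTH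

/-!
# RTH: theorem R
-/

set_option autoImplicit false

namespace Pool.Agent.H56.T5

open Finset AddMonoidAlgebra
open Pool.Agent.H56.SMC Pool.Agent.H37.T5

/-- Theorem R -/
theorem rth {n r : ℕ} (a : Fin r → (Fin n →₀ ℕ)) (κ : Fin r → ℂ) (hnd : Nondeg a κ)
    (b : Polynomial ℂ) (P : H22.WeylS n) (hfe : H22.FunctionalEquation (fpoly a κ) b P)
    (w : Fin n → ℕ) (σ : Finset (Fin r)) (hF : FD a w σ) (hs : H22.wsum w ≠ H22.wmin a w)
    (hU : ¬ UB a w σ) : b.IsRoot (-(H22.wsum w : ℂ) / (H22.wmin a w : ℂ)) := by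
  classical
  obtain ⟨lam, mu, th, hR⟩ := rat a w σ hF
  obtain ⟨m1, D, P', T, T', hm1, hZ⟩ := combZ a w σ lam mu th hR hs hU
  obtain ⟨G, γ, q, hG⟩ := gdX a 2 (by norm_num) w σ lam mu th hR
  have hN := hR.pos
  have hr := appg_pos a w hN
  have hm0 : (0 : ℤ) < 2 * m1 := by linarith
  -- the coefficients
  obtain ⟨lm, hlm⟩ := lam_exists (Finset.univ.image κ) (Option (Fin n) ⊕ Fin 0)
  have hlm' : AlgebraicIndependent (Algebra.adjoin ℚ (Set.range κ)) lm := by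
    have h1 : ((Finset.univ.image κ : Finset ℂ) : Set ℂ) = Set.range κ := by
      simp
    rwa [h1] at hlm
  have hT : TorusND (A5 a 2) (cC κ lm) := ndg a κ hnd (bbM (noW n) 2) lm hlm'
  -- the shift
  set y0 : Lat (n + 2) := yv a 2 w σ T m1 with hy0
  have hyC : InC (A5 a 2) y0 := yv_inC a 2 w σ T m1 hZ.T0 hm1.le
  have hyh : dt (h5 a w) y0 = 0 := yv_h5 a 2 w σ hR.on T m1
  have hyj : ∀ j, (∃ i, a i j = 0) → 2 * m1 ≤ y0 j.succ.succ := by
    intro j hj
    rw [hy0, yv_coord]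
    by_cases hw : w j = 0
    · rw [if_pos hw]
      have h1 : 0 ≤ ∑ b ∈ σ, T b * (a b j : ℤ) :=
        sum_nonneg fun b hb => mul_nonneg (hZ.T0 b hb) (by positivity)
      linarith
    · rw [if_neg hw, add_zero]
      exact hZ.TC j hw hj
  have hyD : ∀ j ∈ D, y0 j.succ.succ = 2 * m1 := by
    intro j hj
    rw [hy0, yv_coord, if_neg (hZ.D0 j hj), add_zero]
    obtain ⟨b', hb', -, h2, h3⟩ := hZ.TD j hj
    rw [Finset.sum_eq_single b', h3]
    · intro b'' hb'' hne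
      rw [h2 b'' hb'' hne]
      simp
    · intro h
      exact absurd hb' h
  have hK := gkx hr a κ 2 (by norm_num) lm hT D (2 * m1) hm0 y0 hyD
  have hex := appL a κ b P hfe w hN D 2 (by norm_num) (2 * m1) hm0 y0 hyC hyh hyj lm hK
  have hex1 := slZ a 2 (by norm_num) w hN σ hR.on lam th G γ q hG (2 * m1) hm0 D P' T T' m1 hZ
    (cC κ lm) _ hex
  obtain ⟨jb, hjb⟩ := jb_exists a w σ lam th (2 * m1) D P' T T' hZ
  let e : Fin (Fintype.card (TT w σ)) ≃ TT w σ := (Fintype.equivFin (TT w σ)).symm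
  have hex2 := famC a 2 (by norm_num) w hN σ hR.on lam th G γ q hG (2 * m1) hm0 D P' T T' m1 hZ
    jb hjb e (cC κ lm) _ hex1
  have hKS := kSL a 2 (by norm_num) w hN σ hR.on lam th G γ q hG (2 * m1) hm0 D P' T T' m1 hZ
    jb hjb e (cC κ lm) hT
  have hfin := slF a 2 le_rfl w hN σ hR.on lam th G γ q hG m1 hm1 D P' T T' hZ jb hjb e
    (cC κ lm) hKS _ hex2
  exact hfin

end Pool.Agent.H56.T5

end S_RTH
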