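import Mathlib
import Pool.Agent.H60.RegTri
import Pool.Agent.H22.GDefs
import Pool.Agent.H37.SM.ZRG
import Pool.Agent.H22.Lattice

/-! Strong monodromy, simplicial critical facets, part V1: this file joins the modules ZDefs, ZPS, ZPM, ZEXT, ZVOL, ZVOLB, ZVOLC, ZLOC, ZRANK, ZFAC, ZIN, ZBD. -/

set_option autoImplicit false

section S_ZDefs

/-!
# The zeta side: abstract setting

Finitely many rays `v i ∈ ℤ^κ` and functionals `φ ω ∈ ℤ^κ`, nonnegative on the rays; the cone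
`{φ ≥ 0}` is generated by the rays.  `V(x) = A·x + (B·x) s` is a linear function with values in
`ℤ[s]`, not zero on the rays.  A ray is critical if `V(x)` vanishes at `s = s0`.  The functionals
vanishing at a critical ray are linearly independent and their number is `|κ| - 1`.
-/

set_option autoImplicit false

namespace Pool.Agent.H37.T5

open Finset H60.RegTri

/-- The pairing of integral vectors. -/
def pr {κ : Type} [Fintype κ] (x y : κ → ℤ) : ℤ := ∑ j, x j * y j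

/-- The pairing of an integral functional with a real vector. -/
def prR {κ : Type} [Fintype κ] (x : κ → ℤ) (y : κ → ℝ) : ℝ := ∑ j, (x j : ℝ) * y j

/-- Integral vectors as real vectors. -/
def vR {ι κ : Type} (v : ι → κ → ℤ) : ι → κ → ℝ := fun i j => (v i j : ℝ)

/-- `V(x) = A·x + (B·x) s`. -/
noncomputable def VL {κ : Type} [Fintype κ] (A B x : κ → ℤ) : RatFunc ℂ :=
  (pr A x : RatFunc ℂ) + (pr B x : RatFunc ℂ) * RatFunc.X

/-- `V(x)` vanishes at `s0`. -/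
def IsCr {κ : Type} [Fintype κ] (A B : κ → ℤ) (s0 : ℂ) (x : κ → ℤ) : Prop :=
  (pr A x : ℂ) + (pr B x : ℂ) * s0 = 0

/-- The multiplicity of the vectors `v i`, `i ∈ σ`. -/
noncomputable def mulv {ι κ : Type} (v : ι → κ → ℤ) (σ : Finset ι) : ℕ :=
  H22.latIndex (fun i : σ => v i)

/-- The contribution of a simplicial cone. -/
noncomputable def tmv {ι κ : Type} [Fintype κ] (A B : κ → ℤ) (v : ι → κ → ℤ) (σ : Finset ι) :
    RatFunc ℂ := (mulv v σ : RatFunc ℂ) * ∏ i ∈ σ, (VL A B (v i))⁻¹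

/-- The contribution without the factor of `b`. -/
noncomputable def tmE {ι κ : Type} [Fintype κ] [DecidableEq ι] (A B : κ → ℤ) (v : ι → κ → ℤ)
    (σ : Finset ι) (b : ι) : RatFunc ℂ :=
  (mulv v σ : RatFunc ℂ) * ∏ i ∈ σ.erase b, (VL A B (v i))⁻¹

/-- The setting. -/
structure ZS {ι κ Ω : Type} [Fintype ι] [Fintype κ] [Fintype Ω] (v : ι → κ → ℤ)
    (φ : Ω → κ → ℤ) (A B : κ → ℤ) (s0 : ℂ) : Prop where
  ne : ∀ i, pr A (v i) ≠ 0 ∨ pr B (v i) ≠ 0
  nn : ∀ i ω, 0 ≤ pr (φ ω) (v i)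
  gen : ∀ y : κ → ℝ, (∀ ω, 0 ≤ prR (φ ω) y) →
    ∃ x : ι → ℝ, (∀ i, 0 ≤ x i) ∧ y = ∑ i, x i • vR v i
  ind : ∀ i, IsCr A B s0 (v i) → LinearIndepOn ℝ (vR φ) {ω | pr (φ ω) (v i) = 0}
  card : ∀ i, IsCr A B s0 (v i) →
    (univ.filter (fun ω => pr (φ ω) (v i) = 0)).card + 1 = Fintype.card κ

section
variable {ι κ Ω : Type} [Fintype ι] [Fintype κ]

open Classical in
/-- The rays at which all `φ ω`, `ω ∈ Ξ`, vanish. -/
noncomputable def Gx (v : ι → κ → ℤ) (φ : Ω → κ → ℤ) (Ξ : Finset Ω) : Finset ι :=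
  univ.filter (fun i => ∀ ω ∈ Ξ, pr (φ ω) (v i) = 0)

theorem mem_Gx {v : ι → κ → ℤ} {φ : Ω → κ → ℤ} {Ξ : Finset Ω} {i : ι} :
    i ∈ Gx v φ Ξ ↔ ∀ ω ∈ Ξ, pr (φ ω) (v i) = 0 := by
  simp [Gx]

theorem Gx_mono {v : ι → κ → ℤ} {φ : Ω → κ → ℤ} {Ξ Ξ' : Finset Ω} (h : Ξ ⊆ Ξ') :
    Gx v φ Ξ' ⊆ Gx v φ Ξ := fun _ hi => mem_Gx.2 fun ω hω => mem_Gx.1 hi ω (h hω)

open Classical in
/-- The upper simplices of the rays at which `φ` vanishes on `Ξ`, with `|κ| - |Ξ|` elements. -/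
noncomputable def TT (v : ι → κ → ℤ) (φ : Ω → κ → ℤ) (h : ι → ℝ) (Ξ : Finset Ω) :
    Finset (Finset ι) :=
  univ.filter (fun σ => UpperOn (vR v) h (Gx v φ Ξ) σ ∧ σ.card + Ξ.card = Fintype.card κ)

theorem mem_TT {v : ι → κ → ℤ} {φ : Ω → κ → ℤ} {h : ι → ℝ} {Ξ : Finset Ω} {σ : Finset ι} :
    σ ∈ TT v φ h Ξ ↔ UpperOn (vR v) h (Gx v φ Ξ) σ ∧ σ.card + Ξ.card = Fintype.card κ := by
  simp [TT]

open Classical in
/-- Those which contain an element of `Cl`. -/
noncomputable def TC (v : ι → κ → ℤ) (φ : Ω → κ → ℤ) (h : ι → ℝ) (Cl : Finset ι)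
    (Ξ : Finset Ω) : Finset (Finset ι) := (TT v φ h Ξ).filter (fun σ => ∃ c ∈ σ, c ∈ Cl)

theorem mem_TC {v : ι → κ → ℤ} {φ : Ω → κ → ℤ} {h : ι → ℝ} {Cl : Finset ι} {Ξ : Finset Ω}
    {σ : Finset ι} : σ ∈ TC v φ h Cl Ξ ↔ σ ∈ TT v φ h Ξ ∧ ∃ c ∈ σ, c ∈ Cl := by
  simp [TC]

open Classical in
/-- The pairs `(σ, b)`, `b ∈ σ`, such that `σ - b` contains an element of `Cl`. -/
noncomputable def PrT (v : ι → κ → ℤ) (φ : Ω → κ → ℤ) (h : ι → ℝ) (Cl : Finset ι)
    (Ξ : Finset Ω) : Finset (Finset ι × ι) :=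
  ((TC v φ h Cl Ξ) ×ˢ (univ : Finset ι)).filter
    (fun p => p.2 ∈ p.1 ∧ ∃ c ∈ p.1, c ≠ p.2 ∧ c ∈ Cl)

theorem mem_PrT {v : ι → κ → ℤ} {φ : Ω → κ → ℤ} {h : ι → ℝ} {Cl : Finset ι} {Ξ : Finset Ω}
    {p : Finset ι × ι} : p ∈ PrT v φ h Cl Ξ ↔
      p.1 ∈ TC v φ h Cl Ξ ∧ p.2 ∈ p.1 ∧ ∃ c ∈ p.1, c ≠ p.2 ∧ c ∈ Cl := by
  simp [PrT]

open Classical in
/-- The coefficients of `y` with respect to `σ`. -/
noncomputable def cf (v : ι → κ → ℝ) (σ : Finset ι) (y : κ → ℝ) : ι → ℝ :=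
  if h : ∃ β : ι → ℝ, y = ∑ i ∈ σ, β i • v i then (fun i => if i ∈ σ then h.choose i else 0)
  else fun _ => 0

omit [Fintype ι] [Fintype κ] in
theorem cf_sum {v : ι → κ → ℝ} {σ : Finset ι} {y : κ → ℝ}
    (h : ∃ β : ι → ℝ, y = ∑ i ∈ σ, β i • v i) : y = ∑ i ∈ σ, cf v σ y i • v i := by
  classical
  have h1 := h.choose_spec
  rw [cf, dif_pos h]
  refine h1.trans (sum_congr rfl fun i hi => ?_)
  rw [if_pos hi]

omit [Fintype ι] [Fintype κ] in
theorem cf_eq {v : ι → κ → ℝ} {σ : Finset ι} (hσ : LinearIndepOn ℝ v (σ : Set ι)) {y : κ → ℝ}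
    (β : ι → ℝ) (h : y = ∑ i ∈ σ, β i • v i) {i : ι} (hi : i ∈ σ) : cf v σ y i = β i := by
  have h1 := cf_sum ⟨β, h⟩
  exact coeff_unique v σ hσ _ _ (h1.symm.trans h) i hi

/-- The pair is an interior pair. -/
def Neg (v : ι → κ → ℤ) (φ : Ω → κ → ℤ) (Ξ : Finset Ω) (p : Finset ι × ι) : Prop :=
  ∃ u ∈ Gx v φ Ξ, cf (vR v) p.1 (vR v u) p.2 < 0

open Classical in
/-- The interior pairs. -/
noncomputable def PrN (v : ι → κ → ℤ) (φ : Ω → κ → ℤ) (h : ι → ℝ) (Cl : Finset ι)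
    (Ξ : Finset Ω) : Finset (Finset ι × ι) := (PrT v φ h Cl Ξ).filter (fun p => Neg v φ Ξ p)

open Classical in
/-- The boundary pairs. -/
noncomputable def PrB (v : ι → κ → ℤ) (φ : Ω → κ → ℤ) (h : ι → ℝ) (Cl : Finset ι)
    (Ξ : Finset Ω) : Finset (Finset ι × ι) := (PrT v φ h Cl Ξ).filter (fun p => ¬ Neg v φ Ξ p)

theorem mem_PrN {v : ι → κ → ℤ} {φ : Ω → κ → ℤ} {h : ι → ℝ} {Cl : Finset ι} {Ξ : Finset Ω}
    {p : Finset ι × ι} : p ∈ PrN v φ h Cl Ξ ↔ p ∈ PrT v φ h Cl Ξ ∧ Neg v φ Ξ p := by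
  simp [PrN]

theorem mem_PrB {v : ι → κ → ℤ} {φ : Ω → κ → ℤ} {h : ι → ℝ} {Cl : Finset ι} {Ξ : Finset Ω}
    {p : Finset ι × ι} : p ∈ PrB v φ h Cl Ξ ↔ p ∈ PrT v φ h Cl Ξ ∧ ¬ Neg v φ Ξ p := by
  simp [PrB]

/-- The coefficient of the integral vector `e` at `b` as a constant rational function. -/
noncomputable def cE (v : ι → κ → ℤ) (σ : Finset ι) (e : κ → ℤ) (b : ι) : RatFunc ℂ :=
  RatFunc.C ((cf (vR v) σ (fun j => (e j : ℝ)) b : ℝ) : ℂ)

/-- `J'(Ξ)`, the contribution of the simplices with an element of `Cl`. -/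
noncomputable def JJ [Fintype Ω] (v : ι → κ → ℤ) (φ : Ω → κ → ℤ) (A B : κ → ℤ) (h : ι → ℝ)
    (Cl : Finset ι) (Ξ : Finset Ω) : RatFunc ℂ :=
  (mulv φ Ξ : RatFunc ℂ)⁻¹ * ∑ σ ∈ TC v φ h Cl Ξ, tmv A B v σ

end

end Pool.Agent.H37.T5

end S_ZDefs

section S_ZPS

/-!
# ZPS: two simplices on the same side

`zps` (same side).  `τ + b1`, `τ + b2` upper in `G`, `b1 ≠ b2` not in `τ`, and `v b2 = β b1 • v b1 + ∑_{i ∈ τ} β i • v i`.  If `β b1 > 0`: `hB1` for `l = b2` (not in `insert b1 τ`) gives `h b2 < β b1 * h b1 + ∑_τ β i h i`;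
`v b1 = (1/β b1) v b2 - ∑_τ (β i/β b1) v i`, `hB2` for `l = b1`: `h b1 < (1/β b1) h b2 - ∑_τ (β i/β b1) h i`, i.e. `β b1 h b1 < h b2 - ∑ β i h i`: contradiction.  `β b1 = 0` contradicts the independence of `insert b2 τ`.  So `β b1 < 0`.
-/

set_option autoImplicit false

namespace Pool.Agent.H37.T5

open Finset H60.RegTri

variable {ι κ : Type} [Fintype ι] [DecidableEq ι] [Fintype κ]

/-- ZPS -/
theorem zps (v : ι → κ → ℝ) (h : ι → ℝ) (G τ : Finset ι) (b1 b2 : ι) (h12 : b1 ≠ b2)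
    (h1 : b1 ∉ τ) (h2 : b2 ∉ τ) (hB1 : UpperOn v h G (insert b1 τ))
    (hB2 : UpperOn v h G (insert b2 τ)) (β : ι → ℝ)
    (hβ : v b2 = ∑ i ∈ insert b1 τ, β i • v i) : β b1 < 0 := by
  obtain ⟨hs1, -, hu1⟩ := hB1
  obtain ⟨hs2, hi2, hu2⟩ := hB2
  have hb1G : b1 ∈ G := hs1 (Finset.mem_insert_self _ _)
  have hb2G : b2 ∈ G := hs2 (Finset.mem_insert_self _ _)
  have hn1 : b2 ∉ insert b1 τ := by
    rw [Finset.mem_insert]; rintro (h3 | h3)
    · exact h12 h3.symm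
    · exact h2 h3
  have hn2 : b1 ∉ insert b2 τ := by
    rw [Finset.mem_insert]; rintro (h3 | h3)
    · exact h12 h3
    · exact h1 h3
  have hne : ∀ i ∈ τ, i ≠ b2 := fun i hi h6 => h2 (h6 ▸ hi)
  have hβ' : v b2 = β b1 • v b1 + ∑ i ∈ τ, β i • v i := by
    rw [hβ, Finset.sum_insert h1]
  rcases lt_trichotomy (β b1) 0 with h0 | h0 | h0
  · exact h0
  · exfalso
    -- `v b2` in the span of `τ`
    have h3 : v b2 = ∑ i ∈ τ, β i • v i := by rw [hβ', h0, zero_smul, zero_add]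
    have h4 : ∑ i ∈ insert b2 τ, (if i = b2 then 1 else 0 : ℝ) • v i =
        ∑ i ∈ insert b2 τ, (if i = b2 then 0 else β i) • v i := by
      rw [Finset.sum_insert h2, Finset.sum_insert h2, if_pos rfl, if_pos rfl, one_smul, zero_smul,
        zero_add]
      have h5 : ∑ i ∈ τ, (if i = b2 then 1 else 0 : ℝ) • v i = 0 := by
        refine Finset.sum_eq_zero fun i hi => ?_
        rw [if_neg (hne i hi), zero_smul]
      have h6 : ∑ i ∈ τ, (if i = b2 then 0 else β i) • v i = ∑ i ∈ τ, β i • v i :=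
        Finset.sum_congr rfl fun i hi => by rw [if_neg (hne i hi)]
      rw [h5, h6, add_zero, h3]
    have h7 := coeff_unique v (insert b2 τ) hi2 _ _ h4 b2 (Finset.mem_insert_self _ _)
    rw [if_pos rfl, if_pos rfl] at h7
    exact one_ne_zero h7
  · exfalso
    have h3 := hu1 b2 hb2G hn1 β hβ
    rw [Finset.sum_insert h1] at h3
    have h4 : v b1 = ∑ i ∈ insert b2 τ, (if i = b2 then (β b1)⁻¹ else -((β b1)⁻¹ * β i)) • v i := by
      rw [Finset.sum_insert h2, if_pos rfl]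
      have h6 : ∑ i ∈ τ, (if i = b2 then (β b1)⁻¹ else -((β b1)⁻¹ * β i)) • v i =
          -((β b1)⁻¹ • ∑ i ∈ τ, β i • v i) := by
        rw [Finset.smul_sum, ← Finset.sum_neg_distrib]
        exact Finset.sum_congr rfl fun i hi => by
          rw [if_neg (hne i hi), neg_smul, smul_smul]
      rw [h6, hβ', smul_add, smul_smul, inv_mul_cancel₀ h0.ne', one_smul]
      abel
    have h5 := hu2 b1 hb1G hn2 _ h4
    rw [Finset.sum_insert h2, if_pos rfl] at h5
    have h6 : ∑ i ∈ τ, (if i = b2 then (β b1)⁻¹ else -((β b1)⁻¹ * β i)) * h i =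
        -((β b1)⁻¹ * ∑ i ∈ τ, β i * h i) := by
      rw [Finset.mul_sum, ← Finset.sum_neg_distrib]
      exact Finset.sum_congr rfl fun i hi => by
        rw [if_neg (hne i hi)]; ring
    rw [h6] at h5
    have h7 : β b1 * h b1 < h b2 - ∑ i ∈ τ, β i * h i := by
      have h8 := mul_lt_mul_of_pos_left h5 h0
      have h9 : β b1 * ((β b1)⁻¹ * h b2 + -((β b1)⁻¹ * ∑ i ∈ τ, β i * h i)) =
          h b2 - ∑ i ∈ τ, β i * h i := by
        field_simp
        ring
      rwa [h9] at h8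
    linarith

end Pool.Agent.H37.T5

end S_ZPS

section S_ZPM

/-!
# ZPM: adjacent upper simplices

`zpm` (pivot).  For `l ∈ G` let `β^l` be the coefficients of `v l` in the basis `B` (`hfull`), `L l = ∑_{i∈B} β^l i * h i`; `L l ≥ h l` with equality only for `l ∈ B` (`hB`; for `l ∈ B` equality).  On the nonempty finite set `{u ∈ G : β^u b < 0}` (it does not meet `B`) choose `b'` minimising `(L u - h u)/(-β^u b) =: θ(u) > 0`.
`B' = insert b' (B.erase b)` is independent (`β^{b'} b ≠ 0`).  Let `L'(y) = L(y) + θ β_b(y)` with `θ = θ(b')` (linear in `y`, `β_b(y)` the coefficient at `b`): `L' = h` on `B.erase b` and at `b'` (`L b' + θ β^{b'} b = h b'`).  For `l ∈ G`, `l ∉ B'`: `L'(l) ≥ h l`: if `β^l b ≥ 0` then `L'(l) ≥ L(l) ≥ h l` (for `l = b`: `L'(b) = h b + θ > h b`);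
if `β^l b < 0` by the choice of `b'`.  If `v l = ∑_{B'} γ i v i` then `∑_{B'} γ i h i = L'(l) ≥ h l`, and equality is excluded by `hgen` (`B'` independent, `l ∉ B'`).  So `B'` is upper.
Uniqueness: if `b'' ∈ G`, `b'' ∉ B`, `B'' = insert b'' (B.erase b)` upper, `b'' ≠ b'`: by `zps` (with `τ = B.erase b`) applied to `(b, b')` and `(b, b'')` the coefficients of `v b'`, `v b''` at `b` are negative, so `v b'' = (positive) v b' + τ`-part, contradicting `zps` for `(b', b'')`.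
-/

set_option autoImplicit false

namespace Pool.Agent.H37.T5

open Finset H60.RegTri

variable {ι κ : Type} [Fintype ι] [DecidableEq ι] [Fintype κ]

/-- ZPM -/
theorem zpm (v : ι → κ → ℝ) (h : ι → ℝ) (hgen : ∀ τ, GenericOn v h τ) (G B : Finset ι)
    (hB : UpperOn v h G B) (hfull : ∀ l ∈ G, ∃ β : ι → ℝ, v l = ∑ i ∈ B, β i • v i) (b : ι)
    (hb : b ∈ B) (hneg : ∃ u ∈ G, cf v B (v u) b < 0) :
    ∃ b' ∈ G, b' ∉ B ∧ UpperOn v h G (insert b' (B.erase b)) ∧ cf v B (v b') b < 0 ∧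
      ∀ b'' ∈ G, b'' ∉ B → UpperOn v h G (insert b'' (B.erase b)) → b'' = b' := by
  classical
  obtain ⟨hBG, hBi, hBup⟩ := hB
  set c : ι → ι → ℝ := fun u i => cf v B (v u) i with hc
  have hcs : ∀ u ∈ G, v u = ∑ i ∈ B, c u i • v i := fun u hu => cf_sum (hfull u hu)
  have hcB : ∀ u ∈ B, ∀ i ∈ B, c u i = if i = u then 1 else 0 := by
    intro u hu
    apply coeff_unique v B hBi
    rw [← hcs u (hBG hu)]
    simp [hu]
  set L : ι → ℝ := fun u => ∑ i ∈ B, c u i * h i with hL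
  have hLB : ∀ u ∈ B, L u = h u := by
    intro u hu
    show ∑ i ∈ B, c u i * h i = h u
    rw [Finset.sum_congr rfl (fun i hi => by rw [hcB u hu i hi])]
    simp [hu]
  have hLn : ∀ u ∈ G, u ∉ B → h u < L u := fun u hu huB => hBup u hu huB (c u) (hcs u hu)
  have hLle : ∀ u ∈ G, h u ≤ L u := by
    intro u hu
    by_cases huB : u ∈ B
    · exact (hLB u huB).ge
    · exact (hLn u hu huB).le
  set S : Finset ι := G.filter (fun u => c u b < 0) with hS
  have hSne : S.Nonempty := by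
    obtain ⟨u, hu, hub⟩ := hneg
    exact ⟨u, Finset.mem_filter.2 ⟨hu, hub⟩⟩
  have hSB : ∀ u ∈ S, u ∉ B := by
    intro u hu huB
    have h1 := (Finset.mem_filter.1 hu).2
    rw [hcB u huB b hb] at h1
    split_ifs at h1 <;> linarith
  obtain ⟨b', hb'S, hmin⟩ := Finset.exists_min_image S (fun u => (L u - h u) / (-c u b)) hSne
  have hb'G : b' ∈ G := (Finset.mem_filter.1 hb'S).1
  have hb'n : c b' b < 0 := (Finset.mem_filter.1 hb'S).2
  have hb'B : b' ∉ B := hSB b' hb'S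
  have hb'e : b' ∉ B.erase b := fun h1 => hb'B (Finset.mem_of_mem_erase h1)
  have hins : insert b (B.erase b) = B := Finset.insert_erase hb
  have hbe : b ∉ B.erase b := Finset.notMem_erase b B
  -- coefficients of a combination of `insert b' (B.erase b)`
  have hcoef : ∀ (γ : ι → ℝ) (y : κ → ℝ) (x : ι → ℝ), y = ∑ i ∈ B, x i • v i →
      y = ∑ i ∈ insert b' (B.erase b), γ i • v i →
      ∀ i ∈ B, x i = γ b' * c b' i + (if i = b then 0 else γ i) := by
    intro γ y x hx hy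
    apply coeff_unique v B hBi
    rw [← hx, hy, Finset.sum_insert hb'e]
    simp only [add_smul, Finset.sum_add_distrib]
    congr 1
    · rw [hcs b' hb'G, Finset.smul_sum]
      refine Finset.sum_congr rfl fun i _ => ?_
      rw [smul_smul]
    · conv_rhs => rw [← hins, Finset.sum_insert hbe]
      rw [if_pos rfl, zero_smul, zero_add]
      refine Finset.sum_congr rfl fun i hi => ?_
      rw [if_neg (Finset.ne_of_mem_erase hi)]
  -- independence
  have hind : LinearIndepOn ℝ v ((insert b' (B.erase b) : Finset ι) : Set ι) := by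
    rw [linearIndepOn_finset_iff]
    intro γ hγ
    have h1 := hcoef γ 0 (fun _ => 0) (by simp) hγ.symm
    have h2 := h1 b hb
    rw [if_pos rfl, add_zero] at h2
    have h3 : γ b' = 0 := by
      rcases mul_eq_zero.1 h2.symm with h4 | h4
      · exact h4
      · exact absurd h4 hb'n.ne
    intro i hi
    rcases Finset.mem_insert.1 hi with h4 | h4
    · rw [h4, h3]
    · have h5 := h1 i (Finset.mem_of_mem_erase h4)
      rw [h3, zero_mul, zero_add, if_neg (Finset.ne_of_mem_erase h4)] at h5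
      exact h5.symm
  have hsub : insert b' (B.erase b) ⊆ G :=
    Finset.insert_subset hb'G ((Finset.erase_subset b B).trans hBG)
  have hup : UpperOn v h G (insert b' (B.erase b)) := by
    refine ⟨hsub, hind, ?_⟩
    intro l hl hlB γ hγ
    have hne := hgen G (insert b' (B.erase b)) hsub hind l hl hlB γ hγ
    refine lt_of_le_of_ne ?_ hne
    have h1 := hcoef γ (v l) (c l) (hcs l hl) hγ
    have h2 : c l b = γ b' * c b' b := by
      have := h1 b hb
      rwa [if_pos rfl, add_zero] at this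
    have h3 : ∑ i ∈ insert b' (B.erase b), γ i * h i = L l - γ b' * (L b' - h b') := by
      rw [Finset.sum_insert hb'e]
      have h4 : L l = γ b' * L b' + ∑ i ∈ B.erase b, γ i * h i := by
        show ∑ i ∈ B, c l i * h i = γ b' * ∑ i ∈ B, c b' i * h i + _
        rw [Finset.sum_congr rfl (fun i hi => by rw [h1 i hi])]
        simp only [add_mul, Finset.sum_add_distrib, Finset.mul_sum]
        congr 1
        · exact Finset.sum_congr rfl fun i _ => by ring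
        · conv_lhs => rw [← hins, Finset.sum_insert hbe]
          rw [if_pos rfl, zero_mul, zero_add]
          refine Finset.sum_congr rfl fun i hi => ?_
          rw [if_neg (Finset.ne_of_mem_erase hi)]
      rw [h4]; ring
    rw [h3]
    have h5 : h b' < L b' := hLn b' hb'G hb'B
    have h6 : h l ≤ L l := hLle l hl
    rcases le_or_gt 0 (c l b) with h7 | h7
    · -- `γ b' ≤ 0`
      have h8 : γ b' ≤ 0 := by
        by_contra h9
        push Not at h9
        have := mul_neg_of_pos_of_neg h9 hb'n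
        linarith
      nlinarith
    · have hlS : l ∈ S := Finset.mem_filter.2 ⟨hl, h7⟩
      have h8 := hmin l hlS
      have h9 : 0 < -c b' b := by linarith
      have h10 : 0 < -c l b := by linarith
      rw [div_le_div_iff₀ h9 h10] at h8
      rw [h2] at h8
      -- `(L b' - h b') * (-(γ b' * c b' b)) ≤ (L l - h l) * (- c b' b)`
      have h11 : (γ b' * (L b' - h b')) * (-c b' b) ≤ (L l - h l) * (-c b' b) := by
        nlinarith
      have h12 := le_of_mul_le_mul_right h11 h9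
      linarith
  refine ⟨b', hb'G, hb'B, hup, hb'n, ?_⟩
  intro b'' hb''G hb''B hup''
  by_contra hne
  have hb''e : b'' ∉ B.erase b := fun h1 => hb''B (Finset.mem_of_mem_erase h1)
  have hb''n : c b'' b < 0 := by
    refine zps v h G (B.erase b) b b'' (fun h1 => hb''B (h1 ▸ hb)) hbe hb''e ?_ hup'' (c b'') ?_
    · rw [hins]; exact ⟨hBG, hBi, hBup⟩
    · rw [hins]; exact hcs b'' hb''G
  set ρ : ℝ := c b'' b / c b' b with hρ
  have hρpos : 0 < ρ := div_pos_of_neg_of_neg hb''n hb'n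
  have h1 := zps v h G (B.erase b) b' b'' (Ne.symm hne) hb'e hb''e hup hup''
    (fun i => if i = b' then ρ else c b'' i - ρ * c b' i) ?_
  · rw [if_pos rfl] at h1
    linarith
  · rw [Finset.sum_insert hb'e, if_pos rfl]
    have h2 : ∑ i ∈ B.erase b, (if i = b' then ρ else c b'' i - ρ * c b' i) • v i =
        ∑ i ∈ B.erase b, (c b'' i - ρ * c b' i) • v i := by
      refine Finset.sum_congr rfl fun i hi => ?_
      rw [if_neg (fun h3 : i = b' => hb'e (h3 ▸ hi))]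
    rw [h2]
    have h3 : ρ * c b' b = c b'' b := div_mul_cancel₀ _ hb'n.ne
    have h4 : v b'' = c b'' b • v b + ∑ i ∈ B.erase b, c b'' i • v i := by
      rw [← Finset.sum_insert (f := fun i => c b'' i • v i) hbe, hins]
      exact hcs b'' hb''G
    have h5 : v b' = c b' b • v b + ∑ i ∈ B.erase b, c b' i • v i := by
      rw [← Finset.sum_insert (f := fun i => c b' i • v i) hbe, hins]
      exact hcs b' hb'G
    have h6 : ∑ i ∈ B.erase b, (c b'' i - ρ * c b' i) • v i =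
        ∑ i ∈ B.erase b, c b'' i • v i - ρ • ∑ i ∈ B.erase b, c b' i • v i := by
      rw [Finset.smul_sum, ← Finset.sum_sub_distrib]
      refine Finset.sum_congr rfl fun i _ => ?_
      rw [sub_smul, smul_smul]
    rw [h6, h4, h5, smul_add, smul_smul, h3]
    abel

end Pool.Agent.H37.T5

end S_ZPM

section S_ZEXT

/-!
# ZEXT: extension of an upper simplex of a facet

`zext` (extension).  `τ` upper in `G0 = {l ∈ G : ψ (v l) = 0}`.  For `u ∈ G` with `ψ (v u) > 0` the family `insert u τ` is independent (`ψ` vanishes on `τ`, not at `u`) and spans `G` (`hspan`).  Fix `u0 ∈ G` with `ψ (v u0) > 0`; every `u ∈ G` is `v u = (ψ(v u)/ψ(v u0)) v u0 + ∑_τ β^u i v i` (coefficient of `u0` by applying `ψ`); put `m(u) = (h u - ∑_τ β^u i h i)/ψ(v u)` for `ψ(v u) > 0` and choose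
`b` maximising `m`.  `insert b τ` is upper in `G`: for `l ∈ G`, `ψ(v l) > 0`, `l ≠ b`: `v l = c v b + ∑_τ (β^l i - c β^b i) v i`, `c = ψ(v l)/ψ(v b)`, and `c h b + ∑_τ (β^l i - c β^b i) h i = ψ(v l) m(b) + ∑_τ β^l i h i ≥ ψ(v l) m(l) + ∑_τ β^l i h i = h l`, not equal by `hgen`.
For `l ∈ G`, `ψ(v l) = 0`, `l ∉ τ`: the coefficient at `b` of `v l` is `0` and `hτ` applies.  Uniqueness: if `b'` also works, `b' ≠ b`, then `v b' = (ψ(v b')/ψ(v b)) v b + τ`-part with positive coefficient, contradicting `zps`.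
-/

set_option autoImplicit false

namespace Pool.Agent.H37.T5

open Finset H60.RegTri

variable {ι κ : Type} [Fintype ι] [DecidableEq ι] [Fintype κ]

omit [Fintype ι] [Fintype κ] in
/-- the value of `ψ` at a combination of `insert b τ` -/
theorem ZEXT_psi (v : ι → κ → ℝ) (ψ : (κ → ℝ) →ₗ[ℝ] ℝ) (τ : Finset ι)
    (hτ : ∀ l ∈ τ, ψ (v l) = 0) (b : ι) (hb : b ∉ τ) (β : ι → ℝ) :
    ψ (∑ i ∈ insert b τ, β i • v i) = β b * ψ (v b) := by
  rw [map_sum, Finset.sum_insert hb, map_smul, smul_eq_mul, Finset.sum_eq_zero, add_zero]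
  intro i hi
  rw [map_smul, hτ i hi, smul_zero]

omit [Fintype ι] [Fintype κ] in
/-- independence of `insert b τ` -/
theorem ZEXT_ind (v : ι → κ → ℝ) (ψ : (κ → ℝ) →ₗ[ℝ] ℝ) (τ : Finset ι)
    (hτ : ∀ l ∈ τ, ψ (v l) = 0) (hi : LinearIndepOn ℝ v (τ : Set ι)) (b : ι)
    (hb : ψ (v b) ≠ 0) : LinearIndepOn ℝ v ((insert b τ : Finset ι) : Set ι) := by
  rw [Finset.coe_insert]
  apply LinearIndepOn.insert hi
  intro hmem
  obtain ⟨β, hβ⟩ := (mem_span_iff v τ (v b)).mp hmem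
  apply hb
  rw [hβ, map_sum]
  refine Finset.sum_eq_zero fun i hi => ?_
  rw [map_smul, hτ i hi, smul_zero]

/-- ZEXT -/
theorem zext (v : ι → κ → ℝ) (h : ι → ℝ) (hgen : ∀ τ, GenericOn v h τ) (G : Finset ι)
    (ψ : (κ → ℝ) →ₗ[ℝ] ℝ) (hψ : ∀ l ∈ G, 0 ≤ ψ (v l)) (hpos : ∃ u ∈ G, 0 < ψ (v u))
    (τ : Finset ι) (hτG : ∀ l ∈ τ, l ∈ G ∧ ψ (v l) = 0)
    (hτ : LinearIndepOn ℝ v (τ : Set ι) ∧ ∀ l ∈ G, ψ (v l) = 0 → l ∉ τ → ∀ β : ι → ℝ,
      v l = ∑ i ∈ τ, β i • v i → h l < ∑ i ∈ τ, β i * h i)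
    (hspan : ∀ u ∈ G, 0 < ψ (v u) → ∀ l ∈ G, ∃ β : ι → ℝ, v l = ∑ i ∈ insert u τ, β i • v i) :
    ∃ b ∈ G, 0 < ψ (v b) ∧ UpperOn v h G (insert b τ) ∧
      ∀ b' ∈ G, 0 < ψ (v b') → UpperOn v h G (insert b' τ) → b' = b := by
  have hτ0 : ∀ l ∈ τ, ψ (v l) = 0 := fun l hl => (hτG l hl).2
  have hnot : ∀ u, 0 < ψ (v u) → u ∉ τ := by
    intro u hu hut
    have := hτ0 u hut
    linarith
  obtain ⟨u0, hu0, hu0p⟩ := hpos
  -- the expansion with respect to `insert u0 τ`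
  have hex : ∀ u, ∃ β : ι → ℝ, u ∈ G →
      v u = (ψ (v u) / ψ (v u0)) • v u0 + ∑ i ∈ τ, β i • v i := by
    intro u
    by_cases hu : u ∈ G
    · obtain ⟨γ, hγ⟩ := hspan u0 hu0 hu0p u hu
      refine ⟨γ, fun _ => ?_⟩
      have h1 : ψ (v u) = γ u0 * ψ (v u0) := by
        conv_lhs => rw [hγ]
        exact ZEXT_psi v ψ τ hτ0 u0 (hnot u0 hu0p) γ
      have h2 : ψ (v u) / ψ (v u0) = γ u0 := by
        rw [h1, mul_div_assoc, div_self hu0p.ne', mul_one]
      rw [h2]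
      conv_lhs => rw [hγ]
      rw [Finset.sum_insert (hnot u0 hu0p)]
    · exact ⟨0, fun h => absurd h hu⟩
  choose bt hbt using hex
  -- the maximal slope
  obtain ⟨b, hb, hmax⟩ := Finset.exists_max_image (G.filter fun u => 0 < ψ (v u))
    (fun u => (h u - ∑ i ∈ τ, bt u i * h i) / ψ (v u)) ⟨u0, Finset.mem_filter.2 ⟨hu0, hu0p⟩⟩
  obtain ⟨hbG, hbp⟩ := Finset.mem_filter.1 hb
  have hbτ := hnot b hbp
  have hindb := ZEXT_ind v ψ τ hτ0 hτ.1 b hbp.ne'
  have hsub : insert b τ ⊆ G := by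
    intro i hi
    rcases Finset.mem_insert.1 hi with rfl | hi
    · exact hbG
    · exact (hτG i hi).1
  have hup : UpperOn v h G (insert b τ) := by
    refine ⟨hsub, hindb, ?_⟩
    intro l hl hlb β hβ
    have hlτ : l ∉ τ := fun h1 => hlb (Finset.mem_insert_of_mem h1)
    have h1 : ψ (v l) = β b * ψ (v b) := by
      conv_lhs => rw [hβ]
      exact ZEXT_psi v ψ τ hτ0 b hbτ β
    have hβ' := hβ
    rw [Finset.sum_insert hbτ] at hβ' ⊢
    rcases (hψ l hl).lt_or_eq with hp | hp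
    · -- positive
      refine lt_of_le_of_ne ?_ (by
        have := hgen G (insert b τ) hsub hindb l hl hlb β hβ
        rwa [Finset.sum_insert hbτ] at this)
      have hc : β b = ψ (v l) / ψ (v b) := by
        rw [h1, mul_div_assoc, div_self hbp.ne', mul_one]
      have e1 := hbt l hl
      have e2 := hbt b hbG
      have e3 : ∑ i ∈ τ, β i • v i = ∑ i ∈ τ, (bt l i - β b * bt b i) • v i := by
        have e4 : ∑ i ∈ τ, (bt l i - β b * bt b i) • v i =
            ∑ i ∈ τ, bt l i • v i - β b • ∑ i ∈ τ, bt b i • v i := by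
          rw [Finset.smul_sum, ← Finset.sum_sub_distrib]
          refine Finset.sum_congr rfl fun i _ => ?_
          rw [sub_smul, smul_smul]
        have e5 : ∑ i ∈ τ, bt l i • v i = v l - (ψ (v l) / ψ (v u0)) • v u0 :=
          (sub_eq_of_eq_add' e1).symm
        have e6 : ∑ i ∈ τ, bt b i • v i = v b - (ψ (v b) / ψ (v u0)) • v u0 :=
          (sub_eq_of_eq_add' e2).symm
        rw [e4, e5, e6, smul_sub, smul_smul]
        have e7 : β b * (ψ (v b) / ψ (v u0)) = ψ (v l) / ψ (v u0) := by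
          rw [h1]; ring
        rw [e7]
        have e8 : ∑ i ∈ τ, β i • v i = v l - β b • v b := (sub_eq_of_eq_add' hβ').symm
        rw [e8]
        abel
      have hco := coeff_unique v τ hτ.1 _ _ e3
      have e9 : ∑ i ∈ τ, β i * h i = ∑ i ∈ τ, bt l i * h i - β b * ∑ i ∈ τ, bt b i * h i := by
        rw [Finset.mul_sum, ← Finset.sum_sub_distrib]
        refine Finset.sum_congr rfl fun i hi => ?_
        rw [hco i hi]
        ring
      have hm := hmax l (Finset.mem_filter.2 ⟨hl, hp⟩)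
      rw [div_le_iff₀ hp] at hm
      rw [e9, hc]
      have e10 : (h b - ∑ i ∈ τ, bt b i * h i) / ψ (v b) * ψ (v l) =
          ψ (v l) / ψ (v b) * h b - ψ (v l) / ψ (v b) * ∑ i ∈ τ, bt b i * h i := by ring
      rw [e10] at hm
      linarith
    · -- zero
      have hb0 : β b = 0 := by
        rw [← hp] at h1
        rcases mul_eq_zero.1 h1.symm with h2 | h2
        · exact h2
        · exact absurd h2 hbp.ne'
      rw [hb0, zero_smul, zero_add] at hβ'
      rw [hb0, zero_mul, zero_add]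
      exact hτ.2 l hl hp.symm hlτ β hβ'
  refine ⟨b, hbG, hbp, hup, ?_⟩
  intro b' hb'G hb'p hup'
  by_contra hne
  have hb'τ := hnot b' hb'p
  obtain ⟨β, hβ⟩ := hspan b hbG hbp b' hb'G
  have h1 := zps v h G τ b b' (fun h => hne h.symm) hbτ hb'τ hup hup' β hβ
  have h2 : ψ (v b') = β b * ψ (v b) := by
    conv_lhs => rw [hβ]
    exact ZEXT_psi v ψ τ hτ0 b hbτ β
  have h3 := mul_neg_of_neg_of_pos h1 hbp
  linarith


end Pool.Agent.H37.T5

end S_ZEXT

section S_ZVOL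

/-!
# ZVOL: multiplicities of a simplex and of the functionals vanishing on it

`zvol`.  `B` independent with `m` elements, `Ξ` independent with `D - m` elements (`D = |κ|`), `φ_ω(v_i) = 0` for `i ∈ B`, `ω ∈ Ξ`.  Let `N = {x ∈ ℤ^κ : φ_ω·x = 0 for all ω ∈ Ξ}` (saturated, of rank `m`; it is the saturation of the span of `v_B`), and a basis of `ℤ^κ` adapted to `v_B`
(`H22.exists_adapted_basis` with `ι = B`, `d = D - m`, basis `E : Fin d ⊕ B`, `v_i = ∑ G i' i • E (inr i')`, `mulv v B = |det G|`).  All `φ_ω` vanish on the `E (inr i')` (`det G ≠ 0`).  In this basis the matrix with columns `v_B`, `u` is block triangular: `|det(v_B, u)| = |det G| |det U|`,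
`U` = the `inl`-coordinates of the `u_ω'` (the base change `E` has determinant `±1`).  `φ_ω(u_ω') = ∑_c φ_ω(E (inl c)) U_{c ω'}`, so `|det(φ_ω(u_ω'))| = |det Φ| |det U|`, `Φ_{ω c} = φ_ω(E (inl c))`.  `mulv φ Ξ = |det Φ|`: in the dual basis `E*` of `ℤ^κ` one has `φ_ω = ∑_c φ_ω(E (inl c)) E*_{inl c}`
(no `inr`-part), the span of the `E*_{inl c}` is saturated, `H22.latIndex_eq_det`.  Multiply.
`mulv_ne`: `Module.Finite` torsion group of a finitely generated abelian group is finite (see also the end of the proof of `H22.latIndex_eq_det`).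
-/

set_option autoImplicit false

namespace Pool.Agent.H37.T5

open Finset H60.RegTri

variable {ι κ Ω : Type} [Fintype ι] [DecidableEq ι] [Fintype κ] [DecidableEq κ] [Fintype Ω]
  [DecidableEq Ω]

/-- Multiplicities are positive: the torsion of a finitely generated abelian group is finite. -/
theorem mulv_ne {ι κ : Type} [Fintype κ] (v : ι → κ → ℤ) (σ : Finset ι) : mulv v σ ≠ 0 := by
  classical
  unfold mulv H22.latIndex
  set S := Submodule.span ℤ (Set.range fun i : σ => v i) with hS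
  have hfin : Module.Finite ℤ (Submodule.torsion ℤ ((κ → ℤ) ⧸ S)) :=
    Module.Finite.of_injective (Submodule.torsion ℤ ((κ → ℤ) ⧸ S)).subtype
      (Submodule.subtype_injective _)
  have : _root_.Finite (Submodule.torsion ℤ ((κ → ℤ) ⧸ S)) :=
    Module.finite_of_fg_torsion _ (Submodule.torsion_isTorsion)
  exact Nat.card_pos.ne'

omit [Fintype ι] [Fintype κ] [DecidableEq ι] [DecidableEq κ] in
private theorem ZVOL_lin {v : ι → κ → ℤ} {B : Finset ι}
    (hB : LinearIndepOn ℝ (vR v) (B : Set ι)) : LinearIndependent ℤ (fun i : B => v i) := by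
  classical
  rw [Fintype.linearIndependent_iff]
  intro g hg i
  have h1 : LinearIndependent ℝ (fun i : B => vR v i) := hB
  rw [Fintype.linearIndependent_iff] at h1
  have h2 := h1 (fun i => (g i : ℝ)) (by
    ext j
    have h3 := congrFun hg j
    simp only [Finset.sum_apply, Pi.smul_apply, smul_eq_mul, Pi.zero_apply, vR] at h3 ⊢
    exact_mod_cast h3) i
  exact_mod_cast h2

omit [DecidableEq κ] in
private theorem ZVOL_pr_sum {β : Type} (s : Finset β) (x : κ → ℤ) (c : β → ℤ) (y : β → κ → ℤ) :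
    pr x (∑ z ∈ s, c z • y z) = ∑ z ∈ s, c z * pr x (y z) := by
  unfold pr
  simp only [Finset.sum_apply, Pi.smul_apply, smul_eq_mul, Finset.mul_sum]
  rw [Finset.sum_comm]
  exact Finset.sum_congr rfl fun z _ => Finset.sum_congr rfl fun j _ => by ring

/-- ZVOL -/
theorem zvol (v : ι → κ → ℤ) (φ : Ω → κ → ℤ) (B : Finset ι) (Ξ : Finset Ω)
    (hB : LinearIndepOn ℝ (vR v) (B : Set ι)) (hΞ : LinearIndepOn ℝ (vR φ) (Ξ : Set Ω))
    (h0 : ∀ i ∈ B, ∀ ω ∈ Ξ, pr (φ ω) (v i) = 0) (hc : B.card + Ξ.card = Fintype.card κ)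
    (e : (B ⊕ Ξ) ≃ κ) (u : Ξ → κ → ℤ) :
    (mulv v B : ℤ) * |(Matrix.of fun ω ω' : Ξ => pr (φ ω) (u ω')).det| =
      (mulv φ Ξ : ℤ) * |(Matrix.of fun x y : B ⊕ Ξ =>
        Sum.elim (fun i : B => v i) (fun ω : Ξ => u ω) x (e y)).det| := by
  classical
  obtain ⟨E0, G, hG, hGdet, hGl⟩ := H22.exists_adapted_basis (fun i : B => v i) (ZVOL_lin hB)
    Ξ.card (by rw [Fintype.card_coe]; omega)
  -- reindex the basis
  let f : Fin Ξ.card ⊕ B ≃ B ⊕ Ξ :=
    (Equiv.sumComm _ _).trans (Equiv.sumCongr (Equiv.refl B) Ξ.equivFin.symm)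
  let E : Module.Basis (B ⊕ Ξ) ℤ (κ → ℤ) := E0.reindex f
  have hE : ∀ i, E (Sum.inl i) = E0 (Sum.inr i) := by
    intro i
    simp [E, f]
  replace hG : ∀ i : B, v i = ∑ i', G i' i • E (Sum.inl i') := by
    intro i
    simp only [hE]
    exact hG i
  clear_value E
  clear hE f
  -- the functionals vanish on the first part
  have hφ0 : ∀ ω : Ξ, ∀ i' : B, pr (φ ω) (E (Sum.inl i')) = 0 := by
    intro ω
    have h1 : Matrix.vecMul (fun i' : B => pr (φ ω) (E (Sum.inl i'))) G = 0 := by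
      ext i
      have h2 := h0 i i.2 ω ω.2
      rw [hG i, ZVOL_pr_sum] at h2
      simp only [Matrix.vecMul, dotProduct, Pi.zero_apply]
      rw [← h2]
      exact Finset.sum_congr rfl fun i' _ => mul_comm _ _
    have h3 := Matrix.eq_zero_of_vecMul_eq_zero hGdet h1
    exact fun i' => congrFun h3 i'
  -- the dual basis
  let R : (B ⊕ Ξ) → κ → ℤ := fun z j => E.repr (Pi.single j 1) z
  have hrepr : ∀ (x : κ → ℤ) z, E.repr x z = ∑ j, x j * R z j := by
    intro x z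
    have h1 : x = ∑ j, x j • (Pi.single j 1 : κ → ℤ) := by
      ext k
      simp [Finset.sum_apply, Pi.single_apply]
    conv_lhs => rw [h1]
    rw [map_sum, Finsupp.finsetSum_apply]
    exact Finset.sum_congr rfl fun j _ => by rw [map_smul]; rfl
  have hRE : ∀ z z', pr (R z) (E z') = if z' = z then 1 else 0 := by
    intro z z'
    have h1 := hrepr (E z') z
    rw [Module.Basis.repr_self, Finsupp.single_apply] at h1
    rw [h1]
    exact Finset.sum_congr rfl fun j _ => mul_comm _ _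
  have hER : ∀ x : κ → ℤ, x = ∑ z, pr x (E z) • R z := by
    intro x
    ext k
    have h1 := congrArg (fun y : κ → ℤ => pr x y) (E.sum_repr (Pi.single k 1))
    have h2 : pr x (Pi.single k 1) = x k := by
      simp [pr, Pi.single_apply]
    simp only [ZVOL_pr_sum, h2] at h1
    rw [← h1]
    simp only [Finset.sum_apply, Pi.smul_apply, smul_eq_mul]
    exact Finset.sum_congr rfl fun j _ => mul_comm _ _
  -- coordinates of `u`
  let U : Matrix Ξ Ξ ℤ := fun ω' ω => E.repr (u ω') (Sum.inr ω)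
  let Φ : Matrix Ξ Ξ ℤ := fun ω ω' => pr (φ ω) (E (Sum.inr ω'))
  have hprod : (Matrix.of fun ω ω' : Ξ => pr (φ ω) (u ω')) = Φ * U.transpose := by
    ext ω ω'
    rw [Matrix.of_apply, Matrix.mul_apply]
    conv_lhs => rw [← E.sum_repr (u ω'), ZVOL_pr_sum, Fintype.sum_sum_type]
    simp only [hφ0, mul_zero, Finset.sum_const_zero, zero_add]
    exact Finset.sum_congr rfl fun ω'' _ => mul_comm _ _
  -- the big matrix
  let P : Matrix (B ⊕ Ξ) (B ⊕ Ξ) ℤ := fun z y => E z (e y)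
  let P' : Matrix (B ⊕ Ξ) (B ⊕ Ξ) ℤ := fun y z => R z (e y)
  have hPP : P * P' = 1 := by
    ext z z'
    rw [Matrix.mul_apply, Matrix.one_apply]
    have h1 := hRE z' z
    simp only [pr] at h1
    rw [← h1]
    rw [← Equiv.sum_comp e]
    exact Finset.sum_congr rfl fun j _ => mul_comm _ _
  have hPu : |P.det| = 1 := by
    have h1 : P.det * P'.det = 1 := by rw [← Matrix.det_mul, hPP, Matrix.det_one]
    exact Int.isUnit_iff_abs_eq.1 (IsUnit.of_mul_eq_one _ h1)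
  let W : Matrix Ξ B ℤ := fun ω' i => E.repr (u ω') (Sum.inl i)
  have hbig : (Matrix.of fun x y : B ⊕ Ξ =>
        Sum.elim (fun i : B => v i) (fun ω : Ξ => u ω) x (e y)) =
      Matrix.fromBlocks G.transpose 0 W U * P := by
    ext x y
    rw [Matrix.of_apply, Matrix.mul_apply, Fintype.sum_sum_type]
    rcases x with i | ω
    · simp only [Sum.elim_inl, Matrix.fromBlocks_apply₁₁, Matrix.fromBlocks_apply₁₂,
        Matrix.transpose_apply, Matrix.zero_apply, zero_mul, Finset.sum_const_zero, add_zero]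
      rw [hG i]
      simp only [Finset.sum_apply, Pi.smul_apply, smul_eq_mul]
      rfl
    · simp only [Sum.elim_inr, Matrix.fromBlocks_apply₂₁, Matrix.fromBlocks_apply₂₂]
      conv_lhs => rw [← E.sum_repr (u ω), Fintype.sum_sum_type]
      simp only [Finset.sum_apply, Pi.smul_apply, smul_eq_mul, Pi.add_apply]
      rfl
  have hbigdet : |(Matrix.of fun x y : B ⊕ Ξ =>
        Sum.elim (fun i : B => v i) (fun ω : Ξ => u ω) x (e y)).det| = |G.det| * |U.det| := by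
    rw [hbig, Matrix.det_mul, Matrix.det_fromBlocks_zero₁₂, Matrix.det_transpose, abs_mul, hPu,
      mul_one, abs_mul]
  -- the multiplicity of `φ`
  have hΦdet : Φ.det ≠ 0 := by
    intro hz
    obtain ⟨x, hx0, hx⟩ := Matrix.exists_vecMul_eq_zero_iff.mpr hz
    apply hx0
    have h1 : ∑ ω : Ξ, x ω • φ ω = 0 := by
      rw [hER (∑ ω : Ξ, x ω • φ ω)]
      refine Finset.sum_eq_zero fun z _ => ?_
      have h2 : pr (∑ ω : Ξ, x ω • φ ω) (E z) = ∑ ω : Ξ, x ω * pr (φ ω) (E z) := by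
        unfold pr
        simp only [Finset.sum_apply, Pi.smul_apply, smul_eq_mul, Finset.mul_sum, Finset.sum_mul]
        rw [Finset.sum_comm]
        exact Finset.sum_congr rfl fun _ _ => Finset.sum_congr rfl fun _ _ => by ring
      rw [h2]
      rcases z with i | ω'
      · simp only [hφ0, mul_zero, Finset.sum_const_zero, zero_smul]
      · have h3 := congrFun hx ω'
        simp only [Matrix.vecMul, dotProduct, Pi.zero_apply, Φ] at h3
        rw [h3, zero_smul]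
    exact funext (Fintype.linearIndependent_iff.mp (ZVOL_lin hΞ) x h1)
  let N : Submodule ℤ (κ → ℤ) :=
    { carrier := {x | ∀ i : B, pr x (E (Sum.inl i)) = 0}
      zero_mem' := by intro i; simp [pr]
      add_mem' := by
        intro x y hx hy i
        have h1 := hx i
        have h2 := hy i
        simp only [pr] at h1 h2 ⊢
        simp only [Pi.add_apply, add_mul, Finset.sum_add_distrib, h1, h2, add_zero]
      smul_mem' := by
        intro c x hx i
        have h1 := hx i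
        simp only [pr] at h1 ⊢
        simp only [Pi.smul_apply, smul_eq_mul, mul_assoc, ← Finset.mul_sum, h1, mul_zero] }
  have hmemN : ∀ x, x ∈ N ↔ ∀ i : B, pr x (E (Sum.inl i)) = 0 := fun x => Iff.rfl
  have hRN : ∀ ω : Ξ, R (Sum.inr ω) ∈ N := by
    intro ω i
    rw [hRE, if_neg (by simp)]
  have hlinR : LinearIndependent ℤ (fun ω : Ξ => (⟨R (Sum.inr ω), hRN ω⟩ : N)) := by
    rw [Fintype.linearIndependent_iff]
    intro g hg ω
    have h1 := congrArg (fun x : N => pr (x : κ → ℤ) (E (Sum.inr ω))) hg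
    simp only [Submodule.coe_sum, Submodule.coe_smul, Submodule.coe_zero] at h1
    have h2 : pr (∑ ω' : Ξ, g ω' • R (Sum.inr ω')) (E (Sum.inr ω)) =
        ∑ ω' : Ξ, g ω' * pr (R (Sum.inr ω')) (E (Sum.inr ω)) := by
      unfold pr
      simp only [Finset.sum_apply, Pi.smul_apply, smul_eq_mul, Finset.mul_sum, Finset.sum_mul]
      rw [Finset.sum_comm]
      exact Finset.sum_congr rfl fun _ _ => Finset.sum_congr rfl fun _ _ => by ring
    rw [h2] at h1
    simp only [hRE, Sum.inr.injEq, mul_ite, mul_one, mul_zero, Finset.sum_ite_eq,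
      Finset.mem_univ, if_true] at h1
    rw [h1]
    simp [pr]
  have hspanR : ⊤ ≤ Submodule.span ℤ (Set.range (fun ω : Ξ => (⟨R (Sum.inr ω), hRN ω⟩ : N))) := by
    rintro ⟨x, hx⟩ _
    have h1 : (⟨x, hx⟩ : N) =
        ∑ ω : Ξ, pr x (E (Sum.inr ω)) • (⟨R (Sum.inr ω), hRN ω⟩ : N) := by
      apply Subtype.ext
      simp only [Submodule.coe_sum, Submodule.coe_smul]
      conv_lhs => rw [hER x, Fintype.sum_sum_type]
      simp only [(hmemN x).1 hx, zero_smul, Finset.sum_const_zero, zero_add]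
    rw [h1]
    exact Submodule.sum_mem _ fun ω _ => Submodule.smul_mem _ _ (Submodule.subset_span ⟨ω, rfl⟩)
  let bN : Module.Basis Ξ ℤ N := Module.Basis.mk hlinR hspanR
  have hbN : ∀ ω, ((bN ω : N) : κ → ℤ) = R (Sum.inr ω) := by
    intro ω
    simp [bN]
  have hφl := H22.latIndex_eq_det N (by
    intro k x hk hx i
    have h1 := hx i
    simp only [pr] at h1 ⊢
    simp only [Pi.smul_apply, smul_eq_mul, mul_assoc, ← Finset.mul_sum] at h1
    exact (mul_eq_zero.1 h1).resolve_left hk) bN (fun ω : Ξ => φ ω) Φ.transpose (by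
    intro ω
    simp only [hbN, Matrix.transpose_apply]
    conv_lhs => rw [hER (φ ω), Fintype.sum_sum_type]
    simp only [hφ0, zero_smul, Finset.sum_const_zero, zero_add]
    rfl) (by rw [Matrix.det_transpose]; exact hΦdet)
  have h1 : (mulv v B : ℤ) = |G.det| := by
    unfold mulv
    rw [hGl, Int.natCast_natAbs]
  have h2 : (mulv φ Ξ : ℤ) = |Φ.det| := by
    unfold mulv
    rw [hφl, Int.natCast_natAbs, Matrix.det_transpose]
  rw [h1, h2, hbigdet, hprod, Matrix.det_mul, Matrix.det_transpose, abs_mul]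
  ring


end Pool.Agent.H37.T5

end S_ZVOL

section S_ZVOLB

/-!
# ZVOLB: the multiplicity of a pyramid over a facet

`zvol2`: `mul(τ + b) * ν(Ξ + ω) * 1 = φ_ω(b) * mul(τ) * ν(Ξ)` if `τ + b` independent with `|τ| + 1 + |Ξ| = D`, `φ` vanishes on `τ + b` for `Ξ`, `φ_ω` vanishes on `τ`, `φ_ω(b) > 0`.  `Ξ + ω` is independent (evaluate at `b`; `hΞ`).  Choose `u_ω'` (`ω' ∈ Ξ`) with `det(φ_ω''(u_ω')) ≠ 0` (exists since `Ξ` is independent over `ℝ`, hence the integral matrix `φ_Ξ` has a nonzero minor: unit vectors `u`).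
`zvol` for `(τ + b, Ξ, u)` and for `(τ, Ξ + ω, (b, u))`: the matrix `φ_{Ξ+ω}(b, u)` is block triangular with `φ_Ξ(b) = 0`: its determinant is `± φ_ω(b) det φ_Ξ(u)`; the big determinants agree up to sign.
-/

set_option autoImplicit false

namespace Pool.Agent.H37.T5

open Finset H60.RegTri

variable {ι κ Ω : Type} [Fintype ι] [DecidableEq ι] [Fintype κ] [DecidableEq κ] [Fintype Ω]
  [DecidableEq Ω]

/-- the Gram determinant of independent integral functionals -/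
private theorem ZVOLB_gram {κ Ω : Type} [Fintype κ] [Fintype Ω] [DecidableEq Ω] (φ : Ω → κ → ℤ)
    (Ξ : Finset Ω) (hΞ : LinearIndepOn ℝ (vR φ) (Ξ : Set Ω)) :
    (Matrix.of fun ω ω' : Ξ => pr (φ ω) (φ ω')).det ≠ 0 := by
  intro hdet
  obtain ⟨x, hx0, hx⟩ := Matrix.exists_mulVec_eq_zero_iff.2 hdet
  apply hx0
  have h1 : ∀ ω : Ξ, ∑ ω' : Ξ, pr (φ ω) (φ ω') * x ω' = 0 := fun ω => congrFun hx ω
  have h2 : ∑ j, (∑ ω : Ξ, x ω * φ ω j) * (∑ ω : Ξ, x ω * φ ω j) = 0 := by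
    calc ∑ j, (∑ ω : Ξ, x ω * φ ω j) * (∑ ω : Ξ, x ω * φ ω j)
        = ∑ ω : Ξ, x ω * ∑ ω' : Ξ, pr (φ ω) (φ ω') * x ω' := by
          simp only [pr, Finset.sum_mul, Finset.mul_sum]
          rw [Finset.sum_comm]
          refine Finset.sum_congr rfl fun ω _ => ?_
          rw [Finset.sum_comm]
          refine Finset.sum_congr rfl fun ω' _ => Finset.sum_congr rfl fun j _ => ?_
          ring
      _ = 0 := Finset.sum_eq_zero fun ω _ => by rw [h1, mul_zero]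
  have h3 : ∀ j, ∑ ω : Ξ, x ω * φ ω j = 0 := by
    intro j
    have := (Finset.sum_eq_zero_iff_of_nonneg fun j _ => mul_self_nonneg _).1 h2 j (Finset.mem_univ j)
    exact mul_self_eq_zero.1 this
  have h4 := Fintype.linearIndependent_iff.1 hΞ (fun ω => (x ω : ℝ)) (by
    funext j
    rw [Finset.sum_apply, Pi.zero_apply]
    have := h3 j
    have h5 : ((∑ ω : Ξ, x ω * φ ω j : ℤ) : ℝ) = 0 := by rw [this]; simp
    push_cast at h5
    exact h5)
  funext ω
  exact_mod_cast h4 ω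

/-- ZVOL2 -/
theorem zvol2 (v : ι → κ → ℤ) (φ : Ω → κ → ℤ) (τ : Finset ι) (b : ι) (hbτ : b ∉ τ)
    (Ξ : Finset Ω) (ω : Ω) (hωΞ : ω ∉ Ξ)
    (hB : LinearIndepOn ℝ (vR v) ((insert b τ : Finset ι) : Set ι))
    (hΞ : LinearIndepOn ℝ (vR φ) (Ξ : Set Ω))
    (h0 : ∀ i ∈ insert b τ, ∀ ω ∈ Ξ, pr (φ ω) (v i) = 0)
    (hc : (insert b τ).card + Ξ.card = Fintype.card κ)
    (hω : ∀ i ∈ τ, pr (φ ω) (v i) = 0) (hωb : 0 < pr (φ ω) (v b)) :
    (mulv v (insert b τ) : ℤ) * mulv φ (insert ω Ξ) = pr (φ ω) (v b) * mulv v τ * mulv φ Ξ := by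
  -- `insert ω Ξ` is independent
  have hΞ' : LinearIndepOn ℝ (vR φ) ((insert ω Ξ : Finset Ω) : Set Ω) := by
    rw [Finset.coe_insert]
    refine hΞ.insert ?_
    intro hmem
    set L : (κ → ℝ) →ₗ[ℝ] ℝ := ∑ j, (v b j : ℝ) • LinearMap.proj j with hL
    have hLa : ∀ ω' : Ω, L (vR φ ω') = (pr (φ ω') (v b) : ℝ) := by
      intro ω'
      simp only [hL, LinearMap.sum_apply, LinearMap.smul_apply, LinearMap.proj_apply, smul_eq_mul, vR, pr]
      push_cast
      exact Finset.sum_congr rfl fun j _ => mul_comm _ _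
    have h1 : Submodule.span ℝ (vR φ '' (Ξ : Set Ω)) ≤ LinearMap.ker L := by
      rw [Submodule.span_le]
      rintro _ ⟨ω', hω', rfl⟩
      rw [SetLike.mem_coe, LinearMap.mem_ker, hLa, h0 b (Finset.mem_insert_self b τ) ω' hω']
      simp
    have h2 := h1 hmem
    rw [LinearMap.mem_ker, hLa] at h2
    have h3 : pr (φ ω) (v b) = 0 := by exact_mod_cast h2
    omega
  have hτ : LinearIndepOn ℝ (vR v) (τ : Set ι) :=
    hB.mono (by rw [Finset.coe_insert]; exact Set.subset_insert _ _)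
  have hcardτ : (insert b τ).card = τ.card + 1 := Finset.card_insert_of_notMem hbτ
  have hcardΞ : (insert ω Ξ).card = Ξ.card + 1 := Finset.card_insert_of_notMem hωΞ
  -- the equivalences
  have hce : Fintype.card ((insert b τ : Finset ι) ⊕ Ξ) = Fintype.card κ := by
    rw [Fintype.card_sum, Fintype.card_coe, Fintype.card_coe, hc]
  set e : ((insert b τ : Finset ι) ⊕ Ξ) ≃ κ := Fintype.equivOfCardEq hce with he
  set r : (τ ⊕ (insert ω Ξ : Finset Ω)) → ((insert b τ : Finset ι) ⊕ Ξ) :=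
    Sum.elim (fun i => Sum.inl ⟨i, Finset.mem_insert_of_mem i.2⟩)
      (fun ω'' => if h : (ω'' : Ω) = ω then Sum.inl ⟨b, Finset.mem_insert_self b τ⟩
        else Sum.inr ⟨ω'', Finset.mem_of_mem_insert_of_ne ω''.2 h⟩) with hr
  have hrinj : Function.Injective r := by
    rintro (i | w) (i' | w') h
    · simp only [hr, Sum.elim_inl, Sum.inl.injEq, Subtype.mk.injEq] at h
      rw [Subtype.ext h]
    · simp only [hr, Sum.elim_inl, Sum.elim_inr] at h
      split_ifs at h with h1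
      · simp only [Sum.inl.injEq, Subtype.mk.injEq] at h
        exact absurd (h ▸ i.2) hbτ
    · simp only [hr, Sum.elim_inl, Sum.elim_inr] at h
      split_ifs at h with h1
      · simp only [Sum.inl.injEq, Subtype.mk.injEq] at h
        exact absurd (h ▸ i'.2) hbτ
    · simp only [hr, Sum.elim_inr] at h
      split_ifs at h with h1 h2 h2
      · rw [Subtype.ext (h1.trans h2.symm)]
      · simp only [Sum.inr.injEq, Subtype.mk.injEq] at h
        rw [Subtype.ext h]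
  have hrbij : Function.Bijective r := by
    rw [Fintype.bijective_iff_injective_and_card]
    refine ⟨hrinj, ?_⟩
    rw [Fintype.card_sum, Fintype.card_sum, Fintype.card_coe, Fintype.card_coe, Fintype.card_coe,
      Fintype.card_coe, hcardτ, hcardΞ]
    omega
  set ρ : (τ ⊕ (insert ω Ξ : Finset Ω)) ≃ ((insert b τ : Finset ι) ⊕ Ξ) := Equiv.ofBijective r hrbij
    with hρ
  have hρr : ∀ x, ρ x = r x := fun x => rfl
  set W : ((insert b τ : Finset ι) ⊕ Ξ) → κ → ℤ :=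
    Sum.elim (fun i : (insert b τ : Finset ι) => v i) (fun ω : Ξ => φ ω) with hW
  have key1 := zvol v φ (insert b τ) Ξ hB hΞ h0 hc e (fun ω => φ ω)
  have key2 := zvol v φ τ (insert ω Ξ) hτ hΞ' (by
    intro i hi ω' hω'
    rcases Finset.mem_insert.1 hω' with h | h
    · rw [h]
      exact hω i hi
    · exact h0 i (Finset.mem_insert_of_mem hi) ω' h) (by omega) (ρ.trans e)
    (fun ω'' => W (ρ (Sum.inr ω'')))
  -- the big determinants agree
  have hbig : (Matrix.of fun x y : τ ⊕ (insert ω Ξ : Finset Ω) =>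
        Sum.elim (fun i : τ => v i) (fun ω'' : (insert ω Ξ : Finset Ω) => W (ρ (Sum.inr ω''))) x
          ((ρ.trans e) y)).det =
      (Matrix.of fun x y : (insert b τ : Finset ι) ⊕ Ξ => W x (e y)).det := by
    rw [← Matrix.det_submatrix_equiv_self ρ (Matrix.of fun x y : (insert b τ : Finset ι) ⊕ Ξ => W x (e y))]
    congr 1
    ext x y
    rw [Matrix.submatrix_apply, Matrix.of_apply, Matrix.of_apply]
    rcases x with i | w
    · rfl
    · rfl
  -- the small determinants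
  have hsmall : (Matrix.of fun w w' : (insert ω Ξ : Finset Ω) =>
        pr (φ w) (W (ρ (Sum.inr w')))).det =
      pr (φ ω) (v b) * (Matrix.of fun w w' : Ξ => pr (φ w) (φ w')).det := by
    set s : (Unit ⊕ Ξ) → (insert ω Ξ : Finset Ω) :=
      Sum.elim (fun _ => ⟨ω, Finset.mem_insert_self ω Ξ⟩)
        (fun w => ⟨w, Finset.mem_insert_of_mem w.2⟩) with hs
    have hsinj : Function.Injective s := by
      rintro (i | w) (i' | w') h
      · rfl
      · simp only [hs, Sum.elim_inl, Sum.elim_inr, Subtype.mk.injEq] at h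
        exact absurd (h ▸ w'.2) hωΞ
      · simp only [hs, Sum.elim_inl, Sum.elim_inr, Subtype.mk.injEq] at h
        exact absurd (h ▸ w.2) hωΞ
      · simp only [hs, Sum.elim_inr, Subtype.mk.injEq] at h
        rw [Subtype.ext h]
    have hsbij : Function.Bijective s := by
      rw [Fintype.bijective_iff_injective_and_card]
      refine ⟨hsinj, ?_⟩
      rw [Fintype.card_sum, Fintype.card_coe, Fintype.card_coe, hcardΞ, Fintype.card_unit]
      omega
    have hWω : W (ρ (Sum.inr ⟨ω, Finset.mem_insert_self ω Ξ⟩)) = v b := by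
      rw [hρr]
      simp [hr, hW]
    have hWw : ∀ w : Ξ, W (ρ (Sum.inr ⟨w, Finset.mem_insert_of_mem w.2⟩)) = φ w := by
      intro w
      rw [hρr]
      have hne : (w : Ω) ≠ ω := fun h => hωΞ (h ▸ w.2)
      simp [hr, hW, hne]
    rw [← Matrix.det_submatrix_equiv_self (Equiv.ofBijective s hsbij)]
    have hblock : (Matrix.of fun w w' : (insert ω Ξ : Finset Ω) =>
          pr (φ w) (W (ρ (Sum.inr w')))).submatrix (Equiv.ofBijective s hsbij)
          (Equiv.ofBijective s hsbij) =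
        Matrix.fromBlocks (Matrix.of fun _ _ : Unit => pr (φ ω) (v b))
          (Matrix.of fun (_ : Unit) (w' : Ξ) => pr (φ ω) (φ w')) 0
          (Matrix.of fun w w' : Ξ => pr (φ w) (φ w')) := by
      ext x y
      rcases x with x | x <;> rcases y with y | y
      · rw [Matrix.fromBlocks_apply₁₁]
        show pr (φ ω) (W (ρ (Sum.inr ⟨ω, Finset.mem_insert_self ω Ξ⟩))) = pr (φ ω) (v b)
        rw [hWω]
      · rw [Matrix.fromBlocks_apply₁₂]
        show pr (φ ω) (W (ρ (Sum.inr ⟨y, Finset.mem_insert_of_mem y.2⟩))) = pr (φ ω) (φ y)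
        rw [hWw]
      · rw [Matrix.fromBlocks_apply₂₁]
        show pr (φ x) (W (ρ (Sum.inr ⟨ω, Finset.mem_insert_self ω Ξ⟩))) = 0
        rw [hWω]
        exact h0 b (Finset.mem_insert_self b τ) x x.2
      · rw [Matrix.fromBlocks_apply₂₂]
        show pr (φ x) (W (ρ (Sum.inr ⟨y, Finset.mem_insert_of_mem y.2⟩))) = pr (φ x) (φ y)
        rw [hWw]
    rw [hblock, Matrix.det_fromBlocks_zero₂₁, Matrix.det_unique]
    rfl
  rw [hbig, hsmall, abs_mul, abs_of_pos hωb] at key2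
  have hd := ZVOLB_gram φ Ξ hΞ
  set d : ℤ := |(Matrix.of fun w w' : Ξ => pr (φ w) (φ w')).det| with hddef
  have hd0 : d ≠ 0 := by
    rw [hddef]
    exact abs_ne_zero.2 hd
  apply mul_right_cancel₀ hd0
  have key1' : (mulv v (insert b τ) : ℤ) * d =
      (mulv φ Ξ : ℤ) * |(Matrix.of fun x y : (insert b τ : Finset ι) ⊕ Ξ => W x (e y)).det| := key1
  linear_combination (mulv φ (insert ω Ξ) : ℤ) * key1' - (mulv φ Ξ : ℤ) * key2

end Pool.Agent.H37.T5

end S_ZVOLB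

section S_ZVOLC

/-!
# ZVOLC: the multiplicities of adjacent simplices

`zvol3`: `v b' = β v b + τ`-part (real coefficients), `b, b' ∉ τ`: `mul(τ + b') = |β| mul(τ + b)`: `zvol` for both with the same `Ξ`, `u`, and multilinearity of the determinant over `ℝ`.
-/

set_option autoImplicit false

namespace Pool.Agent.H37.T5

open Finset H60.RegTri

variable {ι κ Ω : Type} [Fintype ι] [DecidableEq ι] [Fintype κ] [DecidableEq κ] [Fintype Ω]
  [DecidableEq Ω]

omit [Fintype ι] in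
theorem ZVOLC_swap {τ : Finset ι} {b b' : ι} (hb : b ∉ τ) (hb' : b' ∉ τ) (a : ι) :
    a ∈ insert b τ ↔ Equiv.swap b b' a ∈ insert b' τ := by
  rw [Finset.mem_insert, Finset.mem_insert]
  by_cases h1 : a = b
  · subst h1
    rw [Equiv.swap_apply_left]
    simp
  · by_cases h2 : a = b'
    · subst h2
      rw [Equiv.swap_apply_right]
      constructor
      · rintro (h | h)
        · exact absurd h h1
        · exact absurd h hb'
      · rintro (h | h)
        · exact absurd h.symm h1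
        · exact absurd h hb
    · rw [Equiv.swap_apply_of_ne_of_ne h1 h2]
      simp [h1, h2]

omit [Fintype Ω] [DecidableEq κ] in
/-- the Gram determinant of independent functionals is not zero -/
theorem ZVOLC_gram (φ : Ω → κ → ℤ) (Ξ : Finset Ω) (hΞ : LinearIndepOn ℝ (vR φ) (Ξ : Set Ω)) :
    (Matrix.of fun ω ω' : Ξ => pr (φ ω) (φ ω')).det ≠ 0 := by
  intro hdet
  obtain ⟨c, hc0, hc⟩ := Matrix.exists_mulVec_eq_zero_iff.2 hdet
  apply hc0
  set y : κ → ℤ := fun j => ∑ ω' : Ξ, c ω' * φ ω' j with hy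
  have h1 : ∀ ω : Ξ, pr (φ ω) y = 0 := by
    intro ω
    have := congrFun hc ω
    rw [Matrix.mulVec, dotProduct] at this
    simp only [Matrix.of_apply, pr, Pi.zero_apply] at this
    rw [← this]
    simp only [pr, hy, Finset.mul_sum, Finset.sum_mul]
    rw [Finset.sum_comm]
    apply Finset.sum_congr rfl
    intro ω' _
    apply Finset.sum_congr rfl
    intro j _
    ring
  have h2 : ∑ j, y j * y j = 0 := by
    have : ∑ j, y j * y j = ∑ ω : Ξ, c ω * pr (φ ω) y := by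
      simp only [pr, Finset.mul_sum]
      rw [Finset.sum_comm]
      apply Finset.sum_congr rfl
      intro j _
      conv_lhs => rw [hy]
      simp only
      rw [Finset.sum_mul]
      apply Finset.sum_congr rfl
      intro ω _
      ring
    rw [this]
    apply Finset.sum_eq_zero
    intro ω _
    rw [h1 ω, mul_zero]
  have h3 : ∀ j, y j = 0 := by
    intro j
    have := (Finset.sum_eq_zero_iff_of_nonneg (fun j _ => mul_self_nonneg (y j))).1 h2 j
      (Finset.mem_univ j)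
    exact mul_self_eq_zero.1 this
  have h4 : LinearIndependent ℝ (fun ω : Ξ => vR φ ω) := hΞ
  rw [Fintype.linearIndependent_iff] at h4
  have h5 : ∑ ω : Ξ, (c ω : ℝ) • vR φ ω = 0 := by
    funext j
    have := h3 j
    simp only [Finset.sum_apply, Pi.smul_apply, smul_eq_mul, vR, Pi.zero_apply]
    have h6 := congrArg (fun z : ℤ => (z : ℝ)) this
    simp only [hy] at h6
    push_cast at h6
    exact h6
  have h7 := h4 (fun ω => (c ω : ℝ)) h5
  funext ω
  exact_mod_cast h7 ω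

/-- ZVOL3 -/
theorem zvol3 (v : ι → κ → ℤ) (φ : Ω → κ → ℤ) (τ : Finset ι) (b b' : ι) (hbτ : b ∉ τ)
    (hb'τ : b' ∉ τ) (Ξ : Finset Ω)
    (hB : LinearIndepOn ℝ (vR v) ((insert b τ : Finset ι) : Set ι))
    (hB' : LinearIndepOn ℝ (vR v) ((insert b' τ : Finset ι) : Set ι))
    (hΞ : LinearIndepOn ℝ (vR φ) (Ξ : Set Ω))
    (h0 : ∀ i ∈ insert b τ, ∀ ω ∈ Ξ, pr (φ ω) (v i) = 0)
    (h0' : ∀ i ∈ insert b' τ, ∀ ω ∈ Ξ, pr (φ ω) (v i) = 0)
    (hc : (insert b τ).card + Ξ.card = Fintype.card κ)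
    (β : ι → ℝ) (hβ : vR v b' = ∑ i ∈ insert b τ, β i • vR v i) :
    (mulv v (insert b' τ) : ℝ) = |β b| * mulv v (insert b τ) := by
  classical
  have hcard : Fintype.card (((insert b τ : Finset ι) : Type) ⊕ Ξ) = Fintype.card κ := by
    rw [Fintype.card_sum, Fintype.card_coe, Fintype.card_coe]
    exact hc
  let e : (((insert b τ : Finset ι) : Type) ⊕ Ξ) ≃ κ := Fintype.equivOfCardEq hcard
  have hsw : ∀ a, a ∈ insert b τ ↔ Equiv.swap b b' a ∈ insert b' τ := ZVOLC_swap hbτ hb'τ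
  let f : ((insert b τ : Finset ι) : Type) ≃ ((insert b' τ : Finset ι) : Type) :=
    (Equiv.swap b b').subtypeEquiv hsw
  let F : (((insert b τ : Finset ι) : Type) ⊕ Ξ) ≃ (((insert b' τ : Finset ι) : Type) ⊕ Ξ) :=
    Equiv.sumCongr f (Equiv.refl _)
  let e' : (((insert b' τ : Finset ι) : Type) ⊕ Ξ) ≃ κ := F.symm.trans e
  have hc' : (insert b' τ).card + Ξ.card = Fintype.card κ := by
    rw [Finset.card_insert_of_notMem hb'τ]
    rw [Finset.card_insert_of_notMem hbτ] at hc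
    exact hc
  have z1 := zvol v φ (insert b τ) Ξ hB hΞ h0 hc e (fun ω => φ ω)
  have z2 := zvol v φ (insert b' τ) Ξ hB' hΞ h0' hc' e' (fun ω => φ ω)
  have hg := ZVOLC_gram φ Ξ hΞ
  set g := (Matrix.of fun ω ω' : Ξ => pr (φ ω) (φ ω')).det with hgd
  set M := (Matrix.of fun x y : ((insert b τ : Finset ι) : Type) ⊕ Ξ =>
        Sum.elim (fun i : ((insert b τ : Finset ι) : Type) => v i) (fun ω : Ξ => φ ω) x (e y))
    with hM
  set M' := (Matrix.of fun x y : ((insert b' τ : Finset ι) : Type) ⊕ Ξ =>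
        Sum.elim (fun i : ((insert b' τ : Finset ι) : Type) => v i) (fun ω : Ξ => φ ω) x (e' y))
    with hM'
  have hFe : ∀ y, e' (F y) = e y := by
    intro y
    change e (F.symm (F y)) = e y
    rw [Equiv.symm_apply_apply]
  have hent : ∀ x y, (Int.castRingHom ℝ).mapMatrix (M'.submatrix F F) x y
      = ((Sum.elim (fun i : ((insert b' τ : Finset ι) : Type) => v i)
        (fun ω : Ξ => φ ω) (F x) (e y) : ℤ) : ℝ) := by
    intro x y
    rw [← hFe y]
    rfl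
  have hdet : (M'.det : ℝ) = β b * (M.det : ℝ) := by
    have h1 : M'.det = (M'.submatrix F F).det := (Matrix.det_submatrix_equiv_self F M').symm
    rw [h1]
    have h2 : ((M'.submatrix F F).det : ℝ)
        = ((Int.castRingHom ℝ).mapMatrix (M'.submatrix F F)).det :=
      (Int.castRingHom ℝ).map_det _
    have h3 : (M.det : ℝ) = ((Int.castRingHom ℝ).mapMatrix M).det :=
      (Int.castRingHom ℝ).map_det _
    rw [h2, h3]
    let c : ((insert b τ : Finset ι) : Type) ⊕ Ξ → ℝ := Sum.elim (fun i => β i) (fun _ => 0)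
    have h4 : (Int.castRingHom ℝ).mapMatrix (M'.submatrix F F)
        = ((Int.castRingHom ℝ).mapMatrix M).updateRow
          (Sum.inl ⟨b, Finset.mem_insert_self b τ⟩)
          (∑ k, c k • ((Int.castRingHom ℝ).mapMatrix M) k) := by
      ext x y
      rw [hent]
      rcases x with ⟨i, hi⟩ | ω
      · by_cases hib : i = b
        · subst hib
          rw [Matrix.updateRow_self]
          have h5 := congrFun hβ (e y)
          simp only [vR, Finset.sum_apply, Pi.smul_apply, smul_eq_mul] at h5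
          rw [Finset.sum_apply, Fintype.sum_sum_type]
          have h6 : ∑ k : ((insert i τ : Finset ι) : Type),
              (c (Sum.inl k) • ((Int.castRingHom ℝ).mapMatrix M) (Sum.inl k)) y
              = ∑ k ∈ insert i τ, β k * (v k (e y) : ℝ) := by
            rw [← Finset.sum_coe_sort (insert i τ) (fun k => β k * (v k (e y) : ℝ))]
            rfl
          have h7 : ∑ k : Ξ,
              (c (Sum.inr k) • ((Int.castRingHom ℝ).mapMatrix M) (Sum.inr k)) y = 0 := by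
            apply Finset.sum_eq_zero
            intro k _
            simp [c]
          rw [h6, h7, add_zero, ← h5]
          have h8 : (f ⟨i, hi⟩ : ι) = b' := Equiv.swap_apply_left i b'
          change ((v (f ⟨i, hi⟩ : ι) (e y) : ℤ) : ℝ) = _
          rw [h8]
        · rw [Matrix.updateRow_ne]
          · have hiτ : i ∈ τ := (Finset.mem_insert.1 hi).resolve_left hib
            have hib' : i ≠ b' := fun h => hb'τ (h ▸ hiτ)
            have h8 : Equiv.swap b b' i = i := Equiv.swap_apply_of_ne_of_ne hib hib'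
            have h9 : (f ⟨i, hi⟩ : ι) = i := h8
            change ((v (f ⟨i, hi⟩ : ι) (e y) : ℤ) : ℝ) = _
            rw [h9]
            rfl
          · intro h
            rw [Sum.inl.injEq] at h
            exact hib (congrArg Subtype.val h)
      · rw [Matrix.updateRow_ne]
        · rfl
        · exact fun h => by cases h
    rw [h4, Matrix.det_updateRow_sum]
    simp [c]
  have z1' : (mulv v (insert b τ) : ℝ) * |(g : ℝ)| = (mulv φ Ξ : ℝ) * |(M.det : ℝ)| := by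
    have := congrArg (Int.cast : ℤ → ℝ) z1
    rw [Int.cast_mul, Int.cast_mul, Int.cast_abs, Int.cast_abs, Int.cast_natCast,
      Int.cast_natCast] at this
    exact this
  have z2' : (mulv v (insert b' τ) : ℝ) * |(g : ℝ)| = (mulv φ Ξ : ℝ) * |(M'.det : ℝ)| := by
    have := congrArg (Int.cast : ℤ → ℝ) z2
    rw [Int.cast_mul, Int.cast_mul, Int.cast_abs, Int.cast_abs, Int.cast_natCast,
      Int.cast_natCast] at this
    exact this
  rw [hdet, abs_mul] at z2'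
  have hg' : |(g : ℝ)| ≠ 0 := by
    rw [abs_ne_zero]
    exact_mod_cast hg
  have h9 : (mulv v (insert b' τ) : ℝ) * |(g : ℝ)|
      = (|β b| * (mulv v (insert b τ) : ℝ)) * |(g : ℝ)| := by
    rw [z2', mul_assoc, z1']; ring
  exact mul_right_cancel₀ hg' h9


end Pool.Agent.H37.T5

end S_ZVOLC

section S_ZLOC

/-!
# ZLOC: points near a critical ray

`zloc`: `c` critical, `Ω_c = {ω : φ_ω(v_c) = 0}` independent.  For real `x` on `Ω_c` there is a real `y0` with `φ_ω(y0) = x_ω` for `ω ∈ Ω_c` (surjectivity: the functionals `prR (φ ω)`, `ω ∈ Ω_c`, are independent; e.g. the transpose of an injective matrix is surjective, or `LinearMap.dualMap`), and `y = y0 + C v_c` with `C` large has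
`φ_ω(y) > 0` for `ω ∉ Ω_c` (`φ_ω(v_c) > 0` there by `nn`).
`zgx`: `zloc` + `gen`: `y = ∑ x_i v_i`, `x ≥ 0`; for `ω ∈ Ξ`: `0 = φ_ω(y) = ∑ x_i φ_ω(v_i)` with nonnegative terms, so `x_i ≠ 0` only for `i ∈ Gx Ξ`.  (General lemma for `y` in the cone with `φ_Ξ(y) = 0`.)
-/

set_option autoImplicit false

namespace Pool.Agent.H37.T5

open Finset H60.RegTri

variable {ι κ Ω : Type} [Fintype ι] [DecidableEq ι] [Fintype κ] [Fintype Ω] [DecidableEq Ω]
  {v : ι → κ → ℤ} {φ : Ω → κ → ℤ} {A B : κ → ℤ} {s0 : ℂ}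

omit [Fintype ι] [DecidableEq ι] in
theorem prR_vR (x : κ → ℤ) (i : ι) : prR x (vR v i) = (pr x (v i) : ℝ) := by
  simp only [prR, vR, pr]
  push_cast
  rfl

omit [Fintype ι] [DecidableEq ι] [Fintype κ] [Fintype Ω] [DecidableEq Ω] in
/-- Independent functionals take arbitrary values. -/
theorem ZLOC_surj [Fintype κ] {T : Type} [Fintype T] (W : T → κ → ℝ)
    (hW : LinearIndependent ℝ W) (x : T → ℝ) : ∃ y : κ → ℝ, ∀ t, ∑ j, W t j * y j = x t := by
  classical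
  have h1 : (Matrix.of W).rank = Fintype.card T := by
    apply LinearIndependent.rank_matrix
    exact hW
  have h2 : LinearMap.range (Matrix.of W).mulVecLin = ⊤ := by
    apply Submodule.eq_top_of_finrank_eq
    rw [Module.finrank_fintype_fun_eq_card]
    exact h1
  obtain ⟨y, hy⟩ := LinearMap.range_eq_top.1 h2 x
  refine ⟨y, fun t => ?_⟩
  rw [← hy]
  simp [Matrix.mulVec, dotProduct]

omit [Fintype ι] [DecidableEq ι] [Fintype Ω] [DecidableEq Ω] in
theorem ZLOC_prR_add (f : κ → ℤ) (y y' : κ → ℝ) : prR f (y + y') = prR f y + prR f y' := by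
  simp only [prR, Pi.add_apply, mul_add, sum_add_distrib]

omit [Fintype ι] [DecidableEq ι] [Fintype Ω] [DecidableEq Ω] in
theorem ZLOC_prR_smul (f : κ → ℤ) (C : ℝ) (y : κ → ℝ) : prR f (C • y) = C * prR f y := by
  simp only [prR, Pi.smul_apply, smul_eq_mul, mul_sum]
  exact sum_congr rfl fun j _ => by ring

omit [DecidableEq ι] [Fintype Ω] [DecidableEq Ω] in
theorem ZLOC_prR_sum (f : κ → ℤ) (x : ι → ℝ) :
    prR f (∑ i, x i • vR v i) = ∑ i, x i * (pr f (v i) : ℝ) := by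
  have h : ∀ s : Finset ι, prR f (∑ i ∈ s, x i • vR v i) = ∑ i ∈ s, x i * (pr f (v i) : ℝ) := by
    classical
    intro s
    induction s using Finset.induction_on with
    | empty => simp [prR]
    | insert a s ha ih =>
      rw [sum_insert ha, sum_insert ha, ZLOC_prR_add, ZLOC_prR_smul, prR_vR, ih]
  exact h univ

/-- ZLOC -/
theorem zloc (hZ : ZS v φ A B s0) (c : ι) (hc : IsCr A B s0 (v c)) (x : Ω → ℝ) :
    ∃ y : κ → ℝ, (∀ ω, pr (φ ω) (v c) = 0 → prR (φ ω) y = x ω) ∧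
      ∀ ω, pr (φ ω) (v c) ≠ 0 → 0 < prR (φ ω) y := by
  classical
  have hind := hZ.ind c hc
  have hind' : LinearIndependent ℝ
      (fun t : {ω : Ω | pr (φ ω) (v c) = 0} => vR φ (t : Ω)) := hind
  have : Fintype {ω : Ω | pr (φ ω) (v c) = 0} := Fintype.ofFinite _
  obtain ⟨y0, hy0⟩ := ZLOC_surj _ hind' (fun t => x (t : Ω))
  have hy0' : ∀ ω, pr (φ ω) (v c) = 0 → prR (φ ω) y0 = x ω := by
    intro ω hω
    exact hy0 ⟨ω, hω⟩
  refine ⟨y0 + (1 + ∑ ω, |prR (φ ω) y0|) • vR v c, fun ω hω => ?_, fun ω hω => ?_⟩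
  · rw [ZLOC_prR_add, ZLOC_prR_smul, prR_vR, hω, hy0' ω hω]
    simp
  · rw [ZLOC_prR_add, ZLOC_prR_smul, prR_vR]
    have h1 : (1 : ℝ) ≤ (pr (φ ω) (v c) : ℝ) := by
      have h2 := hZ.nn c ω
      have h3 : (1 : ℤ) ≤ pr (φ ω) (v c) := by omega
      exact_mod_cast h3
    have h4 : |prR (φ ω) y0| ≤ ∑ ω, |prR (φ ω) y0| :=
      single_le_sum (f := fun ω => |prR (φ ω) y0|) (fun ω _ => abs_nonneg _) (mem_univ ω)
    have h5 := neg_abs_le (prR (φ ω) y0)
    have h6 := abs_nonneg (prR (φ ω) y0)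
    have h7 : (1 + ∑ ω, |prR (φ ω) y0|) * 1 ≤
        (1 + ∑ ω, |prR (φ ω) y0|) * (pr (φ ω) (v c) : ℝ) :=
      mul_le_mul_of_nonneg_left h1 (by linarith)
    linarith

theorem zcone (hZ : ZS v φ A B s0) (Ξ : Finset Ω) (y : κ → ℝ) (hy : ∀ ω, 0 ≤ prR (φ ω) y)
    (h0 : ∀ ω ∈ Ξ, prR (φ ω) y = 0) :
    ∃ x : ι → ℝ, (∀ i, 0 ≤ x i) ∧ (∀ i, i ∉ Gx v φ Ξ → x i = 0) ∧ y = ∑ i, x i • vR v i := by
  obtain ⟨x, hx, rfl⟩ := hZ.gen y hy
  refine ⟨x, hx, fun i hi => ?_, rfl⟩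
  rw [mem_Gx] at hi
  push Not at hi
  obtain ⟨ω, hω, hne⟩ := hi
  have h1 := h0 ω hω
  rw [ZLOC_prR_sum] at h1
  have h2 := (sum_eq_zero_iff_of_nonneg (fun i _ => mul_nonneg (hx i)
    (by exact_mod_cast hZ.nn i ω))).1 h1 i (mem_univ i)
  rcases mul_eq_zero.1 h2 with h3 | h3
  · exact h3
  · exact absurd (by exact_mod_cast h3) hne

/-- For `ω ∉ Ξ`, both vanishing at a critical ray, some ray of `Gx Ξ` has `φ_ω > 0`. -/
theorem zgx (hZ : ZS v φ A B s0) (c : ι) (hc : IsCr A B s0 (v c)) (Ξ : Finset Ω)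
    (hΞ : c ∈ Gx v φ Ξ) (ω : Ω) (hω : pr (φ ω) (v c) = 0) (hωΞ : ω ∉ Ξ) :
    ∃ u ∈ Gx v φ Ξ, 0 < pr (φ ω) (v u) := by
  obtain ⟨y, hy1, hy2⟩ := zloc hZ c hc (fun ω' => if ω' = ω then 1 else 0)
  have hy : ∀ ω', 0 ≤ prR (φ ω') y := by
    intro ω'
    by_cases h : pr (φ ω') (v c) = 0
    · rw [hy1 ω' h]
      split_ifs
      · norm_num
      · exact le_refl _
    · exact (hy2 ω' h).le
  have h0 : ∀ ω' ∈ Ξ, prR (φ ω') y = 0 := by
    intro ω' hω'
    rw [hy1 ω' (mem_Gx.1 hΞ ω' hω'), if_neg]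
    rintro rfl
    exact hωΞ hω'
  obtain ⟨x, hx, hxG, hyx⟩ := zcone hZ Ξ y hy h0
  have h1 : prR (φ ω) y = 1 := by
    rw [hy1 ω hω, if_pos rfl]
  rw [hyx, ZLOC_prR_sum] at h1
  have h2 : ∃ i ∈ (univ : Finset ι), x i * (pr (φ ω) (v i) : ℝ) ≠ 0 := by
    apply exists_ne_zero_of_sum_ne_zero
    rw [h1]
    norm_num
  obtain ⟨i, -, hi⟩ := h2
  refine ⟨i, ?_, ?_⟩
  · by_contra hcon
    apply hi
    rw [hxG i hcon, zero_mul]
  · refine lt_of_le_of_ne (hZ.nn i ω) ?_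
    intro h3
    apply hi
    rw [← h3]
    simp

end Pool.Agent.H37.T5

end S_ZLOC

section S_ZRANK

/-!
# ZRANK: the span of a simplex with a critical ray

`zrank`: `σ ∈ TT Ξ` contains a critical `c`: `c ∈ Gx Ξ` so `Ξ ⊆ Ω_c`, `Ξ` is independent, the space `{y : φ_Ξ(y) = 0}` has dimension `|κ| - |Ξ| = |σ|`, and contains the independent `v_i`, `i ∈ σ`, which are therefore a basis.
`zrank2`: the same for an independent family.
-/

set_option autoImplicit false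

namespace Pool.Agent.H37.T5

open Finset H60.RegTri

variable {ι κ Ω : Type} [Fintype ι] [DecidableEq ι] [Fintype κ] [Fintype Ω] [DecidableEq Ω]
  {v : ι → κ → ℤ} {φ : Ω → κ → ℤ} {A B : κ → ℤ} {s0 : ℂ}

/-- The basic dimension count. -/
theorem ZRANK_aux (hZ : ZS v φ A B s0) (Ξ : Finset Ω) (σ : Finset ι)
    (hσ : LinearIndepOn ℝ (vR v) (σ : Set ι)) (hσG : σ ⊆ Gx v φ Ξ)
    (hcard : σ.card + Ξ.card = Fintype.card κ) (c : ι) (hcσ : c ∈ σ)
    (hc : IsCr A B s0 (v c)) :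
    LinearIndepOn ℝ (vR φ) (Ξ : Set Ω) ∧
    ∀ y : κ → ℝ, (∀ ω ∈ Ξ, prR (φ ω) y = 0) → ∃ β : ι → ℝ, y = ∑ i ∈ σ, β i • vR v i := by
  have hind : LinearIndepOn ℝ (vR φ) (Ξ : Set Ω) := by
    refine (hZ.ind c hc).mono ?_
    intro ω hω
    exact mem_Gx.1 (hσG hcσ) ω hω
  refine ⟨hind, fun y hy => ?_⟩
  let L : (κ → ℝ) →ₗ[ℝ] (Ξ → ℝ) :=
    { toFun := fun y ω => prR (φ (ω : Ω)) y
      map_add' := fun y y' => funext fun ω => ZLOC_prR_add _ y y'
      map_smul' := fun C y => funext fun ω => ZLOC_prR_smul _ C y }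
  have hL : LinearMap.range L = ⊤ := by
    rw [LinearMap.range_eq_top]
    intro x
    obtain ⟨y, hy⟩ := ZLOC_surj (fun t : Ξ => vR φ (t : Ω)) hind x
    exact ⟨y, funext hy⟩
  have hker : Module.finrank ℝ (LinearMap.ker L) = σ.card := by
    have h1 := LinearMap.finrank_range_add_finrank_ker L
    rw [hL, finrank_top, Module.finrank_fintype_fun_eq_card, Module.finrank_fintype_fun_eq_card,
      Fintype.card_coe] at h1
    omega
  have hle : Submodule.span ℝ (vR v '' (σ : Set ι)) ≤ LinearMap.ker L := by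
    rw [Submodule.span_le]
    rintro _ ⟨i, hi, rfl⟩
    rw [SetLike.mem_coe, LinearMap.mem_ker]
    funext ω
    change prR (φ (ω : Ω)) (vR v i) = 0
    rw [prR_vR, mem_Gx.1 (hσG hi) ω ω.2, Int.cast_zero]
  have hfr : Module.finrank ℝ (Submodule.span ℝ (vR v '' (σ : Set ι))) = σ.card := by
    have h1 : LinearIndependent ℝ (fun t : σ => vR v (t : ι)) := hσ
    have h2 := finrank_span_eq_card h1
    rw [Fintype.card_coe] at h2
    have h3 : (vR v '' (σ : Set ι)) = Set.range (fun t : σ => vR v (t : ι)) := by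
      rw [Set.image_eq_range]
      rfl
    rw [h3, h2]
  have heq := Submodule.eq_of_le_of_finrank_eq hle (hfr.trans hker.symm)
  have hyk : y ∈ LinearMap.ker L := by
    rw [LinearMap.mem_ker]
    funext ω
    exact hy ω ω.2
  rw [← heq] at hyk
  exact (mem_span_iff (vR v) σ y).1 hyk

/-- ZRANK -/
theorem zrank (hZ : ZS v φ A B s0) (h : ι → ℝ) (Ξ : Finset Ω) (σ : Finset ι)
    (hσ : σ ∈ TT v φ h Ξ) (c : ι) (hcσ : c ∈ σ) (hc : IsCr A B s0 (v c)) :
    LinearIndepOn ℝ (vR φ) (Ξ : Set Ω) ∧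
    ∀ y : κ → ℝ, (∀ ω ∈ Ξ, prR (φ ω) y = 0) → ∃ β : ι → ℝ, y = ∑ i ∈ σ, β i • vR v i := by
  obtain ⟨⟨h1, h2, -⟩, h3⟩ := mem_TT.1 hσ
  exact ZRANK_aux hZ Ξ σ h2 h1 h3 c hcσ hc

/-- The dimension of the common kernel, in the form needed for extensions. -/
theorem zrank2 (hZ : ZS v φ A B s0) (Ξ : Finset Ω) (σ : Finset ι)
    (hσ : LinearIndepOn ℝ (vR v) (σ : Set ι)) (hσG : σ ⊆ Gx v φ Ξ)
    (hcard : σ.card + Ξ.card = Fintype.card κ) (c : ι) (hcσ : c ∈ σ)
    (hc : IsCr A B s0 (v c)) (y : κ → ℝ) (hy : ∀ ω ∈ Ξ, prR (φ ω) y = 0) :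
    ∃ β : ι → ℝ, y = ∑ i ∈ σ, β i • vR v i :=
  (ZRANK_aux hZ Ξ σ hσ hσG hcard c hcσ hc).2 y hy

end Pool.Agent.H37.T5

end S_ZRANK

section S_ZFAC

/-!
# ZFAC: facets of a simplex on the boundary

`σ` is a basis of `K = {y : φ_Ξ(y) = 0}` (`zrank`).  Let `β(y)` be the coefficient at `b` for `y ∈ K`.  `Ω_c = {ω : φ_ω(v_c) = 0} ⊇ Ξ` is independent with `|κ| - 1` elements (`hZ.ind`, `hZ.card`).  For `ω ∈ Ω_c`, `ω ∉ Ξ` let `y_ω` be a point of the cone with `φ_ω(y_ω) = 1`, `φ_ω'(y_ω) = 0` for the other `ω' ∈ Ω_c` (`zloc`), so `y_ω ∈ K`;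
`x_ω := β(y_ω) ≥ 0` by `zcone` and `hno` (`β` is linear on `K`).  For `y ∈ K`: `y - ∑_{ω ∈ Ω_c - Ξ} φ_ω(y) y_ω` is killed by all `φ_ω`, `ω ∈ Ω_c`, hence a multiple of `v_c` (the kernel of `|κ| - 1` independent functionals has dimension one), and `β(v_c) = 0` as `c ∈ σ.erase b`: `β(y) = ∑_{Ω_c - Ξ} x_ω φ_ω(y)`.
`β(v_b) = 1`, so some `x_ω > 0`.  For `t ∈ σ.erase b`: `0 = β(v_t) = ∑ x_ω φ_ω(v_t)` with nonnegative terms, so `φ_ω(v_t) = 0` whenever `x_ω > 0`.  If `ω'` is another element outside `Ξ` vanishing on `σ.erase b` (it is in `Ω_c` since `c ∈ σ.erase b`) then the `|Ξ| + 2` independent functionals `Ξ, ω, ω'` vanish on the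
`|κ| - |Ξ| - 1` independent vectors `v_t`: contradiction (dimension).  So there is exactly one `ω`, `x_ω > 0`, and `1 = β(v_b) = x_ω φ_ω(v_b)` gives `φ_ω(v_b) > 0`.  `σ.erase b ∈ TT (insert ω Ξ)`: the cardinality; a relation of `l ∈ Gx (insert ω Ξ)`, `l ∉ σ.erase b` with `σ.erase b` is a relation with `σ` with coefficient `0` at `b`
(and `l ≠ b` since `φ_ω(v_b) > 0`).
-/

set_option autoImplicit false

namespace Pool.Agent.H37.T5

open Finset H60.RegTri

variable {ι κ Ω : Type} [Fintype ι] [DecidableEq ι] [Fintype κ] [Fintype Ω] [DecidableEq Ω]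
  {v : ι → κ → ℤ} {φ : Ω → κ → ℤ} {A B : κ → ℤ} {s0 : ℂ}

/-- the pairing as a linear map -/
noncomputable def zfac_lin (x : κ → ℤ) : (κ → ℝ) →ₗ[ℝ] ℝ where
  toFun y := prR x y
  map_add' y z := by
    simp only [prR, Pi.add_apply, mul_add, sum_add_distrib]
  map_smul' k y := by
    simp only [prR, Pi.smul_apply, smul_eq_mul, RingHom.id_apply, mul_sum]
    exact sum_congr rfl fun j _ => by ring

omit [Fintype ι] [DecidableEq ι] in
/-- linear functionals with prescribed values on independent vectors -/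
theorem zfac_ext (w : ι → κ → ℝ) (σ : Finset ι) (hσ : LinearIndepOn ℝ w (σ : Set ι))
    (f : ι → ℝ) : ∃ L : (κ → ℝ) →ₗ[ℝ] ℝ, ∀ i ∈ σ, L (w i) = f i := by
  have hli : LinearIndependent ℝ (fun i : (σ : Set ι) => w i) := hσ
  let F : Submodule.span ℝ (Set.range (fun i : (σ : Set ι) => w i)) →ₗ[ℝ] ℝ :=
    (Finsupp.linearCombination ℝ (fun i : (σ : Set ι) => f i)).comp hli.repr
  obtain ⟨L, hL⟩ := LinearMap.exists_extend F
  refine ⟨L, fun i hi => ?_⟩
  have hmem : w i ∈ Submodule.span ℝ (Set.range (fun i : (σ : Set ι) => w i)) :=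
    Submodule.subset_span ⟨⟨i, hi⟩, rfl⟩
  have h1 : L (w i) = F ⟨w i, hmem⟩ := by
    rw [← hL]; rfl
  have h2 : hli.repr ⟨w i, hmem⟩ = Finsupp.single (⟨i, hi⟩ : (σ : Set ι)) 1 :=
    hli.repr_eq_single ⟨i, hi⟩ ⟨w i, hmem⟩ rfl
  rw [h1]
  show Finsupp.linearCombination ℝ (fun i : (σ : Set ι) => f i) (hli.repr ⟨w i, hmem⟩) = f i
  rw [h2, Finsupp.linearCombination_single, one_smul]

/-- ZFAC -/
theorem zfac (hZ : ZS v φ A B s0) (h : ι → ℝ) (Ξ : Finset Ω) (σ : Finset ι)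
    (hσ : σ ∈ TT v φ h Ξ) (b : ι) (hb : b ∈ σ) (c : ι) (hcσ : c ∈ σ.erase b)
    (hc : IsCr A B s0 (v c)) (hno : ∀ u ∈ Gx v φ Ξ, 0 ≤ cf (vR v) σ (vR v u) b) :
    ∃ ω, ω ∉ Ξ ∧ 0 < pr (φ ω) (v b) ∧ (∀ t ∈ σ.erase b, pr (φ ω) (v t) = 0) ∧
      σ.erase b ∈ TT v φ h (insert ω Ξ) ∧
      ∀ ω', ω' ∉ Ξ → (∀ t ∈ σ.erase b, pr (φ ω') (v t) = 0) → ω' = ω := by
  classical
  obtain ⟨⟨hσG, hσi, hσu⟩, hcard⟩ := mem_TT.1 hσ
  have hcb : c ≠ b := (Finset.mem_erase.1 hcσ).1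
  have hcs : c ∈ σ := (Finset.mem_erase.1 hcσ).2
  have hcG := mem_Gx.1 (hσG hcs)
  obtain ⟨-, hspan⟩ := zrank hZ h Ξ σ hσ c hcs hc
  obtain ⟨L, hL⟩ := zfac_ext (vR v) σ hσi (fun i => if i = b then 1 else 0)
  have hLb : L (vR v b) = 1 := by rw [hL b hb, if_pos rfl]
  have hLt : ∀ t ∈ σ.erase b, L (vR v t) = 0 := by
    intro t ht
    rw [hL t (Finset.mem_erase.1 ht).2, if_neg (Finset.mem_erase.1 ht).1]
  -- `L` is the coefficient
  have hLcf : ∀ y : κ → ℝ, (∀ ω ∈ Ξ, prR (φ ω) y = 0) → L y = cf (vR v) σ y b := by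
    intro y hy
    have h1 := cf_sum (hspan y hy)
    conv_lhs => rw [h1]
    rw [map_sum]
    have h2 : ∀ i ∈ σ, L (cf (vR v) σ y i • vR v i) = if i = b then cf (vR v) σ y b else 0 := by
      intro i hi
      rw [map_smul, hL i hi]
      split_ifs with h3
      · rw [h3]; simp
      · simp
    rw [Finset.sum_congr rfl h2, Finset.sum_ite_eq' σ b, if_pos hb]
  have hLG : ∀ u ∈ Gx v φ Ξ, 0 ≤ L (vR v u) := by
    intro u hu
    rw [hLcf]
    · exact hno u hu
    · intro ω hω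
      rw [prR_vR, mem_Gx.1 hu ω hω]
      simp
  -- the points `y_ω`
  have hy : ∀ ω : Ω, ∃ y : κ → ℝ, (∀ ω', pr (φ ω') (v c) = 0 →
      prR (φ ω') y = if ω' = ω then 1 else 0) ∧
      ∀ ω', pr (φ ω') (v c) ≠ 0 → 0 < prR (φ ω') y :=
    fun ω => zloc hZ c hc (fun ω' => if ω' = ω then 1 else 0)
  choose yy hyy1 hyy2 using hy
  have hyK : ∀ ω, ω ∉ Ξ → ∀ ω' ∈ Ξ, prR (φ ω') (yy ω) = 0 := by
    intro ω hω ω' hω'
    rw [hyy1 ω ω' (hcG ω' hω'), if_neg]
    rintro rfl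
    exact hω hω'
  have hyL : ∀ ω, ω ∉ Ξ → 0 ≤ L (yy ω) := by
    intro ω hω
    obtain ⟨x, hx0, hxG, hxy⟩ := zcone hZ Ξ (yy ω) (by
      intro ω'
      by_cases h0 : pr (φ ω') (v c) = 0
      · rw [hyy1 ω ω' h0]
        split_ifs <;> norm_num
      · exact (hyy2 ω ω' h0).le) (hyK ω hω)
    rw [hxy, map_sum]
    refine Finset.sum_nonneg fun i _ => ?_
    rw [map_smul, smul_eq_mul]
    by_cases hi : i ∈ Gx v φ Ξ
    · exact mul_nonneg (hx0 i) (hLG i hi)
    · rw [hxG i hi, zero_mul]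
  -- the functionals vanishing at `c`
  set Oc : Finset Ω := univ.filter (fun ω => pr (φ ω) (v c) = 0) with hOc
  have hmemOc : ∀ ω, ω ∈ Oc ↔ pr (φ ω) (v c) = 0 := fun ω => by simp [hOc]
  have hexp : ∀ y : κ → ℝ, (∀ ω ∈ Ξ, prR (φ ω) y = 0) →
      L y = ∑ ω ∈ Oc \ Ξ, prR (φ ω) y * L (yy ω) := by
    intro y hy
    have hz : ∀ ω' ∈ Oc, prR (φ ω') (y - ∑ ω ∈ Oc \ Ξ, prR (φ ω) y • yy ω) = 0 := by
      intro ω' hω'
      have h1 : prR (φ ω') (y - ∑ ω ∈ Oc \ Ξ, prR (φ ω) y • yy ω) =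
          prR (φ ω') y - ∑ ω ∈ Oc \ Ξ, prR (φ ω) y * prR (φ ω') (yy ω) := by
        have h2 := map_sub (zfac_lin (φ ω')) y (∑ ω ∈ Oc \ Ξ, prR (φ ω) y • yy ω)
        rw [map_sum] at h2
        simp only [map_smul, smul_eq_mul] at h2
        exact h2
      rw [h1]
      have h3 : ∀ ω ∈ Oc \ Ξ, prR (φ ω) y * prR (φ ω') (yy ω) =
          if ω = ω' then prR (φ ω') y else 0 := by
        intro ω _
        rw [hyy1 ω ω' ((hmemOc ω').1 hω')]
        by_cases h4 : ω' = ω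
        · subst h4; simp
        · rw [if_neg h4, if_neg (fun h5 => h4 h5.symm), mul_zero]
      rw [Finset.sum_congr rfl h3, Finset.sum_ite_eq' (Oc \ Ξ) ω']
      by_cases h6 : ω' ∈ Ξ
      · rw [if_neg (by simp [h6]), hy ω' h6, sub_zero]
      · rw [if_pos (Finset.mem_sdiff.2 ⟨hω', h6⟩), sub_self]
    have hcc := hZ.card c hc
    obtain ⟨β, hβ⟩ := zrank2 hZ Oc {c} (hσi.mono (by
        intro t ht
        rw [Finset.coe_singleton, Set.mem_singleton_iff] at ht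
        rw [ht]; exact hcs))
      (by
        intro t ht
        rw [Finset.mem_singleton] at ht
        rw [ht]
        exact mem_Gx.2 fun ω hω => (hmemOc ω).1 hω)
      (by
        rw [Finset.card_singleton, add_comm]
        rw [← hcc])
      c (Finset.mem_singleton_self c) hc _ hz
    rw [Finset.sum_singleton] at hβ
    have h7 : L (y - ∑ ω ∈ Oc \ Ξ, prR (φ ω) y • yy ω) = 0 := by
      rw [hβ, map_smul, hLt c hcσ, smul_zero]
    rw [map_sub, map_sum, sub_eq_zero] at h7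
    rw [h7]
    exact Finset.sum_congr rfl fun ω _ => by rw [map_smul, smul_eq_mul]
  have hG0 : ∀ t ∈ σ, ∀ ω ∈ Ξ, prR (φ ω) (vR v t) = 0 := by
    intro t ht ω hω
    rw [prR_vR, mem_Gx.1 (hσG ht) ω hω]
    simp
  -- choice of `ω`
  obtain ⟨ω, hω, hωpos⟩ : ∃ ω ∈ Oc \ Ξ, 0 < prR (φ ω) (vR v b) * L (yy ω) := by
    have h1 := hexp (vR v b) (hG0 b hb)
    rw [hLb] at h1
    by_contra hcon
    push Not at hcon
    have h2 := Finset.sum_nonpos hcon
    linarith
  have hωΞ : ω ∉ Ξ := (Finset.mem_sdiff.1 hω).2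
  have hprn : ∀ ω t, 0 ≤ prR (φ ω) (vR v t) := by
    intro ω t
    rw [prR_vR]
    exact_mod_cast hZ.nn t ω
  have hx0 := hyL ω hωΞ
  have hxpos : 0 < L (yy ω) := by
    rcases hx0.lt_or_eq with h1 | h1
    · exact h1
    · rw [← h1, mul_zero] at hωpos
      exact absurd hωpos (lt_irrefl _)
  have hbpos : 0 < pr (φ ω) (v b) := by
    have h1 : 0 < prR (φ ω) (vR v b) := by
      rcases (hprn ω b).lt_or_eq with h1 | h1
      · exact h1
      · rw [← h1, zero_mul] at hωpos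
        exact absurd hωpos (lt_irrefl _)
    rw [prR_vR] at h1
    exact_mod_cast h1
  have hvan : ∀ t ∈ σ.erase b, pr (φ ω) (v t) = 0 := by
    intro t ht
    have h1 := hexp (vR v t) (hG0 t (Finset.mem_erase.1 ht).2)
    rw [hLt t ht] at h1
    have h2 := (Finset.sum_eq_zero_iff_of_nonneg (fun ω' hω' =>
      mul_nonneg (hprn ω' t) (hyL ω' (Finset.mem_sdiff.1 hω').2))).1 h1.symm ω hω
    rcases mul_eq_zero.1 h2 with h3 | h3
    · rw [prR_vR] at h3
      exact_mod_cast h3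
    · exact absurd h3 hxpos.ne'
  refine ⟨ω, hωΞ, hbpos, hvan, ?_, ?_⟩
  · rw [mem_TT]
    refine ⟨⟨?_, hσi.mono (by exact_mod_cast Finset.erase_subset b σ), ?_⟩, ?_⟩
    · intro t ht
      rw [mem_Gx]
      intro ω' hω'
      rcases Finset.mem_insert.1 hω' with h1 | h1
      · rw [h1]; exact hvan t ht
      · exact mem_Gx.1 (hσG (Finset.mem_erase.1 ht).2) ω' h1
    · intro l hl hlσ β hβ
      have hlb : l ≠ b := by
        rintro rfl
        have h1 := mem_Gx.1 hl ω (Finset.mem_insert_self _ _)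
        rw [h1] at hbpos
        exact absurd hbpos (lt_irrefl _)
      have hls : l ∉ σ := fun h1 => hlσ (Finset.mem_erase.2 ⟨hlb, h1⟩)
      have hlG : l ∈ Gx v φ Ξ := Gx_mono (Finset.subset_insert ω Ξ) hl
      have e1 : ∑ i ∈ σ, (if i = b then 0 else β i) • vR v i =
          ∑ i ∈ σ.erase b, β i • vR v i := by
        rw [← Finset.add_sum_erase σ _ hb, if_pos rfl, zero_smul, zero_add]
        exact Finset.sum_congr rfl fun i hi => by rw [if_neg (Finset.mem_erase.1 hi).1]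
      have e2 : ∑ i ∈ σ, (if i = b then 0 else β i) * h i =
          ∑ i ∈ σ.erase b, β i * h i := by
        rw [← Finset.add_sum_erase σ _ hb, if_pos rfl, zero_mul, zero_add]
        exact Finset.sum_congr rfl fun i hi => by rw [if_neg (Finset.mem_erase.1 hi).1]
      have h2 := hσu l hlG hls (fun i => if i = b then 0 else β i) (by rw [e1]; exact hβ)
      rw [e2] at h2
      exact h2
    · rw [Finset.card_erase_of_mem hb, Finset.card_insert_of_notMem hωΞ]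
      have h1 : 0 < σ.card := Finset.card_pos.2 ⟨b, hb⟩
      omega
  · intro ω' hω' hvan'
    by_contra hne
    obtain ⟨β, hβ⟩ := hspan (yy ω') (hyK ω' hω')
    have hcω : pr (φ ω) (v c) = 0 := hvan c hcσ
    have hcω' : pr (φ ω') (v c) = 0 := hvan' c hcσ
    have key : ∀ ω'' : Ω, (∀ t ∈ σ.erase b, pr (φ ω'') (v t) = 0) →
        prR (φ ω'') (yy ω') = β b * (pr (φ ω'') (v b) : ℝ) := by
      intro ω'' h1
      have h2 := congrArg (zfac_lin (φ ω'')) hβ
      rw [map_sum] at h2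
      simp only [map_smul, smul_eq_mul] at h2
      have h3 : ∑ i ∈ σ, β i * zfac_lin (φ ω'') (vR v i) = β b * (pr (φ ω'') (v b) : ℝ) := by
        rw [← Finset.add_sum_erase σ _ hb]
        have h4 : ∑ i ∈ σ.erase b, β i * zfac_lin (φ ω'') (vR v i) = 0 := by
          refine Finset.sum_eq_zero fun i hi => ?_
          have h5 : zfac_lin (φ ω'') (vR v i) = (pr (φ ω'') (v i) : ℝ) := prR_vR (v := v) _ _
          rw [h5, h1 i hi]
          simp
        have h6 : zfac_lin (φ ω'') (vR v b) = (pr (φ ω'') (v b) : ℝ) := prR_vR (v := v) _ _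
        rw [h4, h6, add_zero]
      exact h2.trans h3
    have h1 := key ω hvan
    rw [hyy1 ω' ω hcω, if_neg (fun h2 => hne h2.symm)] at h1
    have h2 := key ω' hvan'
    rw [hyy1 ω' ω' hcω', if_pos rfl] at h2
    have h3 : (0 : ℝ) < (pr (φ ω) (v b) : ℝ) := by exact_mod_cast hbpos
    have h4 : β b = 0 := by
      rcases mul_eq_zero.1 h1.symm with h5 | h5
      · exact h5
      · exact absurd h5 h3.ne'
    rw [h4, zero_mul] at h2
    exact one_ne_zero h2

end Pool.Agent.H37.T5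

end S_ZFAC

section S_ZIN

/-!
# ZIN: the interior pairs cancel

For `p = (σ, b) ∈ PrN`: `σ` is a basis of `K = {φ_Ξ = 0}` (`zrank`, the critical ray `c ∈ σ.erase b`), so `zpm` (with `G = Gx Ξ`, `B = σ`) gives a unique `b'` and `σ' = insert b' (σ.erase b)`, upper, `b' ∉ σ`, coefficient `β = cf σ b' b < 0`.  Then `(σ', b') ∈ PrN`: same cardinality, `σ'.erase b' = σ.erase b` contains `c`; it is interior: `v b = (1/β) v b' + …` has
negative coefficient at `b'`.  The map `(σ, b) ↦ (σ', b')` is an involution (uniqueness in `zpm`) without fixed points.  Terms: `tmE σ b = mul(σ) P`, `tmE σ' b' = mul(σ') P` with the same product `P`; `mul(σ') = |β| mul(σ) = -β mul(σ)` (`zvol3`), and `e = c_b v_b + τ`-part `= (c_b/β) v_b' + τ`-part, so `c_{b'}(σ') = c_b/β` (`cf_eq`): the two terms add up to `0`.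
`Finset.sum_involution` (the involution as a function chosen by `zpm`).
-/

set_option autoImplicit false

namespace Pool.Agent.H37.T5

open Finset H60.RegTri

variable {ι κ Ω : Type} [Fintype ι] [DecidableEq ι] [Fintype κ] [DecidableEq κ] [Fintype Ω]
  [DecidableEq Ω] {v : ι → κ → ℤ} {φ : Ω → κ → ℤ} {A B : κ → ℤ} {s0 : ℂ}

omit [Fintype ι] [Fintype κ] [DecidableEq κ] [Fintype Ω] [DecidableEq Ω] in
/-- Exchange of a basis vector: the coefficients. -/
theorem ZIN_cf {w : ι → κ → ℝ} {σ : Finset ι} {b b' : ι} (hb : b ∈ σ) (hb' : b' ∉ σ)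
    (hσ' : LinearIndepOn ℝ w ((insert b' (σ.erase b) : Finset ι) : Set ι)) {β : ι → ℝ}
    (hβ : w b' = ∑ i ∈ σ, β i • w i) (hβ0 : β b ≠ 0) {y : κ → ℝ} {c : ι → ℝ}
    (hc : y = ∑ i ∈ σ, c i • w i) :
    cf w (insert b' (σ.erase b)) y b' = c b / β b := by
  have hb'' : b' ∉ σ.erase b := fun h => hb' (Finset.mem_of_mem_erase h)
  have key : y = ∑ i ∈ insert b' (σ.erase b),
      (fun i => if i = b' then c b / β b else c i - c b / β b * β i) i • w i := by
    rw [Finset.sum_insert hb'']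
    simp only [if_true]
    have h1 : ∑ i ∈ σ.erase b, (if i = b' then c b / β b else c i - c b / β b * β i) • w i =
        ∑ i ∈ σ.erase b, (c i - c b / β b * β i) • w i := by
      refine Finset.sum_congr rfl fun i hi => ?_
      rw [if_neg]
      rintro rfl
      exact hb'' hi
    rw [h1, hβ, hc, ← Finset.add_sum_erase σ _ hb, ← Finset.add_sum_erase σ (fun i => β i • w i) hb,
      smul_add, Finset.smul_sum, smul_smul, div_mul_cancel₀ _ hβ0, add_assoc,
      ← Finset.sum_add_distrib]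
    congr 1
    refine Finset.sum_congr rfl fun i _ => ?_
    rw [smul_smul, ← add_smul]
    congr 1
    ring
  rw [cf_eq hσ' _ key (Finset.mem_insert_self _ _)]
  simp

/-- ZIN -/
theorem zin (hZ : ZS v φ A B s0) (h : ι → ℝ) (hgen : ∀ τ, GenericOn (vR v) h τ) (Cl : Finset ι)
    (hCl : ∀ c ∈ Cl, IsCr A B s0 (v c)) (Ξ : Finset Ω) (e : κ → ℤ)
    (he : ∀ ω ∈ Ξ, pr (φ ω) e = 0) :
    ∑ p ∈ PrN v φ h Cl Ξ, cE v p.1 e p.2 * tmE A B v p.1 p.2 = 0 := by
  classical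
  have hfull : ∀ p ∈ PrN v φ h Cl Ξ, LinearIndepOn ℝ (vR φ) (Ξ : Set Ω) ∧
      ∀ y : κ → ℝ, (∀ ω ∈ Ξ, prR (φ ω) y = 0) → ∃ β : ι → ℝ, y = ∑ i ∈ p.1, β i • vR v i := by
    intro p hp
    rw [mem_PrN, mem_PrT, mem_TC] at hp
    obtain ⟨⟨⟨h1, c, hc, hcl⟩, _⟩, _⟩ := hp
    exact zrank hZ h Ξ p.1 h1 c hc (hCl c hcl)
  have hG : ∀ l ∈ Gx v φ Ξ, ∀ ω ∈ Ξ, prR (φ ω) (vR v l) = 0 := by
    intro l hl ω hω
    rw [prR_vR, mem_Gx.1 hl ω hω, Int.cast_zero]
  have key : ∀ p ∈ PrN v φ h Cl Ξ, ∃ b' ∈ Gx v φ Ξ, b' ∉ p.1 ∧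
      UpperOn (vR v) h (Gx v φ Ξ) (insert b' (p.1.erase p.2)) ∧ cf (vR v) p.1 (vR v b') p.2 < 0 ∧
      ∀ b'' ∈ Gx v φ Ξ, b'' ∉ p.1 →
        UpperOn (vR v) h (Gx v φ Ξ) (insert b'' (p.1.erase p.2)) → b'' = b' := by
    intro p hp
    have hp' := hp
    rw [mem_PrN, mem_PrT, mem_TC, mem_TT] at hp'
    obtain ⟨⟨⟨⟨h1, _⟩, _⟩, hb, _⟩, hneg⟩ := hp'
    exact zpm (vR v) h hgen (Gx v φ Ξ) p.1 h1 (fun l hl => (hfull p hp).2 _ (hG l hl)) p.2 hb hneg
  choose f hfG hfσ hfU hfneg hfuniq using key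
  -- properties of the pair
  have hcf : ∀ (p : Finset ι × ι) (hp : p ∈ PrN v φ h Cl Ξ) (y : κ → ℝ),
      (∀ ω ∈ Ξ, prR (φ ω) y = 0) →
      cf (vR v) (insert (f p hp) (p.1.erase p.2)) y (f p hp) =
        cf (vR v) p.1 y p.2 / cf (vR v) p.1 (vR v (f p hp)) p.2 := by
    intro p hp y hy
    have hp' := hp
    rw [mem_PrN, mem_PrT, mem_TC, mem_TT] at hp'
    obtain ⟨⟨⟨⟨h1, _⟩, _⟩, hb, _⟩, hneg⟩ := hp'
    exact ZIN_cf hb (hfσ p hp) (hfU p hp).2.1
      (cf_sum ((hfull p hp).2 _ (hG _ (hfG p hp)))) (hfneg p hp).ne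
      (cf_sum ((hfull p hp).2 y hy))
  have herase : ∀ (p : Finset ι × ι) (hp : p ∈ PrN v φ h Cl Ξ),
      (insert (f p hp) (p.1.erase p.2)).erase (f p hp) = p.1.erase p.2 := by
    intro p hp
    exact Finset.erase_insert fun hmem => hfσ p hp (Finset.mem_of_mem_erase hmem)
  have hins : ∀ (p : Finset ι × ι), p ∈ PrN v φ h Cl Ξ → insert p.2 (p.1.erase p.2) = p.1 := by
    intro p hp
    rw [mem_PrN, mem_PrT] at hp
    exact Finset.insert_erase hp.1.2.1
  refine Finset.sum_involution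
    (fun p hp => (insert (f p hp) (p.1.erase p.2), f p hp)) ?_ ?_ ?_ ?_
  · -- the two terms cancel
    intro p hp
    have hp' := hp
    rw [mem_PrN, mem_PrT, mem_TC, mem_TT] at hp'
    obtain ⟨⟨⟨⟨h1, hcard⟩, _⟩, hb, _⟩, hneg⟩ := hp'
    set b' := f p hp with hb'def
    set βb := cf (vR v) p.1 (vR v b') p.2 with hβb
    have hβneg : βb < 0 := hfneg p hp
    have hbτ : p.2 ∉ p.1.erase p.2 := Finset.notMem_erase _ _
    have hb'τ : b' ∉ p.1.erase p.2 := fun hmem => hfσ p hp (Finset.mem_of_mem_erase hmem)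
    have hm := zvol3 v φ (p.1.erase p.2) p.2 b' hbτ hb'τ Ξ
      (by rw [hins p hp]; exact h1.2.1) (hfU p hp).2.1 (hfull p hp).1
      (by
        rw [hins p hp]
        intro i hi ω hω
        exact mem_Gx.1 (h1.1 hi) ω hω)
      (by
        intro i hi ω hω
        exact mem_Gx.1 ((hfU p hp).1 hi) ω hω)
      (by rw [hins p hp]; exact hcard)
      (cf (vR v) p.1 (vR v b')) (by
        rw [hins p hp]
        exact cf_sum ((hfull p hp).2 _ (hG _ (hfG p hp))))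
    rw [hins p hp, ← hβb, abs_of_neg hβneg] at hm
    have hy : ∀ ω ∈ Ξ, prR (φ ω) (fun j => (e j : ℝ)) = 0 := by
      intro ω hω
      have h2 := he ω hω
      unfold pr at h2
      show ∑ j, ((φ ω j : ℝ)) * ((e j : ℝ)) = 0
      exact_mod_cast h2
    have hc2 := hcf p hp _ hy
    rw [← hb'def, ← hβb] at hc2
    simp only [cE, tmE]
    rw [hc2, herase p hp]
    set P := ∏ i ∈ p.1.erase p.2, (VL A B (v i))⁻¹ with hP
    set c := cf (vR v) p.1 (fun j => (e j : ℝ)) p.2 with hc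
    have hmC : ((mulv v (insert b' (p.1.erase p.2)) : ℕ) : RatFunc ℂ) =
        RatFunc.C ((-βb * (mulv v p.1 : ℝ) : ℝ) : ℂ) := by
      rw [← hm]
      simp
    have hmC2 : ((mulv v p.1 : ℕ) : RatFunc ℂ) = RatFunc.C (((mulv v p.1 : ℝ) : ℝ) : ℂ) := by
      simp
    have e1 : RatFunc.C ((c : ℝ) : ℂ) * (RatFunc.C (((mulv v p.1 : ℝ) : ℝ) : ℂ)) +
        RatFunc.C ((c / βb : ℝ) : ℂ) * RatFunc.C ((-βb * (mulv v p.1 : ℝ) : ℝ) : ℂ) = 0 := by
      rw [← map_mul, ← map_mul, ← map_add]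
      have e2 : ((c : ℝ) : ℂ) * (((mulv v p.1 : ℝ) : ℝ) : ℂ) +
          ((c / βb : ℝ) : ℂ) * ((-βb * (mulv v p.1 : ℝ) : ℝ) : ℂ) = 0 := by
        rw [← Complex.ofReal_mul, ← Complex.ofReal_mul, ← Complex.ofReal_add]
        have e3 : c * (mulv v p.1 : ℝ) + c / βb * (-βb * (mulv v p.1 : ℝ)) = 0 := by
          have := hβneg.ne
          field_simp
          ring
        rw [e3, Complex.ofReal_zero]
      rw [e2, map_zero]
    rw [hmC, hmC2]
    calc _ = (RatFunc.C ((c : ℝ) : ℂ) * (RatFunc.C (((mulv v p.1 : ℝ) : ℝ) : ℂ)) +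
        RatFunc.C ((c / βb : ℝ) : ℂ) * RatFunc.C ((-βb * (mulv v p.1 : ℝ) : ℝ) : ℂ)) * P := by ring
      _ = 0 := by rw [e1, zero_mul]
  · -- no fixed points
    intro p hp _ heq
    have h2 : f p hp = p.2 := congrArg Prod.snd heq
    have hp' := hp
    rw [mem_PrN, mem_PrT] at hp'
    exact hfσ p hp (h2 ▸ hp'.1.2.1)
  · -- membership
    intro p hp
    have hp' := hp
    rw [mem_PrN, mem_PrT, mem_TC, mem_TT] at hp'
    obtain ⟨⟨⟨⟨h1, hcard⟩, _⟩, hb, c, hc, hcb, hcl⟩, hneg⟩ := hp'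
    have hb'τ : f p hp ∉ p.1.erase p.2 := fun hmem => hfσ p hp (Finset.mem_of_mem_erase hmem)
    have hcσ' : c ∈ insert (f p hp) (p.1.erase p.2) :=
      Finset.mem_insert_of_mem (Finset.mem_erase.2 ⟨hcb, hc⟩)
    rw [mem_PrN, mem_PrT, mem_TC, mem_TT]
    refine ⟨⟨⟨⟨hfU p hp, ?_⟩, c, hcσ', hcl⟩, Finset.mem_insert_self _ _, c, hcσ', ?_, hcl⟩, ?_⟩
    · rw [Finset.card_insert_of_notMem hb'τ, Finset.card_erase_add_one hb]
      exact hcard
    · rintro rfl
      exact hfσ p hp hc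
    · refine ⟨p.2, h1.1 hb, ?_⟩
      have h2 := hcf p hp (vR v p.2) (hG _ (h1.1 hb))
      have h3 : cf (vR v) p.1 (vR v p.2) p.2 = 1 := by
        rw [cf_eq h1.2.1 (fun i => if i = p.2 then 1 else 0) _ hb]
        · simp
        · simp [hb]
      rw [h3] at h2
      show cf (vR v) (insert (f p hp) (p.1.erase p.2)) (vR v p.2) (f p hp) < 0
      rw [h2]
      exact div_neg_of_pos_of_neg one_pos (hfneg p hp)
  · -- involution
    intro p hp
    have hp' := hp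
    rw [mem_PrN, mem_PrT, mem_TC, mem_TT] at hp'
    obtain ⟨⟨⟨⟨h1, hcard⟩, _⟩, hb, c, hc, hcb, hcl⟩, hneg⟩ := hp'
    have h2 := fun hq => hfuniq (insert (f p hp) (p.1.erase p.2), f p hp) hq p.2 (h1.1 hb)
      (by
        intro hmem
        rcases Finset.mem_insert.1 hmem with h3 | h3
        · exact hfσ p hp (h3 ▸ hb)
        · exact Finset.notMem_erase _ _ h3)
      (by
        show UpperOn (vR v) h (Gx v φ Ξ)
          (insert p.2 ((insert (f p hp) (p.1.erase p.2)).erase (f p hp)))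
        rw [herase p hp, hins p hp]
        exact h1)
    ext1
    · simp only
      rw [← h2, herase p hp, hins p hp]
    · simp only
      rw [← h2]

end Pool.Agent.H37.T5

end S_ZIN

section S_ZBD

/-!
# ZBD: the boundary pairs

Bijection between the pairs `(σ, b) ∈ PrB` and the pairs `(ω, τ)`, `ω ∉ Ξ`, `τ ∈ TC (insert ω Ξ)`: `(σ, b) ↦ (ω, σ.erase b)` with `ω` from `zfac` (`¬ Neg` gives `hno`; the critical ray in `σ.erase b` from `PrT`, `hCl`); conversely `τ` contains a `c ∈ Cl`, critical, `c ∈ Gx (insert ω Ξ)`; `zgx` gives `u ∈ Gx Ξ` with `φ_ω(u) > 0`; `zext` with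
`G = Gx Ξ`, `ψ = prR (φ ω)` (its zero set in `G` is `Gx (insert ω Ξ)`), `hspan` by `zrank2` for `insert u τ` (independent, cardinality `|κ| - |Ξ|`), gives a unique `b`, and `(insert b τ, b) ∈ PrB`: not `Neg` since for `u ∈ Gx Ξ` with coefficient `β` at `b`: `0 ≤ φ_ω(u) = β φ_ω(b)` (`φ_ω` vanishes on `τ`).
Uniqueness in `zext` and in `zfac` shows that the maps are inverse (`Finset.sum_bij` or `sum_sigma`, `sum_nbij'`).  Terms: with `σ = insert b τ`: `φ_ω(e) = c_b φ_ω(b)` (`e = ∑ c_i v_i` by `zrank`), and `mul(σ) ν(Ξ+ω) = φ_ω(b) mul(τ) ν(Ξ)` (`zvol2`), so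
`ν(Ξ)⁻¹ c_b mul(σ) P = φ_ω(e) ν(Ξ+ω)⁻¹ mul(τ) P` with `P = ∏_τ 1/V`, i.e. `ν(Ξ)⁻¹ cE * tmE σ b = φ_ω(e) ν(Ξ+ω)⁻¹ tmv τ` (`mulv_ne`).
-/

set_option autoImplicit false

namespace Pool.Agent.H37.T5

open Finset H60.RegTri

variable {ι κ Ω : Type} [Fintype ι] [DecidableEq ι] [Fintype κ] [DecidableEq κ] [Fintype Ω]
  [DecidableEq Ω] {v : ι → κ → ℤ} {φ : Ω → κ → ℤ} {A B : κ → ℤ} {s0 : ℂ}

/-- `prR x` as a linear map -/
private def ZBD_psi {κ : Type} [Fintype κ] (x : κ → ℤ) : (κ → ℝ) →ₗ[ℝ] ℝ where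
  toFun := prR x
  map_add' := fun y z => by
    simp only [prR, Pi.add_apply, mul_add, Finset.sum_add_distrib]
  map_smul' := fun c y => by
    simp only [prR, Pi.smul_apply, smul_eq_mul, RingHom.id_apply, Finset.mul_sum]
    refine Finset.sum_congr rfl fun i _ => ?_
    ring

private theorem ZBD_psi_apply {κ : Type} [Fintype κ] (x : κ → ℤ) (y : κ → ℝ) : ZBD_psi x y = prR x y := rfl

private theorem ZBD_psi_v {ι κ : Type} [Fintype κ] (v : ι → κ → ℤ) (x : κ → ℤ) (i : ι) :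
    ZBD_psi x (vR v i) = (pr x (v i) : ℝ) := by
  rw [ZBD_psi_apply]
  simp only [prR, vR, pr]
  push_cast
  rfl

/-- apply `φ_ω` to a combination over `insert b τ`, `φ_ω` vanishing on `τ` -/
private theorem ZBD_comb {ι κ : Type} [DecidableEq ι] [Fintype κ] (v : ι → κ → ℤ) (x : κ → ℤ)
    (τ : Finset ι) (b : ι) (hb : b ∉ τ) (hτ : ∀ t ∈ τ, pr x (v t) = 0) (β : ι → ℝ) :
    prR x (∑ i ∈ insert b τ, β i • vR v i) = β b * (pr x (v b) : ℝ) := by
  rw [← ZBD_psi_apply, map_sum, Finset.sum_insert hb, Finset.sum_eq_zero, add_zero, map_smul, ZBD_psi_v,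
    smul_eq_mul]
  intro t ht
  rw [map_smul, ZBD_psi_v, hτ t ht, Int.cast_zero, smul_zero]

omit [DecidableEq κ] in
private theorem ZBD_fac (hZ : ZS v φ A B s0) (h : ι → ℝ) (Cl : Finset ι)
    (hCl : ∀ c ∈ Cl, IsCr A B s0 (v c)) (Ξ : Finset Ω) (p : Finset ι × ι) (hp : p ∈ PrB v φ h Cl Ξ) :
    ∃ ω, ω ∉ Ξ ∧ 0 < pr (φ ω) (v p.2) ∧ (∀ t ∈ p.1.erase p.2, pr (φ ω) (v t) = 0) ∧
      p.1.erase p.2 ∈ TC v φ h Cl (insert ω Ξ) ∧
      ∀ ω', ω' ∉ Ξ → (∀ t ∈ p.1.erase p.2, pr (φ ω') (v t) = 0) → ω' = ω := by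
  obtain ⟨hT, hN⟩ := mem_PrB.1 hp
  obtain ⟨hTC, hb, c, hc, hcb, hcCl⟩ := mem_PrT.1 hT
  have hTT := (mem_TC.1 hTC).1
  have hno : ∀ u ∈ Gx v φ Ξ, 0 ≤ cf (vR v) p.1 (vR v u) p.2 := by
    intro u hu
    by_contra hlt
    exact hN ⟨u, hu, not_le.mp hlt⟩
  obtain ⟨ω, h1, h2, h3, h4, h5⟩ := zfac hZ h Ξ p.1 hTT p.2 hb c (Finset.mem_erase.mpr ⟨hcb, hc⟩) (hCl c hcCl) hno
  exact ⟨ω, h1, h2, h3, mem_TC.2 ⟨h4, c, Finset.mem_erase.mpr ⟨hcb, hc⟩, hcCl⟩, h5⟩

omit [DecidableEq κ] in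
private theorem ZBD_ext (hZ : ZS v φ A B s0) (h : ι → ℝ) (hgen : ∀ τ, GenericOn (vR v) h τ) (Cl : Finset ι)
    (hCl : ∀ c ∈ Cl, IsCr A B s0 (v c)) (Ξ : Finset Ω) (ω : Ω) (hω : ω ∉ Ξ) (τ : Finset ι)
    (hτ : τ ∈ TC v φ h Cl (insert ω Ξ)) :
    ∃ b, b ∈ Gx v φ Ξ ∧ 0 < pr (φ ω) (v b) ∧ b ∉ τ ∧ (∀ t ∈ τ, pr (φ ω) (v t) = 0) ∧
      (insert b τ, b) ∈ PrB v φ h Cl Ξ ∧
      ∀ b' ∈ Gx v φ Ξ, 0 < pr (φ ω) (v b') → UpperOn (vR v) h (Gx v φ Ξ) (insert b' τ) → b' = b := by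
  obtain ⟨hTT, c, hcτ, hcCl⟩ := mem_TC.1 hτ
  obtain ⟨hU, hcard⟩ := mem_TT.1 hTT
  have hcG := hU.1 hcτ
  have hcr := hCl c hcCl
  have hcΞ : c ∈ Gx v φ Ξ := Gx_mono (Finset.subset_insert ω Ξ) hcG
  have hcω : pr (φ ω) (v c) = 0 := mem_Gx.1 hcG ω (Finset.mem_insert_self _ _)
  obtain ⟨u, huG, hu⟩ := zgx hZ c hcr Ξ hcΞ ω hcω hω
  have hτ0 : ∀ t ∈ τ, pr (φ ω) (v t) = 0 := fun t ht => mem_Gx.1 (hU.1 ht) ω (Finset.mem_insert_self _ _)
  have hcardΞ : (insert ω Ξ).card = Ξ.card + 1 := Finset.card_insert_of_notMem hω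
  have hspan : ∀ u ∈ Gx v φ Ξ, 0 < ZBD_psi (φ ω) (vR v u) → ∀ l ∈ Gx v φ Ξ,
      ∃ β : ι → ℝ, vR v l = ∑ i ∈ insert u τ, β i • vR v i := by
    intro u huG hu l hl
    rw [ZBD_psi_v] at hu
    have hu' : 0 < pr (φ ω) (v u) := by exact_mod_cast hu
    have huτ : u ∉ τ := fun hh => by rw [hτ0 u hh] at hu'; exact lt_irrefl _ hu'
    refine zrank2 hZ Ξ (insert u τ) ?_ ?_ ?_ c (Finset.mem_insert_of_mem hcτ) hcr (vR v l) ?_
    · rw [Finset.coe_insert]
      refine LinearIndepOn.insert hU.2.1 ?_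
      intro hmem
      obtain ⟨β, hβ⟩ := (mem_span_iff (vR v) τ (vR v u)).1 hmem
      have h0 : ZBD_psi (φ ω) (vR v u) = 0 := by
        rw [hβ, map_sum]
        refine Finset.sum_eq_zero fun t ht => ?_
        rw [map_smul, ZBD_psi_v, hτ0 t ht, Int.cast_zero, smul_zero]
      rw [ZBD_psi_v] at h0
      rw [h0] at hu
      exact lt_irrefl _ hu
    · intro i hi
      rcases Finset.mem_insert.1 hi with h1 | h1
      · rw [h1]; exact huG
      · exact Gx_mono (Finset.subset_insert ω Ξ) (hU.1 h1)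
    · rw [Finset.card_insert_of_notMem huτ]
      omega
    · intro ω' hω'
      rw [prR_vR, mem_Gx.1 hl ω' hω', Int.cast_zero]
  obtain ⟨b, hbG, hbpos, hbU, hbuniq⟩ := zext (vR v) h hgen (Gx v φ Ξ) (ZBD_psi (φ ω))
    (fun l _ => by rw [ZBD_psi_v]; exact_mod_cast hZ.nn l ω)
    ⟨u, huG, by rw [ZBD_psi_v]; exact_mod_cast hu⟩ τ
    (fun l hl => ⟨Gx_mono (Finset.subset_insert ω Ξ) (hU.1 hl), by rw [ZBD_psi_v, hτ0 l hl, Int.cast_zero]⟩)
    ⟨hU.2.1, fun l hl hl0 hlτ β hβ => by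
      refine hU.2.2 l ?_ hlτ β hβ
      rw [ZBD_psi_v] at hl0
      have hl0' : pr (φ ω) (v l) = 0 := by exact_mod_cast hl0
      rw [mem_Gx]
      intro ω' hω'
      rcases Finset.mem_insert.1 hω' with h1 | h1
      · rw [h1]; exact hl0'
      · exact mem_Gx.1 hl ω' h1⟩
    hspan
  have hbpos' : 0 < pr (φ ω) (v b) := by
    rw [ZBD_psi_v] at hbpos
    exact_mod_cast hbpos
  have hbτ : b ∉ τ := fun hh => by rw [hτ0 b hh] at hbpos'; exact lt_irrefl _ hbpos'
  refine ⟨b, hbG, hbpos', hbτ, hτ0, ?_, ?_⟩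
  · rw [mem_PrB, mem_PrT, mem_TC, mem_TT]
    refine ⟨⟨⟨⟨hbU, ?_⟩, c, Finset.mem_insert_of_mem hcτ, hcCl⟩, Finset.mem_insert_self _ _, c,
      Finset.mem_insert_of_mem hcτ, ?_, hcCl⟩, ?_⟩
    · show (insert b τ).card + Ξ.card = _
      rw [Finset.card_insert_of_notMem hbτ]
      omega
    · show c ≠ b
      intro hh
      rw [hh] at hcτ
      exact hbτ hcτ
    · rintro ⟨u, hu, hneg⟩
      have hrep := cf_sum (hspan b hbG hbpos u hu)
      have h1 : prR (φ ω) (vR v u) = cf (vR v) (insert b τ) (vR v u) b * (pr (φ ω) (v b) : ℝ) := by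
        conv_lhs => rw [hrep]
        exact ZBD_comb v (φ ω) τ b hbτ hτ0 _
      rw [prR_vR] at h1
      have h2 : (0 : ℝ) ≤ (pr (φ ω) (v u) : ℝ) := by exact_mod_cast hZ.nn u ω
      have h3 : (0 : ℝ) < (pr (φ ω) (v b) : ℝ) := by exact_mod_cast hbpos'
      have h4 : cf (vR v) (insert b τ) (vR v u) b < 0 := hneg
      have h5 := mul_neg_of_neg_of_pos h4 h3
      linarith
  · intro b' hb' hpos' hU'
    exact hbuniq b' hb' (by rw [ZBD_psi_v]; exact_mod_cast hpos') hU'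

private theorem ZBD_term (hZ : ZS v φ A B s0) (h : ι → ℝ) (Cl : Finset ι)
    (hCl : ∀ c ∈ Cl, IsCr A B s0 (v c)) (Ξ : Finset Ω) (e : κ → ℤ)
    (he : ∀ ω ∈ Ξ, pr (φ ω) e = 0) (p : Finset ι × ι) (hp : p ∈ PrB v φ h Cl Ξ) (ω : Ω)
    (hω : ω ∉ Ξ) (hpos : 0 < pr (φ ω) (v p.2)) (h0 : ∀ t ∈ p.1.erase p.2, pr (φ ω) (v t) = 0) :
    (mulv φ Ξ : RatFunc ℂ)⁻¹ * (cE v p.1 e p.2 * tmE A B v p.1 p.2) =
      (pr (φ ω) e : RatFunc ℂ) * ((mulv φ (insert ω Ξ) : RatFunc ℂ)⁻¹ * tmv A B v (p.1.erase p.2)) := by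
  obtain ⟨σ, b⟩ := p
  obtain ⟨hT, -⟩ := mem_PrB.1 hp
  obtain ⟨hTC, hb, c, hc, hcb, hcCl⟩ := mem_PrT.1 hT
  obtain ⟨hTT, -⟩ := mem_TC.1 hTC
  obtain ⟨hU, hcard⟩ := mem_TT.1 hTT
  change 0 < pr (φ ω) (v b) at hpos
  change ∀ t ∈ σ.erase b, pr (φ ω) (v t) = 0 at h0
  change b ∈ σ at hb
  change UpperOn (vR v) h (Gx v φ Ξ) σ at hU
  change σ.card + Ξ.card = Fintype.card κ at hcard
  change (mulv φ Ξ : RatFunc ℂ)⁻¹ * (cE v σ e b * tmE A B v σ b) =
      (pr (φ ω) e : RatFunc ℂ) * ((mulv φ (insert ω Ξ) : RatFunc ℂ)⁻¹ * tmv A B v (σ.erase b))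
  obtain ⟨τ, hτ⟩ : ∃ τ, τ = σ.erase b := ⟨_, rfl⟩
  have hbτ : b ∉ τ := by rw [hτ]; exact Finset.notMem_erase _ _
  have hστ : σ = insert b τ := by rw [hτ, Finset.insert_erase hb]
  rw [← hτ] at h0 ⊢
  obtain ⟨hΞ, hrep⟩ := zrank hZ h Ξ σ hTT c hc (hCl c hcCl)
  -- the coefficient
  have heR : ∀ x : κ → ℤ, prR x (fun j => (e j : ℝ)) = (pr x e : ℝ) := by
    intro x
    simp only [prR, pr]
    push_cast
    rfl
  have hsum := cf_sum (hrep (fun j => (e j : ℝ)) (fun ω' hω' => by rw [heR, he ω' hω', Int.cast_zero]))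
  have hcoef : cf (vR v) σ (fun j => (e j : ℝ)) b * (pr (φ ω) (v b) : ℝ) = (pr (φ ω) e : ℝ) := by
    rw [← heR (φ ω)]
    conv_rhs => rw [hsum]
    rw [hστ]
    exact (ZBD_comb v (φ ω) τ b hbτ h0 _).symm
  -- the volumes
  have hvol := zvol2 v φ τ b hbτ Ξ ω hω (by rw [← hστ]; exact hU.2.1) hΞ
    (fun i hi ω' hω' => mem_Gx.1 (hU.1 (by rw [hστ]; exact hi)) ω' hω') (by rw [← hστ]; exact hcard) h0 hpos
  rw [← hστ] at hvol
  have hvol' : (mulv v σ : RatFunc ℂ) * (mulv φ (insert ω Ξ) : RatFunc ℂ) =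
      (pr (φ ω) (v b) : RatFunc ℂ) * (mulv v τ : RatFunc ℂ) * (mulv φ Ξ : RatFunc ℂ) := by
    exact_mod_cast congrArg (fun z : ℤ => (z : RatFunc ℂ)) hvol
  have hcoef' : cE v σ e b * (pr (φ ω) (v b) : RatFunc ℂ) = (pr (φ ω) e : RatFunc ℂ) := by
    unfold cE
    rw [← map_intCast (RatFunc.C : ℂ →+* RatFunc ℂ) (pr (φ ω) (v b)), ← map_mul,
      ← map_intCast (RatFunc.C : ℂ →+* RatFunc ℂ) (pr (φ ω) e)]
    congr 1
    exact_mod_cast congrArg (fun z : ℝ => (z : ℂ)) hcoef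
  have hm1 : (mulv φ Ξ : RatFunc ℂ) ≠ 0 := Nat.cast_ne_zero.mpr (mulv_ne φ Ξ)
  have hm2 : (mulv φ (insert ω Ξ) : RatFunc ℂ) ≠ 0 := Nat.cast_ne_zero.mpr (mulv_ne φ _)
  unfold tmE tmv
  rw [← hτ, ← hcoef']
  generalize (∏ i ∈ τ, (VL A B (v i))⁻¹) = P
  field_simp
  linear_combination (cE v σ e b * P) * hvol'

/-- ZBD -/
theorem zbd (hZ : ZS v φ A B s0) (h : ι → ℝ) (hgen : ∀ τ, GenericOn (vR v) h τ) (Cl : Finset ι)
    (hCl : ∀ c ∈ Cl, IsCr A B s0 (v c)) (Ξ : Finset Ω) (e : κ → ℤ)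
    (he : ∀ ω ∈ Ξ, pr (φ ω) e = 0) :
    (mulv φ Ξ : RatFunc ℂ)⁻¹ * ∑ p ∈ PrB v φ h Cl Ξ, cE v p.1 e p.2 * tmE A B v p.1 p.2 =
      ∑ ω ∈ univ \ Ξ, (pr (φ ω) e : RatFunc ℂ) * JJ v φ A B h Cl (insert ω Ξ) := by
  have hR : ∑ ω ∈ univ \ Ξ, (pr (φ ω) e : RatFunc ℂ) * JJ v φ A B h Cl (insert ω Ξ) =
      ∑ q ∈ (univ \ Ξ).sigma (fun ω => TC v φ h Cl (insert ω Ξ)),
        (pr (φ q.1) e : RatFunc ℂ) * ((mulv φ (insert q.1 Ξ) : RatFunc ℂ)⁻¹ * tmv A B v q.2) := by
    rw [Finset.sum_sigma]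
    refine Finset.sum_congr rfl fun ω _ => ?_
    unfold JJ
    rw [Finset.mul_sum, Finset.mul_sum]
  rw [hR, Finset.mul_sum]
  have hfac := ZBD_fac hZ h Cl hCl Ξ
  choose W hW1 hW2 hW3 hW4 hW5 using hfac
  refine Finset.sum_bij (fun p hp => (⟨W p hp, p.1.erase p.2⟩ : Σ _ : Ω, Finset ι)) ?_ ?_ ?_ ?_
  · intro p hp
    rw [Finset.mem_sigma]
    exact ⟨Finset.mem_sdiff.mpr ⟨Finset.mem_univ _, hW1 p hp⟩, hW4 p hp⟩
  · intro p hp p' hp' heq
    have he1 : W p hp = W p' hp' := congrArg Sigma.fst heq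
    have he2 : p.1.erase p.2 = p'.1.erase p'.2 := by
      have := (Sigma.mk.inj_iff.mp heq).2
      exact eq_of_heq this
    obtain ⟨b, hb1, hb2, hb3, hb4, hb5, hb6⟩ := ZBD_ext hZ h hgen Cl hCl Ξ (W p hp) (hW1 p hp) _ (hW4 p hp)
    have key : ∀ r : Finset ι × ι, ∀ hr : r ∈ PrB v φ h Cl Ξ, 0 < pr (φ (W p hp)) (v r.2) →
        r.1.erase r.2 = p.1.erase p.2 → r.2 = b ∧ r.1 = insert b (p.1.erase p.2) := by
      intro r hr hpos her
      obtain ⟨hT, -⟩ := mem_PrB.1 hr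
      obtain ⟨hTC, hb, -⟩ := mem_PrT.1 hT
      obtain ⟨hU, -⟩ := mem_TT.1 (mem_TC.1 hTC).1
      have hins : insert r.2 (p.1.erase p.2) = r.1 := by rw [← her, Finset.insert_erase hb]
      have h1 := hb6 r.2 (hU.1 hb) hpos (by rw [hins]; exact hU)
      exact ⟨h1, by rw [← h1, hins]⟩
    have k1 := key p hp (hW2 p hp) rfl
    have k2 := key p' hp' (by rw [he1]; exact hW2 p' hp') he2.symm
    exact Prod.ext (k1.2.trans k2.2.symm) (k1.1.trans k2.1.symm)
  · rintro ⟨ω, τ⟩ hq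
    rw [Finset.mem_sigma] at hq
    have hω : ω ∉ Ξ := (Finset.mem_sdiff.mp hq.1).2
    obtain ⟨b, hb1, hb2, hb3, hb4, hb5, hb6⟩ := ZBD_ext hZ h hgen Cl hCl Ξ ω hω τ hq.2
    refine ⟨(insert b τ, b), hb5, ?_⟩
    have her : (insert b τ).erase b = τ := Finset.erase_insert hb3
    have h1 := hW5 (insert b τ, b) hb5 ω hω (by
      intro t ht
      refine hb4 t ?_
      have : t ∈ (insert b τ).erase b := ht
      rwa [her] at this)
    show (⟨W (insert b τ, b) hb5, (insert b τ).erase b⟩ : Σ _ : Ω, Finset ι) = ⟨ω, τ⟩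
    rw [her, ← h1]
  · intro p hp
    exact ZBD_term hZ h Cl hCl Ξ e he p hp (W p hp) (hW1 p hp) (hW2 p hp) (hW3 p hp)

end Pool.Agent.H37.T5

end S_ZBD
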