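import Mathlib
import Pool.Agent.H37.SM.ZRG
import Pool.Agent.H22.Lattice
import Pool.Agent.H56.SL.Z3
import Pool.Agent.H56.SN.V1

/-! Strong monodromy, simplicial critical facets, part V2: this file joins the modules ZSPL, ZID, ZEMP, ZHTA, ZHTB, ZLAM, ZCLU, ZIND, ZCOM, ZLOCZ, ZPYR, ZABS. -/

set_option autoImplicit false

section S_ZSPL

/-!
# ZSPL: splitting of a term; regular products

`zsplit`: for `σ ∈ TC Ξ` (a basis of `K ∋ e`, `zrank`): `V(e) = ∑_{b ∈ σ} c_b V(v_b)` (`c_b = cf σ e b`; linearity of `VL`, compare real parts: `pr A e = ∑ c_b pr A v_b` in `ℝ`, cast to `ℂ`), so `V(e) * tmv σ = ∑_{b∈σ} cE σ e b * tmE σ b` (`VL (v b) ≠ 0` by `hZ.ne`).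
`tm_regv`: a product without critical rays is regular (`Reg.mul`, `SM.reg_inv_linear` or as in `H56.SMC.tm_reg`).
-/

set_option autoImplicit false

namespace Pool.Agent.H37.T5

open Finset H60.RegTri

variable {ι κ Ω : Type} [Fintype ι] [DecidableEq ι] [Fintype κ] [DecidableEq κ] [Fintype Ω]
  [DecidableEq Ω] {v : ι → κ → ℤ} {φ : Ω → κ → ℤ} {A B : κ → ℤ} {s0 : ℂ}

private theorem zspl_VL (A B x : κ → ℤ) : VL A B x = algebraMap (Polynomial ℂ) (RatFunc ℂ)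
    ((pr A x : Polynomial ℂ) + (pr B x : Polynomial ℂ) * Polynomial.X) := by
  rw [VL, map_add, map_mul, map_intCast, map_intCast, RatFunc.algebraMap_X]

private theorem zspl_int (n : ℤ) : ((n : ℤ) : RatFunc ℂ) = RatFunc.C (((n : ℝ) : ℝ) : ℂ) := by
  rw [show (((n : ℝ) : ℝ) : ℂ) = ((n : ℤ) : ℂ) by push_cast; rfl, map_intCast]

theorem VL_ne (hZ : ZS v φ A B s0) (i : ι) : VL A B (v i) ≠ 0 := by
  intro h
  rw [zspl_VL] at h
  have h1 : ((pr A (v i) : Polynomial ℂ) + (pr B (v i) : Polynomial ℂ) * Polynomial.X) = 0 :=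
    RatFunc.algebraMap_injective ℂ (by rw [h, map_zero])
  have h2 : ((pr A (v i) : Polynomial ℂ) + (pr B (v i) : Polynomial ℂ) * Polynomial.X) =
      Polynomial.C (pr A (v i) : ℂ) + Polynomial.C (pr B (v i) : ℂ) * Polynomial.X := by
    rw [map_intCast, map_intCast]
  rw [h2] at h1
  have h3 := congrArg (fun p => Polynomial.coeff p 0) h1
  have h4 := congrArg (fun p => Polynomial.coeff p 1) h1
  simp only [Polynomial.coeff_add, Polynomial.coeff_C_mul, Polynomial.coeff_C,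
    Polynomial.coeff_X, Polynomial.coeff_zero] at h3 h4
  norm_num at h3 h4
  rcases hZ.ne i with h | h
  · exact h h3
  · exact h h4

private theorem zspl_pr (A e : κ → ℤ) (σ : Finset ι) (c : ι → ℝ)
    (h : (fun j => (e j : ℝ)) = ∑ i ∈ σ, c i • vR v i) :
    ((pr A e : ℤ) : RatFunc ℂ) = ∑ b ∈ σ, RatFunc.C ((c b : ℝ) : ℂ) * (pr A (v b) : RatFunc ℂ) := by
  have h1 : ((pr A e : ℤ) : ℝ) = ∑ b ∈ σ, c b * ((pr A (v b) : ℤ) : ℝ) := by
    simp only [pr, Int.cast_sum, Int.cast_mul, Finset.mul_sum]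
    rw [Finset.sum_comm]
    refine sum_congr rfl fun j _ => ?_
    have h2 := congrFun h j
    simp only [Finset.sum_apply, Pi.smul_apply, vR, smul_eq_mul] at h2
    rw [h2, Finset.mul_sum]
    exact sum_congr rfl fun b _ => by ring
  rw [zspl_int, h1]
  push_cast
  rw [map_sum]
  refine sum_congr rfl fun b _ => ?_
  rw [map_mul, map_intCast]

theorem zsplit (hZ : ZS v φ A B s0) (σ : Finset ι) (hσ : LinearIndepOn ℝ (vR v) (σ : Set ι))
    (e : κ → ℤ) (he : ∃ β : ι → ℝ, (fun j => (e j : ℝ)) = ∑ i ∈ σ, β i • vR v i) :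
    VL A B e * tmv A B v σ = ∑ b ∈ σ, cE v σ e b * tmE A B v σ b := by
  have h1 := cf_sum he
  have h2 : VL A B e = ∑ b ∈ σ, cE v σ e b * VL A B (v b) := by
    rw [VL, zspl_pr A e σ _ h1, zspl_pr B e σ _ h1, Finset.sum_mul, ← Finset.sum_add_distrib]
    refine sum_congr rfl fun b _ => ?_
    rw [cE, VL]
    ring
  rw [h2, Finset.sum_mul]
  refine sum_congr rfl fun b hb => ?_
  rw [tmv, tmE, ← Finset.mul_prod_erase σ (fun i => (VL A B (v i))⁻¹) hb]
  have h3 := mul_inv_cancel₀ (VL_ne hZ b)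
  linear_combination (cE v σ e b * (mulv v σ : RatFunc ℂ) *
    ∏ i ∈ σ.erase b, (VL A B (v i))⁻¹) * h3

theorem tm_regv (hZ : ZS v φ A B s0) (T : Finset ι) (hT : ∀ i ∈ T, ¬ IsCr A B s0 (v i)) :
    H37.SM.Reg s0 (∏ i ∈ T, (VL A B (v i))⁻¹) := by
  classical
  refine Finset.prod_induction _ (H37.SM.Reg s0) (fun a b ha hb => ha.mul hb) ?_ ?_
  · have h := H37.SM.reg_natCast (s0 := s0) 1
    rwa [Nat.cast_one] at h
  · intro i hi
    rw [H37.SM.reg_iff]
    refine ⟨1, (pr A (v i) : Polynomial ℂ) + (pr B (v i) : Polynomial ℂ) * Polynomial.X, ?_, ?_⟩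
    · intro h
      apply hT i hi
      rw [Polynomial.eval_add, Polynomial.eval_mul, Polynomial.eval_intCast,
        Polynomial.eval_intCast, Polynomial.eval_X] at h
      exact h
    · rw [zspl_VL, map_one, one_div]

end Pool.Agent.H37.T5

end S_ZSPL

section S_ZID

/-!
# ZID: the relations modulo regular functions

`zid`: `V(e) = 1`; sum over `σ ∈ TC Ξ` of `zsplit`; the pairs `(σ, b)` with an element of `Cl` in `σ.erase b` are `PrT = PrN ∪ PrB`: `zin`, `zbd`; for the other pairs `σ.erase b` contains no critical ray at all (`hcl`), the terms are regular (`cE` is a constant).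
-/

set_option autoImplicit false

namespace Pool.Agent.H37.T5

open Finset H60.RegTri

variable {ι κ Ω : Type} [Fintype ι] [DecidableEq ι] [Fintype κ] [DecidableEq κ] [Fintype Ω]
  [DecidableEq Ω] {v : ι → κ → ℤ} {φ : Ω → κ → ℤ} {A B : κ → ℤ} {s0 : ℂ}

omit [Fintype ι] [DecidableEq ι] [Fintype κ] [DecidableEq κ] [Fintype Ω] [DecidableEq Ω] in
theorem ZID_regC (c : ℂ) : H37.SM.Reg s0 (RatFunc.C c) := by
  rw [H37.SM.reg_iff]
  refine ⟨Polynomial.C c, 1, by simp, ?_⟩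
  rw [RatFunc.algebraMap_C, map_one, div_one]

omit [Fintype ι] [DecidableEq ι] [Fintype κ] [DecidableEq κ] [Fintype Ω] [DecidableEq Ω] in
theorem ZID_regInv (n : ℕ) : H37.SM.Reg s0 ((n : RatFunc ℂ)⁻¹) := by
  have h : ((n : RatFunc ℂ)⁻¹) = RatFunc.C ((n : ℂ)⁻¹) := by
    rw [map_inv₀, map_natCast]
  rw [h]
  exact ZID_regC _

/-- ZID -/
theorem zid (hZ : ZS v φ A B s0) (h : ι → ℝ) (hgen : ∀ τ, GenericOn (vR v) h τ) (Cl : Finset ι)
    (hCl : ∀ c ∈ Cl, IsCr A B s0 (v c))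
    (hcl : ∀ Ξ, ∀ σ ∈ TC v φ h Cl Ξ, ∀ c ∈ σ, IsCr A B s0 (v c) → c ∈ Cl)
    (Ξ : Finset Ω) (e : κ → ℤ) (he : ∀ ω ∈ Ξ, pr (φ ω) e = 0) (heA : pr A e = 1)
    (heB : pr B e = 0) :
    H37.SM.Reg s0 (JJ v φ A B h Cl Ξ -
      ∑ ω ∈ univ \ Ξ, (pr (φ ω) e : RatFunc ℂ) * JJ v φ A B h Cl (insert ω Ξ)) := by
  classical
  have hV : VL A B e = 1 := by
    simp [VL, heA, heB]
  set F : Finset ι × ι → RatFunc ℂ := fun p => cE v p.1 e p.2 * tmE A B v p.1 p.2 with hF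
  -- splitting of all terms
  have h1 : ∑ σ ∈ TC v φ h Cl Ξ, tmv A B v σ = ∑ σ ∈ TC v φ h Cl Ξ, ∑ b ∈ σ, F (σ, b) := by
    refine sum_congr rfl fun σ hσ => ?_
    obtain ⟨hT, c, hc, hcC⟩ := mem_TC.1 hσ
    have hU := (mem_TT.1 hT).1
    have hz := (zrank hZ h Ξ σ hT c hc (hCl c hcC)).2 (fun j => (e j : ℝ)) (fun ω hω => by
      have h2 := he ω hω
      simp only [prR, pr] at h2 ⊢
      exact_mod_cast h2)
    have h3 := zsplit hZ σ hU.2.1 e hz
    rw [hV, one_mul] at h3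
    exact h3
  set P : Finset (Finset ι × ι) :=
    ((TC v φ h Cl Ξ) ×ˢ (univ : Finset ι)).filter (fun p => p.2 ∈ p.1) with hP
  have h2 : ∑ σ ∈ TC v φ h Cl Ξ, ∑ b ∈ σ, F (σ, b) = ∑ p ∈ P, F p := by
    rw [hP, sum_filter, sum_product]
    refine sum_congr rfl fun σ _ => ?_
    rw [← sum_filter]
    exact sum_congr (by ext b; simp) fun _ _ => rfl
  have h3 : ∑ p ∈ P, F p = ∑ p ∈ PrT v φ h Cl Ξ, F p +
      ∑ p ∈ P.filter (fun p => ¬ ∃ c ∈ p.1, c ≠ p.2 ∧ c ∈ Cl), F p := by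
    rw [← sum_filter_add_sum_filter_not P (fun p => ∃ c ∈ p.1, c ≠ p.2 ∧ c ∈ Cl)]
    congr 1
    refine sum_congr ?_ fun _ _ => rfl
    ext p
    rw [mem_PrT]
    simp [hP, and_assoc]
  have h4 : ∑ p ∈ PrT v φ h Cl Ξ, F p = ∑ p ∈ PrN v φ h Cl Ξ, F p + ∑ p ∈ PrB v φ h Cl Ξ, F p := by
    rw [← sum_filter_add_sum_filter_not (PrT v φ h Cl Ξ) (fun p => Neg v φ Ξ p)]
    congr 1
  have h5 := zin hZ h hgen Cl hCl Ξ e he
  have h6 := zbd hZ h hgen Cl hCl Ξ e he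
  have h7 : JJ v φ A B h Cl Ξ -
      ∑ ω ∈ univ \ Ξ, (pr (φ ω) e : RatFunc ℂ) * JJ v φ A B h Cl (insert ω Ξ) =
      (mulv φ Ξ : RatFunc ℂ)⁻¹ *
        ∑ p ∈ P.filter (fun p => ¬ ∃ c ∈ p.1, c ≠ p.2 ∧ c ∈ Cl), F p := by
    rw [← h6, JJ, h1, h2, h3, h4, h5]
    ring
  rw [h7]
  refine (ZID_regInv _).mul (H37.SM.Reg.sum _ _ fun p hp => ?_)
  rw [mem_filter, hP, mem_filter, mem_product] at hp
  obtain ⟨⟨⟨hpT, _⟩, _⟩, hno⟩ := hp
  refine (ZID_regC _).mul ((H37.SM.reg_natCast _).mul (tm_regv hZ _ fun i hi hcr => hno ?_))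
  exact ⟨i, mem_of_mem_erase hi, ne_of_mem_erase hi, hcl Ξ p.1 hpT i (mem_of_mem_erase hi) hcr⟩

end Pool.Agent.H37.T5

end S_ZID

section S_ZEMP

/-!
# ZEMP: the empty set

`zemp`: `Ξ = ∅`, `e = v e0`: every `σ ∈ TC ∅` contains `e0` (it is a basis of `ℝ^κ`, so `v e0 = ∑ β v`; if `e0 ∉ σ` upperness gives `h e0 < ∑ β h`, contradicting `htop`), so `c_b = 1` for `b = e0` and `0` for the other `b`: `∑_{p ∈ PrT} cE * tmE = ∑_{σ ∈ TC ∅} tmE σ e0 = V(v e0) ∑ tmv σ` (the pair `(σ, e0)` is in `PrT` since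
the element of `Cl` in `σ` is critical, `≠ e0`).  `zin`, `zbd` for `Ξ = ∅`, and `insert ω ∅ = {ω}`.
-/

set_option autoImplicit false

namespace Pool.Agent.H37.T5

open Finset H60.RegTri

variable {ι κ Ω : Type} [Fintype ι] [DecidableEq ι] [Fintype κ] [DecidableEq κ] [Fintype Ω]
  [DecidableEq Ω] {v : ι → κ → ℤ} {φ : Ω → κ → ℤ} {A B : κ → ℤ} {s0 : ℂ}

omit [DecidableEq κ] in
theorem ZEMP_mem (hZ : ZS v φ A B s0) (h : ι → ℝ) (e0 : ι)
    (htop : ∀ σ : Finset ι, e0 ∉ σ → LinearIndepOn ℝ (vR v) (σ : Set ι) → ∀ β : ι → ℝ,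
      vR v e0 = ∑ i ∈ σ, β i • vR v i → ∑ i ∈ σ, β i * h i < h e0)
    (Cl : Finset ι) (hCl : ∀ c ∈ Cl, IsCr A B s0 (v c)) {σ : Finset ι}
    (hσ : σ ∈ TC v φ h Cl ∅) : e0 ∈ σ := by
  obtain ⟨h1, c, hcσ, hcC⟩ := mem_TC.1 hσ
  by_contra hcon
  obtain ⟨β, hβ⟩ := (zrank hZ h ∅ σ h1 c hcσ (hCl c hcC)).2 (vR v e0) (by simp)
  obtain ⟨⟨h2, h3, h4⟩, h5⟩ := mem_TT.1 h1
  have h6 := htop σ hcon h3 β hβ
  have h7 := h4 e0 (mem_Gx.2 (by simp)) hcon β hβ
  exact absurd h6 (not_lt.2 h7.le)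

omit [DecidableEq κ] [Fintype Ω] [DecidableEq Ω] in
theorem ZEMP_cE (e0 : ι) {σ : Finset ι} (hσ : LinearIndepOn ℝ (vR v) (σ : Set ι))
    (he0 : e0 ∈ σ) {b : ι} (hb : b ∈ σ) : cE v σ (v e0) b = if b = e0 then 1 else 0 := by
  have h1 : cf (vR v) σ (fun j => (v e0 j : ℝ)) b = if b = e0 then 1 else 0 := by
    refine cf_eq hσ (fun i => if i = e0 then 1 else 0) ?_ hb
    rw [Finset.sum_eq_single e0]
    · rw [if_pos rfl, one_smul]
      rfl
    · intro i _ hi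
      rw [if_neg hi, zero_smul]
    · intro h; exact absurd he0 h
  rw [cE, h1]
  split_ifs <;> simp

/-- ZEMP -/
theorem zemp (hZ : ZS v φ A B s0) (h : ι → ℝ) (hgen : ∀ τ, GenericOn (vR v) h τ) (e0 : ι)
    (he0 : ¬ IsCr A B s0 (v e0))
    (htop : ∀ σ : Finset ι, e0 ∉ σ → LinearIndepOn ℝ (vR v) (σ : Set ι) → ∀ β : ι → ℝ,
      vR v e0 = ∑ i ∈ σ, β i • vR v i → ∑ i ∈ σ, β i * h i < h e0)
    (Cl : Finset ι) (hCl : ∀ c ∈ Cl, IsCr A B s0 (v c)) :
    VL A B (v e0) * JJ v φ A B h Cl ∅ =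
      ∑ ω, (pr (φ ω) (v e0) : RatFunc ℂ) * JJ v φ A B h Cl {ω} := by
  classical
  have hN := zin hZ h hgen Cl hCl ∅ (v e0) (by simp)
  have hB := zbd hZ h hgen Cl hCl ∅ (v e0) (by simp)
  have hD : ∀ σ ∈ TC v φ h Cl ∅, tmE A B v σ e0 = VL A B (v e0) * tmv A B v σ := by
    intro σ hσ
    have he := ZEMP_mem hZ h e0 htop Cl hCl hσ
    rw [tmE, tmv, ← Finset.mul_prod_erase σ _ he]
    have := VL_ne hZ e0
    field_simp
  have hC : ∑ p ∈ PrT v φ h Cl ∅, cE v p.1 (v e0) p.2 * tmE A B v p.1 p.2 =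
      ∑ σ ∈ TC v φ h Cl ∅, tmE A B v σ e0 := by
    rw [PrT, Finset.sum_filter, Finset.sum_product]
    refine Finset.sum_congr rfl fun σ hσ => ?_
    have he := ZEMP_mem hZ h e0 htop Cl hCl hσ
    obtain ⟨h1, c, hcσ, hcC⟩ := mem_TC.1 hσ
    obtain ⟨⟨h2, h3, h4⟩, h5⟩ := mem_TT.1 h1
    rw [Finset.sum_eq_single e0]
    · have h6 : e0 ∈ σ ∧ ∃ c ∈ σ, c ≠ e0 ∧ c ∈ Cl :=
        ⟨he, c, hcσ, fun hh => he0 (hh ▸ hCl c hcC), hcC⟩
      simp only [h6, if_true]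
      rw [ZEMP_cE e0 h3 he he, if_pos rfl, one_mul]
      simp
    · intro b _ hb
      split_ifs with h6
      · simp only at h6
        rw [ZEMP_cE e0 h3 he h6.1, if_neg hb, zero_mul]
      · rfl
    · intro h; exact absurd (Finset.mem_univ _) h
  have hS : ∑ p ∈ PrT v φ h Cl ∅, cE v p.1 (v e0) p.2 * tmE A B v p.1 p.2 =
      ∑ p ∈ PrN v φ h Cl ∅, cE v p.1 (v e0) p.2 * tmE A B v p.1 p.2 +
      ∑ p ∈ PrB v φ h Cl ∅, cE v p.1 (v e0) p.2 * tmE A B v p.1 p.2 := by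
    rw [PrN, PrB, Finset.sum_filter_add_sum_filter_not]
  rw [hN, zero_add] at hS
  rw [← hS, hC, Finset.sum_congr rfl hD, ← Finset.mul_sum] at hB
  rw [JJ, mul_left_comm, hB]
  simp


end Pool.Agent.H37.T5

end S_ZEMP

section S_ZHTA

/-!
# ZHTA: generic heights with finitely many linear inequalities

Proof.  All conditions (1), (2), (3) are finitely many strict linear inequalities in `h`: in (2), (3) only independent `σ` with `v e` resp. `v l` in their span matter and then `β` on `σ` is unique (`coeff_unique`): choose it once for every such pair.  They are satisfied by `h1 = 0` on `P`, `h1 i = 1` for `i` not in `P`, `i ≠ e`, and `h1 e = H` large: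
(1) left side `0`, right side `≥ ε t > 0`; (2) `H > ∑ |β|`; (3) `β e < 0`: `β e H + ∑ |β| < 0 ≤ h1 l` for `H` large.  The set `U` of these `h` is open, nonempty; the genericity of `h` for `v` and for `v'` means that `h` avoids finitely many proper subspaces (one for every independent `σ` and `l ∉ σ` with `v l` in the span of `σ`; see the proof of
`H60.RegTri.exists_generic`): `H60.RegTri.exists_avoid`.
-/

set_option autoImplicit false

namespace Pool.Agent.H37.T5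

open Finset H60.RegTri

/-- Genericity as avoiding finitely many proper subspaces. -/
theorem ZHTA_sub {ι κ : Type} [DecidableEq ι] (v : ι → κ → ℝ) :
    ∃ P : Finset ι × ι → Submodule ℝ (ι → ℝ), (∀ p, P p ≠ ⊤) ∧
      ∀ h : ι → ℝ, (∀ p, h ∉ P p) → ∀ τ, GenericOn v h τ := by
  let P : Finset ι × ι → Submodule ℝ (ι → ℝ) := fun p =>
    LinearMap.ker ((LinearMap.proj p.2 : (ι → ℝ) →ₗ[ℝ] ℝ)
      - ∑ i ∈ p.1.erase p.2, cf v p.1 (v p.2) i • (LinearMap.proj i : (ι → ℝ) →ₗ[ℝ] ℝ))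
  refine ⟨P, ?_, ?_⟩
  · intro p htop
    have h1 : (Pi.single p.2 1 : ι → ℝ) ∈ P p := by rw [htop]; trivial
    rw [LinearMap.mem_ker] at h1
    simp only [LinearMap.sub_apply, LinearMap.proj_apply, Pi.single_eq_same,
      LinearMap.sum_apply, LinearMap.smul_apply, smul_eq_mul] at h1
    have h2 : ∑ i ∈ p.1.erase p.2, cf v p.1 (v p.2) i * (Pi.single p.2 (1 : ℝ) : ι → ℝ) i = 0 := by
      refine Finset.sum_eq_zero fun i hi => ?_
      rw [Pi.single_eq_of_ne (Finset.ne_of_mem_erase hi), mul_zero]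
    rw [h2] at h1
    norm_num at h1
  · intro h hh τ σ _ hσ l _ hl β hβ heq
    refine hh (σ, l) ?_
    rw [LinearMap.mem_ker]
    simp only [LinearMap.sub_apply, LinearMap.proj_apply, LinearMap.sum_apply,
      LinearMap.smul_apply, smul_eq_mul]
    rw [Finset.erase_eq_of_notMem hl, heq, sub_eq_zero]
    refine Finset.sum_congr rfl fun i hi => ?_
    rw [cf_eq hσ β hβ hi]

/-- ZHTA -/
theorem zhta {ι κ κ' J : Type} [Fintype ι] [DecidableEq ι] [Fintype κ] [Fintype κ'] [Fintype J]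
    (v : ι → κ → ℝ) (v' : ι → κ' → ℝ) (e : ι) (P : ι → Prop) (he : ¬ P e)
    (C : J → Finset ι) (hC : ∀ t, ∀ c ∈ C t, P c) (u : J → ι) (hu : ∀ t, ¬ P (u t))
    (ε : J → ℝ) (hε : ∀ t, 0 < ε t) (y : J → ι → ℝ) (hy : ∀ t i, 0 ≤ y t i) :
    ∃ h : ι → ℝ, (∀ τ, GenericOn v h τ) ∧ (∀ τ, GenericOn v' h τ) ∧
      (∀ t, ∑ c ∈ C t, h c < ε t * h (u t) + ∑ i, y t i * h i) ∧
      (∀ σ : Finset ι, e ∉ σ → LinearIndepOn ℝ v (σ : Set ι) → ∀ β : ι → ℝ,
        v e = ∑ i ∈ σ, β i • v i → ∑ i ∈ σ, β i * h i < h e) ∧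
      (∀ σ : Finset ι, e ∈ σ → LinearIndepOn ℝ v (σ : Set ι) → ∀ l, l ∉ σ → ∀ β : ι → ℝ,
        v l = ∑ i ∈ σ, β i • v i → β e < 0 → ∑ i ∈ σ, β i * h i < h l) := by
  classical
  obtain ⟨P1, hP1, hP1'⟩ := ZHTA_sub v
  obtain ⟨P2, hP2, hP2'⟩ := ZHTA_sub v'
  let U : Set (ι → ℝ) := {h | (∀ t, ∑ c ∈ C t, h c < ε t * h (u t) + ∑ i, y t i * h i) ∧
    (∀ σ : Finset ι, e ∉ σ → ∑ i ∈ σ, cf v σ (v e) i * h i < h e) ∧
    (∀ p : Finset ι × ι, e ∈ p.1 → p.2 ∉ p.1 → cf v p.1 (v p.2) e < 0 →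
      ∑ i ∈ p.1, cf v p.1 (v p.2) i * h i < h p.2)}
  have hU : IsOpen U := by
    have hUe : U = (⋂ t, {h : ι → ℝ | ∑ c ∈ C t, h c < ε t * h (u t) + ∑ i, y t i * h i}) ∩
        ((⋂ σ : Finset ι, {h : ι → ℝ | e ∉ σ → ∑ i ∈ σ, cf v σ (v e) i * h i < h e}) ∩
        (⋂ p : Finset ι × ι, {h : ι → ℝ | e ∈ p.1 → p.2 ∉ p.1 → cf v p.1 (v p.2) e < 0 →
          ∑ i ∈ p.1, cf v p.1 (v p.2) i * h i < h p.2})) := by
      ext h
      simp only [U, Set.mem_setOf_eq, Set.mem_inter_iff, Set.mem_iInter]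
    rw [hUe]
    refine (isOpen_iInter_of_finite fun t => ?_).inter
      ((isOpen_iInter_of_finite fun σ => ?_).inter (isOpen_iInter_of_finite fun p => ?_))
    · exact isOpen_lt (by fun_prop) (by fun_prop)
    · by_cases h1 : e ∉ σ
      · simp only [h1, not_false_eq_true, true_imp_iff]
        exact isOpen_lt (by fun_prop) (by fun_prop)
      · simp [h1]
    · by_cases h1 : e ∈ p.1
      · by_cases h2 : p.2 ∉ p.1
        · by_cases h3 : cf v p.1 (v p.2) e < 0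
          · simp only [h1, h2, h3, not_false_eq_true, true_imp_iff]
            exact isOpen_lt (by fun_prop) (by fun_prop)
          · simp [h3]
        · simp [h2]
      · simp [h1]
  have hUne : U.Nonempty := by
    let T : Finset ι × ι → ℝ := fun p => ∑ i ∈ p.1, |cf v p.1 (v p.2) i|
    let R : Finset ι × ι → ℝ := fun p => T p * (1 + |cf v p.1 (v p.2) e|⁻¹)
    have hT : ∀ p, 0 ≤ T p := fun p => Finset.sum_nonneg fun i _ => abs_nonneg _
    have hR : ∀ p, 0 ≤ R p := fun p =>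
      mul_nonneg (hT p) (add_nonneg zero_le_one (inv_nonneg.2 (abs_nonneg _)))
    let H : ℝ := 1 + ∑ p, R p
    have hH : ∀ p, R p < H := by
      intro p
      have h1 := Finset.single_le_sum (f := R) (fun q _ => hR q) (Finset.mem_univ p)
      have h2 : H = 1 + ∑ p, R p := rfl
      linarith
    have hH1 : 1 ≤ H := by
      have h1 : 0 ≤ ∑ p, R p := Finset.sum_nonneg fun q _ => hR q
      have h2 : H = 1 + ∑ p, R p := rfl
      linarith
    have hTR : ∀ p, T p ≤ R p := by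
      intro p
      have h1 : T p * 1 ≤ T p * (1 + |cf v p.1 (v p.2) e|⁻¹) :=
        mul_le_mul_of_nonneg_left (by
          have := inv_nonneg.2 (abs_nonneg (cf v p.1 (v p.2) e))
          linarith) (hT p)
      linarith
    let h1 : ι → ℝ := fun i => if i = e then H else if P i then 0 else 1
    have hhe : h1 e = H := if_pos rfl
    have hhP : ∀ i, P i → h1 i = 0 := by
      intro i hi
      have h2 : i ≠ e := by rintro rfl; exact he hi
      simp only [h1, if_neg h2, if_pos hi]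
    have hhn : ∀ i, ¬ P i → 1 ≤ h1 i := by
      intro i hi
      by_cases h2 : i = e
      · simp only [h1, if_pos h2]; exact hH1
      · simp only [h1, if_neg h2, if_neg hi]; exact le_refl _
    have hh0 : ∀ i, 0 ≤ h1 i := by
      intro i
      by_cases hi : P i
      · rw [hhP i hi]
      · exact zero_le_one.trans (hhn i hi)
    have hh1 : ∀ i, i ≠ e → h1 i ≤ 1 := by
      intro i hi
      by_cases h2 : P i
      · rw [hhP i h2]; exact zero_le_one
      · simp only [h1, if_neg hi, if_neg h2]; exact le_refl _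
    have hb : ∀ i, i ≠ e → ∀ b : ℝ, b * h1 i ≤ |b| := by
      intro i hi b
      calc b * h1 i ≤ |b| * h1 i := mul_le_mul_of_nonneg_right (le_abs_self b) (hh0 i)
        _ ≤ |b| * 1 := mul_le_mul_of_nonneg_left (hh1 i hi) (abs_nonneg b)
        _ = |b| := mul_one _
    refine ⟨h1, ?_, ?_, ?_⟩
    · intro t
      rw [Finset.sum_eq_zero (fun c hc => hhP c (hC t c hc))]
      have h2 : 0 < ε t * h1 (u t) := mul_pos (hε t) (zero_lt_one.trans_le (hhn _ (hu t)))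
      have h3 : 0 ≤ ∑ i, y t i * h1 i :=
        Finset.sum_nonneg fun i _ => mul_nonneg (hy t i) (hh0 i)
      linarith
    · intro σ hσ
      have h2 : ∑ i ∈ σ, cf v σ (v e) i * h1 i ≤ T (σ, e) :=
        Finset.sum_le_sum fun i hi => hb i (by rintro rfl; exact hσ hi) _
      have h3 := hTR (σ, e)
      have h4 := hH (σ, e)
      rw [hhe]
      linarith
    · intro p hp1 hp2 hp3
      rw [← Finset.add_sum_erase _ _ hp1, hhe]
      have h2 : ∑ i ∈ p.1.erase e, cf v p.1 (v p.2) i * h1 i ≤ T p := by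
        calc ∑ i ∈ p.1.erase e, cf v p.1 (v p.2) i * h1 i
            ≤ ∑ i ∈ p.1.erase e, |cf v p.1 (v p.2) i| :=
              Finset.sum_le_sum fun i hi => hb i (Finset.ne_of_mem_erase hi) _
          _ ≤ T p := Finset.sum_le_sum_of_subset_of_nonneg (Finset.erase_subset _ _)
              (fun i _ _ => abs_nonneg _)
      set b := cf v p.1 (v p.2) e with hbdef
      have h3 : b * H < - T p := by
        have h4 : T p * |b|⁻¹ < H := by
          have h5 : T p * |b|⁻¹ ≤ R p := by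
            have h6 : R p = T p * (1 + |b|⁻¹) := rfl
            rw [h6]
            have := hT p
            linarith
          exact h5.trans_lt (hH p)
        have h7 : 0 < |b| := abs_pos.2 hp3.ne
        have h8 : |b| = - b := abs_of_neg hp3
        have h9 : |b| * (T p * |b|⁻¹) < |b| * H := mul_lt_mul_of_pos_left h4 h7
        have h10 : |b| * (T p * |b|⁻¹) = T p := by
          field_simp
        rw [h10, h8] at h9
        linarith
      have h11 := hh0 p.2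
      linarith
  obtain ⟨h, hhU, hh⟩ := exists_avoid (Sum.elim P1 P2)
    (by rintro (p | p); exacts [hP1 p, hP2 p]) U hU hUne
  refine ⟨h, hP1' h (fun p => hh (Sum.inl p)), hP2' h (fun p => hh (Sum.inr p)), hhU.1, ?_, ?_⟩
  · intro σ hσ hi β hβ
    have h1 := hhU.2.1 σ hσ
    rw [Finset.sum_congr rfl (fun i his => by rw [cf_eq hi β hβ his])] at h1
    exact h1
  · intro σ hσ hi l hl β hβ hb
    have h1 := hhU.2.2 (σ, l) hσ hl (by rw [cf_eq hi β hβ hσ]; exact hb)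
    simp only at h1
    rw [Finset.sum_congr rfl (fun i his => by rw [cf_eq hi β hβ his])] at h1
    exact h1

end Pool.Agent.H37.T5

end S_ZHTA

section S_ZHTB

/-!
# ZHTB: the heights

Proof.  `zhta` with `P i = IsCr A B s0 (v i)`, `J` = the pairs `(C, u)`, `C` a set of critical rays, `u` not critical, such that every `φ_ω` vanishing on `C` vanishes at `u` (a subtype of `Finset ι × ι`, classical `Fintype`), and `ε`, `y` chosen as follows: `p = ∑_{c∈C} v c`; `φ_ω(p) = 0` implies `φ_ω(v c) = 0` for all `c ∈ C` (`nn`), so `φ_ω(v u) = 0`; hence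
for small `ε > 0` all `φ_ω(p - ε v_u) ≥ 0` (finitely many `ω`), and `hZ.gen` gives `p - ε v_u = ∑ y_i v_i`, `y ≥ 0`.
-/

set_option autoImplicit false

namespace Pool.Agent.H37.T5

open Finset H60.RegTri

variable {ι κ Ω : Type} [Fintype ι] [DecidableEq ι] [Fintype κ] [Fintype Ω] [DecidableEq Ω]
  {v : ι → κ → ℤ} {φ : Ω → κ → ℤ} {A B : κ → ℤ} {s0 : ℂ}

/-- The property of the heights which separates the critical rays from the others. -/
def Pull (v : ι → κ → ℤ) (φ : Ω → κ → ℤ) (A B : κ → ℤ) (s0 : ℂ) (h : ι → ℝ) : Prop :=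
  ∀ C : Finset ι, (∀ c ∈ C, IsCr A B s0 (v c)) → ∀ u, ¬ IsCr A B s0 (v u) →
    (∀ ω, (∀ c ∈ C, pr (φ ω) (v c) = 0) → pr (φ ω) (v u) = 0) →
    ∃ (ε : ℝ) (y : ι → ℝ), 0 < ε ∧ (∀ i, 0 ≤ y i) ∧
      ∑ c ∈ C, vR v c = ε • vR v u + ∑ i, y i • vR v i ∧
      ∑ c ∈ C, h c < ε * h u + ∑ i, y i * h i

omit [Fintype ι] [DecidableEq ι] in
theorem ZHTB_prR_vR (x : κ → ℤ) (i : ι) : prR x (vR v i) = (pr x (v i) : ℝ) := by
  simp [prR, vR, pr]

omit [Fintype ι] [DecidableEq ι] in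
theorem ZHTB_prR_sum (x : κ → ℤ) (C : Finset ι) :
    prR x (∑ c ∈ C, vR v c) = ((∑ c ∈ C, pr x (v c) : ℤ) : ℝ) := by
  push_cast
  simp_rw [← ZHTB_prR_vR, prR, Finset.sum_apply, Finset.mul_sum]
  exact Finset.sum_comm

theorem ZHTB_prR_sub (x : κ → ℤ) (y z : κ → ℝ) : prR x (y - z) = prR x y - prR x z := by
  simp [prR, mul_sub, Finset.sum_sub_distrib]

theorem ZHTB_prR_smul (x : κ → ℤ) (c : ℝ) (y : κ → ℝ) : prR x (c • y) = c * prR x y := by
  simp only [prR, Pi.smul_apply, smul_eq_mul, Finset.mul_sum]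
  exact Finset.sum_congr rfl fun i _ => by ring

omit [DecidableEq ι] [DecidableEq Ω] in
theorem ZHTB_exists (hZ : ZS v φ A B s0) (C : Finset ι) (u : ι)
    (hu : ∀ ω, (∀ c ∈ C, pr (φ ω) (v c) = 0) → pr (φ ω) (v u) = 0) :
    ∃ (ε : ℝ) (y : ι → ℝ), 0 < ε ∧ (∀ i, 0 ≤ y i) ∧
      ∑ c ∈ C, vR v c = ε • vR v u + ∑ i, y i • vR v i := by
  have hN : 0 ≤ ∑ ω, pr (φ ω) (v u) := Finset.sum_nonneg fun ω _ => hZ.nn u ω
  have hNR : (0 : ℝ) ≤ ((∑ ω, pr (φ ω) (v u) : ℤ) : ℝ) := by exact_mod_cast hN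
  set N : ℝ := 1 + ((∑ ω, pr (φ ω) (v u) : ℤ) : ℝ) with hNdef
  have hNpos : 0 < N := by linarith
  have hgen := hZ.gen (∑ c ∈ C, vR v c - N⁻¹ • vR v u) (by
    intro ω
    rw [ZHTB_prR_sub, ZHTB_prR_smul, ZHTB_prR_sum, ZHTB_prR_vR, sub_nonneg]
    by_cases h0 : ∑ c ∈ C, pr (φ ω) (v c) = 0
    · have h1 : ∀ c ∈ C, pr (φ ω) (v c) = 0 :=
        (Finset.sum_eq_zero_iff_of_nonneg (fun c _ => hZ.nn c ω)).1 h0
      rw [hu ω h1, h0]
      simp
    · have h1 : 0 ≤ ∑ c ∈ C, pr (φ ω) (v c) := Finset.sum_nonneg fun c _ => hZ.nn c ω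
      have h2 : 1 ≤ ∑ c ∈ C, pr (φ ω) (v c) := by omega
      have h3 : (1 : ℝ) ≤ ((∑ c ∈ C, pr (φ ω) (v c) : ℤ) : ℝ) := by exact_mod_cast h2
      refine le_trans ?_ h3
      rw [inv_mul_le_iff₀ hNpos, mul_one]
      have h4 : pr (φ ω) (v u) ≤ ∑ ω, pr (φ ω) (v u) :=
        Finset.single_le_sum (f := fun ω => pr (φ ω) (v u)) (fun ω _ => hZ.nn u ω)
          (Finset.mem_univ ω)
      have h5 : (pr (φ ω) (v u) : ℝ) ≤ ((∑ ω, pr (φ ω) (v u) : ℤ) : ℝ) := by exact_mod_cast h4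
      linarith)
  obtain ⟨x, hx, hxe⟩ := hgen
  refine ⟨N⁻¹, x, inv_pos.2 hNpos, hx, ?_⟩
  rw [← hxe]
  abel

omit [DecidableEq Ω] in
/-- ZHTB -/
theorem zhtb_aux (hZ : ZS v φ A B s0) (e0 : ι) (he0 : ¬ IsCr A B s0 (v e0)) {κ' : Type} [Fintype κ']
    (v' : ι → κ' → ℝ) :
    ∃ h : ι → ℝ, (∀ τ, GenericOn (vR v) h τ) ∧ (∀ τ, GenericOn v' h τ) ∧ Pull v φ A B s0 h ∧
      (∀ σ : Finset ι, e0 ∉ σ → LinearIndepOn ℝ (vR v) (σ : Set ι) → ∀ β : ι → ℝ,
        vR v e0 = ∑ i ∈ σ, β i • vR v i → ∑ i ∈ σ, β i * h i < h e0) := by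
  classical
  let J : Type := {p : Finset ι × ι // (∀ c ∈ p.1, IsCr A B s0 (v c)) ∧ ¬ IsCr A B s0 (v p.2) ∧
    ∀ ω, (∀ c ∈ p.1, pr (φ ω) (v c) = 0) → pr (φ ω) (v p.2) = 0}
  have hJ := fun t : J => ZHTB_exists hZ t.1.1 t.1.2 t.2.2.2
  choose ε y hε hy he using hJ
  letI : Fintype J := Fintype.ofFinite J
  obtain ⟨h, h1, h2, h3, h4, -⟩ := zhta (vR v) v' e0 (fun i => IsCr A B s0 (v i)) he0
    (fun t : J => t.1.1) (fun t c hc => t.2.1 c hc) (fun t : J => t.1.2) (fun t => t.2.2.1)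
    ε hε y hy
  refine ⟨h, h1, h2, ?_, h4⟩
  intro C hC u hu hCu
  let t : J := ⟨(C, u), hC, hu, hCu⟩
  exact ⟨ε t, y t, hε t, hy t, he t, h3 t⟩

/-- ZHTB -/
theorem zhtb (hZ : ZS v φ A B s0) (e0 : ι) (he0 : ¬ IsCr A B s0 (v e0)) {κ' : Type} [Fintype κ']
    (v' : ι → κ' → ℝ) :
    ∃ h : ι → ℝ, (∀ τ, GenericOn (vR v) h τ) ∧ (∀ τ, GenericOn v' h τ) ∧ Pull v φ A B s0 h ∧
      (∀ σ : Finset ι, e0 ∉ σ → LinearIndepOn ℝ (vR v) (σ : Set ι) → ∀ β : ι → ℝ,
        vR v e0 = ∑ i ∈ σ, β i • vR v i → ∑ i ∈ σ, β i * h i < h e0) :=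
  zhtb_aux hZ e0 he0 v'

end Pool.Agent.H37.T5

end S_ZHTB

section S_ZLAM

/-!
# ZLAM: the expansion of `V` at a critical ray

Let `V0 j = A j + B j s0 ∈ ℂ`, `V0·v_c = 0` (`IsCr`).  `zlam`: the `|κ| - 1` functionals `φ_ω`, `ω ∈ Ω_c = {φ_ω(v_c) = 0}`, are independent over `ℝ`, hence over `ℂ` (integral vectors), and lie in `{x ∈ ℂ^κ : x·v_c = 0}`, which has dimension `|κ| - 1` (`v_c ≠ 0` by `hZ.ne`): they are a basis of it, and `V0` is in it.
`zlam_unique`: independence over `ℂ`.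
`zlamsum`: `Λ·φ_ω(y)` for real `y`: pairing of the expansion with `y`.
-/

set_option autoImplicit false

namespace Pool.Agent.H37.T5

open Finset H60.RegTri

variable {ι κ Ω : Type} [Fintype ι] [DecidableEq ι] [Fintype κ] [Fintype Ω] [DecidableEq Ω]
  {v : ι → κ → ℤ} {φ : Ω → κ → ℤ} {A B : κ → ℤ} {s0 : ℂ}

/-- `Λ` are the coefficients of an expansion of `V` at `s0`. -/
def IsLam (φ : Ω → κ → ℤ) (A B : κ → ℤ) (s0 : ℂ) (Λ : Ω → ℂ) : Prop :=
  ∀ j, (A j : ℂ) + (B j : ℂ) * s0 = ∑ ω, Λ ω * (φ ω j : ℂ)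

omit [DecidableEq ι] [DecidableEq Ω] in
theorem ZLAM_cind (hZ : ZS v φ A B s0) (c : ι) (hc : IsCr A B s0 (v c)) (z : Ω → ℂ)
    (hz : ∀ ω, z ω ≠ 0 → pr (φ ω) (v c) = 0) (h : ∀ j, ∑ ω, z ω * (φ ω j : ℂ) = 0) : z = 0 := by
  classical
  have hind := hZ.ind c hc
  have hcoe : ({ω | pr (φ ω) (v c) = 0} : Set Ω)
      = ((univ.filter (fun ω => pr (φ ω) (v c) = 0) : Finset Ω) : Set Ω) := by
    ext ω; simp
  rw [hcoe, linearIndepOn_finset_iff] at hind
  have hsupp : ∀ (w : Ω → ℝ) (_ : ∀ ω, z ω = 0 → w ω = 0) (j : κ),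
      ∑ ω ∈ univ.filter (fun ω => pr (φ ω) (v c) = 0), w ω * (φ ω j : ℝ)
        = ∑ ω, w ω * (φ ω j : ℝ) := by
    intro w hw j
    apply Finset.sum_subset (Finset.filter_subset _ _)
    intro ω _ hω
    have h1 : ¬ pr (φ ω) (v c) = 0 := by simpa using hω
    have h2 : z ω = 0 := by
      by_contra hne
      exact h1 (hz ω hne)
    rw [hw ω h2, zero_mul]
  have hre : ∀ ω ∈ univ.filter (fun ω => pr (φ ω) (v c) = 0), (z ω).re = 0 := by
    apply hind (fun ω => (z ω).re)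
    funext j
    have h1 := congrArg Complex.re (h j)
    simp only [Complex.re_sum, Complex.mul_re, Complex.intCast_re, Complex.intCast_im, mul_zero,
      sub_zero, Complex.zero_re] at h1
    simp only [Finset.sum_apply, Pi.smul_apply, smul_eq_mul, vR, Pi.zero_apply]
    rw [hsupp (fun ω => (z ω).re) (fun ω hω => by simp [hω]) j]
    exact h1
  have him : ∀ ω ∈ univ.filter (fun ω => pr (φ ω) (v c) = 0), (z ω).im = 0 := by
    apply hind (fun ω => (z ω).im)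
    funext j
    have h1 := congrArg Complex.im (h j)
    simp only [Complex.im_sum, Complex.mul_im, Complex.intCast_re, Complex.intCast_im, mul_zero,
      zero_add, Complex.zero_im] at h1
    simp only [Finset.sum_apply, Pi.smul_apply, smul_eq_mul, vR, Pi.zero_apply]
    rw [hsupp (fun ω => (z ω).im) (fun ω hω => by simp [hω]) j]
    exact h1
  funext ω
  by_contra hne
  have hne' : z ω ≠ 0 := hne
  have hmem : ω ∈ univ.filter (fun ω => pr (φ ω) (v c) = 0) := by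
    simp [hz ω hne']
  exact hne' (Complex.ext (hre ω hmem) (him ω hmem))

omit [DecidableEq ι] [DecidableEq Ω] in
/-- ZLAM -/
theorem zlam (hZ : ZS v φ A B s0) (c : ι) (hc : IsCr A B s0 (v c)) :
    ∃ Λ : Ω → ℂ, IsLam φ A B s0 Λ ∧ ∀ ω, Λ ω ≠ 0 → pr (φ ω) (v c) = 0 := by
  classical
  obtain ⟨S, hS⟩ : ∃ S : Finset Ω, S = univ.filter (fun ω => pr (φ ω) (v c) = 0) := ⟨_, rfl⟩
  have hmemS : ∀ ω, ω ∈ S ↔ pr (φ ω) (v c) = 0 := by intro ω; simp [hS]
  have hcard : S.card + 1 = Fintype.card κ := by rw [hS]; exact hZ.card c hc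
  -- extension by zero
  have hext : ∀ (G : S → ℂ) (j : κ),
      ∑ ω, (if hω : ω ∈ S then G ⟨ω, hω⟩ else 0) * (φ ω j : ℂ) = ∑ i : S, G i * (φ i.1 j : ℂ) := by
    intro G j
    have e1 : ∑ ω, (if hω : ω ∈ S then G ⟨ω, hω⟩ else 0) * (φ ω j : ℂ)
        = ∑ ω ∈ S, (if hω : ω ∈ S then G ⟨ω, hω⟩ else 0) * (φ ω j : ℂ) := by
      symm
      apply Finset.sum_subset (Finset.subset_univ _)
      intro ω _ hω
      rw [dif_neg hω, zero_mul]
    rw [e1, ← Finset.sum_coe_sort S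
      (fun ω => (if hω : ω ∈ S then G ⟨ω, hω⟩ else 0) * (φ ω j : ℂ))]
    apply Finset.sum_congr rfl
    intro i _
    rw [dif_pos i.2]
  -- independence over ℂ
  have hli : LinearIndependent ℂ (fun (i : S) (j : κ) => (φ i.1 j : ℂ)) := by
    rw [Fintype.linearIndependent_iff]
    intro G hG i
    have h1 := ZLAM_cind hZ c hc (fun ω => if hω : ω ∈ S then G ⟨ω, hω⟩ else 0) (by
        intro ω hω
        by_contra hne
        apply hω
        rw [dif_neg]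
        rw [hmemS]
        exact hne) (by
        intro j
        rw [hext G j]
        have h2 := congrFun hG j
        simpa [Finset.sum_apply, Pi.smul_apply, smul_eq_mul] using h2)
    have h3 := congrFun h1 i.1
    simp only [dif_pos i.2, Pi.zero_apply] at h3
    exact h3
  -- the hyperplane
  obtain ⟨F, hF⟩ : ∃ F : (κ → ℂ) →ₗ[ℂ] ℂ, ∀ x, F x = ∑ j, x j * (v c j : ℂ) :=
    ⟨{ toFun := fun x => ∑ j, x j * (v c j : ℂ)
       map_add' := by
        intro x y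
        simp only [Pi.add_apply, add_mul, Finset.sum_add_distrib]
       map_smul' := by
        intro a x
        simp only [Pi.smul_apply, smul_eq_mul, RingHom.id_apply, Finset.mul_sum, mul_assoc] },
      fun _ => rfl⟩
  have hvc : ∃ j, v c j ≠ 0 := by
    by_contra hall
    push Not at hall
    rcases hZ.ne c with h | h
    · exact h (by simp [pr, hall])
    · exact h (by simp [pr, hall])
  obtain ⟨j0, hj0⟩ := hvc
  have hj0C : (v c j0 : ℂ) ≠ 0 := by exact_mod_cast hj0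
  have hsurj : Function.Surjective F := by
    intro z
    refine ⟨Pi.single j0 (z / (v c j0 : ℂ)), ?_⟩
    rw [hF, Finset.sum_eq_single j0]
    · rw [Pi.single_eq_same]
      field_simp
    · intro j _ hj
      rw [Pi.single_eq_of_ne hj, zero_mul]
    · intro hj
      exact absurd (Finset.mem_univ _) hj
  have hker : Module.finrank ℂ (LinearMap.ker F) + 1 = Fintype.card κ := by
    have h1 := LinearMap.finrank_range_add_finrank_ker F
    rw [LinearMap.range_eq_top.mpr hsurj, finrank_top, Module.finrank_self,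
      Module.finrank_fintype_fun_eq_card] at h1
    omega
  have hle : Submodule.span ℂ (Set.range (fun (i : S) (j : κ) => (φ i.1 j : ℂ))) ≤
      LinearMap.ker F := by
    rw [Submodule.span_le]
    rintro x ⟨i, rfl⟩
    rw [SetLike.mem_coe, LinearMap.mem_ker, hF]
    have h1 := (hmemS i.1).mp i.2
    have h2 : ((pr (φ i.1) (v c) : ℤ) : ℂ) = 0 := by rw [h1]; simp
    rw [← h2]
    simp [pr]
  have heq := Submodule.eq_of_le_of_finrank_eq hle (by
    rw [finrank_span_eq_card hli, Fintype.card_coe]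
    omega)
  have hV0 : (fun j => (A j : ℂ) + (B j : ℂ) * s0) ∈ LinearMap.ker F := by
    rw [LinearMap.mem_ker, hF]
    have h1 : (pr A (v c) : ℂ) + (pr B (v c) : ℂ) * s0 = 0 := hc
    rw [← h1]
    simp only [pr]
    push_cast
    rw [Finset.sum_mul, ← Finset.sum_add_distrib]
    apply Finset.sum_congr rfl
    intro j _
    ring
  rw [← heq, Submodule.mem_span_range_iff_exists_fun] at hV0
  obtain ⟨G, hG⟩ := hV0
  refine ⟨fun ω => if hω : ω ∈ S then G ⟨ω, hω⟩ else 0, ?_, ?_⟩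
  · intro j
    show (A j : ℂ) + (B j : ℂ) * s0
      = ∑ ω, (if hω : ω ∈ S then G ⟨ω, hω⟩ else 0) * (φ ω j : ℂ)
    rw [hext G j]
    have h1 := congrFun hG j
    simp only [Finset.sum_apply, Pi.smul_apply, smul_eq_mul] at h1
    exact h1.symm
  · intro ω hω
    by_contra hne
    apply hω
    show (if hω : ω ∈ S then G ⟨ω, hω⟩ else 0) = 0
    rw [dif_neg]
    rw [hmemS]
    exact hne

omit [DecidableEq ι] [DecidableEq Ω] in
theorem zlam_unique (hZ : ZS v φ A B s0) (c : ι) (hc : IsCr A B s0 (v c)) (Λ Λ' : Ω → ℂ)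
    (hΛ : IsLam φ A B s0 Λ) (hΛ' : IsLam φ A B s0 Λ')
    (h : ∀ ω, Λ ω ≠ 0 → pr (φ ω) (v c) = 0) (h' : ∀ ω, Λ' ω ≠ 0 → pr (φ ω) (v c) = 0) :
    Λ = Λ' := by
  have h1 := ZLAM_cind hZ c hc (Λ - Λ') (by
    intro ω hω
    by_contra hne
    apply hω
    have e1 : Λ ω = 0 := by
      by_contra h2; exact hne (h ω h2)
    have e2 : Λ' ω = 0 := by
      by_contra h2; exact hne (h' ω h2)
    rw [Pi.sub_apply, e1, e2, sub_zero]) (by
    intro j
    simp only [Pi.sub_apply, sub_mul, Finset.sum_sub_distrib]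
    rw [← hΛ j, ← hΛ' j, sub_self])
  exact sub_eq_zero.mp h1

omit [DecidableEq Ω] in
theorem zlam_pair (Λ : Ω → ℂ) (hΛ : IsLam φ A B s0 Λ) (x : κ → ℤ) :
    (pr A x : ℂ) + (pr B x : ℂ) * s0 = ∑ ω, Λ ω * (pr (φ ω) x : ℂ) := by
  simp only [pr]
  push_cast
  calc (∑ j, (A j : ℂ) * (x j : ℂ)) + (∑ j, (B j : ℂ) * (x j : ℂ)) * s0
      = ∑ j, ((A j : ℂ) + (B j : ℂ) * s0) * (x j : ℂ) := by
        rw [Finset.sum_mul, ← Finset.sum_add_distrib]
        apply Finset.sum_congr rfl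
        intro j _
        ring
    _ = ∑ j, (∑ ω, Λ ω * (φ ω j : ℂ)) * (x j : ℂ) := by
        apply Finset.sum_congr rfl
        intro j _
        rw [hΛ j]
    _ = ∑ ω, Λ ω * ∑ j, (φ ω j : ℂ) * (x j : ℂ) := by
        simp only [Finset.sum_mul, Finset.mul_sum]
        rw [Finset.sum_comm]
        apply Finset.sum_congr rfl
        intro ω _
        apply Finset.sum_congr rfl
        intro j _
        ring

omit [DecidableEq Ω] in
theorem zlam_pairR (Λ : Ω → ℂ) (hΛ : IsLam φ A B s0 Λ) (y : κ → ℝ) :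
    (prR A y : ℂ) + (prR B y : ℂ) * s0 = ∑ ω, Λ ω * (prR (φ ω) y : ℂ) := by
  simp only [prR]
  push_cast
  calc (∑ j, (A j : ℂ) * (y j : ℂ)) + (∑ j, (B j : ℂ) * (y j : ℂ)) * s0
      = ∑ j, ((A j : ℂ) + (B j : ℂ) * s0) * (y j : ℂ) := by
        rw [Finset.sum_mul, ← Finset.sum_add_distrib]
        apply Finset.sum_congr rfl
        intro j _
        ring
    _ = ∑ j, (∑ ω, Λ ω * (φ ω j : ℂ)) * (y j : ℂ) := by
        apply Finset.sum_congr rfl
        intro j _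
        rw [hΛ j]
    _ = ∑ ω, Λ ω * ∑ j, (φ ω j : ℂ) * (y j : ℂ) := by
        simp only [Finset.sum_mul, Finset.mul_sum]
        rw [Finset.sum_comm]
        apply Finset.sum_congr rfl
        intro ω _
        apply Finset.sum_congr rfl
        intro j _
        ring

end Pool.Agent.H37.T5

end S_ZLAM

section S_ZCLU

/-!
# ZCLU: the critical rays of a simplex belong to one cluster

`zclu1`.  `C` = the critical elements of `σ` (contains `c0`).  Suppose `u` is not critical; `u ∈ Gx Ξ` (for `ω ∈ Ξ`, `φ_ω` vanishes on `σ ⊇ C`).  `Pull` gives `ε`, `y`: `p = ∑_C v c = ε v_u + ∑ y_l v_l`, `∑_C h c < ε h u + ∑ y_l h l`.  If `y_l ≠ 0` then `l ∈ Gx Ξ` (`0 = φ_ω(p)` is a sum of nonnegative terms).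
By `zrank` every `v l`, `l ∈ Gx Ξ`, is `∑_{i∈σ} β^l_i v_i`; `L(l) := ∑ β^l_i h i ≥ h l` (upperness, equality for `l ∈ σ`).  By linearity and `coeff_unique`: `∑_C h c = ε L(u) + ∑ y_l L(l) ≥ ε h u + ∑ y_l h l`: contradiction.
`zclu`.  `c` is critical (`zlam_pair`, all terms vanish).  Let `Ξ' = {ω : φ_ω = 0 on all critical elements of σ}`.  Suppose `Λ ω0 ≠ 0`, `φ_ω0(v_c') ≠ 0`; so `ω0 ∉ Ξ'`, but `φ_ω0(v_c) = 0` (`hc`).  `zloc` at `c`: `y` with `φ_ω0(y) = 1`, `φ_ω(y) = 0` for the other `ω` vanishing at `c`, `> 0` for the remaining ones.  `φ_Ξ'(y) = 0`, so `y = ∑ x_i v_i` with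
`x_i ≥ 0`, zero outside `Gx Ξ'` (`zcone`), and all rays of `Gx Ξ'` are critical by `zclu1`: `V0(y) = 0`, but by `zlam_pairR` `V0(y) = Λ ω0`: contradiction.
-/

set_option autoImplicit false

namespace Pool.Agent.H37.T5

open Finset H60.RegTri

variable {ι κ Ω : Type} [Fintype ι] [DecidableEq ι] [Fintype κ] [Fintype Ω] [DecidableEq Ω]
  {v : ι → κ → ℤ} {φ : Ω → κ → ℤ} {A B : κ → ℤ} {s0 : ℂ}

omit [Fintype ι] [DecidableEq ι] in
theorem ZCLU_prR_smul (x : κ → ℤ) (r : ℝ) (y : κ → ℝ) : prR x (r • y) = r * prR x y := by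
  simp only [prR, Pi.smul_apply, smul_eq_mul, Finset.mul_sum]
  exact sum_congr rfl fun j _ => by ring

omit [Fintype ι] [DecidableEq ι] in
theorem ZCLU_prR_add (x : κ → ℤ) (y z : κ → ℝ) : prR x (y + z) = prR x y + prR x z := by
  simp only [prR, Pi.add_apply, mul_add, Finset.sum_add_distrib]

omit [Fintype ι] [DecidableEq ι] in
theorem ZCLU_prR_sum (x : κ → ℤ) (s : Finset ι) (y : ι → κ → ℝ) :
    prR x (∑ i ∈ s, y i) = ∑ i ∈ s, prR x (y i) := by
  simp only [prR, Finset.sum_apply, Finset.mul_sum]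
  exact Finset.sum_comm

theorem zclu1 (hZ : ZS v φ A B s0) (h : ι → ℝ) (hp : Pull v φ A B s0 h) (Ξ : Finset Ω)
    (σ : Finset ι) (hσ : σ ∈ TT v φ h Ξ) (c0 : ι) (hc0 : c0 ∈ σ) (hcr : IsCr A B s0 (v c0))
    (u : ι) (hu : ∀ ω, (∀ c ∈ σ, IsCr A B s0 (v c) → pr (φ ω) (v c) = 0) →
      pr (φ ω) (v u) = 0) : IsCr A B s0 (v u) := by
  classical
  by_contra hncr
  obtain ⟨ε, y, hε, hy, hvec, hh⟩ := hp (σ.filter (fun c => IsCr A B s0 (v c)))
    (fun c hc => (mem_filter.1 hc).2) u hncr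
    (fun ω hω => hu ω fun c hc hc2 => hω c (mem_filter.2 ⟨hc, hc2⟩))
  obtain ⟨hup, hcard⟩ := mem_TT.1 hσ
  have hσG : ∀ c ∈ σ, ∀ ω ∈ Ξ, pr (φ ω) (v c) = 0 := fun c hc ω hω => mem_Gx.1 (hup.1 hc) ω hω
  have huG : ∀ ω ∈ Ξ, pr (φ ω) (v u) = 0 := fun ω hω => hu ω fun c hc _ => hσG c hc ω hω
  have hyG : ∀ l, y l ≠ 0 → ∀ ω ∈ Ξ, pr (φ ω) (v l) = 0 := by
    intro l hl ω hω
    have h1 := congrArg (prR (φ ω)) hvec
    rw [ZCLU_prR_add, ZCLU_prR_smul, ZCLU_prR_sum, ZCLU_prR_sum, prR_vR, huG ω hω] at h1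
    have h2 : ∑ i ∈ σ.filter (fun c => IsCr A B s0 (v c)), prR (φ ω) (vR v i) = 0 := by
      refine sum_eq_zero fun c hc => ?_
      rw [prR_vR, hσG c (mem_filter.1 hc).1 ω hω, Int.cast_zero]
    rw [h2, Int.cast_zero, mul_zero, zero_add] at h1
    have h3 : ∀ i ∈ (univ : Finset ι), 0 ≤ prR (φ ω) (y i • vR v i) := fun i _ => by
      rw [ZCLU_prR_smul, prR_vR]
      exact mul_nonneg (hy i) (by exact_mod_cast hZ.nn i ω)
    have h4 := (sum_eq_zero_iff_of_nonneg h3).1 h1.symm l (mem_univ l)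
    rw [ZCLU_prR_smul, prR_vR] at h4
    have h5 := (mul_eq_zero.1 h4).resolve_left hl
    exact_mod_cast h5
  set x' : ι → ℝ := fun l => y l + if l = u then ε else 0 with hx'
  have hx'0 : ∀ l, 0 ≤ x' l := fun l => by
    simp only [hx']
    have := hy l
    split_ifs <;> linarith
  have hfull : ∀ l ∈ Gx v φ Ξ, vR v l ∈ Submodule.span ℝ (vR v '' (σ : Set ι)) := by
    intro l hl
    rw [mem_span_iff]
    refine (zrank hZ h Ξ σ hσ c0 hc0 hcr).2 _ fun ω hω => ?_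
    rw [prR_vR, mem_Gx.1 hl ω hω, Int.cast_zero]
  have hsub : univ.filter (fun l => 0 < x' l) ⊆ Gx v φ Ξ := by
    intro l hl
    have hl' := (mem_filter.1 hl).2
    rw [mem_Gx]
    intro ω hω
    by_cases hlu : l = u
    · rw [hlu]; exact huG ω hω
    · have : y l ≠ 0 := by
        simp only [hx', hlu, if_false, add_zero] at hl'
        exact hl'.ne'
      exact hyG l this ω hω
  have hL : ∑ i ∈ σ, (if IsCr A B s0 (v i) then (1 : ℝ) else 0) • vR v i =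
      ∑ c ∈ σ.filter (fun c => IsCr A B s0 (v c)), vR v c := by
    rw [sum_filter]
    refine sum_congr rfl fun i _ => ?_
    split_ifs <;> simp
  have hR : ∑ i ∈ univ.filter (fun l => 0 < x' l), x' i • vR v i = ε • vR v u + ∑ i, y i • vR v i := by
    rw [sum_filter]
    have h1 : ∀ i ∈ (univ : Finset ι), (if 0 < x' i then x' i • vR v i else 0) =
        y i • vR v i + (if i = u then ε • vR v i else 0) := by
      intro i _
      have h2 : (if 0 < x' i then x' i • vR v i else 0) = x' i • vR v i := by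
        split_ifs with h3
        · rfl
        · rw [le_antisymm (not_lt.1 h3) (hx'0 i), zero_smul]
      rw [h2]
      simp only [hx', add_smul]
      split_ifs <;> simp
    rw [sum_congr rfl h1, sum_add_distrib, sum_ite_eq' univ u, if_pos (mem_univ u), add_comm]
  have hRh : ∑ i ∈ univ.filter (fun l => 0 < x' l), x' i * h i = ε * h u + ∑ i, y i * h i := by
    rw [sum_filter]
    have h1 : ∀ i ∈ (univ : Finset ι), (if 0 < x' i then x' i * h i else 0) =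
        y i * h i + (if i = u then ε * h i else 0) := by
      intro i _
      have h2 : (if 0 < x' i then x' i * h i else 0) = x' i * h i := by
        split_ifs with h3
        · rfl
        · rw [le_antisymm (not_lt.1 h3) (hx'0 i), zero_mul]
      rw [h2]
      simp only [hx', add_mul]
      split_ifs <;> simp
    rw [sum_congr rfl h1, sum_add_distrib, sum_ite_eq' univ u, if_pos (mem_univ u), add_comm]
  have hLh : ∑ i ∈ σ, (if IsCr A B s0 (v i) then (1 : ℝ) else 0) * h i =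
      ∑ c ∈ σ.filter (fun c => IsCr A B s0 (v c)), h c := by
    rw [sum_filter]
    refine sum_congr rfl fun i _ => ?_
    split_ifs <;> simp
  have hmain := (height_le (vR v) h (Gx v φ Ξ) σ (univ.filter (fun l => 0 < x' l)) hup hfull hsub
    (fun i => if IsCr A B s0 (v i) then (1 : ℝ) else 0) x' (fun i hi => (mem_filter.1 hi).2)
    (by rw [hL, hR]; exact hvec)).1
  rw [hRh, hLh] at hmain
  linarith

/-- ZCLU -/
theorem zclu (hZ : ZS v φ A B s0) (h : ι → ℝ) (hp : Pull v φ A B s0 h) (Λ : Ω → ℂ)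
    (hΛ : IsLam φ A B s0 Λ) (Ξ : Finset Ω) (σ : Finset ι) (hσ : σ ∈ TT v φ h Ξ) (c : ι)
    (hcσ : c ∈ σ) (hc : ∀ ω, Λ ω ≠ 0 → pr (φ ω) (v c) = 0) (c' : ι) (hc'σ : c' ∈ σ)
    (hc' : IsCr A B s0 (v c')) : ∀ ω, Λ ω ≠ 0 → pr (φ ω) (v c') = 0 := by
  classical
  intro ω0 hω0
  by_contra hne
  have hcr : IsCr A B s0 (v c) := by
    unfold IsCr
    rw [zlam_pair Λ hΛ (v c)]
    refine sum_eq_zero fun ω _ => ?_
    by_cases hω : Λ ω = 0
    · rw [hω, zero_mul]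
    · rw [hc ω hω, Int.cast_zero, mul_zero]
  obtain ⟨y, hy1, hy2⟩ := zloc hZ c hcr (fun ω => if ω = ω0 then 1 else 0)
  have hy0 : ∀ ω, 0 ≤ prR (φ ω) y := by
    intro ω
    by_cases hω : pr (φ ω) (v c) = 0
    · rw [hy1 ω hω]
      split_ifs <;> norm_num
    · exact (hy2 ω hω).le
  have hΞ' : ∀ ω ∈ univ.filter (fun ω : Ω => ∀ e ∈ σ, IsCr A B s0 (v e) → pr (φ ω) (v e) = 0),
      prR (φ ω) y = 0 := by
    intro ω hω
    have h1 := (mem_filter.1 hω).2
    have h2 : ω ≠ ω0 := by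
      rintro rfl
      exact hne (h1 c' hc'σ hc')
    rw [hy1 ω (h1 c hcσ hcr), if_neg h2]
  obtain ⟨x, hx0, hxG, hxy⟩ := zcone hZ _ y hy0 hΞ'
  have hcrit : ∀ i, x i ≠ 0 → IsCr A B s0 (v i) := by
    intro i hi
    have h1 : i ∈ Gx v φ (univ.filter (fun ω : Ω => ∀ e ∈ σ, IsCr A B s0 (v e) → pr (φ ω) (v e) = 0)) := by
      by_contra hcon
      exact hi (hxG i hcon)
    refine zclu1 hZ h hp Ξ σ hσ c hcσ hcr i fun ω hω => ?_
    exact mem_Gx.1 h1 ω (mem_filter.2 ⟨mem_univ _, hω⟩)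
  have hV0 : (prR A y : ℂ) + (prR B y : ℂ) * s0 = 0 := by
    rw [hxy, ZCLU_prR_sum, ZCLU_prR_sum]
    push_cast
    rw [Finset.sum_mul, ← Finset.sum_add_distrib]
    refine sum_eq_zero fun i _ => ?_
    rw [ZCLU_prR_smul, ZCLU_prR_smul, prR_vR, prR_vR]
    by_cases hi : x i = 0
    · rw [hi]; simp
    · have h1 := hcrit i hi
      unfold IsCr at h1
      push_cast
      linear_combination (x i : ℂ) * h1
  have hV1 := zlam_pairR Λ hΛ y
  rw [hV0] at hV1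
  have hsum : ∑ ω, Λ ω * (prR (φ ω) y : ℂ) = Λ ω0 := by
    rw [sum_eq_single ω0]
    · rw [hy1 ω0 (hc ω0 hω0), if_pos rfl]; simp
    · intro ω _ hωne
      by_cases hω : Λ ω = 0
      · rw [hω, zero_mul]
      · rw [hy1 ω (hc ω hω), if_neg hωne]; simp
    · intro hcon; exact absurd (mem_univ _) hcon
  rw [hsum] at hV1
  exact hω0 hV1.symm

end Pool.Agent.H37.T5

end S_ZCLU

section S_ZIND

/-!
# ZIND: the combinatorial induction

`x ω k` = the value of the functional `ω` at the direction `k`.  `Ap x Vt Y b k`: `b ∈ Y ∩ Vt`, `x b k = 1` and `x ω k = 0` for the other `ω ∈ Y`.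

`zind`.  Induction on the number of elements outside `Y = X ∪ S`, for all `X` with `𝓕 X` and no apex of `Y` in `X`.  `𝓕 Y` (`hS`).  Let `b0, k0` be as in `H` for `Y`, `Ap Y b0 k0`, `k0` the only direction of `b0`; `b0 ∈ S` (`hapS`), `b0 ∉ X` (`hX0`).  Put `P = apex Y ⊆ S`, `P' = P.erase b0`.
`∑_{B ⊆ P} (-1)^|B| J(X ∪ B) = ∑_{B ⊆ P'} (-1)^|B| (J(X ∪ B) - J(X ∪ B ∪ b0))` (`Finset.sum_powerset_insert`).  For `B ⊆ P'`: `X ∪ B ⊆ Y` does not contain `b0`, so `x ω k0 = 0` on `X ∪ B`; `hrel` for `(X ∪ B, k0)`: modulo regular functions `J(X ∪ B) = ∑_{ω ∉ X ∪ B} x ω k0 J(X ∪ B ∪ ω) = J(X ∪ B ∪ b0) + ∑_{ω ∉ Y} x ω k0 J(X ∪ B ∪ ω)`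
(for `ω ∈ Y`, `ω ≠ b0`: `x ω k0 = 0`; `x b0 k0 = 1`).  So it is enough that for every `ω ∉ Y` with `x ω k0 ≠ 0` the sum `∑_{B ⊆ P'} (-1)^|B| J(X ∪ ω ∪ B)` is regular.  Let `Y' = Y ∪ ω`.  If not `𝓕 Y'`: every `J(X ∪ ω ∪ B) = 0` by `hJ` (`𝓕 (X ∪ ω ∪ B)` would give `𝓕 (X ∪ ω ∪ B ∪ S)` and `Y' ⊆ X ∪ ω ∪ B ∪ S`).
If `𝓕 Y'`: `Ap Y' b k` implies `Ap Y b k` (`b ∈ S ⊆ Y` by `hapS`), and `b ≠ b0` (`Ap Y' b0 k` gives `Ap Y b0 k`, `k = k0`, but `x ω k0 ≠ 0`, `ω ∈ Y'`, `ω ≠ b0`); so `P'' = apex Y' ⊆ P'`.  Split `B = B1 ∪ B2`, `B1 ⊆ P' \ P''`, `B2 ⊆ P''`: the sum is `∑_{B1} (-1)^|B1| (∑_{B2 ⊆ P''} (-1)^|B2| J((X ∪ ω ∪ B1) ∪ B2))`, and the inner sums are regular by the induction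
hypothesis for `X ∪ ω ∪ B1`: `(X ∪ ω ∪ B1) ∪ S = Y'` (`B1 ⊆ S`), `𝓕` by `hmono`, and no element of it is an apex of `Y'` (elements of `X` are no apexes of `Y`; `ω ∉ S`; `B1 ∩ P'' = ∅`).
-/

set_option autoImplicit false

namespace Pool.Agent.H37.T5

open Finset

/-- `k` is an apex direction of `b` in `Y`. -/
def Ap {Ω E : Type} (x : Ω → E → ℤ) (Vt : Finset Ω) (Y : Finset Ω) (b : Ω) (k : E) : Prop :=
  b ∈ Y ∧ b ∈ Vt ∧ x b k = 1 ∧ ∀ ω ∈ Y, ω ≠ b → x ω k = 0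

open Classical in
/-- The apexes of `Y`. -/
noncomputable def apex {Ω E : Type} (x : Ω → E → ℤ) (Vt : Finset Ω) (Y : Finset Ω) : Finset Ω :=
  Y.filter (fun b => ∃ k, Ap x Vt Y b k)

theorem mem_apex {Ω E : Type} {x : Ω → E → ℤ} {Vt Y : Finset Ω} {b : Ω} :
    b ∈ apex x Vt Y ↔ ∃ k, Ap x Vt Y b k := by
  simp only [apex, mem_filter]
  exact ⟨fun h => h.2, fun ⟨k, h⟩ => ⟨h.1, k, h⟩⟩

theorem ZIND_split {Ω M : Type} [DecidableEq Ω] [AddCommMonoid M] (A B : Finset Ω)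
    (hd : Disjoint A B) (f : Finset Ω → M) :
    ∑ C ∈ (A ∪ B).powerset, f C = ∑ C1 ∈ A.powerset, ∑ C2 ∈ B.powerset, f (C1 ∪ C2) := by
  rw [← Finset.sum_product']
  refine (Finset.sum_bij' (fun p _ => p.1 ∪ p.2) (fun C _ => (C ∩ A, C ∩ B)) ?_ ?_ ?_ ?_ ?_).symm
  · rintro ⟨C1, C2⟩ h
    simp only [mem_product, mem_powerset] at h ⊢
    exact union_subset_union h.1 h.2
  · intro C hC
    simp only [mem_product, mem_powerset]
    exact ⟨inter_subset_right, inter_subset_right⟩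
  · rintro ⟨C1, C2⟩ h
    simp only [mem_product, mem_powerset] at h
    ext a
    · simp only [mem_inter, mem_union]
      constructor
      · rintro ⟨h1 | h1, h2⟩
        · exact h1
        · exact absurd (h.2 h1) (disjoint_left.1 hd h2)
      · intro h1
        exact ⟨Or.inl h1, h.1 h1⟩
    · simp only [mem_inter, mem_union]
      constructor
      · rintro ⟨h1 | h1, h2⟩
        · exact absurd h2 (disjoint_left.1 hd (h.1 h1))
        · exact h1
      · intro h1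
        exact ⟨Or.inr h1, h.2 h1⟩
  · intro C hC
    rw [mem_powerset] at hC
    ext a
    simp only [mem_inter, mem_union]
    constructor
    · rintro (⟨h1, -⟩ | ⟨h1, -⟩) <;> exact h1
    · intro h1
      rcases mem_union.1 (hC h1) with h2 | h2
      · exact Or.inl ⟨h1, h2⟩
      · exact Or.inr ⟨h1, h2⟩
  · intro p _
    rfl

theorem ZIND_neg (s0 : ℂ) (n : ℕ) {R : RatFunc ℂ} (h : H37.SM.Reg s0 R) :
    H37.SM.Reg s0 ((-1) ^ n * R) := by
  rcases Nat.even_or_odd n with hn | hn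
  · rw [hn.neg_one_pow, one_mul]
    exact h
  · rw [hn.neg_one_pow, neg_one_mul]
    exact h.neg

section
variable {Ω E : Type} [Fintype Ω] [DecidableEq Ω] {s0 : ℂ} {J : Finset Ω → RatFunc ℂ}
  {S Vt : Finset Ω} {x : Ω → E → ℤ} {𝓕 : Finset Ω → Prop}

/-- ZIND -/
theorem zind (hmono : ∀ X Y, X ⊆ Y → 𝓕 Y → 𝓕 X) (hS : ∀ X, 𝓕 X → 𝓕 (X ∪ S))
    (hJ : ∀ X, ¬ 𝓕 X → J X = 0)
    (hrel : ∀ X k, (∀ ω ∈ X, x ω k = 0) →
      H37.SM.Reg s0 (J X - ∑ ω ∈ univ \ X, (x ω k : RatFunc ℂ) * J (insert ω X)))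
    (hapS : ∀ Y, S ⊆ Y → 𝓕 Y → ∀ b k, Ap x Vt Y b k → b ∈ S)
    (H : ∀ Y, S ⊆ Y → 𝓕 Y → ∃ b k, Ap x Vt Y b k ∧ ∀ k', Ap x Vt Y b k' → k' = k)
    (X : Finset Ω) (hX : 𝓕 X) (hX0 : ∀ b ∈ X, b ∉ apex x Vt (X ∪ S)) :
    H37.SM.Reg s0 (∑ B ∈ (apex x Vt (X ∪ S)).powerset, (-1) ^ B.card * J (X ∪ B)) := by
  induction hn : (univ \ (X ∪ S)).card using Nat.strong_induction_on generalizing X with
  | _ n ih =>
  have hY : 𝓕 (X ∪ S) := hS X hX
  have hSY : S ⊆ X ∪ S := subset_union_right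
  obtain ⟨b0, k0, hAp, huniq⟩ := H (X ∪ S) hSY hY
  have hb0S : b0 ∈ S := hapS _ hSY hY b0 k0 hAp
  have hb0P : b0 ∈ apex x Vt (X ∪ S) := mem_apex.2 ⟨k0, hAp⟩
  have hb0X : b0 ∉ X := fun h => hX0 b0 h hb0P
  have hPS : apex x Vt (X ∪ S) ⊆ S := by
    intro b hb
    obtain ⟨k, hk⟩ := mem_apex.1 hb
    exact hapS _ hSY hY b k hk
  set P := apex x Vt (X ∪ S) with hP
  set P' := P.erase b0 with hP'
  have hins : P = insert b0 P' := (insert_erase hb0P).symm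
  have hb0P' : b0 ∉ P' := notMem_erase _ _
  -- the regular rests
  have hB : ∀ B ∈ P'.powerset, H37.SM.Reg s0 (J (X ∪ B) - J (X ∪ insert b0 B) -
      ∑ ω ∈ univ \ (X ∪ S), (x ω k0 : RatFunc ℂ) * J (insert ω (X ∪ B))) := by
    intro B hBm
    have hBP' : B ⊆ P' := mem_powerset.1 hBm
    have hBS : B ⊆ S := (hBP'.trans (erase_subset _ _)).trans hPS
    have hXB : X ∪ B ⊆ X ∪ S := union_subset_union_right hBS
    have hb0B : b0 ∉ X ∪ B := by
      rw [mem_union]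
      rintro (h | h)
      · exact hb0X h
      · exact hb0P' (hBP' h)
    have hz : ∀ ω ∈ X ∪ S, ω ≠ b0 → x ω k0 = 0 := hAp.2.2.2
    have h1 := hrel (X ∪ B) k0 (fun ω hω => hz ω (hXB hω) (fun h => hb0B (h ▸ hω)))
    have h2 : ∑ ω ∈ univ \ (X ∪ B), (x ω k0 : RatFunc ℂ) * J (insert ω (X ∪ B)) =
        J (X ∪ insert b0 B) +
          ∑ ω ∈ univ \ (X ∪ S), (x ω k0 : RatFunc ℂ) * J (insert ω (X ∪ B)) := by
      have hb0n : b0 ∉ univ \ (X ∪ S) := by
        simp only [mem_sdiff, mem_univ, true_and, not_not]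
        exact hSY hb0S
      have h3 : insert b0 (univ \ (X ∪ S)) ⊆ univ \ (X ∪ B) := by
        intro ω hω
        rw [mem_insert] at hω
        rcases hω with rfl | hω
        · exact mem_sdiff.2 ⟨mem_univ _, hb0B⟩
        · exact mem_sdiff.2 ⟨mem_univ _, fun h => (mem_sdiff.1 hω).2 (hXB h)⟩
      rw [← Finset.sum_subset h3, Finset.sum_insert hb0n, hAp.2.2.1]
      · rw [Int.cast_one, one_mul]
        congr 2
        ext a
        simp only [mem_insert, mem_union]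
        tauto
      · intro ω _ hω
        rw [mem_insert, not_or] at hω
        have h4 : ω ∈ X ∪ S := by
          by_contra h5
          exact hω.2 (mem_sdiff.2 ⟨mem_univ _, h5⟩)
        rw [hz ω h4 hω.1, Int.cast_zero, zero_mul]
    rw [h2] at h1
    have h5 : J (X ∪ B) - J (X ∪ insert b0 B) -
        ∑ ω ∈ univ \ (X ∪ S), (x ω k0 : RatFunc ℂ) * J (insert ω (X ∪ B)) =
        J (X ∪ B) - (J (X ∪ insert b0 B) +
          ∑ ω ∈ univ \ (X ∪ S), (x ω k0 : RatFunc ℂ) * J (insert ω (X ∪ B))) := by ring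
    rw [h5]
    exact h1
  -- the inner sums
  have hω : ∀ ω ∈ univ \ (X ∪ S), H37.SM.Reg s0 ((x ω k0 : RatFunc ℂ) *
      ∑ B ∈ P'.powerset, (-1) ^ B.card * J (insert ω (X ∪ B))) := by
    intro ω hωm
    have hωY : ω ∉ X ∪ S := (mem_sdiff.1 hωm).2
    by_cases hx0 : x ω k0 = 0
    · rw [hx0, Int.cast_zero, zero_mul]
      exact H37.SM.reg_zero
    refine (H37.SM.reg_intCast _).mul ?_
    have hSY' : S ⊆ insert ω (X ∪ S) := hSY.trans (subset_insert _ _)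
    by_cases hF : 𝓕 (insert ω (X ∪ S))
    · have hP''P' : apex x Vt (insert ω (X ∪ S)) ⊆ P' := by
        intro b hb
        obtain ⟨k, hk⟩ := mem_apex.1 hb
        have hbS := hapS _ hSY' hF b k hk
        have hApY : Ap x Vt (X ∪ S) b k :=
          ⟨hSY hbS, hk.2.1, hk.2.2.1, fun ω' h1 h2 => hk.2.2.2 ω' (mem_insert_of_mem h1) h2⟩
        rw [hP', mem_erase]
        refine ⟨?_, mem_apex.2 ⟨k, hApY⟩⟩
        rintro rfl
        have hk0 := huniq k hApY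
        subst hk0
        exact hx0 (hk.2.2.2 ω (mem_insert_self _ _) (fun h => hωY (h ▸ hSY hb0S)))
      set P'' := apex x Vt (insert ω (X ∪ S)) with hP''
      have hsplit : P' = (P' \ P'') ∪ P'' := (sdiff_union_of_subset hP''P').symm
      rw [hsplit, ZIND_split _ _ sdiff_disjoint]
      refine H37.SM.Reg.sum _ _ fun B1 hB1 => ?_
      have hB1s : B1 ⊆ P' \ P'' := mem_powerset.1 hB1
      have hB1S : B1 ⊆ S :=
        ((hB1s.trans sdiff_subset).trans (erase_subset _ _)).trans hPS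
      have hXS : insert ω (X ∪ B1) ∪ S = insert ω (X ∪ S) := by
        ext a
        simp only [mem_insert, mem_union]
        constructor
        · rintro ((h | h | h) | h)
          · exact Or.inl h
          · exact Or.inr (Or.inl h)
          · exact Or.inr (Or.inr (hB1S h))
          · exact Or.inr (Or.inr h)
        · rintro (h | h | h)
          · exact Or.inl (Or.inl h)
          · exact Or.inl (Or.inr (Or.inl h))
          · exact Or.inr h
      have hlt : (univ \ (insert ω (X ∪ B1) ∪ S)).card < n := by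
        rw [hXS, ← hn]
        apply card_lt_card
        rw [ssubset_iff_of_subset (sdiff_subset_sdiff subset_rfl (subset_insert _ _))]
        exact ⟨ω, hωm, fun h => (mem_sdiff.1 h).2 (mem_insert_self _ _)⟩
      have hih := ih _ hlt (insert ω (X ∪ B1))
        (hmono _ _ (insert_subset_insert _ (union_subset_union_right hB1S)) hF)
        (by
          intro b hb
          rw [hXS, ← hP'']
          intro hbP
          rw [mem_insert, mem_union] at hb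
          rcases hb with rfl | hb | hb
          · exact hωY (hSY (hPS (mem_of_mem_erase (hP''P' hbP))))
          · exact hX0 b hb (mem_of_mem_erase (hP''P' hbP))
          · exact (mem_sdiff.1 (hB1s hb)).2 hbP) rfl
      rw [hXS, ← hP''] at hih
      have hsum : ∑ C2 ∈ P''.powerset, (-1 : RatFunc ℂ) ^ (B1 ∪ C2).card *
          J (insert ω (X ∪ (B1 ∪ C2))) = (-1) ^ B1.card *
          ∑ B ∈ P''.powerset, (-1) ^ B.card * J (insert ω (X ∪ B1) ∪ B) := by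
        rw [mul_sum]
        refine sum_congr rfl fun C2 hC2 => ?_
        have hd : Disjoint B1 C2 := by
          rw [disjoint_left]
          intro a ha ha2
          exact (mem_sdiff.1 (hB1s ha)).2 (mem_powerset.1 hC2 ha2)
        have he : insert ω (X ∪ (B1 ∪ C2)) = insert ω (X ∪ B1) ∪ C2 := by
          ext a
          simp only [mem_insert, mem_union]
          tauto
        rw [card_union_of_disjoint hd, he, pow_add, mul_assoc]
      rw [hsum]
      exact ZIND_neg s0 _ hih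
    · have h0 : ∑ B ∈ P'.powerset, (-1 : RatFunc ℂ) ^ B.card * J (insert ω (X ∪ B)) = 0 := by
        refine sum_eq_zero fun B _ => ?_
        rw [hJ, mul_zero]
        intro hF2
        refine hF (hmono _ _ ?_ (hS _ hF2))
        intro a ha
        simp only [mem_insert, mem_union] at ha ⊢
        tauto
      rw [h0]
      exact H37.SM.reg_zero
  -- assembly
  have hfin : ∑ B ∈ P.powerset, (-1 : RatFunc ℂ) ^ B.card * J (X ∪ B) =
      ∑ B ∈ P'.powerset, (-1) ^ B.card * (J (X ∪ B) - J (X ∪ insert b0 B) -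
        ∑ ω ∈ univ \ (X ∪ S), (x ω k0 : RatFunc ℂ) * J (insert ω (X ∪ B))) +
      ∑ ω ∈ univ \ (X ∪ S), (x ω k0 : RatFunc ℂ) *
        ∑ B ∈ P'.powerset, (-1) ^ B.card * J (insert ω (X ∪ B)) := by
    have e1 : ∑ ω ∈ univ \ (X ∪ S), (x ω k0 : RatFunc ℂ) *
        ∑ B ∈ P'.powerset, (-1) ^ B.card * J (insert ω (X ∪ B)) =
        ∑ B ∈ P'.powerset, (-1) ^ B.card *
          ∑ ω ∈ univ \ (X ∪ S), (x ω k0 : RatFunc ℂ) * J (insert ω (X ∪ B)) := by
      simp only [mul_sum]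
      rw [sum_comm]
      refine sum_congr rfl fun B _ => sum_congr rfl fun ω _ => ?_
      ring
    rw [e1, ← sum_add_distrib, hins, sum_powerset_insert hb0P', ← sum_add_distrib]
    refine sum_congr rfl fun B hBm => ?_
    have hb : b0 ∉ B := fun h => hb0P' (mem_powerset.1 hBm h)
    rw [card_insert_of_notMem hb, pow_succ]
    ring
  rw [hfin]
  refine (H37.SM.Reg.sum _ _ fun B hBm => ZIND_neg s0 _ (hB B hBm)).add
    (H37.SM.Reg.sum _ _ hω)

end

end Pool.Agent.H37.T5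

end S_ZIND

section S_ZCOM

/-!
# ZCOM: the sum over all sets of vertices

`zcom`.  For `T ⊆ Vt` with `𝓕 T` put `T0 = T \ apex (T ∪ S)`; `apex (T ∪ S) ⊆ S` (`hapS`, `𝓕 (T ∪ S)`), so `T0 ∪ S = T ∪ S`.  The map `T ↦ (T0, T ∩ apex (T ∪ S))` is a bijection from these `T` to the pairs `(T0, B)`, `T0 ⊆ Vt`, `𝓕 T0`, no apex of `T0 ∪ S` in `T0`, `B ⊆ apex (T0 ∪ S)` (note `apex ⊆ Vt`); `μ (T0 ∪ B) = μ T0` by `hμ` (add the elements of `B` one by one: each `b ∈ B` satisfies `Ap (T0 ∪ S) b k` for some `k`,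
and `T0 ∪ B' ∪ b ⊆ T0 ∪ S`).  So the sum is `∑_{T0} (-1)^|T0| μ(T0) ∑_{B ⊆ apex} (-1)^|B| J(T0 ∪ B)` + the terms with `J T = 0`: `zind`.
-/

set_option autoImplicit false

namespace Pool.Agent.H37.T5

open Finset

variable {Ω E : Type} [Fintype Ω] [DecidableEq Ω] {s0 : ℂ} {J : Finset Ω → RatFunc ℂ}
  {S Vt : Finset Ω} {x : Ω → E → ℤ} {𝓕 : Finset Ω → Prop}

omit [Fintype Ω] in
/-- the index does not change when apexes are added -/
theorem zcom_mu (μ : Finset Ω → ℕ)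
    (hμ : ∀ T b k, b ∉ T → x b k = 1 → (∀ ω ∈ T, x ω k = 0) → μ (insert b T) = μ T)
    (T0 : Finset Ω) (hd : ∀ b ∈ T0, b ∉ apex x Vt (T0 ∪ S)) (B : Finset Ω)
    (hB : B ⊆ apex x Vt (T0 ∪ S)) : μ (T0 ∪ B) = μ T0 := by
  induction B using Finset.induction_on with
  | empty => rw [union_empty]
  | insert b B' hb ih =>
    have hB' : B' ⊆ apex x Vt (T0 ∪ S) := fun ω h => hB (mem_insert_of_mem h)
    have hbP : b ∈ apex x Vt (T0 ∪ S) := hB (mem_insert_self b B')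
    obtain ⟨k, hk⟩ := mem_apex.1 hbP
    rw [union_insert, hμ (T0 ∪ B') b k ?_ hk.2.2.1 ?_, ih hB']
    · intro h
      rcases mem_union.1 h with h | h
      · exact hd b h hbP
      · exact hb h
    · intro ω h
      rcases mem_union.1 h with h | h
      · exact hk.2.2.2 ω (mem_union_left _ h) (fun e => hd ω h (e ▸ hbP))
      · obtain ⟨k', hk'⟩ := mem_apex.1 (hB' h)
        exact hk.2.2.2 ω hk'.1 (fun e => hb (e ▸ h))

/-- ZCOM -/
theorem zcom (hmono : ∀ X Y, X ⊆ Y → 𝓕 Y → 𝓕 X) (hS : ∀ X, 𝓕 X → 𝓕 (X ∪ S))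
    (hJ : ∀ X, ¬ 𝓕 X → J X = 0)
    (hrel : ∀ X k, (∀ ω ∈ X, x ω k = 0) →
      H37.SM.Reg s0 (J X - ∑ ω ∈ univ \ X, (x ω k : RatFunc ℂ) * J (insert ω X)))
    (hapS : ∀ Y, S ⊆ Y → 𝓕 Y → ∀ b k, Ap x Vt Y b k → b ∈ S)
    (H : ∀ Y, S ⊆ Y → 𝓕 Y → ∃ b k, Ap x Vt Y b k ∧ ∀ k', Ap x Vt Y b k' → k' = k)
    (μ : Finset Ω → ℕ)
    (hμ : ∀ T b k, b ∉ T → x b k = 1 → (∀ ω ∈ T, x ω k = 0) → μ (insert b T) = μ T) :
    H37.SM.Reg s0 (∑ T ∈ Vt.powerset, (-1) ^ T.card * (μ T : RatFunc ℂ) * J T) := by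
  classical
  set f : Finset Ω → RatFunc ℂ := fun T => (-1) ^ T.card * (μ T : RatFunc ℂ) * J T with hf
  have e1 : ∑ T ∈ Vt.powerset, f T = ∑ T ∈ Vt.powerset with 𝓕 T, f T := by
    rw [sum_filter]
    refine sum_congr rfl fun T _ => ?_
    by_cases h : 𝓕 T
    · rw [if_pos h]
    · rw [if_neg h, hf]
      simp only [hJ T h, mul_zero]
  have e2 : ∑ T ∈ Vt.powerset with 𝓕 T, f T =
      ∑ T0 ∈ Vt.powerset, ∑ T ∈ (Vt.powerset.filter 𝓕) with T \ apex x Vt (T ∪ S) = T0, f T := by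
    rw [sum_fiberwise_of_maps_to]
    intro T hT
    have := mem_powerset.1 (mem_filter.1 hT).1
    exact mem_powerset.2 (sdiff_subset.trans this)
  change H37.SM.Reg s0 (∑ T ∈ Vt.powerset, f T)
  rw [e1, e2]
  refine H37.SM.Reg.sum _ _ fun T0 hT0 => ?_
  have hT0V := mem_powerset.1 hT0
  -- an element of the fiber
  have key : ∀ T, 𝓕 T → T \ apex x Vt (T ∪ S) = T0 →
      T ∪ S = T0 ∪ S ∧ apex x Vt (T0 ∪ S) ⊆ S ∧ 𝓕 (T0 ∪ S) := by
    intro T hT h
    have hTS := hS T hT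
    have hap : apex x Vt (T ∪ S) ⊆ S := by
      intro b hb
      obtain ⟨k, hk⟩ := mem_apex.1 hb
      exact hapS _ subset_union_right hTS b k hk
    have e : T ∪ S = T0 ∪ S := by
      ext ω
      rw [← h]
      simp only [mem_union, mem_sdiff]
      constructor
      · rintro (h1 | h1)
        · by_cases h2 : ω ∈ apex x Vt (T ∪ S)
          · exact Or.inr (hap h2)
          · exact Or.inl ⟨h1, h2⟩
        · exact Or.inr h1
      · rintro (h1 | h1)
        · exact Or.inl h1.1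
        · exact Or.inr h1
    exact ⟨e, e ▸ hap, e ▸ hTS⟩
  rcases ((Vt.powerset.filter 𝓕).filter (fun T => T \ apex x Vt (T ∪ S) = T0)).eq_empty_or_nonempty
    with h0 | ⟨T1, hT1⟩
  · rw [h0, sum_empty]
    exact H37.SM.reg_zero
  · obtain ⟨hT1a, hT1b⟩ := mem_filter.1 hT1
    have hT1F := (mem_filter.1 hT1a).2
    obtain ⟨k1, hPS, hFS⟩ := key T1 hT1F hT1b
    have hPd : ∀ b ∈ T0, b ∉ apex x Vt (T0 ∪ S) := by
      intro b hb
      rw [← hT1b] at hb
      rw [← k1]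
      exact (mem_sdiff.1 hb).2
    have hPV : apex x Vt (T0 ∪ S) ⊆ Vt := by
      intro b hb
      obtain ⟨k, hk⟩ := mem_apex.1 hb
      exact hk.2.1
    have hF0 : 𝓕 T0 := hmono _ _ subset_union_left hFS
    have e3 : ∑ T ∈ (Vt.powerset.filter 𝓕) with T \ apex x Vt (T ∪ S) = T0, f T =
        ∑ B ∈ (apex x Vt (T0 ∪ S)).powerset, f (T0 ∪ B) := by
      symm
      refine sum_bij (fun B _ => T0 ∪ B) ?_ ?_ ?_ ?_
      · intro B hB
        have hB := mem_powerset.1 hB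
        have e : T0 ∪ B ∪ S = T0 ∪ S := by
          rw [union_assoc, union_eq_right.2 (hB.trans hPS)]
        refine mem_filter.2 ⟨mem_filter.2 ⟨mem_powerset.2 (union_subset hT0V (hB.trans hPV)), ?_⟩, ?_⟩
        · exact hmono _ _ (union_subset subset_union_left
            ((hB.trans hPS).trans subset_union_right)) hFS
        · rw [e]
          ext ω
          simp only [mem_sdiff, mem_union]
          constructor
          · rintro ⟨h1 | h1, h2⟩
            · exact h1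
            · exact absurd (hB h1) h2
          · intro h1
            exact ⟨Or.inl h1, hPd ω h1⟩
      · intro B hB B' hB' h
        have hB := mem_powerset.1 hB
        have hB' := mem_powerset.1 hB'
        ext ω
        constructor
        · intro h1
          have h2 : ω ∈ T0 ∪ B' := by
            have : ω ∈ T0 ∪ B := mem_union_right _ h1
            rwa [h] at this
          rcases mem_union.1 h2 with h3 | h3
          · exact absurd (hB h1) (hPd ω h3)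
          · exact h3
        · intro h1
          have h2 : ω ∈ T0 ∪ B := by
            have : ω ∈ T0 ∪ B' := mem_union_right _ h1
            rwa [← h] at this
          rcases mem_union.1 h2 with h3 | h3
          · exact absurd (hB' h1) (hPd ω h3)
          · exact h3
      · intro T hT
        obtain ⟨ha, hb⟩ := mem_filter.1 hT
        obtain ⟨k2, -, -⟩ := key T (mem_filter.1 ha).2 hb
        rw [k2] at hb
        refine ⟨T ∩ apex x Vt (T0 ∪ S), mem_powerset.2 inter_subset_right, ?_⟩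
        ext ω
        rw [← hb]
        simp only [mem_union, mem_sdiff, mem_inter]
        rw [hb]
        constructor
        · rintro (h1 | h1)
          · exact h1.1
          · exact h1.1
        · intro h1
          by_cases h2 : ω ∈ apex x Vt (T0 ∪ S)
          · exact Or.inr ⟨h1, h2⟩
          · exact Or.inl ⟨h1, h2⟩
      · intro B _
        rfl
    have e4 : ∑ B ∈ (apex x Vt (T0 ∪ S)).powerset, f (T0 ∪ B) =
        ((-1) ^ T0.card * (μ T0 : RatFunc ℂ)) *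
          ∑ B ∈ (apex x Vt (T0 ∪ S)).powerset, (-1) ^ B.card * J (T0 ∪ B) := by
      rw [mul_sum]
      refine sum_congr rfl fun B hB => ?_
      have hB := mem_powerset.1 hB
      have hdis : Disjoint T0 B := by
        rw [disjoint_left]
        intro ω h1 h2
        exact hPd ω h1 (hB h2)
      rw [hf]
      simp only
      rw [card_union_of_disjoint hdis, zcom_mu μ hμ T0 hPd B hB, pow_add]
      ring
    rw [e3, e4]
    have hz := zind hmono hS hJ hrel hapS H T0 hF0 hPd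
    have hc : H37.SM.Reg s0 ((-1 : RatFunc ℂ) ^ T0.card * (μ T0 : RatFunc ℂ)) := by
      refine H37.SM.Reg.mul ?_ (H37.SM.reg_natCast _)
      have h1 := H37.SM.reg_intCast (s0 := s0) ((-1) ^ T0.card)
      push_cast at h1
      exact h1
    exact hc.mul hz

end Pool.Agent.H37.T5

end S_ZCOM

section S_ZLOCZ

/-!
# ZLOCZ: an integral interior point

`zlocZ`: an integral point in the relative interior of the face `{φ_Y = 0}`: as `zloc` with `x_ω = 1` for `ω ∈ Ω_c`, `ω ∉ Y`, and `x_ω = 0` for `ω ∈ Y`; the system has a rational solution (the functionals are integral and independent: over `ℚ`), multiply by the denominator; `C` a large integer; the further requirement `hF`: finitely many further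
integral functionals `ψ_t` with `ψ_t(v_c) > 0` also become positive.
-/

set_option autoImplicit false

namespace Pool.Agent.H37.T5

open Finset H60.RegTri

variable {ι κ Ω : Type} [Fintype ι] [DecidableEq ι] [Fintype κ] [Fintype Ω] [DecidableEq Ω]
  {v : ι → κ → ℤ} {φ : Ω → κ → ℤ} {A B : κ → ℤ} {s0 : ℂ}

theorem ZLOCZ_surj {Ω' κ : Type} [Fintype Ω'] [Fintype κ] (a : Ω' → κ → ℤ)
    (ha : LinearIndependent ℝ (fun ω => (fun j => (a ω j : ℝ) : κ → ℝ))) (x : Ω' → ℚ) :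
    ∃ y : κ → ℚ, ∀ ω, ∑ j, (a ω j : ℚ) * y j = x ω := by
  classical
  have h1 : LinearIndependent ℚ (fun ω => (fun j => (a ω j : ℝ) : κ → ℝ)) := by
    apply LinearIndependent.restrict_scalars (K := ℝ) _ ha
    intro r s hrs
    simpa using hrs
  have h2 : LinearIndependent ℚ (fun ω => (fun j => (a ω j : ℚ) : κ → ℚ)) := by
    let f : (κ → ℚ) →ₗ[ℚ] (κ → ℝ) :=
      { toFun := fun y j => (y j : ℝ)
        map_add' := fun y z => by ext j; simp
        map_smul' := fun c y => by ext j; simp [Rat.smul_def] }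
    apply LinearIndependent.of_comp f
    have h0 : (f ∘ fun ω => (fun j => (a ω j : ℚ) : κ → ℚ)) =
        fun ω => (fun j => (a ω j : ℝ) : κ → ℝ) := by
      funext ω j
      show (((a ω j : ℚ)) : ℝ) = (a ω j : ℝ)
      push_cast
      rfl
    rw [h0]
    exact h1
  set M : Matrix Ω' κ ℚ := Matrix.of (fun ω j => (a ω j : ℚ)) with hM
  have h3 : M.rank = Fintype.card Ω' := LinearIndependent.rank_matrix h2
  have h4 : LinearMap.range M.mulVecLin = ⊤ := by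
    apply Submodule.eq_top_of_finrank_eq
    rw [← Matrix.rank, h3]
    simp
  have h5 : x ∈ LinearMap.range M.mulVecLin := by rw [h4]; trivial
  obtain ⟨y, hy⟩ := h5
  refine ⟨y, fun ω => ?_⟩
  rw [← hy]
  simp [Matrix.mulVec, dotProduct, hM]

theorem ZLOCZ_int {κ : Type} [Fintype κ] (y : κ → ℚ) :
    ∃ (D : ℤ) (z : κ → ℤ), 0 < D ∧ ∀ j, (z j : ℚ) = D * y j := by
  classical
  refine ⟨∏ j, ((y j).den : ℤ), fun j => (∏ i ∈ univ.erase j, ((y i).den : ℤ)) * (y j).num,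
    Finset.prod_pos fun j _ => by exact_mod_cast (y j).den_pos, fun j => ?_⟩
  rw [← Finset.mul_prod_erase univ _ (Finset.mem_univ j)]
  push_cast
  have := Rat.num_div_den (y j)
  have hd : ((y j).den : ℚ) ≠ 0 := by exact_mod_cast (y j).den_ne_zero
  rw [div_eq_iff hd] at this
  rw [this]
  ring

/-- ZLOCZ -/
theorem zlocZ (hZ : ZS v φ A B s0) (c : ι) (hc : IsCr A B s0 (v c)) (Y : Finset Ω)
    (hY : ∀ ω ∈ Y, pr (φ ω) (v c) = 0) {T : Type} [Fintype T] (ψ : T → κ → ℤ)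
    (hψ : ∀ t, 0 < pr (ψ t) (v c)) :
    ∃ p : κ → ℤ, (∀ ω, 0 ≤ pr (φ ω) p) ∧ (∀ ω, pr (φ ω) p = 0 ↔ ω ∈ Y) ∧
      ∀ t, 0 < pr (ψ t) p := by
  classical
  have hind := hZ.ind c hc
  obtain ⟨y, hy⟩ := ZLOCZ_surj (Ω' := {ω // pr (φ ω) (v c) = 0}) (fun ω => φ ω) hind
    (fun ω => if (ω : Ω) ∈ Y then 0 else 1)
  obtain ⟨D, z, hD, hz⟩ := ZLOCZ_int y
  have hzω : ∀ ω, pr (φ ω) (v c) = 0 → pr (φ ω) z = if ω ∈ Y then 0 else D := by
    intro ω hω
    have h1 := hy ⟨ω, hω⟩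
    have h2 : (pr (φ ω) z : ℚ) = D * ∑ j, (φ ω j : ℚ) * y j := by
      rw [pr, Finset.mul_sum]
      push_cast
      refine Finset.sum_congr rfl fun j _ => ?_
      rw [hz]
      ring
    have h3 : (pr (φ ω) z : ℚ) = ((if ω ∈ Y then 0 else D : ℤ) : ℚ) := by
      rw [h2]
      simp only at h1
      rw [h1]
      split_ifs <;> simp
    exact_mod_cast h3
  set K : ℤ := 1 + ∑ ω, |pr (φ ω) z| + ∑ t, |pr (ψ t) z| with hK
  have hlin : ∀ x : κ → ℤ, pr x (fun j => z j + K * v c j) = pr x z + K * pr x (v c) := by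
    intro x
    simp only [pr]
    rw [Finset.mul_sum, ← Finset.sum_add_distrib]
    refine Finset.sum_congr rfl fun j _ => ?_
    ring
  have hs1 : 0 ≤ ∑ ω, |pr (φ ω) z| := Finset.sum_nonneg fun _ _ => abs_nonneg _
  have hs2 : 0 ≤ ∑ t, |pr (ψ t) z| := Finset.sum_nonneg fun _ _ => abs_nonneg _
  have hK0 : 0 < K := by rw [hK]; omega
  have hpos : ∀ ω, pr (φ ω) (v c) ≠ 0 → 0 < pr (φ ω) (fun j => z j + K * v c j) := by
    intro ω hω
    rw [hlin]
    have h1 : 1 ≤ pr (φ ω) (v c) := by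
      have := hZ.nn c ω
      omega
    have h2 : |pr (φ ω) z| ≤ ∑ ω, |pr (φ ω) z| :=
      Finset.single_le_sum (f := fun ω => |pr (φ ω) z|) (fun _ _ => abs_nonneg _)
        (Finset.mem_univ ω)
    have h3 := neg_abs_le (pr (φ ω) z)
    have h4 : K * 1 ≤ K * pr (φ ω) (v c) := mul_le_mul_of_nonneg_left h1 hK0.le
    omega
  have hψ' : ∀ t, 0 < pr (ψ t) (fun j => z j + K * v c j) := by
    intro t
    rw [hlin]
    have h1 : 1 ≤ pr (ψ t) (v c) := hψ t
    have h2 : |pr (ψ t) z| ≤ ∑ t, |pr (ψ t) z| :=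
      Finset.single_le_sum (f := fun t => |pr (ψ t) z|) (fun _ _ => abs_nonneg _)
        (Finset.mem_univ t)
    have h3 := neg_abs_le (pr (ψ t) z)
    have h4 : K * 1 ≤ K * pr (ψ t) (v c) := mul_le_mul_of_nonneg_left h1 hK0.le
    omega
  refine ⟨fun j => z j + K * v c j, fun ω => ?_, fun ω => ?_, hψ'⟩
  · by_cases hω : pr (φ ω) (v c) = 0
    · rw [hlin, hω, hzω ω hω]
      split_ifs <;> omega
    · exact (hpos ω hω).le
  · by_cases hω : pr (φ ω) (v c) = 0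
    · rw [hlin, hω, hzω ω hω]
      split_ifs with h
      · simp [h]
      · simp only [mul_zero, add_zero, h, iff_false]
        omega
    · have := hpos ω hω
      constructor
      · intro h; omega
      · intro h; exact absurd (hY ω h) hω


end Pool.Agent.H37.T5

end S_ZLOCZ

section S_ZPYR

/-!
# ZPYR: multiplicities of a pyramid of height one; small cases

`mulv_pyr`: as `H56.SMC.mulS_insert` / `faceVol_pyr` (file ZNL): the integral functional `pr e` is `1` at `φ b` and `0` at the other `φ ω`, so `ℤ^κ = ℤ (φ b) ⊕ ker(pr e)` and the torsion of the quotient does not change.  `mulv_empty`: the torsion of `ℤ^κ` is trivial.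
-/

set_option autoImplicit false

namespace Pool.Agent.H37.T5

open Finset H60.RegTri

/-- ZPYR -/
theorem mulv_pyr {Ω κ : Type} [Fintype κ] [DecidableEq Ω] (φ : Ω → κ → ℤ) (T : Finset Ω) (b : Ω)
    (hb : b ∉ T) (e : κ → ℤ) (h0 : ∀ ω ∈ T, pr (φ ω) e = 0) (h1 : pr (φ b) e = 1) :
    mulv φ (insert b T) = mulv φ T := by
  classical
  have _ := hb
  set v : Option T → (κ → ℤ) := fun o => o.elim (φ b) (fun w => φ w.1) with hv
  have h2 : mulv φ (insert b T) = H22.latIndex v := by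
    unfold mulv H22.latIndex
    have h3 : Set.range (fun i : (insert b T : Finset Ω) => φ i) = Set.range v := by
      ext z
      simp only [Set.mem_range]
      constructor
      · rintro ⟨⟨l, hl⟩, rfl⟩
        rcases Finset.mem_insert.1 hl with rfl | hl'
        · exact ⟨none, rfl⟩
        · exact ⟨some ⟨l, hl'⟩, rfl⟩
      · rintro ⟨o, rfl⟩
        cases o with
        | none => exact ⟨⟨b, Finset.mem_insert_self _ _⟩, rfl⟩
        | some l => exact ⟨⟨l.1, Finset.mem_insert_of_mem l.2⟩, rfl⟩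
    rw [h3]
  rw [h2]
  let Φ : (κ → ℤ) →ₗ[ℤ] ℤ := ∑ j, e j • LinearMap.proj j
  have hΦ : ∀ z, Φ z = pr z e := by
    intro z
    simp [Φ, LinearMap.sum_apply, pr, mul_comm]
  exact H37.SM.latIndex_insert v Φ (fun l => by rw [hΦ]; exact h0 l.1 l.2)
    (by rw [hΦ]; exact Or.inl h1)

theorem mulv_empty {Ω κ : Type} (φ : Ω → κ → ℤ) : mulv φ ∅ = 1 := by
  unfold mulv H22.latIndex
  rw [Nat.card_eq_one_iff_unique]
  refine ⟨⟨?_⟩, ⟨0⟩⟩
  have hr : Set.range (fun i : (∅ : Finset Ω) => φ i) = ∅ := by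
    ext z
    simp
  rw [hr, Submodule.span_empty]
  have key : ∀ x : Submodule.torsion ℤ ((κ → ℤ) ⧸ (⊥ : Submodule ℤ (κ → ℤ))), x = 0 := by
    rintro ⟨x, hx⟩
    obtain ⟨y, rfl⟩ := Submodule.Quotient.mk_surjective _ x
    rw [Submodule.mem_torsion_iff] at hx
    obtain ⟨k, hk⟩ := hx
    have h1 : (k : ℤ) • y ∈ (⊥ : Submodule ℤ (κ → ℤ)) := by
      rw [← Submodule.Quotient.mk_eq_zero, Submodule.Quotient.mk_smul]
      exact hk
    rw [Submodule.mem_bot] at h1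
    have hk0 : (k : ℤ) ≠ 0 := nonZeroDivisors.coe_ne_zero k
    have h2 : y = 0 := (smul_eq_zero.1 h1).resolve_left hk0
    apply Subtype.ext
    simp [h2]
  intro x y
  rw [key x, key y]

end Pool.Agent.H37.T5

end S_ZPYR

section S_ZABS

/-!
# ZABS: the abstract theorem

Proof.  For every critical `c` let `Λ^c` be as in `zlam` (unique, `zlam_unique`); `L` = the finite set of these `Λ^c`; for `Λ ∈ L` let `Cl Λ = {c : φ_ω(v_c) = 0 whenever Λ ω ≠ 0}` (critical by `zlam_pair`; contains the `c` with `Λ^c = Λ`), `S = {ω : Λ ω ≠ 0}`, `𝓕 Y = ∃ c ∈ Cl Λ, ∀ ω ∈ Y, φ_ω(v_c) = 0`.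
(1) For `Λ ∈ L` `zcom` with `J = JJ v φ A B h (Cl Λ)`, `x ω k = pr (φ ω) (e k)`, `μ T = (mulv φ T)^2` (`mulv_pyr`): `hS` as `φ_ω(v_c) = 0` for `ω ∈ S`, `c ∈ Cl Λ`; `hJ`: `σ ∈ TC X` with `c ∈ σ ∩ Cl` gives `𝓕 X`; `hrel` = `zid` (`hcl` by `zclu`: for `σ ∈ TC`, `c' ∈ σ ∩ Cl`, `c ∈ σ` critical, `c ∈ Cl`);
`hapS`: `1 = pr A (e k) + pr B (e k) s0 = ∑ Λ ω φ_ω(e k) = Λ b` for `Ap Y b k`, `S ⊆ Y`; `H` from the hypothesis `H` (`c ∈ Cl Λ`).
(2) For every `T`: `∑_{σ ∈ TT T} tmv σ = (regular: the σ without critical ray, `tm_regv`) + ∑_{Λ ∈ L} ∑_{σ ∈ TC (Cl Λ) T} tmv σ`: every `σ ∈ TT T` with a critical ray `c` belongs to exactly one `TC (Cl Λ) T`, `Λ ∈ L`: to `Λ = Λ^c`; if `c' ∈ σ ∩ Cl Λ'`, `Λ' = Λ^{c''} ∈ L`, then `zclu` (for `Λ'`, `c'`, and the critical `c`) gives `c ∈ Cl Λ'`, and `zlam_unique` at `c`: `Λ' = Λ^c`.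
`∑_{σ ∈ TC} tmv σ = mulv φ T * JJ T` (`mulv_ne`).  Sum over `T` with the signs and `mulv φ T`; `Reg.sum`, `Reg.mul`, `reg_natCast`.
-/

set_option autoImplicit false

namespace Pool.Agent.H37.T5

open Finset H60.RegTri

variable {ι κ Ω : Type} [Fintype ι] [DecidableEq ι] [Fintype κ] [DecidableEq κ] [Fintype Ω]
  [DecidableEq Ω] {v : ι → κ → ℤ} {φ : Ω → κ → ℤ} {A B : κ → ℤ} {s0 : ℂ}

open Classical in
/-- the cluster of `Λ` -/
private noncomputable def ZABS_Cl {ι κ Ω : Type} [Fintype ι] [Fintype κ] (v : ι → κ → ℤ)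
    (φ : Ω → κ → ℤ) (Λ : Ω → ℂ) : Finset ι :=
  univ.filter (fun c => ∀ ω, Λ ω ≠ 0 → pr (φ ω) (v c) = 0)

omit [DecidableEq ι] [DecidableEq κ] [Fintype Ω] [DecidableEq Ω] in
private theorem ZABS_mem {Λ : Ω → ℂ} {c : ι} :
    c ∈ ZABS_Cl v φ Λ ↔ ∀ ω, Λ ω ≠ 0 → pr (φ ω) (v c) = 0 := by
  simp [ZABS_Cl]

omit [DecidableEq ι] [DecidableEq κ] [DecidableEq Ω] in
private theorem ZABS_cr {Λ : Ω → ℂ} (hΛ : IsLam φ A B s0 Λ) {c : ι} (hc : c ∈ ZABS_Cl v φ Λ) :
    IsCr A B s0 (v c) := by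
  unfold IsCr
  rw [zlam_pair Λ hΛ (v c)]
  refine Finset.sum_eq_zero fun ω _ => ?_
  by_cases h : Λ ω = 0
  · rw [h, zero_mul]
  · rw [ZABS_mem.1 hc ω h, Int.cast_zero, mul_zero]

/-- the statement for one cluster -/
private theorem ZABS_one (hZ : ZS v φ A B s0) (h : ι → ℝ) (hgen : ∀ τ, GenericOn (vR v) h τ)
    (hp : Pull v φ A B s0 h) (Vt : Finset Ω) {E : Type} (e : E → κ → ℤ)
    (heA : ∀ k, pr A (e k) = 1) (heB : ∀ k, pr B (e k) = 0)
    (H : ∀ Λ : Ω → ℂ, IsLam φ A B s0 Λ → ∀ c : ι, IsCr A B s0 (v c) → ∀ Y : Finset Ω,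
      (∀ ω ∈ Y, pr (φ ω) (v c) = 0) → (∀ ω, Λ ω ≠ 0 → ω ∈ Y) →
      ∃ b k, Ap (fun ω k => pr (φ ω) (e k)) Vt Y b k ∧
        ∀ k', Ap (fun ω k => pr (φ ω) (e k)) Vt Y b k' → k' = k)
    (Λ : Ω → ℂ) (hΛ : IsLam φ A B s0 Λ) :
    H37.SM.Reg s0 (∑ T ∈ Vt.powerset, (-1) ^ T.card * (((mulv φ T) ^ 2 : ℕ) : RatFunc ℂ) *
      JJ v φ A B h (ZABS_Cl v φ Λ) T) := by
  classical
  have hCl : ∀ c ∈ ZABS_Cl v φ Λ, IsCr A B s0 (v c) := fun c hc => ZABS_cr hΛ hc
  have hcl : ∀ Ξ, ∀ σ ∈ TC v φ h (ZABS_Cl v φ Λ) Ξ, ∀ c ∈ σ, IsCr A B s0 (v c) → c ∈ ZABS_Cl v φ Λ := by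
    intro Ξ σ hσ c hcσ hc
    obtain ⟨hTT, c', hc'σ, hc'⟩ := mem_TC.1 hσ
    exact ZABS_mem.2 (zclu hZ h hp Λ hΛ Ξ σ hTT c' hc'σ (ZABS_mem.1 hc') c hcσ hc)
  refine zcom (S := univ.filter (fun ω => Λ ω ≠ 0)) (x := fun ω k => pr (φ ω) (e k))
    (𝓕 := fun Y => ∃ c ∈ ZABS_Cl v φ Λ, ∀ ω ∈ Y, pr (φ ω) (v c) = 0) ?_ ?_ ?_ ?_ ?_ ?_
    (fun T => (mulv φ T) ^ 2) ?_
  · rintro X Y hXY ⟨c, hc, hcY⟩
    exact ⟨c, hc, fun ω hω => hcY ω (hXY hω)⟩
  · rintro X ⟨c, hc, hcX⟩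
    refine ⟨c, hc, fun ω hω => ?_⟩
    rcases Finset.mem_union.1 hω with h1 | h1
    · exact hcX ω h1
    · exact ZABS_mem.1 hc ω (Finset.mem_filter.1 h1).2
  · intro X hX
    unfold JJ
    have h1 : TC v φ h (ZABS_Cl v φ Λ) X = ∅ := by
      rw [Finset.eq_empty_iff_forall_notMem]
      intro σ hσ
      obtain ⟨hTT, c, hcσ, hc⟩ := mem_TC.1 hσ
      exact hX ⟨c, hc, mem_Gx.1 ((mem_TT.1 hTT).1.1 hcσ)⟩
    rw [h1, Finset.sum_empty, mul_zero]
  · intro X k hX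
    exact zid hZ h hgen (ZABS_Cl v φ Λ) hCl hcl X (e k) hX (heA k) (heB k)
  · rintro Y hSY ⟨c, hc, hcY⟩ b k ⟨hbY, hbV, hb1, hb2⟩
    rw [Finset.mem_filter]
    refine ⟨Finset.mem_univ _, fun hb0 => ?_⟩
    have h1 := zlam_pair Λ hΛ (e k)
    rw [heA, heB] at h1
    have h2 : ∑ ω, Λ ω * (pr (φ ω) (e k) : ℂ) = 0 := by
      refine Finset.sum_eq_zero fun ω _ => ?_
      by_cases hω : Λ ω = 0
      · rw [hω, zero_mul]
      · have h3 : ω ∈ Y := hSY (Finset.mem_filter.2 ⟨Finset.mem_univ _, hω⟩)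
        have h4 : ω ≠ b := fun h5 => hω (by rw [h5]; exact hb0)
        have h5 : pr (φ ω) (e k) = 0 := hb2 ω h3 h4
        rw [h5, Int.cast_zero, mul_zero]
    rw [h2] at h1
    norm_num at h1
  · rintro Y hSY ⟨c, hc, hcY⟩
    exact H Λ hΛ c (hCl c hc) Y hcY (fun ω hω => hSY (Finset.mem_filter.2 ⟨Finset.mem_univ _, hω⟩))
  · intro T b k hbT hb1 hT0
    show mulv φ (insert b T) ^ 2 = mulv φ T ^ 2
    rw [mulv_pyr φ T b hbT (e k) hT0 hb1]

private theorem ZABS_neg_one (n : ℕ) : H37.SM.Reg s0 ((-1 : RatFunc ℂ) ^ n) := by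
  have h := H37.SM.reg_intCast (s0 := s0) ((-1) ^ n)
  push_cast at h
  exact h

/-- ZABS -/
theorem zabs (hZ : ZS v φ A B s0) (h : ι → ℝ) (hgen : ∀ τ, GenericOn (vR v) h τ)
    (hp : Pull v φ A B s0 h) (Vt : Finset Ω) {E : Type} (e : E → κ → ℤ)
    (heA : ∀ k, pr A (e k) = 1) (heB : ∀ k, pr B (e k) = 0)
    (H : ∀ Λ : Ω → ℂ, IsLam φ A B s0 Λ → ∀ c : ι, IsCr A B s0 (v c) → ∀ Y : Finset Ω,
      (∀ ω ∈ Y, pr (φ ω) (v c) = 0) → (∀ ω, Λ ω ≠ 0 → ω ∈ Y) →
      ∃ b k, Ap (fun ω k => pr (φ ω) (e k)) Vt Y b k ∧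
        ∀ k', Ap (fun ω k => pr (φ ω) (e k)) Vt Y b k' → k' = k) :
    H37.SM.Reg s0 (∑ T ∈ Vt.powerset,
      (-1) ^ T.card * (mulv φ T : RatFunc ℂ) * ∑ σ ∈ TT v φ h T, tmv A B v σ) := by
  classical
  -- the expansions
  have hex : ∀ c : ι, ∃ Λ : Ω → ℂ, IsCr A B s0 (v c) →
      IsLam φ A B s0 Λ ∧ ∀ ω, Λ ω ≠ 0 → pr (φ ω) (v c) = 0 := by
    intro c
    by_cases hc : IsCr A B s0 (v c)
    · obtain ⟨Λ, h1⟩ := zlam hZ c hc
      exact ⟨Λ, fun _ => h1⟩
    · exact ⟨0, fun h1 => absurd h1 hc⟩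
  choose Lc hLc using hex
  set L : Finset (Ω → ℂ) := (univ.filter (fun c => IsCr A B s0 (v c))).image Lc with hL
  have hLlam : ∀ Λ ∈ L, IsLam φ A B s0 Λ := by
    intro Λ hΛ
    obtain ⟨c, hc, rfl⟩ := Finset.mem_image.1 hΛ
    exact (hLc c (Finset.mem_filter.1 hc).2).1
  -- the decomposition for one set of functionals
  have hdec : ∀ T : Finset Ω, H37.SM.Reg s0 (∑ σ ∈ TT v φ h T, tmv A B v σ -
      ∑ Λ ∈ L, (mulv φ T : RatFunc ℂ) * JJ v φ A B h (ZABS_Cl v φ Λ) T) := by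
    intro T
    have h1 : ∀ Λ ∈ L, (mulv φ T : RatFunc ℂ) * JJ v φ A B h (ZABS_Cl v φ Λ) T =
        ∑ σ ∈ TT v φ h T, if ∃ c ∈ σ, c ∈ ZABS_Cl v φ Λ then tmv A B v σ else 0 := by
      intro Λ _
      have hm : (mulv φ T : RatFunc ℂ) ≠ 0 := Nat.cast_ne_zero.mpr (mulv_ne φ T)
      unfold JJ
      rw [← mul_assoc, mul_inv_cancel₀ hm, one_mul, ← Finset.sum_filter]
      refine Finset.sum_congr ?_ fun _ _ => rfl
      ext σ
      rw [mem_TC, Finset.mem_filter]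
    rw [Finset.sum_congr rfl h1, Finset.sum_comm, ← Finset.sum_sub_distrib]
    refine H37.SM.Reg.sum _ _ fun σ hσ => ?_
    by_cases hcr : ∃ c ∈ σ, IsCr A B s0 (v c)
    · obtain ⟨c, hcσ, hc⟩ := hcr
      have h2 : ∑ Λ ∈ L, (if ∃ c ∈ σ, c ∈ ZABS_Cl v φ Λ then tmv A B v σ else 0) = tmv A B v σ := by
        rw [Finset.sum_eq_single (Lc c)]
        · rw [if_pos ⟨c, hcσ, ZABS_mem.2 (hLc c hc).2⟩]
        · intro Λ hΛ hne
          rw [if_neg]
          rintro ⟨c', hc'σ, hc'⟩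
          apply hne
          exact zlam_unique hZ c hc Λ (Lc c) (hLlam Λ hΛ) (hLc c hc).1
            (zclu hZ h hp Λ (hLlam Λ hΛ) T σ hσ c' hc'σ (ZABS_mem.1 hc') c hcσ hc) (hLc c hc).2
        · intro hn
          exact absurd (Finset.mem_image.2 ⟨c, Finset.mem_filter.2 ⟨Finset.mem_univ _, hc⟩, rfl⟩) hn
      rw [h2, sub_self]
      exact H37.SM.reg_zero
    · have h2 : ∑ Λ ∈ L, (if ∃ c ∈ σ, c ∈ ZABS_Cl v φ Λ then tmv A B v σ else 0) = 0 := by
        refine Finset.sum_eq_zero fun Λ hΛ => ?_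
        rw [if_neg]
        rintro ⟨c', hc'σ, hc'⟩
        exact hcr ⟨c', hc'σ, ZABS_cr (hLlam Λ hΛ) hc'⟩
      rw [h2, sub_zero]
      unfold tmv
      exact (H37.SM.reg_natCast _).mul (tm_regv hZ σ fun i hi hcr' => hcr ⟨i, hi, hcr'⟩)
  have key : ∑ T ∈ Vt.powerset,
      (-1) ^ T.card * (mulv φ T : RatFunc ℂ) * ∑ σ ∈ TT v φ h T, tmv A B v σ =
      ∑ T ∈ Vt.powerset, (-1) ^ T.card * (mulv φ T : RatFunc ℂ) *
        (∑ σ ∈ TT v φ h T, tmv A B v σ -
          ∑ Λ ∈ L, (mulv φ T : RatFunc ℂ) * JJ v φ A B h (ZABS_Cl v φ Λ) T) +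
      ∑ Λ ∈ L, ∑ T ∈ Vt.powerset, (-1) ^ T.card * (((mulv φ T) ^ 2 : ℕ) : RatFunc ℂ) *
        JJ v φ A B h (ZABS_Cl v φ Λ) T := by
    rw [Finset.sum_comm (s := L), ← Finset.sum_add_distrib]
    refine Finset.sum_congr rfl fun T _ => ?_
    have h1 : ∑ Λ ∈ L, (-1) ^ T.card * (((mulv φ T) ^ 2 : ℕ) : RatFunc ℂ) *
        JJ v φ A B h (ZABS_Cl v φ Λ) T = (-1) ^ T.card * (mulv φ T : RatFunc ℂ) *
        ∑ Λ ∈ L, (mulv φ T : RatFunc ℂ) * JJ v φ A B h (ZABS_Cl v φ Λ) T := by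
      rw [Finset.mul_sum]
      refine Finset.sum_congr rfl fun Λ _ => ?_
      push_cast
      ring
    rw [h1]
    ring
  rw [key]
  refine H37.SM.Reg.add (H37.SM.Reg.sum _ _ fun T _ => ?_) (H37.SM.Reg.sum _ _ fun Λ hΛ => ?_)
  · exact ((ZABS_neg_one _).mul (H37.SM.reg_natCast _)).mul (hdec T)
  · exact ZABS_one hZ h hgen hp Vt e heA heB H Λ (hLlam Λ hΛ)

end Pool.Agent.H37.T5

end S_ZABS
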