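import Mathlib
import Pool.Agent.H37.T5.FDefs
import Pool.Agent.H56.SMC.ZNDefs
import Pool.Agent.H56.SN.V1

/-! Strong monodromy, simplicial critical facets, part V3: this file joins the modules ZCD, ZSVA, ZSV, ZSD, ZVX, ZGN, ZFBA, ZFBB, ZFB, ZZS. -/

set_option autoImplicit false

section S_ZCD

/-!
# The zeta side: the concrete setting

Rays: the elements of `R` (as `(-N(w); w)`) and `(1; 0)`, in `ℤ^{1+n}`; functionals `(1, a_i)` for
the vertices `a_i` and `(0, e_j)`; `V(x) = ∑ x_j - x_0 s`.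
-/

set_option autoImplicit false

namespace Pool.Agent.H37.T5

open Finset H60.RegTri
open Pool.Agent.H56.SMC

/-- The vertices of the Newton polyhedron. -/
def Vx {n r : ℕ} (a : Fin r → (Fin n →₀ ℕ)) : Type := {i : Fin r // H22.IsFace a {i}}

open Classical in
noncomputable instance {n r : ℕ} (a : Fin r → (Fin n →₀ ℕ)) : Fintype (Vx a) :=
  inferInstanceAs (Fintype {i : Fin r // H22.IsFace a {i}})

instance {n r : ℕ} (a : Fin r → (Fin n →₀ ℕ)) : DecidableEq (Vx a) :=
  inferInstanceAs (DecidableEq {i : Fin r // H22.IsFace a {i}})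

/-- The index set of the functionals. -/
abbrev OmT {n r : ℕ} (a : Fin r → (Fin n →₀ ℕ)) : Type := Vx a ⊕ Fin n

/-- The functionals. -/
def ph {n r : ℕ} (a : Fin r → (Fin n →₀ ℕ)) : OmT a → Unit ⊕ Fin n → ℤ :=
  Sum.elim (fun i => H22.homRow a i.1) (fun j => Sum.elim (fun _ => 0) (Pi.single j 1))

/-- The vector `(-N(w); w)`. -/
noncomputable def lf {n r : ℕ} (a : Fin r → (Fin n →₀ ℕ)) (w : Fin n → ℕ) : Unit ⊕ Fin n → ℤ :=
  Sum.elim (fun _ => -(H22.wmin a w : ℤ)) (fun j => (w j : ℤ))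

/-- The vector `(1; 0)`. -/
def rho {n : ℕ} : Unit ⊕ Fin n → ℤ := Sum.elim (fun _ => 1) (fun _ => 0)

/-- The rays. -/
noncomputable def vv {n r : ℕ} (a : Fin r → (Fin n →₀ ℕ)) (R : Finset (Fin n → ℕ)) :
    Option R → Unit ⊕ Fin n → ℤ := fun o => o.elim rho (fun w => lf a w.1)

/-- The constant part of `V`. -/
def AA {n : ℕ} : Unit ⊕ Fin n → ℤ := Sum.elim (fun _ => 0) (fun _ => 1)

/-- The linear part of `V`. -/
def BB {n : ℕ} : Unit ⊕ Fin n → ℤ := Sum.elim (fun _ => -1) (fun _ => 0)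

/-- The direction `(0; e_k)`. -/
def eD {n : ℕ} (k : Fin n) : Unit ⊕ Fin n → ℤ := Sum.elim (fun _ => 0) (Pi.single k 1)

/-- The vertices in `τ`. -/
noncomputable def vt {n r : ℕ} (a : Fin r → (Fin n →₀ ℕ)) (τ : Finset (Fin r)) : Finset (Vx a) :=
  univ.filter (fun i => i.1 ∈ τ)

open Classical in
/-- The exponents in the convex hull of `T`. -/
noncomputable def cls {n r : ℕ} (a : Fin r → (Fin n →₀ ℕ)) (T : Finset (Vx a)) :
    Finset (Fin r) :=
  univ.filter (fun i => H22.pointR a i ∈ convexHull ℝ {x | ∃ t ∈ T, x = H22.pointR a t.1})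

/-- A set of vertices as a set of functionals. -/
def inL {n r : ℕ} {a : Fin r → (Fin n →₀ ℕ)} (T : Finset (Vx a)) : Finset (OmT a) :=
  T.map ⟨Sum.inl, Sum.inl_injective⟩

/-- `J_T`. -/
noncomputable def JT {n r : ℕ} (a : Fin r → (Fin n →₀ ℕ)) (R : Finset (Fin n → ℕ))
    (h : Option R → ℝ) (T : Finset (Vx a)) : RatFunc ℂ :=
  ∑ σ ∈ TT (vv a R) (ph a) h (inL T), tmv AA BB (vv a R) σ

/-- The configuration of the rays of `R` in `ℝ^n`, and zero. -/
def rv0 {n : ℕ} (R : Finset (Fin n → ℕ)) : Option R → Fin n → ℝ :=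
  fun o => o.elim (fun _ => 0) (rv R)

section
variable {n r : ℕ} {a : Fin r → (Fin n →₀ ℕ)}

theorem vt_mem {τ : Finset (Fin r)} {i : Vx a} : i ∈ vt a τ ↔ i.1 ∈ τ := by
  simp [vt]

theorem mem_cls {T : Finset (Vx a)} {i : Fin r} : i ∈ cls a T ↔
    H22.pointR a i ∈ convexHull ℝ {x | ∃ t ∈ T, x = H22.pointR a t.1} := by
  simp [cls]

theorem pr_AA_lf (w : Fin n → ℕ) : pr AA (lf a w) = (H22.wsum w : ℤ) := by
  simp [pr, AA, lf, H22.wsum, Fintype.sum_sum_type]

theorem pr_BB_lf (w : Fin n → ℕ) : pr BB (lf a w) = (H22.wmin a w : ℤ) := by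
  simp [pr, BB, lf, Fintype.sum_sum_type]

theorem pr_AA_rho : pr (AA : Unit ⊕ Fin n → ℤ) rho = 0 := by
  simp [pr, AA, rho, Fintype.sum_sum_type]

theorem pr_BB_rho : pr (BB : Unit ⊕ Fin n → ℤ) rho = -1 := by
  simp [pr, BB, rho, Fintype.sum_sum_type]

theorem pr_AA_eD (k : Fin n) : pr AA (eD k) = 1 := by
  simp [pr, AA, eD, Fintype.sum_sum_type]

theorem pr_BB_eD (k : Fin n) : pr BB (eD k) = 0 := by
  simp [pr, BB, eD, Fintype.sum_sum_type]

theorem pr_inl_lf (i : Vx a) (w : Fin n → ℕ) :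
    pr (ph a (Sum.inl i)) (lf a w) = (∑ j, a i.1 j * w j : ℕ) - (H22.wmin a w : ℤ) := by
  simp [pr, ph, lf, H22.homRow, Fintype.sum_sum_type]
  ring

theorem pr_inr_lf (j : Fin n) (w : Fin n → ℕ) : pr (ph a (Sum.inr j)) (lf a w) = w j := by
  simp [pr, ph, lf, Fintype.sum_sum_type, Pi.single_apply]

theorem pr_inl_rho (i : Vx a) : pr (ph a (Sum.inl i)) rho = 1 := by
  simp [pr, ph, rho, H22.homRow, Fintype.sum_sum_type]

theorem pr_inr_rho (j : Fin n) : pr (ph a (Sum.inr j)) rho = 0 := by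
  simp [pr, ph, rho, Fintype.sum_sum_type]

theorem pr_inl_eD (i : Vx a) (k : Fin n) : pr (ph a (Sum.inl i)) (eD k) = a i.1 k := by
  simp [pr, ph, eD, H22.homRow, Fintype.sum_sum_type, Pi.single_apply]

theorem pr_inr_eD (j k : Fin n) : pr (ph a (Sum.inr j)) (eD k) = if j = k then 1 else 0 := by
  simp only [pr, ph, eD, Fintype.sum_sum_type, Sum.elim_inr, Sum.elim_inl, Pi.single_apply]
  by_cases h : j = k <;> simp [h, eq_comm]

theorem VL_lf (w : Fin n → ℕ) : VL AA BB (lf a w) = WW a w := by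
  rw [VL, pr_AA_lf, pr_BB_lf, WW]
  push_cast
  rfl

theorem VL_rho : VL (AA : Unit ⊕ Fin n → ℤ) BB rho = -RatFunc.X := by
  rw [VL, pr_AA_rho, pr_BB_rho]
  push_cast
  ring

theorem IsCr_rho (s0 : ℂ) : IsCr (AA : Unit ⊕ Fin n → ℤ) BB s0 rho ↔ s0 = 0 := by
  rw [IsCr, pr_AA_rho, pr_BB_rho]
  push_cast
  constructor
  · intro h
    linear_combination -h
  · intro h
    rw [h]; ring

theorem IsCr_lf (s0 : ℂ) (w : Fin n → ℕ) (hw : FacetNormal a w) :
    IsCr AA BB s0 (lf a w) ↔ CritW a s0 w := by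
  rw [IsCr, pr_AA_lf, pr_BB_lf, CritW]
  push_cast
  have hsum : H22.wsum w ≠ 0 := by
    intro h
    apply hw.1
    funext j
    have h1 : ∑ j, w j = 0 := h
    exact (Finset.sum_eq_zero_iff.1 h1) j (mem_univ j)
  constructor
  · intro h
    have h1 : 0 < H22.wmin a w := by
      rcases Nat.eq_zero_or_pos (H22.wmin a w) with h0 | h0
      · rw [h0] at h
        push_cast at h
        rw [zero_mul, add_zero] at h
        exact absurd (by exact_mod_cast h) hsum
      · exact h0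
    have h2 : (H22.wmin a w : ℂ) ≠ 0 := by exact_mod_cast h1.ne'
    refine ⟨hw, h1, ?_⟩
    rw [eq_div_iff h2]
    linear_combination h
  · rintro ⟨-, h1, h2⟩
    have h3 : (H22.wmin a w : ℂ) ≠ 0 := by exact_mod_cast h1.ne'
    rw [h2]
    field_simp
    ring

end

end Pool.Agent.H37.T5

end S_ZCD

section S_ZSVA

/-!
# ZSVA: simplicial facets: independence

`w` a facet normal, `σ` as in `SimpF`.  (1) `zsv_ind`: the span in `FacetNormal` is spanned by the `(1, a_b)`, `b ∈ σ`, and the `(0, e_j)`, `w_j = 0` (every `(1, a_i)`, `i` on the face, is a convex combination of the `(1, a_b)`), `|σ| + #{w_j = 0} = supCard w + (n - supCard w) = n` vectors spanning a space of dimension `n`: independent.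
-/

set_option autoImplicit false

namespace Pool.Agent.H37.T5

open Finset H60.RegTri
open Pool.Agent.H56.SMC

variable {n r : ℕ} (a : Fin r → (Fin n →₀ ℕ))

theorem ZSVA_hull (σ : Finset (Fin r)) (x : Fin n → ℝ)
    (hx : x ∈ convexHull ℝ (H22.pointR a '' (σ : Set (Fin r))))
    (M : Submodule ℝ (Unit ⊕ Fin n → ℝ)) (hM : ∀ b ∈ σ, H22.rowR a b ∈ M) :
    (Sum.elim (fun _ => 1) x : Unit ⊕ Fin n → ℝ) ∈ M := by
  have hconvex : Convex ℝ {x : Fin n → ℝ | (Sum.elim (fun _ => 1) x : Unit ⊕ Fin n → ℝ) ∈ M} := by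
    intro x hx y hy s t _ _ hst
    have h1 : (Sum.elim (fun _ => 1) (s • x + t • y) : Unit ⊕ Fin n → ℝ) =
        s • (Sum.elim (fun _ => 1) x : Unit ⊕ Fin n → ℝ) +
          t • (Sum.elim (fun _ => 1) y : Unit ⊕ Fin n → ℝ) := by
      funext k
      rcases k with k | k
      · simp [hst]
      · simp
    show (Sum.elim (fun _ => 1) (s • x + t • y) : Unit ⊕ Fin n → ℝ) ∈ M
    rw [h1]
    exact M.add_mem (M.smul_mem _ hx) (M.smul_mem _ hy)
  refine convexHull_min ?_ hconvex hx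
  rintro _ ⟨b, hb, rfl⟩
  exact hM b hb

/-- ZSV -/
theorem zsv_ind (w : Fin n → ℕ) (hw : FacetNormal a w) (σ : Finset (Fin r))
    (hc : σ.card = supCard w) (hon : ∀ b ∈ σ, ∑ j, a b j * w j = H22.wmin a w)
    (hconv : ∀ i, ∑ j, a i j * w j = H22.wmin a w →
      H22.pointR a i ∈ convexHull ℝ (H22.pointR a '' (σ : Set (Fin r)))) :
    LinearIndependent ℝ (Sum.elim (fun b : σ => H22.rowR a b.1)
      (fun j : {j : Fin n // w j = 0} => (eR j.1 : Unit ⊕ Fin n → ℝ))) := by
  rw [linearIndependent_iff_card_eq_finrank_span]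
  have hcard : Fintype.card (σ ⊕ {j : Fin n // w j = 0}) = n := by
    rw [Fintype.card_sum, Fintype.card_coe, hc, supCard, Fintype.card_subtype]
    have h1 := Finset.card_filter_add_card_filter_not (s := (univ : Finset (Fin n))) (fun j => w j ≠ 0)
    rw [Finset.card_univ, Fintype.card_fin] at h1
    simp only [not_not] at h1
    exact h1
  rw [hcard]
  have h2 := hw.2
  have hspan : Submodule.span ℝ (Set.range (Sum.elim (fun b : σ => H22.rowR a b.1)
      (fun j : {j : Fin n // w j = 0} => (eR j.1 : Unit ⊕ Fin n → ℝ)))) =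
      Submodule.span ℝ
    ({y | ∃ i, ∑ j, a i j * w j = H22.wmin a w ∧ y = H22.rowR a i} ∪
      {y | ∃ j, w j = 0 ∧ y = Sum.elim (fun _ => 0) (Pi.single j 1)} :
        Set (Unit ⊕ Fin n → ℝ)) := by
    apply le_antisymm
    · rw [Submodule.span_le]
      rintro _ ⟨k, rfl⟩
      rcases k with b | j
      · exact Submodule.subset_span (Or.inl ⟨b.1, hon b.1 b.2, rfl⟩)
      · exact Submodule.subset_span (Or.inr ⟨j.1, j.2, rfl⟩)
    · rw [Submodule.span_le]
      rintro y (⟨i, hi, rfl⟩ | ⟨j, hj, rfl⟩)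
      · exact ZSVA_hull a σ (H22.pointR a i) (hconv i hi) _
          (fun b hb => Submodule.subset_span ⟨Sum.inl ⟨b, hb⟩, rfl⟩)
      · exact Submodule.subset_span ⟨Sum.inr ⟨j, hj⟩, rfl⟩
  rw [Set.finrank, hspan, h2]

end Pool.Agent.H37.T5

end S_ZSVA

section S_ZSV

/-!
# ZSV: simplicial facets: vertices

`w` a facet normal, `σ` as in `SimpF`.  (1) `zsv_ind`: the span in `FacetNormal` is spanned by the `(1, a_b)`, `b ∈ σ`, and the `(0, e_j)`, `w_j = 0` (every `(1, a_i)`, `i` on the face, is a convex combination of the `(1, a_b)`), `|σ| + #{w_j = 0} = supCard w + (n - supCard w) = n` vectors spanning a space of dimension `n`: independent.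
(2) `zsv_mem`: `i` on the face with `IsFace a {i}`: with weight `k`, `a_i·k < a_l·k` for `l ≠ i`; `a_i = ∑ θ_b a_b` (`θ ≥ 0`, sum `1`): `a_i·k = ∑ θ_b a_b·k`, so `θ_b = 0` for `b ≠ i`, and `i ∈ σ`.  Conversely `b ∈ σ`: by (1) there is a real `y ∈ ℝ^{1+n}` with `(1,a_b)·y = 0`, `(1,a_b')·y = 1` for the other `b' ∈ σ`, `y_j = 1` for `w_j = 0`
(independent functionals); add a large multiple of `(-N(w); w)`: then moreover `(1,a_i)·y > 0` for `i` off the face and `y_j > 0` for all `j` with `w_j > 0`.  For `i` on the face `(1,a_i)·y = ∑ θ_b' (1,a_b')·y ≥ 0` with equality only if `a_i = a_b`, `i = b` (`ha`).  So the weight `k_j = y_j ≥ 0` has the unique minimiser `b`.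
-/

set_option autoImplicit false

namespace Pool.Agent.H37.T5

open Finset H60.RegTri
open Pool.Agent.H56.SMC

variable {n r : ℕ} (a : Fin r → (Fin n →₀ ℕ))

/-- a functional with prescribed values on an independent family -/
theorem ZSV_functional {ι κ : Type} [Fintype κ] [DecidableEq κ] (v : ι → κ → ℝ)
    (hv : LinearIndependent ℝ v)
    (c : ι → ℝ) : ∃ y : κ → ℝ, ∀ i, ∑ j, v i j * y j = c i := by
  obtain ⟨g, hg⟩ := LinearMap.exists_extend
    ((Finsupp.linearCombination ℝ c) ∘ₗ (hv.repr : _ →ₗ[ℝ] (ι →₀ ℝ)))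
  refine ⟨fun j => g (fun j' => if j = j' then 1 else 0), fun i => ?_⟩
  have h1 := LinearMap.pi_apply_eq_sum_univ g (v i)
  have h2 : g (v i) = c i := by
    have h3 := LinearMap.congr_fun hg ⟨v i, Submodule.subset_span ⟨i, rfl⟩⟩
    simp only [LinearMap.comp_apply, Submodule.subtype_apply] at h3
    rw [h3, hv.repr_eq_single i ⟨v i, Submodule.subset_span ⟨i, rfl⟩⟩ rfl]
    simp
  rw [← h2, h1]
  simp [smul_eq_mul]

theorem ZSV_wmin_le (w : Fin n → ℕ) (l : Fin r) : H22.wmin a w ≤ ∑ j, a l j * w j :=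
  ciInf_le (OrderBot.bddBelow _) l

theorem zsv_mem (ha : Function.Injective a) (w : Fin n → ℕ) (hw : FacetNormal a w)
    (σ : Finset (Fin r))
    (hc : σ.card = supCard w) (hon : ∀ b ∈ σ, ∑ j, a b j * w j = H22.wmin a w)
    (hconv : ∀ i, ∑ j, a i j * w j = H22.wmin a w →
      H22.pointR a i ∈ convexHull ℝ (H22.pointR a '' (σ : Set (Fin r)))) (i : Fin r) :
    (∑ j, a i j * w j = H22.wmin a w ∧ H22.IsFace a {i}) ↔ i ∈ σ := by
  constructor
  · rintro ⟨h1, k, hk0, hk⟩
    by_contra hi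
    have hmin := (hk i).1 (mem_singleton_self i)
    have hC : Convex ℝ {y : Fin n → ℝ | ∑ j, (a i j : ℝ) * k j < ∑ j, y j * k j} := by
      intro y hy z hz α β hα hβ hαβ
      simp only [Set.mem_ofPred_eq, Pi.add_apply, Pi.smul_apply, smul_eq_mul] at hy hz ⊢
      have e : ∑ j, (α * y j + β * z j) * k j = α * ∑ j, y j * k j + β * ∑ j, z j * k j := by
        rw [mul_sum, mul_sum, ← sum_add_distrib]
        exact sum_congr rfl fun j _ => by ring
      rw [e]
      rcases hα.eq_or_lt with h0 | h0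
      · have hb1 : β = 1 := by linarith
        rw [← h0, hb1]
        linarith
      · have h2 : α * ∑ j, (a i j : ℝ) * k j < α * ∑ j, y j * k j := mul_lt_mul_of_pos_left hy h0
        have h3 : β * ∑ j, (a i j : ℝ) * k j ≤ β * ∑ j, z j * k j :=
          mul_le_mul_of_nonneg_left hz.le hβ
        have h4 : ∑ j, (a i j : ℝ) * k j = α * ∑ j, (a i j : ℝ) * k j +
            β * ∑ j, (a i j : ℝ) * k j := by
          rw [← add_mul, hαβ, one_mul]
        linarith
    have hsub : H22.pointR a '' (σ : Set (Fin r)) ⊆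
        {y : Fin n → ℝ | ∑ j, (a i j : ℝ) * k j < ∑ j, y j * k j} := by
      rintro _ ⟨b, hb, rfl⟩
      have hbi : b ≠ i := fun h => hi (h ▸ hb)
      have h2 : ¬ ∀ l', ∑ j, (a b j : ℝ) * k j ≤ ∑ j, (a l' j : ℝ) * k j := by
        rw [← hk b]
        simpa using hbi
      push Not at h2
      obtain ⟨l', hl'⟩ := h2
      exact lt_of_le_of_lt (hmin l') hl'
    have h3 := convexHull_min hsub hC (hconv i h1)
    exact lt_irrefl (∑ j, (a i j : ℝ) * k j) h3
  · intro hi
    refine ⟨hon i hi, ?_⟩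
    classical
    obtain ⟨y, hy⟩ := ZSV_functional _ (zsv_ind a w hw σ hc hon hconv)
      (Sum.elim (fun b : σ => if b.1 = i then 0 else 1) (fun _ => 1))
    have hyb : ∀ b ∈ σ, y (Sum.inl ()) + ∑ j, (a b j : ℝ) * y (Sum.inr j) =
        if b = i then 0 else 1 := by
      intro b hb
      have h1 := hy (Sum.inl ⟨b, hb⟩)
      simpa [H22.rowR, Fintype.sum_sum_type] using h1
    have hyj : ∀ j, w j = 0 → y (Sum.inr j) = 1 := by
      intro j hj
      have h1 := hy (Sum.inr ⟨j, hj⟩)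
      simpa [eR, Fintype.sum_sum_type, Pi.single_apply] using h1
    set g : (Fin n → ℝ) → ℝ := fun z => y (Sum.inl ()) + ∑ j, z j * y (Sum.inr j) with hg
    have hgc : ∀ (z z' : Fin n → ℝ) (α β : ℝ), α + β = 1 →
        g (α • z + β • z') = α * g z + β * g z' := by
      intro z z' α β hαβ
      simp only [hg, Pi.add_apply, Pi.smul_apply, smul_eq_mul]
      have e : ∑ j, (α * z j + β * z' j) * y (Sum.inr j) =
          α * ∑ j, z j * y (Sum.inr j) + β * ∑ j, z' j * y (Sum.inr j) := by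
        rw [mul_sum, mul_sum, ← sum_add_distrib]
        exact sum_congr rfl fun j _ => by ring
      rw [e]
      linear_combination (-y (Sum.inl ())) * hαβ
    have hC : Convex ℝ {z : Fin n → ℝ | 0 ≤ g z ∧ (g z = 0 → z = H22.pointR a i)} := by
      intro z hz z' hz' α β hα hβ hαβ
      simp only [Set.mem_ofPred_eq] at hz hz' ⊢
      rw [hgc z z' α β hαβ]
      refine ⟨add_nonneg (mul_nonneg hα hz.1) (mul_nonneg hβ hz'.1), fun h => ?_⟩
      have h1 : α * g z = 0 := by nlinarith [mul_nonneg hα hz.1, mul_nonneg hβ hz'.1]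
      have h2 : β * g z' = 0 := by nlinarith [mul_nonneg hα hz.1, mul_nonneg hβ hz'.1]
      rcases mul_eq_zero.1 h1 with h3 | h3
      · have hb1 : β = 1 := by linarith
        rw [h3, hb1, zero_smul, one_smul, zero_add]
        rw [hb1, one_mul] at h2
        exact hz'.2 h2
      · rcases mul_eq_zero.1 h2 with h4 | h4
        · have ha1 : α = 1 := by linarith
          rw [h4, ha1, zero_smul, one_smul, add_zero]
          exact hz.2 h3
        · rw [hz.2 h3, hz'.2 h4, ← add_smul, hαβ, one_smul]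
    have hsub : H22.pointR a '' (σ : Set (Fin r)) ⊆
        {z : Fin n → ℝ | 0 ≤ g z ∧ (g z = 0 → z = H22.pointR a i)} := by
      rintro _ ⟨b, hb, rfl⟩
      have h1 : g (H22.pointR a b) = if b = i then 0 else 1 := hyb b hb
      simp only [Set.mem_ofPred_eq]
      rw [h1]
      by_cases hbi : b = i
      · rw [if_pos hbi, hbi]
        exact ⟨le_rfl, fun _ => rfl⟩
      · rw [if_neg hbi]
        exact ⟨zero_le_one, fun h => absurd h one_ne_zero⟩
    have hface : ∀ l, ∑ j, a l j * w j = H22.wmin a w →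
        0 ≤ g (H22.pointR a l) ∧ (g (H22.pointR a l) = 0 → l = i) := by
      intro l hl
      have h1 := convexHull_min hsub hC (hconv l hl)
      refine ⟨h1.1, fun h => ha ?_⟩
      have h2 := h1.2 h
      ext j
      have h3 := congrFun h2 j
      simpa [H22.pointR] using h3
    -- the large multiple
    set T : ℝ := (∑ j, |y (Sum.inr j)|) + (∑ l, |g (H22.pointR a l)|) + 1 with hT
    have hTj : ∀ j, |y (Sum.inr j)| ≤ T := by
      intro j
      have h1 : |y (Sum.inr j)| ≤ ∑ j, |y (Sum.inr j)| :=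
        single_le_sum (f := fun j => |y (Sum.inr j)|) (fun j _ => abs_nonneg _) (mem_univ j)
      have h2 : 0 ≤ ∑ l, |g (H22.pointR a l)| := sum_nonneg fun l _ => abs_nonneg _
      linarith
    have hTl : ∀ l, |g (H22.pointR a l)| < T := by
      intro l
      have h1 : |g (H22.pointR a l)| ≤ ∑ l, |g (H22.pointR a l)| :=
        single_le_sum (f := fun l => |g (H22.pointR a l)|) (fun j _ => abs_nonneg _) (mem_univ l)
      have h2 : 0 ≤ ∑ j, |y (Sum.inr j)| := sum_nonneg fun l _ => abs_nonneg _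
      linarith
    have hf : ∀ l, ∑ j, (a l j : ℝ) * (y (Sum.inr j) + T * w j) =
        g (H22.pointR a l) - y (Sum.inl ()) + T * ((∑ j, a l j * w j : ℕ) : ℝ) := by
      intro l
      simp only [hg, H22.pointR]
      push_cast
      rw [mul_sum, add_sub_cancel_left, ← sum_add_distrib]
      exact sum_congr rfl fun j _ => by ring
    refine ⟨fun j => y (Sum.inr j) + T * w j, fun j => ?_, fun l => ?_⟩
    · rcases Nat.eq_zero_or_pos (w j) with h0 | h0
      · show 0 ≤ y (Sum.inr j) + T * w j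
        rw [hyj j h0, h0]
        norm_num
      · have h1 : (1:ℝ) ≤ w j := by exact_mod_cast h0
        have h2 := hTj j
        have h3 : 0 ≤ T := (abs_nonneg _).trans h2
        have h4 : T * 1 ≤ T * w j := mul_le_mul_of_nonneg_left h1 h3
        have h5 := neg_abs_le (y (Sum.inr j))
        show 0 ≤ y (Sum.inr j) + T * w j
        linarith
    · have hgi : g (H22.pointR a i) = 0 := by
        have := hyb i hi
        rw [if_pos rfl] at this
        exact this
      have hgap : ∀ l, ∑ j, a l j * w j ≠ H22.wmin a w →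
          0 < g (H22.pointR a l) + T * ((∑ j, a l j * w j : ℕ) : ℝ) - T * (H22.wmin a w : ℝ) := by
        intro l hl
        have h1 : H22.wmin a w + 1 ≤ ∑ j, a l j * w j := by
          have := ZSV_wmin_le a w l
          omega
        have h2 : ((H22.wmin a w : ℝ)) + 1 ≤ ((∑ j, a l j * w j : ℕ) : ℝ) := by exact_mod_cast h1
        have h3 := hTl l
        have h4 : 0 ≤ T := (abs_nonneg _).trans h3.le
        have h5 := neg_abs_le (g (H22.pointR a l))
        have h6 := mul_le_mul_of_nonneg_left h2 h4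
        linarith
      rw [mem_singleton]
      constructor
      · intro hl l'
        rw [hl, hf i, hf l', hgi, hon i hi]
        by_cases h1 : ∑ j, a l' j * w j = H22.wmin a w
        · rw [h1]
          linarith [(hface l' h1).1]
        · linarith [hgap l' h1]
      · intro hl
        have h1 := hl i
        rw [hf l, hf i, hgi, hon i hi] at h1
        by_cases h2 : ∑ j, a l j * w j = H22.wmin a w
        · rw [h2] at h1
          have h3 := hface l h2
          exact h3.2 (le_antisymm (by linarith) h3.1)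
        · exfalso
          linarith [hgap l h2]

end Pool.Agent.H37.T5

end S_ZSV

section S_ZSD

/-!
# ZSD: the functionals vanishing at a critical ray

`σ` from `SimpF`.  `{ω : pr (ph a ω) (lf a w) = 0}` consists of the `inl i` with `i ∈ σ` (`pr_inl_lf`, `zsv_mem`) and the `inr j` with `w j = 0` (`pr_inr_lf`): independent by `zsv_ind` (`vR (ph a) (inl i) = rowR a i`, `vR (ph a) (inr j) = eR j`; reindexing), and their number is `|σ| + #{w_j = 0} = n`.
-/

set_option autoImplicit false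

namespace Pool.Agent.H37.T5

open Finset H60.RegTri
open Pool.Agent.H56.SMC

variable {n r : ℕ} (a : Fin r → (Fin n →₀ ℕ))

theorem vR_inl (i : Vx a) : vR (ph a) (Sum.inl i) = H22.rowR a i.1 := by
  funext y
  rcases y with y | y <;> simp [vR, ph, H22.rowR, H22.homRow]

theorem vR_inr (j : Fin n) : vR (ph a) (Sum.inr j) = eR j := by
  classical
  funext y
  rcases y with y | y
  · simp [vR, ph, eR]
  · by_cases h : y = j <;> simp [vR, ph, eR, Pi.single_apply, h]

theorem ZSD_sum {M : Type} [AddCommMonoid M] (σ : Finset (Fin r))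
    (hσ : ∀ b ∈ σ, H22.IsFace a {b}) (F : Fin r → M) (hF : ∀ b, b ∉ σ → F b = 0) :
    ∑ t : Vx a, F t.1 = ∑ b ∈ σ, F b := by
  classical
  rw [← Finset.sum_filter_add_sum_filter_not univ (fun t : Vx a => t.1 ∈ σ)]
  have h0 : ∑ t ∈ univ.filter (fun t : Vx a => ¬ t.1 ∈ σ), F t.1 = 0 :=
    sum_eq_zero fun t ht => hF _ (mem_filter.1 ht).2
  rw [h0, add_zero]
  refine Finset.sum_bij (fun t _ => t.1) (fun t ht => (mem_filter.1 ht).2) ?_ ?_ (fun _ _ => rfl)
  · intro t _ t' _ h
    exact Subtype.ext h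
  · intro b hb
    exact ⟨⟨b, hσ b hb⟩, mem_filter.2 ⟨mem_univ _, hb⟩, rfl⟩

theorem ZSD_inl (w : Fin n → ℕ) (i : Vx a) :
    pr (ph a (Sum.inl i)) (lf a w) = 0 ↔ ∑ j, a i.1 j * w j = H22.wmin a w := by
  rw [pr_inl_lf]
  constructor
  · intro h
    have : ((∑ j, a i.1 j * w j : ℕ) : ℤ) = (H22.wmin a w : ℤ) := by linarith
    exact_mod_cast this
  · intro h
    rw [h, sub_self]

/-- ZSD -/
theorem zsd_ind (ha : Function.Injective a) (w : Fin n → ℕ) (hw : FacetNormal a w)
    (hs : SimpF a w) : LinearIndepOn ℝ (vR (ph a)) {ω | pr (ph a ω) (lf a w) = 0} := by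
  obtain ⟨σ, hc, hon, hconv⟩ := hs
  have hind := zsv_ind a w hw σ hc hon hconv
  have hmem := zsv_mem a ha w hw σ hc hon hconv
  have h1 : ∀ i : Vx a, pr (ph a (Sum.inl i)) (lf a w) = 0 → i.1 ∈ σ := fun i hi =>
    (hmem i.1).1 ⟨(ZSD_inl a w i).1 hi, i.2⟩
  have h2 : ∀ j : Fin n, pr (ph a (Sum.inr j)) (lf a w) = 0 → w j = 0 := fun j hj => by
    rw [pr_inr_lf] at hj
    exact_mod_cast hj
  let g : {ω : OmT a | pr (ph a ω) (lf a w) = 0} → {b // b ∈ σ} ⊕ {j : Fin n // w j = 0} :=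
    fun ω => match ω with
      | ⟨Sum.inl i, hi⟩ => Sum.inl ⟨i.1, h1 i hi⟩
      | ⟨Sum.inr j, hj⟩ => Sum.inr ⟨j, h2 j hj⟩
  have hg : Function.Injective g := by
    rintro ⟨ω, hω⟩ ⟨ω', hω'⟩ h
    rcases ω with i | j <;> rcases ω' with i' | j'
    · have h3 := Sum.inl_injective h
      have h4 : i.1 = i'.1 := congrArg (fun z : {b // b ∈ σ} => z.1) h3
      have h5 : i = i' := Subtype.ext h4
      subst h5
      rfl
    · exact absurd h (by simp [g])
    · exact absurd h (by simp [g])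
    · have h3 := Sum.inr_injective h
      have h4 : j = j' := congrArg Subtype.val h3
      subst h4
      rfl
  have h3 := hind.comp g hg
  have e : (fun ω : {ω : OmT a | pr (ph a ω) (lf a w) = 0} => vR (ph a) ω.1) =
      (Sum.elim (fun b : σ => H22.rowR a b.1)
      (fun j : {j : Fin n // w j = 0} => (eR j.1 : Unit ⊕ Fin n → ℝ))) ∘ g := by
    funext ω
    obtain ⟨ω, hω⟩ := ω
    rcases ω with i | j
    · exact vR_inl a i
    · exact vR_inr a j
  show LinearIndependent ℝ (fun ω : {ω : OmT a | pr (ph a ω) (lf a w) = 0} => vR (ph a) ω.1)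
  rw [e]
  exact h3

theorem zsd_card (ha : Function.Injective a) (w : Fin n → ℕ) (hw : FacetNormal a w)
    (hs : SimpF a w) : (univ.filter (fun ω => pr (ph a ω) (lf a w) = 0)).card = n := by
  obtain ⟨σ, hc, hon, hconv⟩ := hs
  have hmem := zsv_mem a ha w hw σ hc hon hconv
  rw [Finset.card_filter, Fintype.sum_sum_type]
  have e1 : ∑ i : Vx a, (if pr (ph a (Sum.inl i)) (lf a w) = 0 then 1 else 0) = σ.card := by
    have := ZSD_sum a σ (fun b hb => ((hmem b).2 hb).2)
      (fun b => if b ∈ σ then (1 : ℕ) else 0) (fun b hb => if_neg hb)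
    rw [Finset.sum_ite_mem, Finset.inter_self, Finset.sum_const, smul_eq_mul, mul_one] at this
    rw [← this]
    refine sum_congr rfl fun i _ => ?_
    have h1 : pr (ph a (Sum.inl i)) (lf a w) = 0 ↔ i.1 ∈ σ := by
      rw [ZSD_inl, ← hmem i.1]
      exact ⟨fun h => ⟨h, i.2⟩, fun h => h.1⟩
    by_cases h : i.1 ∈ σ
    · rw [if_pos h, if_pos (h1.2 h)]
    · rw [if_neg h, if_neg (fun h2 => h (h1.1 h2))]
  have e2 : ∑ j : Fin n, (if pr (ph a (Sum.inr j)) (lf a w) = 0 then 1 else 0) =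
      (univ.filter (fun j => w j = 0)).card := by
    rw [Finset.card_filter]
    refine sum_congr rfl fun j _ => ?_
    rw [pr_inr_lf]
    by_cases h : w j = 0
    · rw [if_pos h, if_pos (by rw [h]; rfl)]
    · rw [if_neg h, if_neg (fun h2 => h (by exact_mod_cast h2))]
  rw [e1, e2, hc, supCard, add_comm]
  have := Finset.card_filter_add_card_filter_not (s := (univ : Finset (Fin n)))
    (fun j => w j = 0)
  rw [Finset.card_univ, Fintype.card_fin] at this
  exact this

/-- The exponents on the face of `w` are convex combinations of the vertices on it. -/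
theorem zsd_conv (ha : Function.Injective a) (w : Fin n → ℕ) (hw : FacetNormal a w)
    (hs : SimpF a w) (i : Fin r) (hi : ∑ j, a i j * w j = H22.wmin a w) :
    ∃ θ : Vx a → ℝ, (∀ t, 0 ≤ θ t) ∧ ∑ t, θ t = 1 ∧
      (∀ t, θ t ≠ 0 → ∑ j, a t.1 j * w j = H22.wmin a w) ∧
      H22.rowR a i = ∑ t, θ t • H22.rowR a t.1 := by
  classical
  obtain ⟨σ, hc, hon, hconv⟩ := hs
  have hmem := zsv_mem a ha w hw σ hc hon hconv
  have hp : Function.Injective (H22.pointR a) := by
    intro x y h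
    apply ha
    ext j
    have := congrFun h j
    simpa [H22.pointR] using this
  have h1 := hconv i hi
  rw [← Finset.coe_image, Finset.mem_convexHull'] at h1
  obtain ⟨u, hu0, hu1, hu2⟩ := h1
  rw [Finset.sum_image (fun x _ y _ h => hp h)] at hu1 hu2
  have hf : ∀ b ∈ σ, H22.IsFace a {b} := fun b hb => ((hmem b).2 hb).2
  refine ⟨fun t => if t.1 ∈ σ then u (H22.pointR a t.1) else 0, ?_, ?_, ?_, ?_⟩
  · intro t
    simp only
    split_ifs with h
    · exact hu0 _ (mem_image_of_mem _ h)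
    · exact le_rfl
  · rw [ZSD_sum a σ hf (fun b => if b ∈ σ then u (H22.pointR a b) else 0) (fun b hb => if_neg hb),
      ← hu1]
    exact sum_congr rfl fun b hb => if_pos hb
  · intro t ht
    by_cases h : t.1 ∈ σ
    · exact hon _ h
    · exact absurd (if_neg h) ht
  · rw [ZSD_sum a σ hf (fun b => (if b ∈ σ then u (H22.pointR a b) else 0) • H22.rowR a b)
      (fun b hb => by rw [if_neg hb, zero_smul])]
    have e : ∑ b ∈ σ, (if b ∈ σ then u (H22.pointR a b) else 0) • H22.rowR a b =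
        ∑ b ∈ σ, u (H22.pointR a b) • H22.rowR a b :=
      sum_congr rfl fun b hb => by rw [if_pos hb]
    rw [e]
    funext y
    rcases y with y | j
    · rw [Finset.sum_apply]
      simp only [Pi.smul_apply, H22.rowR, Sum.elim_inl, smul_eq_mul, mul_one]
      exact hu1.symm
    · have h2 := congrFun hu2 j
      rw [Finset.sum_apply] at h2 ⊢
      simp only [Pi.smul_apply, H22.rowR, Sum.elim_inr, smul_eq_mul, H22.pointR] at h2 ⊢
      exact h2.symm

end Pool.Agent.H37.T5

end S_ZSD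

section S_ZVX

/-!
# ZVX: vertices

`exists_vertex`.  Let `u j = L^(j+1)` with `L` larger than all `a i j`: the numbers `∑ a_ij u_j` are pairwise distinct (`a` injective, digits in base `L`); or choose `u > 0` outside finitely many hyperplanes (`H60.RegTri.exists_avoid`).  Let `m = min_i a_i·k`, `δ > 0` the smallest difference `a_i·k - m` over the `i` not attaining the minimum (if any), and `ε > 0` with
`ε |a_i·u - a_l·u| < δ` for all `i, l`.  The minimiser `p` of `a_i·(k + ε u)` is unique, so `IsFace a {p}` (weight `k + ε u ≥ 0`), and it minimises `a_i·k`.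
-/

set_option autoImplicit false

namespace Pool.Agent.H37.T5

open Finset H60.RegTri
open Pool.Agent.H56.SMC

/-- minimise `f` and then `g`: a small multiple of `g` is added to `f` -/
theorem ZVX_step {r : ℕ} (hr : 0 < r) (f g : Fin r → ℝ) : ∃ ε : ℝ, 0 < ε ∧ ∀ p,
    (∀ l, f p + ε * g p ≤ f l + ε * g l) →
      (∀ l, f p ≤ f l) ∧ ∀ l, (∀ l', f l ≤ f l') → g p ≤ g l := by
  have : Nonempty (Fin r) := ⟨⟨0, hr⟩⟩
  obtain ⟨p0, -, hp0⟩ := exists_min_image (univ : Finset (Fin r)) f univ_nonempty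
  have h1 : ∀ᶠ ε in nhdsWithin (0 : ℝ) (Set.Ioi 0),
      ∀ l, f p0 < f l → f p0 + ε * g p0 < f l + ε * g l := by
    rw [Filter.eventually_all]
    intro l
    by_cases hl : f p0 < f l
    · have hc1 : Continuous (fun ε : ℝ => f p0 + ε * g p0) := by fun_prop
      have hc2 : Continuous (fun ε : ℝ => f l + ε * g l) := by fun_prop
      have h2 : ∀ᶠ ε in nhds (0 : ℝ), f p0 + ε * g p0 < f l + ε * g l :=
        (hc1.tendsto 0).eventually_lt (hc2.tendsto 0) (by simpa using hl)
      exact (h2.filter_mono nhdsWithin_le_nhds).mono fun ε hε _ => hε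
    · exact Filter.Eventually.of_forall fun ε h => absurd h hl
  obtain ⟨ε, hε1, hε⟩ := (h1.and self_mem_nhdsWithin).exists
  refine ⟨ε, hε, fun p hp => ?_⟩
  have hpp : f p ≤ f p0 := by
    by_contra hcon
    push Not at hcon
    have := hε1 p hcon
    have := hp p0
    linarith
  have hmin : ∀ l, f p ≤ f l := fun l => hpp.trans (hp0 l (mem_univ l))
  refine ⟨hmin, fun l hl => ?_⟩
  have h3 : f l = f p := le_antisymm (hl p) (hmin l)
  have h4 := hp l
  rw [h3] at h4
  have h5 : ε * g p ≤ ε * g l := by linarith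
  exact le_of_mul_le_mul_left h5 hε

/-- ZVX -/
theorem exists_vertex {n r : ℕ} (a : Fin r → (Fin n →₀ ℕ)) (ha : Function.Injective a)
    (hr : 0 < r) (k : Fin n → ℝ) (hk : ∀ j, 0 ≤ k j) :
    ∃ p, H22.IsFace a {p} ∧ ∀ l, ∑ j, (a p j : ℝ) * k j ≤ ∑ j, (a l j : ℝ) * k j := by
  classical
  have key : ∀ m : ℕ, ∃ k' : Fin n → ℝ, (∀ j, 0 ≤ k' j) ∧
      (∀ p, (∀ l, ∑ j, (a p j : ℝ) * k' j ≤ ∑ j, (a l j : ℝ) * k' j) →
        ∀ l, ∑ j, (a p j : ℝ) * k j ≤ ∑ j, (a l j : ℝ) * k j) ∧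
      ∀ p q, (∀ l, ∑ j, (a p j : ℝ) * k' j ≤ ∑ j, (a l j : ℝ) * k' j) →
        (∀ l, ∑ j, (a q j : ℝ) * k' j ≤ ∑ j, (a l j : ℝ) * k' j) →
        ∀ j : Fin n, j.val < m → a p j = a q j := by
    intro m
    induction m with
    | zero => exact ⟨k, hk, fun p hp => hp, fun p q _ _ j hj => absurd hj (Nat.not_lt_zero _)⟩
    | succ m ih =>
      obtain ⟨k', hk'0, hk'1, hk'2⟩ := ih
      by_cases hm : m < n
      · obtain ⟨ε, hε, hstep⟩ := ZVX_step hr (fun i => ∑ j, (a i j : ℝ) * k' j)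
          (fun i => (a i ⟨m, hm⟩ : ℝ))
        have hsum : ∀ i, ∑ j, (a i j : ℝ) * (k' j + ε * (if j = ⟨m, hm⟩ then 1 else 0))
            = ∑ j, (a i j : ℝ) * k' j + ε * (a i ⟨m, hm⟩ : ℝ) := by
          intro i
          simp only [mul_add, sum_add_distrib]
          congr 1
          rw [sum_eq_single_of_mem (⟨m, hm⟩ : Fin n) (mem_univ _)]
          · rw [if_pos rfl]; ring
          · intro j _ hj
            rw [if_neg hj]; ring
        refine ⟨fun j => k' j + ε * (if j = ⟨m, hm⟩ then 1 else 0), ?_, ?_, ?_⟩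
        · intro j
          have : (0 : ℝ) ≤ if j = ⟨m, hm⟩ then 1 else 0 := by split_ifs <;> norm_num
          have h2 := hk'0 j
          positivity
        · intro p hp
          simp only [hsum] at hp
          exact hk'1 p (hstep p hp).1
        · intro p q hp hq j hj
          simp only [hsum] at hp hq
          obtain ⟨hp1, hp2⟩ := hstep p hp
          obtain ⟨hq1, hq2⟩ := hstep q hq
          rcases Nat.lt_succ_iff_lt_or_eq.1 hj with h | h
          · exact hk'2 p q hp1 hq1 j h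
          · have hjm : j = ⟨m, hm⟩ := Fin.ext h
            subst hjm
            have h3 := le_antisymm (hp2 q hq1) (hq2 p hp1)
            exact_mod_cast h3
      · refine ⟨k', hk'0, hk'1, fun p q hp hq j hj => ?_⟩
        exact hk'2 p q hp hq j (by omega)
  obtain ⟨k', hk'0, hk'1, hk'2⟩ := key n
  have : Nonempty (Fin r) := ⟨⟨0, hr⟩⟩
  obtain ⟨p, -, hp⟩ := exists_min_image (univ : Finset (Fin r))
    (fun i => ∑ j, (a i j : ℝ) * k' j) univ_nonempty
  have hp' : ∀ l, ∑ j, (a p j : ℝ) * k' j ≤ ∑ j, (a l j : ℝ) * k' j := fun l => hp l (mem_univ l)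
  refine ⟨p, ⟨k', hk'0, fun l => ⟨fun hl => ?_, fun hl => ?_⟩⟩, hk'1 p hp'⟩
  · rw [mem_singleton.1 hl]
    exact hp'
  · rw [mem_singleton]
    apply ha
    ext j
    exact hk'2 l p hl hp' j j.2

end Pool.Agent.H37.T5

end S_ZVX

section S_ZGN

/-!
# ZGN: the rays generate the cone

`y = (y0; k)`: `k ≥ 0` (`inr`).  `exists_vertex` gives a vertex `q` with `a_q·k` minimal; `k ∈ H22.minCone a {q}`; `hR.gen`: `k = ∑ x_w w`, `x ≥ 0`, over the `w ∈ raysIn a R {q}`; for these `a_q·w = N(w)` (`H22.wmin_eq`), so `∑ x_w (-N(w); w) = (-a_q·k; k)`.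
`y = ∑ x_w (-N(w); w) + (y0 + a_q·k) (1; 0)` and `y0 + a_q·k = prR (ph (inl q)) y ≥ 0`.
-/

set_option autoImplicit false

namespace Pool.Agent.H37.T5

open Finset H60.RegTri
open Pool.Agent.H56.SMC

/-- the pairing with `(0, e_j)` -/
theorem ZGN_pr_inr {n r : ℕ} (a : Fin r → (Fin n →₀ ℕ)) (j : Fin n) (y : Unit ⊕ Fin n → ℝ) :
    prR (ph a (Sum.inr j)) y = y (Sum.inr j) := by
  classical
  simp only [prR, ph, Fintype.sum_sum_type, Sum.elim_inr, Sum.elim_inl, Pi.single_apply]
  simp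

/-- the pairing with `(1, a_i)` -/
theorem ZGN_pr_inl {n r : ℕ} (a : Fin r → (Fin n →₀ ℕ)) (i : Vx a) (y : Unit ⊕ Fin n → ℝ) :
    prR (ph a (Sum.inl i)) y = y (Sum.inl ()) + ∑ j, (a i.1 j : ℝ) * y (Sum.inr j) := by
  simp [prR, ph, H22.homRow, Fintype.sum_sum_type]

/-- ZGN -/
theorem zgn {n r : ℕ} (a : Fin r → (Fin n →₀ ℕ)) (ha : Function.Injective a) (hr : 0 < r)
    (R : Finset (Fin n → ℕ)) (hR : RaySet a R) (y : Unit ⊕ Fin n → ℝ)
    (hy : ∀ ω, 0 ≤ prR (ph a ω) y) :
    ∃ x : Option R → ℝ, (∀ i, 0 ≤ x i) ∧ y = ∑ i, x i • vR (vv a R) i := by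
  classical
  have hk : ∀ j, 0 ≤ y (Sum.inr j) := fun j => by
    have h1 := hy (Sum.inr j)
    rwa [ZGN_pr_inr] at h1
  obtain ⟨p, hp, hmin⟩ := exists_vertex a ha hr (fun j => y (Sum.inr j)) hk
  have hmem : (fun j => y (Sum.inr j)) ∈ H22.minCone a {p} := by
    refine ⟨hk, fun i hi l => ?_⟩
    rw [mem_singleton] at hi
    subst hi
    exact hmin l
  obtain ⟨x, hx0, hx⟩ := hR.gen {p} (singleton_nonempty p) _ hmem
  have hN : ∀ w ∈ raysIn a R {p}, ((H22.wmin a w.1 : ℕ) : ℝ) = ∑ j, (a p j : ℝ) * rv R w j := by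
    intro w hw
    have h1 : H22.toReal w.1 ∈ H22.minCone a {p} := mem_raysIn.1 hw
    rw [H22.wmin_eq h1 (mem_singleton_self p)]
    push_cast
    rfl
  have hkj : ∀ j, y (Sum.inr j) = ∑ w ∈ raysIn a R {p}, x w * rv R w j := by
    intro j
    have h1 := congrFun hx j
    simpa [Finset.sum_apply] using h1
  refine ⟨fun o => o.elim (y (Sum.inl ()) + ∑ j, (a p j : ℝ) * y (Sum.inr j))
    (fun w => if w ∈ raysIn a R {p} then x w else 0), ?_, ?_⟩
  · rintro (_ | w)
    · have h1 := hy (Sum.inl (⟨p, hp⟩ : Vx a))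
      have h2 := ZGN_pr_inl a (⟨p, hp⟩ : Vx a) y
      have h3 : 0 ≤ y (Sum.inl ()) + ∑ j, (a p j : ℝ) * y (Sum.inr j) := h1.trans_eq h2
      exact h3
    · show 0 ≤ (if w ∈ raysIn a R {p} then x w else 0)
      split_ifs with h
      · exact hx0 w h
      · exact le_rfl
  · rw [Fintype.sum_option]
    funext o
    rcases o with o | j
    · have h1 : ∑ j, (a p j : ℝ) * y (Sum.inr j) =
          ∑ w ∈ raysIn a R {p}, x w * ((H22.wmin a w.1 : ℕ) : ℝ) := by
        calc ∑ j, (a p j : ℝ) * y (Sum.inr j)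
            = ∑ j, ∑ w ∈ raysIn a R {p}, x w * ((a p j : ℝ) * rv R w j) := by
              refine sum_congr rfl fun j _ => ?_
              rw [hkj j, mul_sum]
              exact sum_congr rfl fun w _ => by ring
          _ = _ := by
              rw [sum_comm]
              refine sum_congr rfl fun w hw => ?_
              rw [hN w hw, mul_sum]
      simp only [Pi.add_apply, Pi.smul_apply, Finset.sum_apply, smul_eq_mul, Option.elim]
      have h2 : vR (vv a R) none (Sum.inl o) = 1 := by simp [vR, vv, rho]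
      have h3 : ∀ w : R, vR (vv a R) (some w) (Sum.inl o) = -((H22.wmin a w.1 : ℕ) : ℝ) := by
        intro w; simp [vR, vv, lf]
      rw [h2, h1]
      have h4 : ∑ w : R, (if w ∈ raysIn a R {p} then x w else 0) * vR (vv a R) (some w) (Sum.inl o)
          = -∑ w ∈ raysIn a R {p}, x w * ((H22.wmin a w.1 : ℕ) : ℝ) := by
        rw [← sum_neg_distrib]
        rw [← Finset.sum_subset (Finset.subset_univ (raysIn a R {p}))]
        · refine sum_congr rfl fun w hw => ?_
          rw [if_pos hw, h3]; ring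
        · intro w _ hw
          rw [if_neg hw, zero_mul]
      rw [h4]
      ring
    · simp only [Pi.add_apply, Pi.smul_apply, Finset.sum_apply, smul_eq_mul, Option.elim]
      have h2 : vR (vv a R) none (Sum.inr j) = 0 := by simp [vR, vv, rho]
      have h3 : ∀ w : R, vR (vv a R) (some w) (Sum.inr j) = rv R w j := by
        intro w; simp [vR, vv, lf, rv, H22.toReal]
      rw [h2, mul_zero, zero_add, hkj j]
      rw [← Finset.sum_subset (Finset.subset_univ (raysIn a R {p}))]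
      · refine sum_congr rfl fun w hw => ?_
        rw [if_pos hw, h3]
      · intro w _ hw
        rw [if_neg hw, zero_mul]

end Pool.Agent.H37.T5

end S_ZGN

section S_ZFBA

/-!
# ZFBA: faces under a simplicial facet and their vertices

Let `w` be a simplicial facet normal.
(A) `τ` a face (`IsFace a τ`), `toReal w ∈ minCone a τ`: all `i ∈ τ` are on the face of `w` (`H22.wmin_eq`).  `τ = {minimisers of k}`, `k ≥ 0`.  `zfb_cls`: `cls a (vt a τ) = τ`: `i ∈ τ`: `(1,a_i) = ∑ θ_t (1,a_t)` (`zsd_conv`), `a_i·k` minimal, so `θ_t ≠ 0` only for `t` with `a_t·k` minimal, `t ∈ τ`: `a_i` is in the convex hull of `vt a τ`.  Conversely a convex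
combination of points of `τ` has minimal value.  `zfb_ne`: `exists_vertex` for `k`.  `zfb_rank`: the span of `rowR` on `τ` is the span on the vertices of `τ`, which are independent (`zsd_ind`, all on the face of `w`).  `zfb_cone`: for `y ≥ 0`: `y ∈ minCone a τ` iff `y ∈ minCone a (vertices of τ)` (convex combinations).
-/

set_option autoImplicit false

namespace Pool.Agent.H37.T5

open Finset H60.RegTri
open Pool.Agent.H56.SMC

variable {n r : ℕ} (a : Fin r → (Fin n →₀ ℕ))

theorem ZFBA_val {i : Fin r} {θ : Vx a → ℝ}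
    (h : H22.rowR a i = ∑ t, θ t • H22.rowR a t.1) (y : Fin n → ℝ) :
    ∑ j, (a i j : ℝ) * y j = ∑ t, θ t * ∑ j, (a t.1 j : ℝ) * y j := by
  have h1 : ∀ j, (a i j : ℝ) = ∑ t, θ t * (a t.1 j : ℝ) := by
    intro j
    have := congrFun h (Sum.inr j)
    simpa [H22.rowR, Finset.sum_apply] using this
  simp_rw [Finset.mul_sum]
  rw [Finset.sum_comm]
  refine sum_congr rfl fun j _ => ?_
  rw [h1 j, Finset.sum_mul]
  refine sum_congr rfl fun t _ => ?_
  ring

theorem ZFBA_on (w : Fin n → ℕ) (τ : Finset (Fin r))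
    (hwτ : H22.toReal w ∈ H22.minCone a τ) {i : Fin r} (hi : i ∈ τ) :
    ∑ j, a i j * w j = H22.wmin a w := by
  have hmin : ∀ l, ∑ j, a i j * w j ≤ ∑ j, a l j * w j := by
    intro l
    have := hwτ.2 i hi l
    unfold H22.toReal at this
    exact_mod_cast this
  unfold H22.wmin
  have : Nonempty (Fin r) := ⟨i⟩
  apply le_antisymm
  · exact le_ciInf hmin
  · exact ciInf_le (OrderBot.bddBelow _) i

theorem ZFBA_conv (ha : Function.Injective a) (w : Fin n → ℕ) (hw : FacetNormal a w)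
    (hs : SimpF a w) (τ : Finset (Fin r)) (hτ : H22.IsFace a τ)
    (hwτ : H22.toReal w ∈ H22.minCone a τ) (i : Fin r) (hi : i ∈ τ) :
    ∃ θ : Vx a → ℝ, (∀ t, 0 ≤ θ t) ∧ ∑ t, θ t = 1 ∧ (∀ t, θ t ≠ 0 → t ∈ vt a τ) ∧
      H22.rowR a i = ∑ t, θ t • H22.rowR a t.1 := by
  obtain ⟨θ, h1, h2, -, h4⟩ := zsd_conv a ha w hw hs i (ZFBA_on a w τ hwτ hi)
  refine ⟨θ, h1, h2, ?_, h4⟩
  obtain ⟨k, hk, hmem⟩ := hτ
  have hi' := (hmem i).1 hi
  have hv := ZFBA_val a h4 k
  have hsum : ∑ t, θ t * (∑ j, (a t.1 j : ℝ) * k j - ∑ j, (a i j : ℝ) * k j) = 0 := by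
    simp_rw [mul_sub]
    rw [Finset.sum_sub_distrib, ← hv, ← Finset.sum_mul, h2, one_mul, sub_self]
  have hz := (Finset.sum_eq_zero_iff_of_nonneg (fun t _ =>
    mul_nonneg (h1 t) (sub_nonneg.2 (hi' t.1)))).1 hsum
  intro t ht
  rw [vt_mem, hmem]
  intro l
  have h5 := hz t (mem_univ t)
  have h6 : ∑ j, (a t.1 j : ℝ) * k j - ∑ j, (a i j : ℝ) * k j = 0 :=
    (mul_eq_zero.1 h5).resolve_left ht
  have h7 := hi' l
  linarith

theorem zfb_cls (ha : Function.Injective a) (w : Fin n → ℕ) (hw : FacetNormal a w)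
    (hs : SimpF a w) (τ : Finset (Fin r)) (hτ : H22.IsFace a τ)
    (hwτ : H22.toReal w ∈ H22.minCone a τ) : cls a (vt a τ) = τ := by
  ext i
  rw [mem_cls]
  constructor
  · intro hi
    obtain ⟨k, hk, hmem⟩ := hτ
    rw [hmem]
    intro l
    have hconv : Convex ℝ {y : Fin n → ℝ | ∑ j, y j * k j ≤ ∑ j, (a l j : ℝ) * k j} := by
      intro x hx y hy p q hp hq hpq
      simp only [Set.mem_ofPred_eq] at hx hy ⊢
      have e : ∑ j, (p • x + q • y) j * k j = p * ∑ j, x j * k j + q * ∑ j, y j * k j := by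
        rw [Finset.mul_sum, Finset.mul_sum, ← Finset.sum_add_distrib]
        refine sum_congr rfl fun j _ => ?_
        simp only [Pi.add_apply, Pi.smul_apply, smul_eq_mul]
        ring
      rw [e]
      have h3 := mul_le_mul_of_nonneg_left hx hp
      have h4 := mul_le_mul_of_nonneg_left hy hq
      calc _ ≤ p * ∑ j, (a l j : ℝ) * k j + q * ∑ j, (a l j : ℝ) * k j := add_le_add h3 h4
        _ = _ := by rw [← add_mul, hpq, one_mul]
    have hsub : {x | ∃ t ∈ vt a τ, x = H22.pointR a t.1} ⊆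
        {y : Fin n → ℝ | ∑ j, y j * k j ≤ ∑ j, (a l j : ℝ) * k j} := by
      rintro x ⟨t, ht, rfl⟩
      exact (hmem t.1).1 (vt_mem.1 ht) l
    exact convexHull_min hsub hconv hi
  · intro hi
    obtain ⟨θ, h1, h2, h3, h4⟩ := ZFBA_conv a ha w hw hs τ hτ hwτ i hi
    have h0 : ∀ t ∉ vt a τ, θ t = 0 := fun t ht => by
      by_contra h
      exact ht (h3 t h)
    have e1 : H22.pointR a i = ∑ t ∈ vt a τ, θ t • H22.pointR a t.1 := by
      rw [Finset.sum_subset (Finset.subset_univ _)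
        (fun t _ ht => by rw [h0 t ht, zero_smul])]
      funext j
      have := congrFun h4 (Sum.inr j)
      simpa [H22.rowR, H22.pointR, Finset.sum_apply] using this
    have e2 : ∑ t ∈ vt a τ, θ t = 1 := by
      rw [← h2]
      exact Finset.sum_subset (Finset.subset_univ _) (fun t _ ht => h0 t ht)
    rw [e1]
    exact (convex_convexHull ℝ _).sum_mem (fun t _ => h1 t) e2
      (fun t ht => subset_convexHull ℝ _ ⟨t, ht, rfl⟩)

theorem zfb_ne (ha : Function.Injective a) (hr : 0 < r) (τ : Finset (Fin r))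
    (hτ : H22.IsFace a τ) : (vt a τ).Nonempty := by
  obtain ⟨k, hk, hmem⟩ := hτ
  obtain ⟨p, hp, hmin⟩ := exists_vertex a ha hr k hk
  exact ⟨⟨p, hp⟩, vt_mem.2 ((hmem p).2 hmin)⟩

theorem zfb_rank (ha : Function.Injective a) (w : Fin n → ℕ) (hw : FacetNormal a w)
    (hs : SimpF a w) (τ : Finset (Fin r)) (hτ : H22.IsFace a τ)
    (hwτ : H22.toReal w ∈ H22.minCone a τ) : H22.faceRank a τ = (vt a τ).card := by
  have hind : LinearIndependent ℝ (fun t : {t // t ∈ vt a τ} => H22.rowR a t.1.1) := by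
    have h1 := zsd_ind a ha w hw hs
    have hmem : ∀ t : {t // t ∈ vt a τ},
        (Sum.inl t.1 : OmT a) ∈ {ω : OmT a | pr (ph a ω) (lf a w) = 0} := by
      intro t
      show pr (ph a (Sum.inl t.1)) (lf a w) = 0
      rw [pr_inl_lf, ZFBA_on a w τ hwτ (vt_mem.1 t.2), sub_self]
    have h2 := h1.comp (fun t : {t // t ∈ vt a τ} =>
      (⟨Sum.inl t.1, hmem t⟩ : {ω : OmT a | pr (ph a ω) (lf a w) = 0})) (by
        intro t t' h
        have := congrArg Subtype.val h
        exact Subtype.ext (Sum.inl_injective this))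
    have e : (fun t : {t // t ∈ vt a τ} => H22.rowR a t.1.1) =
        fun t : {t // t ∈ vt a τ} => vR (ph a) (Sum.inl t.1) :=
      funext fun t => (vR_inl a t.1).symm
    rw [e]
    exact h2
  unfold H22.faceRank
  have hspan : Submodule.span ℝ (H22.rowR a '' (τ : Set (Fin r))) =
      Submodule.span ℝ (Set.range (fun t : {t // t ∈ vt a τ} => H22.rowR a t.1.1)) := by
    apply le_antisymm
    · rw [Submodule.span_le]
      rintro x ⟨i, hi, rfl⟩
      obtain ⟨θ, h1, h2, h3, h4⟩ := ZFBA_conv a ha w hw hs τ hτ hwτ i hi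
      rw [h4]
      refine Submodule.sum_mem _ fun t _ => ?_
      by_cases h : θ t = 0
      · rw [h, zero_smul]
        exact Submodule.zero_mem _
      · exact Submodule.smul_mem _ _ (Submodule.subset_span ⟨⟨t, h3 t h⟩, rfl⟩)
    · rw [Submodule.span_le]
      rintro x ⟨t, rfl⟩
      exact Submodule.subset_span ⟨t.1.1, vt_mem.1 t.2, rfl⟩
  rw [hspan, finrank_span_eq_card hind, Fintype.card_coe]

theorem zfb_cone (ha : Function.Injective a) (w : Fin n → ℕ) (hw : FacetNormal a w)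
    (hs : SimpF a w) (τ : Finset (Fin r)) (hτ : H22.IsFace a τ)
    (hwτ : H22.toReal w ∈ H22.minCone a τ) (y : Fin n → ℝ) :
    y ∈ H22.minCone a τ ↔ (∀ j, 0 ≤ y j) ∧ ∀ t ∈ vt a τ, ∀ l,
      ∑ j, (a t.1 j : ℝ) * y j ≤ ∑ j, (a l j : ℝ) * y j := by
  constructor
  · rintro ⟨h1, h2⟩
    exact ⟨h1, fun t ht l => h2 t.1 (vt_mem.1 ht) l⟩
  · rintro ⟨h1, h2⟩
    refine ⟨h1, fun i hi l => ?_⟩
    obtain ⟨θ, h3, h4, h5, h6⟩ := ZFBA_conv a ha w hw hs τ hτ hwτ i hi
    rw [ZFBA_val a h6 y]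
    calc ∑ t, θ t * ∑ j, (a t.1 j : ℝ) * y j ≤ ∑ t, θ t * ∑ j, (a l j : ℝ) * y j := by
          refine sum_le_sum fun t _ => ?_
          by_cases h : θ t = 0
          · rw [h, zero_mul, zero_mul]
          · exact mul_le_mul_of_nonneg_left (h2 t (h5 t h) l) (h3 t)
      _ = ∑ j, (a l j : ℝ) * y j := by rw [← Finset.sum_mul, h4, one_mul]

end Pool.Agent.H37.T5

end S_ZFBA

section S_ZFBB

/-!
# ZFBB: sets of vertices of a simplicial facet span faces

Let `w` be a simplicial facet normal.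
(B) `T` a nonempty set of vertices on the face of `w`.  `zfb_face`: `IsFace a (cls a T)`: by `zsd_ind` there is a real `y` with `(1,a_t)·y = 0` for `t ∈ T`, `= 1` for the other vertices on the face of `w`, `y_j = 1` for `w_j = 0`; add a large multiple of `(-N(w); w)`: `> 0` on the exponents off the face and `y_j > 0` for `w_j > 0`; the exponents with `(1,a_i)·y = 0` (the minimum) are
those `i` on the face with `θ` supported in `T`, i.e. in `cls a T`.  `zfb_vt`: `vt a (cls a T) = T` (a vertex `{i}` which is a convex combination of points `a_t` is one of them; `ha`).  `zfb_mem`: `toReal w ∈ minCone a (cls a T)`.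
-/

set_option autoImplicit false

namespace Pool.Agent.H37.T5

open Finset H60.RegTri
open Pool.Agent.H56.SMC

variable {n r : ℕ} (a : Fin r → (Fin n →₀ ℕ))

/-- independent functionals take prescribed values -/
theorem ZFBB_solve {s κ : Type} [Fintype κ] [DecidableEq κ] (v : s → κ → ℝ)
    (hv : LinearIndependent ℝ v) (c : s → ℝ) :
    ∃ y : κ → ℝ, ∀ i, ∑ x, v i x * y x = c i := by
  obtain ⟨g, hg⟩ := LinearMap.exists_extend ((Module.Basis.span hv).constr ℝ c)
  refine ⟨fun x => g (fun j => if x = j then 1 else 0), fun i => ?_⟩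
  have h1 := LinearMap.pi_apply_eq_sum_univ g (v i)
  simp only [smul_eq_mul] at h1
  rw [← h1]
  have h2 := LinearMap.congr_fun hg (Module.Basis.span hv i)
  rw [Module.Basis.constr_basis] at h2
  rw [← h2]
  simp only [LinearMap.comp_apply, Submodule.subtype_apply, Module.Basis.span_apply]

theorem ZFBB_lin (k : Fin n → ℝ) : IsLinearMap ℝ (fun x : Fin n → ℝ => ∑ j, x j * k j) where
  map_add x y := by
    simp only [Pi.add_apply, add_mul, sum_add_distrib]
  map_smul c x := by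
    simp only [Pi.smul_apply, smul_eq_mul, mul_sum, mul_assoc]

theorem ZFBB_hull {T : Finset (Vx a)} {k : Fin n → ℝ} {c : ℝ}
    (hT : ∀ t ∈ T, ∑ j, (a t.1 j : ℝ) * k j = c) {i : Fin r} (hi : i ∈ cls a T) :
    ∑ j, (a i j : ℝ) * k j = c := by
  rw [mem_cls] at hi
  have h1 : convexHull ℝ {x | ∃ t ∈ T, x = H22.pointR a t.1}
      ⊆ {x : Fin n → ℝ | ∑ j, x j * k j = c} := by
    apply convexHull_min _ (convex_hyperplane (ZFBB_lin k) c)
    rintro x ⟨t, ht, rfl⟩
    exact hT t ht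
  exact h1 hi

theorem ZFBB_hull_lt {T : Finset (Vx a)} {k : Fin n → ℝ} {c : ℝ}
    (hT : ∀ t ∈ T, c < ∑ j, (a t.1 j : ℝ) * k j) {i : Fin r} (hi : i ∈ cls a T) :
    c < ∑ j, (a i j : ℝ) * k j := by
  rw [mem_cls] at hi
  have h1 : convexHull ℝ {x | ∃ t ∈ T, x = H22.pointR a t.1}
      ⊆ {x : Fin n → ℝ | c < ∑ j, x j * k j} := by
    apply convexHull_min _ (convex_halfSpace_gt (ZFBB_lin k) c)
    rintro x ⟨t, ht, rfl⟩
    exact hT t ht
  exact h1 hi

theorem ZFBB_wmin_le (w : Fin n → ℕ) (i : Fin r) : H22.wmin a w ≤ ∑ j, a i j * w j :=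
  ciInf_le' _ i

/-- a large multiple -/
theorem ZFBB_large {ι : Type} [Fintype ι] (x : ι → ℝ) : ∃ M : ℝ, 0 ≤ M ∧ ∀ i, 0 < x i + M := by
  refine ⟨∑ i, |x i| + 1, by positivity, fun i => ?_⟩
  have h1 : |x i| ≤ ∑ i, |x i| := single_le_sum (f := fun i => |x i|) (fun i _ => abs_nonneg _)
    (mem_univ i)
  have h2 := neg_abs_le (x i)
  linarith

theorem zfb_face (ha : Function.Injective a) (w : Fin n → ℕ) (hw : FacetNormal a w)
    (hs : SimpF a w) (T : Finset (Vx a)) (hT : T.Nonempty)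
    (hTw : ∀ t ∈ T, ∑ j, a t.1 j * w j = H22.wmin a w) : H22.IsFace a (cls a T) := by
  classical
  have hind := zsd_ind a ha w hw hs
  obtain ⟨y, hy⟩ := ZFBB_solve (fun ω : {ω | pr (ph a ω) (lf a w) = 0} => vR (ph a) ω) hind
    (fun ω => Sum.elim (fun t : Vx a => if t ∈ T then (0 : ℝ) else 1) (fun _ => 1) ω.1)
  set y0 : ℝ := y (Sum.inl ()) with hy0
  -- values
  have hv1 : ∀ t : Vx a, ∑ j, a t.1 j * w j = H22.wmin a w →
      y0 + ∑ j, (a t.1 j : ℝ) * y (Sum.inr j) = if t ∈ T then (0 : ℝ) else 1 := by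
    intro t ht
    have hmem : (Sum.inl t : OmT a) ∈ {ω | pr (ph a ω) (lf a w) = 0} := by
      simp only [Set.mem_ofPred_eq]
      rw [pr_inl_lf, ht, sub_self]
    have h1 := hy ⟨Sum.inl t, hmem⟩
    simp only [Sum.elim_inl] at h1
    rw [← h1, vR_inl, Fintype.sum_sum_type]
    simp [H22.rowR, hy0]
  have hv2 : ∀ j : Fin n, w j = 0 → y (Sum.inr j) = 1 := by
    intro j hj
    have hmem : (Sum.inr j : OmT a) ∈ {ω | pr (ph a ω) (lf a w) = 0} := by
      simp only [Set.mem_ofPred_eq]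
      rw [pr_inr_lf, hj]
      rfl
    have h1 := hy ⟨Sum.inr j, hmem⟩
    simp only [Sum.elim_inr] at h1
    rw [← h1, vR_inr, Fintype.sum_sum_type]
    simp [eR, Pi.single_apply]
  obtain ⟨M1, hM10, hM1⟩ := ZFBB_large (fun j : Fin n => y (Sum.inr j))
  obtain ⟨M2, hM20, hM2⟩ := ZFBB_large (fun i : Fin r => y0 + ∑ j, (a i j : ℝ) * y (Sum.inr j))
  set M := M1 + M2 with hM
  set k : Fin n → ℝ := fun j => y (Sum.inr j) + M * w j with hk
  have hk0 : ∀ j, 0 ≤ k j := by
    intro j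
    simp only [hk]
    rcases Nat.eq_zero_or_pos (w j) with h0 | h0
    · rw [hv2 j h0, h0]
      norm_num
    · have h1 : (1 : ℝ) ≤ (w j : ℝ) := by exact_mod_cast h0
      have h2 := hM1 j
      have h3 : M1 * 1 ≤ M * (w j : ℝ) := by
        apply mul_le_mul _ h1 zero_le_one (by linarith)
        linarith
      linarith
  -- the affine function
  have hf : ∀ i, ∑ j, (a i j : ℝ) * k j
      = ∑ j, (a i j : ℝ) * y (Sum.inr j) + M * ((∑ j, a i j * w j : ℕ) : ℝ) := by
    intro i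
    simp only [hk, mul_add, sum_add_distrib]
    congr 1
    push_cast
    rw [mul_sum]
    apply sum_congr rfl
    intro j _
    ring
  set K : ℝ := -y0 + M * (H22.wmin a w : ℝ) with hK
  have hoff : ∀ i, ∑ j, a i j * w j ≠ H22.wmin a w → K < ∑ j, (a i j : ℝ) * k j := by
    intro i hi
    have h1 : H22.wmin a w + 1 ≤ ∑ j, a i j * w j := by
      have := ZFBB_wmin_le a w i
      omega
    have h2 : (H22.wmin a w : ℝ) + 1 ≤ ((∑ j, a i j * w j : ℕ) : ℝ) := by exact_mod_cast h1
    have h3 := hM2 i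
    have h4 : M * ((H22.wmin a w : ℝ) + 1) ≤ M * ((∑ j, a i j * w j : ℕ) : ℝ) :=
      mul_le_mul_of_nonneg_left h2 (by linarith)
    rw [hf i, hK]
    linarith
  have hon : ∀ i, ∑ j, a i j * w j = H22.wmin a w → ∃ θ : Vx a → ℝ, (∀ t, 0 ≤ θ t) ∧
      ∑ t, θ t = 1 ∧ H22.rowR a i = ∑ t, θ t • H22.rowR a t.1 ∧
      ∑ j, (a i j : ℝ) * k j = K + ∑ t, θ t * (if t ∈ T then (0 : ℝ) else 1) := by
    intro i hi
    obtain ⟨θ, hθ0, hθ1, hθw, hθ⟩ := zsd_conv a ha w hw hs i hi
    refine ⟨θ, hθ0, hθ1, hθ, ?_⟩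
    rw [hf i, hi, hK]
    have h1 : ∀ j, (a i j : ℝ) = ∑ t, θ t * (a t.1 j : ℝ) := by
      intro j
      have := congrFun hθ (Sum.inr j)
      simpa [H22.rowR, Finset.sum_apply] using this
    have h2 : y0 + ∑ j, (a i j : ℝ) * y (Sum.inr j)
        = ∑ t, θ t * (if t ∈ T then (0 : ℝ) else 1) := by
      have h3 : ∑ j, (a i j : ℝ) * y (Sum.inr j)
          = ∑ t, θ t * ∑ j, (a t.1 j : ℝ) * y (Sum.inr j) := by
        simp only [h1, sum_mul, mul_sum]
        rw [sum_comm]
        apply sum_congr rfl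
        intro t _
        apply sum_congr rfl
        intro j _
        ring
      have h4 : y0 = ∑ t, θ t * y0 := by rw [← sum_mul, hθ1, one_mul]
      rw [h3, h4, ← sum_add_distrib]
      apply sum_congr rfl
      intro t _
      by_cases ht : θ t = 0
      · rw [ht]; ring
      · rw [← hv1 t (hθw t ht)]; ring
    linarith
  have hge : ∀ i, K ≤ ∑ j, (a i j : ℝ) * k j := by
    intro i
    by_cases hi : ∑ j, a i j * w j = H22.wmin a w
    · obtain ⟨θ, hθ0, -, -, h1⟩ := hon i hi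
      rw [h1]
      have : 0 ≤ ∑ t, θ t * (if t ∈ T then (0 : ℝ) else 1) := by
        apply sum_nonneg
        intro t _
        apply mul_nonneg (hθ0 t)
        split_ifs <;> norm_num
      linarith
    · exact (hoff i hi).le
  have hTK : ∀ t ∈ T, ∑ j, (a t.1 j : ℝ) * k j = K := by
    intro t ht
    have h1 := hv1 t (hTw t ht)
    rw [if_pos ht] at h1
    rw [hf, hTw t ht, hK]
    linarith
  refine ⟨k, hk0, fun l => ⟨fun hl l' => ?_, fun hl => ?_⟩⟩
  · rw [ZFBB_hull a hTK hl]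
    exact hge l'
  · obtain ⟨t0, ht0⟩ := hT
    have h1 : ∑ j, (a l j : ℝ) * k j = K := by
      apply le_antisymm _ (hge l)
      rw [← hTK t0 ht0]
      exact hl t0.1
    have hlw : ∑ j, a l j * w j = H22.wmin a w := by
      by_contra hcon
      have := hoff l hcon
      linarith
    obtain ⟨θ, hθ0, hθ1, hθ, h2⟩ := hon l hlw
    rw [h1] at h2
    have h3 : ∑ t, θ t * (if t ∈ T then (0 : ℝ) else 1) = 0 := by linarith
    have h4 : ∀ t, t ∉ T → θ t = 0 := by
      intro t ht
      have h5 := (sum_eq_zero_iff_of_nonneg (fun t _ => mul_nonneg (hθ0 t)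
        (by split_ifs <;> norm_num : (0 : ℝ) ≤ if t ∈ T then (0 : ℝ) else 1))).1 h3 t (mem_univ t)
      rw [if_neg ht, mul_one] at h5
      exact h5
    rw [mem_cls]
    have h5 : H22.pointR a l = ∑ t ∈ T, θ t • H22.pointR a t.1 := by
      have h6 : H22.pointR a l = ∑ t, θ t • H22.pointR a t.1 := by
        funext j
        have := congrFun hθ (Sum.inr j)
        simpa [H22.rowR, H22.pointR, Finset.sum_apply] using this
      rw [h6]
      symm
      apply sum_subset (subset_univ T)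
      intro t _ ht
      rw [h4 t ht, zero_smul]
    have h6 : ∑ t ∈ T, θ t = 1 := by
      rw [← hθ1]
      apply sum_subset (subset_univ T)
      intro t _ ht
      exact h4 t ht
    rw [h5]
    have h7 : Convex ℝ (convexHull ℝ {x | ∃ t ∈ T, x = H22.pointR a t.1}) := convex_convexHull ℝ _
    apply h7.sum_mem (fun t _ => hθ0 t) h6
    intro t ht
    exact subset_convexHull ℝ _ ⟨t, ht, rfl⟩

theorem zfb_vt (ha : Function.Injective a) (T : Finset (Vx a)) : vt a (cls a T) = T := by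
  classical
  ext i
  rw [vt_mem]
  constructor
  · intro hi
    by_contra hiT
    obtain ⟨k, hk0, hk⟩ := i.2
    have h1 : ∀ l', ∑ j, (a i.1 j : ℝ) * k j ≤ ∑ j, (a l' j : ℝ) * k j :=
      (hk i.1).1 (mem_singleton_self _)
    have h2 : ∀ t ∈ T, ∑ j, (a i.1 j : ℝ) * k j < ∑ j, (a t.1 j : ℝ) * k j := by
      intro t ht
      by_contra hcon
      push Not at hcon
      have h3 : t.1 ∈ ({i.1} : Finset (Fin r)) := (hk t.1).2 (fun l' => hcon.trans (h1 l'))
      have h4 : t = i := Subtype.ext (mem_singleton.1 h3)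
      exact hiT (h4 ▸ ht)
    have h3 := ZFBB_hull_lt a h2 hi
    exact lt_irrefl _ h3
  · intro hi
    rw [mem_cls]
    exact subset_convexHull ℝ _ ⟨i, hi, rfl⟩

theorem zfb_mem (w : Fin n → ℕ) (T : Finset (Vx a))
    (hTw : ∀ t ∈ T, ∑ j, a t.1 j * w j = H22.wmin a w) :
    H22.toReal w ∈ H22.minCone a (cls a T) := by
  refine ⟨fun j => Nat.cast_nonneg _, fun i hi l => ?_⟩
  have h1 : ∑ j, (a i j : ℝ) * H22.toReal w j = (H22.wmin a w : ℝ) := by
    apply ZFBB_hull a _ hi
    intro t ht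
    rw [← hTw t ht]
    push_cast
    rfl
  rw [h1]
  have h2 : (H22.wmin a w : ℝ) ≤ ((∑ j, a l j * w j : ℕ) : ℝ) := by
    exact_mod_cast ZFBB_wmin_le a w l
  refine h2.trans (le_of_eq ?_)
  push_cast
  rfl

end Pool.Agent.H37.T5

end S_ZFBB

section S_ZFB



end S_ZFB

section S_ZZS

/-!
# ZZS: the concrete setting satisfies `ZS`

`ne`: `pr AA (lf a w) = wsum w ≠ 0` (`w ≠ 0`), `pr BB rho = -1`.  `nn`: `pr_inl_lf` (`N(w)` is a lower bound), `pr_inr_lf`, `pr_inl_rho`, `pr_inr_rho`.  `gen`: `zgn`.  `ind`, `card`: a critical ray is some `w ∈ R` (`IsCr_rho`, `s0 ≠ 0`), `CritW a s0 w` (`IsCr_lf`, `hR.facet`): `zsd_ind`, `zsd_card`, `card (Unit ⊕ Fin n) = n + 1`.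
-/

set_option autoImplicit false

namespace Pool.Agent.H37.T5

open Finset H60.RegTri
open Pool.Agent.H56.SMC

/-- ZZS -/
theorem zzs {n r : ℕ} (a : Fin r → (Fin n →₀ ℕ)) (ha : Function.Injective a) (hr : 0 < r)
    (R : Finset (Fin n → ℕ)) (hR : RaySet a R) (s0 : ℂ) (hs0 : s0 ≠ 0)
    (hsimp : ∀ w, CritW a s0 w → SimpF a w) : ZS (vv a R) (ph a) AA BB s0 := by
  classical
  have hwmin : ∀ (w : Fin n → ℕ) (i : Fin r), H22.wmin a w ≤ ∑ j, a i j * w j := fun w i =>
    ciInf_le (OrderBot.bddBelow _) i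
  have hcr : ∀ i : Option R, IsCr AA BB s0 (vv a R i) → ∃ w : R, i = some w ∧
      CritW a s0 w.1 := by
    intro i hi
    cases i with
    | none => exact absurd ((IsCr_rho s0).1 hi) hs0
    | some w => exact ⟨w, rfl, (IsCr_lf s0 w.1 (hR.facet w.1 w.2)).1 hi⟩
  refine ⟨?_, ?_, ?_, ?_, ?_⟩
  · intro i
    cases i with
    | none =>
      right
      show pr BB rho ≠ 0
      rw [pr_BB_rho]
      norm_num
    | some w =>
      left
      show pr AA (lf a w.1) ≠ 0
      rw [pr_AA_lf]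
      intro h
      apply (hR.facet w.1 w.2).1
      funext j
      have h1 : ∑ j, w.1 j = 0 := by exact_mod_cast h
      exact (Finset.sum_eq_zero_iff.1 h1) j (mem_univ j)
  · intro i ω
    cases i with
    | none =>
      rcases ω with q | j
      · show 0 ≤ pr (ph a (Sum.inl q)) rho
        rw [pr_inl_rho]
        norm_num
      · show 0 ≤ pr (ph a (Sum.inr j)) rho
        rw [pr_inr_rho]
    | some w =>
      rcases ω with q | j
      · show 0 ≤ pr (ph a (Sum.inl q)) (lf a w.1)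
        rw [pr_inl_lf]
        have := hwmin w.1 q.1
        omega
      · show 0 ≤ pr (ph a (Sum.inr j)) (lf a w.1)
        rw [pr_inr_lf]
        omega
  · exact zgn a ha hr R hR
  · intro i hi
    obtain ⟨w, rfl, hw⟩ := hcr i hi
    exact zsd_ind a ha w.1 hw.1 (hsimp w.1 hw)
  · intro i hi
    obtain ⟨w, rfl, hw⟩ := hcr i hi
    have h1 := zsd_card a ha w.1 hw.1 (hsimp w.1 hw)
    have h2 : Fintype.card (Unit ⊕ Fin n) = n + 1 := by simp [add_comm]
    rw [h2]
    exact congrArg (· + 1) h1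

end Pool.Agent.H37.T5

end S_ZZS
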