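import Mathlib
import Pool.Agent.H56.SL.Z3
import Pool.Agent.H56.SL.Z2
import Pool.Agent.H22.VolAdd
import Pool.Agent.H56.SL.Z1
import Pool.Agent.H56.SN.V2
import Pool.Agent.H56.SN.V3

/-! Strong monodromy, simplicial critical facets, part V4: this file joins the modules ZJM, ZJT, ZNVOL, ZSR, ZSE, ZSM, ZAPA, ZAPB, ZFIN. -/

set_option autoImplicit false

section S_ZJM

/-!
# ZJM: multiplicities of lifted rays

`mulv (vv a R) (σ.map some) = mulS σ` for `σ ⊆ raysIn a R τ`: the automorphism `(y0; y) ↦ (y0 + a_t·y; y)` of `ℤ^{1+n}` maps `(-N(w); w)` to `(0; w)`, and the torsion of `ℤ^{1+n}/⟨(0; w)⟩` is the torsion of `ℤ^n/⟨w⟩` (compare the proofs of `mulS_insert`, `faceVol_pyr` in ZNL).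
-/

set_option autoImplicit false

namespace Pool.Agent.H37.T5

open Finset H60.RegTri
open Pool.Agent.H56.SMC

theorem ZJM_tor {M M' : Type*} [AddCommGroup M] [AddCommGroup M'] (F : M →ₗ[ℤ] M') {q : M}
    (hq : q ∈ Submodule.torsion ℤ M) : F q ∈ Submodule.torsion ℤ M' := by
  rw [Submodule.mem_torsion_iff] at hq ⊢
  obtain ⟨a, ha⟩ := hq
  refine ⟨a, ?_⟩
  have h : F ((a : ℤ) • q) = 0 := by
    have : (a : ℤ) • q = 0 := ha
    rw [this, map_zero]
  rw [map_smul] at h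
  exact h

theorem ZJM_card {M M' : Type*} [AddCommGroup M] [AddCommGroup M'] (S : Submodule ℤ M)
    (S' : Submodule ℤ M') (f : M →ₗ[ℤ] M') (g : M' →ₗ[ℤ] M) (l : M →ₗ[ℤ] ℤ)
    (hfS : S ≤ S'.comap f) (hgS : S' ≤ S.comap g) (hfg : ∀ y, f (g y) = y)
    (hl : ∀ x ∈ S, l x = 0) (hgf : ∀ x, l x = 0 → g (f x) = x) :
    Nat.card (Submodule.torsion ℤ (M ⧸ S)) = Nat.card (Submodule.torsion ℤ (M' ⧸ S')) := by
  refine Nat.card_congr ⟨fun q => ⟨S.mapQ S' f hfS q.1, ZJM_tor _ q.2⟩,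
    fun q => ⟨S'.mapQ S g hgS q.1, ZJM_tor _ q.2⟩, ?_, ?_⟩
  · rintro ⟨q, hq⟩
    apply Subtype.ext
    obtain ⟨x, rfl⟩ := Submodule.mkQ_surjective _ q
    change S'.mapQ S g hgS (S.mapQ S' f hfS (S.mkQ x)) = S.mkQ x
    rw [Submodule.mkQ_apply, Submodule.mapQ_apply, Submodule.mapQ_apply]
    congr 1
    apply hgf
    rw [Submodule.mem_torsion_iff] at hq
    obtain ⟨m, hm⟩ := hq
    have h1 : S.mkQ ((m : ℤ) • x) = 0 := by
      rw [map_smul]
      exact hm
    rw [Submodule.mkQ_apply, Submodule.Quotient.mk_eq_zero] at h1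
    have h2 := hl _ h1
    rw [map_smul, smul_eq_mul] at h2
    exact (mul_eq_zero.1 h2).resolve_left (nonZeroDivisors.ne_zero m.2)
  · rintro ⟨q, hq⟩
    apply Subtype.ext
    obtain ⟨y, rfl⟩ := Submodule.mkQ_surjective _ q
    change S.mapQ S' f hfS (S'.mapQ S g hgS (S'.mkQ y)) = S'.mkQ y
    rw [Submodule.mkQ_apply, Submodule.mapQ_apply, Submodule.mapQ_apply, hfg]

variable {n r : ℕ} (a : Fin r → (Fin n →₀ ℕ))

/-- The multiplicities. -/
theorem zjt_mul (R : Finset (Fin n → ℕ)) (t : Fin r) (σ : Finset R)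
    (hσ : ∀ w ∈ σ, ∑ j, a t j * w.1 j = H22.wmin a w.1) :
    mulv (vv a R) (σ.map ⟨some, Option.some_injective _⟩) = mulS σ := by
  classical
  unfold mulv mulS H22.latIndex
  let L : (Fin n → ℤ) →ₗ[ℤ] ℤ := ∑ j, (a t j : ℤ) • LinearMap.proj j
  have hL : ∀ y, L y = ∑ j, (a t j : ℤ) * y j := by
    intro y
    simp [L, LinearMap.sum_apply]
  let f : (Unit ⊕ Fin n → ℤ) →ₗ[ℤ] (Fin n → ℤ) :=
    { toFun := fun x j => x (Sum.inr j)
      map_add' := fun _ _ => rfl
      map_smul' := fun _ _ => rfl }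
  let g : (Fin n → ℤ) →ₗ[ℤ] (Unit ⊕ Fin n → ℤ) :=
    { toFun := fun y => Sum.elim (fun _ => - L y) y
      map_add' := fun y z => by
        funext o
        cases o with
        | inl _ => simp; ring
        | inr _ => simp
      map_smul' := fun c y => by
        funext o
        cases o with
        | inl _ =>
          change - L (c • y) = c * (- L y)
          rw [map_smul, smul_eq_mul]
          ring
        | inr _ => simp }
  let l : (Unit ⊕ Fin n → ℤ) →ₗ[ℤ] ℤ := LinearMap.proj (Sum.inl ()) + L ∘ₗ f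
  have hg : ∀ w ∈ σ, g (fun j => ((w.1 j : ℕ) : ℤ)) = lf a w.1 := by
    intro w hw
    funext o
    cases o with
    | inl _ =>
      change - L _ = -(H22.wmin a w.1 : ℤ)
      rw [hL, ← hσ w hw]
      push_cast
      rfl
    | inr j => rfl
  have hf : ∀ w : Fin n → ℕ, f (lf a w) = fun j => ((w j : ℕ) : ℤ) := fun w => rfl
  have hmem : ∀ w ∈ σ, lf a w.1 ∈ Set.range (fun i : (σ.map ⟨some, Option.some_injective _⟩ :
      Finset (Option R)) => vv a R i) := by
    intro w hw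
    exact ⟨⟨some w, by simpa using hw⟩, rfl⟩
  have hmem' : ∀ x ∈ Set.range (fun i : (σ.map ⟨some, Option.some_injective _⟩ :
      Finset (Option R)) => vv a R i), ∃ w ∈ σ, x = lf a w.1 := by
    rintro _ ⟨⟨o, ho⟩, rfl⟩
    obtain ⟨w, hw, rfl⟩ := Finset.mem_map.1 ho
    exact ⟨w, hw, rfl⟩
  refine ZJM_card _ _ f g l ?_ ?_ (fun y => rfl) ?_ ?_
  · rw [Submodule.span_le]
    intro x hx
    obtain ⟨w, hw, rfl⟩ := hmem' x hx
    rw [SetLike.mem_coe, Submodule.mem_comap, hf]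
    exact Submodule.subset_span ⟨⟨w, hw⟩, rfl⟩
  · rw [Submodule.span_le]
    rintro _ ⟨⟨w, hw⟩, rfl⟩
    rw [SetLike.mem_coe, Submodule.mem_comap]
    have h := hg w hw
    simp only [] at h ⊢
    rw [h]
    exact Submodule.subset_span (hmem w hw)
  · intro x hx
    have h : Submodule.span ℤ (Set.range (fun i : (σ.map ⟨some, Option.some_injective _⟩ :
        Finset (Option R)) => vv a R i)) ≤ LinearMap.ker l := by
      rw [Submodule.span_le]
      intro z hz
      obtain ⟨w, hw, rfl⟩ := hmem' z hz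
      change l (lf a w.1) = 0
      change -(H22.wmin a w.1 : ℤ) + L (f (lf a w.1)) = 0
      rw [hf, hL, ← hσ w hw]
      push_cast
      ring
    exact h hx
  · intro x hx
    have hx' : x (Sum.inl ()) + L (f x) = 0 := hx
    funext o
    cases o with
    | inl u =>
      change - L (f x) = x (Sum.inl u)
      have : x (Sum.inl u) = x (Sum.inl ()) := rfl
      rw [this]
      linarith
    | inr j => rfl

end Pool.Agent.H37.T5

end S_ZJM

section S_ZJT

/-!
# ZJT: `J_τ` through the lifted rays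

`T = vt a τ`, nonempty (`zfb_ne`).  `jf_tri` with the heights `fun w => h (some w)` (generic for `rv R` by `hgen'`: a relation in `rv R` is a relation in `rv0 R`) gives `JfunG a τ 𝒟 = ∑_{σ ∈ upT R h' (raysIn a R τ) (n + 1 - faceRank a τ)} tm a σ`, `faceRank a τ = |T|` (`zfb_rank`).  The map `σ ↦ σ.map some` is a bijection onto `TT (vv a R) (ph a) h (inL T)`:
(1) `Gx (vv a R) (ph a) (inL T)` consists of the `some w` with `w ∈ raysIn a R τ`: `rho` is excluded (`pr_inl_rho`, `T` nonempty); `pr_inl_lf = 0` for all `t ∈ T` iff `a_t·w = N(w)` iff `toReal w ∈ minCone a τ` (`zfb_cone`, `wmin` = minimum).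
(2) for a fixed `t ∈ T` all these vectors `(-N(w); w)` satisfy first coordinate `= -a_t·w`, so a linear relation between the `rv R w` is the same as one between the `vR (vv a R) (some w)`: `UpperOn` corresponds, and independence.  (3) the cardinality: `σ.card + |T| = n + 1`, `|T| ≤ n + 1`.
(4) the multiplicities: `zjt_mul`.  (5) the products: `VL_lf`.
-/

set_option autoImplicit false

namespace Pool.Agent.H37.T5

open Finset H60.RegTri
open Pool.Agent.H56.SMC

variable {n r : ℕ} (a : Fin r → (Fin n →₀ ℕ))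

/-- the embedding `some` -/
abbrev ZJT_e {α : Type} : α ↪ Option α := ⟨some, Option.some_injective _⟩

/-- the lift `y ↦ (-(a_t·y); y)` -/
noncomputable def ZJT_L (t : Fin r) : (Fin n → ℝ) →ₗ[ℝ] (Unit ⊕ Fin n → ℝ) where
  toFun y := Sum.elim (fun _ => -(∑ j, (a t j : ℝ) * y j)) y
  map_add' x y := by
    funext o
    rcases o with o | j
    · simp only [Sum.elim_inl, Pi.add_apply, mul_add, sum_add_distrib]; ring
    · simp
  map_smul' c y := by
    funext o
    rcases o with o | j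
    · simp only [Sum.elim_inl, Pi.smul_apply, smul_eq_mul, RingHom.id_apply, mul_neg, neg_inj,
        mul_sum]
      exact sum_congr rfl fun j _ => by ring
    · simp

theorem ZJT_L_inj (t : Fin r) : Function.Injective (ZJT_L a t : (Fin n → ℝ) →ₗ[ℝ] _) := by
  intro x y hxy
  funext j
  exact congrFun hxy (Sum.inr j)

theorem ZJT_vec (R : Finset (Fin n → ℕ)) (t : Fin r) (w : R)
    (hw : ∑ j, a t j * w.1 j = H22.wmin a w.1) :
    vR (vv a R) (some w) = ZJT_L a t (rv R w) := by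
  funext o
  rcases o with o | j
  · show ((-(H22.wmin a w.1 : ℤ) : ℤ) : ℝ) = -(∑ j, (a t j : ℝ) * ((w.1 j : ℕ) : ℝ))
    rw [← hw]
    push_cast
    rfl
  · show (((w.1 j : ℕ) : ℤ) : ℝ) = ((w.1 j : ℕ) : ℝ)
    push_cast
    rfl

theorem ZJT_wmin (w : Fin n → ℕ) (t : Fin r) :
    (∀ l, ∑ j, (a t j : ℝ) * H22.toReal w j ≤ ∑ j, (a l j : ℝ) * H22.toReal w j) ↔
      ∑ j, a t j * w j = H22.wmin a w := by
  constructor
  · intro h
    have h1 : H22.toReal w ∈ H22.minCone a {t} := by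
      refine ⟨fun j => Nat.cast_nonneg _, fun i hi l => ?_⟩
      rw [mem_singleton] at hi
      subst hi
      exact h l
    exact (H22.wmin_eq h1 (mem_singleton_self t)).symm
  · intro h l
    have h1 : H22.wmin a w ≤ ∑ j, a l j * w j := Nat.sInf_le ⟨l, rfl⟩
    rw [← h] at h1
    unfold H22.toReal
    exact_mod_cast h1

/-- the rays at which the functionals of `T` vanish -/
theorem ZJT_Gx (ha : Function.Injective a) (R : Finset (Fin n → ℕ)) (w : Fin n → ℕ)
    (hw : FacetNormal a w) (hs : SimpF a w) (τ : Finset (Fin r)) (hτ : H22.IsFace a τ)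
    (hwτ : H22.toReal w ∈ H22.minCone a τ) (hne : (vt a τ).Nonempty) :
    Gx (vv a R) (ph a) (inL (vt a τ)) = (raysIn a R τ).map ZJT_e := by
  ext o
  rw [mem_Gx, mem_map]
  have hin : ∀ P : OmT a → Prop, (∀ ω ∈ inL (vt a τ), P ω) ↔ ∀ t ∈ vt a τ, P (Sum.inl t) := by
    intro P
    unfold inL
    rw [forall_mem_map]
    rfl
  rw [hin]
  rcases o with _ | u
  · constructor
    · intro h
      obtain ⟨t, ht⟩ := hne
      have h1 := h t ht
      have h2 : pr (ph a (Sum.inl t)) rho = 1 := pr_inl_rho t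
      rw [show vv a R none = rho from rfl, h2] at h1
      exact absurd h1 one_ne_zero
    · rintro ⟨x, -, hx⟩
      exact absurd hx (by simp)
  · have h1 : (∀ t ∈ vt a τ, pr (ph a (Sum.inl t)) (vv a R (some u)) = 0) ↔
        u ∈ raysIn a R τ := by
      rw [mem_raysIn, zfb_cone a ha w hw hs τ hτ hwτ]
      have h2 : ∀ j, 0 ≤ rv R u j := fun j => Nat.cast_nonneg _
      constructor
      · intro h
        refine ⟨h2, fun t ht => ?_⟩
        refine (ZJT_wmin a u.1 t.1).2 ?_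
        have h3 := h t ht
        rw [show vv a R (some u) = lf a u.1 from rfl, pr_inl_lf] at h3
        have h4 : ((∑ j, a t.1 j * u.1 j : ℕ) : ℤ) = (H22.wmin a u.1 : ℤ) := by linarith
        exact_mod_cast h4
      · rintro ⟨-, h⟩ t ht
        have h3 := (ZJT_wmin a u.1 t.1).1 (h t ht)
        rw [show vv a R (some u) = lf a u.1 from rfl, pr_inl_lf, h3, sub_self]
    rw [h1]
    constructor
    · intro h
      exact ⟨u, h, rfl⟩
    · rintro ⟨x, hx, hxe⟩
      have : x = u := Option.some_injective _ hxe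
      rwa [this] at hx

/-- linear independence -/
theorem ZJT_indep {ι κ κ' : Type} (v : ι → κ → ℝ) (v' : Option ι → κ' → ℝ)
    (L : (κ → ℝ) →ₗ[ℝ] (κ' → ℝ)) (hL : Function.Injective L) (σ : Finset ι)
    (hv : ∀ i ∈ σ, v' (some i) = L (v i)) :
    LinearIndepOn ℝ v' ((σ.map ZJT_e : Finset (Option ι)) : Set (Option ι)) ↔
      LinearIndepOn ℝ v (σ : Set ι) := by
  classical
  rw [linearIndepOn_finset_iff, linearIndepOn_finset_iff]
  have hsum : ∀ g : Option ι → ℝ, ∑ i ∈ σ.map ZJT_e, g i • v' i =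
      L (∑ i ∈ σ, g (some i) • v i) := by
    intro g
    rw [sum_map, map_sum]
    refine sum_congr rfl fun i hi => ?_
    rw [map_smul, ← hv i hi]
    rfl
  constructor
  · intro h f hf i hi
    have h1 := h (fun o => o.elim 0 f) (by
      rw [hsum]
      show L (∑ i ∈ σ, f i • v i) = 0
      rw [hf, map_zero]) (some i) (mem_map.2 ⟨i, hi, rfl⟩)
    exact h1
  · intro h f hf i hi
    rw [hsum] at hf
    have h1 : ∑ i ∈ σ, f (some i) • v i = 0 := hL (by rw [hf, map_zero])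
    obtain ⟨u, hu, rfl⟩ := mem_map.1 hi
    exact h (fun i => f (some i)) h1 u hu

theorem ZJT_upper {ι κ κ' : Type} (v : ι → κ → ℝ) (v' : Option ι → κ' → ℝ)
    (L : (κ → ℝ) →ₗ[ℝ] (κ' → ℝ)) (hL : Function.Injective L) (G : Finset ι)
    (hv : ∀ i ∈ G, v' (some i) = L (v i)) (h : Option ι → ℝ) (σ : Finset ι) :
    UpperOn v' h (G.map ZJT_e) (σ.map ZJT_e) ↔ UpperOn v (fun i => h (some i)) G σ := by
  classical
  unfold UpperOn
  rw [map_subset_map]
  constructor
  · rintro ⟨h1, h2, h3⟩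
    refine ⟨h1, (ZJT_indep v v' L hL σ fun i hi => hv i (h1 hi)).1 h2, fun l hl hlσ β hβ => ?_⟩
    have h4 := h3 (some l) (mem_map.2 ⟨l, hl, rfl⟩) (by
      intro hc
      obtain ⟨x, hx, hxe⟩ := mem_map.1 hc
      have : x = l := Option.some_injective _ hxe
      exact hlσ (this ▸ hx)) (fun o => o.elim 0 β) (by
      rw [hv l hl, hβ, sum_map, map_sum]
      refine sum_congr rfl fun i hi => ?_
      rw [map_smul, ← hv i (h1 hi)]
      rfl)
    rw [sum_map] at h4
    exact h4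
  · rintro ⟨h1, h2, h3⟩
    refine ⟨h1, (ZJT_indep v v' L hL σ fun i hi => hv i (h1 hi)).2 h2, fun l hl hlσ β hβ => ?_⟩
    obtain ⟨l, hl', rfl⟩ := mem_map.1 hl
    have hlσ' : l ∉ σ := fun hc => hlσ (mem_map.2 ⟨l, hc, rfl⟩)
    have h4 := h3 l hl' hlσ' (fun i => β (some i)) (by
      apply hL
      rw [← hv l hl']
      refine hβ.trans ?_
      rw [sum_map, map_sum]
      refine sum_congr rfl fun i hi => ?_
      rw [map_smul, ← hv i (h1 hi)]
      rfl)
    rw [sum_map]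
    exact h4

/-- generic heights -/
theorem ZJT_gen (R : Finset (Fin n → ℕ)) (h : Option R → ℝ)
    (hgen' : ∀ τ, GenericOn (rv0 R) h τ) (τ : Finset R) :
    GenericOn (rv R) (fun w => h (some w)) τ := by
  intro σ hσ hind l hl hlσ β hβ
  have hv : ∀ i ∈ σ, rv0 R (some i) = (LinearMap.id : (Fin n → ℝ) →ₗ[ℝ] _) (rv R i) :=
    fun i _ => rfl
  have h1 := hgen' (τ.map ZJT_e) (σ.map ZJT_e) (map_subset_map.2 hσ)
    ((ZJT_indep (rv R) (rv0 R) LinearMap.id (fun _ _ h => h) σ hv).2 hind) (some l)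
    (mem_map.2 ⟨l, hl, rfl⟩) (by
      intro hc
      obtain ⟨x, hx, hxe⟩ := mem_map.1 hc
      have : x = l := Option.some_injective _ hxe
      exact hlσ (this ▸ hx)) (fun o => o.elim 0 β) (by
      rw [sum_map]
      exact hβ)
  rw [sum_map] at h1
  exact h1

theorem ZJT_rank_le (τ : Finset (Fin r)) : H22.faceRank a τ ≤ n + 1 := by
  unfold H22.faceRank
  refine (Submodule.finrank_le _).trans ?_
  rw [Module.finrank_fintype_fun_eq_card, Fintype.card_sum, Fintype.card_fin, Fintype.card_unit]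
  omega

/-- ZJT -/
theorem zjt (ha : Function.Injective a) (hr : 0 < r) (R : Finset (Fin n → ℕ)) (hR : RaySet a R)
    (h : Option R → ℝ) (hgen : ∀ τ, GenericOn (vR (vv a R)) h τ)
    (hgen' : ∀ τ, GenericOn (rv0 R) h τ) (w : Fin n → ℕ) (hw : FacetNormal a w)
    (hs : SimpF a w) (τ : Finset (Fin r)) (hτ : H22.IsFace a τ)
    (hwτ : H22.toReal w ∈ H22.minCone a τ) (𝒟 : H22.FaceCones a τ) :
    H22.JfunG a τ 𝒟 = JT a R h (vt a τ) := by
  classical
  have hne := zfb_ne a ha hr τ hτ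
  obtain ⟨t, ht⟩ := hne
  have hτne : τ.Nonempty := ⟨t.1, vt_mem.1 ht⟩
  rw [jf_tri a R hR (fun w => h (some w)) (ZJT_gen R h hgen') τ hτne hτ 𝒟]
  have hrank := zfb_rank a ha w hw hs τ hτ hwτ
  have hle := ZJT_rank_le a τ
  have hGx := ZJT_Gx a ha R w hw hs τ hτ hwτ ⟨t, ht⟩
  have hmin : ∀ u ∈ raysIn a R τ, ∑ j, a t.1 j * u.1 j = H22.wmin a u.1 := by
    intro u hu
    have h1 := mem_raysIn.1 hu
    exact (H22.wmin_eq h1 (vt_mem.1 ht)).symm
  have hvec : ∀ u ∈ raysIn a R τ, vR (vv a R) (some u) = ZJT_L a t.1 (rv R u) :=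
    fun u hu => ZJT_vec a R t.1 u (hmin u hu)
  have hcard : ∀ σ : Finset R, σ.card + (inL (vt a τ)).card = Fintype.card (Unit ⊕ Fin n) ↔
      σ.card = n + 1 - H22.faceRank a τ := by
    intro σ
    unfold inL
    rw [card_map, ← hrank, Fintype.card_sum, Fintype.card_fin, Fintype.card_unit]
    omega
  have hTT : TT (vv a R) (ph a) h (inL (vt a τ)) =
      (upT R (fun w => h (some w)) (raysIn a R τ) (n + 1 - H22.faceRank a τ)).map
        (mapEmbedding ZJT_e).toEmbedding := by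
    ext σ'
    rw [mem_TT, mem_map, hGx]
    constructor
    · rintro ⟨h1, h2⟩
      obtain ⟨σ, hσ, rfl⟩ := subset_map_iff.1 h1.1
      refine ⟨σ, ?_, rfl⟩
      rw [mem_upT]
      refine ⟨(ZJT_upper (rv R) (vR (vv a R)) _ (ZJT_L_inj a t.1) _ hvec h σ).1 h1, ?_⟩
      rw [card_map] at h2
      exact (hcard σ).1 h2
    · rintro ⟨σ, hσ, rfl⟩
      rw [mem_upT] at hσ
      refine ⟨(ZJT_upper (rv R) (vR (vv a R)) _ (ZJT_L_inj a t.1) _ hvec h σ).2 hσ.1, ?_⟩
      show (σ.map ZJT_e).card + _ = _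
      rw [card_map]
      exact (hcard σ).2 hσ.2
  unfold JT
  rw [hTT, sum_map]
  refine sum_congr rfl fun σ hσ => ?_
  rw [mem_upT] at hσ
  show tm a σ = tmv AA BB (vv a R) (σ.map ZJT_e)
  unfold tm tmv
  rw [zjt_mul a R t.1 σ fun u hu => hmin u (hσ.1.1 hu), prod_map]
  congr 1
  refine prod_congr rfl fun u _ => ?_
  rw [← VL_lf u.1]
  rfl

end Pool.Agent.H37.T5

end S_ZJT

section S_ZNVOL

/-!
# ZNVOL: normalised volumes of simplicial faces

`T' = {i ∈ τ : IsFace a {i}}` (the image of `vt a τ`).  `{T'}` is a `GoodFam a τ` (`Pool.Agent.H22.VolAdd`): `card` by `zfb_rank`, `indep` by `zsd_ind`, `cover`: a nonnegative combination `x` of the rows of `τ` is a nonnegative combination of the rows of `T'` (every `(1, a_i)`, `i ∈ τ`, is a convex combination of the `(1, a_t)`, `t ∈ T'`, by `zfb_cls`/`mem_cls`); if a coefficient at `t ∈ T'` is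
`0` then the point is in the span of `T' \ t`, excluded for generic `x`; so all coefficients are positive.  The `GoodFam` of `𝒯`: `FaceTriang.goodFam`.  `GoodFam.sum_eq`: `nvol 𝒯 = faceVol a T'`, and `faceVol a T' = mulv (ph a) (inL (vt a τ))` (same set of vectors: `znjt_latIndex`-like, `latIndex` depends only on the range).
-/

set_option autoImplicit false

namespace Pool.Agent.H37.T5

open Finset H60.RegTri
open Pool.Agent.H56.SMC

variable {n r : ℕ} (a : Fin r → (Fin n →₀ ℕ))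

/-- The exponents of a set of vertices. -/
theorem ZNVOL_mulv (T : Finset (Vx a)) :
    mulv (ph a) (inL T) = H22.faceVol a (T.image (fun t => t.1)) := by
  classical
  unfold mulv H22.faceVol H22.latIndex
  have h : Set.range (fun i : (inL T : Finset (OmT a)) => ph a i) =
      Set.range (fun i : (T.image (fun t => t.1) : Finset (Fin r)) => H22.homRow a i) := by
    ext z
    simp only [Set.mem_range]
    constructor
    · rintro ⟨⟨i, hi⟩, rfl⟩
      obtain ⟨t, ht, rfl⟩ := Finset.mem_map.1 hi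
      exact ⟨⟨t.1, Finset.mem_image.2 ⟨t, ht, rfl⟩⟩, rfl⟩
    · rintro ⟨⟨i, hi⟩, rfl⟩
      obtain ⟨t, ht, rfl⟩ := Finset.mem_image.1 hi
      exact ⟨⟨Sum.inl t, Finset.mem_map.2 ⟨t, ht, rfl⟩⟩, rfl⟩
  rw [h]

theorem ZNVOL_mem {τ : Finset (Fin r)} {i : Fin r} :
    i ∈ (vt a τ).image (fun t => t.1) ↔ i ∈ τ ∧ H22.IsFace a {i} := by
  rw [Finset.mem_image]
  constructor
  · rintro ⟨t, ht, rfl⟩
    exact ⟨vt_mem.1 ht, t.2⟩
  · rintro ⟨h1, h2⟩
    exact ⟨⟨i, h2⟩, vt_mem.2 h1, rfl⟩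

theorem ZNVOL_row (T : Finset (Fin r)) (i : Fin r)
    (h : H22.pointR a i ∈ convexHull ℝ (H22.pointR a '' (T : Set (Fin r)))) :
    ∃ θ : Fin r → ℝ, (∀ t, 0 ≤ θ t) ∧ H22.rowR a i = ∑ t ∈ T, θ t • H22.rowR a t := by
  classical
  obtain ⟨θ, h1, h2, h3⟩ := H22.exists_of_mem_convexHull _ _ h
  refine ⟨fun t => if t ∈ T then θ t else 0, fun t => ?_, ?_⟩
  · dsimp only
    split_ifs with ht
    · exact h1 t ht
    · exact le_rfl
  · have h4 : ∑ t ∈ T, (if t ∈ T then θ t else 0) • H22.rowR a t =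
        ∑ t ∈ T, θ t • H22.rowR a t :=
      Finset.sum_congr rfl fun t ht => by rw [if_pos ht]
    rw [h4]
    funext y
    rcases y with y | y
    · rw [H22.sum_rowR_inl, h2]
      rfl
    · have h5 := congrFun (H22.sum_rowR_inr a T θ) y
      rw [h5, ← h3]
      rfl

/-- ZNVOL -/
theorem znvol (ha : Function.Injective a) (hr : 0 < r) (w : Fin n → ℕ) (hw : FacetNormal a w)
    (hs : SimpF a w) (τ : Finset (Fin r)) (hτ : H22.IsFace a τ)
    (hwτ : H22.toReal w ∈ H22.minCone a τ) (𝒯 : H22.FaceTriang a τ) :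
    H22.nvol 𝒯 = mulv (ph a) (inL (vt a τ)) := by
  classical
  rw [ZNVOL_mulv]
  set T' : Finset (Fin r) := (vt a τ).image (fun t => t.1) with hT'
  have hsub : T' ⊆ τ := fun i hi => ((ZNVOL_mem a).1 hi).1
  have hcard : T'.card = H22.faceRank a τ := by
    rw [zfb_rank a ha w hw hs τ hτ hwτ, hT']
    exact Finset.card_image_of_injective _ Subtype.val_injective
  have hne : τ.Nonempty := by
    obtain ⟨t, ht⟩ := zfb_ne a ha hr τ hτ
    exact ⟨t.1, vt_mem.1 ht⟩
  have hind : LinearIndependent ℝ (fun i : T' => H22.rowR a i) := by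
    have h1 := zsd_ind a ha w hw hs
    have h2 : ∀ i : T', pr (ph a (Sum.inl ⟨i.1, ((ZNVOL_mem a).1 i.2).2⟩)) (lf a w) = 0 := by
      intro i
      rw [pr_inl_lf, H22.wmin_eq hwτ (hsub i.2)]
      simp
    have h3 := h1.linearIndependent.comp (fun i : T' =>
      (⟨Sum.inl ⟨i.1, ((ZNVOL_mem a).1 i.2).2⟩, h2 i⟩ : {ω | pr (ph a ω) (lf a w) = 0})) (by
        intro i j hij
        have h4 := congrArg Subtype.val hij
        have h5 := Sum.inl_injective h4
        exact Subtype.ext (congrArg (fun t : Vx a => t.1) h5))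
    have h6 : (fun i : T' => H22.rowR a i) = (fun x : {ω | pr (ph a ω) (lf a w) = 0} =>
        vR (ph a) x.1) ∘ (fun i : T' =>
      (⟨Sum.inl ⟨i.1, ((ZNVOL_mem a).1 i.2).2⟩, h2 i⟩ : {ω | pr (ph a ω) (lf a w) = 0})) := by
      funext i
      exact (vR_inl a ⟨i.1, ((ZNVOL_mem a).1 i.2).2⟩).symm
    rw [h6]
    exact h3
  have hrow : ∀ i, ∃ θ : Fin r → ℝ, (∀ t, 0 ≤ θ t) ∧
      (i ∈ τ → H22.rowR a i = ∑ t ∈ T', θ t • H22.rowR a t) := by
    intro i
    by_cases hi : i ∈ τ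
    · have h1 : i ∈ cls a (vt a τ) := by rw [zfb_cls a ha w hw hs τ hτ hwτ]; exact hi
      rw [mem_cls] at h1
      have h2 : {x | ∃ t ∈ vt a τ, x = H22.pointR a t.1} = H22.pointR a '' (T' : Set (Fin r)) := by
        ext x
        constructor
        · rintro ⟨t, ht, rfl⟩
          exact ⟨t.1, Finset.mem_image.2 ⟨t, ht, rfl⟩, rfl⟩
        · rintro ⟨j, hj, rfl⟩
          obtain ⟨t, ht, rfl⟩ := Finset.mem_image.1 hj
          exact ⟨t, ht, rfl⟩
      rw [h2] at h1
      obtain ⟨θ, h3, h4⟩ := ZNVOL_row a T' i h1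
      exact ⟨θ, h3, fun _ => h4⟩
    · exact ⟨0, fun _ => le_rfl, fun h => absurd h hi⟩
  choose θ hθ0 hθ using hrow
  have hgood : H22.GoodFam a τ {T'} := by
    refine ⟨?_, ?_, ?_, ?_, ?_⟩
    · intro σ hσ
      rw [Finset.mem_singleton.1 hσ]; exact hsub
    · intro σ hσ
      rw [Finset.mem_singleton.1 hσ]; exact hcard
    · intro σ hσ
      rw [Finset.mem_singleton.1 hσ]; exact hind
    · intro σ hσ σ' hσ' hne
      exact absurd ((Finset.mem_singleton.1 hσ).trans (Finset.mem_singleton.1 hσ').symm) hne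
    · intro x hx hgen
      refine ⟨T', Finset.mem_singleton_self _, ?_⟩
      set z : Fin r → ℝ := fun t => ∑ i ∈ τ, x i * θ i t with hz
      have hsum : ∑ i ∈ τ, x i • H22.rowR a i = ∑ t ∈ T', z t • H22.rowR a t := by
        rw [Finset.sum_congr rfl (fun i hi => by rw [hθ i hi, Finset.smul_sum])]
        rw [Finset.sum_comm]
        refine Finset.sum_congr rfl fun t _ => ?_
        rw [hz, Finset.sum_smul]
        exact Finset.sum_congr rfl fun i _ => smul_smul _ _ _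
      have hz0 : ∀ t, 0 ≤ z t := fun t => Finset.sum_nonneg fun i hi => mul_nonneg (hx i hi) (hθ0 i t)
      refine ⟨z, fun t ht => ?_, hsum⟩
      refine lt_of_le_of_ne (hz0 t) fun h0 => ?_
      refine hgen (T'.erase t) ((Finset.erase_subset _ _).trans hsub) ?_ ?_
      · rw [Finset.card_erase_of_mem ht, hcard]
        have : 0 < T'.card := Finset.card_pos.2 ⟨t, ht⟩
        omega
      · rw [hsum, ← Finset.add_sum_erase _ _ ht, ← h0, zero_smul, zero_add]
        exact Submodule.sum_mem _ fun i hi => Submodule.smul_mem _ _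
          (Submodule.subset_span ⟨i, hi, rfl⟩)
  have h := hgood.sum_eq (H22.FaceTriang.goodFam hne 𝒯) (Finset.mem_singleton_self _)
  rw [Finset.sum_singleton] at h
  exact h.symm

/-- The multiplicity of a single vertex. -/
theorem znvol_single (q : Vx a) : mulv (ph a) (inL {q}) = 1 := by
  rw [ZNVOL_mulv, Finset.image_singleton]
  exact ZNL_faceVol_single a q.1

end Pool.Agent.H37.T5

end S_ZNVOL

section S_ZSR

/-!
# ZSR: noncritical sets of vertices

All congruences modulo functions regular at `s0`.  `R` is finite; call a nonempty set `τ` of exponents (resp. `T` of vertices) critical if some `w ∈ R`, `CritW a s0 w`, has `toReal w ∈ minCone a τ` (resp. `a_t·w = N(w)` for all `t ∈ T`).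

`zsm_reg`: `T` nonempty, not critical: `JT T` is regular: a critical ray (`IsCr`) in `Gx (inL T)` would be a `some w` (`IsCr_rho`), `CritW` (`IsCr_lf`), with `a_t·w = N(w)` (`pr_inl_lf`); so all `σ ∈ TT` consist of noncritical rays: `tm_regv`.  For a noncritical nonempty face `τ`: `JfunG a τ 𝒟` is regular by `jf_tri` and `tm_reg`.
-/

set_option autoImplicit false

namespace Pool.Agent.H37.T5

open Finset H60.RegTri
open Pool.Agent.H56.SMC

variable {n r : ℕ} (a : Fin r → (Fin n →₀ ℕ))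

theorem zsm_reg (R : Finset (Fin n → ℕ)) (hR : RaySet a R)
    (h : Option R → ℝ) (s0 : ℂ) (hs0 : s0 ≠ 0) (hZ : ZS (vv a R) (ph a) AA BB s0)
    (T : Finset (Vx a)) (hT : T.Nonempty)
    (hno : ¬ ∃ w ∈ R, CritW a s0 w ∧ ∀ t ∈ T, ∑ j, a t.1 j * w j = H22.wmin a w) :
    H37.SM.Reg s0 (JT a R h T) := by
  classical
  rw [JT]
  refine H37.SM.Reg.sum _ _ fun σ hσ => ?_
  rw [tmv]
  refine (H37.SM.reg_natCast _).mul (tm_regv hZ σ fun i hi hc => ?_)
  have h1 := (mem_TT.1 hσ).1.1 hi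
  rw [mem_Gx] at h1
  rcases i with _ | w
  · exact hs0 ((IsCr_rho s0).1 hc)
  · apply hno
    refine ⟨w.1, w.2, (IsCr_lf s0 w.1 (hR.facet w.1 w.2)).1 hc, fun t ht => ?_⟩
    have h2 : pr (ph a (Sum.inl t)) (lf a w.1) = 0 := h1 (Sum.inl t) (mem_map.2 ⟨t, ht, rfl⟩)
    rw [pr_inl_lf] at h2
    have h3 : ((∑ j, a t.1 j * w.1 j : ℕ) : ℤ) = (H22.wmin a w.1 : ℤ) := by linarith
    exact_mod_cast h3

end Pool.Agent.H37.T5

end S_ZSR

section S_ZSE

/-!
# ZSE: the empty set of vertices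

`zsm_empty`: `-X * JT ∅ ≡ ∑_{q} JT {q}`: `zemp` with `Cl` = all critical rays, `e0 = none`, `VL_rho`, `pr_inl_rho`, `pr_inr_rho`; `JJ Ξ = ν(Ξ)⁻¹ ∑_{TC} tmv ≡ ν(Ξ)⁻¹ ∑_{TT} tmv` (`tm_regv`), `ν(∅) = 1`, `ν({q}) = 1`.
-/

set_option autoImplicit false

namespace Pool.Agent.H37.T5

open Finset H60.RegTri
open Pool.Agent.H56.SMC

variable {n r : ℕ} (a : Fin r → (Fin n →₀ ℕ))

/-- The critical rays. -/
private noncomputable def ZSE_Cl (R : Finset (Fin n → ℕ)) (s0 : ℂ) : Finset (Option R) := by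
  classical
  exact univ.filter (fun i => IsCr AA BB s0 (vv a R i))

private theorem ZSE_mem {R : Finset (Fin n → ℕ)} {s0 : ℂ} {i : Option R} :
    i ∈ ZSE_Cl a R s0 ↔ IsCr AA BB s0 (vv a R i) := by
  classical
  simp [ZSE_Cl]

private theorem ZSE_reg (R : Finset (Fin n → ℕ)) (h : Option R → ℝ) (s0 : ℂ)
    (hZ : ZS (vv a R) (ph a) AA BB s0) (T : Finset (Vx a)) :
    H37.SM.Reg s0 (JT a R h T -
      ∑ σ ∈ TC (vv a R) (ph a) h (ZSE_Cl a R s0) (inL T), tmv AA BB (vv a R) σ) := by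
  classical
  have hsub : TC (vv a R) (ph a) h (ZSE_Cl a R s0) (inL T) ⊆ TT (vv a R) (ph a) h (inL T) :=
    fun σ hσ => (mem_TC.1 hσ).1
  unfold JT
  rw [← Finset.sum_sdiff hsub, add_sub_cancel_right]
  refine H37.SM.Reg.sum _ _ fun σ hσ => ?_
  rw [mem_sdiff, mem_TC, not_and] at hσ
  unfold tmv
  refine (H37.SM.reg_natCast _).mul (tm_regv hZ σ fun i hi hcr => ?_)
  exact hσ.2 hσ.1 ⟨i, hi, (ZSE_mem a).2 hcr⟩

theorem zsm_empty (R : Finset (Fin n → ℕ))
    (h : Option R → ℝ) (hgen : ∀ τ, GenericOn (vR (vv a R)) h τ)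
    (s0 : ℂ) (hs0 : s0 ≠ 0) (hZ : ZS (vv a R) (ph a) AA BB s0)
    (htop : ∀ σ : Finset (Option R), none ∉ σ →
      LinearIndepOn ℝ (vR (vv a R)) (σ : Set (Option R)) → ∀ β : Option R → ℝ,
      vR (vv a R) none = ∑ i ∈ σ, β i • vR (vv a R) i → ∑ i ∈ σ, β i * h i < h none) :
    H37.SM.Reg s0 (RatFunc.X * JT a R h ∅ + ∑ q : Vx a, JT a R h {q}) := by
  classical
  have hnone : vv a R none = rho := rfl
  have he0 : ¬ IsCr AA BB s0 (vv a R none) := by
    rw [hnone, IsCr_rho]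
    exact hs0
  have h1 := zemp hZ h hgen none he0 htop (ZSE_Cl a R s0) (fun c hc => (ZSE_mem a).1 hc)
  rw [hnone, VL_rho, Fintype.sum_sum_type] at h1
  simp only [pr_inl_rho, pr_inr_rho, Int.cast_one, Int.cast_zero, one_mul, zero_mul,
    Finset.sum_const_zero, add_zero] at h1
  have h2 : JJ (vv a R) (ph a) AA BB h (ZSE_Cl a R s0) ∅
      = ∑ σ ∈ TC (vv a R) (ph a) h (ZSE_Cl a R s0) (inL (∅ : Finset (Vx a))),
        tmv AA BB (vv a R) σ := by
    have h3 : (inL (∅ : Finset (Vx a))) = ∅ := by simp [inL]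
    rw [JJ, mulv_empty, h3, Nat.cast_one, inv_one, one_mul]
  have h4 : ∀ q : Vx a, JJ (vv a R) (ph a) AA BB h (ZSE_Cl a R s0) {Sum.inl q}
      = ∑ σ ∈ TC (vv a R) (ph a) h (ZSE_Cl a R s0) (inL {q}), tmv AA BB (vv a R) σ := by
    intro q
    have h3 : (inL {q} : Finset (OmT a)) = {Sum.inl q} := by simp [inL]
    have h5 := znvol_single a q
    rw [h3] at h5
    rw [JJ, h5, h3, Nat.cast_one, inv_one, one_mul]
  simp only [h2, h4] at h1
  have h6 : RatFunc.X * JT a R h ∅ + ∑ q : Vx a, JT a R h {q}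
      = RatFunc.X * (JT a R h ∅ -
        ∑ σ ∈ TC (vv a R) (ph a) h (ZSE_Cl a R s0) (inL (∅ : Finset (Vx a))),
          tmv AA BB (vv a R) σ)
        + ∑ q : Vx a, (JT a R h {q} -
          ∑ σ ∈ TC (vv a R) (ph a) h (ZSE_Cl a R s0) (inL {q}), tmv AA BB (vv a R) σ) := by
    rw [Finset.sum_sub_distrib, ← h1]
    ring
  rw [h6]
  exact (H37.SM.reg_X.mul (ZSE_reg a R h s0 hZ ∅)).add
    (H37.SM.Reg.sum _ _ fun q _ => ZSE_reg a R h s0 hZ {q})

end Pool.Agent.H37.T5

end S_ZSE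

section S_ZSM

/-!
# ZSM: the topological zeta function modulo regular functions

All congruences modulo functions regular at `s0`.  `R` is finite; call a nonempty set `τ` of exponents (resp. `T` of vertices) critical if some `w ∈ R`, `CritW a s0 w`, has `toReal w ∈ minCone a τ` (resp. `a_t·w = N(w)` for all `t ∈ T`).

The faces: the map `τ ↦ vt a τ` is a bijection from the critical faces to the critical nonempty sets of vertices with inverse `T ↦ cls a T` (`zfb_cls`, `zfb_ne`, `zfb_face`, `zfb_vt`, `zfb_mem`; if `w ∈ R` critical, `toReal w ∈ minCone a τ`, then `a_i·w = N(w)` on `τ` by `H22.wmin_eq`), and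
`JfunG a τ 𝒟 = JT (vt a τ)` (`zjt`), `faceRank a τ = |vt a τ|`, `nvol = mulv (ph a) (inL (vt a τ))` (`znvol`).

`zsm`: `Z ≡ ∑_{|T| = 1} JT T + X/(X+1) ∑_{|T| ≥ 2} (-1)^(|T|-1) ν(T) JT T` (sums over all nonempty `T`; the noncritical ones are regular on both sides), and `X/(X+1) * (JT ∅ - ∑_q JT {q}) ≡ X/(X+1) * (-1/X - 1) ∑_q JT {q} = -∑_q JT {q}` (`s0 ≠ 0, -1`; `X/(X+1)` and `1/X` are regular).  So `Z + X/(X+1) ∑_T (-1)^|T| ν(T) JT T ≡ 0`.
-/

set_option autoImplicit false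

namespace Pool.Agent.H37.T5

open Finset H60.RegTri
open Pool.Agent.H56.SMC

variable {n r : ℕ} (a : Fin r → (Fin n →₀ ℕ))

/-- critical sets of vertices -/
def ZSM_cT (R : Finset (Fin n → ℕ)) (s0 : ℂ) (T : Finset (Vx a)) : Prop :=
  ∃ w ∈ R, CritW a s0 w ∧ ∀ t ∈ T, ∑ j, a t.1 j * w j = H22.wmin a w

/-- critical faces -/
def ZSM_cF (R : Finset (Fin n → ℕ)) (s0 : ℂ) (τ : Finset (Fin r)) : Prop :=
  ∃ w ∈ R, CritW a s0 w ∧ H22.toReal w ∈ H22.minCone a τ

/-- noncritical faces have regular `J` -/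
theorem ZSM_regF (R : Finset (Fin n → ℕ)) (hR : RaySet a R) (s0 : ℂ) (τ : Finset (Fin r))
    (hne : τ.Nonempty) (hF : H22.IsFace a τ) (hno : ¬ ZSM_cF a R s0 τ) (𝒟 : H22.FaceCones a τ) :
    H37.SM.Reg s0 (H22.JfunG a τ 𝒟) := by
  classical
  obtain ⟨h, hh⟩ := exists_generic (rv R)
  rw [jf_tri a R hR h hh τ hne hF 𝒟]
  refine H37.SM.Reg.sum _ _ fun σ hσ => tm_reg a R hR s0 σ fun w hw hc => hno ?_
  have h1 := (mem_upT.1 hσ).1.1 hw
  exact ⟨w.1, w.2, hc, mem_raysIn.1 h1⟩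

theorem ZSM_face_ne (hr : 0 < r) (τ : Finset (Fin r)) (hF : H22.IsFace a τ) : τ.Nonempty := by
  obtain ⟨k, -, hk⟩ := hF
  have : Nonempty (Fin r) := ⟨⟨0, hr⟩⟩
  obtain ⟨l, hl⟩ := Finite.exists_min (fun l => ∑ j, (a l j : ℝ) * k j)
  exact ⟨l, (hk l).2 hl⟩

/-- comparison of a sum over faces with a sum over sets of vertices -/
theorem ZSM_cmp (ha : Function.Injective a) (hr : 0 < r) (R : Finset (Fin n → ℕ))
    (hR : RaySet a R) (s0 : ℂ) (hsimp : ∀ w, CritW a s0 w → SimpF a w) (P : ℕ → Prop)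
    [DecidablePred P] (hP : ∀ k, P k → 1 ≤ k)
    (G : Finset (Fin r) → RatFunc ℂ) (H : Finset (Vx a) → RatFunc ℂ)
    (hG : ∀ τ, H22.IsFace a τ → τ.Nonempty → ¬ ZSM_cF a R s0 τ → H37.SM.Reg s0 (G τ))
    (hH : ∀ T, T.Nonempty → ¬ ZSM_cT a R s0 T → H37.SM.Reg s0 (H T))
    (hGH : ∀ τ, H22.IsFace a τ → ∀ w ∈ R, CritW a s0 w → H22.toReal w ∈ H22.minCone a τ →
      G τ = H (vt a τ)) (F : Finset (Finset (Fin r)))
    (hF : ∀ τ, τ ∈ F ↔ H22.IsFace a τ ∧ P (H22.faceRank a τ)) :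
    H37.SM.Reg s0 (∑ τ ∈ F, G τ - ∑ T ∈ univ.filter (fun T : Finset (Vx a) => P T.card), H T) := by
  classical
  set S := univ.filter (fun T : Finset (Vx a) => P T.card) with hS
  have hSm : ∀ T, T ∈ S ↔ P T.card := fun T => by rw [hS, mem_filter]; simp
  rw [← Finset.sum_filter_add_sum_filter_not F (fun τ => ZSM_cF a R s0 τ),
    ← Finset.sum_filter_add_sum_filter_not S (fun T => ZSM_cT a R s0 T)]
  have hbij : ∑ τ ∈ F.filter (fun τ => ZSM_cF a R s0 τ), G τ =
      ∑ T ∈ S.filter (fun T => ZSM_cT a R s0 T), H T := by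
    refine Finset.sum_bij' (fun τ _ => vt a τ) (fun T _ => cls a T) ?_ ?_ ?_ ?_ ?_
    · intro τ hτ
      obtain ⟨h1, w, hw, hc, hm⟩ := mem_filter.1 hτ
      obtain ⟨h2, h3⟩ := (hF τ).1 h1
      rw [mem_filter]
      refine ⟨(hSm _).2 ?_, w, hw, hc, fun t ht => ?_⟩
      · rw [← zfb_rank a ha w (hR.facet w hw) (hsimp w hc) τ h2 hm]
        exact h3
      · exact (H22.wmin_eq hm (vt_mem.1 ht)).symm
    · intro T hT
      obtain ⟨h1, w, hw, hc, hm⟩ := mem_filter.1 hT
      have h2 := (hSm T).1 h1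
      have hne : T.Nonempty := Finset.card_pos.1 (hP _ h2)
      have h3 := zfb_face a ha w (hR.facet w hw) (hsimp w hc) T hne hm
      have h4 := zfb_mem a w T hm
      rw [mem_filter]
      refine ⟨(hF _).2 ⟨h3, ?_⟩, w, hw, hc, h4⟩
      rw [zfb_rank a ha w (hR.facet w hw) (hsimp w hc) _ h3 h4, zfb_vt a ha T]
      exact h2
    · intro τ hτ
      obtain ⟨h1, w, hw, hc, hm⟩ := mem_filter.1 hτ
      exact zfb_cls a ha w (hR.facet w hw) (hsimp w hc) τ ((hF τ).1 h1).1 hm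
    · intro T hT
      exact zfb_vt a ha T
    · intro τ hτ
      obtain ⟨h1, w, hw, hc, hm⟩ := mem_filter.1 hτ
      exact hGH τ ((hF τ).1 h1).1 w hw hc hm
  rw [hbij]
  have e : ∀ A B C : RatFunc ℂ, A + B - (A + C) = B - C := fun A B C => by ring
  rw [e]
  refine H37.SM.Reg.sub (H37.SM.Reg.sum _ _ fun τ hτ => ?_) (H37.SM.Reg.sum _ _ fun T hT => ?_)
  · obtain ⟨h1, h2⟩ := mem_filter.1 hτ
    have h3 := ((hF τ).1 h1).1
    exact hG τ h3 (ZSM_face_ne a hr τ h3) h2
  · obtain ⟨h1, h2⟩ := mem_filter.1 hT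
    exact hH T (Finset.card_pos.1 (hP _ ((hSm T).1 h1))) h2

theorem ZSM_sign (s0 : ℂ) (k : ℕ) : H37.SM.Reg s0 ((-1 : RatFunc ℂ) ^ k) := by
  rcases neg_one_pow_eq_or (RatFunc ℂ) k with h | h
  · rw [h]
    have := H37.SM.reg_natCast (s0 := s0) 1
    rwa [Nat.cast_one] at this
  · rw [h]
    have := H37.SM.reg_natCast (s0 := s0) 1
    rw [Nat.cast_one] at this
    exact this.neg

/-- singletons -/
def ZSM_sg : Vx a ↪ Finset (Vx a) := ⟨fun q => {q}, fun x y hxy => by simpa using hxy⟩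

theorem ZSM_sg_apply (q : Vx a) : ZSM_sg a q = {q} := rfl

/-- ZSM -/
theorem zsm (ha : Function.Injective a) (hr : 0 < r) (R : Finset (Fin n → ℕ)) (hR : RaySet a R)
    (h : Option R → ℝ) (hgen : ∀ τ, GenericOn (vR (vv a R)) h τ)
    (hgen' : ∀ τ, GenericOn (rv0 R) h τ) (s0 : ℂ) (hs0 : s0 ≠ 0) (hs1 : s0 ≠ -1)
    (hsimp : ∀ w, CritW a s0 w → SimpF a w)
    (htop : ∀ σ : Finset (Option R), none ∉ σ →
      LinearIndepOn ℝ (vR (vv a R)) (σ : Set (Option R)) → ∀ β : Option R → ℝ,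
      vR (vv a R) none = ∑ i ∈ σ, β i • vR (vv a R) i → ∑ i ∈ σ, β i * h i < h none)
    (𝒟 : ∀ τ, H22.FaceCones a τ) (𝒯 : ∀ τ, H22.FaceTriang a τ) :
    H37.SM.Reg s0 (H22.topZetaG a 𝒟 𝒯 + RatFunc.X / (RatFunc.X + 1) *
      ∑ T : Finset (Vx a), (-1) ^ T.card * (mulv (ph a) (inL T) : RatFunc ℂ) * JT a R h T) := by
  classical
  have hZ := zzs a ha hr R hR s0 hs0 hsimp
  -- the vertices
  have k1 := ZSM_cmp a ha hr R hR s0 hsimp (fun k => k = 1) (fun k hk => hk.ge)
    (fun τ => H22.JfunG a τ (𝒟 τ)) (fun T => JT a R h T)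
    (fun τ hF hne hno => ZSM_regF a R hR s0 τ hne hF hno (𝒟 τ))
    (fun T hT hno => zsm_reg a R hR h s0 hs0 hZ T hT hno)
    (fun τ hF w hw hc hm => zjt a ha hr R hR h hgen hgen' w (hR.facet w hw) (hsimp w hc) τ hF hm (𝒟 τ))
    (univ.filter (fun τ : Finset (Fin r) => H22.IsFace a τ ∧ H22.faceRank a τ = 1))
    (fun τ => by rw [mem_filter]; simp)
  -- the other faces
  have k2 := ZSM_cmp a ha hr R hR s0 hsimp (fun k => 2 ≤ k) (fun k hk => by omega)
    (fun τ => (-1) ^ (H22.faceRank a τ - 1) * (H22.nvol (𝒯 τ) : RatFunc ℂ) * H22.JfunG a τ (𝒟 τ))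
    (fun T => (-1) ^ (T.card - 1) * (mulv (ph a) (inL T) : RatFunc ℂ) * JT a R h T)
    (fun τ hF hne hno => ((ZSM_sign s0 _).mul (H37.SM.reg_natCast _)).mul
      (ZSM_regF a R hR s0 τ hne hF hno (𝒟 τ)))
    (fun T hT hno => ((ZSM_sign s0 _).mul (H37.SM.reg_natCast _)).mul
      (zsm_reg a R hR h s0 hs0 hZ T hT hno))
    (fun τ hF w hw hc hm => by
      show _ * _ * _ = _ * _ * _
      rw [zjt a ha hr R hR h hgen hgen' w (hR.facet w hw) (hsimp w hc) τ hF hm (𝒟 τ),
        znvol a ha hr w (hR.facet w hw) (hsimp w hc) τ hF hm (𝒯 τ),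
        zfb_rank a ha w (hR.facet w hw) (hsimp w hc) τ hF hm])
    (univ.filter (fun τ : Finset (Fin r) => H22.IsFace a τ ∧ 2 ≤ H22.faceRank a τ))
    (fun τ => by rw [mem_filter]; simp)
  have k3 := zsm_empty a R h hgen s0 hs0 hZ htop
  -- the sum over all sets of vertices
  have hsplit : ∑ T : Finset (Vx a), (-1) ^ T.card * (mulv (ph a) (inL T) : RatFunc ℂ) * JT a R h T =
      JT a R h ∅ - ∑ q : Vx a, JT a R h {q} -
        ∑ T ∈ univ.filter (fun T : Finset (Vx a) => 2 ≤ T.card),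
          (-1) ^ (T.card - 1) * (mulv (ph a) (inL T) : RatFunc ℂ) * JT a R h T := by
    rw [← Finset.sum_filter_add_sum_filter_not univ (fun T : Finset (Vx a) => 2 ≤ T.card)]
    have e1 : ∑ T ∈ univ.filter (fun T : Finset (Vx a) => 2 ≤ T.card),
        (-1) ^ T.card * (mulv (ph a) (inL T) : RatFunc ℂ) * JT a R h T =
        -∑ T ∈ univ.filter (fun T : Finset (Vx a) => 2 ≤ T.card),
          (-1) ^ (T.card - 1) * (mulv (ph a) (inL T) : RatFunc ℂ) * JT a R h T := by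
      rw [← Finset.sum_neg_distrib]
      refine Finset.sum_congr rfl fun T hT => ?_
      have h2 : 2 ≤ T.card := (mem_filter.1 hT).2
      obtain ⟨m, hm⟩ : ∃ m, T.card = m + 1 := ⟨T.card - 1, by omega⟩
      rw [hm, Nat.add_sub_cancel, pow_succ]
      ring
    have e2 : univ.filter (fun T : Finset (Vx a) => ¬ 2 ≤ T.card) =
        insert ∅ ((univ : Finset (Vx a)).map (ZSM_sg a)) := by
      ext T
      rw [mem_filter, mem_insert, mem_map]
      constructor
      · rintro ⟨-, h2⟩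
        rcases Nat.eq_zero_or_pos T.card with h0 | h0
        · exact Or.inl (Finset.card_eq_zero.1 h0)
        · right
          have h1 : T.card = 1 := by omega
          obtain ⟨q, rfl⟩ := Finset.card_eq_one.1 h1
          exact ⟨q, mem_univ _, rfl⟩
      · rintro (rfl | ⟨q, -, rfl⟩)
        · simp
        · rw [ZSM_sg_apply]; simp
    rw [e1, e2, Finset.sum_insert (by
      rw [mem_map]
      rintro ⟨q, -, hq⟩
      rw [ZSM_sg_apply] at hq
      exact Finset.singleton_ne_empty q hq), Finset.sum_map]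
    have e3 : inL (∅ : Finset (Vx a)) = ∅ := by simp [inL]
    rw [e3, mulv_empty]
    have e4 : ∑ q : Vx a, (-1) ^ (({q} : Finset (Vx a)).card) *
        (mulv (ph a) (inL {q}) : RatFunc ℂ) * JT a R h {q} = -∑ q : Vx a, JT a R h {q} := by
      rw [← Finset.sum_neg_distrib]
      refine Finset.sum_congr rfl fun q _ => ?_
      rw [znvol_single, Finset.card_singleton]
      push_cast
      ring
    have e5 : ∑ x : Vx a, (-1) ^ ((ZSM_sg a x).card) * (mulv (ph a) (inL (ZSM_sg a x)) : RatFunc ℂ) *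
        JT a R h (ZSM_sg a x) = -∑ q : Vx a, JT a R h {q} := e4
    rw [e5, Finset.card_empty]
    push_cast
    ring
  -- the single vertices
  have hone : ∑ T ∈ univ.filter (fun T : Finset (Vx a) => T.card = 1), JT a R h T =
      ∑ q : Vx a, JT a R h {q} := by
    have e2 : univ.filter (fun T : Finset (Vx a) => T.card = 1) =
        (univ : Finset (Vx a)).map (ZSM_sg a) := by
      ext T
      rw [mem_filter, mem_map]
      constructor
      · rintro ⟨-, h1⟩
        obtain ⟨q, rfl⟩ := Finset.card_eq_one.1 h1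
        exact ⟨q, mem_univ _, rfl⟩
      · rintro ⟨q, -, rfl⟩
        rw [ZSM_sg_apply]
        simp
    rw [e2, Finset.sum_map]
    rfl
  have hX1 : (RatFunc.X + 1 : RatFunc ℂ) ≠ 0 := by
    have := H37.SM.linear_ne_zero 1 1 one_pos
    push_cast at this
    rw [one_mul, add_comm] at this
    exact this
  have hreg1 : H37.SM.Reg s0 ((RatFunc.X + 1 : RatFunc ℂ)⁻¹) := by
    have := H37.SM.reg_inv_linear (s0 := s0) 1 1 (by
      push_cast
      intro h0
      apply hs1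
      linear_combination h0)
    push_cast at this
    rw [one_mul, add_comm] at this
    exact this
  rw [hsplit]
  rw [hone] at k1
  have hfin := (k1.add ((H37.SM.reg_X_div hs1).mul k2)).add (hreg1.mul k3)
  convert hfin using 1
  unfold H22.topZetaG
  field_simp
  ring

end Pool.Agent.H37.T5

end S_ZSM

section S_ZAPA

/-!
# ZAPA: an integral weight in the interior of a face near a critical ray

`w` critical (`CritW`), `w ∈ R`, simplicial; `Y` a set of functionals vanishing at `(-N(w); w)`, containing the support of `Λ` (`IsLam`).  `zlocZ` at `c = some w` with `T = {i : a_i not on the face of w}` and `ψ_i = homRow a i` (`ψ_i·(-N(w); w) = a_i·w - N(w) > 0`) gives `p ∈ ℤ^{1+n}`.  `w' j = (p (inr j)).toNat` (`p (inr j) = pr (ph (inr j)) p ≥ 0`), `t = -p (inl ())`.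
(1) `Y` contains some `inl b`: the coordinate `inl ()` of `IsLam`: `-s0 = ∑_b Λ (inl b)`, `s0 ≠ 0`.
(2) all `i`: `a_i·w' - t = homRow a i·p ≥ 0`: off the face of `w` by `ψ`, on the face by `zsd_conv` (convex combination of vertices, `pr (ph (inl t)) p ≥ 0`); equality for `b`: so `N(w') = t`, `p = lf a w'`.
(3) `|w'| + N(w') s0 = pr AA p + pr BB p s0 = ∑ Λ ω pr (ph ω) p = 0` (`zlam_pair`; `Λ ω ≠ 0` implies `ω ∈ Y`, `pr (ph ω) p = 0`).
(4) `N(w') > 0`: otherwise `|w'| = 0` by (3), `w' = 0`, `p = 0`, so `Y` is everything and `w j = 0` for all `j`: contradiction with `w ≠ 0`.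
(5) `i` on the face of `w'`: `homRow a i·p = 0`, so `i` is on the face of `w` (`ψ`), and in `(1, a_i) = ∑ θ_t (1, a_t)` only `t` with `pr (ph (inl t)) p = 0`, i.e. `inl t ∈ Y`, occur.
-/

set_option autoImplicit false

namespace Pool.Agent.H37.T5

open Finset H60.RegTri
open Pool.Agent.H56.SMC

theorem ZAPA_wmin_le {n r : ℕ} (a : Fin r → (Fin n →₀ ℕ)) (v : Fin n → ℕ) (i : Fin r) :
    H22.wmin a v ≤ ∑ j, a i j * v j :=
  ciInf_le (OrderBot.bddBelow _) i

theorem ZAPA_exists {n r : ℕ} (hr : 0 < r) (a : Fin r → (Fin n →₀ ℕ)) (v : Fin n → ℕ) :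
    ∃ i, ∑ j, a i j * v j = H22.wmin a v := by
  have : Nonempty (Fin r) := ⟨⟨0, hr⟩⟩
  exact Nat.sInf_mem (Set.range_nonempty _)

theorem ZAPA_real {n r : ℕ} (a : Fin r → (Fin n →₀ ℕ)) (i : Fin r) (p : Unit ⊕ Fin n → ℤ) :
    (pr (H22.homRow a i) p : ℝ) = ∑ y, H22.rowR a i y * (p y : ℝ) := by
  unfold pr
  push_cast
  refine Finset.sum_congr rfl fun y _ => ?_
  rcases y with y | y <;> simp [H22.homRow, H22.rowR]

theorem ZAPA_comb {n r : ℕ} (a : Fin r → (Fin n →₀ ℕ)) (i : Fin r) (p : Unit ⊕ Fin n → ℤ)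
    (θ : Vx a → ℝ) (h : H22.rowR a i = ∑ t, θ t • H22.rowR a t.1) :
    (pr (H22.homRow a i) p : ℝ) = ∑ t, θ t * (pr (ph a (Sum.inl t)) p : ℝ) := by
  have h1 : ∀ t : Vx a, (pr (ph a (Sum.inl t)) p : ℝ) = ∑ y, H22.rowR a t.1 y * (p y : ℝ) :=
    fun t => ZAPA_real a t.1 p
  rw [ZAPA_real, h]
  simp only [h1, Finset.mul_sum, Finset.sum_apply, Pi.smul_apply, smul_eq_mul, Finset.sum_mul]
  rw [Finset.sum_comm]
  refine Finset.sum_congr rfl fun t _ => Finset.sum_congr rfl fun y _ => ?_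
  ring

theorem ZAPA_lf {n r : ℕ} (a : Fin r → (Fin n →₀ ℕ)) (i : Fin r) (w : Fin n → ℕ) :
    pr (H22.homRow a i) (lf a w) = (∑ j, a i j * w j : ℕ) - (H22.wmin a w : ℤ) := by
  simp [pr, lf, H22.homRow, Fintype.sum_sum_type]
  ring

theorem ZAPA_hom {n r : ℕ} (a : Fin r → (Fin n →₀ ℕ)) (i : Fin r) (p : Unit ⊕ Fin n → ℤ) :
    pr (H22.homRow a i) p = p (Sum.inl ()) + ∑ j, (a i j : ℤ) * p (Sum.inr j) := by
  simp [pr, H22.homRow, Fintype.sum_sum_type]

theorem ZAPA_inr {n r : ℕ} (a : Fin r → (Fin n →₀ ℕ)) (j : Fin n) (p : Unit ⊕ Fin n → ℤ) :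
    pr (ph a (Sum.inr j)) p = p (Sum.inr j) := by
  simp [pr, ph, Fintype.sum_sum_type, Pi.single_apply]

/-- ZAPA -/
theorem zapa {n r : ℕ} (a : Fin r → (Fin n →₀ ℕ)) (ha : Function.Injective a) (hr : 0 < r)
    (R : Finset (Fin n → ℕ)) (hR : RaySet a R) (s0 : ℂ) (hs0 : s0 ≠ 0)
    (hsimp : ∀ w, CritW a s0 w → SimpF a w) (Λ : OmT a → ℂ) (hΛ : IsLam (ph a) AA BB s0 Λ)
    (c : Option R) (hc : IsCr AA BB s0 (vv a R c)) (Y : Finset (OmT a))
    (hY : ∀ ω ∈ Y, pr (ph a ω) (vv a R c) = 0) (hΛY : ∀ ω, Λ ω ≠ 0 → ω ∈ Y) :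
    ∃ w' : Fin n → ℕ, 0 < H22.wmin a w' ∧ s0 = -(H22.wsum w' : ℂ) / (H22.wmin a w' : ℂ) ∧
      (∀ b : Vx a, ∑ j, a b.1 j * w' j = H22.wmin a w' ↔ Sum.inl b ∈ Y) ∧
      (∀ j, w' j = 0 ↔ Sum.inr j ∈ Y) ∧
      ∀ i, ∑ j, a i j * w' j = H22.wmin a w' → ∃ θ : Vx a → ℝ, (∀ t, 0 ≤ θ t) ∧
        ∑ t, θ t = 1 ∧ (∀ t, θ t ≠ 0 → Sum.inl t ∈ Y) ∧
        H22.rowR a i = ∑ t, θ t • H22.rowR a t.1 := by
  classical
  have hZ := zzs a ha hr R hR s0 hs0 hsimp
  obtain ⟨w, hw⟩ : ∃ w, c = some w := by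
    rcases c with _ | w
    · exact absurd ((IsCr_rho (n := n) s0).1 hc) hs0
    · exact ⟨w, rfl⟩
  subst hw
  have hcw : IsCr AA BB s0 (lf a w.1) := hc
  have hfac : FacetNormal a w.1 := hR.facet w.1 w.2
  have hcrit : CritW a s0 w.1 := (IsCr_lf s0 w.1 hfac).1 hcw
  have hsf := hsimp w.1 hcrit
  -- the integral point
  obtain ⟨p, hp0, hpY, hpψ⟩ := zlocZ hZ (some w) hc Y hY
    (T := {i : Fin r // ∑ j, a i j * w.1 j ≠ H22.wmin a w.1}) (fun i => H22.homRow a i.1)
    (fun i => by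
      show 0 < pr (H22.homRow a i.1) (lf a w.1)
      rw [ZAPA_lf]
      have h1 := ZAPA_wmin_le a w.1 i.1
      have h2 := i.2
      omega)
  have hpr : ∀ j, 0 ≤ p (Sum.inr j) := fun j => by
    have := hp0 (Sum.inr j)
    rwa [ZAPA_inr] at this
  obtain ⟨w', hw'⟩ : ∃ w' : Fin n → ℕ, ∀ j, (w' j : ℤ) = p (Sum.inr j) :=
    ⟨fun j => (p (Sum.inr j)).toNat, fun j => Int.toNat_of_nonneg (hpr j)⟩
  have hhom : ∀ i, pr (H22.homRow a i) p = p (Sum.inl ()) + ((∑ j, a i j * w' j : ℕ) : ℤ) := by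
    intro i
    rw [ZAPA_hom]
    push_cast
    congr 1
    exact Finset.sum_congr rfl fun j _ => by rw [hw']
  -- (1)
  obtain ⟨b, hb⟩ : ∃ b : Vx a, Sum.inl b ∈ Y := by
    by_contra hcon
    push Not at hcon
    have h1 := hΛ (Sum.inl ())
    have h2 : ∑ ω, Λ ω * (ph a ω (Sum.inl ()) : ℂ) = 0 := by
      rw [Fintype.sum_sum_type]
      have h3 : ∀ b : Vx a, Λ (Sum.inl b) = 0 := fun b => by
        by_contra hne
        exact hcon b (hΛY _ hne)
      simp [h3, ph]
    rw [h2] at h1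
    have h4 : -s0 = 0 := by
      have h5 : ((AA : Unit ⊕ Fin n → ℤ) (Sum.inl ()) : ℂ) +
          ((BB : Unit ⊕ Fin n → ℤ) (Sum.inl ()) : ℂ) * s0 = -s0 := by
        simp [AA, BB]
      rw [← h5]; exact h1
    exact hs0 (neg_eq_zero.1 h4)
  have hbp : pr (H22.homRow a b.1) p = 0 := (hpY (Sum.inl b)).2 hb
  -- (2)
  have hon : ∀ i, ∑ j, a i j * w.1 j = H22.wmin a w.1 → ∃ θ : Vx a → ℝ, (∀ t, 0 ≤ θ t) ∧
      ∑ t, θ t = 1 ∧ H22.rowR a i = ∑ t, θ t • H22.rowR a t.1 ∧
      (pr (H22.homRow a i) p : ℝ) = ∑ t, θ t * (pr (ph a (Sum.inl t)) p : ℝ) := by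
    intro i hi
    obtain ⟨θ, h1, h2, -, h4⟩ := zsd_conv a ha w.1 hfac hsf i hi
    exact ⟨θ, h1, h2, h4, ZAPA_comb a i p θ h4⟩
  have hnn : ∀ i, 0 ≤ pr (H22.homRow a i) p := by
    intro i
    by_cases hi : ∑ j, a i j * w.1 j = H22.wmin a w.1
    · obtain ⟨θ, h1, -, -, h4⟩ := hon i hi
      have h5 : (0 : ℝ) ≤ (pr (H22.homRow a i) p : ℝ) := by
        rw [h4]
        refine Finset.sum_nonneg fun t _ => mul_nonneg (h1 t) ?_
        exact_mod_cast hp0 (Sum.inl t)
      exact_mod_cast h5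
    · exact (hpψ ⟨i, hi⟩).le
  have hmin : p (Sum.inl ()) = -(H22.wmin a w' : ℤ) := by
    rw [hhom] at hbp
    obtain ⟨i0, hi0⟩ := ZAPA_exists hr a w'
    have h1 := hnn i0
    rw [hhom, hi0] at h1
    have h2 := ZAPA_wmin_le a w' b.1
    omega
  have hplf : p = lf a w' := by
    funext y
    rcases y with y | y
    · show p (Sum.inl y) = -(H22.wmin a w' : ℤ)
      rw [← hmin]
    · show p (Sum.inr y) = (w' y : ℤ)
      rw [hw']
  have hin : ∀ b : Vx a, ∑ j, a b.1 j * w' j = H22.wmin a w' ↔ Sum.inl b ∈ Y := by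
    intro b
    rw [← hpY (Sum.inl b), hplf, pr_inl_lf]
    constructor
    · intro h; rw [h]; ring
    · intro h; omega
  have hir : ∀ j, w' j = 0 ↔ Sum.inr j ∈ Y := by
    intro j
    rw [← hpY (Sum.inr j), hplf, pr_inr_lf]
    constructor
    · intro h; rw [h]; rfl
    · intro h; exact_mod_cast h
  -- (3)
  have hsum : (H22.wsum w' : ℂ) + (H22.wmin a w' : ℂ) * s0 = 0 := by
    have h1 := zlam_pair Λ hΛ p
    have h2 : ∑ ω, Λ ω * (pr (ph a ω) p : ℂ) = 0 := by
      refine Finset.sum_eq_zero fun ω _ => ?_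
      by_cases hω : Λ ω = 0
      · rw [hω, zero_mul]
      · rw [(hpY ω).2 (hΛY ω hω)]
        simp
    rw [h2, hplf, pr_AA_lf, pr_BB_lf] at h1
    exact_mod_cast h1
  -- (4)
  have hpos : 0 < H22.wmin a w' := by
    by_contra hcon
    have h0 : H22.wmin a w' = 0 := by omega
    rw [h0] at hsum
    have h1 : H22.wsum w' = 0 := by
      have h2 : (H22.wsum w' : ℂ) = 0 := by simpa using hsum
      exact_mod_cast h2
    have h2 : ∀ j, w' j = 0 := fun j => (Finset.sum_eq_zero_iff.1 h1) j (mem_univ j)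
    apply hfac.1
    funext j
    have h3 : Sum.inr j ∈ Y := (hir j).1 (h2 j)
    have h4 : pr (ph a (Sum.inr j)) (lf a w.1) = 0 := hY _ h3
    rw [pr_inr_lf] at h4
    exact_mod_cast h4
  refine ⟨w', hpos, ?_, hin, hir, ?_⟩
  · have h1 : (H22.wmin a w' : ℂ) ≠ 0 := by exact_mod_cast hpos.ne'
    rw [eq_div_iff h1]
    linear_combination hsum
  · intro i hi
    have h1 : pr (H22.homRow a i) p = 0 := by
      rw [hhom, hmin, hi]; ring
    have h2 : ∑ j, a i j * w.1 j = H22.wmin a w.1 := by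
      by_contra hne
      have := hpψ ⟨i, hne⟩
      have h3 : 0 < pr (H22.homRow a i) p := this
      omega
    obtain ⟨θ, h3, h4, h5, h6⟩ := hon i h2
    refine ⟨θ, h3, h4, fun t ht => ?_, h5⟩
    rw [h1] at h6
    have h7 : ∀ t ∈ (univ : Finset (Vx a)), 0 ≤ θ t * (pr (ph a (Sum.inl t)) p : ℝ) :=
      fun t _ => mul_nonneg (h3 t) (by exact_mod_cast hp0 (Sum.inl t))
    have h8 : ∑ t, θ t * (pr (ph a (Sum.inl t)) p : ℝ) = 0 := by
      rw [← h6]; simp
    have h9 := (Finset.sum_eq_zero_iff_of_nonneg h7).1 h8 t (mem_univ t)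
    have h10 : (pr (ph a (Sum.inl t)) p : ℝ) = 0 := (mul_eq_zero.1 h9).resolve_left ht
    exact (hpY (Sum.inl t)).1 (by exact_mod_cast h10)

end Pool.Agent.H37.T5

end S_ZAPA

section S_ZAPB

/-!
# ZAPB: the hypothesis of the induction from unique apex directions

`w'` from `zapa`, `σ = {b.1 : inl b ∈ Y}`.  `FD a w' σ`: `pos`, `on` clear; `ind`: the vectors `rowR a b = vR (ph a) (inl b)` (`inl b ∈ Y`) and `eR j = vR (ph a) (inr j)` (`w' j = 0`, i.e. `inr j ∈ Y`) are a subfamily of the independent family of the functionals vanishing at the critical ray `c` (`ZS.ind` of `zzs`, `hY`); `conv`: from the coefficients `θ` (`rowR` gives `∑ θ = 1` and `pointR`);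
`span`: `p0R a w' = (|w'|/N(w'); 1, …, 1)` and `-s0 = |w'|/N(w')`, so coordinatewise `IsLam` says `(p0R y : ℂ) = ∑_ω Λ ω (ph a ω y : ℂ)`; take real parts: `p0R = ∑_{ω ∈ Y} Re(Λ ω) • vR (ph a) ω`.
The hypothesis `hUB` gives `b, j` with `ApexD a w' σ b j`, `j` unique.  `ApexD a w' σ b j` iff `Ap (fun ω k => pr (ph a ω) (eD k)) Vt Y (inl b) j` (`Vt` = all `inl`): `pr_inl_eD`, `pr_inr_eD` (`inr j' ∈ Y` has value `0` at `eD j` iff `j' ≠ j`, so all iff `w' j ≠ 0`).
-/

set_option autoImplicit false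

namespace Pool.Agent.H37.T5

open Finset H60.RegTri
open Pool.Agent.H56.SMC

private theorem zapb_vR_inl {n r : ℕ} (a : Fin r → (Fin n →₀ ℕ)) (b : Vx a) :
    vR (ph a) (Sum.inl b) = H22.rowR a b.1 := by
  funext j
  rcases j with u | j
  · simp [vR, ph, H22.homRow, H22.rowR]
  · simp [vR, ph, H22.homRow, H22.rowR]

private theorem zapb_vR_inr {n r : ℕ} (a : Fin r → (Fin n →₀ ℕ)) (k : Fin n) :
    vR (ph a) (Sum.inr k) = eR k := by
  funext j
  rcases j with u | j
  · simp [vR, ph, eR]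
  · simp only [vR, ph, eR, Sum.elim_inr, Pi.single_apply]
    split_ifs <;> simp

/-- ZAPB -/
theorem zapb {n r : ℕ} (a : Fin r → (Fin n →₀ ℕ)) (ha : Function.Injective a) (hr : 0 < r)
    (R : Finset (Fin n → ℕ)) (hR : RaySet a R) (s0 : ℂ) (hs0 : s0 ≠ 0)
    (hsimp : ∀ w, CritW a s0 w → SimpF a w)
    (hUB : ∀ (w : Fin n → ℕ) (σ : Finset (Fin r)), FD a w σ →
      s0 = -(H22.wsum w : ℂ) / (H22.wmin a w : ℂ) → UB a w σ)
    (Λ : OmT a → ℂ) (hΛ : IsLam (ph a) AA BB s0 Λ)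
    (c : Option R) (hc : IsCr AA BB s0 (vv a R c)) (Y : Finset (OmT a))
    (hY : ∀ ω ∈ Y, pr (ph a ω) (vv a R c) = 0) (hΛY : ∀ ω, Λ ω ≠ 0 → ω ∈ Y) :
    ∃ b k, Ap (fun (ω : OmT a) (k : Fin n) => pr (ph a ω) (eD k)) (inL (univ : Finset (Vx a))) Y b k
      ∧ ∀ k', Ap (fun (ω : OmT a) (k : Fin n) => pr (ph a ω) (eD k)) (inL (univ : Finset (Vx a)))
        Y b k' → k' = k := by
  classical
  obtain ⟨w, hpos, hs, hb, hj, hconv⟩ := zapa a ha hr R hR s0 hs0 hsimp Λ hΛ c hc Y hY hΛY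
  have hZ := zzs a ha hr R hR s0 hs0 hsimp
  set σ : Finset (Fin r) := (univ.filter (fun b : Vx a => (Sum.inl b : OmT a) ∈ Y)).image
    (fun b : Vx a => b.1) with hσ
  have hmem : ∀ i, i ∈ σ ↔ ∃ b : Vx a, (Sum.inl b : OmT a) ∈ Y ∧ b.1 = i := by
    intro i
    rw [hσ, mem_image]
    simp only [mem_filter, mem_univ, true_and]
  have hmem' : ∀ b : Vx a, b.1 ∈ σ ↔ (Sum.inl b : OmT a) ∈ Y := by
    intro b
    rw [hmem]
    constructor
    · rintro ⟨b', h1, h2⟩
      have h3 : b' = b := Subtype.ext h2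
      rwa [h3] at h1
    · intro h
      exact ⟨b, h, rfl⟩
  have hFD : FD a w σ := by
    refine ⟨hpos, ?_, ?_, ?_, ?_⟩
    · intro i hi
      obtain ⟨b, h1, rfl⟩ := (hmem i).1 hi
      exact (hb b).2 h1
    · have hind : LinearIndependent ℝ
          (fun ω : {ω | pr (ph a ω) (vv a R c) = 0} => vR (ph a) ω.1) := hZ.ind c hc
      have hvx : ∀ i : σ, ∃ b : Vx a, (Sum.inl b : OmT a) ∈ Y ∧ b.1 = i.1 := fun i =>
        (hmem i.1).1 i.2
      choose g hg1 hg2 using hvx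
      let f : σ ⊕ {j : Fin n // w j = 0} → {ω | pr (ph a ω) (vv a R c) = 0} :=
        Sum.elim (fun i => ⟨Sum.inl (g i), hY _ (hg1 i)⟩)
          (fun j => ⟨Sum.inr j.1, hY _ ((hj j.1).1 j.2)⟩)
      have hf : Function.Injective f := by
        intro x y hxy
        have h1 : (f x).1 = (f y).1 := congrArg Subtype.val hxy
        rcases x with x | x <;> rcases y with y | y
        · have h2 : g x = g y := Sum.inl_injective h1
          have h3 : x.1 = y.1 := by rw [← hg2 x, ← hg2 y, h2]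
          rw [Subtype.ext h3]
        · exact absurd h1 Sum.inl_ne_inr
        · exact absurd h1 Sum.inr_ne_inl
        · have h2 : x.1 = y.1 := Sum.inr_injective h1
          rw [Subtype.ext h2]
      have h3 := hind.comp f hf
      convert h3 using 1
      funext x
      rcases x with x | x
      · change H22.rowR a x.1 = vR (ph a) (Sum.inl (g x))
        rw [zapb_vR_inl, hg2]
      · change eR x.1 = vR (ph a) (Sum.inr x.1)
        rw [zapb_vR_inr]
    · intro i hi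
      obtain ⟨θ, h0, h1, h2, h3⟩ := hconv i hi
      have h4 : H22.pointR a i = ∑ t ∈ univ.filter (fun t => θ t ≠ 0), θ t • H22.pointR a t.1 := by
        rw [Finset.sum_filter_of_ne]
        · funext j
          have h5 := congrFun h3 (Sum.inr j)
          simp only [Finset.sum_apply, Pi.smul_apply, H22.rowR, Sum.elim_inr] at h5
          simp only [Finset.sum_apply, Pi.smul_apply, H22.pointR]
          exact h5
        · intro t _ ht h5
          apply ht
          rw [h5, zero_smul]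
      rw [h4]
      refine (convex_convexHull ℝ _).sum_mem (fun t _ => h0 t) ?_ ?_
      · rw [Finset.sum_filter_of_ne]
        · exact h1
        · intro t _ ht
          exact ht
      · intro t ht
        apply subset_convexHull
        exact ⟨t.1, (hmem' t).2 (h2 t (mem_filter.1 ht).2), rfl⟩
    · have hval : ∀ y, p0R a w y = ∑ ω, (Λ ω).re * (ph a ω y : ℝ) := by
        intro y
        have h1 := hΛ y
        have h2 : (AA y : ℂ) + (BB y : ℂ) * s0 = ((p0R a w y : ℝ) : ℂ) := by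
          rcases y with u | k
          · simp only [AA, BB, p0R, Sum.elim_inl]
            rw [hs]
            push_cast
            ring
          · simp only [AA, BB, p0R, Sum.elim_inr]
            push_cast
            ring
        rw [h2] at h1
        have h3 := congrArg Complex.re h1
        rw [Complex.ofReal_re, Complex.re_sum] at h3
        rw [h3]
        refine sum_congr rfl fun ω _ => ?_
        have h4 : ((ph a ω y : ℤ) : ℂ) = (((ph a ω y : ℤ) : ℝ) : ℂ) := by push_cast; rfl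
        rw [h4, Complex.re_mul_ofReal]
      have hsum : p0R a w = ∑ ω, (Λ ω).re • vR (ph a) ω := by
        funext y
        rw [hval y, Finset.sum_apply]
        rfl
      rw [hsum]
      refine Submodule.sum_mem _ fun ω _ => ?_
      by_cases h0 : Λ ω = 0
      · rw [h0, Complex.zero_re, zero_smul]
        exact Submodule.zero_mem _
      · refine Submodule.smul_mem _ _ (Submodule.subset_span ?_)
        have hωY := hΛY ω h0
        rcases ω with b | k
        · left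
          exact ⟨b.1, (hmem' b).2 hωY, zapb_vR_inl a b⟩
        · right
          exact ⟨k, (hj k).2 hωY, zapb_vR_inr a k⟩
  have hAp : ∀ (b : Vx a) (k : Fin n),
      Ap (fun (ω : OmT a) (k : Fin n) => pr (ph a ω) (eD k)) (inL (univ : Finset (Vx a))) Y
        (Sum.inl b) k ↔ ApexD a w σ b.1 k := by
    intro b k
    constructor
    · rintro ⟨h1, -, h3, h4⟩
      refine ⟨(hmem' b).2 h1, ?_, ?_, ?_⟩
      · intro h5
        have h6 := h4 (Sum.inr k) ((hj k).1 h5) Sum.inr_ne_inl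
        simp only [pr_inr_eD, if_true] at h6
        exact one_ne_zero h6
      · simp only [pr_inl_eD] at h3
        exact_mod_cast h3
      · intro b' hb' hne
        obtain ⟨t, ht, rfl⟩ := (hmem b').1 hb'
        have h6 := h4 (Sum.inl t) ht (fun h => hne (congrArg Subtype.val (Sum.inl_injective h)))
        simp only [pr_inl_eD] at h6
        exact_mod_cast h6
    · rintro ⟨h1, h2, h3, h4⟩
      refine ⟨(hmem' b).1 h1, ?_, ?_, ?_⟩
      · exact mem_map.2 ⟨b, mem_univ _, rfl⟩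
      · simp only [pr_inl_eD]
        exact_mod_cast h3
      · intro ω hω hne
        rcases ω with t | j
        · simp only [pr_inl_eD]
          have h5 := h4 t.1 ((hmem' t).2 hω) (fun h => hne (congrArg Sum.inl (Subtype.ext h)))
          exact_mod_cast h5
        · simp only [pr_inr_eD]
          rw [if_neg]
          rintro rfl
          exact h2 ((hj j).2 hω)
  obtain ⟨b, k, h1, h2⟩ := hUB w σ hFD hs
  obtain ⟨t, -, rfl⟩ := (hmem b).1 h1.1
  exact ⟨Sum.inl t, k, (hAp t k).2 h1, fun k' hk' => h2 k' ((hAp t k').1 hk')⟩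

end Pool.Agent.H37.T5

end S_ZAPB

section S_ZFIN

/-!
# ZFIN: Theorem N

Proof.  Suppose `s0` is a pole.  `ztc` gives a critical facet normal, so `s0 ≠ 0` (`|w| ≠ 0`).  `R` from `exists_raySet`, `zzs`; `zhtb` with `e0 = none` (`IsCr_rho`) and `v' = rv0 R` gives `h`.  `zabs` with `Vt = inL univ`, `e = eD` (`pr_AA_eD`, `pr_BB_eD`), `H` = `zapb`: the sum over `T ∈ (inL univ).powerset` is regular; it is the sum over `T : Finset (Vx a)`
(bijection `T ↦ inL T`).  `zsm`: `Z + X/(X+1) * (this sum)` is regular, `X/(X+1)` is regular at `s0 ≠ -1`, so `Z` is regular: contradiction (`Reg s0 Z` means `¬ Z.denom.IsRoot s0`).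
-/

set_option autoImplicit false

namespace Pool.Agent.H37.T5

open Finset H60.RegTri
open Pool.Agent.H56.SMC

/-- Theorem N -/
theorem polesN {n r : ℕ} (a : Fin r → (Fin n →₀ ℕ)) (ha : Function.Injective a)
    (hne : ∃ i, a i ≠ 0) (s0 : ℂ) (hs1 : s0 ≠ -1)
    (hsimp : ∀ w, CritW a s0 w → SimpF a w)
    (hUB : ∀ (w : Fin n → ℕ) (σ : Finset (Fin r)), FD a w σ →
      s0 = -(H22.wsum w : ℂ) / (H22.wmin a w : ℂ) → UB a w σ)
    (𝒟 : ∀ τ, H22.FaceCones a τ) (𝒯 : ∀ τ, H22.FaceTriang a τ) :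
    ¬ (H22.topZetaG a 𝒟 𝒯).denom.IsRoot s0 := by
  classical
  intro hs
  rcases ztc a 𝒟 𝒯 s0 hs with h | ⟨w0, hw0, hN0, hs00⟩
  · exact hs1 h
  have hs0 : s0 ≠ 0 := by
    intro h0
    rw [h0] at hs00
    have h1 : (H22.wmin a w0 : ℂ) ≠ 0 := by exact_mod_cast hN0.ne'
    rw [eq_comm, div_eq_zero_iff] at hs00
    rcases hs00 with h2 | h2
    · rw [neg_eq_zero] at h2
      have h3 : H22.wsum w0 = 0 := by exact_mod_cast h2
      apply hw0.1
      funext j
      exact (Finset.sum_eq_zero_iff.1 h3) j (mem_univ j)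
    · exact h1 h2
  have hr : 0 < r := by
    obtain ⟨i, _⟩ := hne
    exact Nat.pos_of_ne_zero (fun h => by subst h; exact i.elim0)
  obtain ⟨R, hR⟩ := exists_raySet a hr
  have hZ := zzs a ha hr R hR s0 hs0 hsimp
  obtain ⟨h, hgen, hgen', hp, htop⟩ := zhtb hZ none (fun hc => hs0 ((IsCr_rho s0).1 hc)) (rv0 R)
  have h1 := zabs hZ h hgen hp (inL (univ : Finset (Vx a))) (eD : Fin n → Unit ⊕ Fin n → ℤ)
    pr_AA_eD pr_BB_eD
    (fun Λ hΛ c hc Y hY hΛY => zapb a ha hr R hR s0 hs0 hsimp hUB Λ hΛ c hc Y hY hΛY)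
  have h2 := zsm a ha hr R hR h hgen hgen' s0 hs0 hs1 hsimp htop 𝒟 𝒯
  have h3 : ∑ T : Finset (Vx a), (-1) ^ T.card * (mulv (ph a) (inL T) : RatFunc ℂ) * JT a R h T =
      ∑ T ∈ (inL (univ : Finset (Vx a))).powerset,
        (-1) ^ T.card * (mulv (ph a) T : RatFunc ℂ) *
          ∑ σ ∈ TT (vv a R) (ph a) h T, tmv AA BB (vv a R) σ := by
    refine Finset.sum_bij (fun T _ => inL T) ?_ ?_ ?_ ?_
    · intro T _
      rw [mem_powerset]
      exact Finset.map_subset_map.2 (subset_univ _)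
    · intro T _ T' _ hTT
      exact Finset.map_injective _ hTT
    · intro T hT
      rw [mem_powerset] at hT
      obtain ⟨T', -, hT'⟩ := Finset.subset_map_iff.1 hT
      exact ⟨T', mem_univ _, hT'.symm⟩
    · intro T _
      rw [inL, card_map]
      rfl
  rw [← h3] at h1
  have h4 := h2.sub ((H37.SM.reg_X_div hs1).mul h1)
  rw [add_sub_cancel_right] at h4
  exact h4 hs

end Pool.Agent.H37.T5

end S_ZFIN
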