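import Mathlib
import Pool.Agent.H37.T5.FDefs
import Pool.Agent.H56.SL.M1
import Pool.Agent.H56.SN.R5
import Pool.Agent.H56.SN.V4

/-! Strong monodromy, simplicial critical facets, part W1: this file joins the modules RootS, TFin. -/

set_option autoImplicit false

section S_RootS

/-!
# Theorem R
-/

set_option autoImplicit false

namespace Pool.Agent.H37.T5

open Finset
open Pool.Agent.H56.SMC

/-- Theorem R -/
theorem rootS {n r : ℕ} (a : Fin r → (Fin n →₀ ℕ)) (ha : Function.Injective a)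
    (κ : Fin r → ℂ) (hκ : ∀ i, κ i ≠ 0) (hnd : Nondeg a κ)
    (b : Polynomial ℂ) (P : H22.WeylS n) (hfe : H22.FunctionalEquation (fpoly a κ) b P)
    (w : Fin n → ℕ) (σ : Finset (Fin r)) (hF : FD a w σ) (hs : H22.wsum w ≠ H22.wmin a w)
    (hU : ¬ UB a w σ) : b.IsRoot (-(H22.wsum w : ℂ) / (H22.wmin a w : ℂ)) :=
  Pool.Agent.H56.T5.rth a κ hnd b P hfe w σ hF hs hU

end Pool.Agent.H37.T5

end S_RootS

section S_TFin

/-!
# Theorem T5
-/

set_option autoImplicit false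

namespace Pool.Agent.H37.T5

open Finset
open Pool.Agent.H56.SMC

/-- No direction is bad for the face of `w`. -/
def NoBad {n r : ℕ} (a : Fin r → (Fin n →₀ ℕ)) (w : Fin n → ℕ) : Prop :=
  ∀ k, w k ≠ 0 → (∃ i, a i k = 0) → (∃ i, ∑ j, a i j * w j = H22.wmin a w ∧ a i k = 1) →
    Module.finrank ℝ (Submodule.span ℝ
      ({y | ∃ i, ∑ j, a i j * w j = H22.wmin a w ∧ a i k = 0 ∧ y = H22.rowR a i} ∪
        {y | ∃ j, w j = 0 ∧ y = Sum.elim (fun _ => 0) (Pi.single j 1)} :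
          Set (Unit ⊕ Fin n → ℝ))) ≠ n - 1

/-- T5 -/
theorem tfin {n r : ℕ} (a : Fin r → (Fin n →₀ ℕ)) (ha : Function.Injective a)
    (hne : ∃ i, a i ≠ 0) (κ : Fin r → ℂ) (hκ : ∀ i, κ i ≠ 0) (hnd : Nondeg a κ)
    (𝒟 : ∀ τ : Finset (Fin r), H22.FaceCones a τ) (𝒯 : ∀ τ : Finset (Fin r), H22.FaceTriang a τ)
    (b : Polynomial ℂ) (P : H22.WeylS n) (hP : H22.FunctionalEquation (fpoly a κ) b P)
    (s0 : ℂ) (hs : (H22.topZetaG a 𝒟 𝒯).denom.IsRoot s0)
    (hall : ∀ w, CritW a s0 w → SimpF a w ∨ NoBad a w) : b.IsRoot s0 := by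
  classical
  by_contra hb
  have h1 : s0 ≠ -1 := by
    rintro rfl
    exact hb (bm1 a ha hne κ hκ b P hP)
  refine polesN a ha hne s0 h1 (fun w hw => ?_) (fun w σ hF hs0 => ?_) 𝒟 𝒯 hs
  · rcases hall w hw with h | h
    · exact h
    · exfalso
      apply hb
      rw [hw.2.2]
      refine root1 a ha hne κ hκ hnd b P hP w hw.1 hw.2.1 (Or.inr (Or.inl ?_))
      intro k hk h0 hB
      exact h k hk h0 hB.2 hB.1
  · by_contra hU
    apply hb
    rw [hs0]
    refine rootS a ha κ hκ hnd b P hP w σ hF (fun he => h1 ?_) hU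
    rw [hs0, he]
    have : (H22.wmin a w : ℂ) ≠ 0 := by exact_mod_cast hF.pos.ne'
    field_simp

end Pool.Agent.H37.T5

end S_TFin
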